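import Mathlib

set_option autoImplicit false

namespace Pool.Agent.P.MP_48d4bc_co

universe u

/-- `H` contains a copy of `G` all of whose edges get the same colour under `c`. -/
def HasMonoCopy {β V C : Type*} (G : SimpleGraph β) (H : SimpleGraph V) (c : Sym2 V → C) : Prop :=
  ∃ (f : G.Copy H) (k : C), ∀ a b, G.Adj a b → c s(f a, f b) = k

/-- The pair `(G₁, G₂)` is exceptional. -/
def Exceptional {α β : Type*} (G₁ : SimpleGraph α) (G₂ : SimpleGraph β) : Prop :=
  (∀ n : ℕ, 1 ≤ n → ∃ (V : Type u) (H : SimpleGraph V),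
    G₁.Free H ∧ ∀ c : Sym2 V → Fin n, HasMonoCopy G₂ H c) ∧
  (∀ (V : Type u) (H : SimpleGraph V), G₁.Free H → ∃ c : Sym2 V → ℕ, ¬ HasMonoCopy G₂ H c)

/-- Every vertex lies in a triangle, and whenever the triangles are split into two nonempty classes
there are at least two edges each of which lies in triangles of both classes. -/
def TriangleLinked {γ : Type*} (F : SimpleGraph γ) : Prop :=
  (∀ v, ∃ t, F.IsNClique 3 t ∧ v ∈ t) ∧
  ∀ p : Finset γ → Prop, (∃ t, F.IsNClique 3 t ∧ p t) → (∃ t, F.IsNClique 3 t ∧ ¬ p t) →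
    {e | e ∈ F.edgeSet ∧ (∃ t, F.IsNClique 3 t ∧ p t ∧ ∀ v ∈ e, v ∈ t) ∧
      ∃ t, F.IsNClique 3 t ∧ ¬ p t ∧ ∀ v ∈ e, v ∈ t}.Nontrivial

/-- The wheel with `n` spokes: a hub joined to all vertices of a cycle of length `n`. -/
def wheel (n : ℕ) : SimpleGraph (Option (ZMod n)) :=
  SimpleGraph.fromRel fun u v => u = none ∨ ∃ i, u = some i ∧ v = some (i + 1)

/-- The complete tripartite graph with parts of size `m`. -/
def tripartite (m : ℕ) : SimpleGraph (Fin 3 × Fin m) :=
  SimpleGraph.comap Prod.fst ⊤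

end Pool.Agent.P.MP_48d4bc_co
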