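import Pool.Agent.P.MP_48d4bc_co.Tools

set_option autoImplicit false

namespace Pool.Agent.P.MP_48d4bc_co

/-- `(a, F)` is a cone of the `(r+1)`-uniform hypergraph `T`. -/
def IsCone {X : Type} [DecidableEq X] (r : ℕ) (T : Finset X → Prop) (a : X) (F : Set X) : Prop :=
  a ∉ F ∧ (∀ s : Finset X, ↑s ⊆ F → s.card = r → T (insert a s)) ∧
    ∀ s : Finset X, ↑s ⊆ F → s.card = r + 1 → ¬ T s

/-- Every colouring of finite sets is canonical up to size `r` on a large cone. -/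
def ConeRamsey (r : ℕ) (C I : Type) : Prop :=
  ∃ (X : Type) (_ : LinearOrder X) (_ : WellFoundedLT X) (T : Finset X → Prop),
    ∀ π : Finset X → C, ∃ (a : X) (F : Set X), (∀ f : I → X, ¬ F ⊆ Set.range f) ∧
      (∀ η ∈ F, a < η) ∧ IsCone r T a F ∧
      ∀ s t : Finset X, ↑s ⊆ insert a F → ↑t ⊆ insert a F → s.card = t.card → s.card ≤ r →
        π s = π t

theorem coneRamsey_zero (C I : Type) : ConeRamsey 0 C I := by
  classical
  obtain ⟨L, _, _, hne, hL⟩ := exists_big (Option I)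
  let a : L := Classical.arbitrary L
  refine ⟨L, inferInstance, inferInstance, fun s => a ∈ s, fun π => ⟨a, Set.Ioi a, ?_,
    fun _ h => h, ⟨lt_irrefl a, fun s _ _ => Finset.mem_insert_self _ _, ?_⟩, ?_⟩⟩
  · intro f hf
    obtain ⟨b, hb⟩ := hL (fun o => o.elim a f)
    obtain ⟨i, hi⟩ := hf (hb none)
    have := hb (some i)
    simp only [Option.elim] at this
    exact absurd hi this.ne
  · intro s hs _ ha
    exact lt_irrefl a (hs ha)
  · intro s t _ _ h1 h2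
    have h3 : s = ∅ := Finset.card_eq_zero.1 (by omega)
    have h4 : t = ∅ := Finset.card_eq_zero.1 (by omega)
    rw [h3, h4]

/-- End homogeneous combs. -/
theorem exists_comb (K C : Type) [LinearOrder K] [WellFoundedLT K] :
    ∃ (X : Type) (_ : LinearOrder X) (_ : WellFoundedLT X) (Λ : Type) (fn : X → K → Λ),
      ∀ π : Finset X → C, ∃ (b : K → X) (β : K → Λ) (p : Finset K → C), StrictMono b ∧
        (∀ ξ ζ, ζ < ξ → fn (b ξ) ζ = β ζ) ∧ (∀ ξ, fn (b ξ) ξ ≠ β ξ) ∧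
        ∀ (ξ : K) (u : Finset K), (∀ ζ ∈ u, ζ < ξ) → π (insert (b ξ) (u.image b)) = p u := by
  classical
  obtain ⟨Λ, _, _, hΛ, hbig⟩ := exists_big (K × (Finset K → C))
  obtain ⟨W, _, _, ⟨e⟩⟩ := exists_wo (K → Λ)
  let X : Type := Λ ×ₗ W
  have hX : Nonempty X := ⟨toLex (Classical.arbitrary Λ, e.symm (Classical.arbitrary _))⟩
  let fn : X → K → Λ := fun x => e (ofLex x).2
  refine ⟨X, inferInstance, inferInstance, Λ, fn, fun π => ?_⟩
  let P : K → (K → Λ) → (K → X) → (Finset K → C) → X → Prop := fun ξ β b p x =>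
    (∀ ζ, ζ < ξ → fn x ζ = β ζ) ∧ (∀ ζ, ζ < ξ → b ζ < x) ∧
      ∀ u : Finset K, (∀ ζ ∈ u, ζ < ξ) → π (insert x (u.image b)) = p u
  have hP : ∀ ξ β β' b b' p p', (∀ ζ, ζ < ξ → β ζ = β' ζ) → (∀ ζ, ζ < ξ → b ζ = b' ζ) →
      (∀ u : Finset K, (∀ ζ ∈ u, ζ < ξ) → p u = p' u) → P ξ β b p = P ξ β' b' p' := by
    intro ξ β β' b b' p p' h1 h2 h3
    funext x
    simp only [P]
    refine propext (and_congr (forall_congr' fun ζ => forall_congr' fun h => by rw [h1 ζ h])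
      (and_congr (forall_congr' fun ζ => forall_congr' fun h => by rw [h2 ζ h])
        (forall_congr' fun u => forall_congr' fun h => ?_)))
    rw [h3 u h, Finset.image_congr (f := b) (g := b') fun ζ hζ => h2 ζ (h ζ hζ)]
  choose bd hbd using hbig
  let A : K → (K → Λ × ((Finset K → C) → X)) → (Finset K → C) → X := fun ξ f p =>
    Classical.epsilon (P ξ (fun ζ => (f ζ).1) (fun ζ => (f ζ).2 p) p)
  have hA : ∀ ξ f f', (∀ ζ, ζ < ξ → f ζ = f' ζ) → A ξ f = A ξ f' := by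
    intro ξ f f' h
    funext p
    simp only [A]
    rw [hP ξ _ (fun ζ => (f' ζ).1) _ (fun ζ => (f' ζ).2 p) p p (fun ζ hζ => by rw [h ζ hζ])
      (fun ζ hζ => by rw [h ζ hζ]) (fun _ _ => rfl)]
  obtain ⟨f, hf⟩ := exists_rec (K := K) (S := Λ × ((Finset K → C) → X))
    (fun ξ f => (bd (fun q => fn (A ξ f q.2) ξ), A ξ f))
    (fun ξ f f' h => by rw [hA ξ f f' h])
  let β : K → Λ := fun ζ => (f ζ).1
  let x₀ : X := toLex (bd (fun q => (ofLex ((f q.1).2 q.2)).1), e.symm β)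
  have hx₀ : fn x₀ = β := by simp [fn, x₀]
  have hlt : ∀ ξ p, (f ξ).2 p < x₀ := fun ξ p =>
    Prod.Lex.lt_iff.2 (Or.inl (hbd (fun q => (ofLex ((f q.1).2 q.2)).1) (ξ, p)))
  obtain ⟨b, hb⟩ := exists_rec (K := K) (S := X)
    (fun ξ b => Classical.epsilon (P ξ β b (fun u => π (insert x₀ (u.image b)))))
    (fun ξ b b' h => by
      rw [hP ξ β β b b' _ (fun u => π (insert x₀ (u.image b'))) (fun _ _ => rfl) h
        (fun u hu => by
          rw [Finset.image_congr (f := b) (g := b') fun ζ hζ => h ζ (hu ζ hζ)])])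
  let p : Finset K → C := fun u => π (insert x₀ (u.image b))
  have hab : ∀ ξ, (f ξ).2 p = b ξ := by
    intro ξ
    induction ξ using WellFoundedLT.induction with
    | ind ξ ih =>
      rw [hf ξ, hb ξ]
      simp only [A]
      rw [hP ξ _ β _ b p p (fun _ _ => rfl) ih (fun _ _ => rfl)]
  have hspec : ∀ ξ, P ξ β b p (b ξ) := by
    intro ξ
    have h : ∃ x, P ξ β b p x :=
      ⟨x₀, fun ζ _ => by rw [hx₀], fun ζ _ => by rw [← hab ζ]; exact hlt ζ p, fun _ _ => rfl⟩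
    have h2 := Classical.epsilon_spec h
    rw [← hb ξ] at h2
    exact h2
  refine ⟨b, β, p, fun ζ ξ h => (hspec ξ).2.1 ζ h, fun ξ => (hspec ξ).1, fun ξ => ?_,
    fun ξ => (hspec ξ).2.2⟩
  have h1 : β ξ = bd (fun q => fn (A ξ f q.2) ξ) := by
    simp only [β]
    rw [hf ξ]
  have h2 : A ξ f p = b ξ := by
    rw [← hab ξ, hf ξ]
  have h3 := hbd (fun q => fn (A ξ f q.2) ξ) (ξ, p)
  rw [← h1] at h3
  simp only [h2] at h3
  exact h3.ne

theorem coneRamsey_succ {r : ℕ} {C I : Type} (h : ConeRamsey r C I) :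
    ConeRamsey (r + 1) C I := by
  classical
  obtain ⟨K, _, _, T, hK⟩ := h
  obtain ⟨X, _, _, Λ, fn, hX⟩ := exists_comb K C
  let DS : Finset X → Set K := fun s =>
    {ξ | ∃ x ∈ s, ∃ y ∈ s, fn x ξ ≠ fn y ξ ∧ ∀ ζ, ζ < ξ → fn x ζ = fn y ζ}
  refine ⟨X, inferInstance, inferInstance, fun s => ∃ u : Finset K, ↑u = DS s ∧ T u, fun π => ?_⟩
  obtain ⟨b, β, p, hb, h1, h2, h3⟩ := hX π
  obtain ⟨a, F, hF, haF, ⟨hc1, hc2, hc3⟩, hhom⟩ := hK p
  have hDS : ∀ (u : Finset K) (ξ : K), (∀ ζ ∈ u, ζ < ξ) →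
      DS (insert (b ξ) (u.image b)) = ↑u := by
    intro u ξ hu
    have hmem : ∀ x, x ∈ insert (b ξ) (u.image b) ↔ ∃ η, (η = ξ ∨ η ∈ u) ∧ b η = x := by
      intro x
      simp only [Finset.mem_insert, Finset.mem_image]
      constructor
      · rintro (rfl | ⟨η, h, rfl⟩)
        · exact ⟨ξ, Or.inl rfl, rfl⟩
        · exact ⟨η, Or.inr h, rfl⟩
      · rintro ⟨η, rfl | h, rfl⟩
        · exact Or.inl rfl
        · exact Or.inr ⟨η, h, rfl⟩
    have key : ∀ η η' ζ, η < η' → fn (b η) ζ ≠ fn (b η') ζ →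
        (∀ ζ', ζ' < ζ → fn (b η) ζ' = fn (b η') ζ') → ζ = η := by
      intro η η' ζ hlt hne hall
      rcases lt_trichotomy ζ η with hh | hh | hh
      · exact absurd (by rw [h1 η ζ hh, h1 η' ζ (hh.trans hlt)]) hne
      · exact hh
      · exact absurd (by rw [hall η hh, h1 η' η hlt]) (h2 η)
    have hup : ∀ η η', (η = ξ ∨ η ∈ u) → (η' = ξ ∨ η' ∈ u) → η < η' → η ∈ u := by
      rintro η η' (rfl | h) (rfl | h') hlt
      · exact absurd hlt (lt_irrefl _)
      · exact absurd hlt (not_lt.2 (hu _ h').le)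
      · exact h
      · exact h
    ext ζ
    constructor
    · rintro ⟨x, hx, y, hy, hne, hall⟩
      obtain ⟨η, hη, rfl⟩ := (hmem x).1 hx
      obtain ⟨η', hη', rfl⟩ := (hmem y).1 hy
      rcases lt_trichotomy η η' with hh | hh | hh
      · rw [key η η' ζ hh hne hall]
        exact hup η η' hη hη' hh
      · exact absurd (by rw [hh]) hne
      · rw [key η' η ζ hh hne.symm fun ζ' h => (hall ζ' h).symm]
        exact hup η' η hη' hη hh
    · intro hζ
      refine ⟨b ζ, (hmem _).2 ⟨ζ, Or.inr hζ, rfl⟩, b ξ, (hmem _).2 ⟨ξ, Or.inl rfl, rfl⟩, ?_, ?_⟩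
      · rw [h1 ξ ζ (hu ζ hζ)]
        exact h2 ζ
      · intro ζ' h
        rw [h1 ζ ζ' h, h1 ξ ζ' (h.trans (hu ζ hζ))]
  have hsplit : ∀ (S : Set K) (s : Finset X) (m : ℕ), ↑s ⊆ b '' S → s.card = m + 1 →
      ∃ (u : Finset K) (ξ : K), ↑u ⊆ S ∧ ξ ∈ S ∧ u.card = m ∧ (∀ ζ ∈ u, ζ < ξ) ∧
        s = insert (b ξ) (u.image b) := by
    intro S s m hs hcard
    obtain ⟨v, hv, rfl⟩ := Finset.subset_set_image_iff.1 hs
    rw [Finset.card_image_of_injective _ hb.injective] at hcard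
    have hne : v.Nonempty := Finset.card_pos.1 (by omega)
    refine ⟨v.erase (v.max' hne), v.max' hne, fun ζ hζ => hv (Finset.mem_of_mem_erase hζ),
      hv (v.max'_mem hne), by rw [Finset.card_erase_of_mem (v.max'_mem hne), hcard]; rfl,
      fun ζ hζ => Finset.lt_max'_of_mem_erase_max' v hne hζ, ?_⟩
    rw [← Finset.image_insert, Finset.insert_erase (v.max'_mem hne)]
  refine ⟨b a, b '' F, fun f hf => ?_, ?_, ⟨?_, ?_, ?_⟩, ?_⟩
  · have : Nonempty K := ⟨a⟩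
    refine hF (fun i => Function.invFun b (f i)) fun η hη => ?_
    obtain ⟨i, hi⟩ := hf ⟨η, hη, rfl⟩
    exact ⟨i, by simp only [hi, Function.leftInverse_invFun hb.injective η]⟩
  · rintro _ ⟨η, hη, rfl⟩
    exact hb (haF η hη)
  · rintro ⟨η, hη, he⟩
    exact hc1 (hb.injective he ▸ hη)
  · intro s hs hcard
    obtain ⟨u, ξ, hu, hξ, huc, hlt, rfl⟩ := hsplit F s r hs hcard
    refine ⟨insert a u, ?_, hc2 u hu huc⟩
    rw [Finset.insert_comm, ← Finset.image_insert, hDS]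
    intro ζ hζ
    rcases Finset.mem_insert.1 hζ with rfl | hζ
    · exact haF ξ hξ
    · exact hlt ζ hζ
  · rintro s hs hcard ⟨w, hw, hT⟩
    obtain ⟨u, ξ, hu, _, huc, hlt, rfl⟩ := hsplit F s (r + 1) hs hcard
    rw [hDS u ξ hlt, Finset.coe_inj] at hw
    exact hc3 u hu huc (hw ▸ hT)
  · intro s t hs ht hst hr
    rw [← Set.image_insert_eq] at hs ht
    rcases Nat.eq_zero_or_eq_succ_pred s.card with h0 | h0
    · have ht0 : t = ∅ := Finset.card_eq_zero.1 (hst ▸ h0)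
      rw [Finset.card_eq_zero.1 h0, ht0]
    · obtain ⟨u, ξ, hu, _, huc, hlt, rfl⟩ := hsplit _ s _ hs h0
      obtain ⟨u', ξ', hu', _, huc', hlt', rfl⟩ := hsplit _ t _ ht (hst ▸ h0)
      rw [h3 ξ u hlt, h3 ξ' u' hlt']
      refine hhom u u' hu hu' (by rw [huc, huc', hst]) ?_
      rw [huc]
      simp only [Nat.pred_eq_sub_one]
      omega

theorem coneRamsey (r : ℕ) (C I : Type) : ConeRamsey r C I := by
  induction r with
  | zero => exact coneRamsey_zero C I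
  | succ r ih => exact coneRamsey_succ ih

end Pool.Agent.P.MP_48d4bc_co
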