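import Pool.Agent.P.MP_48d4bc_co.Reflect
import Pool.Agent.P.MP_48d4bc_co.StepUp

set_option autoImplicit false

namespace Pool.Agent.P.MP_48d4bc_co

theorem noChain_of_isCone {X : Type} [DecidableEq X] {r : ℕ} {T : Finset X → Prop} :
    NoChain (r + 2) (fun p : {p : X × Set X // IsCone (r + 1) T p.1 p.2} => p.1.1)
      (fun p => p.1.2) := by
  classical
  intro ι _ u k η hu h1 h2
  have hne : u.Nonempty := Finset.card_pos.1 (by omega)
  set β₁ := u.min' hne with hβ₁
  have hm1 : β₁ ∈ u := u.min'_mem hne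
  have hc1 : (u.erase β₁).card = r + 1 := by rw [Finset.card_erase_of_mem hm1, hu]; rfl
  have hne' : (u.erase β₁).Nonempty := Finset.card_pos.1 (by omega)
  set β₂ := (u.erase β₁).min' hne' with hβ₂
  have hm2 : β₂ ∈ u.erase β₁ := (u.erase β₁).min'_mem hne'
  set w := (u.erase β₁).erase β₂ with hw
  have hc2 : w.card = r := by rw [hw, Finset.card_erase_of_mem hm2, hc1]; rfl
  have hwu : ∀ γ ∈ w, γ ∈ u := fun γ h => Finset.mem_of_mem_erase (Finset.mem_of_mem_erase h)
  have hlt1 : ∀ γ ∈ u.erase β₁, β₁ < γ := fun γ h => Finset.min'_lt_of_mem_erase_min' u hne h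
  have hlt2 : ∀ γ ∈ w, β₂ < γ := fun γ h => Finset.min'_lt_of_mem_erase_min' _ hne' h
  let a : ι → X := fun γ => (k γ).1.1
  have hinj : Set.InjOn a ↑w := by
    intro γ hγ γ' hγ' he
    rcases lt_trichotomy γ γ' with h | h | h
    · have h3 := h1 γ (hwu γ hγ) γ' (hwu γ' hγ') h
      exact absurd (show a γ ∈ (k γ).1.2 from he ▸ h3) (k γ).2.1
    · exact h
    · have h3 := h1 γ' (hwu γ' hγ') γ (hwu γ hγ) h
      exact absurd (show a γ' ∈ (k γ').1.2 from he ▸ h3) (k γ').2.1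
  have hη : η ∉ w.image a := by
    intro h
    obtain ⟨γ, hγ, he⟩ := Finset.mem_image.1 h
    exact (k γ).2.1 (show a γ ∈ (k γ).1.2 from he ▸ h2 γ (hwu γ hγ))
  have hs : (insert η (w.image a)).card = r + 1 := by
    rw [Finset.card_insert_of_notMem hη, Finset.card_image_of_injOn hinj, hc2]
  have hsub : ∀ β ∈ u, (∀ γ ∈ w, β < γ) → ↑(insert η (w.image a)) ⊆ (k β).1.2 := by
    intro β hβ hlt x hx
    rcases Finset.mem_insert.1 hx with rfl | hx
    · exact h2 β hβ
    · obtain ⟨γ, hγ, rfl⟩ := Finset.mem_image.1 hx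
      exact h1 β hβ γ (hwu γ hγ) (hlt γ hγ)
  have hs2 := hsub β₂ (Finset.mem_of_mem_erase hm2) hlt2
  have hT := (k β₂).2.2.1 _ hs2 hs
  refine (k β₁).2.2.2 _ ?_ ?_ hT
  · rw [Finset.coe_insert]
    exact Set.insert_subset (h1 β₁ hm1 β₂ (Finset.mem_of_mem_erase hm2) (hlt1 β₂ hm2))
      (hsub β₁ hm1 fun γ hγ => hlt1 γ (Finset.mem_of_mem_erase hγ))
  · rw [Finset.card_insert_of_notMem (fun h => (k β₂).2.1 (hs2 h)), hs]

/-- A graph without `(r+3)`-cliques such that every edge colouring with colours from `C` has a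
monochromatic `(r+2)`-clique. -/
theorem clique_ramsey (r : ℕ) (C : Type) [Nonempty C] :
    ∃ (V : Type) (G : SimpleGraph V), G.CliqueFree (r + 3) ∧ ∀ c : Sym2 V → C,
      ∃ (t : Finset V) (j : C), G.IsNClique (r + 2) t ∧ ∀ u ∈ t, ∀ v ∈ t, u ≠ v → c s(u, v) = j := by
  classical
  obtain ⟨X, _, _, T, hX⟩ := coneRamsey (r + 1) (ℕ → Set C) (C × ℕ)
  let J : Type := {p : X × Set X // IsCone (r + 1) T p.1 p.2}
  have hJ : Nonempty J := by
    obtain ⟨a, F, _, _, h, _⟩ := hX (fun _ _ => ∅)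
    exact ⟨⟨(a, F), h⟩⟩
  obtain ⟨V, G, hG, hV⟩ := reflect (n := r + 2) (by omega) (Finset X × ℕ × C × ℕ) C
    (fun p : J => p.1.1) (fun p => p.1.2) noChain_of_isCone
  refine ⟨V, G, hG, fun c => ?_⟩
  obtain ⟨Θ, _, hΘ, k, y, z, h1, h2, h3⟩ := hV c
  let Wit : ℕ → Finset X → C → Finset Θ → Prop := fun i s j W => W.card = i ∧
    (∀ β ∈ W, ∀ α ∈ W, β < α → (k α).1.1 ∈ (k β).1.2 ∧ c s(y β, y α) = j) ∧
      ∀ β ∈ W, ∀ η ∈ s, η ∈ (k β).1.2 ∧ c s(y β, z η) = j
  obtain ⟨a, F, hF, haF, hcone, hhom⟩ := hX (fun s i => {j | ∃ W, Wit i s j W})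
  have hen : ∀ W : Finset Θ, ∃ e : ℕ → Θ, ↑W ⊆ Set.range e := fun W =>
    Set.countable_iff_exists_subset_range.1 W.countable_toSet
  choose en hen using hen
  obtain ⟨α, hα, hD⟩ := h3 ⟨(a, F), hcone⟩
    (fun q => en (Classical.epsilon (Wit q.2.1 q.1 q.2.2.1)) q.2.2.2)
  have hinf : ∃ j, {η | η ∈ F ∧ c s(y α, z η) = j}.Infinite := by
    by_contra hc
    push Not at hc
    have : Nonempty X := ⟨a⟩
    have h4 : ∀ j, ∃ e : ℕ → X, {η | η ∈ F ∧ c s(y α, z η) = j} ⊆ Set.range e := fun j =>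
      Set.countable_iff_exists_subset_range.1 (hc j).countable
    choose e he using h4
    refine hF (fun q => e q.1 q.2) fun η hη => ?_
    obtain ⟨t, ht⟩ := he _ ⟨hη, rfl⟩
    exact ⟨(_, t), ht⟩
  obtain ⟨j, hj⟩ := hinf
  have main : ∀ i m, i + m = r + 2 → 1 ≤ m → ∀ s : Finset X, ↑s ⊆ insert a F → s.card = m →
      ∃ W, Wit i s j W := by
    intro i
    induction i with
    | zero =>
      intro m _ _ s _ _
      exact ⟨∅, rfl, by simp, by simp⟩
    | succ i ih =>
      intro m hm hm1 s hs hcard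
      obtain ⟨s₀, hs₀, hc₀⟩ := hj.exists_subset_card_eq m
      have hs₀F : ↑s₀ ⊆ F := fun η hη => (hs₀ hη).1
      have ha : a ∉ s₀ := fun h => hcone.1 (hs₀F h)
      have hex := ih (m + 1) (by omega) (by omega) (insert a s₀)
        (by rw [Finset.coe_insert]; exact Set.insert_subset_insert hs₀F)
        (by rw [Finset.card_insert_of_notMem ha, hc₀])
      have hW := Classical.epsilon_spec hex
      set W := Classical.epsilon (Wit i (insert a s₀) j) with hWdef
      have hcov : ∀ β ∈ W, β < α ∧ c s(y β, y α) = c s(y β, z a) := by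
        intro β hβ
        obtain ⟨t, ht⟩ := hen W hβ
        have := hD (insert a s₀, i, j, t)
        simp only [← hWdef, ht] at this
        exact this
      have hnew : Wit (i + 1) s₀ j (insert α W) := by
        refine ⟨?_, ?_, ?_⟩
        · rw [Finset.card_insert_of_notMem (fun h => lt_irrefl _ (hcov α h).1), hW.1]
        · intro β hβ γ hγ hlt
          rcases Finset.mem_insert.1 hγ with hγ' | hγ' <;>
            rcases Finset.mem_insert.1 hβ with hβ' | hβ'
          · rw [hγ', hβ'] at hlt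
            exact absurd hlt (lt_irrefl _)
          · have h5 := hW.2.2 β hβ' a (Finset.mem_insert_self _ _)
            rw [hγ', hα, (hcov β hβ').2]
            exact h5
          · rw [hβ'] at hlt
            exact absurd hlt (not_lt.2 (hcov γ hγ').1.le)
          · exact hW.2.1 β hβ' γ hγ' hlt
        · intro β hβ η hη
          rcases Finset.mem_insert.1 hβ with rfl | hβ
          · rw [hα]
            exact hs₀ hη
          · exact hW.2.2 β hβ η (Finset.mem_insert_of_mem hη)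
      have h6 := congrFun (hhom s₀ s (hs₀F.trans (Set.subset_insert _ _)) hs
        (by rw [hc₀, hcard]) (by omega)) (i + 1)
      have h7 : j ∈ {j | ∃ W, Wit (i + 1) s₀ j W} := ⟨_, hnew⟩
      rw [h6] at h7
      exact h7
  obtain ⟨W, hW1, hW2, hW3⟩ := main (r + 1) 1 rfl le_rfl {a} (by simp) rfl
  have hadj : ∀ β ∈ W, ∀ γ ∈ W, β ≠ γ → G.Adj (y β) (y γ) ∧ c s(y β, y γ) = j := by
    intro β hβ γ hγ hne
    rcases lt_or_gt_of_ne hne with h | h
    · exact ⟨h1 β γ h (hW2 β hβ γ hγ h).1, (hW2 β hβ γ hγ h).2⟩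
    · exact ⟨(h1 γ β h (hW2 γ hγ β hβ h).1).symm, by rw [Sym2.eq_swap]; exact (hW2 γ hγ β hβ h).2⟩
  have hz : ∀ β ∈ W, G.Adj (y β) (z a) ∧ c s(y β, z a) = j := fun β hβ =>
    ⟨h2 β a (hW3 β hβ a (by simp)).1, (hW3 β hβ a (by simp)).2⟩
  have hall : ∀ u ∈ insert (z a) (W.image y), ∀ v ∈ insert (z a) (W.image y), u ≠ v →
      G.Adj u v ∧ c s(u, v) = j := by
    intro u hu v hv hne
    rcases Finset.mem_insert.1 hu with rfl | hu
    · rcases Finset.mem_insert.1 hv with rfl | hv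
      · exact absurd rfl hne
      · obtain ⟨γ, hγ, rfl⟩ := Finset.mem_image.1 hv
        exact ⟨(hz γ hγ).1.symm, by rw [Sym2.eq_swap]; exact (hz γ hγ).2⟩
    · obtain ⟨β, hβ, rfl⟩ := Finset.mem_image.1 hu
      rcases Finset.mem_insert.1 hv with rfl | hv
      · exact hz β hβ
      · obtain ⟨γ, hγ, rfl⟩ := Finset.mem_image.1 hv
        exact hadj β hβ γ hγ fun h => hne (by rw [h])
  refine ⟨insert (z a) (W.image y), j, ⟨fun u hu v hv hne => (hall u hu v hv hne).1, ?_⟩,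
    fun u hu v hv hne => (hall u hu v hv hne).2⟩
  rw [Finset.card_insert_of_notMem, Finset.card_image_of_injOn, hW1]
  · intro β hβ γ hγ he
    by_contra hne
    exact (hadj β hβ γ hγ hne).1.ne he
  · intro h
    obtain ⟨γ, hγ, he⟩ := Finset.mem_image.1 h
    exact (hz γ hγ).1.ne he

end Pool.Agent.P.MP_48d4bc_co
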