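import Pool.Agent.P.MP_48d4bc_co.Clique
import Pool.Agent.P.MP_48d4bc_co.Defs

set_option autoImplicit false

namespace Pool.Agent.P.MP_48d4bc_co

universe u

theorem clique_host {α β : Type} [Finite β] (G₁ : SimpleGraph α) (G₂ : SimpleGraph β)
    (h : ¬ G₁.CliqueFree (Nat.card β + 1)) :
    ∃ (V : Type u) (H : SimpleGraph V), G₁.Free H ∧ ∀ c : Sym2 V → ℕ, HasMonoCopy G₂ H c := by
  classical
  have := Fintype.ofFinite β
  have hsmall : ∀ (W : Type) (K : SimpleGraph W), K.CliqueFree (Nat.card β + 1) →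
      (∀ c : Sym2 W → ℕ, ∃ (t : Finset W) (j : ℕ), K.IsNClique (Nat.card β) t ∧
        ∀ x ∈ t, ∀ y ∈ t, x ≠ y → c s(x, y) = j) →
      ∃ (V : Type u) (H : SimpleGraph V), G₁.Free H ∧ ∀ c : Sym2 V → ℕ, HasMonoCopy G₂ H c := by
    intro W K hK hc
    refine ⟨ULift.{u} W, K.comap ULift.down, ?_, fun c => ?_⟩
    · rintro ⟨f⟩
      apply h
      have h1 : G₁.IsContained K :=
        ⟨⟨⟨fun a => (f a).down, fun hab => f.toHom.map_adj hab⟩,
          fun a b he => f.injective (ULift.down_injective he)⟩⟩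
      exact hK.comap h1
    · obtain ⟨t, j, ht, hj⟩ := hc (fun e => c (e.map ULift.up))
      have e : β ≃ t := Fintype.equivOfCardEq (by
        rw [Fintype.card_coe, ht.card_eq, Nat.card_eq_fintype_card])
      have hne : ∀ a b, G₂.Adj a b → (e a).1 ≠ (e b).1 := fun a b hab he =>
        hab.ne (e.injective (Subtype.ext he))
      refine ⟨⟨⟨fun a => ULift.up (e a).1, fun {a b} hab => ?_⟩, fun a b he => ?_⟩, j,
        fun a b hab => ?_⟩
      · exact ht.isClique (e a).2 (e b).2 (hne a b hab)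
      · exact e.injective (Subtype.ext (ULift.up_injective he))
      · exact hj _ (e a).2 _ (e b).2 (hne a b hab)
  obtain h0 | h0 | ⟨r, hr⟩ : Nat.card β = 0 ∨ Nat.card β = 1 ∨ ∃ r, Nat.card β = r + 2 := by
    rcases hn : Nat.card β with _ | _ | r
    · exact Or.inl rfl
    · exact Or.inr (Or.inl rfl)
    · exact Or.inr (Or.inr ⟨r, rfl⟩)
  · refine hsmall Empty ⊥ ?_ fun c => ⟨∅, 0, by rw [h0]; simp, by simp⟩
    rw [h0]
    exact SimpleGraph.cliqueFree_of_card_lt (by simp)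
  · refine hsmall Unit ⊥ ?_ fun c => ⟨{()}, 0, by rw [h0]; simp, by simp⟩
    rw [h0]
    exact SimpleGraph.cliqueFree_of_card_lt (by simp)
  · obtain ⟨W, K, hK, hc⟩ := clique_ramsey r ℕ
    exact hsmall W K (by rw [hr]; exact hK) (by rw [hr]; exact hc)

end Pool.Agent.P.MP_48d4bc_co
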