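import Pool.Agent.P.MP_48d4bc_co.Layers

set_option autoImplicit false

/-! Graphs without a complete tripartite subgraph are countable unions of triangle-free graphs. -/

namespace Pool.Agent.P.MP_48d4bc_co

open Cardinal Set

universe u

variable {V : Type u} (H : SimpleGraph V)

/-- common neighbours inside `S` -/
def cn (S : Set V) (t : Finset V) : Set V := {v | v ∈ S ∧ ∀ w ∈ t, H.Adj w v}

open Classical in
/-- the common neighbours, if there are only countably many -/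
noncomputable def fcn (S : Set V) (t : Finset V) : Set V :=
  if (cn H S t).Countable then cn H S t else ∅

theorem fcn_countable (S : Set V) (t : Finset V) : (fcn H S t).Countable := by
  unfold fcn
  split_ifs with h
  exacts [h, countable_empty]

theorem exists_of_notMem_fcn {S : Set V} {t : Finset V} {v : V} (h1 : v ∈ cn H S t)
    (h2 : v ∉ fcn H S t) (n : ℕ) : ∃ B : Finset V, (B : Set V) ⊆ cn H S t ∧ B.card = n := by
  refine Set.Infinite.exists_subset_card_eq (fun hf => h2 ?_) n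
  rw [fcn, if_pos hf.countable]
  exact h1

/-- no complete bipartite subgraph inside `S` -/
def No2 (n : ℕ) (S : Set V) : Prop :=
  ∀ A B : Finset V, (A : Set V) ⊆ S → (B : Set V) ⊆ S → A.card = n → B.card = n →
    ¬ ∀ a ∈ A, ∀ b ∈ B, H.Adj a b

/-- no complete tripartite subgraph -/
def No3 (n : ℕ) : Prop :=
  ∀ A B C : Finset V, A.card = n → B.card = n → C.card = n →
    (∀ a ∈ A, ∀ b ∈ B, H.Adj a b) → (∀ a ∈ A, ∀ c ∈ C, H.Adj a c) →
    ¬ ∀ b ∈ B, ∀ c ∈ C, H.Adj b c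

theorem exists_inj_of_le {S : Set V} (h : #S ≤ ℵ₀) : ∃ g : V → ℕ, InjOn g S :=
  countable_iff_exists_injOn.1 (le_aleph0_iff_set_countable.1 h)

theorem vertex_col (n : ℕ) (S : Set V) (hS : No2 H n S) :
    ∃ g : V → ℕ, ∀ x ∈ S, ∀ y ∈ S, H.Adj x y → g x ≠ g y := by
  induction h : #S using WellFoundedLT.induction generalizing S with
  | ind κ ih =>
  subst h
  rcases le_or_gt #S ℵ₀ with h | h
  · obtain ⟨g, hg⟩ := exists_inj_of_le h
    exact ⟨g, fun x hx y hy a e => a.ne (hg hx hy e)⟩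
  obtain ⟨rk, h1, h2⟩ := exists_layers (fcn_countable H S) S h
  choose c hc using fun k => ih _ (h1 k) {v | v ∈ S ∧ rk v = k}
    (fun A B hA hB => hS A B (fun _ x => (hA x).1) fun _ x => (hB x).1) rfl
  have hn : 0 < n := Nat.pos_of_ne_zero fun e =>
    hS ∅ ∅ (by simp) (by simp) e.symm e.symm (by simp)
  obtain ⟨g, hg⟩ := exists_greedy rk (fun v => {w | v ∈ S ∧ w ∈ S ∧ rk w < rk v ∧ H.Adj w v})
    (fun v => by
      by_contra hf
      obtain ⟨t, ht, hc⟩ := Set.Infinite.exists_subset_card_eq hf n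
      have hne : t.Nonempty := Finset.card_pos.1 (hc ▸ hn)
      obtain ⟨w, hw⟩ := id hne
      obtain ⟨B, hB, hB'⟩ := exists_of_notMem_fcn H (S := S) (t := t) (v := v)
        ⟨(ht hw).1, fun w hw => (ht hw).2.2.2⟩
        (h2 v (ht hw).1 t hne fun w hw => ⟨(ht hw).2.1, (ht hw).2.2.1⟩) n
      exact hS t B (fun w hw => (ht hw).2.1) (fun w hw => (hB hw).1) hc hB'
        fun a ha b hb => (hB hb).2 a ha)
    (fun v w hw => hw.2.2.1)
  refine ⟨fun v => Nat.pair (g v) (c (rk v) v), fun x hx y hy a e => ?_⟩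
  obtain ⟨e1, e2⟩ := Nat.pair_eq_pair.1 e
  rcases lt_trichotomy (rk x) (rk y) with l | l | l
  · exact hg y x ⟨hy, hx, l, a⟩ e1
  · exact hc (rk y) x ⟨hx, l⟩ y ⟨hy, rfl⟩ a (l ▸ e2)
  · exact hg x y ⟨hx, hy, l, a.symm⟩ e1.symm

theorem edge_col (n : ℕ) (hH : No3 H n) (S : Set V) :
    ∃ c : Sym2 V → ℕ, ∀ x ∈ S, ∀ y ∈ S, ∀ z ∈ S, H.Adj x y → H.Adj x z → H.Adj y z →
      c s(x, y) = c s(x, z) → c s(x, y) ≠ c s(y, z) := by
  classical
  induction h : #S using WellFoundedLT.induction generalizing S with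
  | ind κ ih =>
  subst h
  rcases le_or_gt #S ℵ₀ with h | h
  · obtain ⟨g, hg⟩ := exists_inj_of_le h
    refine ⟨Sym2.lift ⟨fun x y => g x + g y, fun x y => add_comm _ _⟩,
      fun x _ y hy z hz _ _ a e => ?_⟩
    simp only [Sym2.lift_mk, add_right_inj] at e
    exact absurd (hg hy hz e) a.ne
  obtain ⟨rk, h1, h2⟩ := exists_layers (fcn_countable H S) S h
  choose c hc using fun k => ih _ (h1 k) {v | v ∈ S ∧ rk v = k} rfl
  have hn : 0 < n := Nat.pos_of_ne_zero fun e =>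
    hH ∅ ∅ ∅ e.symm e.symm e.symm (by simp) (by simp) (by simp)
  choose φ hφ using fun v => vertex_col H n {w | v ∈ S ∧ w ∈ S ∧ rk w < rk v ∧ H.Adj w v}
    fun A B hA hB a b hAB => by
      have hne : A.Nonempty := Finset.card_pos.1 (a ▸ hn)
      obtain ⟨w, hw⟩ := id hne
      have ht : ∀ w ∈ A ∪ B, v ∈ S ∧ w ∈ S ∧ rk w < rk v ∧ H.Adj w v := fun w hw =>
        (Finset.mem_union.1 hw).elim (fun x => hA x) fun x => hB x
      obtain ⟨C, hC, hC'⟩ := exists_of_notMem_fcn H (S := S) (t := A ∪ B) (v := v)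
        ⟨(hA hw).1, fun w hw => (ht w hw).2.2.2⟩
        (h2 v (hA hw).1 _ hne.inl fun w hw => ⟨(ht w hw).2.1, (ht w hw).2.2.1⟩) n
      exact hH A B C a b hC' hAB (fun x hx y hy => (hC hy).2 x (Finset.mem_union_left _ hx))
        fun x hx y hy => (hC hy).2 x (Finset.mem_union_right _ hx)
  let d : V → V → ℕ := fun x y =>
    if rk x < rk y then 2 * φ y x + 1 else if rk y < rk x then 2 * φ x y + 1
    else 2 * c (rk x) s(x, y)
  have d1 : ∀ x y, rk x < rk y → d x y = 2 * φ y x + 1 := fun x y l => if_pos l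
  have d2 : ∀ x y, rk y < rk x → d x y = 2 * φ x y + 1 := fun x y l =>
    (if_neg l.not_gt).trans (if_pos l)
  have d3 : ∀ x y, rk x = rk y → d x y = 2 * c (rk x) s(x, y) := fun x y l =>
    (if_neg l.not_lt).trans (if_neg l.not_gt)
  have hd : ∀ x y, d x y = d y x := fun x y => by
    rcases lt_trichotomy (rk x) (rk y) with l | l | l
    · rw [d1 _ _ l, d2 _ _ l]
    · rw [d3 _ _ l, d3 _ _ l.symm, l, Sym2.eq_swap]
    · rw [d2 _ _ l, d1 _ _ l]
  have top : ∀ x ∈ S, ∀ y ∈ S, ∀ z ∈ S, H.Adj x y → H.Adj x z → H.Adj y z → rk x < rk z →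
      rk y < rk z → d x z ≠ d y z := fun x hx y hy z hz a b e l l' q => by
    rw [d1 _ _ l, d1 _ _ l'] at q
    exact hφ z x ⟨hz, hx, l, b⟩ y ⟨hz, hy, l', e⟩ a (by omega)
  have par : ∀ x y z w, rk x = rk y → d x y = d z w → rk z = rk w := fun x y z w l q => by
    rw [d3 _ _ l] at q
    rcases lt_trichotomy (rk z) (rk w) with l | l | l
    · rw [d1 _ _ l] at q; omega
    · exact l
    · rw [d2 _ _ l] at q; omega
  refine ⟨Sym2.lift ⟨d, hd⟩, fun x hx y hy z hz a b e p q => ?_⟩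
  simp only [Sym2.lift_mk] at p q
  by_cases l : rk x = rk y
  · have l' := par _ _ _ _ l p
    have l'' := par _ _ _ _ l q
    rw [d3 _ _ l, d3 _ _ l'] at p
    rw [d3 _ _ l, d3 _ _ l'', ← l] at q
    exact hc (rk x) x ⟨hx, rfl⟩ y ⟨hy, l.symm⟩ z ⟨hz, l'.symm⟩ a b e (by omega) (by omega)
  have l' : rk x ≠ rk z := fun l' => l (par _ _ _ _ l' p.symm)
  have l'' : rk y ≠ rk z := fun l'' => l (par _ _ _ _ l'' q.symm)
  rcases lt_or_gt_of_ne l with m | m
  · rcases lt_or_gt_of_ne l'' with m' | m'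
    · exact top x hx y hy z hz a b e (m.trans m') m' (p.symm.trans q)
    · exact top x hx z hz y hy b a e.symm m m' (q.trans (hd _ _))
  · rcases lt_or_gt_of_ne l' with m' | m'
    · exact top x hx y hy z hz a b e m' (m.trans m') (p.symm.trans q)
    · exact top y hy z hz x hx e a.symm b.symm m m' ((hd _ _).trans (p.trans (hd _ _)))

theorem no3_of_free {α : Type*} [Finite α] {G : SimpleGraph α} (hG : G.Colorable 3)
    (h : G.Free H) : No3 H (Nat.card α) := by
  classical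
  intro A B C a b c hAB hAC hBC
  obtain ⟨col⟩ := hG
  have := Fintype.ofFinite α
  let P : Fin 3 → Finset V := ![A, B, C]
  have hP : ∀ i, Fintype.card α = Fintype.card (P i) := fun i => by
    rw [Fintype.card_coe, ← Nat.card_eq_fintype_card]
    fin_cases i
    exacts [a.symm, b.symm, c.symm]
  have adj : ∀ i j, i ≠ j → ∀ x ∈ P i, ∀ y ∈ P j, H.Adj x y := fun i j hij x hx y hy => by
    fin_cases i <;> fin_cases j
    all_goals first | exact absurd rfl hij | skip
    exacts [hAB x hx y hy, hAC x hx y hy, (hAB y hy x hx).symm, hBC x hx y hy,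
      (hAC y hy x hx).symm, (hBC y hy x hx).symm]
  let e := fun i => Fintype.equivOfCardEq (hP i)
  refine h ⟨⟨⟨fun x => (e (col x) x).1, fun {x y} hxy =>
    adj _ _ (col.valid hxy) _ (e _ x).2 _ (e _ y).2⟩, fun x y hxy => ?_⟩⟩
  have hxy' : (e (col x) x).1 = (e (col y) y).1 := hxy
  by_cases hc : col x = col y
  · rw [hc] at hxy'
    exact (e _).injective (Subtype.ext hxy')
  · exact absurd hxy' (adj _ _ hc _ (e _ x).2 _ (e _ y).2).ne

theorem countable_colouring {α β : Type*} [Finite α] {G₁ : SimpleGraph α} {G₂ : SimpleGraph β}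
    (h1 : G₁.Colorable 3) (h2 : ¬ G₂.CliqueFree 3) (h : G₁.Free H) :
    ∃ c : Sym2 V → ℕ, ¬ HasMonoCopy G₂ H c := by
  classical
  obtain ⟨c, hc⟩ := edge_col H _ (no3_of_free H h1 h) univ
  refine ⟨c, fun ⟨f, k, hf⟩ => h2 fun s hs => ?_⟩
  obtain ⟨x, y, z, a, b, e, -⟩ := SimpleGraph.is3Clique_iff.1 hs
  exact hc _ trivial _ trivial _ trivial (f.toHom.map_adj a) (f.toHom.map_adj b)
    (f.toHom.map_adj e) ((hf _ _ a).trans (hf _ _ b).symm) ((hf _ _ a).trans (hf _ _ e).symm)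

end Pool.Agent.P.MP_48d4bc_co
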