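import Pool.Agent.P.MP_48d4bc_co.EXStr

set_option autoImplicit false

/-! Amalgams over closed parts, and disjoint unions. -/

namespace Pool.Agent.P.MP_48d4bc_co.EX

open Set Function

variable {A ty : Type} {T : Tpl A ty} {P : Str A ty} {U : Set P.W}

theorem part_good (hP : Good T P) (hU : Closed T P U) : Good T (P.part U) := by
  refine ⟨have := hP.fin; inferInstance, fun a b c c' h h' => Subtype.ext (hP.fn _ _ _ _ h h'),
    fun α σ hσ => ?_⟩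
  have hs := hP.str α _ hσ
  refine ⟨⟨fun a b c h => hs.hom.rel a b c h, fun β ρ hρ => hs.hom.sec β ρ hρ⟩, hs.inj.of_comp,
    fun a b z h => ?_, fun β τ hτ ⟨a, ha⟩ ⟨b, hb⟩ => ?_⟩
  · obtain ⟨c, h1, h2⟩ := hs.refl a b z.1 h
    exact ⟨c, h1, Subtype.ext h2⟩
  · obtain ⟨ρ, h1, h2⟩ := hs.back β (Subtype.val ∘ τ) hτ ⟨a, congrArg Subtype.val ha⟩
      ⟨b, congrArg Subtype.val hb⟩
    exact ⟨ρ, h1, funext fun x => Subtype.ext (congrFun h2 x)⟩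

theorem φ_strong (hU : Closed T P U) (S : Sy T (P.part U)) (c : S.ι) :
    Strong T P (amal S) (φ S c) := by
  refine ⟨⟨fun a b d h => ⟨c, a, b, d, h, rfl, rfl, rfl⟩, fun α σ h => ⟨c, σ, h, rfl⟩⟩,
    φ_inj S c, ?_, ?_⟩
  · rintro a b _ ⟨c', a', b', d', h, e1, e2, rfl⟩
    by_cases hc : c = c'
    · subst hc
      rw [φ_inj S c e1, φ_inj S c e2]
      exact ⟨d', h, rfl⟩
    · obtain ⟨ha, ha', k1⟩ := (φ_eq S e1).resolve_left fun k => hc k.1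
      obtain ⟨hb, hb', k2⟩ := (φ_eq S e2).resolve_left fun k => hc k.1
      have hd' := hU.rel a' b' d' h ha' hb'
      have hR := (S.str c').hom.rel ⟨a', ha'⟩ ⟨b', hb'⟩ ⟨d', hd'⟩ h
      rw [← k1, ← k2] at hR
      obtain ⟨d, k3, k4⟩ := (S.str c).refl _ _ _ hR
      exact ⟨d.1, k3, by rw [φ_inl S c' hd', φ_inl S c d.2, k4]⟩
  · rintro α _ ⟨c', σ, hσ, rfl⟩ ⟨a, e1⟩ ⟨b, e2⟩
    by_cases hc : c = c'
    · subst hc
      exact ⟨σ, hσ, rfl⟩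
    · obtain ⟨ha, ha', k1⟩ := (φ_eq S e1).resolve_left fun k => hc k.1
      obtain ⟨hb, hb', k2⟩ := (φ_eq S e2).resolve_left fun k => hc k.1
      have hall := hU.sec α σ hσ ha' hb'
      have h1 := (S.str c').hom.sec α (fun x => ⟨σ x, hall x⟩) hσ
      obtain ⟨ρ, k3, k4⟩ := (S.str c).back α _ h1 ⟨_, k1⟩ ⟨_, k2⟩
      refine ⟨Subtype.val ∘ ρ, k3, funext fun x => ?_⟩
      exact (φ_inl S c' (hall x)).trans
        ((congrArg Sum.inl (congrFun k4 x)).trans (φ_inl S c (ρ x).2).symm)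

theorem amal_good (hP : Good T P) (hU : Closed T P U) (S : Sy T (P.part U)) :
    Good T (amal S) := by
  refine ⟨?_, ?_, ?_⟩
  · have := S.good.fin
    have := S.finι
    have := hP.fin
    infer_instance
  · rintro _ _ _ z' ⟨c, a, b, d, h, rfl, rfl, rfl⟩ h'
    obtain ⟨d', k, rfl⟩ := (φ_strong hU S c).refl a b z' h'
    rw [hP.fn a b d d' h k]
  · rintro α _ ⟨c, σ, hσ, rfl⟩
    exact (φ_strong hU S c).comp (hP.str α σ hσ)

theorem sum_strong {J : Type} (M : J → Str A ty) (β : J) :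
    Strong T (M β) (Str.sum M) (Str.inc M β) := by
  refine ⟨⟨fun a b c h => ⟨β, a, b, c, h, rfl, rfl, rfl⟩, fun α σ h => ⟨β, σ, h, rfl⟩⟩,
    sigma_mk_injective (β := fun β => (M β).W), ?_, ?_⟩
  · rintro a b _ ⟨β', a', b', c', h, e1, e2, rfl⟩
    cases e1
    cases e2
    exact ⟨c', h, rfl⟩
  · rintro α _ ⟨β', σ, hσ, rfl⟩ ⟨a, e1⟩ -
    obtain rfl : β = β' := congrArg Sigma.fst e1
    exact ⟨σ, hσ, rfl⟩

theorem sum_good {J : Type} [Finite J] (M : J → Str A ty) (h : ∀ β, Good T (M β)) :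
    Good T (Str.sum M) := by
  refine ⟨?_, ?_, ?_⟩
  · have := fun β => (h β).fin
    infer_instance
  · rintro _ _ _ z' ⟨β, a, b, d, k, rfl, rfl, rfl⟩ h'
    obtain ⟨d', k', rfl⟩ := (sum_strong (T := T) M β).refl a b z' h'
    rw [(h β).fn a b d d' k k']
    rfl
  · rintro α _ ⟨β, σ, hσ, rfl⟩
    exact (sum_strong M β).comp ((h β).str α σ hσ)

theorem pic_zero {Q B : Str A ty} {ι₀ : Type} [Finite ι₀] (hQ : Good T Q) (j : ι₀ → Q.W → B.W)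
    (hj : ∀ m, Hom Q B (j m)) (κ : Type) [Nonempty κ] (g : ℕ) : Nonempty (Pic T j κ g ∅) := by
  refine ⟨⟨⟨Str.sum fun _ : ι₀ => Q, sum_good _ fun _ => hQ, ι₀, inferInstance,
    Str.inc fun _ : ι₀ => Q, sum_strong _⟩, fun u => j u.1 u.2, ⟨?_, ?_⟩, id, fun _ _ => rfl,
    fun X h1 _ => ?_, ?_, fun c => ⟨fun _ => Classical.arbitrary κ, fun m =>
      ⟨m, rfl, fun _ _ _ h => h.elim⟩⟩⟩⟩
  · rintro _ _ _ ⟨m, a, b, c, h, rfl, rfl, rfl⟩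
    exact (hj m).rel a b c h
  · rintro α _ ⟨m, σ, h, rfl⟩
    exact (hj m).sec α σ h
  · obtain ⟨i, hi, i', hi', hne⟩ := Finset.one_lt_card.1 h1
    refine ⟨(· = i), ⟨i, hi, rfl⟩, ⟨i', hi', hne.symm⟩, ?_⟩
    rintro _ ⟨⟨k, -, rfl, α, σ, -, rfl⟩, k', -, hk, α', σ', -, e⟩
    refine absurd ?_ hk
    rcases Sym2.eq_iff.1 e with h | h
    · exact (congrArg Sigma.fst h.1).symm
    · exact (congrArg Sigma.fst h.1).symm
  · rintro u v w ⟨α, _, ⟨m, σ, -, rfl⟩, h1⟩ ⟨α', _, ⟨m', σ', -, rfl⟩, h2⟩ -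
    have k1 : u.1 = m ∧ v.1 = m := by
      rcases h1 with ⟨rfl, rfl⟩ | ⟨rfl, rfl⟩ <;> exact ⟨rfl, rfl⟩
    have k2 : u.1 = m' ∧ w.1 = m' := by
      rcases h2 with ⟨rfl, rfl⟩ | ⟨rfl, rfl⟩ <;> exact ⟨rfl, rfl⟩
    exact ⟨u.1, ⟨u.2, rfl⟩, ⟨v.2, Sigma.ext (k1.1.trans k1.2.symm) HEq.rfl⟩,
      ⟨w.2, Sigma.ext (k2.1.trans k2.2.symm) HEq.rfl⟩⟩

end Pool.Agent.P.MP_48d4bc_co.EX
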