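import Pool.Agent.P.MP_48d4bc_co.EXGam

set_option autoImplicit false

/-! Vertices and edges of the graph of a system. -/

namespace Pool.Agent.P.MP_48d4bc_co.EX

open Set Function Pool.Agent.Lib.PrimrecProp

namespace Sig

variable {S : Sig}

theorem mem_edges {e : Vx × Vx} : e ∈ S.edges ↔ ∃ i < S.glue.length, ∃ s,
    e = (S.vtx i s nx, S.vtx i s ny) ∨
      ∃ φ ∈ S.facts, ∃ m < 8, ∃ w ∈ gamE,
        e = (S.gad i s φ (th m w.1), S.gad i s φ (th m w.2)) := by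
  unfold edges
  rw [List.mem_flatMap]
  constructor
  · rintro ⟨z, hz, he⟩
    rw [mem_pairs, List.mem_range] at hz
    refine ⟨z.1, hz.1, z.2, ?_⟩
    rcases List.mem_cons.1 he with he | he
    · exact Or.inl he
    · obtain ⟨w, hw, rfl⟩ := List.mem_map.1 he
      rw [mem_pairs] at hw
      obtain ⟨m, hm, w', hw', e'⟩ := mem_thE.1 hw.2
      refine Or.inr ⟨w.1, hw.1, m, hm, w', hw', ?_⟩
      rw [e']
  · rintro ⟨i, hi, s, he⟩
    refine ⟨(i, s), ?_, ?_⟩
    · rw [mem_pairs, List.mem_range]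
      refine ⟨hi, ?_⟩
      cases s <;> simp
    · rcases he with he | ⟨φ, hφ, m, hm, w, hw, he⟩
      · exact List.mem_cons.2 (Or.inl he)
      · refine List.mem_cons.2 (Or.inr (List.mem_map.2 ⟨(φ, (th m w.1, th m w.2)), ?_, he.symm⟩))
        rw [mem_pairs]
        exact ⟨hφ, mem_thE.2 ⟨m, hm, w, hw, rfl⟩⟩

theorem exvtx_nv_inj {i i' : ℕ} {r r' : Bool × Nm} : nv i r = nv i' r' ↔ i = i' ∧ r = r' := by
  constructor
  · intro h
    unfold nv at h
    simp only [Prod.mk.injEq] at h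
    exact ⟨h.1, Prod.ext h.2.1 h.2.2.1.1⟩
  · rintro ⟨rfl, rfl⟩
    rfl

theorem exvtx_back (g : List (Nm × Nm)) (a : Nm) :
    (∃ b, (b, a) ∈ g ∧ back g a = (false, b)) ∨ ((∀ b, (b, a) ∉ g) ∧ back g a = (true, a)) := by
  induction g with
  | nil => exact Or.inr ⟨fun b hb => by simp at hb, rfl⟩
  | cons p g ih =>
    have e : back (p :: g) a = cond (eqb p.2 a) (false, p.1) (back g a) := rfl
    by_cases hp : p.2 = a
    · left
      refine ⟨p.1, ?_, ?_⟩
      · rw [← hp]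
        exact List.mem_cons_self
      · rw [e, (eqb_iff _ _).2 hp]
        rfl
    · have hq : eqb p.2 a = false := by
        cases hx : eqb p.2 a
        · rfl
        · exact absurd ((eqb_iff _ _).1 hx) hp
      rw [e, hq]
      rcases ih with ⟨b, hb, e'⟩ | ⟨hb, e'⟩
      · exact Or.inl ⟨b, List.mem_cons_of_mem _ hb, e'⟩
      · refine Or.inr ⟨fun b hb' => ?_, e'⟩
        rcases List.mem_cons.1 hb' with hb' | hb'
        · exact hp (by rw [← hb'])
        · exact hb b hb'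

theorem exvtx_chain {i : ℕ} (hi : i < S.rest.length) :
    ((m3 :: S.rest).getD i nx, ny, S.rest.getD i nx) ∈ S.facts := by
  unfold facts baseOf
  refine List.mem_append_left _ ?_
  refine List.mem_cons_of_mem _ (List.mem_cons_of_mem _ (List.mem_cons_of_mem _
    (List.mem_cons_of_mem _ ?_)))
  exact List.mem_map.2 ⟨i, List.mem_range.2 hi, rfl⟩

theorem WF.facts (h : S.WF) {φ : Ft} (hφ : φ ∈ S.facts) : φ.1 ∈ S.names ∧ φ.2.1 ∈ S.names ∧
    φ.2.2 ∈ S.names ∧ φ.1 ≠ φ.2.1 ∧ φ.1 ≠ φ.2.2 ∧ φ.2.1 ≠ φ.2.2 ∧ φ.2.2 ≠ nx ∧ φ.2.2 ≠ ny := by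
  rcases List.mem_append.1 hφ with hb | hb
  swap
  · exact h.ext φ hb
  have hn := h.nodup
  unfold names namesOf at hn ⊢
  unfold baseOf at hb
  rcases List.mem_cons.1 hb with rfl | hb
  · simp [nx, ny, m1]
  rcases List.mem_cons.1 hb with rfl | hb
  · simp [nx, ny, m2]
  rcases List.mem_cons.1 hb with rfl | hb
  · simp [nx, ny, m1, m2]
  rcases List.mem_cons.1 hb with rfl | hb
  · simp [nx, ny, m2, m3]
  obtain ⟨i, hi, rfl⟩ := List.mem_map.1 hb
  rw [List.mem_range] at hi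
  have hi' : i < (m3 :: S.rest).length := by
    rw [List.length_cons]
    omega
  have hi'' : i + 1 < (m3 :: S.rest).length := by
    rw [List.length_cons]
    omega
  have e1 : (m3 :: S.rest).getD i nx = (m3 :: S.rest)[i] := List.getD_eq_getElem _ _ hi'
  have e2 : S.rest.getD i nx = (m3 :: S.rest)[i + 1] := by
    rw [List.getD_eq_getElem _ _ hi]
    rfl
  have k1 : (m3 :: S.rest)[i] ∈ m3 :: S.rest := List.getElem_mem _
  have k2 : (m3 :: S.rest)[i + 1] ∈ m3 :: S.rest := List.getElem_mem _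
  have n1 := List.nodup_cons.1 hn
  have n2 := List.nodup_cons.1 n1.2
  have n3 := List.nodup_cons.1 n2.2
  have n4 := List.nodup_cons.1 n3.2
  have up : ∀ a, a ∈ m3 :: S.rest → a ∈ m1 :: m2 :: m3 :: S.rest := fun a ha =>
    List.mem_cons_of_mem _ (List.mem_cons_of_mem _ ha)
  dsimp only
  rw [e1, e2]
  refine ⟨List.mem_cons_of_mem _ (List.mem_cons_of_mem _ (up _ k1)),
    List.mem_cons_of_mem _ List.mem_cons_self,
    List.mem_cons_of_mem _ (List.mem_cons_of_mem _ (up _ k2)), ?_, ?_, ?_, ?_, ?_⟩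
  · intro e
    exact n2.1 (e ▸ up _ k1)
  · intro e
    have := (List.Nodup.getElem_inj_iff n4.2).1 e
    omega
  · intro e
    exact n2.1 (e ▸ up _ k2)
  · intro e
    exact n1.1 (e ▸ List.mem_cons_of_mem _ (up _ k2))
  · intro e
    exact n2.1 (e ▸ up _ k2)

theorem vtx_false (i : ℕ) (a : Nm) : S.vtx i false a = nv i (false, a) := rfl

theorem WF.vtx_true (h : S.WF) (i : ℕ) (a : Nm) :
    (∃ b, (b, a) ∈ S.gl i ∧ S.vtx i true a = nv i (false, b)) ∨
      ((∀ b, (b, a) ∉ S.gl i) ∧ S.vtx i true a = nv i (true, a)) := by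
  have _ := h
  have e : S.vtx i true a = nv i (back (S.gl i) a) := rfl
  rcases exvtx_back (S.gl i) a with ⟨b, hb, e'⟩ | ⟨hb, e'⟩
  · exact Or.inl ⟨b, hb, by rw [e, e']⟩
  · exact Or.inr ⟨hb, by rw [e, e']⟩

theorem WF.exvtx_ft (h : S.WF) {i i' : ℕ} {a b : Nm} :
    S.vtx i false a = S.vtx i' true b ↔ i = i' ∧ (a, b) ∈ S.gl i := by
  rw [vtx_false]
  rcases h.vtx_true i' b with ⟨c, hc, e⟩ | ⟨hc, e⟩
  · rw [e, exvtx_nv_inj]
    constructor
    · rintro ⟨rfl, e'⟩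
      have : a = c := congrArg Prod.snd e'
      exact ⟨rfl, this ▸ hc⟩
    · rintro ⟨rfl, hab⟩
      have : a = c := (h.bij i (a, b) hab (c, b) hc).2 rfl
      exact ⟨rfl, by rw [this]⟩
  · rw [e, exvtx_nv_inj]
    constructor
    · rintro ⟨_, e'⟩
      exact absurd (congrArg Prod.fst e') (by simp)
    · rintro ⟨rfl, hab⟩
      exact absurd hab (hc a)

theorem WF.exvtx_tt (h : S.WF) {i i' : ℕ} {a b : Nm} :
    S.vtx i true a = S.vtx i' true b ↔ i = i' ∧ a = b := by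
  constructor
  swap
  · rintro ⟨rfl, rfl⟩
    rfl
  intro e0
  rcases h.vtx_true i a with ⟨c, hc, e⟩ | ⟨hc, e⟩
  · rw [e, ← vtx_false (S := S), h.exvtx_ft] at e0
    exact ⟨e0.1, (h.bij i (c, a) hc (c, b) e0.2).1 rfl⟩
  · rcases h.vtx_true i' b with ⟨d, hd, e'⟩ | ⟨hd, e'⟩
    · rw [e, e', exvtx_nv_inj] at e0
      exact absurd (congrArg Prod.fst e0.2) (by simp)
    · rw [e, e', exvtx_nv_inj] at e0
      exact ⟨e0.1, congrArg Prod.snd e0.2⟩

theorem WF.vtx_eq (h : S.WF) {i i' : ℕ} {s s' : Bool} {a b : Nm} :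
    S.vtx i s a = S.vtx i' s' b ↔ i = i' ∧ ((s = s' ∧ a = b) ∨
      (s = false ∧ s' = true ∧ (a, b) ∈ S.gl i) ∨ (s = true ∧ s' = false ∧ (b, a) ∈ S.gl i)) := by
  cases s <;> cases s'
  · rw [vtx_false, vtx_false, exvtx_nv_inj]
    simp
  · rw [h.exvtx_ft]
    simp
  · rw [eq_comm, h.exvtx_ft]
    constructor
    · rintro ⟨rfl, hab⟩
      exact ⟨rfl, Or.inr (Or.inr ⟨rfl, rfl, hab⟩)⟩
    · rintro ⟨rfl, hab⟩
      refine ⟨rfl, ?_⟩
      simpa using hab
  · rw [h.exvtx_tt]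
    simp

theorem vtx_last (i : ℕ) (s : Bool) (a : Nm) : (S.vtx i s a).2.2.2 = 0 := rfl

theorem gad_zero (i : ℕ) (s : Bool) (φ : Ft) : S.gad i s φ 0 = S.vtx i s φ.1 := rfl

theorem gad_one (i : ℕ) (s : Bool) (φ : Ft) : S.gad i s φ 1 = S.vtx i s φ.2.1 := rfl

theorem gad_two (i : ℕ) (s : Bool) (φ : Ft) : S.gad i s φ 2 = S.vtx i s φ.2.2 := rfl

theorem gad_int (i : ℕ) (s : Bool) (φ : Ft) {j : ℕ} (h : 3 ≤ j) : S.gad i s φ j = (i, s, φ, j) := by
  have h0 : eqb j 0 = false := decide_eq_false (by omega)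
  have h1 : eqb j 1 = false := decide_eq_false (by omega)
  have h2 : eqb j 2 = false := decide_eq_false (by omega)
  unfold gad
  rw [h0, h1, h2]
  rfl

theorem exvtx_cases (j : ℕ) : j = 0 ∨ j = 1 ∨ j = 2 ∨ 3 ≤ j := by omega

theorem WF.exvtx_same (h : S.WF) {i : ℕ} {s : Bool} {a b : Nm} (e : S.vtx i s a = S.vtx i s b) :
    a = b := by
  rcases (h.vtx_eq.1 e).2 with e | e | e
  · exact e.2
  · exact absurd (e.1.symm.trans e.2.1) (by simp)
  · exact absurd (e.1.symm.trans e.2.1) (by simp)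

theorem WF.gad_inj (h : S.WF) {i : ℕ} {s : Bool} {φ : Ft} (hφ : φ ∈ S.facts) {j j' : ℕ}
    (e : S.gad i s φ j = S.gad i s φ j') : j = j' := by
  obtain ⟨-, -, -, d1, d2, d3, -, -⟩ := h.facts hφ
  have low : ∀ k, k < 3 → (S.gad i s φ k).2.2.2 = 0 := by
    intro k hk
    rcases exvtx_cases k with rfl | rfl | rfl | hk'
    · rfl
    · rfl
    · rfl
    · omega
  by_cases hj : 3 ≤ j
  · have e4 : (S.gad i s φ j).2.2.2 = (S.gad i s φ j').2.2.2 := by rw [e]
    rw [gad_int i s φ hj] at e4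
    by_cases hj' : 3 ≤ j'
    · rw [gad_int i s φ hj'] at e4
      exact e4
    · rw [low j' (by omega)] at e4
      dsimp only at e4
      omega
  by_cases hj' : 3 ≤ j'
  · have e4 : (S.gad i s φ j).2.2.2 = (S.gad i s φ j').2.2.2 := by rw [e]
    rw [gad_int i s φ hj', low j (by omega)] at e4
    dsimp only at e4
    omega
  rcases exvtx_cases j with rfl | rfl | rfl | hk
  · rcases exvtx_cases j' with rfl | rfl | rfl | hk'
    · rfl
    · exact absurd (h.exvtx_same e) d1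
    · exact absurd (h.exvtx_same e) d2
    · omega
  · rcases exvtx_cases j' with rfl | rfl | rfl | hk'
    · exact absurd (h.exvtx_same e).symm d1
    · rfl
    · exact absurd (h.exvtx_same e) d3
    · omega
  · rcases exvtx_cases j' with rfl | rfl | rfl | hk'
    · exact absurd (h.exvtx_same e).symm d2
    · exact absurd (h.exvtx_same e).symm d3
    · rfl
    · omega
  · omega

theorem gad_valid {i : ℕ} (hi : i < S.glue.length) (s : Bool) {φ : Ft} (hφ : φ ∈ S.facts)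
    {j : ℕ} (hj : j < 51) : S.gad i s φ j ∈ S.Valid := by
  obtain ⟨m, hm, a, ha, rfl⟩ := exists_th hj
  obtain ⟨w, hw, e⟩ := gam_nbr ha
  refine ⟨(S.gad i s φ (th m w.1), S.gad i s φ (th m w.2)),
    mem_edges.2 ⟨i, hi, s, Or.inr ⟨φ, hφ, m, hm, w, hw, rfl⟩⟩, ?_⟩
  rcases e with e | e
  · exact Or.inl (by rw [e])
  · exact Or.inr (by rw [e])

theorem vtx_valid {i : ℕ} (hi : i < S.glue.length) (s : Bool) {a : Nm} (ha : a ∈ S.names) :
    S.vtx i s a ∈ S.Valid := by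
  have base : ∀ φ ∈ baseOf S.rest, S.vtx i s φ.2.2 ∈ S.Valid := fun φ hφ =>
    gad_valid hi s (φ := φ) (List.mem_append_left _ hφ) (j := 2) (by omega)
  unfold names namesOf at ha
  rcases List.mem_cons.1 ha with rfl | ha
  · exact ⟨_, mem_edges.2 ⟨i, hi, s, Or.inl rfl⟩, Or.inl rfl⟩
  rcases List.mem_cons.1 ha with rfl | ha
  · exact ⟨_, mem_edges.2 ⟨i, hi, s, Or.inl rfl⟩, Or.inr rfl⟩
  rcases List.mem_cons.1 ha with rfl | ha
  · exact base (nx, ny, m1) (by simp [baseOf])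
  rcases List.mem_cons.1 ha with rfl | ha
  · exact base (ny, nx, m2) (by simp [baseOf])
  rcases List.mem_cons.1 ha with rfl | ha
  · exact base (ny, m2, m3) (by simp [baseOf])
  obtain ⟨k, hk, rfl⟩ := List.getElem_of_mem ha
  have := gad_valid hi s (exvtx_chain hk) (j := 2) (by omega)
  rw [gad_two] at this
  dsimp only at this
  rwa [List.getD_eq_getElem _ _ hk] at this

theorem WF.valid_cases (h : S.WF) {v : Vx} (hv : v ∈ S.Valid) : ∃ i < S.glue.length, ∃ s,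
    (∃ a ∈ S.names, v = S.vtx i s a) ∨ ∃ φ ∈ S.facts, ∃ j, 3 ≤ j ∧ j < 51 ∧ v = (i, s, φ, j) := by
  obtain ⟨e, he, hv⟩ := hv
  obtain ⟨i, hi, s, he⟩ := mem_edges.1 he
  refine ⟨i, hi, s, ?_⟩
  rcases he with rfl | ⟨φ, hφ, m, hm, w, hw, rfl⟩
  · left
    rcases hv with rfl | rfl
    · exact ⟨nx, by simp [names, namesOf], rfl⟩
    · exact ⟨ny, by simp [names, namesOf], rfl⟩
  · have hlt := thE_lt (mem_thE.2 ⟨m, hm, w, hw, rfl⟩)
    dsimp only at hlt hv
    obtain ⟨f1, f2, f3, -⟩ := h.facts hφ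
    have key : ∀ j, j < 51 → (∃ a ∈ S.names, S.gad i s φ j = S.vtx i s a) ∨
        ∃ φ' ∈ S.facts, ∃ j', 3 ≤ j' ∧ j' < 51 ∧ S.gad i s φ j = (i, s, φ', j') := by
      intro j hj
      rcases exvtx_cases j with rfl | rfl | rfl | hk
      · exact Or.inl ⟨_, f1, rfl⟩
      · exact Or.inl ⟨_, f2, rfl⟩
      · exact Or.inl ⟨_, f3, rfl⟩
      · exact Or.inr ⟨φ, hφ, j, hk, hj, gad_int i s φ hk⟩
    rcases hv with rfl | rfl
    · exact key _ (by omega)
    · exact key _ (by omega)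

theorem WF.edge_ne (h : S.WF) {e : Vx × Vx} (he : e ∈ S.edges) : e.1 ≠ e.2 := by
  obtain ⟨i, hi, s, he⟩ := mem_edges.1 he
  rcases he with rfl | ⟨φ, hφ, m, hm, w, hw, rfl⟩
  · intro e
    have := h.exvtx_same e
    simp [nx, ny] at this
  · intro e
    have hlt := thE_lt (mem_thE.2 ⟨m, hm, w, hw, rfl⟩)
    have := h.gad_inj hφ e
    dsimp only at hlt
    omega

theorem valid_finite : S.Valid.Finite := by
  refine ((S.edges.map Prod.fst).finite_toSet.union (S.edges.map Prod.snd).finite_toSet).subset ?_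
  rintro v ⟨e, he, rfl | rfl⟩
  · exact Or.inl (List.mem_map.2 ⟨e, he, rfl⟩)
  · exact Or.inr (List.mem_map.2 ⟨e, he, rfl⟩)

end Sig

end Pool.Agent.P.MP_48d4bc_co.EX
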