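import Pool.Agent.P.MP_48d4bc_co.EXStr
import Pool.Agent.P.MP_48d4bc_co.EXVtx

set_option autoImplicit false

/-! The structures attached to a finite ordered typed model. -/

namespace Pool.Agent.P.MP_48d4bc_co.EX

open Set Function Pool.Agent.Lib.PrimrecProp

/-- increasing triples -/
abbrev Tr (N : ℕ) : Type := {β : Fin N × Fin N × Fin N // β.1 < β.2.1 ∧ β.2.1 < β.2.2}

/-- the middle level of a triple -/
def Tr.z {N : ℕ} (β : Tr N) : ℕ := β.1.2.1.1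

/-- the types of the two sides -/
def Tr.ty {N : ℕ} (β : Tr N) (s : Bool) : Fin N × Fin N :=
  cond s (β.1.2.1, β.1.2.2) (β.1.1, β.1.2.1)

namespace Sig.GModel

variable {S : Sig} {N : ℕ} (M : S.GModel N)

/-- the template -/
def T : Tpl M.A (Fin N × Fin N) :=
  ⟨M.ν nx, M.ν ny, fun α => M.R α.1.1 α.2.1, fun h => absurd (congrArg M.r h) M.lo.1.ne,
    fun α => M.fn α.1.1 α.2.1⟩

/-- points: amalgams, inner vertices, free sections -/
abbrev BW : Type :=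
  (Fin S.glue.length × Bool × M.A) ⊕ S.Valid ⊕ ({e // e ∈ S.edges} × M.A)

variable (β : Tr N)

open Classical in
/-- the two sides of an amalgam -/
noncomputable def sg (i : Fin S.glue.length) (s : Bool) (a : M.A) : M.BW :=
  if h : s = true ∧ ∃ b, M.Θ i β.z b a then Sum.inl (i, false, h.2.choose) else Sum.inl (i, s, a)

open Classical in
/-- the copy of the graph -/
noncomputable def up (h0 : 0 < S.glue.length) (v : Vx) : M.BW :=
  if h : v.2.2.2 = 0 ∧ v.1 < S.glue.length then M.sg β ⟨v.1, h.2⟩ v.2.1 (M.ν v.2.2.1.1)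
  else if h' : v ∈ S.Valid then Sum.inr (Sum.inl ⟨v, h'⟩) else Sum.inl (⟨0, h0⟩, false, M.ν nx)

open Classical in
/-- the free section over an edge of a gadget -/
noncomputable def fr (h0 : 0 < S.glue.length) (e : {e // e ∈ S.edges}) (a : M.A) : M.BW :=
  if a = M.ν nx then M.up β h0 e.1.1 else if a = M.ν ny then M.up β h0 e.1.2
  else Sum.inr (Sum.inr (e, a))

/-- all sections of a type -/
def Secs (h0 : 0 < S.glue.length) (α : Fin N × Fin N) : Set (M.A → M.BW) :=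
  {σ | (∃ i s, α = β.ty s ∧ σ = M.sg β i s) ∨
    ∃ e : {e // e ∈ S.edges}, e.1.2.2.2.2 ≠ 0 ∧ α = β.ty false ∧ σ = M.fr β h0 e}

/-- the structure -/
@[reducible] def B (h0 : 0 < S.glue.length) : Str M.A (Fin N × Fin N) :=
  ⟨M.BW, fun u v w => ∃ α, ∃ σ ∈ M.Secs β h0 α, ∃ a b c, M.T.R α a b c ∧
    u = σ a ∧ v = σ b ∧ w = σ c, M.Secs β h0⟩

theorem sg_false (i : Fin S.glue.length) (a : M.A) :
    M.sg β i false a = Sum.inl (i, false, a) := by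
  unfold sg
  rw [dif_neg (by simp)]

theorem EXB1_true (i : Fin S.glue.length) (a : M.A) :
    (∃ b, M.Θ i β.z b a ∧ M.sg β i true a = Sum.inl (i, false, b)) ∨
      ((∀ b, ¬ M.Θ i β.z b a) ∧ M.sg β i true a = Sum.inl (i, true, a)) := by
  unfold sg
  by_cases h : ∃ b, M.Θ i β.z b a
  · exact Or.inl ⟨h.choose, h.choose_spec, dif_pos ⟨rfl, h⟩⟩
  · exact Or.inr ⟨fun b hb => h ⟨b, hb⟩, dif_neg fun h1 => h h1.2⟩

omit M in
theorem EXB1_z : β.z < N := β.1.2.1.2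

theorem EXB1_ft {i i' : Fin S.glue.length} {a b : M.A} :
    M.sg β i false a = M.sg β i' true b ↔ i = i' ∧ M.Θ i β.z a b := by
  rw [sg_false]
  rcases M.EXB1_true β i' b with ⟨c, hc, e⟩ | ⟨hc, e⟩ <;> rw [e]
  · constructor
    · intro h
      simp only [Sum.inl.injEq, Prod.mk.injEq, true_and] at h
      obtain ⟨rfl, rfl⟩ := h
      exact ⟨rfl, hc⟩
    · rintro ⟨rfl, h⟩
      rw [(M.bij i i.2 _ (EXB1_z β) a b c b h hc).2 rfl]
  · constructor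
    · intro h
      simp at h
    · rintro ⟨rfl, h⟩
      exact absurd h (hc a)

theorem EXB1_tt {i i' : Fin S.glue.length} {a b : M.A}
    (h : M.sg β i true a = M.sg β i' true b) : i = i' ∧ a = b := by
  rcases M.EXB1_true β i a with ⟨c, hc, e⟩ | ⟨hc, e⟩ <;>
    rcases M.EXB1_true β i' b with ⟨c', hc', e'⟩ | ⟨hc', e'⟩ <;> rw [e, e'] at h
  · simp only [Sum.inl.injEq, Prod.mk.injEq, true_and] at h
    obtain ⟨rfl, rfl⟩ := h
    exact ⟨rfl, (M.bij i i.2 _ (EXB1_z β) c a c b hc hc').1 rfl⟩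
  · simp at h
  · simp at h
  · simpa using h

theorem EXB1_inl (i : Fin S.glue.length) (s : Bool) (a : M.A) :
    ∃ x, M.sg β i s a = Sum.inl x := by
  unfold sg
  split_ifs
  · exact ⟨_, rfl⟩
  · exact ⟨_, rfl⟩

theorem EXB1_nv (h0 : 0 < S.glue.length) (i : Fin S.glue.length) (s : Bool) (a : Nm) :
    M.up β h0 (nv i (s, a)) = M.sg β i s (M.ν a) := by
  unfold up
  exact dif_pos ⟨rfl, i.2⟩

theorem sg_eq {i i' : Fin S.glue.length} {s s' : Bool} {a b : M.A} :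
    M.sg β i s a = M.sg β i' s' b ↔ i = i' ∧ ((s = s' ∧ a = b) ∨
      (s = false ∧ s' = true ∧ M.Θ i β.z a b) ∨ (s = true ∧ s' = false ∧ M.Θ i β.z b a)) := by
  cases s <;> cases s'
  · rw [sg_false, sg_false]
    simp
  · rw [EXB1_ft]
    simp
  · rw [eq_comm, EXB1_ft]
    constructor
    · rintro ⟨rfl, h⟩
      exact ⟨rfl, Or.inr (Or.inr ⟨rfl, rfl, h⟩)⟩
    · rintro ⟨rfl, h⟩
      simpa using h
  · constructor
    · intro h
      exact ⟨(M.EXB1_tt β h).1, Or.inl ⟨rfl, (M.EXB1_tt β h).2⟩⟩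
    · rintro ⟨rfl, h⟩
      have h1 : a = b := by simpa using h
      rw [h1]

theorem up_vtx (h : S.WF) (i : Fin S.glue.length) (s : Bool) {a : Nm} (ha : a ∈ S.names) :
    M.up β h.pos (S.vtx i s a) = M.sg β i s (M.ν a) := by
  have _ := ha
  cases s
  · rw [vtx_false, EXB1_nv]
  · rcases h.vtx_true i a with ⟨b, hb, e⟩ | ⟨-, e⟩
    · rw [e, EXB1_nv, EXB1_ft]
      exact ⟨rfl, M.glue i i.2 _ (EXB1_z β) (b, a) hb⟩
    · rw [e, EXB1_nv]

theorem up_int (h : S.WF) {v : Vx} (hv : v ∈ S.Valid) (h0 : v.2.2.2 ≠ 0) :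
    M.up β h.pos v = Sum.inr (Sum.inl ⟨v, hv⟩) := by
  unfold up
  rw [dif_neg fun h1 => h0 h1.1, dif_pos hv]

theorem up_inj (h : S.WF) : InjOn (M.up β h.pos) S.Valid := by
  intro u hu v hv e
  obtain ⟨i, hi, s, h1⟩ := h.valid_cases hu
  obtain ⟨i', hi', s', h2⟩ := h.valid_cases hv
  rcases h1 with ⟨a, ha, rfl⟩ | ⟨φ, -, j, hj, -, rfl⟩ <;>
    rcases h2 with ⟨b, hb, rfl⟩ | ⟨φ', -, j', hj', -, rfl⟩
  · rw [M.up_vtx β h ⟨i, hi⟩ s ha, M.up_vtx β h ⟨i', hi'⟩ s' hb, sg_eq] at e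
    obtain ⟨e1, e2⟩ := e
    obtain rfl : i = i' := congrArg Fin.val e1
    refine h.vtx_eq.2 ⟨rfl, ?_⟩
    rcases e2 with ⟨e3, e4⟩ | ⟨e3, e4, e5⟩ | ⟨e3, e4, e5⟩
    · exact Or.inl ⟨e3, M.inj a ha b hb e4⟩
    · exact Or.inr (Or.inl ⟨e3, e4, M.only i hi _ (EXB1_z β) a ha b hb e5⟩)
    · exact Or.inr (Or.inr ⟨e3, e4, M.only i hi _ (EXB1_z β) b hb a ha e5⟩)
  · obtain ⟨x, hx⟩ := M.EXB1_inl β ⟨i, hi⟩ s (M.ν a)
    rw [M.up_vtx β h ⟨i, hi⟩ s ha, hx, M.up_int β h hv (by show j' ≠ 0; omega)] at e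
    exact absurd e Sum.inl_ne_inr
  · obtain ⟨x, hx⟩ := M.EXB1_inl β ⟨i', hi'⟩ s' (M.ν b)
    rw [M.up_vtx β h ⟨i', hi'⟩ s' hb, hx, M.up_int β h hu (by show j ≠ 0; omega)] at e
    exact absurd e Sum.inr_ne_inl
  · rw [M.up_int β h hu (by show j ≠ 0; omega), M.up_int β h hv (by show j' ≠ 0; omega)] at e
    exact congrArg Subtype.val (Sum.inl.inj (Sum.inr.inj e))

omit M β in
/-- an edge is a glue edge or has an inner second end with a larger last coordinate -/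
theorem edge_cases (h : S.WF) {e : Vx × Vx} (he : e ∈ S.edges) :
    (∃ i : Fin S.glue.length, ∃ s, e = (S.vtx i s nx, S.vtx i s ny)) ∨
      e.1.2.2.2 < e.2.2.2.2 := by
  have _ := h
  obtain ⟨i, hi, s, rfl | ⟨φ, -, m, hm, w, hw, rfl⟩⟩ := mem_edges.1 he
  · exact Or.inl ⟨⟨i, hi⟩, s, rfl⟩
  · right
    obtain ⟨h1, h2, -⟩ := thE_lt (mem_thE.2 ⟨m, hm, w, hw, rfl⟩)
    simp only at h1 h2 ⊢
    rw [gad_int i s φ h2]
    generalize th m w.1 = j at h1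
    show (S.gad i s φ j).2.2.2 < th m w.2
    by_cases h3 : 3 ≤ j
    · rw [gad_int i s φ h3]
      exact h1
    · have h4 : (S.gad i s φ j).2.2.2 = 0 := by
        obtain rfl | rfl | rfl : j = 0 ∨ j = 1 ∨ j = 2 := by omega
        · rfl
        · rfl
        · rfl
      omega

theorem EXB1_frx (h0 : 0 < S.glue.length) (e : {e // e ∈ S.edges}) :
    M.fr β h0 e (M.ν nx) = M.up β h0 e.1.1 := by
  unfold fr
  rw [if_pos rfl]

theorem EXB1_fry (h0 : 0 < S.glue.length) (e : {e // e ∈ S.edges}) :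
    M.fr β h0 e (M.ν ny) = M.up β h0 e.1.2 := by
  unfold fr
  rw [if_neg fun h1 => M.lo.1.ne (congrArg M.r h1).symm, if_pos rfl]

omit M β in
theorem EXB1_nx : nx ∈ S.names := List.mem_cons_self

omit M β in
theorem EXB1_ny : ny ∈ S.names := List.mem_cons_of_mem _ List.mem_cons_self

theorem sec_of_edge (h : S.WF) {e : Vx × Vx} (he : e ∈ S.edges) :
    ∃ s, ∃ σ ∈ M.Secs β h.pos (β.ty s),
      σ (M.ν nx) = M.up β h.pos e.1 ∧ σ (M.ν ny) = M.up β h.pos e.2 := by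
  rcases edge_cases h he with ⟨i, s, rfl⟩ | h1
  · exact ⟨s, M.sg β i s, Or.inl ⟨i, s, rfl, rfl⟩, (M.up_vtx β h i s EXB1_nx).symm,
      (M.up_vtx β h i s EXB1_ny).symm⟩
  · exact ⟨false, M.fr β h.pos ⟨e, he⟩, Or.inr ⟨⟨e, he⟩, by show e.2.2.2.2 ≠ 0; omega, rfl, rfl⟩,
      M.EXB1_frx β h.pos ⟨e, he⟩, M.EXB1_fry β h.pos ⟨e, he⟩⟩

theorem edge_of_sec (h : S.WF) {α : Fin N × Fin N} {σ : M.A → M.BW}
    (hσ : σ ∈ M.Secs β h.pos α) : ∃ e ∈ S.edges,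
      σ (M.ν nx) = M.up β h.pos e.1 ∧ σ (M.ν ny) = M.up β h.pos e.2 := by
  rcases hσ with ⟨i, s, -, rfl⟩ | ⟨e, -, -, rfl⟩
  · exact ⟨(S.vtx i s nx, S.vtx i s ny), mem_edges.2 ⟨i, i.2, s, Or.inl rfl⟩,
      (M.up_vtx β h i s EXB1_nx).symm, (M.up_vtx β h i s EXB1_ny).symm⟩
  · exact ⟨e.1, e.2, M.EXB1_frx β h.pos e, M.EXB1_fry β h.pos e⟩

theorem rel_of_fact (h : S.WF) {i : ℕ} (hi : i < S.glue.length) (s : Bool) {φ : Ft}
    (hφ : φ ∈ S.facts) : (M.B β h.pos).R (M.up β h.pos (S.vtx i s φ.1))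
      (M.up β h.pos (S.vtx i s φ.2.1)) (M.up β h.pos (S.vtx i s φ.2.2)) := by
  obtain ⟨h1, h2, h3, -⟩ := h.facts hφ
  refine ⟨β.ty s, M.sg β ⟨i, hi⟩ s, Or.inl ⟨⟨i, hi⟩, s, rfl, rfl⟩, M.ν φ.1, M.ν φ.2.1, M.ν φ.2.2,
    ?_, M.up_vtx β h ⟨i, hi⟩ s h1, M.up_vtx β h ⟨i, hi⟩ s h2, M.up_vtx β h ⟨i, hi⟩ s h3⟩
  cases s
  · exact M.fact _ _ β.2.1 β.1.2.1.2 φ hφ
  · exact M.fact _ _ β.2.2 β.1.2.2.2 φ hφ

end Sig.GModel

end Pool.Agent.P.MP_48d4bc_co.EX
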