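import Pool.Agent.P.MP_48d4bc_co.EXB1

set_option autoImplicit false

/-! The structures of a finite ordered typed model are good. -/

namespace Pool.Agent.P.MP_48d4bc_co.EX

open Set Function Pool.Agent.Lib.PrimrecProp

namespace Sig.GModel

variable {S : Sig} {N : ℕ} (M : S.GModel N) (β : Tr N)

theorem EXB2_sg (i : Fin S.glue.length) (s : Bool) (a : M.A) : ∃ q, M.sg β i s a = Sum.inl q := by
  unfold sg
  split_ifs
  exacts [⟨_, rfl⟩, ⟨_, rfl⟩]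

theorem EXB2_up (h0 : 0 < S.glue.length) (v : Vx) (q : {e // e ∈ S.edges} × M.A) :
    M.up β h0 v ≠ Sum.inr (Sum.inr q) := by
  unfold up
  split_ifs with h1 h2
  · obtain ⟨p, hp⟩ := M.EXB2_sg β ⟨v.1, h1.2⟩ v.2.1 (M.ν v.2.2.1.1)
    rw [hp]
    exact Sum.inl_ne_inr
  · exact fun e => Sum.inl_ne_inr (Sum.inr.inj e)
  · exact Sum.inl_ne_inr

theorem EXB2_fr (h0 : 0 < S.glue.length) (e : {e // e ∈ S.edges}) (a : M.A) :
    (a = M.ν nx ∧ M.fr β h0 e a = M.up β h0 e.1.1) ∨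
      (a = M.ν ny ∧ M.fr β h0 e a = M.up β h0 e.1.2) ∨
        M.fr β h0 e a = Sum.inr (Sum.inr (e, a)) := by
  unfold fr
  split_ifs with h1 h2
  exacts [Or.inl ⟨h1, rfl⟩, Or.inr (Or.inl ⟨h2, rfl⟩), Or.inr (Or.inr rfl)]

omit M β in
theorem EXB2_v1 (e : {e // e ∈ S.edges}) : e.1.1 ∈ S.Valid := ⟨e.1, e.2, Or.inl rfl⟩

omit M β in
theorem EXB2_v2 (e : {e // e ∈ S.edges}) : e.1.2 ∈ S.Valid := ⟨e.1, e.2, Or.inr rfl⟩

omit M β in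
theorem EXB2_lt (h : S.WF) (e : {e // e ∈ S.edges}) (he : e.1.2.2.2.2 ≠ 0) :
    e.1.1.2.2.2 < e.1.2.2.2.2 := by
  rcases edge_cases h e.2 with ⟨i, s, h1⟩ | h1
  · exact absurd (by rw [h1]; rfl) he
  · exact h1

/-- equal values of two free sections -/
theorem EXB2_fr_eq (h : S.WF) {e e' : {e // e ∈ S.edges}} {a a' : M.A}
    (q : M.fr β h.pos e a = M.fr β h.pos e' a') : (e = e' ∧ a = a') ∨
      (((a = M.ν nx ∧ a' = M.ν nx ∧ e.1.1 = e'.1.1) ∨ (a = M.ν nx ∧ a' = M.ν ny ∧ e.1.1 = e'.1.2)) ∨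
      ((a = M.ν ny ∧ a' = M.ν nx ∧ e.1.2 = e'.1.1) ∨
        (a = M.ν ny ∧ a' = M.ν ny ∧ e.1.2 = e'.1.2))) := by
  have I := M.up_inj β h
  rcases M.EXB2_fr β h.pos e a with ⟨h1, h2⟩ | ⟨h1, h2⟩ | h2 <;>
    rcases M.EXB2_fr β h.pos e' a' with ⟨h3, h4⟩ | ⟨h3, h4⟩ | h4 <;> rw [h2, h4] at q
  · exact Or.inr (Or.inl (Or.inl ⟨h1, h3, I (EXB2_v1 e) (EXB2_v1 e') q⟩))
  · exact Or.inr (Or.inl (Or.inr ⟨h1, h3, I (EXB2_v1 e) (EXB2_v2 e') q⟩))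
  · exact absurd q (M.EXB2_up β _ _ _)
  · exact Or.inr (Or.inr (Or.inl ⟨h1, h3, I (EXB2_v2 e) (EXB2_v1 e') q⟩))
  · exact Or.inr (Or.inr (Or.inr ⟨h1, h3, I (EXB2_v2 e) (EXB2_v2 e') q⟩))
  · exact absurd q (M.EXB2_up β _ _ _)
  · exact absurd q.symm (M.EXB2_up β _ _ _)
  · exact absurd q.symm (M.EXB2_up β _ _ _)
  · exact Or.inl (Prod.mk.inj (Sum.inr.inj (Sum.inr.inj q)))

theorem EXB2_inj (h : S.WF) {α : Fin N × Fin N} {σ : M.A → M.BW} (hσ : σ ∈ M.Secs β h.pos α) :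
    Injective σ := by
  intro a b q
  rcases hσ with ⟨i, s, -, rfl⟩ | ⟨e, -, -, rfl⟩
  · rcases ((M.sg_eq β).1 q).2 with h1 | h1 | h1
    · exact h1.2
    · exact absurd (h1.1.symm.trans h1.2.1) Bool.false_ne_true
    · exact absurd (h1.2.1.symm.trans h1.1) Bool.false_ne_true
  · rcases M.EXB2_fr_eq β h q with h1 | (h1 | h1) | (h1 | h1)
    · exact h1.2
    · exact h1.1.trans h1.2.1.symm
    · exact absurd h1.2.2 (h.edge_ne e.2)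
    · exact absurd h1.2.2.symm (h.edge_ne e.2)
    · exact h1.1.trans h1.2.1.symm

theorem EXB2_sg_fr (h : S.WF) {i : Fin S.glue.length} {s : Bool} {e : {e // e ∈ S.edges}}
    (he : e.1.2.2.2.2 ≠ 0) {a a' : M.A} (q : M.sg β i s a = M.fr β h.pos e a') :
    a' = M.ν nx := by
  obtain ⟨p, hp⟩ := M.EXB2_sg β i s a
  rw [hp] at q
  rcases M.EXB2_fr β h.pos e a' with ⟨h3, -⟩ | ⟨-, h4⟩ | h4
  · exact h3
  · rw [h4, M.up_int β h (EXB2_v2 e) he] at q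
    exact absurd q Sum.inl_ne_inr
  · rw [h4] at q
    exact absurd q Sum.inl_ne_inr

/-- two sections that share two points -/
theorem EXB2_two (h : S.WF) {α α' : Fin N × Fin N} {σ τ : M.A → M.BW}
    (hσ : σ ∈ M.Secs β h.pos α) (hτ : τ ∈ M.Secs β h.pos α') {a b a' b' : M.A}
    (qa : σ a = τ a') (qb : σ b = τ b') (hne : a' ≠ b') :
    (α = α' ∧ σ = τ) ∨ ∃ i : Fin S.glue.length,
      (α = β.ty false ∧ α' = β.ty true ∧ σ = M.sg β i false ∧ τ = M.sg β i true ∧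
        M.Θ i β.z a a' ∧ M.Θ i β.z b b') ∨
      (α = β.ty true ∧ α' = β.ty false ∧ σ = M.sg β i true ∧ τ = M.sg β i false ∧
        M.Θ i β.z a' a ∧ M.Θ i β.z b' b) := by
  have hne' : a ≠ b := fun q => hne (M.EXB2_inj β h hτ (qa.symm.trans (q ▸ qb)))
  rcases hσ with ⟨i, s, rfl, rfl⟩ | ⟨e, he, rfl, rfl⟩ <;>
    rcases hτ with ⟨i', s', rfl, rfl⟩ | ⟨e', he', rfl, rfl⟩
  · obtain ⟨rfl, h1⟩ := (M.sg_eq β).1 qa
    have h2 := ((M.sg_eq β).1 qb).2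
    rcases h1 with ⟨rfl, -⟩ | ⟨rfl, rfl, h1⟩ | ⟨rfl, rfl, h1⟩
    · exact Or.inl ⟨rfl, rfl⟩
    · rcases h2 with h2 | h2 | h2
      · exact absurd h2.1 Bool.false_ne_true
      · exact Or.inr ⟨i, Or.inl ⟨rfl, rfl, rfl, rfl, h1, h2.2.2⟩⟩
      · exact absurd h2.1 Bool.false_ne_true
    · rcases h2 with h2 | h2 | h2
      · exact absurd h2.1.symm Bool.false_ne_true
      · exact absurd h2.2.1 Bool.false_ne_true
      · exact Or.inr ⟨i, Or.inr ⟨rfl, rfl, rfl, rfl, h1, h2.2.2⟩⟩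
  · exact absurd ((M.EXB2_sg_fr β h he' qa).trans (M.EXB2_sg_fr β h he' qb).symm) hne
  · exact absurd ((M.EXB2_sg_fr β h he qa.symm).trans (M.EXB2_sg_fr β h he qb.symm).symm) hne'
  · have l := EXB2_lt h e he
    have l' := EXB2_lt h e' he'
    refine Or.inl ⟨rfl, congrArg _ ?_⟩
    rcases M.EXB2_fr_eq β h qa with h1 | (h1 | h1) | (h1 | h1)
    · exact h1.1
    all_goals
      rcases M.EXB2_fr_eq β h qb with h2 | (h2 | h2) | (h2 | h2)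
      · exact h2.1
      all_goals first
        | exact absurd (h1.1.trans h2.1.symm) hne'
        | exact absurd (h1.2.1.trans h2.2.1.symm) hne
        | exact Subtype.ext (Prod.ext h1.2.2 h2.2.2)
        | exact Subtype.ext (Prod.ext h2.2.2 h1.2.2)
        | (rw [h1.2.2, h2.2.2] at l; exact absurd l l'.not_gt)

theorem EXB2_key (h : S.WF) {α α' : Fin N × Fin N} {σ τ : M.A → M.BW}
    (hσ : σ ∈ M.Secs β h.pos α) (hτ : τ ∈ M.Secs β h.pos α') {a b a' b' c' : M.A}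
    (qa : σ a = τ a') (qb : σ b = τ b') (hR : M.T.R α' a' b' c') :
    ∃ c, M.T.R α a b c ∧ σ c = τ c' := by
  have hne : a' ≠ b' := fun q => M.irr _ _ b' c' (q ▸ hR)
  rcases M.EXB2_two β h hσ hτ qa qb hne with ⟨rfl, rfl⟩ |
    ⟨i, ⟨rfl, rfl, rfl, rfl, h1, h2⟩ | ⟨rfl, rfl, rfl, rfl, h1, h2⟩⟩
  · obtain rfl := M.EXB2_inj β h hσ qa
    obtain rfl := M.EXB2_inj β h hσ qb
    exact ⟨c', hR, rfl⟩
  · obtain ⟨c, h3, h4⟩ := M.bwd i i.2 β.1.1 β.z β.1.2.2 β.2.1 β.2.2 β.1.2.2.2 a a' b b' c' h1 h2 hR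
    exact ⟨c, h3, (M.sg_eq β).2 ⟨rfl, Or.inr (Or.inl ⟨rfl, rfl, h4⟩)⟩⟩
  · obtain ⟨c, h3, h4⟩ := M.fwd i i.2 β.1.1 β.z β.1.2.2 β.2.1 β.2.2 β.1.2.2.2 a' a b' b c' h1 h2 hR
    exact ⟨c, h3, (M.sg_eq β).2 ⟨rfl, Or.inr (Or.inr ⟨rfl, rfl, h4⟩)⟩⟩

end Sig.GModel

theorem Sig.GModel.good {S : Sig} {N : ℕ} (M : S.GModel N) (β : Tr N) (h : S.WF) :
    Good M.T (M.B β h.pos) := by
  refine ⟨?_, ?_, fun α σ hσ => ⟨⟨fun a b c hR => ⟨α, σ, hσ, a, b, c, hR, rfl, rfl, rfl⟩, ?_⟩,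
    M.EXB2_inj β h hσ, ?_, ?_⟩⟩
  · have := M.fin
    have : Finite S.Valid := Sig.valid_finite.to_subtype
    have : Finite {e // e ∈ S.edges} := (List.finite_toSet S.edges).to_subtype
    exact inferInstanceAs (Finite M.BW)
  · rintro u v w w' ⟨α, σ, hσ, a, b, c, hR, rfl, rfl, rfl⟩ ⟨α', τ, hτ, a', b', c', hR', qa, qb, rfl⟩
    obtain ⟨d, h1, h2⟩ := M.EXB2_key β h hσ hτ qa qb hR'
    rw [← h2, M.T.fn α a b c d hR h1]
  · rintro α' ρ ⟨rfl, rfl⟩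
    exact hσ
  · rintro a b z ⟨α', τ, hτ, a', b', c', hR', qa, qb, rfl⟩
    obtain ⟨d, h1, h2⟩ := M.EXB2_key β h hσ hτ qa qb hR'
    exact ⟨d, h1, h2.symm⟩
  · rintro α' τ hτ ⟨a, qa⟩ ⟨b, qb⟩
    rcases M.EXB2_two β h hσ hτ qa qb M.T.ne with ⟨rfl, rfl⟩ |
      ⟨i, ⟨-, -, -, -, h1, -⟩ | ⟨-, -, -, -, h1, -⟩⟩
    · exact ⟨id, ⟨rfl, rfl⟩, rfl⟩
    · exact absurd rfl (M.off i i.2 β.z β.1.2.1.2 _ _ h1).2.2.1
    · exact absurd rfl (M.off i i.2 β.z β.1.2.1.2 _ _ h1).1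

end Pool.Agent.P.MP_48d4bc_co.EX
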