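import Pool.Agent.P.MP_48d4bc_co.EXB1

set_option autoImplicit false

/-! An order on the structures of a finite ordered typed model. -/

namespace Pool.Agent.P.MP_48d4bc_co.EX

open Set Function Pool.Agent.Lib.PrimrecProp

theorem EXB3_lt {l l' k k' m m' c c' : ℕ}
    (h : l < l' ∨ l = l' ∧ (k < k' ∨ k = k' ∧ m < m')) :
    (toLex (l, toLex (k, toLex (m, c))) : ℕ ×ₗ ℕ ×ₗ ℕ ×ₗ ℕ) <
      toLex (l', toLex (k', toLex (m', c'))) := by
  simp only [Prod.Lex.toLex_lt_toLex]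
  omega

/-- two keys that order an amalgam of two copies of the points -/
theorem EXB3_amal {A : Type} [Finite A] (r : A → ℕ) (Θ : A → A → Prop)
    (h : ∀ a a' b b', Θ a a' → Θ b b' → r a' < r b' → r a < r b) :
    ∃ k : A → ℕ, (∀ a b, r a < r b → k a ≤ k b) ∧ (∀ a a' b, Θ a a' → r a' < r b → r a < k b) ∧
      ∀ a b b', Θ b b' → r a < r b' → k a ≤ r b := by
  classical
  have := Fintype.ofFinite A
  refine ⟨fun a => Finset.univ.sup fun b => if ∃ c, Θ b c ∧ r c < r a then r b + 1 else 0,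
    fun a b hab => Finset.sup_mono_fun fun d _ => ?_, fun a a' b h1 h2 => ?_,
    fun a b b' h1 h2 => Finset.sup_le fun d _ => ?_⟩
  · split_ifs with h1 h2
    · exact le_rfl
    · obtain ⟨c, h3, h4⟩ := h1
      exact absurd ⟨c, h3, h4.trans hab⟩ h2
    · exact Nat.zero_le _
    · exact le_rfl
  · refine lt_of_lt_of_le ?_ (Finset.le_sup (Finset.mem_univ a))
    rw [if_pos ⟨a', h1, h2⟩]
    exact Nat.lt_succ_self _
  · split_ifs with h3
    · obtain ⟨c, h4, h5⟩ := h3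
      exact h d c b b' h4 h1 (h5.trans h2)
    · exact Nat.zero_le _

theorem Sig.GModel.order {S : Sig} {N : ℕ} (M : S.GModel N) (β : Tr N) (h : S.WF) :
    ∃ ρ : M.BW → ℕ ×ₗ ℕ ×ₗ ℕ ×ₗ ℕ, Injective ρ ∧ ∀ α, ∀ σ ∈ M.Secs β h.pos α, ∀ a b,
      M.r a < M.r b → ρ (σ a) < ρ (σ b) := by
  classical
  have := M.fin
  have hz : β.z < N := β.1.2.1.2
  have hback : ∀ (i : Fin S.glue.length) a a' b b', M.Θ i β.z a a' → M.Θ i β.z b b' →
      M.r a' < M.r b' → M.r a < M.r b := by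
    intro i a a' b b' h1 h2 h3
    rcases lt_trichotomy (M.r a) (M.r b) with h4 | h4 | h4
    · exact h4
    · rw [(M.bij i i.2 _ hz _ _ _ _ h1 h2).1 (M.rinj h4)] at h3
      exact absurd h3 (lt_irrefl _)
    · exact absurd (M.mono i i.2 _ hz _ _ _ _ h2 h1 h4) h3.not_gt
  choose k hk1 hk2 hk3 using fun i : Fin S.glue.length =>
    EXB3_amal M.r (M.Θ i β.z) (hback i)
  have hV : Finite S.Valid := Sig.valid_finite
  have hE : Finite {e // e ∈ S.edges} := (List.finite_toSet S.edges).to_subtype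
  obtain ⟨code, hcode⟩ := exists_injective_nat M.BW
  let l : M.BW → ℕ := Sum.elim (fun _ => 0) (Sum.elim (fun _ => 1) fun _ => 2)
  let p : M.BW → ℕ := Sum.elim (fun w => cond w.2.1 (k w.1 w.2.2) (M.r w.2.2 + 1))
    (Sum.elim (fun v => v.1.2.2.2) fun w => M.r w.2)
  let q : M.BW → ℕ := Sum.elim (fun w => cond w.2.1 (M.r w.2.2 + 1) 0) fun _ => 0
  refine ⟨fun w => toLex (l w, toLex (p w, toLex (q w, code w))), fun w w' hw => hcode ?_, ?_⟩
  · simpa using congrArg (fun x : ℕ ×ₗ ℕ ×ₗ ℕ ×ₗ ℕ => (ofLex (ofLex (ofLex x).2).2).2) hw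
  have htrue : ∀ i a, (∃ b, M.Θ i.1 β.z b a ∧ M.sg β i true a = Sum.inl (i, false, b)) ∨
      M.sg β i true a = Sum.inl (i, true, a) := by
    intro i a
    unfold Sig.GModel.sg
    split_ifs with h1
    · exact Or.inl ⟨_, h1.2.choose_spec, rfl⟩
    · exact Or.inr rfl
  have hsg : ∀ i s a, l (M.sg β i s a) = 0 := by
    intro i s a
    unfold Sig.GModel.sg
    split_ifs <;> rfl
  rintro α σ (⟨i, s, -, rfl⟩ | ⟨e, he, -, rfl⟩) a b hab <;> refine EXB3_lt ?_
  · cases s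
    · rw [M.sg_false, M.sg_false]
      exact Or.inr ⟨rfl, Or.inl (Nat.succ_lt_succ hab)⟩
    · rcases htrue i a with ⟨a', h1, h2⟩ | h2 <;> rcases htrue i b with ⟨b', h3, h4⟩ | h4 <;>
        rw [h2, h4] <;> refine Or.inr ⟨rfl, ?_⟩
      · exact Or.inl (Nat.succ_lt_succ (hback i _ _ _ _ h1 h3 hab))
      · rcases (Nat.succ_le_of_lt (hk2 i _ _ _ h1 hab)).lt_or_eq with h5 | h5
        · exact Or.inl h5
        · exact Or.inr ⟨h5, Nat.succ_pos _⟩
      · exact Or.inl (Nat.lt_succ_of_le (hk3 i _ _ _ h3 hab))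
      · rcases (hk1 i _ _ hab).lt_or_eq with h5 | h5
        · exact Or.inl h5
        · exact Or.inr ⟨h5, Nat.succ_lt_succ hab⟩
  · have hv1 : e.1.1 ∈ S.Valid := ⟨e.1, e.2, Or.inl rfl⟩
    have hv2 : e.1.2 ∈ S.Valid := ⟨e.1, e.2, Or.inr rfl⟩
    have hlt : e.1.1.2.2.2 < e.1.2.2.2.2 := by
      rcases Sig.GModel.edge_cases h e.2 with ⟨i, s, h1⟩ | h1
      · exact absurd (by rw [h1]; rfl) he
      · exact h1
    have hu2 := M.up_int β h hv2 he
    have hu1 : l (M.up β h.pos e.1.1) = 0 ∨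
        M.up β h.pos e.1.1 = Sum.inr (Sum.inl ⟨e.1.1, hv1⟩) := by
      unfold Sig.GModel.up
      split_ifs
      · exact Or.inl (hsg _ _ _)
      · exact Or.inr rfl
    have hlo := M.lo.1
    have hxy : M.ν ny ≠ M.ν nx := fun h1 => hlo.ne' (congrArg M.r h1)
    have hbx : b ≠ M.ν nx := by
      rintro rfl
      by_cases h1 : a = M.ν nx
      · exact absurd hab (h1 ▸ lt_irrefl _)
      · have := M.lo.2 a h1
        omega
    have fx : M.fr β h.pos e (M.ν nx) = M.up β h.pos e.1.1 := if_pos rfl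
    have fy : M.fr β h.pos e (M.ν ny) = Sum.inr (Sum.inl ⟨e.1.2, hv2⟩) :=
      ((if_neg hxy).trans (if_pos rfl)).trans hu2
    have fo : ∀ c, c ≠ M.ν nx → c ≠ M.ν ny → M.fr β h.pos e c = Sum.inr (Sum.inr (e, c)) :=
      fun c h1 h2 => (if_neg h1).trans (if_neg h2)
    by_cases ha : a = M.ν nx
    · rw [ha, fx]
      by_cases hb : b = M.ν ny
      · rw [hb, fy]
        rcases hu1 with h1 | h1
        · exact Or.inl (h1.trans_lt Nat.one_pos)
        · rw [h1]
          exact Or.inr ⟨rfl, Or.inl hlt⟩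
      · rw [fo b hbx hb]
        rcases hu1 with h1 | h1
        · exact Or.inl (h1.trans_lt Nat.two_pos)
        · rw [h1]
          exact Or.inl Nat.one_lt_two
    · have hb : b ≠ M.ν ny := by
        rintro rfl
        exact absurd (M.lo.2 a ha) hab.not_ge
      rw [fo b hbx hb]
      by_cases ha' : a = M.ν ny
      · rw [ha', fy]
        exact Or.inl Nat.one_lt_two
      · rw [fo a ha ha']
        exact Or.inr ⟨rfl, Or.inl hab⟩

end Pool.Agent.P.MP_48d4bc_co.EX
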