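import Pool.Agent.P.MP_48d4bc_co.EXVtx
import Pool.Agent.P.MP_48d4bc_co.Count

set_option autoImplicit false

/-! From the coded graph to the system. -/

namespace Pool.Agent.P.MP_48d4bc_co.EX

open Set Function Pool.Agent.Lib.PrimrecProp

universe u

theorem EXBridge_fold (L : List (ℕ × ℕ)) :
    0 < L.foldr (fun e r => e.1 + e.2 + r) 1 ∧
      ∀ e ∈ L, e.1 + e.2 < L.foldr (fun e r => e.1 + e.2 + r) 1 := by
  induction L with
  | nil => simp
  | cons a L ih =>
    rw [List.foldr_cons]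
    refine ⟨by omega, fun e he => ?_⟩
    rcases List.mem_cons.1 he with rfl | he
    · omega
    · have := ih.2 e he
      omega

theorem EXBridge_code {S : Sig} {a b : ℕ} : (a, b) ∈ S.code ↔
    ∃ e ∈ S.edges, Encodable.encode e.1 = a ∧ Encodable.encode e.2 = b := by
  simp only [Sig.code, List.mem_map, Prod.mk.injEq]

theorem EXBridge_lt {S : Sig} {v : Vx} (hv : v ∈ S.Valid) : Encodable.encode v < S.size := by
  obtain ⟨e, he, hv⟩ := hv
  have := (EXBridge_fold S.code).2 _ (EXBridge_code.2 ⟨e, he, rfl, rfl⟩)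
  unfold Sig.size
  rcases hv with rfl | rfl <;> simp only at this <;> omega

theorem EXBridge_fst {S : Sig} {e : Vx × Vx} (he : e ∈ S.edges) : e.1 ∈ S.Valid :=
  ⟨e, he, Or.inl rfl⟩

theorem EXBridge_snd {S : Sig} {e : Vx × Vx} (he : e ∈ S.edges) : e.2 ∈ S.Valid :=
  ⟨e, he, Or.inr rfl⟩

theorem EXBridge_adj {S : Sig} (h : S.WF) {e : Vx × Vx} (he : e ∈ S.edges) :
    (graphOf S.size S.code).Adj ⟨_, EXBridge_lt (EXBridge_fst he)⟩
      ⟨_, EXBridge_lt (EXBridge_snd he)⟩ := by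
  rw [graphOf, SimpleGraph.fromRel_adj]
  refine ⟨fun e' => h.edge_ne he (Encodable.encode_injective (Fin.mk.inj e')), Or.inl ?_⟩
  exact EXBridge_code.2 ⟨e, he, rfl, rfl⟩

theorem EXBridge_tri {S : Sig} (h : S.WF) : ¬ (graphOf S.size S.code).CliqueFree 3 := by
  classical
  have hφ : (nx, ny, m1) ∈ S.facts := by simp [Sig.facts, baseOf]
  have key : ∀ w ∈ gamE, (S.gad 0 false (nx, ny, m1) (th 0 w.1),
      S.gad 0 false (nx, ny, m1) (th 0 w.2)) ∈ S.edges := fun w hw =>
    Sig.mem_edges.2 ⟨0, h.pos, false, Or.inr ⟨_, hφ, 0, by norm_num, w, hw, rfl⟩⟩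
  have h1 := EXBridge_adj h (key (0, 3) (by simp [gamE]))
  have h2 := EXBridge_adj h (key (0, 4) (by simp [gamE]))
  have h3 := EXBridge_adj h (key (3, 4) (by simp [gamE]))
  exact fun hc => hc _ (SimpleGraph.is3Clique_triple_iff.2 ⟨h1, h2, h3⟩)

theorem EXBridge_free {W X : Type u} {H : SimpleGraph W} (h : GG.Free H) :
    GG.Free (H.map (Sum.inl : W → W ⊕ X)) := by
  rintro ⟨f⟩
  have key : ∀ a b, GG.Adj a b → ∃ x y, H.Adj x y ∧ Sum.inl x = f a ∧ Sum.inl y = f b :=
    fun a b hab => (SimpleGraph.map_adj (Function.Embedding.inl (α := W) (β := X)) H _ _).1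
      (f.toHom.map_adj hab)
  have hv : ∀ a, ∃ x, Sum.inl x = f a := fun a => by
    obtain ⟨b, hb⟩ := gg_nbr a
    obtain ⟨x, -, -, hx, -⟩ := key a b hb
    exact ⟨x, hx⟩
  choose g hg using hv
  refine h ⟨⟨⟨g, fun {a b} hab => ?_⟩, fun a b hab => f.injective ?_⟩⟩
  · obtain ⟨x, y, hxy, hx, hy⟩ := key a b hab
    rw [Sum.inl_injective ((hg a).trans hx.symm), Sum.inl_injective ((hg b).trans hy.symm)]
    exact hxy
  · exact (hg a).symm.trans ((congrArg Sum.inl hab).trans (hg b))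

theorem Sig.WF.exc_iff {S : Sig} (h : S.WF) :
    Exceptional.{u} GG (graphOf S.size S.code) ↔ Sig.P1.{u} S := by
  classical
  constructor
  · rintro ⟨h1, -⟩ κ _ _
    obtain ⟨W, H, hf, hc⟩ := h1 (Nat.card κ) Nat.card_pos
    refine ⟨W, H, hf, fun c => ?_⟩
    obtain ⟨F, k, hF⟩ := hc fun e => Finite.equivFin κ (c e)
    let f : Vx → W := fun v => if hv : Encodable.encode v < S.size then F ⟨_, hv⟩
      else F ⟨0, (EXBridge_fold S.code).1⟩
    have hv : ∀ v (hv : v ∈ S.Valid), f v = F ⟨_, EXBridge_lt hv⟩ := fun v hv =>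
      dif_pos (EXBridge_lt hv)
    refine ⟨f, (Finite.equivFin κ).symm k, fun a ha b hb hab => ?_, fun e he => ?_⟩
    · rw [hv a ha, hv b hb] at hab
      exact Encodable.encode_injective (Fin.mk.inj (F.injective hab))
    · rw [hv _ (EXBridge_fst he), hv _ (EXBridge_snd he)]
      exact ⟨F.toHom.map_adj (EXBridge_adj h he),
        (Equiv.eq_symm_apply _).2 (hF _ _ (EXBridge_adj h he))⟩
  · intro hP
    refine ⟨fun n hn => ?_, fun V H hH => countable_colouring H gg_col (EXBridge_tri h) hH⟩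
    have : Nonempty (Fin n) := ⟨⟨0, hn⟩⟩
    obtain ⟨W, H, hf, hc⟩ := hP (Fin n)
    refine ⟨W ⊕ ULift.{u} (Fin S.size), H.map Sum.inl, EXBridge_free hf, fun c => ?_⟩
    obtain ⟨f, k, hi, he⟩ := hc fun e => c (e.map Sum.inl)
    let F : Fin S.size → W ⊕ ULift.{u} (Fin S.size) := fun a =>
      if ha : ∃ v ∈ S.Valid, Encodable.encode v = a.1 then Sum.inl (f ha.choose) else Sum.inr ⟨a⟩
    have hF : ∀ (a : Fin S.size), ∀ v ∈ S.Valid, Encodable.encode v = a.1 →
        F a = Sum.inl (f v) := fun a v hv e => by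
      have ha : ∃ v ∈ S.Valid, Encodable.encode v = a.1 := ⟨v, hv, e⟩
      rw [← Encodable.encode_injective (ha.choose_spec.2.trans e.symm)]
      exact dif_pos ha
    have hG : ∀ (a : Fin S.size), (¬ ∃ v ∈ S.Valid, Encodable.encode v = a.1) →
        F a = Sum.inr ⟨a⟩ := fun a ha => dif_neg ha
    have h1 : ∀ a b : Fin S.size, (a.1, b.1) ∈ S.code →
        (H.map (Sum.inl : W → W ⊕ ULift.{u} (Fin S.size))).Adj (F a) (F b) ∧
          c s(F a, F b) = k := fun a b hab => by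
      obtain ⟨e, hm, ea, eb⟩ := EXBridge_code.1 hab
      rw [hF a _ (EXBridge_fst hm) ea, hF b _ (EXBridge_snd hm) eb]
      exact ⟨(SimpleGraph.map_adj (Function.Embedding.inl (α := W)) H _ _).2
        ⟨_, _, (he e hm).1, rfl, rfl⟩, (he e hm).2⟩
    have h2 : ∀ a b : Fin S.size, (graphOf S.size S.code).Adj a b →
        (H.map (Sum.inl : W → W ⊕ ULift.{u} (Fin S.size))).Adj (F a) (F b) ∧
          c s(F a, F b) = k := fun a b hab => by
      rw [graphOf, SimpleGraph.fromRel_adj] at hab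
      rcases hab.2 with hab | hab
      · exact h1 a b hab
      · exact ⟨(h1 b a hab).1.symm, by rw [Sym2.eq_swap]; exact (h1 b a hab).2⟩
    refine ⟨⟨⟨F, fun {a b} hab => (h2 a b hab).1⟩, fun a b hab => ?_⟩, k,
      fun a b hab => (h2 a b hab).2⟩
    change F a = F b at hab
    by_cases ha : ∃ v ∈ S.Valid, Encodable.encode v = a.1 <;>
      by_cases hb : ∃ v ∈ S.Valid, Encodable.encode v = b.1
    · obtain ⟨v, hv, ea⟩ := ha
      obtain ⟨w, hw, eb⟩ := hb
      rw [hF a v hv ea, hF b w hw eb] at hab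
      exact Fin.ext (by rw [← ea, ← eb, hi hv hw (Sum.inl_injective hab)])
    · obtain ⟨v, hv, ea⟩ := ha
      rw [hF a v hv ea, hG b hb] at hab
      exact absurd hab Sum.inl_ne_inr
    · obtain ⟨w, hw, eb⟩ := hb
      rw [hG a ha, hF b w hw eb] at hab
      exact absurd hab Sum.inr_ne_inl
    · rw [hG a ha, hG b hb] at hab
      exact congrArg ULift.down (Sum.inr_injective hab)

end Pool.Agent.P.MP_48d4bc_co.EX
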