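import Pool.Agent.P.MP_48d4bc_co.EXMach

set_option autoImplicit false

/-! The graph of a program is primitive recursive. -/

namespace Pool.Agent.P.MP_48d4bc_co.EX

open Set Function Pool.Agent.Lib.PrimrecProp

section

variable {α : Type} [Primcodable α]

@[fun_prop] theorem p_ins {P : α → List Ins} {q : α → ℕ} (hP : Primrec P) (hq : Primrec q) :
    Primrec fun a => ins (P a) (q a) := by
  unfold ins
  fun_prop

@[fun_prop] theorem p_regs {P : α → List Ins} (hP : Primrec P) : Primrec fun a => regs (P a) := by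
  unfold regs
  fun_prop

@[fun_prop] theorem p_exK {k : α → ℕ} (hk : Primrec k) : Primrec fun a => exK (k a) := by
  unfold exK
  fun_prop

@[fun_prop] theorem p_lag {P : α → List Ins} {k q : α → ℕ} (hP : Primrec P) (hk : Primrec k)
    (hq : Primrec q) : Primrec fun a => lag (P a) (k a) (q a) := by
  unfold lag
  fun_prop

@[fun_prop] theorem p_el {r : α → ℕ × ℕ} {k : α → ℕ} (hr : Primrec r) (hk : Primrec k) :
    Primrec fun a => el (r a) (k a) := by
  unfold el
  fun_prop

@[fun_prop] theorem p_restOf {P : α → List Ins} (hP : Primrec P) :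
    Primrec fun a => restOf (P a) := by
  unfold restOf
  fun_prop

@[fun_prop] theorem p_extraOf {P : α → List Ins} (hP : Primrec P) :
    Primrec fun a => extraOf (P a) := by
  unfold extraOf
  fun_prop

@[fun_prop] theorem p_mvs {P : α → List Ins} {q q' : α → ℕ} {z : α → Bool} (hP : Primrec P)
    (hq : Primrec q) (hq' : Primrec q') (hz : Primrec z) :
    Primrec fun a => mvs (P a) (q a) (q' a) (z a) := by
  unfold mvs
  fun_prop

@[fun_prop] theorem p_thq {P : α → List Ins} {q : α → ℕ} (hP : Primrec P) (hq : Primrec q) :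
    Primrec fun a => thq (P a) (q a) := by
  unfold thq
  fun_prop

@[fun_prop] theorem p_ths {P : α → List Ins} (hP : Primrec P) : Primrec fun a => ths (P a) := by
  unfold ths
  fun_prop

@[fun_prop] theorem p_cmv {T i v v' : α → ℕ} {z : α → Bool} (hT : Primrec T) (hz : Primrec z)
    (hi : Primrec i) (hv : Primrec v) (hv' : Primrec v') :
    Primrec fun a => cmv (T a) (z a) (i a) (v a) (v' a) := by
  unfold cmv
  fun_prop

@[fun_prop] theorem p_sh {r r' : α → ℕ × ℕ} {b : α → ℕ} {x y : α → Nm} (hr : Primrec r)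
    (hr' : Primrec r') (hb : Primrec b) (hx : Primrec x) (hy : Primrec y) :
    Primrec fun a => sh (r a) (r' a) (b a) (x a) (y a) := by
  unfold sh
  fun_prop

@[fun_prop] theorem p_mpG {T : α → ℕ} {x y : α → Nm} (hT : Primrec T) (hx : Primrec x)
    (hy : Primrec y) : Primrec fun a => mpG (T a) (x a) (y a) := by
  unfold mpG
  fun_prop

@[fun_prop] theorem p_mpM {P : α → List Ins} {T : α → ℕ} {θ : α → Th} {x y : α → Nm}
    (hP : Primrec P) (hT : Primrec T) (hθ : Primrec θ) (hx : Primrec x) (hy : Primrec y) :
    Primrec fun a => mpM (P a) (T a) (θ a) (x a) (y a) := by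
  unfold mpM
  fun_prop

@[fun_prop] theorem p_mp {P : α → List Ins} {T : α → ℕ} {θ : α → Th} {x y : α → Nm}
    (hP : Primrec P) (hT : Primrec T) (hθ : Primrec θ) (hx : Primrec x) (hy : Primrec y) :
    Primrec fun a => mp (P a) (T a) (θ a) (x a) (y a) := by
  unfold mp
  fun_prop

@[fun_prop] theorem p_namesOf {l : α → List Nm} (hl : Primrec l) :
    Primrec fun a => namesOf (l a) := by
  unfold namesOf
  fun_prop

@[fun_prop] theorem p_baseOf {l : α → List Nm} (hl : Primrec l) :
    Primrec fun a => baseOf (l a) := by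
  unfold baseOf
  fun_prop

@[fun_prop] theorem p_glueOf {P : α → List Ins} {θ : α → Th} (hP : Primrec P) (hθ : Primrec θ) :
    Primrec fun a => glueOf (P a) (θ a) := by
  unfold glueOf
  fun_prop

@[fun_prop] theorem p_back {g : α → List (Nm × Nm)} {x : α → Nm} (hg : Primrec g)
    (hx : Primrec x) : Primrec fun a => back (g a) (x a) := by
  unfold back
  fun_prop

@[fun_prop] theorem p_nv {i : α → ℕ} {r : α → Bool × Nm} (hi : Primrec i) (hr : Primrec r) :
    Primrec fun a => nv (i a) (r a) := by
  unfold nv
  fun_prop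

@[fun_prop] theorem p_glue {P : α → List Ins} (hP : Primrec P) :
    Primrec fun a => (sig (P a)).glue := by
  change Primrec fun a => (ths (P a)).map (glueOf (P a))
  fun_prop

@[fun_prop] theorem p_facts {P : α → List Ins} (hP : Primrec P) :
    Primrec fun a => (sig (P a)).facts := by
  change Primrec fun a => baseOf (restOf (P a)) ++ extraOf (P a)
  fun_prop

theorem p_vtx {P : α → List Ins} {i : α → ℕ} {s : α → Bool} {x : α → Nm}
    (hP : Primrec P) (hi : Primrec i) (hs : Primrec s) (hx : Primrec x) :
    Primrec fun a => (sig (P a)).vtx (i a) (s a) (x a) := by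
  have := p_glue hP
  unfold Sig.vtx Sig.gl
  fun_prop

theorem p_gad {P : α → List Ins} {i j : α → ℕ} {s : α → Bool} {x : α → Ft}
    (hP : Primrec P) (hi : Primrec i) (hs : Primrec s) (hx : Primrec x) (hj : Primrec j) :
    Primrec fun a => (sig (P a)).gad (i a) (s a) (x a) (j a) := by
  have h1 := p_vtx hP hi hs (x := fun a => (x a).1) (by fun_prop)
  have h2 := p_vtx hP hi hs (x := fun a => (x a).2.1) (by fun_prop)
  have h3 := p_vtx hP hi hs (x := fun a => (x a).2.2) (by fun_prop)
  unfold Sig.gad
  exact p_cond (by fun_prop) h1 (p_cond (by fun_prop) h2 (p_cond (by fun_prop) h3 (by fun_prop)))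

end

theorem prim_edges : Primrec fun P : List Ins => (sig P).edges := by
  unfold Sig.edges
  refine p_flatMap (p_pairs (p_range (p_length (p_glue p_id))) (p_const _)) ?_
  refine p_cons (p_pair ?_ ?_) (p_map (p_pairs (p_facts (p_fst p_id)) (p_const _)) (p_pair ?_ ?_))
  · exact p_vtx (p_fst p_id) (by fun_prop) (by fun_prop) (p_const _)
  · exact p_vtx (p_fst p_id) (by fun_prop) (by fun_prop) (p_const _)
  · exact p_gad (p_fst (p_fst p_id)) (by fun_prop) (by fun_prop) (by fun_prop) (by fun_prop)
  · exact p_gad (p_fst (p_fst p_id)) (by fun_prop) (by fun_prop) (by fun_prop) (by fun_prop)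

theorem prim_cd : Primrec fun P : List Ins => (sig P).code := by
  unfold Sig.code
  exact p_map prim_edges (p_pair (Primrec.encode.comp (p_fst (p_snd p_id)))
    (Primrec.encode.comp (p_snd (p_snd p_id))))

theorem prim_code : Primrec fun P : List Ins => ((sig P).size, (sig P).code) := by
  refine p_pair ?_ prim_cd
  unfold Sig.size
  exact p_foldr prim_cd (p_const _) (by fun_prop)

end Pool.Agent.P.MP_48d4bc_co.EX
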