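import Pool.Agent.P.MP_48d4bc_co.EXVtx

set_option autoImplicit false

/-! Copies of the gadget in the graph of a system are the named gadgets. -/

namespace Pool.Agent.P.MP_48d4bc_co.EX

open Set Function Pool.Agent.Lib.PrimrecProp

/-- the vertices of the gadget with a given name -/
def EXCopyG (S : Sig) (d : ℕ × Bool × Ft × ℕ) (a : ℕ) : Vx :=
  S.gad d.1 d.2.1 d.2.2.1 (th d.2.2.2 a)

/-- an edge of the gadget with a given name -/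
def EXCopyE (S : Sig) (d : ℕ × Bool × Ft × ℕ) (u v : Vx) : Prop :=
  d.1 < S.glue.length ∧ d.2.2.1 ∈ S.facts ∧
    ∃ a b, ((a, b) ∈ gamE ∨ (b, a) ∈ gamE) ∧ u = EXCopyG S d a ∧ v = EXCopyG S d b

variable {S : Sig} {d d' : ℕ × Bool × Ft × ℕ} {u v w : Vx}

theorem EXCopy_symm (h : EXCopyE S d u v) : EXCopyE S d v u := by
  obtain ⟨h1, h2, a, b, h3, h4, h5⟩ := h
  exact ⟨h1, h2, b, a, h3.symm, h5, h4⟩

theorem EXCopy_lt {a b : ℕ} (h : (a, b) ∈ gamE ∨ (b, a) ∈ gamE) :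
    a < 9 ∧ b < 9 ∧ (3 ≤ a ∨ 3 ≤ b) := by
  rcases h with h | h <;> have := gamE_lt h <;> simp only at this <;> omega

theorem EXCopy_root {a : ℕ} (h : a ≤ 2) : (EXCopyG S d a).2.2.2 = 0 := by
  rw [EXCopyG, th_root _ h]
  interval_cases a <;> rfl

theorem EXCopy_int {a : ℕ} (h : 3 ≤ a) :
    EXCopyG S d a = (d.1, d.2.1, d.2.2.1, 6 * d.2.2.2 + a) := by
  rw [EXCopyG, th_int _ h, Sig.gad_int _ _ _ (by omega)]

theorem EXCopy_id {a a' : ℕ} (h : a < 9) (h' : a' < 9) (e : EXCopyG S d a = EXCopyG S d' a')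
    (hn : (EXCopyG S d a).2.2.2 ≠ 0) : d = d' ∧ a = a' := by
  have h1 : 3 ≤ a := by
    by_contra h1
    exact hn (EXCopy_root (by omega))
  have h2 : 3 ≤ a' := by
    by_contra h2
    exact hn (e ▸ EXCopy_root (by omega))
  rw [EXCopy_int h1, EXCopy_int h2] at e
  obtain ⟨i, s, φ, m⟩ := d
  obtain ⟨i', s', φ', m'⟩ := d'
  simp only [Prod.mk.injEq] at e ⊢
  obtain ⟨e1, e2, e3, e4⟩ := e
  exact ⟨⟨e1, e2, e3, by omega⟩, by omega⟩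

theorem EXCopy_inner (h : EXCopyE S d u v) : u.2.2.2 ≠ 0 ∨ v.2.2.2 ≠ 0 := by
  obtain ⟨-, -, a, b, h3, rfl, rfl⟩ := h
  rcases (EXCopy_lt h3).2.2 with h4 | h4
  · left
    rw [EXCopy_int h4]
    show 6 * d.2.2.2 + a ≠ 0
    omega
  · right
    rw [EXCopy_int h4]
    show 6 * d.2.2.2 + b ≠ 0
    omega

theorem EXCopy_eq (h : EXCopyE S d u v) (h' : EXCopyE S d' u w) (hn : u.2.2.2 ≠ 0) : d = d' := by
  obtain ⟨-, -, a, b, h3, rfl, -⟩ := h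
  obtain ⟨-, -, a', b', h4, e, -⟩ := h'
  exact (EXCopy_id (EXCopy_lt h3).1 (EXCopy_lt h4).1 e hn).1

theorem EXCopy_uniq (h : EXCopyE S d u v) (h' : EXCopyE S d' u v) : d = d' :=
  (EXCopy_inner h).elim (EXCopy_eq h h') (EXCopy_eq (EXCopy_symm h) (EXCopy_symm h'))

theorem EXCopy_ad (h : S.Ad u v) :
    (∃ i s a b, (a = nx ∧ b = ny ∨ a = ny ∧ b = nx) ∧ u = S.vtx i s a ∧ v = S.vtx i s b) ∨
      ∃ d, EXCopyE S d u v := by
  rcases h with h | h <;> obtain ⟨i, hi, s, e | ⟨φ, hφ, m, -, z, hz, e⟩⟩ := Sig.mem_edges.1 h <;>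
    obtain ⟨e1, e2⟩ := Prod.mk.inj e
  · exact Or.inl ⟨i, s, nx, ny, Or.inl ⟨rfl, rfl⟩, e1, e2⟩
  · exact Or.inr ⟨(i, s, φ, m), hi, hφ, z.1, z.2, Or.inl hz, e1, e2⟩
  · exact Or.inl ⟨i, s, ny, nx, Or.inr ⟨rfl, rfl⟩, e2, e1⟩
  · exact Or.inr ⟨(i, s, φ, m), hi, hφ, z.2, z.1, Or.inr hz, e2, e1⟩

theorem EXCopy_ne (h : S.WF) (ha : S.Ad u v) : u ≠ v :=
  ha.elim (fun e => h.edge_ne e) fun e => (h.edge_ne e).symm

theorem EXCopy_xy (h : S.WF) {i i' : ℕ} {s s' : Bool} {a b : Nm} (ha : a = nx ∨ a = ny)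
    (e : S.vtx i s a = S.vtx i' s' b) : i = i' ∧ s = s' ∧ a = b := by
  obtain ⟨e1, e2 | ⟨-, -, e2⟩ | ⟨-, -, e2⟩⟩ := h.vtx_eq.1 e
  · exact ⟨e1, e2⟩
  · obtain ⟨-, -, h1, h2, -, -⟩ := h.mem i _ e2
    exact (ha.elim h1 h2).elim
  · obtain ⟨-, -, -, -, h1, h2⟩ := h.mem i _ e2
    exact (ha.elim h1 h2).elim

theorem EXCopy_low (h : S.WF) {i : ℕ} {s : Bool} {a : Nm} (ha : a = nx ∨ a = ny)
    (he : EXCopyE S d (S.vtx i s a) w) :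
    ∃ j c, j ≤ 1 ∧ (j, c) ∈ gamE ∧ S.vtx i s a = EXCopyG S d j ∧ w = EXCopyG S d c := by
  obtain ⟨-, hφ, j, c, h3, e1, e2⟩ := he
  have h4 : j ≤ 2 := by
    by_contra h4
    have h5 := Sig.vtx_last (S := S) i s a
    rw [e1, EXCopy_int (by omega)] at h5
    have h6 : 6 * d.2.2.2 + j = 0 := h5
    omega
  have h5 : j ≠ 2 := fun e => by
    rw [e, EXCopyG, th_root _ le_rfl, Sig.gad_two] at e1
    have h6 := (EXCopy_xy h ha e1).2.2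
    obtain ⟨-, -, -, -, -, -, h7, h8⟩ := h.facts hφ
    exact ha.elim (fun e => h7 (h6 ▸ e)) fun e => h8 (h6 ▸ e)
  refine ⟨j, c, by omega, h3.resolve_right fun h6 => ?_, e1, e2⟩
  have := gamE_lt h6
  simp only at this
  omega

/-- the edges of a triangle are edges of gadgets -/
theorem EXCopy_gad (h : S.WF) (h1 : S.Ad u v) (h2 : S.Ad u w) (h3 : S.Ad v w) :
    ∃ d, EXCopyE S d u v := by
  refine (EXCopy_ad h1).resolve_left ?_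
  rintro ⟨i, s, a, b, hab, rfl, rfl⟩
  have ha : a = nx ∨ a = ny := hab.imp And.left And.left
  have hb : b = nx ∨ b = ny := (hab.imp And.right And.right).symm
  have hxy : nx ≠ ny := by decide
  rcases EXCopy_ad h2 with ⟨i', s', a', b', hab', e, rfl⟩ | ⟨d, hd⟩
  · obtain ⟨rfl, rfl, rfl⟩ := EXCopy_xy h ha e
    refine EXCopy_ne h h3 (congrArg _ ?_)
    rcases hab with ⟨e1, e2⟩ | ⟨e1, e2⟩ <;> rcases hab' with ⟨e3, e4⟩ | ⟨e3, e4⟩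
    · exact e2.trans e4.symm
    · exact absurd (e1.symm.trans e3) hxy
    · exact absurd (e3.symm.trans e1) hxy
    · exact e2.trans e4.symm
  rcases EXCopy_ad h3 with ⟨i', s', a', b', hab', e, rfl⟩ | ⟨d', hd'⟩
  · obtain ⟨rfl, rfl, rfl⟩ := EXCopy_xy h hb e
    refine EXCopy_ne h h2 (congrArg _ ?_)
    rcases hab with ⟨e1, e2⟩ | ⟨e1, e2⟩ <;> rcases hab' with ⟨e3, e4⟩ | ⟨e3, e4⟩
    · exact absurd (e3.symm.trans e2) hxy
    · exact e1.trans e4.symm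
    · exact e1.trans e4.symm
    · exact absurd (e2.symm.trans e3) hxy
  have hw : w.2.2.2 ≠ 0 := (EXCopy_inner hd).resolve_left fun e => e rfl
  obtain ⟨j, c, j1, j2, j3, j4⟩ := EXCopy_low h ha hd
  obtain ⟨j', c', k1, k2, k3, k4⟩ := EXCopy_low h hb hd'
  obtain ⟨rfl, rfl⟩ := EXCopy_id (gamE_lt j2).2.2 (gamE_lt k2).2.2 (j4.symm.trans k4) (j4 ▸ hw)
  have hj : j ≠ j' := fun e => EXCopy_ne h h1 (by rw [j3, k3, e])
  refine gam_no_common c ?_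
  rcases (by omega : j = 0 ∧ j' = 1 ∨ j = 1 ∧ j' = 0) with ⟨rfl, rfl⟩ | ⟨rfl, rfl⟩
  · exact ⟨j2, k2⟩
  · exact ⟨k2, j2⟩

theorem EXCopy_tri (h : S.WF) (h1 : S.Ad u v) (h2 : S.Ad u w) (h3 : S.Ad v w) :
    ∃ d, EXCopyE S d u v ∧ EXCopyE S d u w ∧ EXCopyE S d v w := by
  obtain ⟨d1, e1⟩ := EXCopy_gad h h1 h2 h3
  obtain ⟨d2, e2⟩ := EXCopy_gad h h2 h1 h3.symm
  obtain ⟨d3, e3⟩ := EXCopy_gad h h3 h1.symm h2.symm
  have hu : u.2.2.2 ≠ 0 → d1 = d2 := EXCopy_eq e1 e2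
  have hv : v.2.2.2 ≠ 0 → d1 = d3 := EXCopy_eq (EXCopy_symm e1) e3
  have hw : w.2.2.2 ≠ 0 → d2 = d3 := EXCopy_eq (EXCopy_symm e2) (EXCopy_symm e3)
  have key : d1 = d2 ∧ d1 = d3 := by
    by_cases a : u.2.2.2 = 0
    · have b := hv ((EXCopy_inner e1).resolve_left fun e => e a)
      have c := hw ((EXCopy_inner e2).resolve_left fun e => e a)
      exact ⟨b.trans c.symm, b⟩
    · rcases EXCopy_inner e3 with b | b
      · exact ⟨hu a, hv b⟩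
      · exact ⟨hu a, (hu a).trans (hw b)⟩
  exact ⟨d1, e1, key.1 ▸ e2, key.2 ▸ e3⟩

theorem Sig.WF.copy {S : Sig} (h : S.WF) (ψ : Fin 9 → Vx) (hi : Injective ψ)
    (ha : ∀ a b, Gam.Adj a b → S.Ad (ψ a) (ψ b)) : ∃ i < S.glue.length, ∃ s, ∃ φ ∈ S.facts,
      ψ 0 = S.vtx i s φ.1 ∧ ψ 1 = S.vtx i s φ.2.1 ∧ ψ 2 = S.vtx i s φ.2.2 := by
  have ht : ∀ t, Gam.IsNClique 3 t →
      ∃ d, ∀ a ∈ t, ∀ b ∈ t, Gam.Adj a b → EXCopyE S d (ψ a) (ψ b) := fun t ht => by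
    obtain ⟨x, y, z, h1, h2, h3, rfl⟩ := SimpleGraph.is3Clique_iff.1 ht
    obtain ⟨d, e1, e2, e3⟩ := EXCopy_tri h (ha _ _ h1) (ha _ _ h2) (ha _ _ h3)
    refine ⟨d, fun a ha b hb hab => ?_⟩
    simp only [Finset.mem_insert, Finset.mem_singleton] at ha hb
    rcases ha with rfl | rfl | rfl <;> rcases hb with rfl | rfl | rfl <;>
      first
        | exact absurd rfl hab.ne
        | assumption
        | exact EXCopy_symm ‹_›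
  obtain ⟨t0, ht0, -⟩ := gam_linked.1 0
  obtain ⟨d, hd⟩ := ht t0 ht0
  have hall : ∀ t, Gam.IsNClique 3 t →
      ∀ a ∈ t, ∀ b ∈ t, Gam.Adj a b → EXCopyE S d (ψ a) (ψ b) := fun t h1 => by
    by_contra hn
    obtain ⟨e, he, ⟨t1, -, p1, m1⟩, t2, c2, p2, m2⟩ := (gam_linked.2
      (fun t => ∀ a ∈ t, ∀ b ∈ t, Gam.Adj a b → EXCopyE S d (ψ a) (ψ b)) ⟨t0, ht0, hd⟩
      ⟨t, h1, hn⟩).nonempty
    induction e using Sym2.ind with
    | _ a b =>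
      obtain ⟨d2, hd2⟩ := ht t2 c2
      have e1 := p1 a (m1 a (by simp)) b (m1 b (by simp)) he
      have e2 := hd2 a (m2 a (by simp)) b (m2 b (by simp)) he
      exact p2 (EXCopy_uniq e2 e1 ▸ hd2)
  have hedge : ∀ a b, Gam.Adj a b → EXCopyE S d (ψ a) (ψ b) := fun a b hab => by
    obtain ⟨c, h1, h2⟩ := gam_edge_tri hab
    exact hall {a, b, c} (SimpleGraph.is3Clique_triple_iff.2 ⟨hab, h1, h2⟩) a (by simp) b
      (by simp) hab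
  have hnb : ∀ a : Fin 9, ∃ b, Gam.Adj a b := fun a => by
    obtain ⟨z, hz, e | e⟩ := gam_nbr a.2
    · exact ⟨⟨z.2, (gamE_lt hz).2.2⟩, gam_adj.2 (Or.inl (e ▸ hz))⟩
    · exact ⟨⟨z.1, (gamE_lt hz).1.trans (gamE_lt hz).2.2⟩, gam_adj.2 (Or.inr (e ▸ hz))⟩
  have hβ : ∀ a : Fin 9, ∃ b : Fin 9, ψ a = EXCopyG S d b := fun a => by
    obtain ⟨b, hb⟩ := hnb a
    obtain ⟨-, -, j, c, h3, e, -⟩ := hedge a b hb
    exact ⟨⟨j, (EXCopy_lt h3).1⟩, e⟩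
  choose β hβ using hβ
  obtain ⟨b0, hb0⟩ := hnb 0
  obtain ⟨hd1, hd2, -⟩ := hedge 0 b0 hb0
  have hG : ∀ {j j' : ℕ}, j < 9 → j' < 9 → EXCopyG S d j = EXCopyG S d j' → j = j' :=
    fun h1 h2 e => (th_inj h1 h2 (h.gad_inj hd2 e)).1
  obtain ⟨r0, r1, r2⟩ := gam_rigid β (fun a b e => hi (by rw [hβ, hβ, e])) fun a b hab => by
    obtain ⟨-, -, j, c, h3, e1, e2⟩ := hedge a b hab
    rw [gam_adj, hG (β a).2 (EXCopy_lt h3).1 ((hβ a).symm.trans e1),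
      hG (β b).2 (EXCopy_lt h3).2.1 ((hβ b).symm.trans e2)]
    exact h3
  refine ⟨d.1, hd1, d.2.1, d.2.2.1, hd2, ?_, ?_, ?_⟩
  · rw [hβ, r0]
    exact congrArg (S.gad _ _ _) (th_root _ (by decide))
  · rw [hβ, r1]
    exact congrArg (S.gad _ _ _) (th_root _ (by decide))
  · rw [hβ, r2]
    exact congrArg (S.gad _ _ _) (th_root _ (by decide))

end Pool.Agent.P.MP_48d4bc_co.EX
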