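import Mathlib

set_option autoImplicit false

/-! The clock: in every model the local isomorphisms move all registers. -/

namespace Pool.Agent.P.MP_48d4bc_co.EX

/-- registers: kind and state -/
abbrev Reg := ℕ × ℕ

/-- the partner of a register in its defining facts -/
def par (r : Reg) : Reg :=
  if r.1 = 1 then (2, 0) else if r.1 = 10 then (11, 0) else if r.1 = 11 then (12, 0)
  else if r.1 = 13 then (14, 0) else if r.1 = 14 then (15, 0) else if r.1 = 15 then (13, 0)
  else (10, 0)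

/-- the offset of a register in its defining facts -/
def off (lag : Reg → ℕ) (r : Reg) : ℕ := if r.1 = 1 then r.2 else lag r

/-- the source of the map that defines a register -/
def src (lag : Reg → ℕ) (r : Reg) : Reg := if r.1 = 12 then (3, 0) else (1, off lag r)

/-- registers of the first twelve kinds -/
def Ok (n : ℕ) (r : Reg) : Prop :=
  (r.1 = 1 ∧ r.2 < 3) ∨ ((r.1 = 2 ∨ r.1 = 3 ∨ r.1 = 9 ∨ r.1 = 10 ∨ r.1 = 11 ∨ r.1 = 12) ∧ r.2 = 0) ∨
    ((r.1 = 4 ∨ r.1 = 5 ∨ r.1 = 6 ∨ r.1 = 8) ∧ r.2 < n)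

variable {A : Type}

/-- the named points of a register are moved to those of another register -/
def Named (lag : Reg → ℕ) (nm : Reg → ℕ → A) (Θ : A → A → Prop) (r r' : Reg) : Prop :=
  ∀ k, k ≤ 3 → lag r ≤ k + 1 → k + 1 - lag r ≤ 3 → Θ (nm r k) (nm r' (k + 1 - lag r))

/-- a local isomorphism that moves the clock -/
structure Base (R : A → A → A → Prop) (lag : Reg → ℕ) (nm : Reg → ℕ → A) (Θ : A → A → Prop) :
    Prop where
  bij : ∀ a a' b b', Θ a a' → Θ b b' → (a = b ↔ a' = b')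
  fwd : ∀ a a' b b' c, Θ a a' → Θ b b' → R a b c → ∃ c', R a' b' c' ∧ Θ c c'
  h : Named lag nm Θ (10, 0) (13, 0)
  k : Named lag nm Θ (11, 0) (14, 0)
  l : Named lag nm Θ (12, 0) (15, 0)

/-- the data from which the clock is derived -/
structure Clock (R : A → A → A → Prop) (n : ℕ) (lag : Reg → ℕ) (nm : Reg → ℕ → A) : Prop where
  fn : ∀ a b c c', R a b c → R a b c' → c = c'
  lag2 : ∀ r, lag r ≤ 2
  lag0 : ∀ r, r.1 ≠ 5 → r.1 ≠ 6 → lag r = 0
  def0 : ∀ r, Ok n r → R (nm r (off lag r)) (nm (par r) 0) (nm r (off lag r + 1))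
  ex0 : ∀ i < 3, R (nm (1, i) 0) (nm (10, 0) 0) (nm (1, i) 1)
  u0 : R (nm (3, 0) 0) (nm (2, 0) 0) (nm (3, 0) 1)
  thD : ∀ r, Ok n r → ∃ Θ, Base R lag nm Θ ∧ Named lag nm Θ (src lag r) r ∧
    Named lag nm Θ (2, 0) (par r)
  thE : ∀ i < 3, ∃ Θ, Base R lag nm Θ ∧ Named lag nm Θ (1, 0) (1, i) ∧
    Named lag nm Θ (2, 0) (10, 0)
  thU : ∃ Θ, Base R lag nm Θ ∧ Named lag nm Θ (3, 0) (3, 0) ∧ Named lag nm Θ (2, 0) (2, 0)

theorem exists_el (R : A → A → A → Prop) (hR : ∀ a b c c', R a b c → R a b c' → c = c')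
    (o : Reg → ℕ) (nm : Reg → ℕ → A) : ∃ el : Reg → ℕ → A, (∀ r k, k ≤ 3 → el r k = nm r k) ∧
      ∀ r k c, 3 ≤ k → R (el r k) (el (par r) (k - o r)) c → c = el r (k + 1) := by
  classical
  let op : A → A → A := fun a b => if h : ∃ c, R a b c then h.choose else a
  have hop : ∀ a b c, R a b c → c = op a b := fun a b c h => by
    have h' : ∃ c, R a b c := ⟨c, h⟩
    simp only [op, dif_pos h']
    exact hR _ _ _ _ h h'.choose_spec
  let E : ℕ → Reg → ℕ → A := fun m => Nat.rec nm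
    (fun m F r k => if k = m + 1 ∧ 3 ≤ m then op (F r m) (F (par r) (m - o r)) else F r k) m
  have hE : ∀ m r k, E (m + 1) r k =
      if k = m + 1 ∧ 3 ≤ m then op (E m r m) (E m (par r) (m - o r)) else E m r k :=
    fun _ _ _ => rfl
  have st : ∀ r k m, k ≤ m → E m r k = E k r k := by
    intro r k m h
    induction m, h using Nat.le_induction with
    | base => rfl
    | succ m h ih => rw [hE, if_neg (by omega), ih]
  refine ⟨fun r k => E k r k, fun r k hk => ?_, fun r k c hk h => ?_⟩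
  · have : ∀ m, E m r k = nm r k := fun m => by
      induction m with
      | zero => rfl
      | succ m ih => rw [hE, if_neg (by omega), ih]
    exact this k
  · show c = E (k + 1) r (k + 1)
    rw [hE, if_pos ⟨rfl, hk⟩, st _ _ _ (Nat.sub_le _ _)]
    exact hop _ _ _ h

section

variable {R : A → A → A → Prop} {n : ℕ} {lag : Reg → ℕ} {nm el : Reg → ℕ → A}

/-- the invariant of the clock -/
structure Inv (R : A → A → A → Prop) (n : ℕ) (lag : Reg → ℕ) (nm el : Reg → ℕ → A) (j : ℕ) :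
    Prop where
  df : ∀ r, Ok n r → R (el r (j + off lag r)) (el (par r) j) (el r (j + off lag r + 1))
  ex : ∀ i < 3, R (el (1, i) j) (el (10, 0) j) (el (1, i) (j + 1))
  u : R (el (3, 0) j) (el (2, 0) j) (el (3, 0) (j + 1))
  h : ∀ Θ, Base R lag nm Θ → Θ (el (10, 0) j) (el (13, 0) (j + 1))
  k : ∀ Θ, Base R lag nm Θ → Θ (el (11, 0) j) (el (14, 0) (j + 1))
  l : ∀ Θ, Base R lag nm Θ → Θ (el (12, 0) j) (el (15, 0) (j + 1))
  mv : ∀ Θ, Base R lag nm Θ → ∀ r r', Ok n r → r.1 ≠ 10 → r.1 ≠ 11 → Ok n r' →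
    Named lag nm Θ r r' → Θ (el r (j + lag r)) (el r' (j + 1))
  ah : ∀ Θ, Base R lag nm Θ → ∀ r, Ok n r → Named lag nm Θ (src lag r) r →
    Named lag nm Θ (2, 0) (par r) → ∀ k ≤ j + off lag r, Θ (el (src lag r) k) (el r (k + 1))

theorem Clock.off_le (C : Clock R n lag nm) {r : Reg} (h : Ok n r) : off lag r ≤ 2 := by
  unfold off
  split_ifs with h1
  · rcases h with h | h | h <;> omega
  · exact C.lag2 r

theorem Clock.lag_src (C : Clock R n lag nm) (r : Reg) : lag (src lag r) = 0 := by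
  unfold src
  split_ifs <;> exact C.lag0 _ (by simp) (by simp)

theorem ok_par {r : Reg} (h : Ok n r) : Ok n (par r) := by
  unfold par
  split_ifs <;> simp_all [Ok]

theorem Clock.named (_C : Clock R n lag nm) (e1 : ∀ r k, k ≤ 3 → el r k = nm r k)
    {Θ : A → A → Prop} {r r' : Reg} (h : Named lag nm Θ r r') (h0 : lag r = 0) {k : ℕ}
    (hk : k ≤ 2) : Θ (el r k) (el r' (k + 1)) := by
  have := h k (by omega) (by omega) (by omega)
  rw [h0] at this
  rwa [e1 _ _ (by omega), e1 _ _ (by omega)]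

theorem Clock.inv_zero (C : Clock R n lag nm) (e1 : ∀ r k, k ≤ 3 → el r k = nm r k) :
    Inv R n lag nm el 0 := by
  refine ⟨fun r h => ?_, fun i hi => ?_, ?_,
    fun Θ B => C.named e1 B.h (C.lag0 _ (by simp) (by simp)) (by omega),
    fun Θ B => C.named e1 B.k (C.lag0 _ (by simp) (by simp)) (by omega),
    fun Θ B => C.named e1 B.l (C.lag0 _ (by simp) (by simp)) (by omega),
    fun Θ B r r' _ _ _ _ hN => ?_, fun Θ B r h h1 _ k hk => ?_⟩
  · have := C.off_le h
    rw [Nat.zero_add, e1 _ _ (by omega), e1 _ _ (by omega), e1 _ _ (by omega)]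
    exact C.def0 r h
  · rw [e1 _ _ (by omega), e1 _ _ (by omega), e1 _ _ (by omega)]
    exact C.ex0 i hi
  · rw [e1 _ _ (by omega), e1 _ _ (by omega), e1 _ _ (by omega)]
    exact C.u0
  · have := C.lag2 r
    have h := hN (lag r) (by omega) (by omega) (by omega)
    rw [show lag r + 1 - lag r = 1 by omega] at h
    rw [Nat.zero_add, e1 _ _ (by omega), e1 _ _ (by omega)]
    exact h
  · have := C.off_le h
    exact C.named e1 h1 (C.lag_src r) (by omega)

/-- the image of a fact is the defining fact of the target -/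
theorem Clock.push (C : Clock R n lag nm) (e1 : ∀ r k, k ≤ 3 → el r k = nm r k)
    (e2 : ∀ r k c, 3 ≤ k → R (el r k) (el (par r) (k - off lag r)) c → c = el r (k + 1))
    {Θ : A → A → Prop} (B : Base R lag nm Θ) {r r' : Reg} (hN : Named lag nm Θ r r')
    (h0 : lag r = 0) {j : ℕ} {b : A} (h1 : Θ (el r (j + off lag r')) (el r' (j + off lag r' + 1)))
    (h2 : Θ b (el (par r') (j + 1)))
    (h3 : R (el r (j + off lag r')) b (el r (j + off lag r' + 1))) :
    R (el r' (j + 1 + off lag r')) (el (par r') (j + 1)) (el r' (j + 1 + off lag r' + 1)) ∧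
      Θ (el r (j + off lag r' + 1)) (el r' (j + off lag r' + 1 + 1)) := by
  obtain ⟨c, hc, hc'⟩ := B.fwd _ _ _ _ _ h1 h2 h3
  have : c = el r' (j + off lag r' + 1 + 1) := by
    by_cases hj : j + off lag r' + 1 ≤ 2
    · exact (B.bij _ _ _ _ hc' (C.named e1 hN h0 hj)).1 rfl
    · refine e2 _ _ _ (by omega) ?_
      rwa [show j + off lag r' + 1 - off lag r' = j + 1 by omega]
  subst this
  rw [show j + 1 + off lag r' = j + off lag r' + 1 by omega]
  exact ⟨hc, hc'⟩

theorem Clock.inv_succ (C : Clock R n lag nm) (e1 : ∀ r k, k ≤ 3 → el r k = nm r k)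
    (e2 : ∀ r k c, 3 ≤ k → R (el r k) (el (par r) (k - off lag r)) c → c = el r (k + 1))
    {j : ℕ} (I : Inv R n lag nm el j) : Inv R n lag nm el (j + 1) := by
  have l0 : ∀ a b : ℕ, a ≠ 5 → a ≠ 6 → lag (a, b) = 0 := fun a b h h' => C.lag0 _ h h'
  have o0 : ∀ a : ℕ, a ≠ 1 → a ≠ 5 → a ≠ 6 → off lag (a, 0) = 0 := fun a h1 h h' => by
    simp [off, h1, l0 a 0 h h']
  have ok2 : Ok n (2, 0) := by simp [Ok]
  have ok3 : Ok n (3, 0) := by simp [Ok]
  have ok1 : ∀ i < 3, Ok n (1, i) := fun i hi => Or.inl ⟨rfl, hi⟩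
  have ex : ∀ r, Ok n r → r.1 ≠ 10 → r.1 ≠ 11 →
      R (el r (j + lag r)) (el (10, 0) j) (el r (j + lag r + 1)) := by
    rintro ⟨a, b⟩ h h1 h2
    by_cases ha : a = 1
    · subst ha
      rw [l0 1 b (by omega) (by omega)]
      exact I.ex b (by simpa [Ok] using h)
    · have := I.df _ h
      have e : par (a, b) = (10, 0) := by
        unfold par
        have : a ≠ 13 ∧ a ≠ 14 ∧ a ≠ 15 := by rcases h with h | h | h <;> omega
        simp_all
      rwa [e, show off lag (a, b) = lag (a, b) from if_neg ha] at this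
  have step : ∀ Θ, Base R lag nm Θ → ∀ r, Ok n r → Named lag nm Θ (src lag r) r →
      Named lag nm Θ (2, 0) (par r) →
      R (el r (j + 1 + off lag r)) (el (par r) (j + 1)) (el r (j + 1 + off lag r + 1)) ∧
        Θ (el (src lag r) (j + off lag r + 1)) (el r (j + off lag r + 1 + 1)) := by
    intro Θ B r h h1 h2
    have hs := I.mv Θ B _ _ ok2 (by simp) (by simp) (ok_par h) h2
    rw [l0 2 0 (by omega) (by omega)] at hs
    refine C.push e1 e2 B h1 (C.lag_src r) (I.ah Θ B r h h1 h2 _ le_rfl) hs ?_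
    by_cases h12 : r.1 = 12
    · have e : off lag r = 0 := by
        rw [off, if_neg (by omega)]
        exact C.lag0 _ (by omega) (by omega)
      rw [e, src, if_pos h12]
      exact I.u
    · have := I.df (1, off lag r) (ok1 _ (by have := C.off_le h; omega))
      rw [src, if_neg h12]
      exact this
  have ah : ∀ Θ, Base R lag nm Θ → ∀ r, Ok n r → Named lag nm Θ (src lag r) r →
      Named lag nm Θ (2, 0) (par r) → ∀ k ≤ j + 1 + off lag r,
        Θ (el (src lag r) k) (el r (k + 1)) := by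
    intro Θ B r h h1 h2 k hk
    by_cases hk' : k ≤ j + off lag r
    · exact I.ah Θ B r h h1 h2 k hk'
    · rw [show k = j + off lag r + 1 by omega]
      exact (step Θ B r h h1 h2).2
  have en : ∀ r, Ok n r → R (el r (j + 1)) (el (13, 0) (j + 1)) (el r (j + 1 + 1)) := by
    intro r h
    obtain ⟨Θ, B, h1, h2⟩ := C.thD r h
    have hs : Ok n (src lag r) ∧ (src lag r).1 ≠ 10 ∧ (src lag r).1 ≠ 11 := by
      unfold src
      split_ifs
      · exact ⟨ok3, by simp, by simp⟩
      · exact ⟨ok1 _ (by have := C.off_le h; omega), by simp, by simp⟩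
    have := ex _ hs.1 hs.2.1 hs.2.2
    rw [C.lag_src] at this
    obtain ⟨c, hc, hc'⟩ := B.fwd _ _ _ _ _ (ah Θ B r h h1 h2 j (by omega)) (I.h Θ B) this
    rwa [(B.bij _ _ _ _ hc' (ah Θ B r h h1 h2 (j + 1) (by omega))).1 rfl] at hc
  have mv : ∀ Θ, Base R lag nm Θ → ∀ r r', Ok n r → r.1 ≠ 10 → r.1 ≠ 11 → Ok n r' →
      Named lag nm Θ r r' → Θ (el r (j + 1 + lag r)) (el r' (j + 1 + 1)) := by
    intro Θ B r r' h h1 h2 h' hN
    obtain ⟨c, hc, hc'⟩ := B.fwd _ _ _ _ _ (I.mv Θ B r r' h h1 h2 h' hN) (I.h Θ B) (ex r h h1 h2)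
    rw [C.fn _ _ _ _ hc (en r' h')] at hc'
    rwa [show j + 1 + lag r = j + lag r + 1 by omega]
  refine ⟨fun r h => ?_, fun i hi => ?_, ?_, fun Θ B => ?_, fun Θ B => ?_, fun Θ B => ?_, mv, ah⟩
  · obtain ⟨Θ, B, h1, h2⟩ := C.thD r h
    exact (step Θ B r h h1 h2).1
  · obtain ⟨Θ, B, h1, h2⟩ := C.thE i hi
    have a1 := I.mv Θ B _ _ (ok1 0 (by omega)) (by simp) (by simp) (ok1 i hi) h1
    have a2 := I.mv Θ B _ _ ok2 (by simp) (by simp) (by simp [Ok]) h2
    have a3 := mv Θ B _ _ (ok1 0 (by omega)) (by simp) (by simp) (ok1 i hi) h1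
    have a4 := I.df _ (ok1 0 (by omega))
    rw [l0 _ _ (by omega) (by omega)] at a1 a2 a3
    obtain ⟨c, hc, hc'⟩ := B.fwd _ _ _ _ _ a1 a2 a4
    rwa [(B.bij _ _ _ _ hc' a3).1 rfl] at hc
  · obtain ⟨Θ, B, h1, h2⟩ := C.thU
    have a1 := I.mv Θ B _ _ ok3 (by simp) (by simp) ok3 h1
    have a2 := I.mv Θ B _ _ ok2 (by simp) (by simp) ok2 h2
    have a3 := mv Θ B _ _ ok3 (by simp) (by simp) ok3 h1
    rw [l0 _ _ (by omega) (by omega)] at a1 a2 a3
    obtain ⟨c, hc, hc'⟩ := B.fwd _ _ _ _ _ a1 a2 I.u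
    rwa [(B.bij _ _ _ _ hc' a3).1 rfl] at hc
  · have a := I.df (10, 0) (by simp [Ok])
    have := (C.push e1 e2 B B.h (l0 _ _ (by omega) (by omega)) (j := j) (b := el (11, 0) j)
      (by rw [o0 13 (by omega) (by omega) (by omega)]; exact I.h Θ B) (I.k Θ B)
      (by rw [o0 13 (by omega) (by omega) (by omega)]
          rwa [o0 10 (by omega) (by omega) (by omega)] at a)).2
    rwa [o0 13 (by omega) (by omega) (by omega)] at this
  · have a := I.df (11, 0) (by simp [Ok])
    have := (C.push e1 e2 B B.k (l0 _ _ (by omega) (by omega)) (j := j) (b := el (12, 0) j)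
      (by rw [o0 14 (by omega) (by omega) (by omega)]; exact I.k Θ B) (I.l Θ B)
      (by rw [o0 14 (by omega) (by omega) (by omega)]
          rwa [o0 11 (by omega) (by omega) (by omega)] at a)).2
    rwa [o0 14 (by omega) (by omega) (by omega)] at this
  · have a := I.df (12, 0) (by simp [Ok])
    have := (C.push e1 e2 B B.l (l0 _ _ (by omega) (by omega)) (j := j) (b := el (10, 0) j)
      (by rw [o0 15 (by omega) (by omega) (by omega)]; exact I.l Θ B) (I.h Θ B)
      (by rw [o0 15 (by omega) (by omega) (by omega)]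
          rwa [o0 12 (by omega) (by omega) (by omega)] at a)).2
    rwa [o0 15 (by omega) (by omega) (by omega)] at this

/-- all points of a register are moved -/
theorem Clock.moves (C : Clock R n lag nm) : ∃ el : Reg → ℕ → A,
    (∀ r k, k ≤ 3 → el r k = nm r k) ∧ ∀ Θ, Base R lag nm Θ → ∀ r r', Ok n r → r.1 ≠ 10 →
      r.1 ≠ 11 → Ok n r' → Named lag nm Θ r r' → ∀ k k', k + 1 = k' + lag r →
        Θ (el r k) (el r' k') := by
  obtain ⟨el, e1, e2⟩ := exists_el R C.fn (off lag) nm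
  have I : ∀ j, Inv R n lag nm el j := fun j => by
    induction j with
    | zero => exact C.inv_zero e1
    | succ j ih => exact C.inv_succ e1 e2 ih
  refine ⟨el, e1, fun Θ B r r' h h1 h2 h' hN k k' e => ?_⟩
  have := C.lag2 r
  rcases k' with _ | j
  · have a := hN k (by omega) (by omega) (by omega)
    rw [show k + 1 - lag r = 0 by omega] at a
    rwa [e1 _ _ (by omega), e1 _ _ (by omega)]
  · rw [show k = j + lag r by omega]
    exact (I j).mv Θ B r r' h h1 h2 h' hN

end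

end Pool.Agent.P.MP_48d4bc_co.EX
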