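import Pool.Agent.P.MP_48d4bc_co.EXM1
import Pool.Agent.P.MP_48d4bc_co.EXK1

set_option autoImplicit false

/-! The clock runs for ever in every model. -/

namespace Pool.Agent.P.MP_48d4bc_co.EX

open Set Function Pool.Agent.Lib.PrimrecProp

section

variable {A : Type} {R : A → A → A → Prop} {n : ℕ} {lag : Reg → ℕ} {nm el : Reg → ℕ → A}

/-- the invariant holds at all times -/
theorem Clock.EXD1_inv (C : Clock R n lag nm) : ∃ el : Reg → ℕ → A,
    (∀ r k, k ≤ 3 → el r k = nm r k) ∧ ∀ j, Inv R n lag nm el j := by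
  obtain ⟨el, e1, e2⟩ := exists_el R C.fn (off lag) nm
  refine ⟨el, e1, fun j => ?_⟩
  induction j with
  | zero => exact C.inv_zero e1
  | succ j ih => exact C.inv_succ e1 e2 ih

/-- the exit facts -/
theorem Clock.EXD1_ex (C : Clock R n lag nm) {j : ℕ} (I : Inv R n lag nm el j) (r : Reg)
    (h : Ok n r) (h1 : r.1 ≠ 10) (h2 : r.1 ≠ 11) :
    R (el r (j + lag r)) (el (10, 0) j) (el r (j + lag r + 1)) := by
  obtain ⟨a, b⟩ := r
  by_cases ha : a = 1
  · subst ha
    rw [C.lag0 (1, b) (by simp) (by simp)]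
    exact I.ex b (by simpa [Ok] using h)
  · have := I.df _ h
    have e : par (a, b) = (10, 0) := by
      unfold par
      have : a ≠ 13 ∧ a ≠ 14 ∧ a ≠ 15 := by rcases h with h | h | h <;> omega
      simp_all
    rwa [e, show off lag (a, b) = lag (a, b) from if_neg ha] at this

/-- the entry facts -/
theorem Clock.EXD1_en (C : Clock R n lag nm) {j : ℕ} (I : Inv R n lag nm el j)
    (I' : Inv R n lag nm el (j + 1)) (r : Reg) (h : Ok n r) :
    R (el r (j + 1)) (el (13, 0) (j + 1)) (el r (j + 2)) := by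
  obtain ⟨Θ, B, h1, h2⟩ := C.thD r h
  have hs : Ok n (src lag r) ∧ (src lag r).1 ≠ 10 ∧ (src lag r).1 ≠ 11 := by
    unfold src
    split_ifs
    · exact ⟨by simp [Ok], by simp, by simp⟩
    · exact ⟨Or.inl ⟨rfl, by have := C.off_le h; show off lag r < 3; omega⟩, by simp, by simp⟩
  have := C.EXD1_ex I _ hs.1 hs.2.1 hs.2.2
  rw [C.lag_src] at this
  obtain ⟨c, hc, hc'⟩ := B.fwd _ _ _ _ _ (I'.ah Θ B r h h1 h2 j (by omega)) (I.h Θ B) this
  rwa [(B.bij _ _ _ _ hc' (I'.ah Θ B r h h1 h2 (j + 1) (by omega))).1 rfl] at hc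

end

section

variable {P : List Ins}

theorem EXD1_named (M : AM P) {θ : Th} (hθ : Shape P θ) {r r' : Reg} (hr : r ∈ regs P)
    (hr' : r' ∈ regs P) (h0 : lag P r.1 r.2 = 0)
    (h : ∀ k ≤ 2, Mp P 4 θ (el r k) (el r' (k + 1))) :
    Named (fun r => lag P r.1 r.2) M.ν (M.Θ θ) r r' := by
  intro k hk _ h2
  simp only [h0, Nat.sub_zero] at h2 ⊢
  exact M.glue θ hθ r hr r' hr' k hk (k + 1) h2 (h k (by omega))

theorem EXD1_base (M : AM P) {θ : Th} (hθ : Shape P θ) :
    Base M.R (fun r => lag P r.1 r.2) M.ν (M.Θ θ) where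
  bij := M.bij θ hθ
  fwd := M.fwd θ hθ
  h := EXD1_named M hθ (mem_regs.2 (by simp)) (mem_regs.2 (by simp))
    (lag_zero _ (by simp) (by simp)) fun k hk => Mp.h θ k (by omega)
  k := EXD1_named M hθ (mem_regs.2 (by simp)) (mem_regs.2 (by simp))
    (lag_zero _ (by simp) (by simp)) fun k hk => Mp.g1 θ k (by omega)
  l := EXD1_named M hθ (mem_regs.2 (by simp)) (mem_regs.2 (by simp))
    (lag_zero _ (by simp) (by simp)) fun k hk => Mp.g2 θ k (by omega)

theorem EXD1_up (M : AM P) {i : ℕ} {r r' : Reg} (hθ : Shape P (0, i, r, r', false)) (hi : i < 3)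
    (hr : r ∈ regs P) :
    Named (fun r => lag P r.1 r.2) M.ν (M.Θ (0, i, r, r', false)) (1, i) r :=
  EXD1_named M hθ (mem_regs.2 (Or.inl ⟨rfl, hi⟩)) hr (lag_zero _ (by simp) (by simp))
    fun k hk => Mp.up i r r' k (by omega)

theorem EXD1_dn (M : AM P) {i : ℕ} {r r' : Reg} (hθ : Shape P (0, i, r, r', true))
    (hr : r ∈ regs P) :
    Named (fun r => lag P r.1 r.2) M.ν (M.Θ (0, i, r, r', true)) (3, 0) r :=
  EXD1_named M hθ (mem_regs.2 (by simp)) hr (lag_zero _ (by simp) (by simp))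
    fun k hk => Mp.dn i r r' k (by omega)

theorem EXD1_s (M : AM P) {i : ℕ} {r r' : Reg} {z : Bool} (hθ : Shape P (0, i, r, r', z))
    (hr : r' ∈ regs P) :
    Named (fun r => lag P r.1 r.2) M.ν (M.Θ (0, i, r, r', z)) (2, 0) r' :=
  EXD1_named M hθ (mem_regs.2 (by simp)) hr (lag_zero _ (by simp) (by simp))
    fun k hk => Mp.s i r r' z k (by omega)

theorem EXD1_ok {κ q : ℕ} (h : (κ, q) ∈ regs P) (he : exK κ = true) :
    Ok P.length (κ, q) ∧ κ ≠ 10 ∧ κ ≠ 11 := by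
  rw [mem_regs] at h
  rw [exK_iff] at he
  unfold Ok
  dsimp only
  omega

theorem EXD1_clock (M : AM P) : Clock M.R P.length (fun r => lag P r.1 r.2) M.ν := by
  have rg : ∀ κ q, Ok P.length (κ, q) → (κ, q) ∈ regs P := fun κ q h => by
    unfold Ok at h
    dsimp only at h
    rw [mem_regs]
    omega
  have r10 : ((10, 0) : Reg) ∈ regs P := mem_regs.2 (by simp)
  have r2 : ((2, 0) : Reg) ∈ regs P := mem_regs.2 (by simp)
  have gen : ∀ κ q, Ok P.length (κ, q) → κ ≠ 1 → κ ≠ 10 → κ ≠ 11 →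
      exK κ = true ∧ par (κ, q) = (10, 0) ∧
        off (fun r => lag P r.1 r.2) (κ, q) = lag P κ q := fun κ q h h1 h2 h3 => by
    unfold Ok at h
    dsimp only at h
    refine ⟨exK_iff.2 (by omega), ?_, if_neg h1⟩
    have : κ ≠ 13 ∧ κ ≠ 14 ∧ κ ≠ 15 := by omega
    simp [par, h1, h2, h3, this]
  have q0 : ∀ κ q, Ok P.length (κ, q) → 9 ≤ κ → q = 0 := fun κ q h h1 => by
    unfold Ok at h
    dsimp only at h
    omega
  have q1 : ∀ q, Ok P.length (1, q) → q < 3 := fun q h => by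
    unfold Ok at h
    dsimp only at h
    omega
  have l0 : ∀ κ q, κ ≠ 5 → κ ≠ 6 → lag P κ q = 0 := fun κ q h h' => lag_zero q h h'
  refine ⟨M.fn, fun r => lag_le _ _, fun r h h' => lag_zero _ h h', ?_, fun i hi => ?_, M.w', ?_,
    fun i hi => ?_, ⟨_, EXD1_base M Shape.self', EXD1_dn M Shape.self' (mem_regs.2 (by simp)),
      EXD1_s M Shape.self' r2⟩⟩
  · rintro ⟨κ, q⟩ h
    by_cases h1 : κ = 1
    · subst h1
      exact M.w q (q1 q h)
    by_cases h2 : κ = 10
    · subst h2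
      obtain rfl := q0 _ _ h (by omega)
      exact M.ga
    by_cases h3 : κ = 11
    · subst h3
      obtain rfl := q0 _ _ h (by omega)
      exact M.gg
    obtain ⟨a, b, c⟩ := gen κ q h h1 h2 h3
    rw [b, c]
    exact M.ex κ q (rg _ _ h) a
  · exact M.ex 1 i (mem_regs.2 (Or.inl ⟨rfl, hi⟩)) (by decide)
  · rintro ⟨κ, q⟩ h
    by_cases h1 : κ = 1
    · subst h1
      have s := Shape.self (P := P) q (q1 q h)
      exact ⟨_, EXD1_base M s, EXD1_up M s (q1 q h) (rg _ _ h), EXD1_s M s r2⟩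
    by_cases h2 : κ = 10
    · subst h2
      obtain rfl := q0 _ _ h (by omega)
      exact ⟨_, EXD1_base M Shape.hg, EXD1_up M Shape.hg (by omega) r10,
        EXD1_s M Shape.hg (mem_regs.2 (by simp))⟩
    by_cases h3 : κ = 11
    · subst h3
      obtain rfl := q0 _ _ h (by omega)
      exact ⟨_, EXD1_base M Shape.gg, EXD1_up M Shape.gg (by omega) (rg _ _ h),
        EXD1_s M Shape.gg (mem_regs.2 (by simp))⟩
    by_cases h4 : κ = 12
    · subst h4
      obtain rfl := q0 _ _ h (by omega)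
      exact ⟨_, EXD1_base M Shape.gh, EXD1_dn M Shape.gh (rg _ _ h), EXD1_s M Shape.gh r10⟩
    obtain ⟨a, b, c⟩ := gen κ q h h1 h2 h3
    have s := Shape.exit κ q (rg _ _ h) a h4
    have e : src (fun r => lag P r.1 r.2) (κ, q) = (1, lag P κ q) := by
      rw [src, if_neg h4, c]
    rw [b, e]
    exact ⟨_, EXD1_base M s, EXD1_up M s (by have := lag_le (P := P) κ q; omega) (rg _ _ h),
      EXD1_s M s r10⟩
  · have hr : ((1, i) : Reg) ∈ regs P := mem_regs.2 (Or.inl ⟨rfl, hi⟩)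
    have s := Shape.exit 1 i hr (by decide) (by omega)
    rw [l0 1 i (by omega) (by omega)] at s
    exact ⟨_, EXD1_base M s, EXD1_up M s (by omega) hr, EXD1_s M s r10⟩

end

theorem AM.eng {P : List Ins} (M : AM P) : Nonempty (Eng M) := by
  have C := EXD1_clock M
  obtain ⟨v, e1, I⟩ := C.EXD1_inv
  refine ⟨⟨v, fun κ q _ _ k hk => e1 _ _ (by have := lag_le (P := P) κ q; omega),
    fun κ q h he j => ?_, fun κ q h he j => ?_, fun θ hθ j => (I j).h _ (EXD1_base M hθ)⟩⟩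
  · obtain ⟨a, b, c⟩ := EXD1_ok h he
    exact C.EXD1_ex (I j) (κ, q) a b c
  · exact C.EXD1_en (I j) (I (j + 1)) (κ, q) (EXD1_ok h he).1

end Pool.Agent.P.MP_48d4bc_co.EX
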