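import Pool.Agent.P.MP_48d4bc_co.EXM1

set_option autoImplicit false

/-! A run that reaches a loop state destroys every model. -/

namespace Pool.Agent.P.MP_48d4bc_co.EX

open Set Function Pool.Agent.Lib.PrimrecProp

theorem EXD2_name {P : List Ins} {r : ℕ × ℕ} (hr : r ∈ regs P) {k : ℕ} (hk : k ≤ 3) :
    el r k ∈ (sig P).names := by
  have h : el r k ∈ restOf P := mem_rest.2 ⟨r, hr, k, hk, rfl⟩
  exact List.mem_cons_of_mem _ (List.mem_cons_of_mem _ (List.mem_cons_of_mem _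
    (List.mem_cons_of_mem _ (List.mem_cons_of_mem _ h))))

theorem am_of_model {P : List Ins} (M : (sig P).Model) (hP : P ≠ []) : Nonempty (AM P) := by
  have hf : ∀ φ ∈ extraOf P, M.R (M.ν φ.1) (M.ν φ.2.1) (M.ν φ.2.2) := fun φ h =>
    M.fact φ (List.mem_append_right _ h)
  have hi : ∀ θ, Shape P θ → (ths P).idxOf θ < (ths P).length := fun θ h =>
    List.idxOf_lt_length_of_mem (mem_ths.2 h)
  have hi' : ∀ θ, Shape P θ → (ths P).idxOf θ < (sig P).glue.length := fun θ h =>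
    glue_length (P := P) ▸ hi θ h
  refine ⟨⟨M.A, M.R, fun r k => M.ν (el r k), fun θ => M.Θ ((ths P).idxOf θ), M.fn,
    fun q hq e => ?_, fun κ q h1 h2 => hf _ (mem_extra.2 (Or.inl ⟨κ, q, h1, h2, rfl⟩)),
    fun i h => hf _ (mem_extra.2 (Or.inr (Or.inl ⟨i, h, rfl⟩))),
    hf _ (mem_extra.2 (Or.inr (Or.inr (Or.inl rfl)))),
    hf _ (mem_extra.2 (Or.inr (Or.inr (Or.inr (Or.inl rfl))))),
    hf _ (mem_extra.2 (Or.inr (Or.inr (Or.inr (Or.inr (Or.inl rfl)))))),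
    hf _ (mem_extra.2 (Or.inr (Or.inr (Or.inr (Or.inr (Or.inr (Or.inl rfl))))))),
    hf _ (mem_extra.2 (Or.inr (Or.inr (Or.inr (Or.inr (Or.inr (Or.inr rfl))))))),
    fun θ h r hr r' hr' k hk k' hk' hm => ?_, fun θ h => M.bij _ (hi' θ h),
    fun θ h => M.fwd _ (hi' θ h)⟩⟩
  · have h1 := M.inj _ (EXD2_name (r := (8, q)) (mem_regs.2 (by omega)) (Nat.zero_le 3)) _
      (EXD2_name (r := (9, 0)) (mem_regs.2 (by omega)) (Nat.zero_le 3)) e
    exact absurd (congrArg Prod.fst h1) (by simp [el])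
  · refine M.glue _ (hi' θ h) (el r k, el r' k')
      (mem_gl.2 ⟨hi θ h, EXD2_name hr hk, EXD2_name hr' hk', ?_⟩)
    rw [List.getElem_idxOf]
    exact hm

section

variable {P : List Ins} {M : AM P} (E : Eng M)

theorem EXD2_glue {θ : Th} (h : Shape P θ) {κ q κ' q' k k' : ℕ} (hr : (κ, q) ∈ regs P)
    (he : exK κ = true) (hr' : (κ', q') ∈ regs P) (he' : exK κ' = true) (hk : k ≤ lag P κ q)
    (hk' : k' ≤ 1) (hm : Mp P 4 θ (el (κ, q) k) (el (κ', q') k')) :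
    M.Θ θ (E.v (κ, q) k) (E.v (κ', q') k') := by
  have := lag_le (P := P) κ q
  rw [E.nm κ q hr he k (by omega), E.nm κ' q' hr' he' k' (by omega)]
  exact M.glue θ h _ hr _ hr' k (by omega) k' (by omega) hm

theorem EXD2_shift {θ : Th} (h : Shape P θ) {κ q κ' q' : ℕ} (hr : (κ, q) ∈ regs P)
    (he : exK κ = true) (hr' : (κ', q') ∈ regs P) (he' : exK κ' = true)
    (hm : Mp P 4 θ (el (κ, q) (lag P κ q)) (el (κ', q') 1)) (j : ℕ) :
    M.Θ θ (E.v (κ, q) (j + lag P κ q)) (E.v (κ', q') (j + 1)) := by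
  induction j with
  | zero =>
    rw [Nat.zero_add]
    exact EXD2_glue E h hr he hr' he' le_rfl le_rfl hm
  | succ j ih =>
    obtain ⟨c, h1, h2⟩ := M.fwd θ h _ _ _ _ _ ih (E.h θ h j) (E.ex κ q hr he j)
    rw [M.fn _ _ _ _ h1 (E.en κ' q' hr' he' j)] at h2
    rwa [Nat.add_right_comm j 1]

theorem EXD2_shift0 {θ : Th} (h : Shape P θ) {κ q κ' q' : ℕ} (hr : (κ, q) ∈ regs P)
    (he : exK κ = true) (hr' : (κ', q') ∈ regs P) (he' : exK κ' = true) (h5 : κ ≠ 5) (h6 : κ ≠ 6)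
    (hm : Mp P 4 θ (el (κ, q) 0) (el (κ', q') 1)) (j : ℕ) :
    M.Θ θ (E.v (κ, q) j) (E.v (κ', q') (j + 1)) := by
  have := EXD2_shift E h hr he hr' he' (by rw [lag_zero q h5 h6]; exact hm) j
  rwa [lag_zero q h5 h6] at this

theorem EXD2_cnt {q q' : ℕ} {r' : ℕ × ℕ} {z : Bool} (h : Shape P (2, q, (0, q'), r', z))
    (hq : q < P.length) (hq' : q' < P.length) {κ : ℕ} (hκ : κ = 5 ∨ κ = 6) {T k k' : ℕ}
    (hc : Cm T z (lag P κ q) k k') :
    M.Θ (2, q, (0, q'), r', z) (E.v (κ, q) k) (E.v (κ, q') k') := by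
  have hr : (κ, q) ∈ regs P := mem_regs.2 (by omega)
  have hr' : (κ, q') ∈ regs P := mem_regs.2 (by omega)
  have he : exK κ = true := exK_iff.2 (by omega)
  rcases hc with ⟨h1, h2, rfl, rfl⟩ | ⟨h1, h2, -⟩
  · exact EXD2_glue E h hr he hr' he (Nat.zero_le _) (Nat.zero_le _)
      (Mp.mc q (0, q') r' z κ 0 0 hκ (Or.inl ⟨h1, h2, rfl, rfl⟩))
  · rcases k' with _ | j
    · exact EXD2_glue E h hr he hr' he (by omega) (Nat.zero_le _)
        (Mp.mc q (0, q') r' z κ k 0 hκ (Or.inr ⟨h1, h2, by omega⟩))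
    · obtain rfl : k = j + lag P κ q := by omega
      exact EXD2_shift E h hr he hr' he
        (Mp.mc q (0, q') r' z κ _ 1 hκ (Or.inr ⟨h1, by omega, by omega⟩)) j

theorem EXD2_push {q q' κ' s : ℕ} {z : Bool} (h : Shape P (2, q, (0, q'), (κ', s), z))
    (hq : q < P.length) (hq' : q' < P.length) (hr' : (κ', s) ∈ regs P) (he' : exK κ' = true)
    {T k l k' l' t : ℕ} (h5 : Cm T z (lag P 5 q) k k') (h6 : Cm T z (lag P 6 q) l l') {p : M.A}
    (h1 : M.R (E.v (5, q) k) (E.v (6, q) l) p) (h2 : M.R (E.v (4, q) t) p (E.v (8, q) t)) :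
    ∃ p', M.R (E.v (5, q') k') (E.v (6, q') l') p' ∧
      M.R (E.v (4, q') (t + 1)) p' (E.v (κ', s) (t + 1)) := by
  obtain ⟨p', a1, a2⟩ := M.fwd _ h _ _ _ _ _ (EXD2_cnt E h hq hq' (Or.inl rfl) h5)
    (EXD2_cnt E h hq hq' (Or.inr rfl) h6) h1
  have b1 := EXD2_shift0 E h (κ := 4) (q := q) (κ' := 4) (q' := q') (mem_regs.2 (by omega)) rfl
    (mem_regs.2 (by omega)) rfl (by omega) (by omega) (Mp.ma q (0, q') _ z 0 (by omega)) t
  have b2 := EXD2_shift0 E h (κ := 8) (q := q) (mem_regs.2 (by omega)) rfl hr' he'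
    (by omega) (by omega) (Mp.mg q (0, q') _ z 0 (by omega)) t
  obtain ⟨c, a3, a4⟩ := M.fwd _ h _ _ _ _ _ b1 a2 h2
  exact ⟨p', a1, (M.bij _ h _ _ _ _ a4 b2).1 rfl ▸ a3⟩

theorem EXD2_lag {q : ℕ} (h : (ins P q).1 = 1) : lag P 5 q = 1 ∧ lag P 6 q = 1 := by
  unfold lag
  rw [h]
  cases (ins P q).2.1 <;> exact ⟨rfl, rfl⟩

theorem EXD2_end {q k l t : ℕ} (hc : (ins P q).1 = 1) {p : M.A}
    (h1 : M.R (E.v (5, q) k) (E.v (6, q) l) p) (h2 : M.R (E.v (4, q) t) p (E.v (8, q) t)) :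
    False := by
  have hq : q < P.length := lt_of_code (by omega)
  have r8 : (8, q) ∈ regs P := mem_regs.2 (by omega)
  have r9 : (9, 0) ∈ regs P := mem_regs.2 (by omega)
  have h5 : Cm (k + l) false (lag P 5 q) k k := by
    rw [(EXD2_lag hc).1]
    exact Or.inr ⟨by omega, rfl, by omega⟩
  have h6 : Cm (k + l) false (lag P 6 q) l l := by
    rw [(EXD2_lag hc).2]
    exact Or.inr ⟨by omega, rfl, by omega⟩
  obtain ⟨p1, a1, a2⟩ := EXD2_push E (Shape.loop q hc) hq hq r8 rfl h5 h6 h1 h2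
  obtain ⟨p2, b1, b2⟩ := EXD2_push E (Shape.alt q hc) hq hq r9 rfl h5 h6 h1 h2
  obtain rfl := M.fn _ _ _ _ a1 b1
  have down : ∀ j, E.v (8, q) j = E.v (9, 0) j → False := by
    intro j
    induction j with
    | zero =>
      rw [E.nm 8 q r8 rfl 0 (Nat.zero_le _), E.nm 9 0 r9 rfl 0 (Nat.zero_le _)]
      exact M.ne q hq
    | succ j ih =>
      intro e
      exact ih ((M.bij _ (Shape.pair q hc) _ _ _ _
        (EXD2_shift0 E (Shape.pair q hc) r8 rfl r8 rfl (by omega) (by omega)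
          (Mp.pg q _ _ _ 0 (by omega)) j)
        (EXD2_shift0 E (Shape.pair q hc) r9 rfl r9 rfl (by omega) (by omega)
          (Mp.py q _ _ _ 0 (by omega)) j)).2 e)
  exact down _ (M.fn _ _ _ _ a2 b2)

theorem EXD2_code {n : ℕ} {c : Cfg} (h : (ins P ((step P)^[n] c).1).1 = 1) :
    (ins P c.1).1 = 1 ∨ (ins P c.1).1 = 2 ∨ (ins P c.1).1 = 3 := by
  by_contra hn
  have h1 : step P c = c := by
    unfold step stepI
    rw [if_neg (by omega), if_neg (by omega)]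
  rw [Function.iterate_fixed h1] at h
  omega

theorem EXD2_run (n : ℕ) : ∀ (q k l t : ℕ) (p : M.A),
    (ins P ((step P)^[n] (q, k, l)).1).1 = 1 → M.R (E.v (5, q) k) (E.v (6, q) l) p →
    M.R (E.v (4, q) t) p (E.v (8, q) t) → False := by
  induction n with
  | zero => exact fun q k l t p h h1 h2 => EXD2_end E h h1 h2
  | succ n ih =>
    intro q k l t p h h1 h2
    rcases EXD2_code h with hc | hc
    · exact EXD2_end E hc h1 h2
    · rw [Function.iterate_succ_apply] at h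
      rcases hs : step P (q, k, l) with ⟨q', k', l'⟩
      rw [hs] at h
      have hq : q < P.length := lt_of_code (by have : (ins P q).1 = 2 ∨ (ins P q).1 = 3 := hc; omega)
      have hq' : q' < P.length := lt_of_code (by
        have : (ins P q').1 = 1 ∨ (ins P q').1 = 2 ∨ (ins P q').1 = 3 := EXD2_code h
        omega)
      obtain ⟨z, a1, a2, a3⟩ := cm_of_step hs hc hq'
      obtain ⟨p', b1, b2⟩ := EXD2_push E a1 hq hq' (mem_regs.2 (by omega)) rfl a2 a3 h1 h2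
      exact ih q' k' l' (t + 1) p' h b1 b2

end

theorem Eng.not_halts {P : List Ins} {M : AM P} (E : Eng M) : ¬ HaltsB P := by
  rintro ⟨n, h⟩
  have hq : 0 < P.length := lt_of_code (q := 0) (by
    have : (ins P 0).1 = 1 ∨ (ins P 0).1 = 2 ∨ (ins P 0).1 = 3 := EXD2_code h
    omega)
  have nm : ∀ κ, 4 ≤ κ → κ ≤ 8 → κ ≠ 7 → E.v (κ, 0) 0 = M.ν (κ, 0) 0 := fun κ _ _ _ =>
    E.nm κ 0 (mem_regs.2 (by omega)) (exK_iff.2 (by omega)) 0 (Nat.zero_le _)
  refine EXD2_run E n 0 0 0 0 (M.ν (7, 0) 0) h ?_ ?_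
  · rw [nm 5 (by omega) (by omega) (by omega), nm 6 (by omega) (by omega) (by omega)]
    exact M.pos
  · rw [nm 4 (by omega) (by omega) (by omega), nm 8 (by omega) (by omega) (by omega)]
    exact M.bt

end Pool.Agent.P.MP_48d4bc_co.EX
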