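import Pool.Agent.P.MP_48d4bc_co.Defs

set_option autoImplicit false

namespace Pool.Agent.P.MP_48d4bc_co

/-- The graph on `Fin k` whose edges are the listed pairs. -/
def graphOf (k : ℕ) (L : List (ℕ × ℕ)) : SimpleGraph (Fin k) :=
  SimpleGraph.fromRel fun u v => (u.1, v.1) ∈ L

end Pool.Agent.P.MP_48d4bc_co
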