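import Pool.Agent.P.MP_48d4bc_co.EXSig

set_option autoImplicit false

/-! Facts on the gadget and on the forbidden graph. -/

namespace Pool.Agent.P.MP_48d4bc_co.EX

open Set Function Pool.Agent.Lib.PrimrecProp

theorem gam_adj {a b : Fin 9} : Gam.Adj a b ↔ (a.1, b.1) ∈ gamE ∨ (b.1, a.1) ∈ gamE := by
  rw [Gam, graphOf, SimpleGraph.fromRel_adj]
  refine ⟨fun h => h.2, fun h => ⟨?_, h⟩⟩
  rintro rfl
  revert a
  decide

instance EXGam_dec : DecidableRel Gam.Adj := fun _ _ => decidable_of_iff' _ gam_adj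

theorem gamE_lt {e : ℕ × ℕ} (h : e ∈ gamE) : e.1 < e.2 ∧ 3 ≤ e.2 ∧ e.2 < 9 := by
  revert e
  decide

theorem gam_edge_tri {a b : Fin 9} (h : Gam.Adj a b) : ∃ c, Gam.Adj a c ∧ Gam.Adj b c := by
  revert a b
  decide +kernel

/-- the nine triangles -/
def EXGam_tri : Fin 9 → Finset (Fin 9) :=
  ![{0, 3, 4}, {0, 3, 5}, {1, 6, 7}, {1, 6, 8}, {2, 3, 5}, {2, 3, 7}, {3, 4, 6}, {3, 6, 7},
    {3, 6, 8}]

/-- edges with two triangles through them -/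
def EXGam_sh : List ((Fin 9 × Fin 9) × Fin 9 × Fin 9) :=
  [((0, 3), 0, 1), ((3, 4), 0, 6), ((3, 5), 1, 4), ((1, 6), 2, 3), ((6, 7), 2, 7), ((6, 8), 3, 8),
    ((2, 3), 4, 5), ((3, 7), 5, 7), ((3, 6), 6, 7), ((3, 6), 7, 8)]

theorem EXGam_clique (i : Fin 9) : Gam.IsNClique 3 (EXGam_tri i) := by
  revert i
  decide +kernel

theorem EXGam_ex {t : Finset (Fin 9)} (h : Gam.IsNClique 3 t) : ∃ i, t = EXGam_tri i := by
  obtain ⟨x, y, z, a, b, c, rfl⟩ := SimpleGraph.is3Clique_iff.1 h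
  have : ∀ x y : Fin 9, Gam.Adj x y → ∀ z, Gam.Adj x z → Gam.Adj y z →
      ∃ i, {x, y, z} = EXGam_tri i := by decide +kernel
  exact this x y a z b c

theorem EXGam_cut : ∀ q0 q1 q2 q3 q4 q5 q6 q7 q8 : Bool,
    (∃ i, ![q0, q1, q2, q3, q4, q5, q6, q7, q8] i = true) →
    (∃ i, ![q0, q1, q2, q3, q4, q5, q6, q7, q8] i = false) →
    ∃ w ∈ EXGam_sh, ∃ w' ∈ EXGam_sh, w.1 ≠ w'.1 ∧
      ![q0, q1, q2, q3, q4, q5, q6, q7, q8] w.2.1 ≠ ![q0, q1, q2, q3, q4, q5, q6, q7, q8] w.2.2 ∧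
      ![q0, q1, q2, q3, q4, q5, q6, q7, q8] w'.2.1 ≠
        ![q0, q1, q2, q3, q4, q5, q6, q7, q8] w'.2.2 := by
  decide +kernel

theorem gam_linked : TriangleLinked Gam := by
  have hs : ∀ w ∈ EXGam_sh, Gam.Adj w.1.1 w.1.2 ∧ w.1.1 ∈ EXGam_tri w.2.1 ∧
      w.1.2 ∈ EXGam_tri w.2.1 ∧ w.1.1 ∈ EXGam_tri w.2.2 ∧ w.1.2 ∈ EXGam_tri w.2.2 :=
    @of_decide_eq_true _ (List.decidableBAll _ _) (by decide +kernel)
  have hn : ∀ w ∈ EXGam_sh, ∀ w' ∈ EXGam_sh, w.1 ≠ w'.1 →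
      s(w.1.1, w.1.2) ≠ s(w'.1.1, w'.1.2) :=
    @of_decide_eq_true _ (@List.decidableBAll _ _ (fun _ => List.decidableBAll _ _) _)
      (by decide +kernel)
  refine ⟨fun v => ?_, fun p ⟨t, ht, p1⟩ ⟨t', ht', p2⟩ => ?_⟩
  · have : ∀ v : Fin 9, ∃ i, v ∈ EXGam_tri i := by decide +kernel
    obtain ⟨i, hi⟩ := this v
    exact ⟨_, EXGam_clique i, hi⟩
  classical
  obtain ⟨i, rfl⟩ := EXGam_ex ht
  obtain ⟨j, rfl⟩ := EXGam_ex ht'
  let q : Fin 9 → Bool := fun i => decide (p (EXGam_tri i))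
  have hq : ![q 0, q 1, q 2, q 3, q 4, q 5, q 6, q 7, q 8] = q := by
    funext i
    fin_cases i <;> rfl
  have h := EXGam_cut (q 0) (q 1) (q 2) (q 3) (q 4) (q 5) (q 6) (q 7) (q 8)
  rw [hq] at h
  obtain ⟨w, hw, w', hw', hne, h1, h2⟩ := h ⟨i, decide_eq_true p1⟩ ⟨j, decide_eq_false p2⟩
  have key : ∀ w ∈ EXGam_sh, q w.2.1 ≠ q w.2.2 → s(w.1.1, w.1.2) ∈ {e | e ∈ Gam.edgeSet ∧
      (∃ t, Gam.IsNClique 3 t ∧ p t ∧ ∀ v ∈ e, v ∈ t) ∧
        ∃ t, Gam.IsNClique 3 t ∧ ¬ p t ∧ ∀ v ∈ e, v ∈ t} := fun w hw h => by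
    obtain ⟨a, b, c, d, e⟩ := hs w hw
    have m1 : ∀ v ∈ s(w.1.1, w.1.2), v ∈ EXGam_tri w.2.1 := fun v hv => by
      rcases Sym2.mem_iff.1 hv with rfl | rfl
      exacts [b, c]
    have m2 : ∀ v ∈ s(w.1.1, w.1.2), v ∈ EXGam_tri w.2.2 := fun v hv => by
      rcases Sym2.mem_iff.1 hv with rfl | rfl
      exacts [d, e]
    by_cases h1 : p (EXGam_tri w.2.1)
    · have h2 : ¬ p (EXGam_tri w.2.2) := fun h2 =>
        h ((decide_eq_true h1).trans (decide_eq_true h2).symm)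
      exact ⟨a, ⟨_, EXGam_clique _, h1, m1⟩, _, EXGam_clique _, h2, m2⟩
    · have h2 : p (EXGam_tri w.2.2) := by
        by_contra h2
        exact h ((decide_eq_false h1).trans (decide_eq_false h2).symm)
      exact ⟨a, ⟨_, EXGam_clique _, h2, m2⟩, _, EXGam_clique _, h1, m1⟩
  exact ⟨_, key w hw h1, _, key w' hw' h2, hn w hw w' hw' hne⟩

set_option synthInstance.maxSize 4096 in
theorem EXGam_rig : ∀ b3 b0 : Fin 9, Gam.Adj b0 b3 → ∀ b4, Gam.Adj b0 b4 → Gam.Adj b3 b4 →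
    ∀ b5, Gam.Adj b0 b5 → Gam.Adj b3 b5 → b4 ≠ b5 → ∀ b2, Gam.Adj b2 b3 → Gam.Adj b2 b5 →
    b0 ≠ b2 → ∀ b7, Gam.Adj b2 b7 → Gam.Adj b3 b7 → b5 ≠ b7 → b4 ≠ b7 → ∀ b6, Gam.Adj b3 b6 →
    Gam.Adj b4 b6 → Gam.Adj b6 b7 → b0 ≠ b6 → b2 ≠ b6 → ∀ b8, Gam.Adj b3 b8 → Gam.Adj b6 b8 →
    b4 ≠ b8 → b7 ≠ b8 → ∀ b1, Gam.Adj b1 b6 → Gam.Adj b1 b7 → Gam.Adj b1 b8 → b1 ≠ b3 →
    b0 = 0 ∧ b1 = 1 ∧ b2 = 2 := by
  decide +kernel

theorem gam_rigid (β : Fin 9 → Fin 9) (hi : Injective β)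
    (h : ∀ a b, Gam.Adj a b → Gam.Adj (β a) (β b)) : β 0 = 0 ∧ β 1 = 1 ∧ β 2 = 2 :=
  EXGam_rig (β 3) (β 0) (h _ _ (by decide)) (β 4) (h _ _ (by decide)) (h _ _ (by decide))
    (β 5) (h _ _ (by decide)) (h _ _ (by decide)) (hi.ne (by decide))
    (β 2) (h _ _ (by decide)) (h _ _ (by decide)) (hi.ne (by decide))
    (β 7) (h _ _ (by decide)) (h _ _ (by decide)) (hi.ne (by decide)) (hi.ne (by decide))
    (β 6) (h _ _ (by decide)) (h _ _ (by decide)) (h _ _ (by decide)) (hi.ne (by decide))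
    (hi.ne (by decide)) (β 8) (h _ _ (by decide)) (h _ _ (by decide)) (hi.ne (by decide))
    (hi.ne (by decide)) (β 1) (h _ _ (by decide)) (h _ _ (by decide)) (h _ _ (by decide))
    (hi.ne (by decide))

theorem gam_nbr {a : ℕ} (h : a < 9) : ∃ w ∈ gamE, w.1 = a ∨ w.2 = a := by
  revert a
  decide

theorem gam_no_common (j : ℕ) : ¬ ((0, j) ∈ gamE ∧ (1, j) ∈ gamE) := by
  rintro ⟨h0, h1⟩
  have h : j < 9 := (gamE_lt h0).2.2
  revert j
  have : ∀ j < 9, (0, j) ∈ gamE → (1, j) ∈ gamE → False := by decide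
  exact fun j h0 h1 h => this j h h0 h1

theorem th_root (m : ℕ) {a : ℕ} (h : a ≤ 2) : th m a = a := by
  have : leb a 2 = true := by simpa [leb] using h
  rw [th, this, cond_true]

theorem th_int (m : ℕ) {a : ℕ} (h : 3 ≤ a) : th m a = 6 * m + a := by
  have : leb a 2 = false := decide_eq_false (by omega)
  rw [th, this, cond_false]

theorem th_inj {m m' a a' : ℕ} (h : a < 9) (h' : a' < 9) (e : th m a = th m' a') :
    a = a' ∧ (a ≤ 2 ∨ m = m') := by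
  rcases le_or_gt a 2 with h1 | h1 <;> rcases le_or_gt a' 2 with h2 | h2
  · rw [th_root _ h1, th_root _ h2] at e
    omega
  · rw [th_root _ h1, th_int _ h2] at e
    omega
  · rw [th_int _ h1, th_root _ h2] at e
    omega
  · rw [th_int _ h1, th_int _ h2] at e
    omega

theorem exists_th {j : ℕ} (h : j < 51) : ∃ m < 8, ∃ a < 9, j = th m a := by
  rcases le_or_gt j 2 with h1 | h1
  · exact ⟨0, by omega, j, by omega, (th_root _ h1).symm⟩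
  · refine ⟨(j - 3) / 6, by omega, (j - 3) % 6 + 3, by omega, ?_⟩
    rw [th_int _ (by omega)]
    omega

theorem mem_thE {e : ℕ × ℕ} : e ∈ thE ↔ ∃ m < 8, ∃ w ∈ gamE, e = (th m w.1, th m w.2) := by
  rw [thE, List.mem_map]
  constructor
  · rintro ⟨z, hz, rfl⟩
    have h := mem_pairs.1 hz
    exact ⟨z.1, List.mem_range.1 h.1, z.2, h.2, rfl⟩
  · rintro ⟨m, hm, w, hw, rfl⟩
    exact ⟨(m, w), mem_pairs.2 ⟨List.mem_range.2 hm, hw⟩, rfl⟩

theorem thE_lt {e : ℕ × ℕ} (h : e ∈ thE) : e.1 < e.2 ∧ 3 ≤ e.2 ∧ e.2 < 51 := by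
  obtain ⟨m, hm, w, hw, rfl⟩ := mem_thE.1 h
  obtain ⟨h1, h2, h3⟩ := gamE_lt hw
  change th m w.1 < th m w.2 ∧ 3 ≤ th m w.2 ∧ th m w.2 < 51
  rw [th_int _ h2]
  rcases le_or_gt w.1 2 with h4 | h4
  · rw [th_root _ h4]
    omega
  · rw [th_int _ h4]
    omega

theorem EXGam_gg {u v : GV} :
    GG.Adj u v ↔ ∃ s a b, Gam.Adj a b ∧ u.1 = gi s a ∧ v.1 = gi s b := by
  rw [GG, SimpleGraph.fromRel_adj]
  constructor
  · rintro ⟨-, h | ⟨s, a, b, h, h1, h2⟩⟩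
    · exact h
    · exact ⟨s, b, a, h.symm, h2, h1⟩
  · rintro ⟨s, a, b, h, h1, h2⟩
    refine ⟨?_, Or.inl ⟨s, a, b, h, h1, h2⟩⟩
    rintro rfl
    exact h.ne (congrArg Prod.snd (h1.symm.trans h2))

/-- a vertex of a copy -/
def EXGam_v (s : Bool) (j : Fin 9) : GV := ⟨gi s j, fun h => if_pos h⟩

theorem gg_col : GG.Colorable 3 := by
  refine ⟨SimpleGraph.Coloring.mk (fun v => (![1, 0, 1, 0, 2, 2, 1, 2, 2] : Fin 9 → Fin 3) v.1.2)
    fun {u v} h => ?_⟩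
  obtain ⟨s, a, b, h, h1, h2⟩ := EXGam_gg.1 h
  have : ∀ a b : Fin 9, Gam.Adj a b → (![1, 0, 1, 0, 2, 2, 1, 2, 2] : Fin 9 → Fin 3) a ≠
      (![1, 0, 1, 0, 2, 2, 1, 2, 2] : Fin 9 → Fin 3) b := by decide +kernel
  rw [h1, h2]
  exact this a b h

theorem gg_nbr (v : GV) : ∃ w, GG.Adj v w := by
  have : ∀ a : Fin 9, ∃ b, Gam.Adj a b := by decide +kernel
  obtain ⟨b, hb⟩ := this v.1.2
  refine ⟨EXGam_v v.1.1 b, EXGam_gg.2 ⟨v.1.1, v.1.2, b, hb, Prod.ext ?_ rfl, rfl⟩⟩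
  change v.1.1 = if v.1.2.1 < 2 then false else v.1.1
  split_ifs with h
  · exact v.2 h
  · rfl

/-- a copy of the gadget in the forbidden graph -/
def EXGam_copy (s : Bool) : Gam.Copy GG :=
  ⟨⟨EXGam_v s, fun {a b} h => EXGam_gg.2 ⟨s, a, b, h, rfl, rfl⟩⟩,
    fun _ _ h => congrArg (fun v : GV => v.1.2) h⟩

theorem gg_free {W : Type*} {H : SimpleGraph W} : GG.Free H ↔ ∀ ψ ψ' : Gam.Copy H,
    ψ 0 = ψ' 0 → ψ 1 = ψ' 1 → ∃ a b : Fin 9, 2 ≤ a.1 ∧ 2 ≤ b.1 ∧ ψ a = ψ' b := by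
  constructor
  · intro hF ψ ψ' h0 h1
    by_contra hn
    have hn' : ∀ a b : Fin 9, 2 ≤ a.1 → 2 ≤ b.1 → ψ a ≠ ψ' b := fun a b ha hb e =>
      hn ⟨a, b, ha, hb, e⟩
    have lo : ∀ a : Fin 9, a.1 < 2 → ψ a = ψ' a := fun a ha => by
      have : a = 0 ∨ a = 1 := by
        revert a
        decide
      rcases this with rfl | rfl
      exacts [h0, h1]
    have cr : ∀ a b : Fin 9, ¬ b.1 < 2 → ψ a ≠ ψ' b := fun a b hb e => by
      by_cases ha : a.1 < 2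
      · have := ψ'.injective ((lo a ha).symm.trans e)
        exact hb (this ▸ ha)
      · exact hn' a b (by omega) (by omega) e
    let f : Bool × Fin 9 → W := fun v => cond v.1 (ψ' v.2) (ψ v.2)
    have hf : ∀ s a, f (gi s a) = cond s (ψ' a) (ψ a) := fun s a => by
      by_cases ha : a.1 < 2
      · have : gi s a = (false, a) := Prod.ext (if_pos ha) rfl
        rw [this]
        cases s
        · rfl
        · exact lo a ha
      · have : gi s a = (s, a) := Prod.ext (if_neg ha) rfl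
        rw [this]
    refine hF ⟨⟨⟨fun v => f v.1, fun {u v} h => ?_⟩, ?_⟩⟩
    · obtain ⟨s, a, b, h, h1, h2⟩ := EXGam_gg.1 h
      rw [h1, h2, hf, hf]
      cases s
      · exact ψ.toHom.map_adj h
      · exact ψ'.toHom.map_adj h
    · rintro ⟨⟨s, a⟩, ha⟩ ⟨⟨t, b⟩, hb⟩ e
      refine Subtype.ext ?_
      cases s <;> cases t
      · exact Prod.ext rfl (ψ.injective e)
      · exact absurd e (cr a b fun h => Bool.noConfusion (hb h))
      · exact absurd e.symm (cr b a fun h => Bool.noConfusion (ha h))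
      · exact Prod.ext rfl (ψ'.injective e)
  · rintro h ⟨f⟩
    obtain ⟨a, b, ha, hb, e⟩ := h (f.comp (EXGam_copy false)) (f.comp (EXGam_copy true)) rfl rfl
    have e1 : EXGam_v false a = EXGam_v true b := f.injective e
    have e2 : (if a.1 < 2 then false else false) = if b.1 < 2 then false else true :=
      congrArg (fun v : GV => v.1.1) e1
    rw [if_neg (by omega), if_neg (by omega)] at e2
    exact Bool.noConfusion e2

end Pool.Agent.P.MP_48d4bc_co.EX
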