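import Pool.Agent.P.MP_48d4bc_co.EXTop
import Pool.Agent.P.MP_48d4bc_co.EXGam

set_option autoImplicit false

/-! A host for a family of ordered good structures. -/

namespace Pool.Agent.P.MP_48d4bc_co.EX

open Set Function

variable {A ty : Type} {T : Tpl A ty}

/-- an edge between two points of a strong copy comes from a section of the copy -/
theorem EXFam_edge {Q N : Str A ty} {f : Q.W → N.W} (hf : Strong T Q N f) {u v : N.W}
    (h : N.Adj T u v) (hu : u ∈ range f) (hv : v ∈ range f) :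
    ∃ α, ∃ σ ∈ Q.Sec α, (f (σ T.x) = u ∧ f (σ T.y) = v) ∨ (f (σ T.x) = v ∧ f (σ T.y) = u) := by
  obtain ⟨α, τ, hτ, ⟨rfl, rfl⟩ | ⟨rfl, rfl⟩⟩ := h
  · obtain ⟨σ, h1, rfl⟩ := hf.back α τ hτ hu hv
    exact ⟨α, σ, h1, Or.inl ⟨rfl, rfl⟩⟩
  · obtain ⟨σ, h1, rfl⟩ := hf.back α τ hτ hv hu
    exact ⟨α, σ, h1, Or.inr ⟨rfl, rfl⟩⟩

/-- a copy of the gadget in a sparse system lies in one member -/
theorem copy_in_member {Q : Str A ty} (S : Sy T Q)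
    (h2 : Sparse S.E (Fintype.card (Finset (Fin 9)))) (h3 : S.Tri) (ψ : Gam.Copy S.good.graph) :
    ∃ i, ∀ a, ψ a ∈ range (S.emb i) := by
  classical
  have hF := gam_linked
  have h : ∀ t, Gam.IsNClique 3 t → ∃ i, ∀ v ∈ t, ψ v ∈ range (S.emb i) := fun t ht => by
    obtain ⟨x, y, z, a, b, c, rfl⟩ := SimpleGraph.is3Clique_iff.1 ht
    obtain ⟨i, p, q, r⟩ := h3 _ _ _ (ψ.toHom.map_adj a) (ψ.toHom.map_adj b) (ψ.toHom.map_adj c)
    refine ⟨i, fun v hv => ?_⟩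
    simp only [Finset.mem_insert, Finset.mem_singleton] at hv
    rcases hv with rfl | rfl | rfl
    exacts [p, q, r]
  obtain ⟨t₀, ht₀, -⟩ := hF.1 0
  have : Nonempty S.ι := (h t₀ ht₀).nonempty
  choose! i hi using h
  have hE : ∀ t, Gam.IsNClique 3 t → ∀ e ∈ Gam.edgeSet, (∀ v ∈ e, v ∈ t) →
      Sym2.map ψ e ∈ S.E (i t) := fun t ht e he h => by
    induction e using Sym2.ind with
    | _ x y =>
    obtain ⟨α, σ, hσ, k⟩ := EXFam_edge (S.str (i t)) (ψ.toHom.map_adj he)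
      (hi t ht x (h x (Sym2.mem_mk_left _ _))) (hi t ht y (h y (Sym2.mem_mk_right _ _)))
    refine ⟨α, σ, hσ, ?_⟩
    rcases k with ⟨k1, k2⟩ | ⟨k1, k2⟩
    · rw [k1, k2]
      rfl
    · rw [k1, k2, Sym2.eq_swap]
      rfl
  let X := (Finset.univ.filter (Gam.IsNClique 3)).image i
  have hX : ∀ t, Gam.IsNClique 3 t → i t ∈ X := fun t ht =>
    Finset.mem_image_of_mem _ (Finset.mem_filter.2 ⟨Finset.mem_univ _, ht⟩)
  by_cases hc : 2 ≤ X.card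
  · obtain ⟨p, ⟨a, ha, p1⟩, ⟨b, hb, p2⟩, hp⟩ := h2 X hc
      (Finset.card_image_le.trans (Finset.card_le_univ _))
    obtain ⟨t, ht, rfl⟩ := Finset.mem_image.1 ha
    obtain ⟨t', ht', rfl⟩ := Finset.mem_image.1 hb
    obtain ⟨e, he, e', he', hne⟩ := hF.2 (fun t => p (i t))
      ⟨t, (Finset.mem_filter.1 ht).2, p1⟩ ⟨t', (Finset.mem_filter.1 ht').2, p2⟩
    have k : ∀ e ∈ {e | e ∈ Gam.edgeSet ∧ (∃ t, Gam.IsNClique 3 t ∧ p (i t) ∧ ∀ v ∈ e, v ∈ t) ∧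
        ∃ t, Gam.IsNClique 3 t ∧ ¬ p (i t) ∧ ∀ v ∈ e, v ∈ t}, Sym2.map ψ e ∈
        {e | (∃ i ∈ X, p i ∧ e ∈ S.E i) ∧ ∃ i ∈ X, ¬ p i ∧ e ∈ S.E i} :=
      fun e ⟨h0, ⟨t, h1, h2, h3⟩, t', h4, h5, h6⟩ =>
        ⟨⟨_, hX t h1, h2, hE t h1 e h0 h3⟩, _, hX t' h4, h5, hE t' h4 e h0 h6⟩
    exact absurd (Sym2.map.injective ψ.injective (hp (k e he) (k e' he'))) hne
  refine ⟨i t₀, fun v => ?_⟩
  obtain ⟨t, ht, hv⟩ := hF.1 v
  rw [Finset.card_le_one.1 (by omega : X.card ≤ 1) _ (hX t₀ ht₀) _ (hX t ht)]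
  exact hi t ht v hv

/-- a map constant along the edges of the gadget is constant -/
theorem EXFam_conn {J : Type} (r : Fin 9 → J) (h : ∀ a b, Gam.Adj a b → r a = r b) (a : Fin 9) :
    r a = r 3 := by
  have k : ∀ a : Fin 9, a ≠ 1 → a ≠ 3 → r a = r 3 := fun a h1 h2 =>
    h a 3 (gam_adj.2 (by revert a; decide))
  by_cases h1 : a = 1
  · rw [h1, h 1 6 (gam_adj.2 (by decide))]
    exact k 6 (by decide) (by decide)
  by_cases h2 : a = 3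
  · rw [h2]
  exact k a h1 h2

theorem host_fam [Finite A] [Finite ty] [LinearOrder A] {J : Type} [Finite J] (M : J → Str A ty)
    (hM : ∀ β, Good T (M β)) {K : Type} [LinearOrder K] (ρ : ∀ β, (M β).W → K)
    (hρ : ∀ β, Injective (ρ β)) (hm : ∀ β α, ∀ σ ∈ (M β).Sec α, StrictMono (ρ β ∘ σ)) (κ : Type)
    [Finite κ] [Nonempty κ] : ∃ (S : Str A ty) (hS : Good T S),
      (∀ c : (A → S.W) → κ, ∃ χ : ty → κ, ∀ β, ∃ f : (M β).W → S.W, Strong T (M β) S f ∧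
        ∀ α, ∀ σ ∈ (M β).Sec α, c (f ∘ σ) = χ α) ∧
      ∀ ψ : Gam.Copy hS.graph, ∃ β, ∃ f : (M β).W → S.W, Strong T (M β) S f ∧
        ∀ a, ψ a ∈ range f := by
  obtain ⟨n, ⟨e⟩⟩ := Finite.exists_equiv_fin J
  have hB : Good T (Str.sum M) := sum_good M hM
  let r : (Str.sum M).W → K ×ₗ Fin n := fun u => toLex (ρ u.1 u.2, e u.1)
  have hr : Injective r := by
    rintro ⟨β, a⟩ ⟨β', a'⟩ h
    obtain ⟨h1, h2⟩ := Prod.mk.inj (toLex.injective h)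
    obtain rfl : β = β' := e.injective h2
    obtain rfl : a = a' := hρ β h1
    rfl
  have hr' : ∀ α, ∀ σ ∈ (Str.sum M).Sec α, StrictMono (r ∘ σ) := by
    rintro α _ ⟨β, σ, hσ, rfl⟩ a b h
    exact Prod.Lex.toLex_lt_toLex.2 (Or.inl (hm β α σ hσ h))
  obtain ⟨S₀, h₀⟩ := top hB r hr hr' κ
  obtain ⟨S, h1, h2, h3⟩ := sparsify hB S₀ h₀ (Fintype.card (Finset (Fin 9)))
  refine ⟨S.M, S.good, fun c => ?_, fun ψ => ?_⟩
  · obtain ⟨i, χ, h⟩ := h1 c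
    exact ⟨χ, fun β => ⟨S.emb i ∘ Str.inc M β, (S.str i).comp (sum_strong M β),
      fun α σ hσ => h α _ ⟨β, σ, hσ, rfl⟩⟩⟩
  · obtain ⟨i, h⟩ := copy_in_member S h2 h3 ψ
    choose s hs using h
    have k : ∀ a, (s a).1 = (s 3).1 := EXFam_conn (fun a => (s a).1) fun a b hab => by
      obtain ⟨α, _, ⟨β, σ, -, rfl⟩, k⟩ :=
        EXFam_edge (S.str i) (ψ.toHom.map_adj hab) ⟨_, hs a⟩ ⟨_, hs b⟩
      rcases k with ⟨k1, k2⟩ | ⟨k1, k2⟩
      · rw [(S.str i).inj ((hs a).trans k1.symm), (S.str i).inj ((hs b).trans k2.symm)]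
      · rw [(S.str i).inj ((hs a).trans k2.symm), (S.str i).inj ((hs b).trans k1.symm)]
    refine ⟨(s 3).1, S.emb i ∘ Str.inc M _, (S.str i).comp (sum_strong M _), fun a => ?_⟩
    rw [← hs a, ← k a]
    exact ⟨(s a).2, rfl⟩

end Pool.Agent.P.MP_48d4bc_co.EX
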