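import Pool.Agent.P.MP_48d4bc_co.EXB2
import Pool.Agent.P.MP_48d4bc_co.EXB3
import Pool.Agent.P.MP_48d4bc_co.EXFam
import Pool.Agent.P.MP_48d4bc_co.EXCopy

set_option autoImplicit false

/-! Property (1) from finite ordered typed models. -/

namespace Pool.Agent.P.MP_48d4bc_co.EX

open Set Function Pool.Agent.Lib.PrimrecProp

universe u

theorem EXHost_nbr (a : Fin 9) : ∃ b, Gam.Adj a b := by
  obtain ⟨w, hw, h⟩ := gam_nbr a.2
  have hl := gamE_lt hw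
  rcases h with h | h
  · exact ⟨⟨w.2, hl.2.2⟩, gam_adj.2 (Or.inl (by rw [← h]; exact hw))⟩
  · exact ⟨⟨w.1, by omega⟩, gam_adj.2 (Or.inr (by rw [← h]; exact hw))⟩

theorem EXHost_root {S : Sig} {N : ℕ} (M : S.GModel N) (h : S.WF)
    {Q : Str M.A (Fin N × Fin N)} (hQ : Good M.T Q) (β : Tr N) {f : (M.B β h.pos).W → Q.W}
    (hf : Strong M.T (M.B β h.pos) Q f) (ψ : Gam.Copy hQ.graph) (hr : ∀ a, ψ a ∈ range f) :
    Q.R (ψ 0) (ψ 1) (ψ 2) := by
  have key : ∀ a b, Gam.Adj a b → ∃ e ∈ S.edges,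
      (ψ a = f (M.up β h.pos e.1) ∧ ψ b = f (M.up β h.pos e.2)) ∨
        (ψ b = f (M.up β h.pos e.1) ∧ ψ a = f (M.up β h.pos e.2)) := by
    intro a b hab
    obtain ⟨α, σ, hσ, hh⟩ : Q.Adj M.T (ψ a) (ψ b) := ψ.toHom.map_adj hab
    have hx : σ M.T.x ∈ range f := by
      rcases hh with hh | hh <;> rw [hh.1] <;> exact hr _
    have hy : σ M.T.y ∈ range f := by
      rcases hh with hh | hh <;> rw [hh.2] <;> exact hr _
    obtain ⟨τ, hτ, rfl⟩ := hf.back α σ hσ hx hy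
    obtain ⟨e, he, e1, e2⟩ := M.edge_of_sec β h hτ
    refine ⟨e, he, hh.imp (fun k => ?_) fun k => ?_⟩
    · exact ⟨k.1.symm.trans (congrArg f e1), k.2.symm.trans (congrArg f e2)⟩
    · exact ⟨k.1.symm.trans (congrArg f e1), k.2.symm.trans (congrArg f e2)⟩
  have ex : ∀ a, ∃ v ∈ S.Valid, ψ a = f (M.up β h.pos v) := by
    intro a
    obtain ⟨b, hb⟩ := EXHost_nbr a
    obtain ⟨e, he, k | k⟩ := key a b hb
    · exact ⟨e.1, ⟨e, he, Or.inl rfl⟩, k.1⟩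
    · exact ⟨e.2, ⟨e, he, Or.inr rfl⟩, k.2⟩
  choose g hg hg' using ex
  have un : ∀ a, ∀ v ∈ S.Valid, ψ a = f (M.up β h.pos v) → g a = v := fun a v hv e =>
    M.up_inj β h (hg a) hv (hf.inj ((hg' a).symm.trans e))
  have gi : Injective g := fun a b e => ψ.injective (by
    change ψ a = ψ b
    rw [hg' a, hg' b, e])
  obtain ⟨i, hi, s, φ, hφ, e0, e1, e2⟩ := h.copy g gi (by
    intro a b hab
    obtain ⟨e, he, k | k⟩ := key a b hab
    · left
      rw [un a e.1 ⟨e, he, Or.inl rfl⟩ k.1, un b e.2 ⟨e, he, Or.inr rfl⟩ k.2]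
      exact he
    · right
      rw [un b e.1 ⟨e, he, Or.inl rfl⟩ k.1, un a e.2 ⟨e, he, Or.inr rfl⟩ k.2]
      exact he)
  rw [hg' 0, hg' 1, hg' 2, e0, e1, e2]
  exact hf.hom.rel _ _ _ (M.rel_of_fact β h hi s hφ)

theorem Sig.WF.p1 {S : Sig} (h : S.WF) (hM : ∀ N, Nonempty (S.GModel N)) : Sig.P1.{u} S := by
  intro κ _ _
  obtain ⟨N, hN⟩ := Pool.Agent.Lib.Ramsey.ramsey κ 2 3
  obtain ⟨M⟩ := hM N
  let _ : LinearOrder M.A := LinearOrder.lift' M.r M.rinj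
  have := M.fin
  choose ρ hρ hm using fun β : Tr N => M.order β h
  obtain ⟨Q, hQ, ram, cop⟩ := host_fam (T := M.T) (fun β : Tr N => M.B β h.pos)
    (fun β => M.good β h) ρ hρ (fun β α σ hσ a b hab => hm β α σ hσ a b hab) κ
  refine ⟨ULift.{u} Q.W, hQ.graph.comap ULift.down, gg_free.2 fun ψ ψ' h0 h1 => ?_, fun c => ?_⟩
  · let d : (hQ.graph.comap (ULift.down : ULift.{u} Q.W → Q.W)).Copy hQ.graph :=
      ⟨⟨ULift.down, fun k => k⟩, ULift.down_injective⟩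
    have r : ∀ θ : Gam.Copy (hQ.graph.comap (ULift.down : ULift.{u} Q.W → Q.W)),
        Q.R (θ 0).down (θ 1).down (θ 2).down := by
      intro θ
      obtain ⟨β, f, hf, hr⟩ := cop (d.comp θ)
      exact EXHost_root M h hQ β hf (d.comp θ) hr
    have r1 := r ψ
    rw [h0, h1] at r1
    exact ⟨2, 2, le_rfl, le_rfl, ULift.down_injective (hQ.fn _ _ _ _ r1 (r ψ'))⟩
  · obtain ⟨χ, hχ⟩ := ram fun σ => c s(ULift.up (σ M.T.x), ULift.up (σ M.T.y))
    obtain ⟨B, -, hB, col, hcol⟩ := hN (Fin N) Finset.univ (by simp) fun t => χ (t 0, t 1)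
    let e := B.orderEmbOfFin hB
    let β : Tr N := ⟨(e 0, e 1, e 2), e.strictMono (by decide), e.strictMono (by decide)⟩
    have hc : ∀ s, χ (β.ty s) = col := by
      intro s
      cases s
      · exact hcol (e ∘ Fin.castSucc) (e.strictMono.comp Fin.strictMono_castSucc)
          fun j => B.orderEmbOfFin_mem hB _
      · exact hcol (e ∘ Fin.succ) (e.strictMono.comp Fin.strictMono_succ)
          fun j => B.orderEmbOfFin_mem hB _
    obtain ⟨f, hf, hs⟩ := hχ β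
    refine ⟨fun v => ULift.up (f (M.up β h.pos v)), col, fun v hv w hw k => ?_, fun a ha => ?_⟩
    · exact M.up_inj β h hv hw (hf.inj (ULift.up_injective k))
    · obtain ⟨s, σ, hσ, e1, e2⟩ := M.sec_of_edge β h ha
      refine ⟨⟨β.ty s, f ∘ σ, hf.hom.sec _ _ hσ, Or.inl ⟨congrArg f e1, congrArg f e2⟩⟩, ?_⟩
      beta_reduce
      rw [← hc s, ← hs _ σ hσ, ← e1, ← e2]
      rfl

end Pool.Agent.P.MP_48d4bc_co.EX
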