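import Pool.Agent.P.MP_48d4bc_co.EXM4

set_option autoImplicit false

/-! The images are closed and the operation is reflected. -/

namespace Pool.Agent.P.MP_48d4bc_co.EX

open Set Function Pool.Agent.Lib.PrimrecProp

variable {P : List Ins} {T gx gy : ℕ} {θ : Th} {a a' b b' c' : Nm}

theorem EXM5_inv0 {i : ℕ} {r r' : ℕ × ℕ} {z : Bool} (h : Mp P T (0, i, r, r', z) a a')
    (h1 : a'.1 ≤ 12) : (∃ k, a = el (cond z (3, 0) (1, i)) k ∧ a' = el r (k + 1)) ∨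
      ∃ k, a = el (2, 0) k ∧ a' = el r' (k + 1) := by
  cases h with
  | h _ k => simp [el] at h1
  | g1 _ k => simp [el] at h1
  | g2 _ k => simp [el] at h1
  | up _ _ _ k => exact Or.inl ⟨k, rfl, rfl⟩
  | dn _ _ _ k => exact Or.inl ⟨k, rfl, rfl⟩
  | s _ _ _ _ k => exact Or.inr ⟨k, rfl, rfl⟩

theorem EXM5_inv1 {q : ℕ} {r r' : ℕ × ℕ} {z : Bool} (h : Mp P T (1, q, r, r', z) a a') :
    13 ≤ a'.1 ∨ a'.1 = 8 ∨ a'.1 = 9 := by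
  cases h <;> simp [el]

theorem EXM5_inv2 {q : ℕ} {r r' : ℕ × ℕ} {z : Bool} (h : Mp P T (2, q, r, r', z) a a') :
    13 ≤ a'.1 ∨ a'.1 = r'.1 ∨ (∃ k, a = el (4, q) k ∧ a' = el (4, r.2) (k + 1)) ∨
      (∃ κ v v', (κ = 5 ∨ κ = 6) ∧ a = el (κ, q) v ∧ a' = el (κ, r.2) v') ∨
      ∃ k l k' l', Cm T z (lag P 5 q) k k' ∧ Cm T z (lag P 6 q) l l' ∧ a = (7, q, k, l) ∧
        a' = (7, r.2, k', l') := by
  cases h with
  | h _ k => exact Or.inl (by simp [el])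
  | g1 _ k => exact Or.inl (by simp [el])
  | g2 _ k => exact Or.inl (by simp [el])
  | ma _ _ _ _ k => exact Or.inr (Or.inr (Or.inl ⟨k, rfl, rfl⟩))
  | mg _ _ _ _ k => exact Or.inr (Or.inl rfl)
  | mc _ _ _ _ κ v v' h1 => exact Or.inr (Or.inr (Or.inr (Or.inl ⟨κ, v, v', h1, rfl, rfl⟩)))
  | mq _ _ _ _ k l k' l' h1 h2 =>
    exact Or.inr (Or.inr (Or.inr (Or.inr ⟨k, l, k', l', h1, h2, rfl, rfl⟩)))

theorem EXM5_shape (hθ : Shape P θ) :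
    (∃ i r r' z, θ = (0, i, r, r', z) ∧ 1 ≤ r.1 ∧ r.1 ≤ 12 ∧ r.1 ≠ 7 ∧
      (r'.1 = 2 ∨ (10 ≤ r'.1 ∧ r'.1 ≤ 12))) ∨ (∃ q r r' z, θ = (1, q, r, r', z)) ∨
      ∃ q q' r' z, θ = (2, q, (0, q'), r', z) ∧ (r'.1 = 8 ∨ r'.1 = 9) := by
  cases hθ with
  | exit κ q _ h1 =>
    rw [exK_iff] at h1
    exact Or.inl ⟨_, _, _, _, rfl, by omega, by omega, by omega, by simp⟩
  | self i => exact Or.inl ⟨_, _, _, _, rfl, by simp⟩
  | self' => exact Or.inl ⟨_, _, _, _, rfl, by simp⟩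
  | gh => exact Or.inl ⟨_, _, _, _, rfl, by simp⟩
  | hg => exact Or.inl ⟨_, _, _, _, rfl, by simp⟩
  | gg => exact Or.inl ⟨_, _, _, _, rfl, by simp⟩
  | pair q => exact Or.inr (Or.inl ⟨_, _, _, _, rfl⟩)
  | loop q => exact Or.inr (Or.inr ⟨_, _, _, _, rfl, by simp⟩)
  | alt q => exact Or.inr (Or.inr ⟨_, _, _, _, rfl, by simp⟩)
  | move q q' z => exact Or.inr (Or.inr ⟨_, _, _, _, rfl, by simp⟩)

theorem EXM5_two {q : ℕ} {r r' : ℕ × ℕ} {z : Bool} (h : Mp P T (2, q, r, r', z) a a')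
    (hr : r'.1 = 8 ∨ r'.1 = 9) : 13 ≤ a'.1 ∨ (4 ≤ a'.1 ∧ a'.1 ≤ 9) := by
  rcases EXM5_inv2 h with h1 | h1 | ⟨k, -, rfl⟩ | ⟨κ, v, v', h1, -, rfl⟩ |
    ⟨k, l, k', l', -, -, -, rfl⟩
  · omega
  · omega
  · simp [el]
  · simp only [el]
    omega
  · simp

theorem EXM5_ne (hθ : Shape P θ) (h : Mp P T θ a a') : a'.1 ≠ 0 := by
  intro h0
  rcases EXM5_shape hθ with ⟨i, r, r', z, rfl, h1⟩ | ⟨q, r, r', z, rfl⟩ | ⟨q, q', r', z, rfl, h1⟩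
  · rcases EXM5_inv0 h (by omega) with ⟨k, -, rfl⟩ | ⟨k, -, rfl⟩ <;> simp only [el] at h0 <;> omega
  · have := EXM5_inv1 h
    omega
  · have := EXM5_two h h1
    omega

theorem EXM5_big (hθ : Shape P θ) (h : Mp P T θ a a') (h1 : 13 ≤ a'.1) :
    ∃ k, a = el (a'.1 - 3, 0) k ∧ a'.2.2.1 = k + 1 := by
  rcases EXM5_shape hθ with ⟨i, r, r', z, rfl, h2⟩ | ⟨q, r, r', z, rfl⟩ | ⟨q, q', r', z, rfl, h2⟩
  · cases h <;> first | exact ⟨_, rfl, rfl⟩ | (simp only [el] at h1; omega)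
  · cases h <;> first | exact ⟨_, rfl, rfl⟩ | (simp only [el] at h1; omega)
  · cases h <;> first | exact ⟨_, rfl, rfl⟩ | (simp only [el] at h1; omega)

theorem EXM5_w (z : Bool) (i : ℕ) {k k' : ℕ} (h : k = k' + i) (hz : z = true → i = 0) :
    ∃ c, Fn P gx T (el (cond z (3, 0) (1, i)) k) (el (2, 0) k') c := by
  subst h
  cases z
  · exact ⟨_, Fn.w i k'⟩
  · obtain rfl := hz rfl
    exact ⟨_, Fn.w' k'⟩

theorem EXM5_zero (hθ : Shape P θ) (ha : Mp P T θ a a') (hb : Mp P T θ b b')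
    (h : (exK a'.1 = true ∧ b'.1 = 10 ∧ a'.2.2.1 = b'.2.2.1 + lag P a'.1 a'.2.1) ∨
      (a'.1 = 1 ∧ b'.1 = 2 ∧ a'.2.2.1 = b'.2.2.1 + a'.2.1) ∨
      (((a'.1 = 3 ∧ b'.1 = 2) ∨ (a'.1 = 10 ∧ b'.1 = 11) ∨ (a'.1 = 11 ∧ b'.1 = 12)) ∧
        a'.2.2.1 = b'.2.2.1)) : ∃ c, Fn P gx T a b c := by
  rw [exK_iff] at h
  have h1 : a'.1 ≤ 12 := by omega
  have h2 : b'.1 ≤ 12 := by omega
  have h12 := lag_zero (P := P) (κ := 12) 0 (by decide) (by decide)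
  cases hθ with
  | pair q =>
    have := EXM5_inv1 hb
    omega
  | loop q =>
    have := EXM5_two hb (by simp)
    omega
  | alt q =>
    have := EXM5_two hb (by simp)
    omega
  | move q q' z =>
    have := EXM5_two hb (by simp)
    omega
  | exit κ q _ h3 h4 =>
    rw [exK_iff] at h3
    rcases EXM5_inv0 ha h1 with ⟨k, rfl, rfl⟩ | ⟨k, rfl, rfl⟩ <;>
      rcases EXM5_inv0 hb h2 with ⟨k', rfl, rfl⟩ | ⟨k', rfl, rfl⟩ <;> simp only [el] at h <;>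
      first | omega | exact EXM5_w _ _ (by omega) (by simp)
  | _ =>
    rcases EXM5_inv0 ha h1 with ⟨k, rfl, rfl⟩ | ⟨k, rfl, rfl⟩ <;>
      rcases EXM5_inv0 hb h2 with ⟨k', rfl, rfl⟩ | ⟨k', rfl, rfl⟩ <;> simp only [el] at h <;>
      first | omega | exact EXM5_w _ _ (by omega) (by simp)

theorem EXM5_ex {κ q j k : ℕ} (h : exK κ = true) (hk : k = j + lag P κ q) :
    ∃ c, Fn P gx T (el (κ, q) k) (el (10, 0) j) c := by
  subst hk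
  exact ⟨_, Fn.ex κ q j h⟩

theorem EXM5_en (ha : Mp P T θ a a') (h1 : enK a'.1 = true) {j : ℕ} (h2 : a'.2.2.1 = j + 1) :
    ∃ c, Fn P gx T a (el (10, 0) j) c := by
  rw [enK_iff] at h1
  cases ha with
  | h _ k => simp [el] at h1
  | g1 _ k => simp [el] at h1
  | mq _ _ _ _ k l k' l' => simp at h1
  | mc _ _ _ _ κ v v' h3 h4 =>
    refine EXM5_ex (exK_iff.2 (by omega)) ?_
    simp only [el] at h2
    unfold Cm at h4
    omega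
  | _ =>
    refine EXM5_ex (by decide) ?_
    rw [lag_zero _ (by decide) (by decide)]
    simp only [el] at h2
    omega

theorem EXM5_tag (hθ : Shape P θ) (ha : Mp P T θ a a') (hb : Mp P T θ b b')
    (h : (a'.1 = 5 ∧ b'.1 = 6) ∨ (a'.1 = 4 ∧ b'.1 = 7)) :
    ∃ q q' r' z, θ = (2, q, (0, q'), r', z) ∧ (r'.1 = 8 ∨ r'.1 = 9) := by
  rcases EXM5_shape hθ with ⟨i, r, r', z, rfl, h1⟩ | ⟨q, r, r', z, rfl⟩ | h1
  · rcases EXM5_inv0 ha (by omega) with ⟨k, -, rfl⟩ | ⟨k, -, rfl⟩ <;>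
      rcases EXM5_inv0 hb (by omega) with ⟨k', -, rfl⟩ | ⟨k', -, rfl⟩ <;> simp only [el] at h <;>
      omega
  · have := EXM5_inv1 ha
    omega
  · exact h1

theorem Mp.bwd (hB : ¬ HaltsB P) (hθ : Shape P θ) (ha : Mp P T θ a a') (hb : Mp P T θ b b')
    (h : Fn P T gy a' b' c') : ∃ c, Fn P gx T a b c := by
  have _ := hB
  cases h with
  | base _ _ _ h => exact absurd (base_kind h) (EXM5_ne hθ hb)
  | ex κ q j h => exact EXM5_zero hθ ha hb (Or.inl ⟨h, rfl, rfl⟩)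
  | en κ q k h h1 =>
    obtain ⟨j, rfl, h2⟩ := EXM5_big hθ hb (by simp [el])
    exact EXM5_en ha h h2
  | w i j => exact EXM5_zero hθ ha hb (Or.inr (Or.inl ⟨rfl, rfl, rfl⟩))
  | w' j => exact EXM5_zero hθ ha hb (Or.inr (Or.inr ⟨Or.inl ⟨rfl, rfl⟩, rfl⟩))
  | ga j h => exact EXM5_zero hθ ha hb (Or.inr (Or.inr ⟨Or.inr (Or.inl ⟨rfl, rfl⟩), rfl⟩))
  | gg j => exact EXM5_zero hθ ha hb (Or.inr (Or.inr ⟨Or.inr (Or.inr ⟨rfl, rfl⟩), rfl⟩))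
  | ga' j h1 h2 =>
    obtain ⟨k, rfl, h3⟩ := EXM5_big hθ ha (by simp [el])
    obtain ⟨k', rfl, h4⟩ := EXM5_big hθ hb (by simp [el])
    simp only [el] at h3 h4
    obtain rfl : k = k' := by omega
    exact ⟨_, Fn.ga k (by omega)⟩
  | gg' j h1 =>
    obtain ⟨k, rfl, h3⟩ := EXM5_big hθ ha (by simp [el])
    obtain ⟨k', rfl, h4⟩ := EXM5_big hθ hb (by simp [el])
    simp only [el] at h3 h4
    obtain rfl : k = k' := by omega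
    exact ⟨_, Fn.gg k⟩
  | pos q k l =>
    obtain ⟨q0, q', r', z, rfl, h1⟩ := EXM5_tag hθ ha hb (Or.inl ⟨rfl, rfl⟩)
    rcases EXM5_inv2 ha with h2 | h2 | ⟨t, -, h2⟩ | ⟨κ, v, v', -, rfl, h2⟩ |
      ⟨_, _, _, _, -, -, -, h2⟩ <;> simp only [el, Prod.ext_iff] at h2 <;> try omega
    rcases EXM5_inv2 hb with h3 | h3 | ⟨t, -, h3⟩ | ⟨κ', w, w', -, rfl, h3⟩ |
      ⟨_, _, _, _, -, -, -, h3⟩ <;> simp only [el, Prod.ext_iff] at h3 <;> try omega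
    obtain rfl := h2.1
    obtain rfl := h3.1
    exact ⟨_, Fn.pos q0 v w⟩
  | bt q t k l h =>
    obtain ⟨q0, q', r', z, rfl, h1⟩ := EXM5_tag hθ ha hb (Or.inr ⟨rfl, rfl⟩)
    rcases EXM5_inv2 ha with h2 | h2 | ⟨t0, rfl, h2⟩ | ⟨κ, v, v', h4, -, h2⟩ |
      ⟨_, _, _, _, -, -, -, h2⟩ <;> simp only [el, Prod.ext_iff] at h2 <;> try omega
    rcases EXM5_inv2 hb with h3 | h3 | ⟨t, -, h3⟩ | ⟨κ', w, w', h4, -, h3⟩ |
      ⟨k0, l0, k', l', h5, h6, rfl, h3⟩ <;> simp only [el, Prod.ext_iff] at h3 <;> try omega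
    obtain ⟨-, rfl, rfl, rfl⟩ := h3
    obtain rfl := h2.2.2.1
    exact ⟨_, Fn.bt q0 t0 k0 l0 ((bit_step (step_of_cm hθ h5 h6)).2 h)⟩

end Pool.Agent.P.MP_48d4bc_co.EX
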