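import Pool.Agent.P.MP_48d4bc_co.EXM3
import Pool.Agent.P.MP_48d4bc_co.EXM5

set_option autoImplicit false

/-! Typed models for a run that never reaches a loop state. -/

namespace Pool.Agent.P.MP_48d4bc_co.EX

open Set Function Pool.Agent.Lib.PrimrecProp

theorem EXM6_getD_mem (l : List Nm) (i : ℕ) : l.getD i nx = nx ∨ l.getD i nx ∈ l := by
  by_cases h : i < l.length
  · right
    rw [List.getD_eq_getElem _ _ h]
    exact List.getElem_mem h
  · left
    exact List.getD_eq_default _ _ (by omega)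

theorem EXM6_base_mem {rest : List Nm} {φ : Ft} (h : φ ∈ baseOf rest) :
    φ.1 ∈ namesOf rest ∧ φ.2.1 ∈ namesOf rest ∧ φ.2.2 ∈ namesOf rest := by
  unfold baseOf at h
  simp only [List.mem_cons, List.mem_map] at h
  rcases h with rfl | rfl | rfl | rfl | ⟨i, -, rfl⟩
  · simp [namesOf]
  · simp [namesOf]
  · simp [namesOf]
  · simp [namesOf]
  · refine ⟨?_, by simp [namesOf], ?_⟩
    · rcases EXM6_getD_mem (m3 :: rest) i with h | h
      · show (m3 :: rest).getD i nx ∈ namesOf rest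
        rw [h]; simp [namesOf]
      · show (m3 :: rest).getD i nx ∈ namesOf rest
        unfold namesOf
        exact List.mem_cons_of_mem _ (List.mem_cons_of_mem _ (List.mem_cons_of_mem _
          (List.mem_cons_of_mem _ h)))
    · rcases EXM6_getD_mem rest i with h | h
      · show rest.getD i nx ∈ namesOf rest
        rw [h]; simp [namesOf]
      · show rest.getD i nx ∈ namesOf rest
        unfold namesOf
        exact List.mem_cons_of_mem _ (List.mem_cons_of_mem _ (List.mem_cons_of_mem _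
          (List.mem_cons_of_mem _ (List.mem_cons_of_mem _ h))))

theorem EXM6_fact_mem {P : List Ins} (hP : P ≠ []) {φ : Ft} (h : φ ∈ (sig P).facts) :
    φ.1 ∈ (sig P).names ∧ φ.2.1 ∈ (sig P).names ∧ φ.2.2 ∈ (sig P).names := by
  unfold Sig.facts at h
  rcases List.mem_append.1 h with h | h
  · exact EXM6_base_mem h
  · obtain ⟨h1, h2, h3, -⟩ := (sig_wf hP).ext φ h
    exact ⟨h1, h2, h3⟩

theorem gmodel {P : List Ins} (hP : P ≠ []) (hB : ¬ HaltsB P) (N : ℕ) :
    Nonempty ((sig P).GModel N) := by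
  classical
  obtain ⟨r, hr⟩ := exists_rank (P.length + 2) (3 * N + 9)
  have hnx : nx ∈ (sig P).names := by simp [Sig.names, namesOf]
  have hny : ny ∈ (sig P).names := by simp [Sig.names, namesOf]
  have hbox : ∀ a ∈ (sig P).names, Box (P.length + 2) (3 * N + 9) a :=
    fun a ha => name_box ha (by omega)
  let ν : Nm → {a : Nm // Box (P.length + 2) (3 * N + 9) a} := fun a =>
    if h : Box (P.length + 2) (3 * N + 9) a then ⟨a, h⟩ else ⟨nx, hbox nx hnx⟩
  have hν : ∀ a ∈ (sig P).names, (ν a).1 = a := by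
    intro a ha
    simp only [ν, dif_pos (hbox a ha)]
  have hS : ∀ {i : ℕ} (h : i < (ths P).length), Shape P (ths P)[i] :=
    fun h => mem_ths.1 (List.getElem_mem h)
  refine ⟨{
    A := {a : Nm // Box (P.length + 2) (3 * N + 9) a}
    R := fun x y a b c => Fn P (3 * x + 4) (3 * y + 4) a.1 b.1 c.1
    ν := ν
    Θ := fun i z a a' => ∃ h : i < (ths P).length, Mp P (3 * z + 4) (ths P)[i] a.1 a'.1
    r := fun a => r a.1
    fin := box_finite _ _
    rinj := ?_, fn := ?_, irr := ?_, inj := ?_, fact := ?_, glue := ?_, bij := ?_, fwd := ?_,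
    bwd := ?_, lo := ?_, mono := ?_, off := ?_, only := ?_ }⟩
  · intro a b hab
    rcases lt_total a.1 b.1 with h | h | h
    · exact absurd ((hr _ _ a.2 b.2).2 h) (by simp only at hab; omega)
    · exact Subtype.ext h
    · exact absurd ((hr _ _ b.2 a.2).2 h) (by simp only at hab; omega)
  · intro x y a b c c' h h'
    exact Subtype.ext (h.fn h')
  · intro x y a c
    exact Fn.irr
  · intro a ha b hb h
    rw [← hν a ha, ← hν b hb, h]
  · intro x y _ _ φ hφ
    obtain ⟨h1, h2, h3⟩ := EXM6_fact_mem hP hφ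
    show Fn P _ _ (ν φ.1).1 (ν φ.2.1).1 (ν φ.2.2).1
    rw [hν _ h1, hν _ h2, hν _ h3]
    exact fn_fact (by omega) hφ
  · intro i _ z _ p hp
    obtain ⟨h, h1, h2, h3⟩ := mem_gl.1 hp
    refine ⟨h, ?_⟩
    rw [hν _ h1, hν _ h2]
    exact h3.horizon h1 (by omega)
  · rintro i _ z _ a a' b b' ⟨h, ha⟩ ⟨_, hb⟩
    rw [Subtype.ext_iff, Subtype.ext_iff]
    exact ha.bij (hS h) hb
  · rintro i _ w z y _ hzy hy a a' b b' c ⟨h, ha⟩ ⟨_, hb⟩ hR
    obtain ⟨c', h1, h2⟩ := Mp.fwd (gy := 3 * y + 4) hB (hS h) (by omega) ha hb hR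
    exact ⟨⟨c', (h2.box (hS h) (by omega)).2⟩, h1, h, h2⟩
  · rintro i _ w z y _ hzy hy a a' b b' c' ⟨h, ha⟩ ⟨_, hb⟩ hR
    obtain ⟨c, hc⟩ := Mp.bwd (gx := 3 * w + 4) hB (hS h) ha hb hR
    obtain ⟨c'', h1, h2⟩ := Mp.fwd (gy := 3 * y + 4) hB (hS h) (by omega) ha hb hc
    have e : c'' = c'.1 := h1.fn hR
    subst e
    exact ⟨⟨c, (h2.box (hS h) (by omega)).1⟩, hc, h, h2⟩
  · refine ⟨?_, ?_⟩
    · refine (hr _ _ (ν nx).2 (ν ny).2).2 ?_
      rw [hν _ hnx, hν _ hny]
      simp [Lt, nx, ny]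
    · intro a ha
      show r (ν ny).1 ≤ r a.1
      rcases lt_total (ν ny).1 a.1 with h | h | h
      · exact ((hr _ _ (ν ny).2 a.2).2 h).le
      · rw [h]
      · exfalso
        apply ha
        apply Subtype.ext
        rw [hν _ hnx]
        rw [hν _ hny] at h
        obtain ⟨⟨a1, a2, a3, a4⟩, _⟩ := a
        simp only [Lt, ny] at h
        simp only [nx, Prod.mk.injEq]
        omega
  · rintro i _ z _ a a' b b' ⟨h, ha⟩ ⟨_, hb⟩ hl
    exact (hr _ _ a'.2 b'.2).2 (ha.mono (hS h) hb ((hr _ _ a.2 b.2).1 hl))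
  · rintro i _ z _ a a' ⟨h, ha⟩
    obtain ⟨k1, k2⟩ := ha.kind (hS h)
    refine ⟨?_, ?_, ?_, ?_⟩
    · intro e
      apply k1
      rw [e, hν _ hnx]; rfl
    · intro e
      apply k1
      rw [e, hν _ hny]; rfl
    · intro e
      apply k2
      rw [e, hν _ hnx]; rfl
    · intro e
      apply k2
      rw [e, hν _ hny]; rfl
  · rintro i _ z _ a ha b hb ⟨h, hm⟩
    rw [hν _ ha, hν _ hb] at hm
    exact mem_gl.2 ⟨h, ha, hb, hm.horizon ha le_rfl⟩

end Pool.Agent.P.MP_48d4bc_co.EX
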