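import Pool.Agent.P.MP_48d4bc_co.EXUn1

set_option autoImplicit false

/-! Stages from property (1), and the limit model. -/

namespace Pool.Agent.P.MP_48d4bc_co.EX

open Set Function Pool.Agent.Lib.PrimrecProp

universe u

/-- the equations between terms of a set that hold over an ordered pair -/
def EXUn2_ty {W : Type u} (f : W → W → Option W) (T : Set Tm) (u v : W) : Set (T × T) :=
  {p | Same f (u, v) (u, v) p.1.1 p.2.1}

theorem EXUn2_marks (S : Sig) : (nx, ny, m1) ∈ S.facts ∧ (ny, nx, m2) ∈ S.facts ∧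
    (nx, m1, m2) ∈ S.facts ∧ (ny, m2, m3) ∈ S.facts := by
  simp [Sig.facts, baseOf]

theorem Sig.WF.stage {S : Sig} (h : S.WF) (h1 : Sig.P1.{u} S) (𝒯 : Set Tm) (hT : 𝒯.Finite) :
    Nonempty (Stage.{u} S 𝒯) := by
  let tA : Tm := .f .x (.f .x .y)
  let tB : Tm := .f .y .x
  let T : Set Tm := insert tA (insert tB 𝒯)
  have hfin : Finite T := ((hT.insert tB).insert tA).to_subtype
  have hne : Nonempty (Sym2 (Set (T × T))) := ⟨s(∅, ∅)⟩
  obtain ⟨W, H, hH, hc⟩ := h1 (Sym2 (Set (T × T)))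
  obtain ⟨f, hf⟩ := h.facts_hold hH
  obtain ⟨φ, k, hinj, he⟩ := hc (Sym2.lift
    ⟨fun u v => s(EXUn2_ty f T u v, EXUn2_ty f T v u), fun _ _ => Sym2.eq_swap⟩)
  have hφ := hf φ hinj fun e h => (he e h).1
  obtain ⟨a1, a2, a3, a4⟩ := EXUn2_marks S
  have hk : ∀ i < S.glue.length, ∀ s,
      s(EXUn2_ty f T (φ (S.vtx i s nx)) (φ (S.vtx i s ny)),
        EXUn2_ty f T (φ (S.vtx i s ny)) (φ (S.vtx i s nx))) = k := fun i hi s =>
    (he _ (Sig.mem_edges.2 ⟨i, hi, s, Or.inl rfl⟩)).2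
  refine ⟨⟨W, f, φ, hinj, fun i hi s => (hφ i hi s).1, fun i hi s => (hφ i hi s).2, ?_⟩⟩
  intro i hi s i' hi' s' t ht t' ht' hs
  rcases Sym2.eq_iff.1 ((hk i hi s).trans (hk i' hi' s').symm) with ⟨e, -⟩ | ⟨e, -⟩
  · have h2 : ((⟨t, Or.inr (Or.inr ht)⟩, ⟨t', Or.inr (Or.inr ht')⟩) : T × T) ∈
        EXUn2_ty f T (φ (S.vtx i s nx)) (φ (S.vtx i s ny)) := hs
    rw [e] at h2
    exact h2
  · exfalso
    have h2 : ((⟨tA, Or.inl rfl⟩, ⟨tB, Or.inr (Or.inl rfl)⟩) : T × T) ∈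
        EXUn2_ty f T (φ (S.vtx i s nx)) (φ (S.vtx i s ny)) := by
      have b1 := (hφ i hi s).1 _ a1
      have b2 := (hφ i hi s).1 _ a2
      have b3 := (hφ i hi s).1 _ a3
      refine ⟨φ (S.vtx i s m2), ?_, ?_⟩
      · simp only [tA, Tm.ev, Option.bind_some] at b1 b3 ⊢
        rw [b1, Option.bind_some, b3]
      · simp only [tB, Tm.ev, Option.bind_some] at b2 ⊢
        exact b2
    rw [e] at h2
    obtain ⟨w, w1, w2⟩ := h2
    have b1 := (hφ i' hi' s').1 _ a1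
    have b2 := (hφ i' hi' s').1 _ a2
    have b4 := (hφ i' hi' s').1 _ a4
    simp only [tA, tB, Tm.ev, Option.bind_some] at w1 w2 b1 b2 b4
    rw [b2, Option.bind_some, b4] at w1
    rw [b1, ← w1, Option.some_inj] at w2
    have h3 := hinj (Sig.vtx_valid hi' s' (by simp [Sig.names, namesOf]))
      (Sig.vtx_valid hi' s' (by simp [Sig.names, namesOf])) w2
    rcases (h.vtx_eq.1 h3).2 with ⟨-, h4⟩ | ⟨h4, h5, -⟩ | ⟨h4, h5, -⟩
    · simp [m1, m3] at h4
    · rw [h4] at h5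
      exact Bool.noConfusion h5
    · rw [h4] at h5
      exact Bool.noConfusion h5

end Pool.Agent.P.MP_48d4bc_co.EX
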