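import Pool.Agent.P.MP_48d4bc_co.EXTm
import Pool.Agent.P.MP_48d4bc_co.EXVtx

set_option autoImplicit false

/-! The limit model. -/

namespace Pool.Agent.P.MP_48d4bc_co.EX

open Set Function Pool.Agent.Lib.PrimrecProp

universe u

/-- equations that hold in all late stages -/
def EXUn3_E {S : Sig} (st : ∀ T : Finset Tm, Stage.{u} S T) (x y : ℕ × Bool) (t t' : Tm) : Prop :=
  ∀ᶠ T in Filter.atTop, Same (st T).f (S.ge (st T).φ x.1 x.2) (S.ge (st T).φ y.1 y.2) t t'

section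

variable {S : Sig} {st : ∀ T : Finset Tm, Stage.{u} S T} {x y z : ℕ × Bool} {t t' t'' s s' : Tm}

theorem EXUn3_symm (h : EXUn3_E st x y t t') : EXUn3_E st y x t' t :=
  h.mono fun _ ⟨w, h1, h2⟩ => ⟨w, h2, h1⟩

theorem EXUn3_trans (h : EXUn3_E st x y t t') (h' : EXUn3_E st y z t' t'') :
    EXUn3_E st x z t t'' :=
  (h.and h').mono fun _ ⟨⟨w, h1, h2⟩, ⟨w', h3, h4⟩⟩ =>
    ⟨w, h1, by rw [h4, ← h3, h2]⟩

theorem EXUn3_move (hx : x.1 < S.glue.length) (hy : y.1 < S.glue.length)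
    (h : EXUn3_E st x x t t') : EXUn3_E st y y t t' := by
  classical
  refine (h.and (Filter.eventually_ge_atTop ({t, t'} : Finset Tm))).mono fun T ⟨h1, h2⟩ => ?_
  exact (st T).same _ hx _ _ hy _ t (Finset.mem_coe.2 (h2 (by simp))) t'
    (Finset.mem_coe.2 (h2 (by simp))) h1

theorem EXUn3_cong (h : EXUn3_E st x y t t') (h' : EXUn3_E st x y s s')
    (h'' : EXUn3_E st x z (.f t s) t'') : EXUn3_E st x y (.f t s) (.f t' s') := by
  refine ((h.and h').and h'').mono fun T ⟨⟨⟨a, h1, h2⟩, ⟨b, h3, h4⟩⟩, ⟨w, h5, _⟩⟩ => ⟨w, h5, ?_⟩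
  rw [Tm.ev, h1, h3] at h5
  rw [Tm.ev, h2, h4]
  exact h5

theorem EXUn3_name (hx : x.1 < S.glue.length) (hy : y.1 < S.glue.length) {a b : Nm}
    (ha : a ∈ S.names) (hb : b ∈ S.names) (e : S.vtx x.1 x.2 a = S.vtx y.1 y.2 b) :
    EXUn3_E st x y (S.tm a) (S.tm b) :=
  Filter.Eventually.of_forall fun T =>
    ⟨_, (st T).tm _ hx _ a ha, by rw [e]; exact (st T).tm _ hy _ b hb⟩

end

/-- terms modulo equations on the first glue edge -/
def EXUn3_rel {S : Sig} (st : ∀ T : Finset Tm, Stage.{u} S T) : Setoid Tm where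
  r t t' := t = t' ∨ EXUn3_E st (0, false) (0, false) t t'
  iseqv :=
    { refl := fun _ => Or.inl rfl
      symm := fun h => h.imp Eq.symm EXUn3_symm
      trans := by
        rintro t t' t'' (rfl | h) (rfl | h')
        · exact Or.inl rfl
        · exact Or.inr h'
        · exact Or.inr h
        · exact Or.inr (EXUn3_trans h h') }

theorem EXUn3_out {S : Sig} {st : ∀ T : Finset Tm, Stage.{u} S T} {t : Tm}
    (h : EXUn3_E st (0, false) (0, false) t t) :
    EXUn3_E st (0, false) (0, false) (Quotient.mk (EXUn3_rel st) t).out t := by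
  rcases Quotient.mk_out (s := EXUn3_rel st) t with e | e
  · rw [e]
    exact h
  · exact e

theorem EXUn3_eq {S : Sig} {st : ∀ T : Finset Tm, Stage.{u} S T} {a b : Quotient (EXUn3_rel st)}
    (h : EXUn3_E st (0, false) (0, false) a.out b.out) : a = b :=
  Quotient.out_equiv_out.1 (Or.inr h)

theorem Sig.WF.model {S : Sig} (h : S.WF)
    (hs : ∀ 𝒯 : Set Tm, 𝒯.Finite → Nonempty (Stage.{u} S 𝒯)) : Nonempty S.Model := by
  classical
  let st : ∀ T : Finset Tm, Stage.{u} S T := fun T => (hs T T.finite_toSet).some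
  have h0 : ((0, false) : ℕ × Bool).1 < S.glue.length := h.pos
  have hn : ∀ a ∈ S.names, EXUn3_E st (0, false) (0, false) (S.tm a) (S.tm a) :=
    fun a ha => EXUn3_name h0 h0 ha ha rfl
  refine ⟨{
    A := Quotient (EXUn3_rel st)
    R := fun a b c => EXUn3_E st (0, false) (0, false) (.f a.out b.out) c.out
    ν := fun a => Quotient.mk _ (S.tm a)
    Θ := fun i a a' => EXUn3_E st (i, false) (i, true) a.out a'.out
    fn := fun a b c c' h1 h2 => EXUn3_eq (EXUn3_trans (EXUn3_symm h1) h2)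
    inj := fun a ha b hb e => ?_
    fact := fun φ hφ => ?_
    glue := fun i hi p hp => ?_
    bij := fun i hi a a' b b' h1 h2 => ⟨fun e => ?_, fun e => ?_⟩
    fwd := fun i hi a a' b b' c h1 h2 h3 => ?_ }⟩
  · have h1 : EXUn3_E st (0, false) (0, false) (S.tm a) (S.tm b) := by
      rcases Quotient.exact e with e' | e'
      · rw [← e']
        exact hn a ha
      · exact e'
    obtain ⟨T, w, h2, h3⟩ := Filter.Eventually.exists h1
    rw [(st T).tm 0 h0 false a ha] at h2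
    rw [(st T).tm 0 h0 false b hb, ← h2] at h3
    have h4 := (st T).inj (Sig.vtx_valid h0 false hb) (Sig.vtx_valid h0 false ha)
      (Option.some.inj h3)
    rcases (h.vtx_eq.1 h4).2 with h5 | h5 | h5
    · exact h5.2.symm
    · exact absurd h5.2.1 (by simp)
    · exact absurd h5.1 (by simp)
  · obtain ⟨h1, h2, h3, -⟩ := h.facts hφ
    have h4 : EXUn3_E st (0, false) (0, false) (.f (S.tm φ.1) (S.tm φ.2.1)) (S.tm φ.2.2) :=
      Filter.Eventually.of_forall fun T => ⟨_, by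
        rw [Tm.ev, (st T).tm 0 h0 false _ h1, (st T).tm 0 h0 false _ h2]
        exact (st T).fact 0 h0 false φ hφ, (st T).tm 0 h0 false _ h3⟩
    exact EXUn3_trans (EXUn3_symm (EXUn3_cong (EXUn3_symm (EXUn3_out (hn _ h1)))
      (EXUn3_symm (EXUn3_out (hn _ h2))) h4))
      (EXUn3_trans h4 (EXUn3_symm (EXUn3_out (hn _ h3))))
  · obtain ⟨h1, h2, -⟩ := h.mem i p hp
    have h3 : EXUn3_E st (i, false) (i, true) (S.tm p.1) (S.tm p.2) :=
      EXUn3_name hi hi h1 h2 (h.vtx_eq.2 ⟨rfl, Or.inr (Or.inl ⟨rfl, rfl, hp⟩)⟩)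
    exact EXUn3_trans (EXUn3_move h0 hi (EXUn3_out (hn _ h1)))
      (EXUn3_trans h3 (EXUn3_move h0 hi (EXUn3_symm (EXUn3_out (hn _ h2)))))
  · subst e
    exact EXUn3_eq (EXUn3_move (x := (i, true)) hi h0 (EXUn3_trans (EXUn3_symm h1) h2))
  · subst e
    exact EXUn3_eq (EXUn3_move (x := (i, false)) hi h0 (EXUn3_trans h1 (EXUn3_symm h2)))
  · have h4 : EXUn3_E st (i, false) (i, false) (.f a.out b.out) c.out := EXUn3_move h0 hi h3
    have h5 := EXUn3_cong h1 h2 h4
    have h6 := EXUn3_out (EXUn3_move (x := (i, true)) hi h0 (EXUn3_trans (EXUn3_symm h5) h5))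
    exact ⟨Quotient.mk _ (.f a'.out b'.out), EXUn3_symm h6,
      EXUn3_trans (EXUn3_symm h4) (EXUn3_trans h5 (EXUn3_move h0 hi (EXUn3_symm h6)))⟩

end Pool.Agent.P.MP_48d4bc_co.EX
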