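import Mathlib

set_option autoImplicit false

/-! Machines with two counters. -/

namespace Pool.Agent.P.MP_48d4bc_co.EX

/-- instructions: code (1 loop, 2 increment, 3 test and decrement, else halt), counter, targets -/
abbrev Ins := ℕ × Bool × ℕ × ℕ

/-- configurations -/
abbrev Cfg := ℕ × ℕ × ℕ

/-- the instruction at a state -/
def ins (P : List Ins) (q : ℕ) : Ins := P.getD q (0, false, 0, 0)

/-- one step for an instruction -/
def stepI (I : Ins) (c : Cfg) : Cfg :=
  if I.1 = 2 then (I.2.2.1, if I.2.1 then (c.2.1, c.2.2 + 1) else (c.2.1 + 1, c.2.2))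
  else if I.1 = 3 then
    (if I.2.1 then (if c.2.2 = 0 then (I.2.2.1, c.2) else (I.2.2.2, c.2.1, c.2.2 - 1))
      else (if c.2.1 = 0 then (I.2.2.1, c.2) else (I.2.2.2, c.2.1 - 1, c.2.2)))
  else c

/-- one step -/
def step (P : List Ins) (c : Cfg) : Cfg := stepI (ins P c.1) c

/-- the run from the zero configuration -/
def run (P : List Ins) (t : ℕ) : Cfg := (step P)^[t] (0, 0, 0)

/-- the run reaches a loop state -/
def HaltsB (P : List Ins) : Prop := ∃ t, (ins P (run P t).1).1 = 1

end Pool.Agent.P.MP_48d4bc_co.EX
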