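import Mathlib

set_option autoImplicit false

/-! Counter machines, arithmetic machines, and the simulation of the second by the first. -/

namespace Pool.Agent.P.MP_48d4bc_co.EX

open StateTransition Relation Function

/-- instructions of a counter machine -/
inductive CI (Q C : Type)
  | halt
  | inc (c : C) (q : Q)
  | dec (c : C) (q0 q1 : Q)

/-- instructions of an arithmetic machine: `x := k x + a`, and division by `k + 1` with a jump
on the remainder -/
inductive AI (Q C : Type)
  | halt
  | ma (c : C) (k a : ℕ) (q : Q)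
  | dm (c : C) (k : ℕ) (f : ℕ → Q)

/-- one step of a counter machine -/
def cstep {Q C : Type} [DecidableEq C] (M : Q → CI Q C) (s : Q × (C → ℕ)) :
    Option (Q × (C → ℕ)) :=
  match M s.1 with
  | .halt => none
  | .inc c q => some (q, update s.2 c (s.2 c + 1))
  | .dec c q0 q1 => some (if s.2 c = 0 then (q0, s.2) else (q1, update s.2 c (s.2 c - 1)))

/-- one step of an arithmetic machine -/
def astep {Q C : Type} [DecidableEq C] (M : Q → AI Q C) (s : Q × (C → ℕ)) :
    Option (Q × (C → ℕ)) :=
  match M s.1 with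
  | .halt => none
  | .ma c k a q => some (q, update s.2 c (k * s.2 c + a))
  | .dm c k f => some (f (s.2 c % (k + 1)), update s.2 c (s.2 c / (k + 1)))

/-- memory with an empty extra register -/
def lift {C : Type} (x : C → ℕ) : Option C → ℕ := fun o => o.elim 0 x

/-- some finite arithmetic machine has a halting problem whose complement is not r.e. -/
def UndA (C : Type) [DecidableEq C] : Prop :=
  ∃ (Q : Type) (_ : Finite Q) (M : Q → AI Q C) (q0 : Q) (x : ℕ → C → ℕ),
    (∀ c, Primrec fun n => x n c) ∧ ¬ REPred fun n => ¬ (eval (astep M) (q0, x n)).Dom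

/-- the same for counter machines with one more register -/
def UndC (C : Type) [DecidableEq C] : Prop :=
  ∃ (Q : Type) (_ : Finite Q) (M : Q → CI Q (Option C)) (q0 : Q) (x : ℕ → C → ℕ),
    (∀ c, Primrec fun n => x n c) ∧ ¬ REPred fun n => ¬ (eval (cstep M) (q0, lift (x n))).Dom

section
variable {Q C : Type} [DecidableEq C]

/-- memory with two marked registers -/
def mem (x : C → ℕ) (c : C) (u v : ℕ) : Option C → ℕ := fun o => o.elim v (update x c u)

@[simp] theorem mem_some (x : C → ℕ) (c : C) (u v : ℕ) : mem x c u v (some c) = u := by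
  simp [mem]

@[simp] theorem mem_none (x : C → ℕ) (c : C) (u v : ℕ) : mem x c u v none = v := rfl

@[simp] theorem upd_some (x : C → ℕ) (c : C) (u v w : ℕ) :
    update (mem x c u v) (some c) w = mem x c w v := by
  funext o
  rcases o with _ | d
  · simp [mem]
  · by_cases h : d = c
    · subst h; simp [mem]
    · simp [mem, h]

@[simp] theorem upd_none (x : C → ℕ) (c : C) (u v w : ℕ) :
    update (mem x c u v) none w = mem x c u w := by
  funext o
  rcases o with _ | d <;> simp [mem]

theorem mem_zero (x : C → ℕ) (c : C) (u : ℕ) : mem x c u 0 = lift (update x c u) := rfl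

theorem lift_eq (x : C → ℕ) (c : C) : lift x = mem x c (x c) 0 := by
  rw [mem_zero, update_eq_self]

/-- an index below the bound -/
def ix (B i : ℕ) : Fin (B + 1) := Fin.ofNat (B + 1) i

theorem ix_val {B i : ℕ} (h : i ≤ B) : (ix B i).val = i := by
  simp [ix, Nat.mod_eq_of_lt (Nat.lt_succ_of_le h)]

/-- the size of an instruction -/
def AI.sz : AI Q C → ℕ
  | .halt => 0
  | .ma _ k a _ => k + a
  | .dm _ k _ => k + 1

/-- the counter machine that simulates an arithmetic machine -/
def cm (M : Q → AI Q C) (B : ℕ) (s : Q × Fin 4 × Fin (B + 1)) :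
    CI (Q × Fin 4 × Fin (B + 1)) (Option C) :=
  match M s.1 with
  | .halt => .halt
  | .ma c k a q =>
    if s.2.1 = 0 then .dec (some c) (s.1, 2, ix B 0) (s.1, 1, ix B 0)
    else if s.2.1 = 1 then .inc none (s.1, 0, ix B 0)
    else if s.2.1 = 2 then
      (if s.2.2.val = 0 then .dec none (s.1, 3, ix B a) (s.1, 2, ix B k)
        else .inc (some c) (s.1, 2, ix B (s.2.2.val - 1)))
    else
      (if s.2.2.val = 0 then .dec none (q, 0, ix B 0) (q, 0, ix B 0)
        else .inc (some c) (s.1, 3, ix B (s.2.2.val - 1)))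
  | .dm c k f =>
    if s.2.1 = 0 then
      (if s.2.2.val = k + 1 then .inc none (s.1, 0, ix B 0)
        else .dec (some c) (s.1, 1, s.2.2) (s.1, 0, ix B (s.2.2.val + 1)))
    else if s.2.1 = 1 then .dec none (f s.2.2.val, 0, ix B 0) (s.1, 2, s.2.2)
    else .inc (some c) (s.1, 1, s.2.2)

theorem rhead {σ : Type} {f : σ → Option σ} {a b c : σ} (h : f a = some b)
    (h' : Reaches f b c) : Reaches f a c := ReflTransGen.head h h'

theorem rhead₁ {σ : Type} {f : σ → Option σ} {a b c : σ} (h : f a = some b)
    (h' : Reaches f b c) : Reaches₁ f a c := TransGen.head' h h'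

section ma
variable {M : Q → AI Q C} {B : ℕ} {q q' : Q} {c : C} {k a : ℕ} (x : C → ℕ)

theorem ma_move (h : M q = .ma c k a q') (u v : ℕ) :
    Reaches₁ (cstep (cm M B)) ((q, 0, ix B 0), mem x c u v) ((q, 2, ix B 0), mem x c 0 (v + u)) := by
  induction u generalizing v with
  | zero => exact rhead₁ (by simp [cstep, cm, h]) ReflTransGen.refl
  | succ u ih =>
    refine rhead₁ (b := ((q, 1, ix B 0), mem x c u v)) (by simp [cstep, cm, h]) ?_
    refine rhead (b := ((q, 0, ix B 0), mem x c u (v + 1))) (by simp [cstep, cm, h]) ?_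
    have := (ih (v + 1)).to_reflTransGen
    rwa [show v + 1 + u = v + (u + 1) by omega] at this

theorem ma_add (h : M q = .ma c k a q') (p : Fin 4) (hp : p = 2 ∨ p = 3) (i u v : ℕ)
    (hi : i ≤ B) :
    Reaches (cstep (cm M B)) ((q, p, ix B i), mem x c u v) ((q, p, ix B 0), mem x c (u + i) v) := by
  induction i generalizing u with
  | zero => exact ReflTransGen.refl
  | succ i ih =>
    refine rhead (b := ((q, p, ix B i), mem x c (u + 1) v)) ?_ ?_
    · rcases hp with rfl | rfl <;> simp [cstep, cm, h, ix_val hi]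
    · have := ih (u + 1) (by omega)
      rwa [show u + 1 + i = u + (i + 1) by omega] at this

theorem ma_back (h : M q = .ma c k a q') (hk : k ≤ B) (u v : ℕ) :
    Reaches (cstep (cm M B)) ((q, 2, ix B 0), mem x c u v)
      ((q, 3, ix B a), mem x c (u + k * v) 0) := by
  induction v generalizing u with
  | zero => exact rhead (by simp [cstep, cm, h, ix_val]) ReflTransGen.refl
  | succ v ih =>
    refine rhead (b := ((q, 2, ix B k), mem x c u v)) (by simp [cstep, cm, h, ix_val]) ?_
    refine (ma_add x h 2 (Or.inl rfl) k u v hk).trans ?_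
    have := ih (u + k)
    rwa [show u + k + k * v = u + k * (v + 1) by ring] at this

theorem ma_sim (h : M q = .ma c k a q') (hB : k + a ≤ B) :
    Reaches₁ (cstep (cm M B)) ((q, 0, ix B 0), lift x)
      ((q', 0, ix B 0), lift (update x c (k * x c + a))) := by
  rw [lift_eq x c, ← mem_zero]
  refine (ma_move x h _ _).trans_left ((ma_back x h (by omega) _ _).trans
    ((ma_add x h 3 (Or.inr rfl) a _ _ (by omega)).trans (rhead ?_ ReflTransGen.refl)))
  simp [cstep, cm, h, ix_val]

end ma

section dm
variable {M : Q → AI Q C} {B : ℕ} {q : Q} {f : ℕ → Q} {c : C} {k : ℕ} (x : C → ℕ)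

theorem dm_div (h : M q = .dm c k f) (hk : k + 1 ≤ B) (u v i : ℕ) (hi : i ≤ k) :
    Reaches₁ (cstep (cm M B)) ((q, 0, ix B i), mem x c u v)
      ((q, 1, ix B ((i + u) % (k + 1))), mem x c 0 (v + (i + u) / (k + 1))) := by
  induction u generalizing v i with
  | zero =>
    have h1 : i % (k + 1) = i := Nat.mod_eq_of_lt (by omega)
    have h2 : i / (k + 1) = 0 := Nat.div_eq_of_lt (by omega)
    have h3 : i ≠ k + 1 := by omega
    exact rhead₁ (by simp [cstep, cm, h, ix_val (show i ≤ B by omega), h1, h2, h3])
      ReflTransGen.refl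
  | succ u ih =>
    have h3 : i ≠ k + 1 := by omega
    refine rhead₁ (b := ((q, 0, ix B (i + 1)), mem x c u v))
      (by simp [cstep, cm, h, ix_val (show i ≤ B by omega), h3]) ?_
    by_cases hik : i = k
    · subst hik
      refine rhead (b := ((q, 0, ix B 0), mem x c u (v + 1)))
        (by simp [cstep, cm, h, ix_val hk]) ?_
      have := (ih (v + 1) 0 (by omega)).to_reflTransGen
      have e1 : (i + (u + 1)) % (i + 1) = (0 + u) % (i + 1) := by
        rw [show i + (u + 1) = u + (i + 1) by omega, Nat.add_mod_right, Nat.zero_add]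
      have e2 : v + (i + (u + 1)) / (i + 1) = v + 1 + (0 + u) / (i + 1) := by
        rw [show i + (u + 1) = u + (i + 1) by omega, Nat.add_div_right _ (by omega), Nat.zero_add]
        omega
      rwa [e1, e2]
    · have := (ih v (i + 1) (by omega)).to_reflTransGen
      rwa [show i + 1 + u = i + (u + 1) by omega] at this

theorem dm_back (h : M q = .dm c k f) (r : Fin (B + 1)) (u v : ℕ) :
    Reaches (cstep (cm M B)) ((q, 1, r), mem x c u v) ((f r.val, 0, ix B 0), mem x c (u + v) 0) := by
  induction v generalizing u with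
  | zero => exact rhead (by simp [cstep, cm, h]) ReflTransGen.refl
  | succ v ih =>
    refine rhead (b := ((q, 2, r), mem x c u v)) (by simp [cstep, cm, h]) ?_
    refine rhead (b := ((q, 1, r), mem x c (u + 1) v)) (by simp [cstep, cm, h]) ?_
    have := ih (u + 1)
    rwa [show u + 1 + v = u + (v + 1) by omega] at this

theorem dm_sim (h : M q = .dm c k f) (hB : k + 1 ≤ B) :
    Reaches₁ (cstep (cm M B)) ((q, 0, ix B 0), lift x)
      ((f (x c % (k + 1)), 0, ix B 0), lift (update x c (x c / (k + 1)))) := by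
  rw [lift_eq x c, ← mem_zero]
  refine (dm_div x h hB _ _ 0 (by omega)).trans_left ?_
  have := dm_back (B := B) x h (ix B ((0 + x c) % (k + 1))) 0 (0 + (0 + x c) / (k + 1))
  have hl : (0 + x c) % (k + 1) ≤ B := by
    have := Nat.mod_lt (0 + x c) (show k + 1 > 0 by omega)
    omega
  rw [ix_val hl] at this
  simp only [Nat.zero_add] at this ⊢
  exact this

end dm

theorem undC_of_undA (h : UndA C) : UndC C := by
  obtain ⟨Q, _, M, q0, x, hx, hU⟩ := h
  obtain ⟨B, hB⟩ : ∃ B, ∀ q, (M q).sz ≤ B := by
    obtain ⟨B, hB⟩ := (Set.finite_range fun q => (M q).sz).bddAbove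
    exact ⟨B, fun q => hB ⟨q, rfl⟩⟩
  have hR : Respects (astep M) (cstep (cm M B))
      (fun s t => t = ((s.1, 0, ix B 0), lift s.2)) := by
    rintro ⟨q, y⟩ _ rfl
    have hq := hB q
    rcases h : M q with _ | ⟨c, k, a, q'⟩ | ⟨c, k, f⟩
    · simp [astep, cstep, cm, h]
    · rw [h] at hq
      simp only [astep, h]
      exact ⟨_, rfl, ma_sim y h hq⟩
    · rw [h] at hq
      simp only [astep, h]
      exact ⟨_, rfl, dm_sim y h hq⟩
  refine ⟨Q × Fin 4 × Fin (B + 1), inferInstance, cm M B, (q0, 0, ix B 0), x, hx, ?_⟩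
  have : ∀ n, (eval (cstep (cm M B)) ((q0, 0, ix B 0), lift (x n))).Dom ↔
      (eval (astep M) (q0, x n)).Dom := fun n => tr_eval_dom hR rfl
  simpa only [this] using hU

end

end Pool.Agent.P.MP_48d4bc_co.EX
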