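import Mathlib
import Pool.Agent.P.MP_067fd8_lc.TM
import Pool.Agent.P.MP_48d4bc_co.EXW1

set_option autoImplicit false

/-! Tapes as two numbers, and three counters as one number. -/

namespace Pool.Agent.P.MP_48d4bc_co.EX

open StateTransition Relation Function Turing

/-- a list of digits as a number, lowest digit first -/
def enc (b : ℕ) (l : List ℕ) : ℕ := l.foldr (fun a s => b * s + a) 0

theorem enc_cons (b a : ℕ) (l : List ℕ) : enc b (a :: l) = b * enc b l + a := rfl

theorem enc_pop {G : Type} [Inhabited G] (χ : G → ℕ) (k : ℕ) (h0 : χ default = 0)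
    (hk : ∀ a, χ a ≤ k) (l : List G) :
    enc (k + 1) (l.map χ) % (k + 1) = χ l.headI ∧
      enc (k + 1) (l.map χ) / (k + 1) = enc (k + 1) (l.tail.map χ) := by
  rcases l with _ | ⟨a, l⟩
  · simp [enc, h0]
  · have := hk a
    simp only [List.map_cons, enc_cons, List.headI_cons, List.tail_cons]
    constructor
    · rw [Nat.mul_add_mod, Nat.mod_eq_of_lt (by omega)]
    · rw [Nat.mul_add_div (by omega), Nat.div_eq_of_lt (by omega), Nat.add_zero]

open Classical in
/-- a state of the support -/
noncomputable def cl {Λ : Type} (S : Finset Λ) (q0 : S) (q : Λ) : S :=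
  if h : q ∈ S then ⟨q, h⟩ else q0

/-- the arithmetic machine that simulates a Turing machine -/
noncomputable def tmA {G Λ : Type} [Inhabited Λ] (M : TM0.Machine G Λ) (S : Finset Λ) (χ : G → ℕ)
    (ψ : ℕ → G) (k : ℕ) (s : S × (G ⊕ Bool)) : AI (S × (G ⊕ Bool)) Bool :=
  match s.2 with
  | .inl a =>
    match M s.1.1 a with
    | none => .halt
    | some (q', .write a') => .ma false 1 0 (cl S s.1 q', .inl a')
    | some (q', .move .left) => .ma true (k + 1) (χ a) (cl S s.1 q', .inr false)
    | some (q', .move .right) => .ma false (k + 1) (χ a) (cl S s.1 q', .inr true)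
  | .inr d => .dm d k (fun r => (s.1, .inl (ψ r)))

theorem undA_bool : UndA Bool := by
  classical
  obtain ⟨G, Λ, _, _, _, M, S, c₀, R, hS, hR, hU⟩ := MP_067fd8_lc.tm0_undec
  obtain ⟨χ, k, h0, hk, hinj⟩ : ∃ (χ : G → ℕ) (k : ℕ), χ default = 0 ∧ (∀ a, χ a ≤ k) ∧
      Injective χ := by
    obtain ⟨m, ⟨e⟩⟩ := Finite.exists_equiv_fin G
    refine ⟨fun a => if a = default then 0 else (e a).val + 1, m, by simp, fun a => ?_, ?_⟩
    · have := (e a).2
      by_cases h : a = default <;> simp [h]
    · intro a b hab
      by_cases ha : a = default <;> by_cases hb : b = default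
      · rw [ha, hb]
      · simp [ha, hb] at hab
      · simp [ha, hb] at hab
      · simp only [ha, hb, if_false, Nat.add_right_cancel_iff] at hab
        exact e.injective (Fin.ext hab)
  have hψ : ∀ a, invFun χ (χ a) = a := leftInverse_invFun hinj
  have hRes : Respects (TM0.step M) (astep (tmA M S χ (invFun χ) k))
      (fun c s => ∃ (hq : c.q ∈ S) (l r : List G), s.1 = (⟨c.q, hq⟩, .inl c.Tape.head) ∧
        c.Tape.left = ListBlank.mk l ∧ c.Tape.right = ListBlank.mk r ∧
        s.2 false = enc (k + 1) (l.map χ) ∧ s.2 true = enc (k + 1) (r.map χ)) := by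
    rintro ⟨q, a, L, R'⟩ ⟨s, x⟩ ⟨hq, l, r, h1, h2, h3, h4, h5⟩
    simp only at h1 h2 h3 h4 h5 hq
    subst h1 h2 h3
    rcases h : M q a with _ | ⟨q', st⟩
    · simp [TM0.step, astep, tmA, h]
    · have hq' : q' ∈ S := hS.2 (show (q', st) ∈ M q a from h) hq
      have hcl : cl S ⟨q, hq⟩ q' = ⟨q', hq'⟩ := by simp [cl, hq']
      simp only [TM0.step, h, Option.map_some]
      rcases st with (_ | _) | a'
      · obtain ⟨e1, e2⟩ := enc_pop χ k h0 hk l
        refine ⟨((⟨q', hq'⟩, .inl l.headI), update (update x true ((k + 1) * x true + χ a)) false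
          (x false / (k + 1))), ⟨hq', l.tail, a :: r, ?_, ?_, ?_, ?_, ?_⟩, ?_⟩
        · simp [Tape.move]
        · simp [Tape.move]
        · simp [Tape.move]
        · simp [h4, e2]
        · simp [h5, enc_cons]
        · refine rhead₁ (b := ((⟨q', hq'⟩, .inr false), update x true ((k + 1) * x true + χ a)))
            (by simp [astep, tmA, h, hcl]) (rhead ?_ ReflTransGen.refl)
          simp [astep, tmA, h4, e1, hψ]
      · obtain ⟨e1, e2⟩ := enc_pop χ k h0 hk r
        refine ⟨((⟨q', hq'⟩, .inl r.headI), update (update x false ((k + 1) * x false + χ a)) true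
          (x true / (k + 1))), ⟨hq', a :: l, r.tail, ?_, ?_, ?_, ?_, ?_⟩, ?_⟩
        · simp [Tape.move]
        · simp [Tape.move]
        · simp [Tape.move]
        · simp [h4, enc_cons]
        · simp [h5, e2]
        · refine rhead₁ (b := ((⟨q', hq'⟩, .inr true), update x false ((k + 1) * x false + χ a)))
            (by simp [astep, tmA, h, hcl]) (rhead ?_ ReflTransGen.refl)
          simp [astep, tmA, h5, e1, hψ]
      · refine ⟨((⟨q', hq'⟩, .inl a'), x), ⟨hq', l, r, ?_, ?_, ?_, h4, h5⟩, ?_⟩
        · simp [Tape.write]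
        · simp [Tape.write]
        · simp [Tape.write]
        · exact rhead₁ (by simp [astep, tmA, h, hcl]) ReflTransGen.refl
  refine ⟨S × (G ⊕ Bool), inferInstance, tmA M S χ (invFun χ) k, (⟨default, hS.1⟩, .inl c₀),
    fun n d => cond d (enc (k + 1) ((R n).map χ)) 0, ?_, ?_⟩
  · rintro (_ | _)
    · exact Primrec.const 0
    · have := hR ℕ χ
      simp only [cond_true, enc]
      fun_prop
  · have : ∀ n, (eval (astep (tmA M S χ (invFun χ) k)) ((⟨default, hS.1⟩, .inl c₀),
        fun d => cond d (enc (k + 1) ((R n).map χ)) 0)).Dom ↔ (TM0.eval M (c₀ :: R n)).Dom := by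
      intro n
      refine (tr_eval_dom hRes (a₁ := TM0.init (c₀ :: R n)) ⟨hS.1, [], R n, ?_, ?_, ?_, ?_, ?_⟩).trans
        Iff.rfl
      · simp [TM0.init, Tape.mk₁, Tape.mk₂]
      · simp [TM0.init, Tape.mk₁, Tape.mk₂]
      · simp [TM0.init, Tape.mk₁, Tape.mk₂]
      · simp [enc]
      · simp
    simpa only [this] using hU

/-- the prime of a register, minus one -/
def pr : Option Bool → ℕ
  | none => 1
  | some false => 2
  | some true => 4

/-- three registers in one number -/
def gd (x : Option Bool → ℕ) : ℕ := 2 ^ x none * 3 ^ x (some false) * 5 ^ x (some true)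

theorem gd_inc (x : Option Bool → ℕ) (c : Option Bool) :
    gd (update x c (x c + 1)) = (pr c + 1) * gd x := by
  rcases c with _ | _ | _ <;> simp [gd, pr] <;> ring

theorem gd_zero (x : Option Bool → ℕ) (c : Option Bool) (h : x c = 0) :
    gd x % (pr c + 1) ≠ 0 := by
  intro hd
  have hd := Nat.dvd_of_mod_eq_zero hd
  have key : Nat.Coprime (pr c + 1) (gd x) := by
    rcases c with _ | _ | _ <;> simp only [gd, pr, h, pow_zero, one_mul, mul_one] <;>
      apply Nat.Coprime.mul_right <;> apply Nat.Coprime.pow_right <;> norm_num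
  have := key.eq_one_of_dvd hd
  rcases c with _ | _ | _ <;> simp [pr] at this

/-- the arithmetic machine on one number that simulates three counters -/
def gdA {Q : Type} (M : Q → CI Q (Option Bool)) (s : Q × Fin 5) : AI (Q × Fin 5) Unit :=
  match M s.1 with
  | .halt => .halt
  | .inc c q => .ma () (pr c + 1) 0 (q, 0)
  | .dec c q0 q1 =>
    if s.2 = 0 then .dm () (pr c) (fun r => if r = 0 then (q1, 0) else (s.1, ix 4 r))
    else .ma () (pr c + 1) s.2.val (q0, 0)

theorem undA_unit (h : UndC Bool) : UndA Unit := by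
  obtain ⟨Q, _, M, q0, x, hx, hU⟩ := h
  have hR : Respects (cstep M) (astep (gdA M)) (fun s t => t = ((s.1, 0), fun _ => gd s.2)) := by
    rintro ⟨q, y⟩ _ rfl
    rcases h : M q with _ | ⟨c, q'⟩ | ⟨c, q0, q1⟩
    · simp [astep, cstep, gdA, h]
    · simp only [cstep, h]
      refine ⟨_, rfl, rhead₁ ?_ ReflTransGen.refl⟩
      simp only [astep, gdA, h, gd_inc]
      congr 2
    · simp only [cstep, h]
      refine ⟨_, rfl, ?_⟩
      by_cases hc : y c = 0
      · have h1 := gd_zero y c hc
        have h2 : gd y % (pr c + 1) ≤ 4 := by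
          have := Nat.mod_lt (gd y) (show pr c + 1 > 0 by omega)
          have : pr c ≤ 4 := by rcases c with _ | _ | _ <;> simp [pr]
          omega
        have h3 : ix 4 (gd y % (pr c + 1)) ≠ 0 := by
          intro e
          have := congrArg Fin.val e
          rw [ix_val h2] at this
          exact h1 this
        refine rhead₁ (b := ((q, ix 4 (gd y % (pr c + 1))), fun _ => gd y / (pr c + 1))) ?_
          (rhead ?_ ReflTransGen.refl)
        · simp only [astep, gdA, h, if_true, h1, if_false]
          congr 2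
        · simp only [astep, gdA, h, h3, if_false, hc, if_true, ix_val h2]
          congr 2
          funext u
          exact Nat.div_add_mod _ _
      · have h1 : gd y = (pr c + 1) * gd (update y c (y c - 1)) := by
          rw [← gd_inc]
          congr 1
          simp only [update_self, update_idem]
          rw [show y c - 1 + 1 = y c by omega, update_eq_self]
        refine rhead₁ ?_ ReflTransGen.refl
        have h2 : gd y % (pr c + 1) = 0 := by rw [h1]; exact Nat.mul_mod_right _ _
        have h3 : gd y / (pr c + 1) = gd (update y c (y c - 1)) := by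
          rw [h1]; exact Nat.mul_div_cancel_left _ (by omega)
        simp only [astep, gdA, h, if_true, h2, h3, hc, if_false]
        congr 2
  refine ⟨Q × Fin 5, inferInstance, gdA M, (q0, 0), fun n _ => gd (lift (x n)), ?_, ?_⟩
  · intro _
    have hp : Primrec₂ (fun a b : ℕ => a ^ b) := Primrec₂.unpaired'.1 Nat.Primrec.pow
    exact Primrec.nat_mul.comp (Primrec.nat_mul.comp (Primrec.const (2 ^ 0))
      (hp.comp (Primrec.const 3) (hx false))) (hp.comp (Primrec.const 5) (hx true))
  · have : ∀ n, (eval (astep (gdA M)) ((q0, 0), fun _ => gd (lift (x n)))).Dom ↔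
        (eval (cstep M) (q0, lift (x n))).Dom := fun n => tr_eval_dom hR rfl
    simpa only [this] using hU

theorem undC_unit : UndC Unit := undC_of_undA (undA_unit (undC_of_undA undA_bool))

end Pool.Agent.P.MP_48d4bc_co.EX
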