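import Mathlib
import Pool.Agent.P.MP_48d4bc_co.EXRun
import Pool.Agent.P.MP_48d4bc_co.EXW2

set_option autoImplicit false

/-! Programs with two counters started at zero: reaching a loop state has a complement that is
not r.e. -/

namespace Pool.Agent.P.MP_48d4bc_co.EX

open StateTransition Relation Function Pool.Agent.Lib.PrimrecProp

/-- the step that stops at loop states -/
def lstep (P : List Ins) (c : Cfg) : Option Cfg :=
  if (ins P c.1).1 = 1 then none else some (step P c)

theorem reaches_iter (P : List Ins) {c d : Cfg} (h : Reaches (lstep P) c d) :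
    ∃ t, d = (step P)^[t] c := by
  induction h with
  | refl => exact ⟨0, rfl⟩
  | @tail b d _ hbd ih =>
    obtain ⟨t, rfl⟩ := ih
    refine ⟨t + 1, ?_⟩
    rw [iterate_succ_apply']
    have hbd : lstep P _ = some d := hbd
    unfold lstep at hbd
    split_ifs at hbd
    exact (Option.some.inj hbd).symm

theorem dom_iff (P : List Ins) (c : Cfg) :
    (eval (lstep P) c).Dom ↔ ∃ t, (ins P ((step P)^[t] c).1).1 = 1 := by
  constructor
  · intro h
    obtain ⟨h1, h2⟩ := mem_eval.1 (Part.get_mem h)
    obtain ⟨t, ht⟩ := reaches_iter P h1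
    refine ⟨t, ?_⟩
    rw [← ht]
    by_contra hne
    simp [lstep, hne] at h2
  · rintro ⟨t, ht⟩
    induction t generalizing c with
    | zero =>
      exact (mem_eval.2 ⟨ReflTransGen.refl, show lstep P c = none by
        simpa [lstep] using ht⟩ : c ∈ eval (lstep P) c).1
    | succ t ih =>
      by_cases h : (ins P c.1).1 = 1
      · exact (mem_eval.2 ⟨ReflTransGen.refl, show lstep P c = none by
          simp [lstep, h]⟩ : c ∈ eval (lstep P) c).1
      · have h1 : Reaches (lstep P) c (step P c) :=
          rhead (by simp [lstep, h]) ReflTransGen.refl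
        rw [reaches_eval h1]
        exact ih _ ht

/-- an instruction with numbered states -/
def toIns {Q : Type} (e : Q → ℕ) : CI Q (Option Unit) → Ins
  | .halt => (1, false, 0, 0)
  | .inc c q => (2, c.isNone, e q + 1, 0)
  | .dec c q0 q1 => (3, c.isNone, e q0 + 1, e q1 + 1)

/-- jump to the loader, the fixed machine, the loader, jump to the start state -/
def prog (U : List Ins) (s N : ℕ) : List Ins :=
  ((3, true, U.length + 1, U.length + 1) :: U) ++
    ((List.range N).map (fun i => (2, false, U.length + 2 + i, 0)) ++ [(3, true, s, s)])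

theorem ins_zero (U : List Ins) (s N : ℕ) :
    ins (prog U s N) 0 = (3, true, U.length + 1, U.length + 1) := rfl

theorem ins_mid (U : List Ins) (s N j : ℕ) (hj : j < U.length) :
    ins (prog U s N) (j + 1) = U[j] := by
  simp [ins, prog, List.getElem?_append_left hj, List.getElem?_eq_getElem hj]

theorem ins_load (U : List Ins) (s N i : ℕ) (hi : i < N) :
    ins (prog U s N) (U.length + 1 + i) = (2, false, U.length + 2 + i, 0) := by
  unfold ins prog
  rw [List.getD_append_right _ _ _ _ (by simp), List.getD_append _ _ _ _ (by simp; omega)]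
  simp [hi]

theorem ins_end (U : List Ins) (s N : ℕ) :
    ins (prog U s N) (U.length + 1 + N) = (3, true, s, s) := by
  unfold ins prog
  rw [List.getD_append_right _ _ _ _ (by simp), List.getD_append_right _ _ _ _ (by simp)]
  simp

theorem load (U : List Ins) (s N : ℕ) : Reaches (lstep (prog U s N)) (0, 0, 0) (s, N, 0) := by
  have key : ∀ i ≤ N, Reaches (lstep (prog U s N)) (U.length + 1, 0, 0)
      (U.length + 1 + i, i, 0) := by
    intro i
    induction i with
    | zero => intro _; exact ReflTransGen.refl
    | succ i ih =>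
      intro hi
      refine (ih (by omega)).trans (rhead ?_ ReflTransGen.refl)
      simp only [lstep, step, ins_load U s N i (by omega), stepI]
      simp
      omega
  refine rhead (b := (U.length + 1, 0, 0)) (by simp [lstep, step, ins_zero, stepI])
    ((key N le_rfl).trans (rhead ?_ ReflTransGen.refl))
  simp only [lstep, step, ins_end, stepI]
  simp

theorem exists_prog : ∃ Pr : ℕ → List Ins, Primrec Pr ∧ (∀ e, Pr e ≠ []) ∧
    ¬ REPred (fun e => ¬ HaltsB (Pr e)) := by
  obtain ⟨Q, _, M, q0, x, hx, hU⟩ := undC_unit
  obtain ⟨m, ⟨e⟩⟩ := Finite.exists_equiv_fin Q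
  let U : List Ins := List.ofFn fun i : Fin m => toIns (fun q => (e q).val) (M (e.symm i))
  have hins : ∀ s N q, ins (prog U s N) ((e q).val + 1) = toIns (fun q => (e q).val) (M q) := by
    intro s N q
    rw [ins_mid U s N _ (by simp [U])]
    simp [U]
  have hR : ∀ s N, Respects (cstep M) (lstep (prog U s N))
      (fun a c => c = ((e a.1).val + 1, a.2 (some ()), a.2 none)) := by
    rintro s N ⟨q, y⟩ _ rfl
    rcases h : M q with _ | ⟨c, q'⟩ | ⟨c, q1, q2⟩
    · simp [cstep, lstep, h, hins, toIns]
    · simp only [cstep, h]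
      refine ⟨_, rfl, rhead₁ ?_ ReflTransGen.refl⟩
      rcases c with _ | _ <;> simp [lstep, step, stepI, h, hins, toIns]
    · simp only [cstep, h]
      refine ⟨_, rfl, rhead₁ ?_ ReflTransGen.refl⟩
      rcases c with _ | _
      · by_cases hy : y none = 0 <;> simp [lstep, step, stepI, h, hins, toIns, hy]
      · by_cases hy : y (some ()) = 0 <;> simp [lstep, step, stepI, h, hins, toIns, hy]
  refine ⟨fun n => prog U ((e q0).val + 1) (x n ()), ?_, fun n => by simp [prog], ?_⟩
  · have := hx ()
    unfold prog
    fun_prop
  · have : ∀ n, HaltsB (prog U ((e q0).val + 1) (x n ())) ↔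
        (eval (cstep M) (q0, lift (x n))).Dom := by
      intro n
      rw [← tr_eval_dom (hR ((e q0).val + 1) (x n ())) (a₁ := (q0, lift (x n))) rfl]
      refine (dom_iff _ (0, 0, 0)).symm.trans ?_
      rw [reaches_eval (load U _ _)]
      rfl
    simpa only [this] using hU

end Pool.Agent.P.MP_48d4bc_co.EX
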