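import Pool.Agent.P.MP_48d4bc_co.EXBridge
import Pool.Agent.P.MP_48d4bc_co.EXHost
import Pool.Agent.P.MP_48d4bc_co.EXUn2
import Pool.Agent.P.MP_48d4bc_co.EXUn3
import Pool.Agent.P.MP_48d4bc_co.EXM6
import Pool.Agent.P.MP_48d4bc_co.EXD1
import Pool.Agent.P.MP_48d4bc_co.EXD2
import Pool.Agent.P.MP_48d4bc_co.EXC
import Pool.Agent.P.MP_48d4bc_co.EXW3

set_option autoImplicit false

/-! The exceptional pairs are not recursively enumerable. -/

namespace Pool.Agent.P.MP_48d4bc_co.EX

open Set Function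

universe u

theorem exc_iff_run {P : List Ins} (hP : P ≠ []) :
    Exceptional.{u} GG (graphOf (sig P).size (sig P).code) ↔ ¬ HaltsB P := by
  rw [(sig_wf hP).exc_iff]
  refine ⟨fun h => ?_, fun h => (sig_wf hP).p1 (gmodel hP h)⟩
  obtain ⟨M⟩ := (sig_wf hP).model ((sig_wf hP).stage h)
  obtain ⟨M'⟩ := am_of_model M hP
  obtain ⟨E⟩ := M'.eng
  exact E.not_halts

theorem re_comp {α β : Type} [Primcodable α] [Primcodable β] {p : β → Prop} {q : α → Prop}
    {f : α → β} (h : REPred p) (hf : Computable f) (e : ∀ a, p (f a) ↔ q a) : REPred q := by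
  rw [← funext fun a => propext (e a)]
  exact Partrec.comp h hf

theorem not_re : ¬ REPred fun p : ℕ × List (ℕ × ℕ) => Exceptional.{u} GG (graphOf p.1 p.2) := by
  obtain ⟨Pr, h1, h2, h3⟩ := exists_prog
  exact fun h => h3 (re_comp h (prim_code.comp h1).to_comp fun e => exc_iff_run (h2 e))

end Pool.Agent.P.MP_48d4bc_co.EX
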