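import Pool.Agent.P.MP_48d4bc_co.EXStr

set_option autoImplicit false

/-! The partite lemma from the Hales-Jewett theorem. -/

namespace Pool.Agent.P.MP_48d4bc_co.EX

open Set Function

section

variable {A ty : Type} (T : Tpl A ty) (α : ty) (Q : Str A ty) (ι : Type)

/-- the section of a word -/
def EXHJ_sec (p : ι → Q.Sec α) (a : A) : A × (ι → Q.W) := (a, fun k => (p k).1 a)

/-- the power of a structure -/
@[reducible] def EXHJ_pow : Str A ty :=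
  ⟨A × (ι → Q.W), fun u v z => T.R α u.1 v.1 z.1 ∧ ∀ k, Q.R (u.2 k) (v.2 k) (z.2 k),
    fun β => {τ | β = α ∧ ∃ p, τ = EXHJ_sec α Q ι p}⟩

/-- the copy of a line -/
def EXHJ_emb (t : Q.W → A) (l : Combinatorics.Line (Q.Sec α) ι) (w : Q.W) : A × (ι → Q.W) :=
  (t w, fun k => (l.idxFun k).elim w fun σ => σ.1 (t w))

variable {T α Q ι}

theorem EXHJ_uniq (hQ : Good T Q) (σ τ : Q.Sec α) (hx : τ.1 T.x = σ.1 T.x)
    (hy : τ.1 T.y = σ.1 T.y) : τ.1 = σ.1 :=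
  ((hQ.str α σ.1 σ.2).uniq τ.2 ⟨_, hx.symm⟩ ⟨_, hy.symm⟩).2

theorem EXHJ_good [Finite A] [Finite ι] (hQ : Good T Q) : Good T (EXHJ_pow T α Q ι) := by
  have := hQ.fin
  refine ⟨inferInstance, fun u v z z' h h' => Prod.ext (T.fn α _ _ _ _ h.1 h'.1)
    (funext fun k => hQ.fn _ _ _ _ (h.2 k) (h'.2 k)), ?_⟩
  rintro β τ ⟨rfl, p, rfl⟩
  refine ⟨⟨fun a b c h => ⟨h, fun k => (hQ.str β _ (p k).2).hom.rel a b c h⟩, ?_⟩,
    fun a b h => congrArg Prod.fst h, fun a b z h => ⟨z.1, h.1, Prod.ext rfl (funext fun k => ?_)⟩,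
    ?_⟩
  · rintro γ σ ⟨rfl, rfl⟩
    exact ⟨rfl, p, rfl⟩
  · exact hQ.fn _ _ _ _ (h.2 k) ((hQ.str β _ (p k).2).hom.rel a b z.1 h.1)
  · rintro γ τ ⟨rfl, q, rfl⟩ ⟨a, ha⟩ ⟨b, hb⟩
    have h1 : a = T.x := congrArg Prod.fst ha
    have h2 : b = T.y := congrArg Prod.fst hb
    subst h1 h2
    refine ⟨id, ⟨rfl, rfl⟩, funext fun c => Prod.ext rfl (funext fun k => ?_)⟩
    exact congrFun (EXHJ_uniq hQ (p k) (q k) (congrFun (congrArg Prod.snd ha) k).symm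
      (congrFun (congrArg Prod.snd hb) k).symm) c

theorem EXHJ_comp {t : Q.W → A} (ht : Hom Q (T.str α) t) (l : Combinatorics.Line (Q.Sec α) ι)
    (σ : Q.Sec α) : EXHJ_emb α Q ι t l ∘ σ.1 = EXHJ_sec α Q ι (l σ) := by
  funext a
  have h := ht.sec_id σ.2 a
  refine Prod.ext h (funext fun k => ?_)
  simp only [EXHJ_emb, EXHJ_sec, Function.comp, h, Combinatorics.Line.coe_apply]
  cases l.idxFun k <;> rfl

theorem EXHJ_strong (hQ : Good T Q) {t : Q.W → A} (ht : Hom Q (T.str α) t)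
    (l : Combinatorics.Line (Q.Sec α) ι) :
    Strong T Q (EXHJ_pow T α Q ι) (EXHJ_emb α Q ι t l) := by
  obtain ⟨k₀, hk₀⟩ := l.proper
  have h0 : ∀ w, (EXHJ_emb α Q ι t l w).2 k₀ = w := fun w => by simp [EXHJ_emb, hk₀]
  have hrel : ∀ a b c, Q.R a b c → ∀ k, Q.R ((EXHJ_emb α Q ι t l a).2 k)
      ((EXHJ_emb α Q ι t l b).2 k) ((EXHJ_emb α Q ι t l c).2 k) := by
    intro a b c h k
    simp only [EXHJ_emb]
    cases l.idxFun k with
    | none => exact h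
    | some σ => exact (hQ.str α _ σ.2).hom.rel _ _ _ (ht.rel a b c h)
  refine ⟨⟨fun a b c h => ⟨ht.rel a b c h, hrel a b c h⟩, fun β σ hσ => ?_⟩,
    fun a b h => by rw [← h0 a, h, h0 b], fun a b z h => ?_, ?_⟩
  · obtain rfl := ht.sec_ty hσ
    exact ⟨rfl, l ⟨σ, hσ⟩, EXHJ_comp ht l ⟨σ, hσ⟩⟩
  · have h1 : Q.R a b (z.2 k₀) := by
      have := h.2 k₀
      rwa [h0, h0] at this
    exact ⟨z.2 k₀, h1, Prod.ext (T.fn α _ _ _ _ h.1 (ht.rel _ _ _ h1))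
      (funext fun k => hQ.fn _ _ _ _ (h.2 k) (hrel _ _ _ h1 k))⟩
  · rintro β τ ⟨rfl, p, rfl⟩ ⟨a, ha⟩ ⟨b, hb⟩
    refine ⟨(p k₀).1, (p k₀).2, ?_⟩
    rw [EXHJ_comp ht l (p k₀)]
    have a1 : t a = T.x := congrArg Prod.fst ha
    have b1 : t b = T.y := congrArg Prod.fst hb
    have a2 : a = (p k₀).1 T.x := (h0 a).symm.trans (congrFun (congrArg Prod.snd ha) k₀)
    have b2 : b = (p k₀).1 T.y := (h0 b).symm.trans (congrFun (congrArg Prod.snd hb) k₀)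
    refine funext fun c => Prod.ext rfl (funext fun k => ?_)
    have a3 : (l.idxFun k).elim a (fun σ => σ.1 (t a)) = (p k).1 T.x :=
      congrFun (congrArg Prod.snd ha) k
    have b3 : (l.idxFun k).elim b (fun σ => σ.1 (t b)) = (p k).1 T.y :=
      congrFun (congrArg Prod.snd hb) k
    rw [a1] at a3
    rw [b1] at b3
    refine congrFun (EXHJ_uniq hQ (l (p k₀) k) (p k) ?_ ?_) c
    · rw [← a3, Combinatorics.Line.coe_apply]
      cases l.idxFun k with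
      | none => exact a2
      | some σ => rfl
    · rw [← b3, Combinatorics.Line.coe_apply]
      cases l.idxFun k with
      | none => exact b2
      | some σ => rfl

end

theorem rb_one {A ty : Type} [Finite A] (T : Tpl A ty) (κ : Type) [Finite κ] : RB T κ 1 := by
  intro α Q t hQ ht
  have := hQ.fin
  obtain ⟨ι, _, hι⟩ := Combinatorics.Line.exists_mono_in_high_dimension (Q.Sec α) κ
  refine ⟨⟨EXHJ_pow T α Q ι, EXHJ_good hQ, Combinatorics.Line (Q.Sec α) ι,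
    Finite.of_injective (fun l => l.idxFun) fun _ _ h => Combinatorics.Line.ext h,
    EXHJ_emb α Q ι t, EXHJ_strong hQ ht⟩, Prod.fst, ⟨fun a b c h => h.1, ?_⟩, fun _ _ => rfl,
    fun c => ?_, fun X h1 h2 => by omega⟩
  · rintro β τ ⟨rfl, p, rfl⟩
    exact ⟨rfl, rfl⟩
  · obtain ⟨l, k, hl⟩ := hι fun p => c (EXHJ_sec α Q ι p)
    refine ⟨l, fun _ => k, fun β σ hσ => ?_⟩
    obtain rfl := ht.sec_ty hσ
    exact (congrArg c (EXHJ_comp ht l ⟨σ, hσ⟩)).trans (hl ⟨σ, hσ⟩)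

end Pool.Agent.P.MP_48d4bc_co.EX
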