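import Pool.Agent.P.MP_48d4bc_co.EXGam

set_option autoImplicit false

/-! The operation of a graph without the forbidden subgraph. -/

namespace Pool.Agent.P.MP_48d4bc_co.EX

open Set Function Pool.Agent.Lib.PrimrecProp

universe u

theorem EXKer_uniq {W : Type u} {H : SimpleGraph W} (h : GG.Free H)
    (ψ ψ' : Fin 8 → Gam.Copy H) (u v w w' : W)
    (h1 : ∀ m, ψ m 0 = u ∧ ψ m 1 = v ∧ ψ m 2 = w)
    (h2 : ∀ (m m' : Fin 8) (a b : Fin 9), 3 ≤ a.1 → 3 ≤ b.1 → ψ m a = ψ m' b → m = m')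
    (h1' : ∀ m, ψ' m 0 = u ∧ ψ' m 1 = v ∧ ψ' m 2 = w')
    (h2' : ∀ (m m' : Fin 8) (a b : Fin 9), 3 ≤ a.1 → 3 ≤ b.1 → ψ' m a = ψ' m' b → m = m') :
    w = w' := by
  classical
  by_contra hne
  have hm : ∃ m : Fin 8, ∀ a : Fin 9, 3 ≤ a.1 → ψ m a ≠ w' := by
    by_contra hc
    push Not at hc
    obtain ⟨a, ha, e⟩ := hc 0
    obtain ⟨b, hb, e'⟩ := hc 1
    have := h2 0 1 a b ha hb (e.trans e'.symm)
    exact absurd this (by decide)
  obtain ⟨m, hm⟩ := hm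
  have key : ∀ m' : Fin 8, ∃ a b : Fin 9, 2 ≤ a.1 ∧ 3 ≤ b.1 ∧ ψ m a = ψ' m' b := by
    intro m'
    obtain ⟨a, b, ha, hb, e⟩ := gg_free.1 h (ψ m) (ψ' m')
      ((h1 m).1.trans (h1' m').1.symm) ((h1 m).2.1.trans (h1' m').2.1.symm)
    refine ⟨a, b, ha, ?_, e⟩
    by_contra hb3
    have hb2 : b = 2 := Fin.ext (by simp; omega)
    rw [hb2, (h1' m').2.2] at e
    by_cases ha3 : 3 ≤ a.1
    · exact hm a ha3 e
    · have ha2 : a = 2 := Fin.ext (by simp; omega)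
      rw [ha2, (h1 m).2.2] at e
      exact hne e
  choose a b ha hb e using key
  have hinj : Injective (fun m' : Fin 8 => (⟨(a m').1 - 2, by have := (a m').2; omega⟩ : Fin 7)) := by
    intro x y hxy
    have hxy' : (a x).1 - 2 = (a y).1 - 2 := congrArg Fin.val hxy
    have hax := ha x
    have hay := ha y
    have : a x = a y := Fin.ext (by omega)
    exact h2' x y (b x) (b y) (hb x) (hb y) ((e x).symm.trans (this ▸ e y))
  have := Fintype.card_le_of_injective _ hinj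
  simp at this

theorem exists_op {W : Type u} {H : SimpleGraph W} (h : GG.Free H) :
    ∃ f : W → W → Option W, ∀ (ψ : Fin 8 → Gam.Copy H) (u v w : W),
      (∀ m, ψ m 0 = u ∧ ψ m 1 = v ∧ ψ m 2 = w) →
      (∀ (m m' : Fin 8) (a b : Fin 9), 3 ≤ a.1 → 3 ≤ b.1 → ψ m a = ψ m' b → m = m') →
      f u v = some w := by
  classical
  let P : W → W → W → Prop := fun u v w => ∃ ψ : Fin 8 → Gam.Copy H,
    (∀ m, ψ m 0 = u ∧ ψ m 1 = v ∧ ψ m 2 = w) ∧
    (∀ (m m' : Fin 8) (a b : Fin 9), 3 ≤ a.1 → 3 ≤ b.1 → ψ m a = ψ m' b → m = m')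
  refine ⟨fun u v => if hw : ∃ w, P u v w then some hw.choose else none, ?_⟩
  intro ψ u v w h1 h2
  have hw : ∃ w, P u v w := ⟨w, ψ, h1, h2⟩
  obtain ⟨ψ', h1', h2'⟩ := hw.choose_spec
  simp only [dif_pos hw]
  rw [EXKer_uniq h ψ ψ' u v w _ h1 h2 h1' h2']

end Pool.Agent.P.MP_48d4bc_co.EX
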