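import Pool.Agent.P.MP_48d4bc_co.EXMach

set_option autoImplicit false

/-! Unfolding the system of a program. -/

namespace Pool.Agent.P.MP_48d4bc_co.EX

open Set Function Pool.Agent.Lib.PrimrecProp

variable {P : List Ins}

theorem mem_regs {κ q : ℕ} : (κ, q) ∈ regs P ↔ (κ = 1 ∧ q < 3) ∨
    ((κ = 2 ∨ κ = 3 ∨ (9 ≤ κ ∧ κ ≤ 15)) ∧ q = 0) ∨ (4 ≤ κ ∧ κ ≤ 8 ∧ q < P.length) := by
  simp only [regs, List.mem_append, List.mem_cons, Prod.mk.injEq, List.not_mem_nil, mem_pairs,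
    List.mem_range, or_false]
  omega

theorem exK_iff {κ : ℕ} : exK κ = true ↔ (1 ≤ κ ∧ κ ≤ 9 ∧ κ ≠ 7) ∨ κ = 12 := by
  simp only [exK, memb_iff, List.mem_cons, List.not_mem_nil, or_false]
  omega

theorem enK_iff {κ : ℕ} : enK κ = true ↔ (1 ≤ κ ∧ κ ≤ 12 ∧ κ ≠ 7) ∨ κ = 15 := by
  simp only [enK, memb_iff, List.mem_cons, List.not_mem_nil, or_false]
  omega

theorem lag_le (κ q : ℕ) : lag P κ q ≤ 2 := by
  unfold lag
  cases (eqb κ 5 || eqb κ 6) <;> cases eqb (ins P q).2.1 (eqb κ 6) <;>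
    cases eqb (ins P q).1 2 <;> cases eqb (ins P q).1 3 <;> simp

theorem lag_zero {κ : ℕ} (q : ℕ) (h5 : κ ≠ 5) (h6 : κ ≠ 6) : lag P κ q = 0 := by
  simp [lag, eqb, h5, h6]

theorem lt_of_code {q : ℕ} (h : (ins P q).1 ≠ 0) : q < P.length := by
  by_contra hq
  apply h
  rw [ins, List.getD_eq_default _ _ (not_lt.1 hq)]

theorem mem_rest {a : Nm} : a ∈ restOf P ↔ ∃ r ∈ regs P, ∃ k ≤ 3, a = el r k := by
  simp only [restOf, List.mem_map, mem_pairs, List.mem_range]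
  constructor
  · rintro ⟨⟨r, k⟩, ⟨h1, h2⟩, rfl⟩
    exact ⟨r, h1, k, Nat.lt_succ_iff.1 h2, rfl⟩
  · rintro ⟨r, h1, k, h2, rfl⟩
    exact ⟨(r, k), ⟨h1, Nat.lt_succ_iff.2 h2⟩, rfl⟩

theorem EXM1_pairs_nodup {β γ : Type} {l : List β} {m : List γ} (hl : l.Nodup) (hm : m.Nodup) :
    (pairs l m).Nodup := hl.product hm

theorem EXM1_regs_nodup : (regs P).Nodup := by
  refine List.Nodup.append (by decide) (EXM1_pairs_nodup (by decide) List.nodup_range) ?_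
  rintro ⟨κ, q⟩ h1 h2
  simp only [List.mem_cons, Prod.mk.injEq, List.not_mem_nil, mem_pairs, or_false] at h1 h2
  omega

theorem names_nodup : (namesOf (restOf P)).Nodup := by
  have h1 : (restOf P).Nodup := by
    refine (EXM1_pairs_nodup EXM1_regs_nodup List.nodup_range).map ?_
    rintro ⟨⟨a, b⟩, c⟩ ⟨⟨a', b'⟩, c'⟩ h
    simp only [el, Prod.mk.injEq] at h ⊢
    exact ⟨⟨h.1, h.2.1⟩, h.2.2.1⟩
  have h2 : ∀ j, ((0, 0, 0, j) : Nm) ∉ restOf P := by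
    intro j h
    obtain ⟨⟨κ, q⟩, hr, k, -, e⟩ := mem_rest.1 h
    rw [mem_regs] at hr
    simp only [el, Prod.mk.injEq] at e
    omega
  simp [namesOf, nx, ny, m1, m2, m3, h1, h2]

theorem EXM1_mvs {q q' : ℕ} {z : Bool} {θ : Th} :
    θ ∈ mvs P q q' z ↔ q' < P.length ∧ θ = (2, q, (0, q'), (8, q'), z) := by
  unfold mvs
  by_cases h : q' < P.length
  · simp [leb, Nat.succ_le_iff, h]
  · simp [leb, Nat.succ_le_iff, h]

theorem EXM1_thq {q : ℕ} {θ : Th} : θ ∈ thq P q ↔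
    ((ins P q).1 = 1 ∧ (θ = (2, q, (0, q), (8, q), false) ∨ θ = (2, q, (0, q), (9, 0), false) ∨
      θ = (1, q, (0, 0), (0, 0), false))) ∨
    ((ins P q).1 = 2 ∧ θ ∈ mvs P q (ins P q).2.2.1 false) ∨
    ((ins P q).1 = 3 ∧ (θ ∈ mvs P q (ins P q).2.2.1 true ∨ θ ∈ mvs P q (ins P q).2.2.2 false)) := by
  unfold thq
  by_cases h1 : (ins P q).1 = 1
  · simp [eqb, h1]
  by_cases h2 : (ins P q).1 = 2
  · simp [eqb, h2]
  by_cases h3 : (ins P q).1 = 3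
  · simp [eqb, h3]
  · simp [eqb, h1, h2, h3]

theorem mem_ths {θ : Th} : θ ∈ ths P ↔ Shape P θ := by
  simp only [ths, List.mem_append, List.mem_cons, List.not_mem_nil, or_false, List.mem_map,
    List.mem_range, List.mem_filter, List.mem_flatMap, EXM1_thq, EXM1_mvs]
  constructor
  · rintro ((((rfl | rfl | rfl | rfl) | ⟨i, hi, rfl⟩) | ⟨⟨κ, q⟩, ⟨h1, h2⟩, rfl⟩) |
      ⟨q, -, ⟨h, rfl | rfl | rfl⟩ | ⟨h, hq, rfl⟩ | ⟨h, ⟨hq, rfl⟩ | ⟨hq, rfl⟩⟩⟩)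
    · exact .self'
    · exact .gh
    · exact .hg
    · exact .gg
    · exact .self i hi
    · simp only [Bool.and_eq_true, Bool.not_eq_true', eqb, decide_eq_false_iff_not] at h2
      exact .exit κ q h1 h2.1 h2.2
    · exact .loop q h
    · exact .alt q h
    · exact .pair q h
    · exact .move q _ false hq (Or.inl ⟨h, rfl, rfl⟩)
    · exact .move q _ true hq (Or.inr ⟨h, rfl⟩)
    · exact .move q _ false hq (Or.inr ⟨h, rfl⟩)
  · intro h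
    cases h with
    | exit κ q h1 h2 h3 =>
      exact Or.inl (Or.inr ⟨(κ, q), ⟨h1, by simp [eqb, h2, h3]⟩, rfl⟩)
    | self i hi => exact Or.inl (Or.inl (Or.inr ⟨i, hi, rfl⟩))
    | self' => exact Or.inl (Or.inl (Or.inl (Or.inl rfl)))
    | gh => exact Or.inl (Or.inl (Or.inl (Or.inr (Or.inl rfl))))
    | hg => exact Or.inl (Or.inl (Or.inl (Or.inr (Or.inr (Or.inl rfl)))))
    | gg => exact Or.inl (Or.inl (Or.inl (Or.inr (Or.inr (Or.inr rfl)))))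
    | pair q h =>
      exact Or.inr ⟨q, lt_of_code (by omega), Or.inl ⟨h, Or.inr (Or.inr rfl)⟩⟩
    | loop q h => exact Or.inr ⟨q, lt_of_code (by omega), Or.inl ⟨h, Or.inl rfl⟩⟩
    | alt q h => exact Or.inr ⟨q, lt_of_code (by omega), Or.inl ⟨h, Or.inr (Or.inl rfl)⟩⟩
    | move q q' z hq h =>
      rcases h with ⟨h, rfl, rfl⟩ | ⟨h, rfl⟩
      · exact Or.inr ⟨q, lt_of_code (by omega), Or.inr (Or.inl ⟨h, hq, rfl⟩)⟩
      · cases z
        · exact Or.inr ⟨q, lt_of_code (by omega), Or.inr (Or.inr ⟨h, Or.inr ⟨hq, rfl⟩⟩)⟩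
        · exact Or.inr ⟨q, lt_of_code (by omega), Or.inr (Or.inr ⟨h, Or.inl ⟨hq, rfl⟩⟩)⟩

theorem EXM1_sh {r r' : ℕ × ℕ} {b : ℕ} {a a' : Nm} :
    sh r r' b a a' = true ↔ ∃ k ≤ b, a = el r k ∧ a' = el r' (k + 1) := by
  simp only [sh, Bool.and_eq_true, eqb_iff, leb_iff]
  constructor
  · rintro ⟨⟨h1, h2⟩, h3⟩
    exact ⟨_, h2, h1, h3⟩
  · rintro ⟨k, h1, rfl, rfl⟩
    exact ⟨⟨rfl, h1⟩, rfl⟩

theorem EXM1_cmv {T : ℕ} {z : Bool} {i v v' : ℕ} : cmv T z i v v' = true ↔ Cm T z i v v' := by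
  unfold cmv Cm
  by_cases h : i = 2 <;> cases z <;> simp [eqb, leb, h]

theorem mp_iff {T : ℕ} {θ : Th} {a a' : Nm} : mp P T θ a a' = true ↔ Mp P T θ a a' := by
  obtain ⟨t, i, r, r', z⟩ := θ
  simp only [mp, mpG, mpM, Bool.or_eq_true, Bool.and_eq_true, EXM1_sh, EXM1_cmv, eqb_iff]
  constructor
  · rintro (((((⟨k, h, rfl, rfl⟩ | ⟨k, h, rfl, rfl⟩) | ⟨k, h, rfl, rfl⟩) |
      ⟨rfl, ⟨k, h, rfl, rfl⟩ | ⟨k, h, rfl, rfl⟩⟩) |
      ⟨rfl, ⟨k, h, rfl, rfl⟩ | ⟨k, h, rfl, rfl⟩⟩) |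
      ⟨rfl, ((⟨k, h, rfl, rfl⟩ | ⟨k, h, rfl, rfl⟩) | ⟨⟨⟨h1, h2⟩, h3⟩, h4⟩) |
        ⟨⟨⟨⟨⟨h1, h2⟩, h3⟩, h4⟩, h5⟩, h6⟩⟩)
    · exact .h _ k h
    · exact .g1 _ k h
    · exact .g2 _ k h
    · cases z
      · exact .up i r r' k h
      · exact .dn i r r' k h
    · exact .s i r r' z k h
    · exact .pg i r r' z k h
    · exact .py i r r' z k h
    · exact .ma i r r' z k h
    · exact .mg i r r' z k h
    · have := Mp.mc (P := P) i r r' z a.1 _ _ h1 h4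
      rwa [← h2, ← h3] at this
    · obtain ⟨a1, a2, a3, a4⟩ := a
      obtain ⟨b1, b2, b3, b4⟩ := a'
      simp only at h1 h2 h3 h4 h5 h6
      subst h1 h2 h3 h4
      exact .mq _ r r' z _ _ _ _ h5 h6
  · intro h
    cases h with
    | h _ k h => exact Or.inl (Or.inl (Or.inl (Or.inl (Or.inl ⟨k, h, rfl, rfl⟩))))
    | g1 _ k h => exact Or.inl (Or.inl (Or.inl (Or.inl (Or.inr ⟨k, h, rfl, rfl⟩))))
    | g2 _ k h => exact Or.inl (Or.inl (Or.inl (Or.inr ⟨k, h, rfl, rfl⟩)))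
    | up _ _ _ k h => exact Or.inl (Or.inl (Or.inr ⟨rfl, Or.inl ⟨k, h, rfl, rfl⟩⟩))
    | dn _ _ _ k h => exact Or.inl (Or.inl (Or.inr ⟨rfl, Or.inl ⟨k, h, rfl, rfl⟩⟩))
    | s _ _ _ _ k h => exact Or.inl (Or.inl (Or.inr ⟨rfl, Or.inr ⟨k, h, rfl, rfl⟩⟩))
    | pg _ _ _ _ k h => exact Or.inl (Or.inr ⟨rfl, Or.inl ⟨k, h, rfl, rfl⟩⟩)
    | py _ _ _ _ k h => exact Or.inl (Or.inr ⟨rfl, Or.inr ⟨k, h, rfl, rfl⟩⟩)
    | ma _ _ _ _ k h => exact Or.inr ⟨rfl, Or.inl (Or.inl (Or.inl ⟨k, h, rfl, rfl⟩))⟩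
    | mg _ _ _ _ k h => exact Or.inr ⟨rfl, Or.inl (Or.inl (Or.inr ⟨k, h, rfl, rfl⟩))⟩
    | mc _ _ _ _ κ v v' h1 h2 => exact Or.inr ⟨rfl, Or.inl (Or.inr ⟨⟨⟨h1, rfl⟩, rfl⟩, h2⟩)⟩
    | mq _ _ _ _ k l k' l' h1 h2 =>
      exact Or.inr ⟨rfl, Or.inr ⟨⟨⟨⟨⟨rfl, rfl⟩, rfl⟩, rfl⟩, h1⟩, h2⟩⟩

theorem mem_extra {φ : Ft} : φ ∈ extraOf P ↔
    (∃ κ q, (κ, q) ∈ regs P ∧ exK κ = true ∧
      φ = (el (κ, q) (lag P κ q), el (10, 0) 0, el (κ, q) (lag P κ q + 1))) ∨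
    (∃ i < 3, φ = (el (1, i) i, el (2, 0) 0, el (1, i) (i + 1))) ∨
    φ = (el (3, 0) 0, el (2, 0) 0, el (3, 0) 1) ∨ φ = (el (10, 0) 0, el (11, 0) 0, el (10, 0) 1) ∨
    φ = (el (11, 0) 0, el (12, 0) 0, el (11, 0) 1) ∨ φ = (el (5, 0) 0, el (6, 0) 0, el (7, 0) 0) ∨
    φ = (el (4, 0) 0, el (7, 0) 0, el (8, 0) 0) := by
  simp only [extraOf, List.mem_append, List.mem_cons, List.not_mem_nil, or_false, List.mem_map,
    List.mem_range, List.mem_filter, or_assoc]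
  refine or_congr ⟨?_, ?_⟩ (or_congr ⟨?_, ?_⟩ Iff.rfl)
  · rintro ⟨⟨κ, q⟩, ⟨h1, h2⟩, rfl⟩
    exact ⟨κ, q, h1, h2, rfl⟩
  · rintro ⟨κ, q, h1, h2, rfl⟩
    exact ⟨(κ, q), ⟨h1, h2⟩, rfl⟩
  · rintro ⟨i, hi, rfl⟩
    exact ⟨i, hi, rfl⟩
  · rintro ⟨i, hi, rfl⟩
    exact ⟨i, hi, rfl⟩

theorem glue_length : (sig P).glue.length = (ths P).length := List.length_map _

theorem mem_gl {i : ℕ} {p : Nm × Nm} : p ∈ (sig P).gl i ↔ ∃ h : i < (ths P).length,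
    p.1 ∈ (sig P).names ∧ p.2 ∈ (sig P).names ∧ Mp P 4 (ths P)[i] p.1 p.2 := by
  unfold Sig.gl
  by_cases h : i < (ths P).length
  · rw [List.getD_eq_getElem _ _ (glue_length.symm ▸ h)]
    simp only [sig, List.getElem_map, glueOf, List.mem_filter, mem_pairs, mp_iff, Sig.names, h,
      exists_true_left, and_assoc]
  · rw [List.getD_eq_default _ _ (glue_length.symm ▸ not_lt.1 h)]
    simp [h]

/-- a move follows the program -/
theorem step_of_cm {T q q' : ℕ} {r' : ℕ × ℕ} {z : Bool} (h : Shape P (2, q, (0, q'), r', z))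
    {k l k' l' : ℕ} (h5 : Cm T z (lag P 5 q) k k') (h6 : Cm T z (lag P 6 q) l l') :
    step P (q, k, l) = (q', k', l') := by
  have h1 : ((ins P q).1 = 1 ∧ q' = q ∧ z = false) ∨
      ((ins P q).1 = 2 ∧ q' = (ins P q).2.2.1 ∧ z = false) ∨
      ((ins P q).1 = 3 ∧ q' = cond z (ins P q).2.2.1 (ins P q).2.2.2) := by
    cases h with
    | loop _ h => exact Or.inl ⟨h, rfl, rfl⟩
    | alt _ h => exact Or.inl ⟨h, rfl, rfl⟩
    | move _ _ _ _ h => exact Or.inr h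
  simp only [step, lag, Cm] at h5 h6 ⊢
  generalize ins P q = I at h1 h5 h6 ⊢
  obtain ⟨c, b, t1, t2⟩ := I
  rcases h1 with ⟨h1, rfl, rfl⟩ | ⟨h1, rfl, rfl⟩ | ⟨h1, rfl⟩ <;> simp only at h1 <;> subst h1
  · cases b <;> simp [eqb, stepI] at h5 h6 ⊢ <;> omega
  · cases b <;> simp [eqb, stepI] at h5 h6 ⊢ <;> omega
  · cases b <;> cases z <;> simp [eqb, stepI] at h5 h6 ⊢
    · rw [if_neg (by omega)]
      simp only [Prod.mk.injEq, true_and]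
      omega
    · rw [if_pos h5.1]
      simp only [Prod.mk.injEq, true_and]
      omega
    · rw [if_neg (by omega)]
      simp only [Prod.mk.injEq, true_and]
      omega
    · rw [if_pos h6.1]
      simp only [Prod.mk.injEq, true_and]
      omega

/-- a step of the program is followed by a move -/
theorem cm_of_step {q k l q' k' l' : ℕ} (h : step P (q, k, l) = (q', k', l'))
    (hc : (ins P q).1 = 2 ∨ (ins P q).1 = 3) (hq : q' < P.length) :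
    ∃ z, Shape P (2, q, (0, q'), (8, q'), z) ∧ Cm (k + l) z (lag P 5 q) k k' ∧
      Cm (k + l) z (lag P 6 q) l l' := by
  have key : ∃ z, ((ins P q).1 = 2 ∧ q' = (ins P q).2.2.1 ∧ z = false ∨
      (ins P q).1 = 3 ∧ q' = cond z (ins P q).2.2.1 (ins P q).2.2.2) ∧
      Cm (k + l) z (lag P 5 q) k k' ∧ Cm (k + l) z (lag P 6 q) l l' := by
    simp only [step, lag, Cm] at h ⊢
    generalize ins P q = I at h hc ⊢
    obtain ⟨c, b, t1, t2⟩ := I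
    rcases hc with hc | hc <;> simp only at hc <;> subst hc
    · refine ⟨false, ?_⟩
      cases b <;> simp [eqb, stepI] at h ⊢ <;> omega
    · cases b
      · by_cases hk : k = 0
        · refine ⟨true, ?_⟩
          simp [eqb, stepI, hk] at h ⊢
          omega
        · refine ⟨false, ?_⟩
          simp [eqb, stepI, hk] at h ⊢
          omega
      · by_cases hk : l = 0
        · refine ⟨true, ?_⟩
          simp [eqb, stepI, hk] at h ⊢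
          omega
        · refine ⟨false, ?_⟩
          simp [eqb, stepI, hk] at h ⊢
          omega
  obtain ⟨z, h1, h2⟩ := key
  exact ⟨z, .move q q' z hq h1, h2⟩

end Pool.Agent.P.MP_48d4bc_co.EX
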