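import Pool.Agent.P.MP_48d4bc_co.EXM1

set_option autoImplicit false

/-! The operation of the finite model. -/

namespace Pool.Agent.P.MP_48d4bc_co.EX

open Set Function Pool.Agent.Lib.PrimrecProp

variable {P : List Ins} {gx gy : ℕ}

theorem EXM2_base {L : List Nm} {a b c : Nm} (h : (a, b, c) ∈ baseOf L) :
    (a = nx ∧ b = ny ∧ c = m1) ∨ (a = ny ∧ b = nx ∧ c = m2) ∨ (a = nx ∧ b = m1 ∧ c = m2) ∨
      (a = ny ∧ b = m2 ∧ c = m3) ∨
      ∃ i < L.length, a = (m3 :: L).getD i nx ∧ b = ny ∧ c = L.getD i nx := by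
  simp only [baseOf, List.mem_cons, List.mem_map, List.mem_range, Prod.mk.injEq] at h
  rcases h with h | h | h | h | ⟨i, hi, h1, h2, h3⟩
  · exact Or.inl h
  · exact Or.inr (Or.inl h)
  · exact Or.inr (Or.inr (Or.inl h))
  · exact Or.inr (Or.inr (Or.inr (Or.inl h)))
  · exact Or.inr (Or.inr (Or.inr (Or.inr ⟨i, hi, h1.symm, h2.symm, h3.symm⟩)))

theorem EXM2_mem {L : List Nm} {i : ℕ} (hi : i < L.length) : (m3 :: L).getD i nx ∈ m3 :: L := by
  rw [List.getD_eq_getElem _ _ (by simp only [List.length_cons]; omega)]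
  exact List.getElem_mem _

theorem EXM2_nodup : nx ∉ m3 :: restOf P ∧ ny ∉ m3 :: restOf P ∧ (m3 :: restOf P).Nodup := by
  have h := names_nodup (P := P)
  unfold namesOf at h
  obtain ⟨h1, h⟩ := List.nodup_cons.1 h
  obtain ⟨h2, h⟩ := List.nodup_cons.1 h
  refine ⟨fun h' => h1 ?_, fun h' => h2 ?_, (List.nodup_cons.1 (List.nodup_cons.1 h).2).2⟩
  · exact List.mem_cons_of_mem _ (List.mem_cons_of_mem _ (List.mem_cons_of_mem _ h'))
  · exact List.mem_cons_of_mem _ (List.mem_cons_of_mem _ h')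

theorem base_kind {a b c : Nm} (h : (a, b, c) ∈ baseOf (restOf P)) : b.1 = 0 := by
  rcases EXM2_base h with h | h | h | h | ⟨i, -, h⟩ <;> rw [h.2.1] <;> rfl

theorem EXM2_base_fn {a b c c' : Nm} (h : (a, b, c) ∈ baseOf (restOf P))
    (h' : (a, b, c') ∈ baseOf (restOf P)) : c = c' := by
  obtain ⟨n1, -, n3⟩ := EXM2_nodup (P := P)
  rcases EXM2_base h with ⟨h1, h2, h3⟩ | ⟨h1, h2, h3⟩ | ⟨h1, h2, h3⟩ | ⟨h1, h2, h3⟩ |
      ⟨i, hi, h1, h2, h3⟩ <;>
    rcases EXM2_base h' with ⟨k1, k2, k3⟩ | ⟨k1, k2, k3⟩ | ⟨k1, k2, k3⟩ | ⟨k1, k2, k3⟩ |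
      ⟨j, hj, k1, k2, k3⟩ <;>
    first
    | exact h3.trans k3.symm
    | exact absurd (h2.symm.trans k2) (by decide)
    | skip
  · exact absurd (h1.symm.trans k1 ▸ EXM2_mem hj) n1
  · exact absurd (k1.symm.trans h1 ▸ EXM2_mem hi) n1
  · have e := h1.symm.trans k1
    rw [List.getD_eq_getElem _ _ (by simp only [List.length_cons]; omega),
      List.getD_eq_getElem _ _ (by simp only [List.length_cons]; omega)] at e
    rw [h3, k3, (List.Nodup.getElem_inj_iff n3).1 e]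

theorem EXM2_base_irr {a c : Nm} (h : (a, a, c) ∈ baseOf (restOf P)) : False := by
  obtain ⟨-, n2, -⟩ := EXM2_nodup (P := P)
  rcases EXM2_base h with ⟨h1, h2, -⟩ | ⟨h1, h2, -⟩ | ⟨h1, h2, -⟩ | ⟨h1, h2, -⟩ |
    ⟨i, hi, h1, h2, -⟩
  · exact absurd (h1.symm.trans h2) (by decide)
  · exact absurd (h1.symm.trans h2) (by decide)
  · exact absurd (h1.symm.trans h2) (by decide)
  · exact absurd (h1.symm.trans h2) (by decide)
  · exact n2 (h2.symm.trans h1 ▸ EXM2_mem hi)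

/-- the value of the operation outside the base facts -/
def EXM2_val (a b : Nm) : Nm :=
  if b.1 = 6 then (7, a.2.1, a.2.2.1, b.2.2.1)
  else if b.1 = 7 then (8, a.2.1, a.2.2.1, 0) else (a.1, a.2.1, a.2.2.1 + 1, 0)

theorem EXM2_inv {a b c : Nm} (h : Fn P gx gy a b c) :
    (a, b, c) ∈ baseOf (restOf P) ∨ (b.1 ≠ 0 ∧ a.1 ≠ b.1 ∧ c = EXM2_val a b) := by
  cases h with
  | base a b c h => exact Or.inl h
  | ex κ q j h =>
    have := exK_iff.1 h
    exact Or.inr ⟨by simp [el], by simp only [el]; omega, rfl⟩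
  | en κ q k h _ =>
    have := enK_iff.1 h
    exact Or.inr ⟨by simp [el], by simp only [el]; omega, rfl⟩
  | _ => exact Or.inr ⟨by simp [el], by simp [el], rfl⟩

theorem Fn.fn {a b c c' : Nm} (h : Fn P gx gy a b c) (h' : Fn P gx gy a b c') : c = c' := by
  rcases EXM2_inv h with h | h <;> rcases EXM2_inv h' with h' | h'
  · exact EXM2_base_fn h h'
  · exact absurd (base_kind h) h'.1
  · exact absurd (base_kind h') h.1
  · exact h.2.2.trans h'.2.2.symm

theorem Fn.irr {a c : Nm} : ¬ Fn P gx gy a a c := fun h =>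
  (EXM2_inv h).elim EXM2_base_irr fun h => h.2.1 rfl

theorem fn_fact (h : 1 ≤ gy) {φ : Ft} (hφ : φ ∈ (sig P).facts) :
    Fn P gx gy φ.1 φ.2.1 φ.2.2 := by
  rcases List.mem_append.1 hφ with hφ | hφ
  · exact Fn.base _ _ _ hφ
  · rcases mem_extra.1 hφ with ⟨κ, q, -, hκ, rfl⟩ | ⟨i, -, rfl⟩ | rfl | rfl | rfl | rfl | rfl
    · have := Fn.ex (P := P) (gx := gx) (gy := gy) κ q 0 hκ
      rwa [Nat.zero_add] at this
    · have := Fn.w (P := P) (gx := gx) (gy := gy) i 0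
      rwa [Nat.zero_add] at this
    · exact Fn.w' 0
    · exact Fn.ga 0 h
    · exact Fn.gg 0
    · exact Fn.pos 0 0 0
    · exact Fn.bt 0 0 0 0 ⟨0, rfl⟩

theorem name_box {a : Nm} (h : a ∈ (sig P).names) {m : ℕ} (hm : 4 ≤ m) :
    Box (P.length + 2) m a := by
  have h' : a ∈ nx :: ny :: m1 :: m2 :: m3 :: restOf P := h
  simp only [List.mem_cons] at h'
  rcases h' with rfl | rfl | rfl | rfl | rfl | h'
  · simp only [Box, nx]; omega
  · simp only [Box, ny]; omega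
  · simp only [Box, m1]; omega
  · simp only [Box, m2]; omega
  · simp only [Box, m3]; omega
  · obtain ⟨⟨κ, q⟩, hr, k, hk, rfl⟩ := mem_rest.1 h'
    have := mem_regs.1 hr
    simp only [Box, el]
    omega

theorem EXM2_bd {x y n B : ℕ} (hx : x ≤ n) (hy : y < B) : x * B + y < (n + 1) * B := by
  have := Nat.mul_le_mul_right B hx
  rw [Nat.add_mul]
  omega

theorem EXM2_lex {x y x' y' B : ℕ} (hy : y < B) (hy' : y' < B) :
    x * B + y < x' * B + y' ↔ x < x' ∨ x = x' ∧ y < y' := by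
  rcases lt_trichotomy x x' with h | rfl | h
  · have h1 := EXM2_bd (le_refl x) hy
    have h2 := Nat.mul_le_mul_right B (Nat.succ_le_of_lt h)
    exact iff_of_true (lt_of_lt_of_le (h1.trans_le h2) (Nat.le_add_right _ _)) (Or.inl h)
  · omega
  · have h1 := EXM2_bd (le_refl x') hy'
    have h2 := Nat.mul_le_mul_right B (Nat.succ_le_of_lt h)
    refine iff_of_false (not_lt.2 ((h1.trans_le h2).le.trans (Nat.le_add_right _ _))) ?_
    omega

/-- the rank in the lexicographic order of a box -/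
theorem exists_rank (n m : ℕ) : ∃ r : Nm → ℕ, ∀ a b, Box n m a → Box n m b →
    (r a < r b ↔ Lt a b) := by
  refine ⟨fun a => a.1 * ((n + 1) * ((m + 1) * (m + 1))) +
    (a.2.1 * ((m + 1) * (m + 1)) + (a.2.2.1 * (m + 1) + a.2.2.2)), fun a b ha hb => ?_⟩
  have a3 := Nat.lt_succ_of_le ha.2.2.2
  have b3 := Nat.lt_succ_of_le hb.2.2.2
  have a2 := EXM2_bd ha.2.2.1 a3
  have b2 := EXM2_bd hb.2.2.1 b3
  exact (EXM2_lex (EXM2_bd ha.2.1 a2) (EXM2_bd hb.2.1 b2)).trans (or_congr_right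
    (and_congr_right' ((EXM2_lex a2 b2).trans (or_congr_right
      (and_congr_right' (EXM2_lex a3 b3))))))

theorem lt_total (a b : Nm) : Lt a b ∨ a = b ∨ Lt b a := by
  simp only [Lt, Prod.ext_iff]
  omega

theorem box_finite (n m : ℕ) : Finite {a : Nm // Box n m a} :=
  (Set.finite_Iic ((15, n, m, m) : Nm)).to_subtype

end Pool.Agent.P.MP_48d4bc_co.EX
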