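import Pool.Agent.P.MP_48d4bc_co.EXM2

set_option autoImplicit false

/-! The local isomorphisms of the finite model are monotone and bounded. -/

namespace Pool.Agent.P.MP_48d4bc_co.EX

open Set Function Pool.Agent.Lib.PrimrecProp

variable {P : List Ins} {T : ℕ} {θ : Th} {a a' b b' : Nm}

/-- a shift between two registers, in coordinates -/
def EXM3Sh (κ q κ' q' n : ℕ) (a a' : Nm) : Prop :=
  a.1 = κ ∧ a.2.1 = q ∧ a.2.2.1 ≤ n ∧ a.2.2.2 = 0 ∧ a'.1 = κ' ∧ a'.2.1 = q' ∧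
    a'.2.2.1 = a.2.2.1 + 1 ∧ a'.2.2.2 = 0

/-- a counter move, in coordinates -/
def EXM3Ct (T : ℕ) (z : Bool) (κ q q' i : ℕ) (a a' : Nm) : Prop :=
  a.1 = κ ∧ a.2.1 = q ∧ a.2.2.2 = 0 ∧ a'.1 = κ ∧ a'.2.1 = q' ∧ a'.2.2.2 = 0 ∧
    Cm T z i a.2.2.1 a'.2.2.1

theorem EXM3_inv (h : Mp P T θ a a') :
    EXM3Sh 10 0 13 0 T a a' ∨ EXM3Sh 11 0 14 0 (T + 2) a a' ∨ EXM3Sh 12 0 15 0 (T + 1) a a' ∨
    (θ.1 = 0 ∧ ((θ.2.2.2.2 = false ∧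
        EXM3Sh 1 θ.2.1 θ.2.2.1.1 θ.2.2.1.2 (T + 2 + θ.2.1) a a') ∨
      (θ.2.2.2.2 = true ∧ EXM3Sh 3 0 θ.2.2.1.1 θ.2.2.1.2 (T + 2 + θ.2.1) a a') ∨
      EXM3Sh 2 0 θ.2.2.2.1.1 θ.2.2.2.1.2 (T + 1) a a')) ∨
    (θ.1 = 1 ∧ (EXM3Sh 8 θ.2.1 8 θ.2.1 (T + 1) a a' ∨ EXM3Sh 9 0 9 0 (T + 1) a a')) ∨
    (θ.1 = 2 ∧ (EXM3Sh 4 θ.2.1 4 θ.2.2.1.2 (T + 1) a a' ∨
      EXM3Sh 8 θ.2.1 θ.2.2.2.1.1 θ.2.2.2.1.2 (T + 1) a a' ∨
      EXM3Ct T θ.2.2.2.2 5 θ.2.1 θ.2.2.1.2 (lag P 5 θ.2.1) a a' ∨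
      EXM3Ct T θ.2.2.2.2 6 θ.2.1 θ.2.2.1.2 (lag P 6 θ.2.1) a a' ∨
      (a.1 = 7 ∧ a.2.1 = θ.2.1 ∧ a'.1 = 7 ∧ a'.2.1 = θ.2.2.1.2 ∧
        Cm T θ.2.2.2.2 (lag P 5 θ.2.1) a.2.2.1 a'.2.2.1 ∧
        Cm T θ.2.2.2.2 (lag P 6 θ.2.1) a.2.2.2 a'.2.2.2))) := by
  cases h with
  | mc q r r' z κ v v' h1 h2 =>
    rcases h1 with rfl | rfl <;> simp [EXM3Sh, EXM3Ct, el, h2]
  | _ => simp [EXM3Sh, EXM3Ct, el, *]

theorem EXM3_cm_fn {z : Bool} {i v w w' : ℕ} (h : Cm T z i v w) (h' : Cm T z i v w') : w = w' := by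
  unfold Cm at h h'
  rcases h with ⟨h1, h2, h3⟩ | ⟨h1, h3⟩ <;> rcases h' with ⟨h4, h5, h6⟩ | ⟨h4, h6⟩
  · omega
  · exact absurd ⟨h1, h2⟩ h4
  · exact absurd ⟨h4, h5⟩ h1
  · omega

theorem EXM3_cm_lt {z : Bool} {i v w v' w' : ℕ} (h : Cm T z i v w) (h' : Cm T z i v' w') :
    (v < v' → w < w') ∧ (v = v' → w = w') := by
  unfold Cm at h h'
  rcases h with ⟨h1, h2, h3⟩ | ⟨h1, h3⟩ <;> rcases h' with ⟨h4, h5, h6⟩ | ⟨h4, h6⟩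
  · omega
  · exact absurd ⟨h1, h2⟩ h4
  · exact absurd ⟨h4, h5⟩ h1
  · omega

theorem EXM3_cm_le {z : Bool} {i v w : ℕ} (h : Cm T z i v w) : v ≤ T + 1 + i ∧ w ≤ T + 2 := by
  unfold Cm at h
  omega

theorem EXM3_cm_hor {z : Bool} {i v w T' : ℕ} (h : Cm T z i v w) (hv : v ≤ T') :
    Cm T' z i v w :=
  h.imp id fun h => ⟨h.1, h.2.1, by omega⟩

theorem EXM3_ext (h1 : a.1 = b.1) (h2 : a.2.1 = b.2.1) (h3 : a.2.2.1 = b.2.2.1)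
    (h4 : a.2.2.2 = b.2.2.2) : a = b :=
  Prod.ext h1 (Prod.ext h2 (Prod.ext h3 h4))

/-- the two maps in coordinates, with the counter facts -/
theorem EXM3_two (h : Mp P T θ a a') (h' : Mp P T θ b b') :
    (a.1 = b.1 → a.2.1 = b.2.1 ∧ a'.1 = b'.1 ∧ a'.2.1 = b'.2.1 ∧
      (a.2.2.1 < b.2.2.1 → a'.2.2.1 < b'.2.2.1) ∧ (a.2.2.1 = b.2.2.1 → a'.2.2.1 = b'.2.2.1) ∧
      (a.2.2.2 < b.2.2.2 → a'.2.2.2 < b'.2.2.2) ∧ (a.2.2.2 = b.2.2.2 → a'.2.2.2 = b'.2.2.2)) := by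
  intro e
  have k := EXM3_inv h
  have k' := EXM3_inv h'
  unfold EXM3Sh EXM3Ct at k k'
  rcases k with k | k | k | ⟨t, ⟨z, k⟩ | ⟨z, k⟩ | k⟩ | ⟨t, k | k⟩ | ⟨t, k | k | k | k | k⟩ <;>
  rcases k' with k' | k' | k' | ⟨t', ⟨z', k'⟩ | ⟨z', k'⟩ | k'⟩ | ⟨t', k' | k'⟩ |
    ⟨t', k' | k' | k' | k' | k'⟩ <;>
  first
    | omega
    | (have := EXM3_cm_lt k.2.2.2.2.2.2 k'.2.2.2.2.2.2
       omega)
    | (have := EXM3_cm_lt k.2.2.2.2.1 k'.2.2.2.2.1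
       have := EXM3_cm_lt k.2.2.2.2.2 k'.2.2.2.2.2
       omega)

theorem Mp.fn (h : Mp P T θ a a') (h' : Mp P T θ a b') : a' = b' := by
  obtain ⟨-, h1, h2, -, h3, -, h4⟩ := EXM3_two h h' rfl
  exact EXM3_ext h1 h2 (h3 rfl) (h4 rfl)

/-- the data of a shape, in coordinates -/
theorem EXM3_shape (hθ : Shape P θ) :
    (θ.1 = 0 → θ.2.1 ≤ 2 ∧ 1 ≤ θ.2.2.1.1 ∧ θ.2.2.1.1 ≤ 12 ∧ 1 ≤ θ.2.2.2.1.1 ∧
      θ.2.2.2.1.1 ≤ 12 ∧ θ.2.2.1.2 ≤ P.length + 2 ∧ θ.2.2.2.1.2 = 0 ∧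
      (θ.2.2.2.2 = false → θ.2.2.1.1 < θ.2.2.2.1.1) ∧
      (θ.2.2.2.2 = true → θ.2.2.2.1.1 < θ.2.2.1.1)) ∧
    (θ.1 = 1 → θ.2.1 < P.length) ∧
    (θ.1 = 2 → θ.2.1 < P.length ∧ θ.2.2.1.2 < P.length ∧ 8 ≤ θ.2.2.2.1.1 ∧ θ.2.2.2.1.1 ≤ 9 ∧
      θ.2.2.2.1.2 < P.length) := by
  cases hθ with
  | exit κ q h1 h2 h3 =>
    have := mem_regs.1 h1
    have := exK_iff.1 h2
    have := lag_le (P := P) κ q
    simp
    omega
  | self i h =>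
    simp
    omega
  | pair q h =>
    have := lt_of_code (P := P) (q := q) (by omega)
    simp [this]
  | loop q h =>
    have := lt_of_code (P := P) (q := q) (by omega)
    simp [this]
  | alt q h =>
    have := lt_of_code (P := P) (q := q) (by omega)
    simp
    omega
  | move q q' z h1 h2 =>
    have := lt_of_code (P := P) (q := q) (by omega)
    simp [this, h1]
  | _ => simp

theorem EXM3_kind (hθ : Shape P θ) (h : Mp P T θ a a') (h' : Mp P T θ b b') (l : a.1 < b.1) :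
    a'.1 < b'.1 := by
  have k := EXM3_inv h
  have k' := EXM3_inv h'
  obtain ⟨s0, -, s2⟩ := EXM3_shape hθ
  unfold EXM3Sh EXM3Ct at k k'
  rcases k with k | k | k | ⟨t, ⟨z, k⟩ | ⟨z, k⟩ | k⟩ | ⟨t, k | k⟩ | ⟨t, k | k | k | k | k⟩ <;>
  rcases k' with k' | k' | k' | ⟨t', ⟨z', k'⟩ | ⟨z', k'⟩ | k'⟩ | ⟨t', k' | k'⟩ |
    ⟨t', k' | k' | k' | k' | k'⟩ <;>
  first
    | omega
    | (have := (s0 t).2.2.2.2.2.2.2.1 z
       omega)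
    | (have := (s0 t').2.2.2.2.2.2.2.2 z'
       omega)
    | exact absurd (z.symm.trans z') (by decide)

theorem Mp.mono (hθ : Shape P θ) (h : Mp P T θ a a') (h' : Mp P T θ b b') (l : Lt a b) :
    Lt a' b' := by
  have k := EXM3_two h h'
  have k' := EXM3_kind hθ h h'
  unfold Lt at l ⊢
  omega

theorem Mp.bij (hθ : Shape P θ) (h : Mp P T θ a a') (h' : Mp P T θ b b') : a = b ↔ a' = b' := by
  refine ⟨fun e => h.fn (e ▸ h'), fun e => ?_⟩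
  subst e
  rcases lt_total a b with l | l | l
  · have := h.mono hθ h' l
    unfold Lt at this
    omega
  · exact l
  · have := h'.mono hθ h l
    unfold Lt at this
    omega

theorem Mp.kind (hθ : Shape P θ) (h : Mp P T θ a a') : a.1 ≠ 0 ∧ a'.1 ≠ 0 := by
  have k := EXM3_inv h
  obtain ⟨s0, -, s2⟩ := EXM3_shape hθ
  unfold EXM3Sh EXM3Ct at k
  rcases k with k | k | k | ⟨t, ⟨z, k⟩ | ⟨z, k⟩ | k⟩ | ⟨t, k | k⟩ | ⟨t, k | k | k | k | k⟩ <;>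
  omega

theorem Mp.box (hθ : Shape P θ) (h : Mp P T θ a a') {m : ℕ} (hm : T + 5 ≤ m) :
    Box (P.length + 2) m a ∧ Box (P.length + 2) m a' := by
  have k := EXM3_inv h
  obtain ⟨s0, s1, s2⟩ := EXM3_shape hθ
  have l5 := lag_le (P := P) 5 θ.2.1
  have l6 := lag_le (P := P) 6 θ.2.1
  unfold EXM3Sh EXM3Ct at k
  unfold Box
  rcases k with k | k | k | ⟨t, ⟨z, k⟩ | ⟨z, k⟩ | k⟩ | ⟨t, k | k⟩ | ⟨t, k | k | k | k | k⟩ <;>
  first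
    | omega
    | (have := EXM3_cm_le k.2.2.2.2.2.2
       omega)
    | (have := EXM3_cm_le k.2.2.2.2.1
       have := EXM3_cm_le k.2.2.2.2.2
       omega)

theorem Mp.horizon (h : Mp P T θ a a') (ha : a ∈ (sig P).names) {T' : ℕ} (hT : 4 ≤ T') :
    Mp P T' θ a a' := by
  obtain ⟨-, -, h3, h4⟩ := name_box ha hT
  cases h with
  | h => exact Mp.h _ _ h3
  | g1 => exact Mp.g1 _ _ (le_trans h3 (by omega))
  | g2 => exact Mp.g2 _ _ (le_trans h3 (by omega))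
  | up i r r' k _ => exact Mp.up i r r' k (le_trans h3 (by omega))
  | dn i r r' k _ => exact Mp.dn i r r' k (le_trans h3 (by omega))
  | s i r r' z k _ => exact Mp.s i r r' z k (le_trans h3 (by omega))
  | pg q r r' z k _ => exact Mp.pg q r r' z k (le_trans h3 (by omega))
  | py q r r' z k _ => exact Mp.py q r r' z k (le_trans h3 (by omega))
  | ma q r r' z k _ => exact Mp.ma q r r' z k (le_trans h3 (by omega))
  | mg q r r' z k _ => exact Mp.mg q r r' z k (le_trans h3 (by omega))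
  | mc q r r' z κ v v' h1 h2 => exact Mp.mc q r r' z κ v v' h1 (EXM3_cm_hor h2 h3)
  | mq q r r' z k l k' l' h1 h2 =>
    exact Mp.mq q r r' z k l k' l' (EXM3_cm_hor h1 h3) (EXM3_cm_hor h2 h4)

theorem EXM3_name {κ q k : ℕ} (h : (κ, q) ∈ regs P) (hk : k ≤ 3) :
    el (κ, q) k ∈ (sig P).names :=
  List.mem_cons_of_mem _ (List.mem_cons_of_mem _ (List.mem_cons_of_mem _ (List.mem_cons_of_mem _
    (List.mem_cons_of_mem _ (mem_rest.2 ⟨_, h, k, hk, rfl⟩)))))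

theorem EXM3_ne {a : Nm} (h : a.1 ≠ 0) : a ≠ nx ∧ a ≠ ny :=
  ⟨fun e => h (e ▸ rfl), fun e => h (e ▸ rfl)⟩

theorem sig_wf (hP : P ≠ []) : (sig P).WF := by
  have hl : 0 < P.length := List.length_pos_iff.2 hP
  refine ⟨names_nodup, ?_, fun φ hφ => ?_, fun i p hp => ?_, fun i p hp p' hp' => ?_⟩
  · rw [glue_length]
    simp [ths]
  · rcases mem_extra.1 hφ with ⟨κ, q, h1, h2, rfl⟩ | ⟨i, h1, rfl⟩ | rfl | rfl | rfl | rfl | rfl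
    · have := lag_le (P := P) κ q
      have := exK_iff.1 h2
      refine ⟨EXM3_name h1 (by omega), EXM3_name (mem_regs.2 (by omega)) (by omega),
        EXM3_name h1 (by omega), ?_⟩
      simp only [el, nx, ny, ne_eq, Prod.mk.injEq]
      omega
    all_goals
      refine ⟨EXM3_name (mem_regs.2 (by omega)) (by omega),
        EXM3_name (mem_regs.2 (by omega)) (by omega),
        EXM3_name (mem_regs.2 (by omega)) (by omega), ?_⟩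
      simp only [el, nx, ny, ne_eq, Prod.mk.injEq]
      omega
  · obtain ⟨h, h1, h2, h3⟩ := mem_gl.1 hp
    obtain ⟨k1, k2⟩ := h3.kind (mem_ths.1 (List.getElem_mem h))
    exact ⟨h1, h2, (EXM3_ne k1).1, (EXM3_ne k1).2, (EXM3_ne k2).1, (EXM3_ne k2).2⟩
  · obtain ⟨h, -, -, h3⟩ := mem_gl.1 hp
    obtain ⟨_, -, -, h4⟩ := mem_gl.1 hp'
    exact h3.bij (mem_ths.1 (List.getElem_mem h)) h4

end Pool.Agent.P.MP_48d4bc_co.EX
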