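import Pool.Agent.P.MP_48d4bc_co.EXM2

set_option autoImplicit false

/-! The domains are closed and the operation is preserved. -/

namespace Pool.Agent.P.MP_48d4bc_co.EX

open Set Function Pool.Agent.Lib.PrimrecProp

variable {P : List Ins} {T gx gy : ℕ} {θ : Th} {a a' b b' c : Nm}

theorem bit_step {q t k l q' k' l' : ℕ} (h : step P (q, k, l) = (q', k', l')) :
    bit P q t k l ↔ bit P q' (t + 1) k' l' := by
  constructor
  · rintro ⟨n, hn⟩
    refine ⟨n, ?_⟩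
    rw [← h, ← iterate_succ_apply, iterate_succ_apply', hn, Nat.add_right_comm, run, run,
      iterate_succ_apply']
  · rintro ⟨n, hn⟩
    refine ⟨n + 1, ?_⟩
    rw [iterate_succ_apply, h, hn, Nat.add_right_comm, Nat.add_assoc]

theorem not_bit (hB : ¬ HaltsB P) {q : ℕ} (h : (ins P q).1 = 1) (t k l : ℕ) :
    ¬ bit P q t k l := by
  rintro ⟨n, hn⟩
  have e : step P (q, k, l) = (q, k, l) := by simp [step, stepI, h]
  rw [iterate_fixed e] at hn
  exact hB ⟨t + n, by rw [← hn]; exact h⟩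

theorem EXM4_kind (h : Mp P T θ a a') : 1 ≤ a.1 ∧ a.1 ≤ 12 := by
  cases h <;> simp only [el] <;> omega

theorem EXM4_h {j : ℕ} (h : Mp P T θ (el (10, 0) j) a') : j ≤ T ∧ a' = el (13, 0) (j + 1) := by
  generalize e : el (10, 0) j = a at h
  cases h <;> simp only [el, Prod.mk.injEq] at e <;> try omega
  obtain ⟨-, -, rfl, -⟩ := e
  exact ⟨by assumption, rfl⟩

theorem EXM4_g1 {j : ℕ} (h : Mp P T θ (el (11, 0) j) a') :
    j ≤ T + 2 ∧ a' = el (14, 0) (j + 1) := by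
  generalize e : el (11, 0) j = a at h
  cases h <;> simp only [el, Prod.mk.injEq] at e <;> try omega
  obtain ⟨-, -, rfl, -⟩ := e
  exact ⟨by assumption, rfl⟩

theorem EXM4_g2 {j : ℕ} (h : Mp P T θ (el (12, 0) j) a') :
    j ≤ T + 1 ∧ a' = el (15, 0) (j + 1) := by
  generalize e : el (12, 0) j = a at h
  cases h <;> simp only [el, Prod.mk.injEq] at e <;> try omega
  obtain ⟨-, -, rfl, -⟩ := e
  exact ⟨by assumption, rfl⟩

theorem EXM4_up {i j : ℕ} (h : Mp P T θ (el (1, i) j) a') :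
    ∃ r r', θ = (0, i, r, r', false) ∧ a' = el r (j + 1) := by
  generalize e : el (1, i) j = a at h
  cases h <;> simp only [el, Prod.mk.injEq] at e <;> try omega
  obtain ⟨-, rfl, rfl, -⟩ := e
  exact ⟨_, _, rfl, rfl⟩

theorem EXM4_dn {j : ℕ} (h : Mp P T θ (el (3, 0) j) a') :
    ∃ i r r', θ = (0, i, r, r', true) ∧ a' = el r (j + 1) := by
  generalize e : el (3, 0) j = a at h
  cases h <;> simp only [el, Prod.mk.injEq] at e <;> try omega
  obtain ⟨-, -, rfl, -⟩ := e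
  exact ⟨_, _, _, rfl, rfl⟩

theorem EXM4_s {j : ℕ} (h : Mp P T θ (el (2, 0) j) a') :
    j ≤ T + 1 ∧ a' = el θ.2.2.2.1 (j + 1) := by
  generalize e : el (2, 0) j = a at h
  cases h <;> simp only [el, Prod.mk.injEq] at e <;> try omega
  obtain ⟨-, -, rfl, -⟩ := e
  exact ⟨by assumption, rfl⟩

theorem EXM4_ma {q j : ℕ} (h : Mp P T θ (el (4, q) j) a') :
    j ≤ T + 1 ∧ ∃ r r' z, θ = (2, q, r, r', z) ∧ a' = el (4, r.2) (j + 1) := by
  generalize e : el (4, q) j = a at h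
  cases h <;> simp only [el, Prod.mk.injEq] at e <;> try omega
  obtain ⟨-, rfl, rfl, -⟩ := e
  exact ⟨by assumption, _, _, _, rfl, rfl⟩

theorem EXM4_mc {κ q v : ℕ} (hκ : κ = 5 ∨ κ = 6) (h : Mp P T θ (el (κ, q) v) a') :
    ∃ r r' z v', θ = (2, q, r, r', z) ∧ a' = el (κ, r.2) v' ∧ Cm T z (lag P κ q) v v' := by
  generalize e : el (κ, q) v = a at h
  cases h <;> simp only [el, Prod.mk.injEq] at e <;> try omega
  obtain ⟨rfl, rfl, rfl, -⟩ := e
  exact ⟨_, _, _, _, rfl, rfl, by assumption⟩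

theorem EXM4_mq {q k l : ℕ} (h : Mp P T θ (7, q, k, l) a') :
    ∃ k' l', a' = (7, θ.2.2.1.2, k', l') ∧ Cm T θ.2.2.2.2 (lag P 5 q) k k' ∧
      Cm T θ.2.2.2.2 (lag P 6 q) l l' := by
  generalize e : ((7, q, k, l) : Nm) = a at h
  cases h <;> simp only [el, Prod.mk.injEq] at e <;> try omega
  obtain ⟨-, rfl, rfl, rfl⟩ := e
  exact ⟨_, _, rfl, by assumption, by assumption⟩

theorem EXM4_en0 {i : ℕ} {r r' : ℕ × ℕ} {z : Bool} (h : Shape P (0, i, r, r', z)) :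
    enK r.1 = true ∧ enK r'.1 = true := by
  generalize e : ((0, i, r, r', z) : Th) = θ at h
  cases h <;> simp only [Prod.mk.injEq] at e <;> try omega
  all_goals
    obtain ⟨-, -, rfl, rfl, -⟩ := e
    simp only [enK_iff, exK_iff] at *
    omega

theorem EXM4_en2 {i : ℕ} {r r' : ℕ × ℕ} {z : Bool} (h : Shape P (2, i, r, r', z)) :
    enK r'.1 = true := by
  generalize e : ((2, i, r, r', z) : Th) = θ at h
  cases h <;> simp only [Prod.mk.injEq] at e <;> try omega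
  all_goals
    obtain ⟨-, -, -, rfl, -⟩ := e
    simp only [enK_iff]
    omega

/-- the exit arcs go to entry arcs -/
theorem EXM4_ex {κ q j : ℕ} (hθ : Shape P θ) (hκ : exK κ = true) (hj : j ≤ T)
    (h : Mp P T θ (el (κ, q) (j + lag P κ q)) a') :
    ∃ r : ℕ × ℕ, enK r.1 = true ∧ a' = el r (j + 1) ∧
      Mp P T θ (el (κ, q) (j + lag P κ q + 1)) (el r (j + 1 + 1)) := by
  rw [exK_iff] at hκ
  by_cases h5 : κ = 5 ∨ κ = 6
  · obtain ⟨r, r', z, v', rfl, rfl, hc⟩ := EXM4_mc h5 h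
    have hc' : ¬ (lag P κ q = 2 ∧ z = true) ∧ v' = j + 1 := by
      rcases hc with hc | hc
      · omega
      · exact ⟨hc.1, by omega⟩
    obtain ⟨hc1, rfl⟩ := hc'
    exact ⟨(κ, r.2), enK_iff.2 (by omega), rfl,
      Mp.mc _ _ _ _ _ _ _ h5 (Or.inr ⟨hc1, by omega, by omega⟩)⟩
  · rw [lag_zero q (by omega) (by omega), Nat.add_zero] at h ⊢
    generalize e : el (κ, q) j = a at h
    cases h <;> simp only [el, Prod.mk.injEq] at e <;> try omega
    all_goals obtain ⟨rfl, rfl, rfl, -⟩ := e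
    · exact ⟨(15, 0), enK_iff.2 (by omega), rfl, Mp.g2 _ _ (by omega)⟩
    · exact ⟨_, (EXM4_en0 hθ).1, rfl, Mp.up _ _ _ _ (by omega)⟩
    · exact ⟨_, (EXM4_en0 hθ).1, rfl, Mp.dn _ _ _ _ (by omega)⟩
    · exact ⟨_, (EXM4_en0 hθ).2, rfl, Mp.s _ _ _ _ _ (by omega)⟩
    · exact ⟨(8, _), enK_iff.2 (by omega), rfl, Mp.pg _ _ _ _ _ (by omega)⟩
    · exact ⟨(9, 0), enK_iff.2 (by omega), rfl, Mp.py _ _ _ _ _ (by omega)⟩
    · exact ⟨(4, _), enK_iff.2 (by omega), rfl, Mp.ma _ _ _ _ _ (by omega)⟩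
    · exact ⟨_, EXM4_en2 hθ, rfl, Mp.mg _ _ _ _ _ (by omega)⟩

theorem EXM4_w {i j : ℕ} {r r' : ℕ × ℕ} (h : Shape P (0, i, r, r', false)) (hj : j < gy) :
    Fn P T gy (el r (j + i)) (el r' j) (el r (j + i + 1)) := by
  generalize e : ((0, i, r, r', false) : Th) = θ at h
  cases h <;> simp only [Prod.mk.injEq, Bool.false_eq_true, and_false] at e <;> try omega
  all_goals obtain ⟨-, rfl, rfl, rfl, -⟩ := e
  · exact Fn.ex _ _ _ (by assumption)
  · exact Fn.w _ _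
  · exact Fn.ga _ hj
  · exact Fn.gg _

theorem EXM4_w' {i j : ℕ} {r r' : ℕ × ℕ} (h : Shape P (0, i, r, r', true)) :
    Fn P T gy (el r j) (el r' j) (el r (j + 1)) := by
  generalize e : ((0, i, r, r', true) : Th) = θ at h
  cases h <;> simp only [Prod.mk.injEq, Bool.true_eq_false, and_false] at e <;> try omega
  all_goals obtain ⟨-, rfl, rfl, rfl, -⟩ := e
  · exact Fn.w' _
  · have := Fn.ex (P := P) (gx := T) (gy := gy) 12 0 j (exK_iff.2 (by omega))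
    rwa [lag_zero 0 (by omega) (by omega)] at this

theorem EXM4_bt (hB : ¬ HaltsB P) {q t k l k' l' : ℕ} {r r' : ℕ × ℕ} {z : Bool}
    (h : Shape P (2, q, r, r', z)) (h5 : Cm T z (lag P 5 q) k k') (h6 : Cm T z (lag P 6 q) l l')
    (hb : bit P q t k l) : r' = (8, r.2) ∧ bit P r.2 (t + 1) k' l' := by
  have h' := h
  generalize e : ((2, q, r, r', z) : Th) = θ at h
  cases h <;> simp only [Prod.mk.injEq] at e <;> try omega
  all_goals obtain ⟨-, rfl, rfl, rfl, rfl⟩ := e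
  · exact ⟨rfl, (bit_step (step_of_cm h' h5 h6)).1 hb⟩
  · exact absurd hb (not_bit hB (by assumption) _ _ _)
  · exact ⟨rfl, (bit_step (step_of_cm h' h5 h6)).1 hb⟩

theorem Mp.fwd (hB : ¬ HaltsB P) (hθ : Shape P θ) (hy : T + 3 ≤ gy) (ha : Mp P T θ a a')
    (hb : Mp P T θ b b') (h : Fn P gx T a b c) : ∃ c', Fn P T gy a' b' c' ∧ Mp P T θ c c' := by
  have ka := EXM4_kind ha
  have kb := EXM4_kind hb
  cases h with
  | base _ _ _ h => have := base_kind h; omega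
  | ex κ q j hκ =>
    obtain ⟨hj, rfl⟩ := EXM4_h hb
    obtain ⟨r, hr, rfl, hm⟩ := EXM4_ex hθ hκ hj ha
    exact ⟨_, Fn.en r.1 r.2 (j + 1) hr (by omega), hm⟩
  | en κ q k _ _ => simp only [el] at kb; omega
  | w i j =>
    obtain ⟨r, r', rfl, rfl⟩ := EXM4_up ha
    obtain ⟨hj, rfl⟩ := EXM4_s hb
    refine ⟨_, ?_, Mp.up _ _ _ _ (by omega)⟩
    have := EXM4_w (T := T) (gy := gy) (j := j + 1) hθ (by omega)
    rwa [Nat.add_right_comm j 1 i] at this
  | w' j =>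
    obtain ⟨i, r, r', rfl, rfl⟩ := EXM4_dn ha
    obtain ⟨hj, rfl⟩ := EXM4_s hb
    exact ⟨_, EXM4_w' hθ, Mp.dn _ _ _ _ (by omega)⟩
  | ga j hj =>
    obtain ⟨-, rfl⟩ := EXM4_h ha
    obtain ⟨-, rfl⟩ := EXM4_g1 hb
    exact ⟨_, Fn.ga' _ (by omega) (by omega), Mp.h _ _ (by omega)⟩
  | ga' j _ _ => simp only [el] at ka; omega
  | gg j =>
    obtain ⟨-, rfl⟩ := EXM4_g1 ha
    obtain ⟨hj, rfl⟩ := EXM4_g2 hb
    exact ⟨_, Fn.gg' _ (by omega), Mp.g1 _ _ (by omega)⟩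
  | gg' j _ => simp only [el] at ka; omega
  | pos q k l =>
    obtain ⟨r, r', z, k', rfl, rfl, h5⟩ := EXM4_mc (Or.inl rfl) ha
    obtain ⟨r₁, r₁', z₁, l', e, rfl, h6⟩ := EXM4_mc (Or.inr rfl) hb
    simp only [Prod.mk.injEq, true_and] at e
    obtain ⟨rfl, rfl, rfl⟩ := e
    exact ⟨_, Fn.pos _ _ _, Mp.mq _ _ _ _ _ _ _ _ h5 h6⟩
  | bt q t k l hq =>
    obtain ⟨ht, r, r', z, rfl, rfl⟩ := EXM4_ma ha
    obtain ⟨k', l', rfl, h5, h6⟩ := EXM4_mq hb
    obtain ⟨rfl, hq'⟩ := EXM4_bt hB hθ h5 h6 hq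
    exact ⟨_, Fn.bt _ _ _ _ hq', Mp.mg _ _ _ _ _ ht⟩

end Pool.Agent.P.MP_48d4bc_co.EX
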