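import Pool.Agent.P.MP_48d4bc_co.EXSig
import Pool.Agent.P.MP_48d4bc_co.EXRun

set_option autoImplicit false

/-! The system of a program with two counters. -/

namespace Pool.Agent.P.MP_48d4bc_co.EX

open Set Function Pool.Agent.Lib.PrimrecProp

/-- registers: kind and state -/
def regs (P : List Ins) : List (ℕ × ℕ) :=
  [(1, 0), (1, 1), (1, 2), (2, 0), (3, 0), (9, 0), (10, 0), (11, 0), (12, 0), (13, 0), (14, 0),
    (15, 0)] ++ pairs [4, 5, 6, 7, 8] (List.range P.length)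

/-- kinds with an exit arc -/
def exK (κ : ℕ) : Bool := memb κ [1, 2, 3, 4, 5, 6, 8, 9, 12]

/-- kinds with an entry arc -/
def enK (κ : ℕ) : Bool := memb κ [1, 2, 3, 4, 5, 6, 8, 9, 10, 11, 12, 15]

/-- the lag of the exit arc -/
def lag (P : List Ins) (κ q : ℕ) : ℕ :=
  cond (eqb κ 5 || eqb κ 6) (cond (eqb (ins P q).2.1 (eqb κ 6))
    (cond (eqb (ins P q).1 2) 0 (cond (eqb (ins P q).1 3) 2 1)) 1) 0

/-- an element of a register -/
def el (r : ℕ × ℕ) (k : ℕ) : Nm := (r.1, r.2, k, 0)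

/-- further names -/
def restOf (P : List Ins) : List Nm := (pairs (regs P) (List.range 4)).map fun z => el z.1 z.2

/-- further facts -/
def extraOf (P : List Ins) : List Ft :=
  (((regs P).filter fun r => exK r.1).map fun r =>
    (el r (lag P r.1 r.2), el (10, 0) 0, el r (lag P r.1 r.2 + 1))) ++
  ((List.range 3).map fun i => (el (1, i) i, el (2, 0) 0, el (1, i) (i + 1))) ++
  [(el (3, 0) 0, el (2, 0) 0, el (3, 0) 1), (el (10, 0) 0, el (11, 0) 0, el (10, 0) 1),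
    (el (11, 0) 0, el (12, 0) 0, el (11, 0) 1), (el (5, 0) 0, el (6, 0) 0, el (7, 0) 0),
    (el (4, 0) 0, el (7, 0) 0, el (8, 0) 0)]

/-- data of a local isomorphism: tag, number, two registers, flag -/
abbrev Th := ℕ × ℕ × (ℕ × ℕ) × (ℕ × ℕ) × Bool

/-- the move of a transition -/
def mvs (P : List Ins) (q q' : ℕ) (z : Bool) : List Th :=
  cond (leb (q' + 1) P.length) [(2, q, (0, q'), (8, q'), z)] []

/-- the local isomorphisms of a state -/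
def thq (P : List Ins) (q : ℕ) : List Th :=
  cond (eqb (ins P q).1 1)
    [(2, q, (0, q), (8, q), false), (2, q, (0, q), (9, 0), false), (1, q, (0, 0), (0, 0), false)]
    (cond (eqb (ins P q).1 2) (mvs P q (ins P q).2.2.1 false)
      (cond (eqb (ins P q).1 3) (mvs P q (ins P q).2.2.1 true ++ mvs P q (ins P q).2.2.2 false) []))

/-- all local isomorphisms -/
def ths (P : List Ins) : List Th :=
  [(0, 0, (3, 0), (2, 0), true), (0, 0, (12, 0), (10, 0), true), (0, 0, (10, 0), (11, 0), false),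
    (0, 0, (11, 0), (12, 0), false)] ++
  ((List.range 3).map fun i => (0, i, (1, i), (2, 0), false)) ++
  (((regs P).filter fun r => exK r.1 && !eqb r.1 12).map fun r =>
    (0, lag P r.1 r.2, r, (10, 0), false)) ++
  (List.range P.length).flatMap (thq P)

/-- the action on a counter -/
def cmv (T : ℕ) (z : Bool) (i v v' : ℕ) : Bool :=
  cond (eqb i 2 && z) (eqb v 0 && eqb v' 0) (eqb (v' + i) (v + 1) && leb v (T + 1 + i))

/-- a shift of one register onto another up to a bound -/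
def sh (r r' : ℕ × ℕ) (b : ℕ) (a a' : Nm) : Bool :=
  eqb a (el r a.2.2.1) && leb a.2.2.1 b && eqb a' (el r' (a.2.2.1 + 1))

/-- the common part of all local isomorphisms -/
def mpG (T : ℕ) (a a' : Nm) : Bool :=
  sh (10, 0) (13, 0) T a a' || sh (11, 0) (14, 0) (T + 2) a a' || sh (12, 0) (15, 0) (T + 1) a a'

/-- the part of a move -/
def mpM (P : List Ins) (T : ℕ) (θ : Th) (a a' : Nm) : Bool :=
  sh (4, θ.2.1) (4, θ.2.2.1.2) (T + 1) a a' ||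
  sh (8, θ.2.1) θ.2.2.2.1 (T + 1) a a' ||
  ((eqb a.1 5 || eqb a.1 6) && eqb a (el (a.1, θ.2.1) a.2.2.1) &&
    eqb a' (el (a.1, θ.2.2.1.2) a'.2.2.1) &&
    cmv T θ.2.2.2.2 (lag P a.1 θ.2.1) a.2.2.1 a'.2.2.1) ||
  (eqb a.1 7 && eqb a.2.1 θ.2.1 && eqb a'.1 7 && eqb a'.2.1 θ.2.2.1.2 &&
    cmv T θ.2.2.2.2 (lag P 5 θ.2.1) a.2.2.1 a'.2.2.1 &&
    cmv T θ.2.2.2.2 (lag P 6 θ.2.1) a.2.2.2 a'.2.2.2)

/-- the local isomorphisms with horizon `T` -/
def mp (P : List Ins) (T : ℕ) (θ : Th) (a a' : Nm) : Bool :=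
  mpG T a a' ||
  (eqb θ.1 0 && (sh (cond θ.2.2.2.2 (3, 0) (1, θ.2.1)) θ.2.2.1 (T + 2 + θ.2.1) a a' ||
    sh (2, 0) θ.2.2.2.1 (T + 1) a a')) ||
  (eqb θ.1 1 && (sh (8, θ.2.1) (8, θ.2.1) (T + 1) a a' || sh (9, 0) (9, 0) (T + 1) a a')) ||
  (eqb θ.1 2 && mpM P T θ a a')

/-- the glue list of a local isomorphism -/
def glueOf (P : List Ins) (θ : Th) : List (Nm × Nm) :=
  (pairs (namesOf (restOf P)) (namesOf (restOf P))).filter fun p => mp P 4 θ p.1 p.2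

/-- the system of a program -/
def sig (P : List Ins) : Sig := ⟨restOf P, extraOf P, (ths P).map (glueOf P)⟩

/-- shapes of the local isomorphisms -/
inductive Shape (P : List Ins) : Th → Prop
  | exit (κ q : ℕ) : (κ, q) ∈ regs P → exK κ = true → κ ≠ 12 →
      Shape P (0, lag P κ q, (κ, q), (10, 0), false)
  | self (i : ℕ) : i < 3 → Shape P (0, i, (1, i), (2, 0), false)
  | self' : Shape P (0, 0, (3, 0), (2, 0), true)
  | gh : Shape P (0, 0, (12, 0), (10, 0), true)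
  | hg : Shape P (0, 0, (10, 0), (11, 0), false)
  | gg : Shape P (0, 0, (11, 0), (12, 0), false)
  | pair (q : ℕ) : (ins P q).1 = 1 → Shape P (1, q, (0, 0), (0, 0), false)
  | loop (q : ℕ) : (ins P q).1 = 1 → Shape P (2, q, (0, q), (8, q), false)
  | alt (q : ℕ) : (ins P q).1 = 1 → Shape P (2, q, (0, q), (9, 0), false)
  | move (q q' : ℕ) (z : Bool) : q' < P.length →
      ((ins P q).1 = 2 ∧ q' = (ins P q).2.2.1 ∧ z = false ∨
        (ins P q).1 = 3 ∧ q' = cond z (ins P q).2.2.1 (ins P q).2.2.2) →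
      Shape P (2, q, (0, q'), (8, q'), z)

/-- the action on a counter -/
def Cm (T : ℕ) (z : Bool) (i v v' : ℕ) : Prop :=
  (i = 2 ∧ z = true ∧ v = 0 ∧ v' = 0) ∨ (¬ (i = 2 ∧ z = true) ∧ v' + i = v + 1 ∧ v ≤ T + 1 + i)

/-- the graph of a local isomorphism with horizon `T` -/
inductive Mp (P : List Ins) (T : ℕ) : Th → Nm → Nm → Prop
  | h (θ : Th) (k : ℕ) : k ≤ T → Mp P T θ (el (10, 0) k) (el (13, 0) (k + 1))
  | g1 (θ : Th) (k : ℕ) : k ≤ T + 2 → Mp P T θ (el (11, 0) k) (el (14, 0) (k + 1))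
  | g2 (θ : Th) (k : ℕ) : k ≤ T + 1 → Mp P T θ (el (12, 0) k) (el (15, 0) (k + 1))
  | up (i : ℕ) (r r' : ℕ × ℕ) (k : ℕ) : k ≤ T + 2 + i →
      Mp P T (0, i, r, r', false) (el (1, i) k) (el r (k + 1))
  | dn (i : ℕ) (r r' : ℕ × ℕ) (k : ℕ) : k ≤ T + 2 + i →
      Mp P T (0, i, r, r', true) (el (3, 0) k) (el r (k + 1))
  | s (i : ℕ) (r r' : ℕ × ℕ) (z : Bool) (k : ℕ) : k ≤ T + 1 →
      Mp P T (0, i, r, r', z) (el (2, 0) k) (el r' (k + 1))
  | pg (q : ℕ) (r r' : ℕ × ℕ) (z : Bool) (k : ℕ) : k ≤ T + 1 →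
      Mp P T (1, q, r, r', z) (el (8, q) k) (el (8, q) (k + 1))
  | py (q : ℕ) (r r' : ℕ × ℕ) (z : Bool) (k : ℕ) : k ≤ T + 1 →
      Mp P T (1, q, r, r', z) (el (9, 0) k) (el (9, 0) (k + 1))
  | ma (q : ℕ) (r r' : ℕ × ℕ) (z : Bool) (k : ℕ) : k ≤ T + 1 →
      Mp P T (2, q, r, r', z) (el (4, q) k) (el (4, r.2) (k + 1))
  | mg (q : ℕ) (r r' : ℕ × ℕ) (z : Bool) (k : ℕ) : k ≤ T + 1 →
      Mp P T (2, q, r, r', z) (el (8, q) k) (el r' (k + 1))
  | mc (q : ℕ) (r r' : ℕ × ℕ) (z : Bool) (κ v v' : ℕ) : κ = 5 ∨ κ = 6 → Cm T z (lag P κ q) v v' →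
      Mp P T (2, q, r, r', z) (el (κ, q) v) (el (κ, r.2) v')
  | mq (q : ℕ) (r r' : ℕ × ℕ) (z : Bool) (k l k' l' : ℕ) : Cm T z (lag P 5 q) k k' →
      Cm T z (lag P 6 q) l l' → Mp P T (2, q, r, r', z) (7, q, k, l) (7, r.2, k', l')

/-- the configuration merges with the run when started at time `t` -/
def bit (P : List Ins) (q t k l : ℕ) : Prop := ∃ n, (step P)^[n] (q, k, l) = run P (t + n)

/-- the operation of the type with horizons `gx`, `gy` -/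
inductive Fn (P : List Ins) (gx gy : ℕ) : Nm → Nm → Nm → Prop
  | base (a b c : Nm) : (a, b, c) ∈ baseOf (restOf P) → Fn P gx gy a b c
  | ex (κ q j : ℕ) : exK κ = true →
      Fn P gx gy (el (κ, q) (j + lag P κ q)) (el (10, 0) j) (el (κ, q) (j + lag P κ q + 1))
  | en (κ q k : ℕ) : enK κ = true → 1 ≤ k →
      Fn P gx gy (el (κ, q) k) (el (13, 0) k) (el (κ, q) (k + 1))
  | w (i j : ℕ) : Fn P gx gy (el (1, i) (j + i)) (el (2, 0) j) (el (1, i) (j + i + 1))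
  | w' (j : ℕ) : Fn P gx gy (el (3, 0) j) (el (2, 0) j) (el (3, 0) (j + 1))
  | ga (j : ℕ) : j < gy → Fn P gx gy (el (10, 0) j) (el (11, 0) j) (el (10, 0) (j + 1))
  | ga' (j : ℕ) : 1 ≤ j → j ≤ gx → Fn P gx gy (el (13, 0) j) (el (14, 0) j) (el (13, 0) (j + 1))
  | gg (j : ℕ) : Fn P gx gy (el (11, 0) j) (el (12, 0) j) (el (11, 0) (j + 1))
  | gg' (j : ℕ) : 1 ≤ j → Fn P gx gy (el (14, 0) j) (el (15, 0) j) (el (14, 0) (j + 1))
  | pos (q k l : ℕ) : Fn P gx gy (el (5, q) k) (el (6, q) l) (7, q, k, l)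
  | bt (q t k l : ℕ) : bit P q t k l → Fn P gx gy (el (4, q) t) (7, q, k, l) (el (8, q) t)

/-- the points of the finite model -/
def Box (n m : ℕ) (a : Nm) : Prop := a.1 ≤ 15 ∧ a.2.1 ≤ n ∧ a.2.2.1 ≤ m ∧ a.2.2.2 ≤ m

/-- the lexicographic order on names -/
def Lt (a b : Nm) : Prop :=
  a.1 < b.1 ∨ a.1 = b.1 ∧ (a.2.1 < b.2.1 ∨ a.2.1 = b.2.1 ∧
    (a.2.2.1 < b.2.2.1 ∨ a.2.2.1 = b.2.2.1 ∧ a.2.2.2 < b.2.2.2))

/-- models of the system of a program, with the local isomorphisms indexed by their data -/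
structure AM (P : List Ins) : Type 1 where
  /-- points -/
  A : Type
  /-- the operation -/
  R : A → A → A → Prop
  /-- the named points -/
  ν : ℕ × ℕ → ℕ → A
  /-- the local isomorphisms -/
  Θ : Th → A → A → Prop
  fn : ∀ a b c c', R a b c → R a b c' → c = c'
  ne : ∀ q < P.length, ν (8, q) 0 ≠ ν (9, 0) 0
  ex : ∀ κ q, (κ, q) ∈ regs P → exK κ = true →
    R (ν (κ, q) (lag P κ q)) (ν (10, 0) 0) (ν (κ, q) (lag P κ q + 1))
  w : ∀ i < 3, R (ν (1, i) i) (ν (2, 0) 0) (ν (1, i) (i + 1))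
  w' : R (ν (3, 0) 0) (ν (2, 0) 0) (ν (3, 0) 1)
  ga : R (ν (10, 0) 0) (ν (11, 0) 0) (ν (10, 0) 1)
  gg : R (ν (11, 0) 0) (ν (12, 0) 0) (ν (11, 0) 1)
  pos : R (ν (5, 0) 0) (ν (6, 0) 0) (ν (7, 0) 0)
  bt : R (ν (4, 0) 0) (ν (7, 0) 0) (ν (8, 0) 0)
  glue : ∀ θ, Shape P θ → ∀ r ∈ regs P, ∀ r' ∈ regs P, ∀ k ≤ 3, ∀ k' ≤ 3,
    Mp P 4 θ (el r k) (el r' k') → Θ θ (ν r k) (ν r' k')
  bij : ∀ θ, Shape P θ → ∀ a a' b b', Θ θ a a' → Θ θ b b' → (a = b ↔ a' = b')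
  fwd : ∀ θ, Shape P θ → ∀ a a' b b' c, Θ θ a a' → Θ θ b b' → R a b c →
    ∃ c', R a' b' c' ∧ Θ θ c c'

/-- the registers extended to all indices -/
structure Eng {P : List Ins} (M : AM P) where
  /-- the values -/
  v : ℕ × ℕ → ℕ → M.A
  nm : ∀ κ q, (κ, q) ∈ regs P → exK κ = true → ∀ k ≤ lag P κ q + 1, v (κ, q) k = M.ν (κ, q) k
  ex : ∀ κ q, (κ, q) ∈ regs P → exK κ = true → ∀ j,
    M.R (v (κ, q) (j + lag P κ q)) (v (10, 0) j) (v (κ, q) (j + lag P κ q + 1))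
  en : ∀ κ q, (κ, q) ∈ regs P → exK κ = true → ∀ j,
    M.R (v (κ, q) (j + 1)) (v (13, 0) (j + 1)) (v (κ, q) (j + 2))
  h : ∀ θ, Shape P θ → ∀ j, M.Θ θ (v (10, 0) j) (v (13, 0) (j + 1))

end Pool.Agent.P.MP_48d4bc_co.EX
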