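import Pool.Agent.P.MP_48d4bc_co.EXStr

set_option autoImplicit false

/-! The naive amalgam along the sections of one type over one map. -/

namespace Pool.Agent.P.MP_48d4bc_co.EX

open Set Function

theorem naive {A ty : Type} [Finite A] {T : Tpl A ty} (P : Str A ty) (hP : Good T P) {Z : Type}
    (π : P.W → Z) (α : ty) (γ : A → Z) (hγ : Injective γ) (κ : Type) [Finite κ] :
    ∃ (C : Str A ty) (_ : Finite C.W) (ι : Type) (_ : Finite ι) (j : ι → P.W → C.W) (π' : C.W → Z),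
      (∀ l, Hom P C (j l)) ∧ (∀ l, Injective (j l)) ∧ (∀ l w, π' (j l w) = π w) ∧
      (∀ β, ∀ τ ∈ C.Sec β, ∃ l, ∃ σ ∈ P.Sec β, τ = j l ∘ σ) ∧
      (∀ l, ∀ σ ∈ P.Sec α, π ∘ σ = γ → Strong T (T.str α) C (j l ∘ σ)) ∧
      ∀ c : (A → C.W) → κ, ∃ l k, ∀ σ ∈ P.Sec α, π ∘ σ = γ → c (j l ∘ σ) = k := by
  classical
  have := hP.fin
  let Ω := {σ : A → P.W // σ ∈ P.Sec α ∧ π ∘ σ = γ}
  obtain ⟨ι, _, hι⟩ := Combinatorics.Line.exists_mono_in_high_dimension Ω κ
  let L := Combinatorics.Line Ω ι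
  have hL : Finite L := Finite.of_injective (fun l : L => l.idxFun) fun _ _ h =>
    Combinatorics.Line.ext h
  have hΩ : ∀ (s : Ω) a, π (s.1 a) = γ a := fun s a => congrFun s.2.2 a
  have hS : ∀ s : Ω, Strong T (T.str α) P s.1 := fun s => hP.str α _ s.2.1
  obtain ⟨j, hj, hj'⟩ : ∃ j : L → P.W → (ι → P.W) ⊕ L × P.W,
      (∀ l w a, π w = γ a → j l w = Sum.inl fun k => (l.idxFun k).elim w fun s => s.1 a) ∧
      ∀ l w, (¬∃ a, π w = γ a) → j l w = Sum.inr (l, w) := by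
    refine ⟨fun l w => if h : ∃ a, π w = γ a then
      Sum.inl fun k => (l.idxFun k).elim w fun s => s.1 h.choose else Sum.inr (l, w),
      fun l w a h => ?_, fun l w h => dif_neg h⟩
    have h' : ∃ a, π w = γ a := ⟨a, h⟩
    beta_reduce
    rw [dif_pos h', hγ (h'.choose_spec.symm.trans h)]
  let π' : (ι → P.W) ⊕ L × P.W → Z := Sum.elim
    (fun f => if h : Nonempty ι then π (f h.some) else γ T.x) fun q => π q.2
  have hπ : ∀ l w, π' (j l w) = π w := fun l w => by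
    by_cases h : ∃ a, π w = γ a
    · obtain ⟨a, h⟩ := h
      have hn : Nonempty ι := ⟨l.proper.choose⟩
      rw [hj l w a h]
      simp only [π', Sum.elim_inl, dif_pos hn]
      rcases l.idxFun hn.some with _ | s
      · rfl
      · exact (hΩ s a).trans h.symm
    · rw [hj' l w h]; rfl
  clear_value π'
  have hinj : ∀ l, Injective (j l) := fun l u v e => by
    have e' : π u = π v := (hπ l u).symm.trans ((congrArg π' e).trans (hπ l v))
    by_cases h : ∃ a, π u = γ a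
    · obtain ⟨a, h⟩ := h
      obtain ⟨k, hk⟩ := l.proper
      rw [hj l u a h, hj l v a (e'.symm.trans h)] at e
      simpa [hk] using congrFun (Sum.inl.inj e) k
    · rw [hj' l u h, hj' l v (e' ▸ h)] at e
      exact (Prod.mk.inj (Sum.inr.inj e)).2
  have hw : ∀ (l : L) (s : Ω), j l ∘ s.1 = fun a => Sum.inl fun k => (l s k).1 a := fun l s => by
    funext a
    rw [comp_apply, hj l _ a (hΩ s a)]
    congr 1
    funext k
    change _ = ((l.idxFun k).getD s).1 a
    rcases l.idxFun k with _ | t <;> rfl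
  have K : ∀ (l l' : L) (s : Ω) a u, j l (s.1 a) = j l' u →
      π u = γ a ∧ ∀ k, (l s k).1 a = (l'.idxFun k).elim u fun t => t.1 a := fun l l' s a u e => by
    have h1 : π u = γ a :=
      (hπ l' u).symm.trans ((congrArg π' e).symm.trans ((hπ l _).trans (hΩ s a)))
    refine ⟨h1, fun k => ?_⟩
    rw [hj l' u a h1, ← comp_apply (f := j l), hw] at e
    exact congrFun (Sum.inl.inj e) k
  refine ⟨⟨(ι → P.W) ⊕ L × P.W,
    fun u v z => ∃ l a b d, P.R a b d ∧ u = j l a ∧ v = j l b ∧ z = j l d,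
    fun β => {τ | ∃ l, ∃ σ ∈ P.Sec β, τ = j l ∘ σ}⟩, inferInstance, L, hL, j, π',
    fun l => ⟨fun a b d h => ⟨l, a, b, d, h, rfl, rfl, rfl⟩, fun β σ h => ⟨l, σ, h, rfl⟩⟩,
    hinj, hπ, fun β τ h => h, fun l σ h1 h2 => ?_, fun c => ?_⟩
  · obtain ⟨s, rfl⟩ : ∃ s : Ω, s.1 = σ := ⟨⟨σ, h1, h2⟩, rfl⟩
    refine ⟨⟨fun a b d h => ⟨l, _, _, _, (hS s).hom.rel a b d h, rfl, rfl, rfl⟩, ?_⟩,
      (hinj l).comp (hS s).inj, ?_, ?_⟩
    · rintro β ρ ⟨rfl, rfl⟩
      exact ⟨l, s.1, h1, rfl⟩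
    · rintro a b z ⟨l', u, v, w, h, ha, hb, rfl⟩
      have ka := (K l l' s a u ha).2
      have kb := (K l l' s b v hb).2
      have mv : ∀ k, l'.idxFun k = none → ∃ d, T.R α a b d ∧ w = (l s k).1 d := fun k hk => by
        have e1 := ka k
        have e2 := kb k
        rw [hk] at e1 e2
        exact (hS (l s k)).refl a b w (by rw [e1, e2]; exact h)
      obtain ⟨k₀, hk₀⟩ := l'.proper
      obtain ⟨d, hd, hwd⟩ := mv k₀ hk₀
      refine ⟨d, hd, ?_⟩
      rw [hw, hj l' w d (by rw [hwd]; exact hΩ _ d)]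
      beta_reduce
      congr 1
      funext k
      have e1 := ka k
      have e2 := kb k
      rcases hk : l'.idxFun k with _ | t
      · obtain ⟨d', hd', e⟩ := mv k hk
        rw [T.fn α a b d d' hd hd']
        exact e
      · rw [hk] at e1 e2
        refine hP.fn _ _ _ _ ((hS t).hom.rel a b d hd) ?_
        have := (hS (l s k)).hom.rel a b d hd
        rw [e1, e2] at this
        exact this
    · rintro β τ ⟨l', ρ, hρ, rfl⟩ ⟨a, ha⟩ ⟨b, hb⟩
      obtain ⟨pa, ka⟩ := K l l' s a _ ha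
      obtain ⟨pb, kb⟩ := K l l' s b _ hb
      have mv : ∀ k, l'.idxFun k = none → β = α ∧ ρ = (l s k).1 := fun k hk => by
        have e1 := ka k
        have e2 := kb k
        rw [hk] at e1 e2
        exact (hS (l s k)).uniq hρ ⟨a, e1⟩ ⟨b, e2⟩
      obtain ⟨k₀, hk₀⟩ := l'.proper
      obtain ⟨rfl, e₀⟩ := mv k₀ hk₀
      have hρ' : ∀ d, π (ρ d) = γ d := fun d => by rw [e₀]; exact hΩ _ d
      obtain rfl : T.x = a := hγ ((hρ' _).symm.trans pa)
      obtain rfl : T.y = b := hγ ((hρ' _).symm.trans pb)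
      refine ⟨id, ⟨rfl, rfl⟩, ?_⟩
      rw [hw]
      funext d
      rw [comp_apply, hj l' _ d (hρ' d)]
      refine congrArg Sum.inl (funext fun k => ?_)
      have e1 := ka k
      have e2 := kb k
      rcases hk : l'.idxFun k with _ | t
      · exact congrFun (mv k hk).2 d
      · rw [hk] at e1 e2
        exact congrFun ((hS (l s k)).uniq t.2.1 ⟨_, e1⟩ ⟨_, e2⟩).2 d
  · obtain ⟨l, k, hl⟩ := hι fun p => c fun a => Sum.inl fun k => (p k).1 a
    exact ⟨l, k, fun σ h1 h2 => (congrArg c (hw l ⟨σ, h1, h2⟩)).trans (hl _)⟩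

end Pool.Agent.P.MP_48d4bc_co.EX
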