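import Pool.Agent.P.MP_48d4bc_co.EXAmal

set_option autoImplicit false

/-! One step of the partite construction. -/

namespace Pool.Agent.P.MP_48d4bc_co.EX

open Set Function

variable {A ty : Type} {T : Tpl A ty} {Q B : Str A ty} {ι₀ : Type} {j : ι₀ → Q.W → B.W} {κ : Type}
  {g : ℕ}

section Step

variable {P : Sy T Q} {U : Set P.M.W} (hU : Closed T P.M U) (S : Sy T (P.M.part U))

/-- the system on the amalgam -/
@[reducible] noncomputable def EXPic_sys : Sy T Q where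
  M := amal S
  good := amal_good P.good hU S
  ι := S.ι × P.ι
  finι := by
    have := S.finι
    have := P.finι
    infer_instance
  emb z := φ S z.1 ∘ P.emb z.2
  str z := (φ_strong hU S z.1).comp (P.str z.2)

theorem EXPic_meet {z z' : S.ι × P.ι} (h : z.1 ≠ z'.1) {e : Sym2 (amal S).W}
    (h1 : e ∈ (EXPic_sys hU S).E z) (h2 : e ∈ (EXPic_sys hU S).E z') :
    ∃ β, ∃ σ ∈ Q.Sec β, ∃ hs : ∀ a, P.emb z.2 (σ a) ∈ U,
      e = s(Sum.inl (S.emb z.1 ⟨_, hs T.x⟩), Sum.inl (S.emb z.1 ⟨_, hs T.y⟩)) := by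
  obtain ⟨β, σ, hσ, rfl⟩ := h1
  obtain ⟨β', σ', -, e⟩ := h2
  have k : ∀ {u v}, φ S z.1 (P.emb z.2 u) = φ S z'.1 (P.emb z'.2 v) → P.emb z.2 u ∈ U :=
    fun e => (φ_eq S e).elim (fun e => absurd e.1 h) fun ⟨e, _⟩ => e
  have ha := (Sym2.eq_iff.1 e).elim (fun e => k e.1) fun e => k e.1
  have hb := (Sym2.eq_iff.1 e).elim (fun e => k e.2) fun e => k e.2
  have hs := hU.sec β _ ((P.str z.2).hom.sec β σ hσ) ha hb
  exact ⟨β, σ, hσ, hs, by rw [← φ_inl S _ ha, ← φ_inl S _ hb]; rfl⟩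

theorem EXPic_sparse (hP : Sparse P.E (g + 1)) (hS : Sparse S.E g)
    (hu : ∀ i β β', ∀ σ ∈ Q.Sec β, ∀ σ' ∈ Q.Sec β', (∀ a, P.emb i (σ a) ∈ U) →
      (∀ a, P.emb i (σ' a) ∈ U) → σ = σ') : Sparse (EXPic_sys hU S).E (g + 1) := by
  classical
  intro X h1 h2
  change Finset (S.ι × P.ι) at X
  by_cases ha : ∀ z ∈ X, ∀ z' ∈ X, z.1 = z'.1
  · have hc : (X.image Prod.snd).card = X.card :=
      Finset.card_image_of_injOn fun z hz z' hz' e => Prod.ext (ha z hz z' hz') e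
    obtain ⟨p, ⟨i, hi, p1⟩, ⟨i', hi', p2⟩, hp⟩ := hP (X.image Prod.snd) (hc ▸ h1) (hc ▸ h2)
    obtain ⟨z, hz, rfl⟩ := Finset.mem_image.1 hi
    obtain ⟨z', hz', rfl⟩ := Finset.mem_image.1 hi'
    refine ⟨fun w => p w.2, ⟨z, hz, p1⟩, ⟨z', hz', p2⟩,
      (hp.image (Sym2.map (φ S z.1))).anti ?_⟩
    rintro e ⟨⟨w, hw, q, β, σ, hσ, rfl⟩, w', hw', q', β', σ', hσ', e⟩
    refine ⟨s(P.emb w.2 (σ T.x), P.emb w.2 (σ T.y)),
      ⟨⟨w.2, Finset.mem_image_of_mem _ hw, q, β, σ, hσ, rfl⟩,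
        w'.2, Finset.mem_image_of_mem _ hw', q', β', σ', hσ', ?_⟩, ?_⟩
    · apply Sym2.map.injective (φ_inj S w.1)
      rw [Sym2.map_mk, Sym2.map_mk]
      refine e.trans ?_
      rw [ha w hw w' hw']
      rfl
    · rw [ha z hz w hw]
      rfl
  push Not at ha
  obtain ⟨z, hz, z', hz', hne⟩ := ha
  by_cases hb : (X.image Prod.fst).card ≤ g
  · obtain ⟨p, ⟨i, hi, p1⟩, ⟨i', hi', p2⟩, hp⟩ := hS (X.image Prod.fst) (Finset.one_lt_card.2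
      ⟨_, Finset.mem_image_of_mem _ hz, _, Finset.mem_image_of_mem _ hz', hne⟩) hb
    obtain ⟨u, hu, rfl⟩ := Finset.mem_image.1 hi
    obtain ⟨u', hu', rfl⟩ := Finset.mem_image.1 hi'
    refine ⟨fun w => p w.1, ⟨u, hu, p1⟩, ⟨u', hu', p2⟩, (hp.image (Sym2.map Sum.inl)).anti ?_⟩
    rintro e ⟨⟨w, hw, q, he⟩, w', hw', q', he'⟩
    have hw1 : w.1 ≠ w'.1 := fun e => q' (show p w'.1 from e ▸ q)
    obtain ⟨β, σ, hσ, hs, e1⟩ := EXPic_meet hU S hw1 he he'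
    obtain ⟨β', σ', hσ', hs', e2⟩ := EXPic_meet hU S hw1.symm he' he
    refine ⟨_, ⟨⟨w.1, Finset.mem_image_of_mem _ hw, q, β, fun a => ⟨_, hs a⟩,
      (P.str w.2).hom.sec β σ hσ, rfl⟩, w'.1, Finset.mem_image_of_mem _ hw', q', β',
      fun a => ⟨_, hs' a⟩, (P.str w'.2).hom.sec β' σ' hσ', ?_⟩, e1.symm⟩
    exact Sym2.map.injective Sum.inl_injective (e1.symm.trans e2)
  have hi : InjOn Prod.fst (X : Set (S.ι × P.ι)) :=
    Finset.injOn_of_card_image_eq (le_antisymm Finset.card_image_le (h2.trans (not_le.1 hb)))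
  refine ⟨(· = z), ⟨z, hz, rfl⟩, ⟨z', hz', fun e => hne (e ▸ rfl)⟩, ?_⟩
  rintro e ⟨⟨w, hw, rfl, he⟩, w', hw', q', he'⟩ f ⟨⟨v, -, rfl, hf⟩, v', hv', r', hf'⟩
  obtain ⟨β, σ, hσ, hs, e1⟩ := EXPic_meet hU S (fun e => q' (hi hw hw' e).symm) he he'
  obtain ⟨β', σ', hσ', hs', e2⟩ := EXPic_meet hU S (fun e => r' (hi hw hv' e).symm) hf hf'
  obtain rfl := hu _ β β' σ hσ σ' hσ' hs hs'
  exact e1.trans e2.symm

theorem EXPic_adj {u v : (amal S).W} (h : (amal S).Adj T u v) :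
    ∃ c a b, P.M.Adj T a b ∧ u = φ S c a ∧ v = φ S c b := by
  obtain ⟨β, _, ⟨c, σ, hσ, rfl⟩, ⟨rfl, rfl⟩ | ⟨rfl, rfl⟩⟩ := h
  · exact ⟨c, _, _, ⟨β, σ, hσ, Or.inl ⟨rfl, rfl⟩⟩, rfl, rfl⟩
  · exact ⟨c, _, _, ⟨β, σ, hσ, Or.inr ⟨rfl, rfl⟩⟩, rfl, rfl⟩

include hU in
theorem EXPic_back (c : S.ι) {a b : P.M.W} (h : (amal S).Adj T (φ S c a) (φ S c b)) :
    P.M.Adj T a b := by
  obtain ⟨β, τ, hτ, ⟨h1, h2⟩ | ⟨h1, h2⟩⟩ := h
  · obtain ⟨σ, hσ, rfl⟩ := (φ_strong hU S c).back β τ hτ ⟨_, h1.symm⟩ ⟨_, h2.symm⟩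
    exact ⟨β, σ, hσ, Or.inl ⟨φ_inj S c h1, φ_inj S c h2⟩⟩
  · obtain ⟨σ, hσ, rfl⟩ := (φ_strong hU S c).back β τ hτ ⟨_, h1.symm⟩ ⟨_, h2.symm⟩
    exact ⟨β, σ, hσ, Or.inr ⟨φ_inj S c h1, φ_inj S c h2⟩⟩

end Step

theorem pic_step {D : Set (A → B.W)} (P : Pic T j κ (g + 1) D) (hj : ∀ m, Hom Q B (j m))
    (hi : ∀ m, Injective (j m)) (hR : RB T κ g) {α : ty} {σ₀ : A → B.W}
    (h₀ : Strong T (T.str α) B σ₀) : Nonempty (Pic T j κ (g + 1) (insert σ₀ D)) := by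
  classical
  let U : Set P.M.W := {w | P.π w ∈ range σ₀}
  have hsec : ∀ β, ∀ σ ∈ P.M.Sec β, σ T.x ∈ U → σ T.y ∈ U → β = α ∧ P.π ∘ σ = σ₀ :=
    fun β σ hσ h1 h2 => h₀.uniq (P.hom.sec β σ hσ) h1 h2
  have hU : Closed T P.M U := by
    refine ⟨fun a b c h ⟨a', ha⟩ ⟨b', hb⟩ => ?_, fun β σ hσ h1 h2 a =>
      ⟨a, (congrFun (hsec β σ hσ h1 h2).2 a).symm⟩⟩
    have h1 := P.hom.rel a b c h
    rw [← ha, ← hb] at h1
    obtain ⟨c', -, e⟩ := h₀.refl a' b' _ h1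
    exact ⟨c', e.symm⟩
  choose t ht using fun w : U => (w.2 : ∃ a, σ₀ a = P.π w.1)
  have hom_t : Hom (P.M.part U) (T.str α) t := by
    refine ⟨fun a b c h => ?_, fun β σ hσ => ?_⟩
    · have h1 := P.hom.rel _ _ _ h
      rw [← ht a, ← ht b, ← ht c] at h1
      obtain ⟨c', h2, e⟩ := h₀.refl _ _ _ h1
      rw [h₀.inj e]
      exact h2
    · obtain ⟨h1, h2⟩ := hsec β _ hσ (σ T.x).2 (σ T.y).2
      exact ⟨h1, funext fun a => h₀.inj ((ht (σ a)).trans (congrFun h2 a))⟩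
  obtain ⟨S, t', -, h2, h3, h4⟩ := hR α _ t (part_good P.good hU) hom_t
  let π : (amal S).W → B.W := Sum.elim (fun v => σ₀ (t' v)) fun z => P.π z.2
  have hπ : ∀ c w, π (φ S c w) = P.π w := fun c w => by
    unfold φ
    split_ifs with h
    · exact (congrArg σ₀ (h2 c ⟨w, h⟩)).trans (ht _)
    · rfl
  have hom : Hom (amal S) B π := by
    refine ⟨?_, ?_⟩
    · rintro _ _ _ ⟨c, a, b, d, h, rfl, rfl, rfl⟩
      rw [hπ, hπ, hπ]
      exact P.hom.rel a b d h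
    · rintro β _ ⟨c, σ, hσ, rfl⟩
      have e : π ∘ φ S c ∘ σ = P.π ∘ σ := funext fun a => hπ c _
      rw [e]
      exact P.hom.sec β σ hσ
  clear_value π
  have two : ∀ u v, (amal S).Adj T u v → π u ∈ range σ₀ → π v ∈ range σ₀ →
      (π u = σ₀ T.x ∧ π v = σ₀ T.y) ∨ (π u = σ₀ T.y ∧ π v = σ₀ T.x) := by
    rintro _ _ ⟨β, τ, hτ, ⟨rfl, rfl⟩ | ⟨rfl, rfl⟩⟩ hu hv
    · have e := (h₀.uniq (hom.sec β τ hτ) hu hv).2
      exact Or.inl ⟨congrFun e _, congrFun e _⟩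
    · have e := (h₀.uniq (hom.sec β τ hτ) hv hu).2
      exact Or.inr ⟨congrFun e _, congrFun e _⟩
  have tri : ∀ u v w, (amal S).Adj T u v → (amal S).Adj T u w → (amal S).Adj T v w →
      π u ∉ range σ₀ → ∃ i, u ∈ range ((EXPic_sys hU S).emb i) ∧
        v ∈ range ((EXPic_sys hU S).emb i) ∧ w ∈ range ((EXPic_sys hU S).emb i) := by
    intro u v w a1 a2 a3 hu
    obtain ⟨c, a, b, h, rfl, rfl⟩ := EXPic_adj S a1
    obtain ⟨c', a', d, h', e, rfl⟩ := EXPic_adj S a2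
    rw [hπ] at hu
    obtain ⟨rfl, rfl⟩ := (φ_eq S e).resolve_right fun ⟨ha, _⟩ => hu ha
    obtain ⟨i, ⟨_, rfl⟩, ⟨_, rfl⟩, _, rfl⟩ := P.tri a b d h h' (EXPic_back hU S c a3)
    exact ⟨(c, i), ⟨_, rfl⟩, ⟨_, rfl⟩, _, rfl⟩
  refine ⟨⟨EXPic_sys hU S, π, hom, fun z => P.below z.2, fun z a => (hπ _ _).trans (P.proj _ _),
    EXPic_sparse hU S P.sparse h4 fun i β β' σ hσ σ' hσ' k k' => ?_, fun u v w a b c => ?_,
    fun c => ?_⟩⟩
  · have e := (hsec β _ ((P.str i).hom.sec β σ hσ) (k _) (k _)).2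
    have e' := (hsec β' _ ((P.str i).hom.sec β' σ' hσ') (k' _) (k' _)).2
    refine funext fun a => hi (P.below i) ?_
    rw [← P.proj, ← P.proj]
    exact (congrFun e a).trans (congrFun e' a).symm
  · by_cases hu : π u ∈ range σ₀
    · by_cases hv : π v ∈ range σ₀
      · have hw : π w ∉ range σ₀ := fun hw => by
          have hne : σ₀ T.x ≠ σ₀ T.y := h₀.inj.ne T.ne
          rcases two u v a hu hv with ⟨e1, e2⟩ | ⟨e1, e2⟩ <;>
            rcases two u w b hu hw with ⟨e3, e4⟩ | ⟨e3, e4⟩ <;>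
            rcases two v w c hv hw with ⟨e5, e6⟩ | ⟨e5, e6⟩ <;>
            first
              | exact hne (e1.symm.trans e3)
              | exact hne (e3.symm.trans e1)
              | exact hne (e2.symm.trans e5)
              | exact hne (e5.symm.trans e2)
              | exact hne (e4.symm.trans e6)
              | exact hne (e6.symm.trans e4)
        obtain ⟨i, p, q, r⟩ := tri w u v b.symm c.symm a hw
        exact ⟨i, q, r, p⟩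
      · obtain ⟨i, p, q, r⟩ := tri v u w a.symm c b hv
        exact ⟨i, q, p, r⟩
    · exact tri u v w a b c hu
  · obtain ⟨i, χ₀, hk⟩ := h3 fun ρ => c (Sum.inl ∘ ρ)
    obtain ⟨χ, hχ⟩ := P.ram fun ρ => c (φ S i ∘ ρ)
    refine ⟨Function.update χ σ₀ (χ₀ α), fun m => ?_⟩
    obtain ⟨l, rfl, hl⟩ := hχ m
    refine ⟨(i, l), rfl, fun β σ hσ hD => ?_⟩
    by_cases he : j (P.below l) ∘ σ = σ₀
    · rw [he, Function.update_self]
      have hs : ∀ a, P.emb l (σ a) ∈ U := fun a =>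
        ⟨a, ((P.proj l (σ a)).trans (congrFun he a)).symm⟩
      have h5 : (fun a => (⟨_, hs a⟩ : U)) ∈ (P.M.part U).Sec β := (P.str l).hom.sec β σ hσ
      rw [← hom_t.sec_ty h5, ← hk β _ h5]
      exact congrArg c (funext fun a => φ_inl S i (hs a))
    · rw [Function.update_of_ne he]
      exact hl β σ hσ (hD.resolve_left he)

end Pool.Agent.P.MP_48d4bc_co.EX
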