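import Pool.Agent.P.MP_48d4bc_co.EXDefs
import Pool.Agent.Lib.PrimrecProp.Basic

set_option autoImplicit false

/-! The gadget, systems of local isomorphisms, their graphs and their models. -/

namespace Pool.Agent.P.MP_48d4bc_co.EX

open Set Function Pool.Agent.Lib.PrimrecProp

universe u

/-- edges of the gadget -/
def gamE : List (ℕ × ℕ) :=
  [(0, 3), (0, 4), (0, 5), (1, 6), (1, 7), (1, 8), (2, 3), (2, 5), (2, 7), (3, 4), (3, 5), (3, 6),
    (3, 7), (3, 8), (4, 6), (6, 7), (6, 8)]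

/-- the gadget, with roots 0, 1, 2 -/
def Gam : SimpleGraph (Fin 9) := graphOf 9 gamE

/-- the two copies of the gadget, glued at 0 and 1 -/
def gi (s : Bool) (j : Fin 9) : Bool × Fin 9 := (if j.1 < 2 then false else s, j)

/-- vertices of the forbidden graph -/
abbrev GV := {v : Bool × Fin 9 // v.2.1 < 2 → v.1 = false}

/-- the forbidden graph -/
def GG : SimpleGraph GV :=
  SimpleGraph.fromRel fun u v => ∃ s a b, Gam.Adj a b ∧ u.1 = gi s a ∧ v.1 = gi s b

/-- the vertices of the eight copies in a thick gadget -/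
def th (m a : ℕ) : ℕ := cond (leb a 2) a (6 * m + a)

/-- edges of a thick gadget -/
def thE : List (ℕ × ℕ) := (pairs (List.range 8) gamE).map fun z => (th z.1 z.2.1, th z.1 z.2.2)

/-- names -/
abbrev Nm := ℕ × ℕ × ℕ × ℕ

/-- facts -/
abbrev Ft := Nm × Nm × Nm

/-- vertices -/
abbrev Vx := ℕ × Bool × Ft × ℕ

/-- first end of the edge -/
def nx : Nm := (0, 0, 0, 0)
/-- second end of the edge -/
def ny : Nm := (0, 0, 0, 1)
/-- marker -/
def m1 : Nm := (0, 0, 0, 2)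
/-- marker -/
def m2 : Nm := (0, 0, 0, 3)
/-- marker -/
def m3 : Nm := (0, 0, 0, 4)

/-- a system: further names, further facts, glue lists -/
structure Sig where
  /-- further names -/
  rest : List Nm
  /-- further facts -/
  extra : List Ft
  /-- glue lists -/
  glue : List (List (Nm × Nm))

/-- all names from the further names -/
def namesOf (rest : List Nm) : List Nm := nx :: ny :: m1 :: m2 :: m3 :: rest

/-- marker facts and the chain through all names -/
def baseOf (rest : List Nm) : List Ft :=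
  (nx, ny, m1) :: (ny, nx, m2) :: (nx, m1, m2) :: (ny, m2, m3) ::
    (List.range rest.length).map fun i => ((m3 :: rest).getD i nx, ny, rest.getD i nx)

/-- the other side of a glued name -/
def back (g : List (Nm × Nm)) (a : Nm) : Bool × Nm :=
  g.foldr (fun p r => cond (eqb p.2 a) (false, p.1) r) (true, a)

/-- the vertex of a name on a side -/
def nv (i : ℕ) (r : Bool × Nm) : Vx := (i, r.1, (r.2, r.2, r.2), 0)

namespace Sig

variable (S : Sig)

/-- all names -/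
def names : List Nm := namesOf S.rest

/-- all facts -/
def facts : List Ft := baseOf S.rest ++ S.extra

/-- a glue list -/
def gl (i : ℕ) : List (Nm × Nm) := S.glue.getD i []

/-- the vertex of a name in a copy -/
def vtx (i : ℕ) (s : Bool) (a : Nm) : Vx := nv i (cond s (back (S.gl i) a) (false, a))

/-- the vertices of the gadget of a fact in a copy -/
def gad (i : ℕ) (s : Bool) (φ : Ft) (j : ℕ) : Vx :=
  cond (eqb j 0) (S.vtx i s φ.1) (cond (eqb j 1) (S.vtx i s φ.2.1)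
    (cond (eqb j 2) (S.vtx i s φ.2.2) (i, s, φ, j)))

/-- all edges -/
def edges : List (Vx × Vx) :=
  (pairs (List.range S.glue.length) [false, true]).flatMap fun z =>
    (S.vtx z.1 z.2 nx, S.vtx z.1 z.2 ny) :: (pairs S.facts thE).map fun w =>
      (S.gad z.1 z.2 w.1 w.2.1, S.gad z.1 z.2 w.1 w.2.2)

/-- the coded edges -/
def code : List (ℕ × ℕ) := S.edges.map fun e => (Encodable.encode e.1, Encodable.encode e.2)

/-- the number of coded vertices -/
def size : ℕ := S.code.foldr (fun e r => e.1 + e.2 + r) 1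

/-- ends of edges -/
def Valid : Set Vx := {v | ∃ e ∈ S.edges, v = e.1 ∨ v = e.2}

/-- adjacency -/
def Ad (u v : Vx) : Prop := (u, v) ∈ S.edges ∨ (v, u) ∈ S.edges

/-- well formed systems -/
structure WF : Prop where
  nodup : S.names.Nodup
  pos : 0 < S.glue.length
  ext : ∀ φ ∈ S.extra, φ.1 ∈ S.names ∧ φ.2.1 ∈ S.names ∧ φ.2.2 ∈ S.names ∧ φ.1 ≠ φ.2.1 ∧
    φ.1 ≠ φ.2.2 ∧ φ.2.1 ≠ φ.2.2 ∧ φ.2.2 ≠ nx ∧ φ.2.2 ≠ ny
  mem : ∀ i, ∀ p ∈ S.gl i, p.1 ∈ S.names ∧ p.2 ∈ S.names ∧ p.1 ≠ nx ∧ p.1 ≠ ny ∧ p.2 ≠ nx ∧ p.2 ≠ ny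
  bij : ∀ i, ∀ p ∈ S.gl i, ∀ p' ∈ S.gl i, (p.1 = p'.1 ↔ p.2 = p'.2)

/-- property (1) for the graph of the system -/
def P1 : Prop :=
  ∀ (κ : Type) [Finite κ] [Nonempty κ], ∃ (W : Type u) (H : SimpleGraph W), GG.Free H ∧
    ∀ c : Sym2 W → κ, ∃ (f : Vx → W) (k : κ), InjOn f S.Valid ∧
      ∀ e ∈ S.edges, H.Adj (f e.1) (f e.2) ∧ c s(f e.1, f e.2) = k

/-- models -/
structure Model : Type 1 where
  /-- points -/
  A : Type
  /-- the operation -/
  R : A → A → A → Prop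
  /-- the named points -/
  ν : Nm → A
  /-- the local isomorphisms -/
  Θ : ℕ → A → A → Prop
  fn : ∀ a b c c', R a b c → R a b c' → c = c'
  inj : ∀ a ∈ S.names, ∀ b ∈ S.names, ν a = ν b → a = b
  fact : ∀ φ ∈ S.facts, R (ν φ.1) (ν φ.2.1) (ν φ.2.2)
  glue : ∀ i < S.glue.length, ∀ p ∈ S.gl i, Θ i (ν p.1) (ν p.2)
  bij : ∀ i < S.glue.length, ∀ a a' b b', Θ i a a' → Θ i b b' → (a = b ↔ a' = b')
  fwd : ∀ i < S.glue.length, ∀ a a' b b' c, Θ i a a' → Θ i b b' → R a b c →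
    ∃ c', R a' b' c' ∧ Θ i c c'

/-- finite ordered typed models; `r` is the rank in the order -/
structure GModel (N : ℕ) : Type 1 where
  /-- points -/
  A : Type
  /-- the operation of a type -/
  R : ℕ → ℕ → A → A → A → Prop
  /-- the named points -/
  ν : Nm → A
  /-- the local isomorphisms at a level -/
  Θ : ℕ → ℕ → A → A → Prop
  /-- the rank -/
  r : A → ℕ
  fin : Finite A
  rinj : Injective r
  fn : ∀ x y a b c c', R x y a b c → R x y a b c' → c = c'
  irr : ∀ x y a c, ¬ R x y a a c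
  inj : ∀ a ∈ S.names, ∀ b ∈ S.names, ν a = ν b → a = b
  fact : ∀ x y, x < y → y < N → ∀ φ ∈ S.facts, R x y (ν φ.1) (ν φ.2.1) (ν φ.2.2)
  glue : ∀ i < S.glue.length, ∀ z < N, ∀ p ∈ S.gl i, Θ i z (ν p.1) (ν p.2)
  bij : ∀ i < S.glue.length, ∀ z < N, ∀ a a' b b', Θ i z a a' → Θ i z b b' → (a = b ↔ a' = b')
  fwd : ∀ i < S.glue.length, ∀ w z y, w < z → z < y → y < N → ∀ a a' b b' c, Θ i z a a' →
    Θ i z b b' → R w z a b c → ∃ c', R z y a' b' c' ∧ Θ i z c c'
  bwd : ∀ i < S.glue.length, ∀ w z y, w < z → z < y → y < N → ∀ a a' b b' c', Θ i z a a' →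
    Θ i z b b' → R z y a' b' c' → ∃ c, R w z a b c ∧ Θ i z c c'
  lo : r (ν nx) < r (ν ny) ∧ ∀ a, a ≠ ν nx → r (ν ny) ≤ r a
  mono : ∀ i < S.glue.length, ∀ z < N, ∀ a a' b b', Θ i z a a' → Θ i z b b' → r a < r b →
    r a' < r b'
  off : ∀ i < S.glue.length, ∀ z < N, ∀ a a', Θ i z a a' →
    a ≠ ν nx ∧ a ≠ ν ny ∧ a' ≠ ν nx ∧ a' ≠ ν ny
  only : ∀ i < S.glue.length, ∀ z < N, ∀ a ∈ S.names, ∀ b ∈ S.names, Θ i z (ν a) (ν b) →
    (a, b) ∈ S.gl i

end Sig

end Pool.Agent.P.MP_48d4bc_co.EX
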