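import Pool.Agent.P.MP_48d4bc_co.Partite

set_option autoImplicit false

/-! Structures with a binary operation, not everywhere defined, and typed copies of a template. -/

namespace Pool.Agent.P.MP_48d4bc_co.EX

open Set Function

/-- points, the graph of an operation, and the sections (copies of the template) of each type -/
structure Str (A ty : Type) : Type 1 where
  /-- points -/
  W : Type
  /-- the operation -/
  R : W → W → W → Prop
  /-- sections -/
  Sec : ty → Set (A → W)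

/-- the template: an edge and an operation for each type -/
structure Tpl (A ty : Type) where
  /-- first end of the edge -/
  x : A
  /-- second end of the edge -/
  y : A
  /-- the operation -/
  R : ty → A → A → A → Prop
  ne : x ≠ y
  fn : ∀ α a b c c', R α a b c → R α a b c' → c = c'

variable {A ty : Type}

/-- the template of a type as a structure -/
@[reducible] def Tpl.str (T : Tpl A ty) (α : ty) : Str A ty :=
  ⟨A, T.R α, fun β => {σ | β = α ∧ σ = id}⟩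

/-- homomorphisms -/
structure Hom (M N : Str A ty) (f : M.W → N.W) : Prop where
  rel : ∀ a b c, M.R a b c → N.R (f a) (f b) (f c)
  sec : ∀ α, ∀ σ ∈ M.Sec α, f ∘ σ ∈ N.Sec α

/-- strong embeddings -/
structure Strong (T : Tpl A ty) (M N : Str A ty) (f : M.W → N.W) : Prop where
  hom : Hom M N f
  inj : Injective f
  refl : ∀ a b z, N.R (f a) (f b) z → ∃ c, M.R a b c ∧ z = f c
  back : ∀ α, ∀ τ ∈ N.Sec α, τ T.x ∈ range f → τ T.y ∈ range f → ∃ σ ∈ M.Sec α, τ = f ∘ σ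

/-- finite, functional, all sections strong -/
structure Good (T : Tpl A ty) (M : Str A ty) : Prop where
  fin : Finite M.W
  fn : ∀ a b c c', M.R a b c → M.R a b c' → c = c'
  str : ∀ α, ∀ σ ∈ M.Sec α, Strong T (T.str α) M σ

/-- the edges of the sections -/
def Str.Adj (M : Str A ty) (T : Tpl A ty) (u v : M.W) : Prop :=
  ∃ α, ∃ σ ∈ M.Sec α, (σ T.x = u ∧ σ T.y = v) ∨ (σ T.x = v ∧ σ T.y = u)

/-- a good structure with a system of strong copies of `Q` -/
structure Sy (T : Tpl A ty) (Q : Str A ty) : Type 1 where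
  /-- the structure -/
  M : Str A ty
  good : Good T M
  /-- indices of the copies -/
  ι : Type
  finι : Finite ι
  /-- the copies -/
  emb : ι → Q.W → M.W
  str : ∀ i, Strong T Q M (emb i)

variable {T : Tpl A ty} {Q : Str A ty}

/-- the edges of a copy -/
def Sy.E (S : Sy T Q) (i : S.ι) : Set (Sym2 S.M.W) :=
  {e | ∃ α, ∃ σ ∈ Q.Sec α, e = s(S.emb i (σ T.x), S.emb i (σ T.y))}

/-- in some copy the colour of a section from `Rel` depends only on its type -/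
def Sy.Ram (S : Sy T Q) (Rel : ty → Set (A → Q.W)) (κ : Type) : Prop :=
  ∀ c : (A → S.M.W) → κ, ∃ (i : S.ι) (χ : ty → κ), ∀ α, ∀ σ ∈ Rel α, c (S.emb i ∘ σ) = χ α

/-- every triangle lies in a copy -/
def Sy.Tri (S : Sy T Q) : Prop :=
  ∀ u v w, S.M.Adj T u v → S.M.Adj T u w → S.M.Adj T v w →
    ∃ i, u ∈ range (S.emb i) ∧ v ∈ range (S.emb i) ∧ w ∈ range (S.emb i)

/-- the partite statement -/
def RB (T : Tpl A ty) (κ : Type) (g : ℕ) : Prop :=
  ∀ (α : ty) (Q : Str A ty) (t : Q.W → A), Good T Q → Hom Q (T.str α) t →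
    ∃ (S : Sy T Q) (t' : S.M.W → A), Hom S.M (T.str α) t' ∧ (∀ i a, t' (S.emb i a) = t a) ∧
      S.Ram Q.Sec κ ∧ Sparse S.E g

/-- pictures over a base `B` that need not be good -/
structure Pic (T : Tpl A ty) {Q B : Str A ty} {ι₀ : Type} (j : ι₀ → Q.W → B.W) (κ : Type) (g : ℕ)
    (D : Set (A → B.W)) : Type 1 extends Sy T Q where
  /-- the projection -/
  π : M.W → B.W
  hom : Hom M B π
  /-- the copy below -/
  below : ι → ι₀
  proj : ∀ i a, π (emb i a) = j (below i) a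
  sparse : Sparse toSy.E g
  tri : toSy.Tri
  ram : ∀ c : (A → M.W) → κ, ∃ χ : (A → B.W) → κ, ∀ m, ∃ i, below i = m ∧ ∀ α, ∀ σ ∈ Q.Sec α,
    j m ∘ σ ∈ D → c (emb i ∘ σ) = χ (j m ∘ σ)

theorem Hom.comp {M N P : Str A ty} {f : M.W → N.W} {g : N.W → P.W} (hg : Hom N P g)
    (hf : Hom M N f) : Hom M P (g ∘ f) :=
  ⟨fun _ _ _ h => hg.rel _ _ _ (hf.rel _ _ _ h), fun α σ h => hg.sec α _ (hf.sec α σ h)⟩

theorem Strong.comp {M N P : Str A ty} {f : M.W → N.W} {g : N.W → P.W} (hg : Strong T N P g)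
    (hf : Strong T M N f) : Strong T M P (g ∘ f) := by
  refine ⟨hg.hom.comp hf.hom, hg.inj.comp hf.inj, fun a b z h => ?_,
    fun α τ h ⟨a, ha⟩ ⟨b, hb⟩ => ?_⟩
  · obtain ⟨c, h1, rfl⟩ := hg.refl _ _ z h
    obtain ⟨d, h2, rfl⟩ := hf.refl _ _ c h1
    exact ⟨d, h2, rfl⟩
  · obtain ⟨σ, h1, rfl⟩ := hg.back α τ h ⟨_, ha⟩ ⟨_, hb⟩
    obtain ⟨ρ, h2, rfl⟩ := hf.back α σ h1 ⟨a, hg.inj ha⟩ ⟨b, hg.inj hb⟩
    exact ⟨ρ, h2, rfl⟩

theorem Hom.sec_ty {α β : ty} {t : Q.W → A} (h : Hom Q (T.str α) t) {σ : A → Q.W}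
    (hσ : σ ∈ Q.Sec β) : β = α := (h.sec β σ hσ).1

theorem Hom.sec_id {α β : ty} {t : Q.W → A} (h : Hom Q (T.str α) t) {σ : A → Q.W}
    (hσ : σ ∈ Q.Sec β) (a : A) : t (σ a) = a := congrFun (h.sec β σ hσ).2 a

theorem Strong.uniq {M : Str A ty} {α β : ty} {σ τ : A → M.W} (h : Strong T (T.str α) M σ)
    (hτ : τ ∈ M.Sec β) (hx : τ T.x ∈ range σ) (hy : τ T.y ∈ range σ) : β = α ∧ τ = σ := by
  obtain ⟨ρ, h1, h2⟩ := h.back β τ hτ hx hy
  refine ⟨h1.1, ?_⟩
  rw [h2, h1.2]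
  rfl

theorem Strong.mem {M : Str A ty} {α : ty} {σ : A → M.W} (h : Strong T (T.str α) M σ) :
    σ ∈ M.Sec α :=
  h.hom.sec α id ⟨rfl, rfl⟩

theorem Good.adj_ne {M : Str A ty} (h : Good T M) {u v : M.W} (a : M.Adj T u v) : u ≠ v := by
  obtain ⟨α, σ, hσ, ⟨rfl, rfl⟩ | ⟨rfl, rfl⟩⟩ := a
  exacts [(h.str α σ hσ).inj.ne T.ne, (h.str α σ hσ).inj.ne T.ne.symm]

theorem Str.Adj.symm {M : Str A ty} {u v : M.W} (a : M.Adj T u v) : M.Adj T v u :=
  a.imp fun _ h => h.imp fun _ h => ⟨h.1, h.2.symm⟩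

/-- the graph of a good structure -/
def Good.graph {M : Str A ty} (h : Good T M) : SimpleGraph M.W where
  Adj := M.Adj T
  symm := ⟨fun _ _ a => a.symm⟩
  loopless := ⟨fun _ a => h.adj_ne a rfl⟩

/-- the part on a set of points -/
@[reducible] def Str.part (P : Str A ty) (U : Set P.W) : Str A ty :=
  ⟨U, fun a b c => P.R a b c, fun α => {σ | Subtype.val ∘ σ ∈ P.Sec α}⟩

/-- a set closed under the operation and under sections of its edges -/
structure Closed (T : Tpl A ty) (P : Str A ty) (U : Set P.W) : Prop where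
  rel : ∀ a b c, P.R a b c → a ∈ U → b ∈ U → c ∈ U
  sec : ∀ α, ∀ σ ∈ P.Sec α, σ T.x ∈ U → σ T.y ∈ U → ∀ a, σ a ∈ U

/-- the disjoint union of a family -/
@[reducible] def Str.sum {J : Type} (M : J → Str A ty) : Str A ty :=
  ⟨Σ β, (M β).W,
    fun u v w => ∃ β a b c, (M β).R a b c ∧ u = ⟨β, a⟩ ∧ v = ⟨β, b⟩ ∧ w = ⟨β, c⟩,
    fun α => {τ | ∃ β, ∃ σ ∈ (M β).Sec α, τ = fun a => ⟨β, σ a⟩}⟩

/-- the inclusion of a summand -/
def Str.inc {J : Type} (M : J → Str A ty) (β : J) (a : (M β).W) : (Str.sum M).W := ⟨β, a⟩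

section Amal

variable {P : Str A ty} {U : Set P.W} (S : Sy T (P.part U))

open Classical in
/-- the standard copies in the amalgam -/
noncomputable def φ (c : S.ι) (w : P.W) : S.M.W ⊕ S.ι × P.W :=
  if h : w ∈ U then Sum.inl (S.emb c ⟨w, h⟩) else Sum.inr (c, w)

/-- the amalgam of copies of `P` along a system of copies of a part -/
@[reducible] noncomputable def amal : Str A ty :=
  ⟨S.M.W ⊕ S.ι × P.W,
    fun u v z => ∃ c a b d, P.R a b d ∧ u = φ S c a ∧ v = φ S c b ∧ z = φ S c d,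
    fun α => {τ | ∃ c, ∃ σ ∈ P.Sec α, τ = φ S c ∘ σ}⟩

theorem φ_eq {c c' : S.ι} {a a' : P.W} (h : φ S c a = φ S c' a') :
    (c = c' ∧ a = a') ∨ ∃ ha ha', S.emb c ⟨a, ha⟩ = S.emb c' ⟨a', ha'⟩ := by
  unfold φ at h
  split_ifs at h with h1 h2 h2
  · exact Or.inr ⟨h1, h2, Sum.inl.inj h⟩
  · exact Or.inl (Prod.mk.inj (Sum.inr.inj h))

theorem φ_inl (c : S.ι) {a : P.W} (h : a ∈ U) : φ S c a = Sum.inl (S.emb c ⟨a, h⟩) := dif_pos h

theorem φ_inj (c : S.ι) : Injective (φ S c) := fun a a' h => by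
  rcases φ_eq S h with h | ⟨_, _, h⟩
  · exact h.2
  · exact congrArg Subtype.val ((S.str c).inj h)

end Amal

end Pool.Agent.P.MP_48d4bc_co.EX
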