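import Pool.Agent.P.MP_48d4bc_co.EXHJ
import Pool.Agent.P.MP_48d4bc_co.EXPic

set_option autoImplicit false

/-! Sparse systems over a base with the Ramsey property. -/

namespace Pool.Agent.P.MP_48d4bc_co.EX

open Set Function

variable {A ty : Type} [Finite A] {T : Tpl A ty} {κ : Type} [Finite κ] [Nonempty κ]

theorem exists_sys {Q B : Str A ty} {ι₀ : Type} [Finite ι₀] [Finite B.W] {g : ℕ} (hQ : Good T Q)
    (j : ι₀ → Q.W → B.W) (hj : ∀ m, Hom Q B (j m)) (hi : ∀ m, Injective (j m))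
    (Rel : ty → Set (A → Q.W)) (hRel : ∀ α, Rel α ⊆ Q.Sec α)
    (hs : ∀ m α, ∀ σ ∈ Rel α, Strong T (T.str α) B (j m ∘ σ)) (hR : RB T κ g)
    (hB : ∀ c : (A → B.W) → κ, ∃ (m : ι₀) (χ : ty → κ), ∀ α, ∀ σ ∈ Rel α, c (j m ∘ σ) = χ α) :
    ∃ (S : Sy T Q) (π : S.M.W → B.W), Hom S.M B π ∧ (∀ i, ∃ m, ∀ a, π (S.emb i a) = j m a) ∧
      S.Ram Rel κ ∧ Sparse S.E (g + 1) ∧ S.Tri := by
  have h : ∀ D : Set (A → B.W), (∀ σ₀ ∈ D, ∃ α, Strong T (T.str α) B σ₀) →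
      Nonempty (Pic T j κ (g + 1) D) := fun D => by
    induction D, D.toFinite using Set.Finite.induction_on with
    | empty => exact fun _ => pic_zero hQ j hj κ (g + 1)
    | @insert e D _ _ ih =>
      intro hD
      obtain ⟨P⟩ := ih fun σ₀ h => hD σ₀ (mem_insert_of_mem _ h)
      obtain ⟨α, h₀⟩ := hD e (mem_insert _ _)
      exact pic_step P hj hi hR h₀
  obtain ⟨P⟩ := h {σ₀ | ∃ α, Strong T (T.str α) B σ₀} fun _ h => h
  refine ⟨P.toSy, P.π, P.hom, fun i => ⟨_, P.proj i⟩, fun c => ?_, P.sparse, P.tri⟩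
  obtain ⟨χ, hχ⟩ := P.ram c
  obtain ⟨m, k, hk⟩ := hB χ
  obtain ⟨i, -, hi'⟩ := hχ m
  exact ⟨i, k, fun α σ hσ => (hi' α σ (hRel α hσ) ⟨α, hs m α σ hσ⟩).trans (hk α σ hσ)⟩

theorem rb (T : Tpl A ty) (κ : Type) [Finite κ] [Nonempty κ] (g : ℕ) : RB T κ (g + 1) := by
  induction g with
  | zero => exact rb_one T κ
  | succ g ih =>
    intro α Q t hQ ht
    obtain ⟨S, t₀, h1, h2, h3, -⟩ := rb_one T κ α Q t hQ ht
    have := S.good.fin
    have := S.finι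
    obtain ⟨S', π, h4, h5, h6, h7, -⟩ := exists_sys hQ S.emb (fun m => (S.str m).hom)
      (fun m => (S.str m).inj) Q.Sec (fun _ => Subset.rfl)
      (fun m β σ hσ => (S.str m).comp (hQ.str β σ hσ)) ih h3
    refine ⟨S', t₀ ∘ π, h1.comp h4, fun i a => ?_, h6, h7⟩
    obtain ⟨m, hm⟩ := h5 i
    exact (congrArg t₀ (hm a)).trans (h2 m a)

/-- a Ramsey system can be made sparse -/
theorem sparsify {B : Str A ty} (hB : Good T B) (S₀ : Sy T B) (h₀ : S₀.Ram B.Sec κ) (g : ℕ) :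
    ∃ S : Sy T B, S.Ram B.Sec κ ∧ Sparse S.E g ∧ S.Tri := by
  have := S₀.good.fin
  have := S₀.finι
  obtain ⟨S, π, -, -, h6, h7, h8⟩ := exists_sys hB S₀.emb (fun m => (S₀.str m).hom)
    (fun m => (S₀.str m).inj) B.Sec (fun _ => Subset.rfl)
    (fun m β σ hσ => (S₀.str m).comp (hB.str β σ hσ)) (rb T κ g) h₀
  exact ⟨S, h6, fun X h1 h2 => h7 X h1 (by omega), h8⟩

end Pool.Agent.P.MP_48d4bc_co.EX
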