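import Pool.Agent.P.MP_48d4bc_co.EXSig

set_option autoImplicit false

/-! Terms over an edge. -/

namespace Pool.Agent.P.MP_48d4bc_co.EX

open Set Function Pool.Agent.Lib.PrimrecProp

universe u

/-- terms in two variables -/
inductive Tm : Type
  | x : Tm
  | y : Tm
  | f : Tm → Tm → Tm

/-- evaluation under an operation that is not everywhere defined -/
def Tm.ev {W : Type u} (f : W → W → Option W) (u v : W) : Tm → Option W
  | .x => some u
  | .y => some v
  | .f t s => (t.ev f u v).bind fun a => (s.ev f u v).bind fun b => f a b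

/-- two terms over two edges have the same defined value -/
def Same {W : Type u} (f : W → W → Option W) (e e' : W × W) (t t' : Tm) : Prop :=
  ∃ w, t.ev f e.1 e.2 = some w ∧ t'.ev f e'.1 e'.2 = some w

/-- the chain terms -/
def chainTm : ℕ → Tm
  | 0 => .f .y (.f .y .x)
  | n + 1 => .f (chainTm n) .y

/-- the term of a name -/
def Sig.tm (S : Sig) (a : Nm) : Tm :=
  if a = nx then .x else if a = ny then .y else if a = m1 then .f .x .y else
    if a = m2 then .f .y .x else chainTm ((m3 :: S.rest).idxOf a)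

/-- the glue edge of a copy under a map -/
def Sig.ge (S : Sig) {W : Type u} (φ : Vx → W) (i : ℕ) (s : Bool) : W × W :=
  (φ (S.vtx i s nx), φ (S.vtx i s ny))

/-- a copy of the system that is good for the terms of a finite set -/
structure Stage (S : Sig) (𝒯 : Set Tm) : Type (u + 1) where
  /-- points -/
  W : Type u
  /-- the operation -/
  f : W → W → Option W
  /-- the copy -/
  φ : Vx → W
  inj : InjOn φ S.Valid
  fact : ∀ i < S.glue.length, ∀ s, ∀ p ∈ S.facts,
    f (φ (S.vtx i s p.1)) (φ (S.vtx i s p.2.1)) = some (φ (S.vtx i s p.2.2))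
  tm : ∀ i < S.glue.length, ∀ s, ∀ a ∈ S.names,
    (S.tm a).ev f (S.ge φ i s).1 (S.ge φ i s).2 = some (φ (S.vtx i s a))
  same : ∀ i < S.glue.length, ∀ s, ∀ i' < S.glue.length, ∀ s', ∀ t ∈ 𝒯, ∀ t' ∈ 𝒯,
    Same f (S.ge φ i s) (S.ge φ i s) t t' → Same f (S.ge φ i' s') (S.ge φ i' s') t t'

end Pool.Agent.P.MP_48d4bc_co.EX
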