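import Pool.Agent.P.MP_48d4bc_co.EXSys
import Pool.Agent.P.MP_48d4bc_co.EXNaive
import Pool.Agent.Lib.Ramsey.Basic

set_option autoImplicit false

/-! Ramsey systems for ordered good structures. -/

namespace Pool.Agent.P.MP_48d4bc_co.EX

open Set Function

variable {A ty : Type} [Finite A] [Finite ty] {T : Tpl A ty}

/-- outer pictures -/
def EXTopP (T : Tpl A ty) (B : Str A ty) (Z κ : Type) (D : Set (ty × (A → Z))) : Prop :=
  ∃ (S : Sy T B) (π : S.M.W → Z) (below : S.ι → B.W → Z),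
    (∀ i a, π (S.emb i a) = below i a) ∧
    ∀ c : (A → S.M.W) → κ, ∃ χ : ty × (A → Z) → κ, ∀ μ : B.W → Z, ∃ i, below i = μ ∧
      ∀ α, ∀ σ ∈ B.Sec α, (α, μ ∘ σ) ∈ D → c (S.emb i ∘ σ) = χ (α, μ ∘ σ)

omit [Finite A] [Finite ty] in
theorem EXTop_zero {B : Str A ty} (hB : Good T B) (Z κ : Type) [Finite Z] [Nonempty κ] :
    EXTopP T B Z κ ∅ := by
  have := hB.fin
  refine ⟨⟨Str.sum fun _ : B.W → Z => B, sum_good _ fun _ => hB, B.W → Z, inferInstance,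
    Str.inc fun _ : B.W → Z => B, sum_strong fun _ : B.W → Z => B⟩, fun w => w.1 w.2, id,
    fun _ _ => rfl, fun _ => ⟨fun _ => Classical.arbitrary κ, fun μ => ⟨μ, rfl, ?_⟩⟩⟩
  intro _ _ _ h
  exact h.elim

omit [Finite ty] in
theorem EXTop_step {B : Str A ty} {Z κ : Type} [Finite κ] [Nonempty κ] {D : Set (ty × (A → Z))}
    (h : EXTopP T B Z κ D) (p : ty × (A → Z)) (hp : Injective p.2) :
    EXTopP T B Z κ (insert p D) := by
  classical
  obtain ⟨α, γ⟩ := p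
  obtain ⟨S, π, below, hpr, hram⟩ := h
  obtain ⟨C, hC, ι, hι, j, π', h1, h2, h3, -, h5, h6⟩ := naive S.M S.good π α γ hp κ
  obtain ⟨S', πS, -, g2, g3, -⟩ := exists_sys (T := T) (κ := κ) (g := 0 + 1) S.good j h1 h2
    (fun β => {σ | σ ∈ S.M.Sec β ∧ β = α ∧ π ∘ σ = γ}) (fun _ _ h => h.1)
    (by
      rintro m β σ ⟨a1, rfl, a3⟩
      exact h5 m σ a1 a3) (rb T κ 0)
    (fun c => by
      obtain ⟨l, k, hk⟩ := h6 c
      refine ⟨l, fun _ => k, ?_⟩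
      rintro β σ ⟨a1, rfl, a3⟩
      exact hk σ a1 a3)
  have := S.finι
  have := S'.finι
  refine ⟨⟨S'.M, S'.good, S'.ι × S.ι, inferInstance, fun z => S'.emb z.1 ∘ S.emb z.2,
    fun z => (S'.str z.1).comp (S.str z.2)⟩, π' ∘ πS, fun z => below z.2, fun z a => ?_,
    fun c => ?_⟩
  · obtain ⟨m, hm⟩ := g2 z.1
    show π' (πS (S'.emb z.1 (S.emb z.2 a))) = below z.2 a
    rw [hm, h3, hpr]
  · obtain ⟨c₀, χ₀, hc⟩ := g3 c
    obtain ⟨χ, hχ⟩ := hram fun σ => c (S'.emb c₀ ∘ σ)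
    refine ⟨update χ (α, γ) (χ₀ α), fun μ => ?_⟩
    obtain ⟨i, hi, hi'⟩ := hχ μ
    refine ⟨(c₀, i), hi, fun β σ hσ hD => ?_⟩
    by_cases he : (β, μ ∘ σ) = (α, γ)
    · rw [he, update_self]
      obtain ⟨rfl, he'⟩ := Prod.mk.inj he
      refine hc β (S.emb i ∘ σ) ⟨(S.str i).hom.sec β σ hσ, rfl, ?_⟩
      rw [← he', ← hi]
      exact funext fun a => hpr i (σ a)
    · rw [update_of_ne he]
      exact hi' β σ hσ ((mem_insert_iff.1 hD).resolve_left he)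

theorem EXTop_all {B : Str A ty} (hB : Good T B) (Z κ : Type) [Finite Z] [Finite κ] [Nonempty κ] :
    EXTopP T B Z κ {p | Injective p.2} := by
  refine Set.Finite.induction_on_subset (motive := fun D _ => EXTopP T B Z κ D) _
    (Set.toFinite _) (EXTop_zero hB Z κ) ?_
  intro p D hp _ _ ih
  exact EXTop_step ih p hp

theorem top [LinearOrder A] {B : Str A ty} (hB : Good T B) {K : Type} [LinearOrder K]
    (ρ : B.W → K) (hρ : Injective ρ) (hm : ∀ α, ∀ σ ∈ B.Sec α, StrictMono (ρ ∘ σ)) (κ : Type)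
    [Finite κ] [Nonempty κ] : ∃ S : Sy T B, S.Ram B.Sec κ := by
  classical
  have := hB.fin
  have := Fintype.ofFinite A
  have := Fintype.ofFinite B.W
  obtain ⟨N, hN⟩ := Lib.Ramsey.ramsey (ty → κ) (Fintype.card A) (Fintype.card B.W)
  obtain ⟨S, π, below, -, hram⟩ := EXTop_all hB (Fin N) κ
  refine ⟨S, fun c => ?_⟩
  obtain ⟨χ, hχ⟩ := hram c
  let e := monoEquivOfFin A rfl
  obtain ⟨Y, -, hY, col, hcol⟩ := hN (Fin N) Finset.univ (by simp)
    fun γ α => χ (α, γ ∘ e.symm)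
  obtain ⟨μ, h1, h2⟩ : ∃ μ : B.W → Fin N, (∀ a b, ρ a < ρ b → μ a < μ b) ∧ ∀ a, μ a ∈ Y := by
    let _ : LinearOrder B.W := LinearOrder.lift' ρ hρ
    refine ⟨fun a => Y.orderEmbOfFin hY ((monoEquivOfFin B.W rfl).symm a), fun a b h => ?_,
      fun a => Y.orderEmbOfFin_mem hY _⟩
    exact (Y.orderEmbOfFin hY).strictMono ((monoEquivOfFin B.W rfl).symm.strictMono h)
  obtain ⟨i, -, hi⟩ := hχ μ
  refine ⟨i, col, fun α σ hσ => ?_⟩
  have h3 : StrictMono (μ ∘ σ) := fun a b h => h1 _ _ (hm α σ hσ h)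
  rw [hi α σ hσ h3.injective, ← hcol (μ ∘ σ ∘ e) (h3.comp e.strictMono) fun _ => h2 _]
  have h4 : (μ ∘ σ ∘ e) ∘ e.symm = μ ∘ σ := funext fun a => by simp
  rw [h4]

end Pool.Agent.P.MP_48d4bc_co.EX
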