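import Pool.Agent.P.MP_48d4bc_co.EXTm
import Pool.Agent.P.MP_48d4bc_co.EXKer
import Pool.Agent.P.MP_48d4bc_co.EXVtx

set_option autoImplicit false

/-! Every copy satisfies the facts. -/

namespace Pool.Agent.P.MP_48d4bc_co.EX

open Set Function Pool.Agent.Lib.PrimrecProp

universe u

theorem EXUn1_th_lt {m : Fin 8} {a : Fin 9} : th m.1 a.1 < 51 := by
  have h1 := m.2
  have h2 := a.2
  rcases Nat.lt_or_ge a.1 3 with h | h
  · rw [th_root _ (by omega)]; omega
  · rw [th_int _ h]; omega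

theorem EXUn1_fact {S : Sig} (h : S.WF) {W : Type u} {H : SimpleGraph W} {f : W → W → Option W}
    (hf : ∀ (ψ : Fin 8 → Gam.Copy H) (u v w : W),
      (∀ m, ψ m 0 = u ∧ ψ m 1 = v ∧ ψ m 2 = w) →
      (∀ (m m' : Fin 8) (a b : Fin 9), 3 ≤ a.1 → 3 ≤ b.1 → ψ m a = ψ m' b → m = m') →
      f u v = some w) {φ : Vx → W} (hi : InjOn φ S.Valid)
    (he : ∀ e ∈ S.edges, H.Adj (φ e.1) (φ e.2)) {i : ℕ} (hl : i < S.glue.length) (s : Bool)
    {p : Ft} (hp : p ∈ S.facts) :
    f (φ (S.vtx i s p.1)) (φ (S.vtx i s p.2.1)) = some (φ (S.vtx i s p.2.2)) := by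
  have inj : ∀ (m m' : Fin 8) (a b : Fin 9), φ (S.gad i s p (th m.1 a.1)) =
      φ (S.gad i s p (th m'.1 b.1)) → a.1 = b.1 ∧ (a.1 ≤ 2 ∨ m.1 = m'.1) := fun m m' a b e =>
    th_inj a.2 b.2 (h.gad_inj hp (hi (Sig.gad_valid hl s hp EXUn1_th_lt)
      (Sig.gad_valid hl s hp EXUn1_th_lt) e))
  have adj : ∀ (m : Fin 8) (a b : Fin 9), (a.1, b.1) ∈ gamE →
      H.Adj (φ (S.gad i s p (th m.1 a.1))) (φ (S.gad i s p (th m.1 b.1))) := fun m a b e =>
    he _ (Sig.mem_edges.2 ⟨i, hl, s, Or.inr ⟨p, hp, m.1, m.2, _, e, rfl⟩⟩)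
  refine hf (fun m => ⟨⟨fun a => φ (S.gad i s p (th m.1 a.1)), fun {a b} e => ?_⟩,
    fun a b e => Fin.ext (inj m m a b e).1⟩) _ _ _ (fun m => ⟨rfl, rfl, rfl⟩)
    fun m m' a b ha _ e => ?_
  · rcases gam_adj.1 e with e | e
    · exact adj m a b e
    · exact (adj m b a e).symm
  · exact Fin.ext ((inj m m' a b e).2.resolve_left (by omega))

theorem EXUn1_chain {S : Sig} {W : Type u} {f : W → W → Option W} {g : Nm → W}
    (hf : ∀ p ∈ S.facts, f (g p.1) (g p.2.1) = some (g p.2.2)) (n : ℕ)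
    (hn : n < (m3 :: S.rest).length) :
    (chainTm n).ev f (g nx) (g ny) = some (g ((m3 :: S.rest).getD n nx)) := by
  induction n with
  | zero =>
    have h1 := hf (ny, nx, m2) (by simp [Sig.facts, baseOf])
    have h2 := hf (ny, m2, m3) (by simp [Sig.facts, baseOf])
    dsimp only at h1 h2
    simp [chainTm, Tm.ev, h1, h2]
  | succ n ih =>
    have hn' : n < S.rest.length := by simpa using hn
    have h1 := hf ((m3 :: S.rest).getD n nx, ny, S.rest.getD n nx) (by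
      unfold Sig.facts baseOf
      exact List.mem_append_left _ (List.mem_cons_of_mem _ (List.mem_cons_of_mem _
        (List.mem_cons_of_mem _ (List.mem_cons_of_mem _
          (List.mem_map.2 ⟨n, List.mem_range.2 hn', rfl⟩))))))
    dsimp only at h1
    rw [chainTm, Tm.ev, ih (by omega), Tm.ev, Option.bind_some, Option.bind_some, h1,
      List.getD_cons_succ]

theorem EXUn1_tm {S : Sig} {W : Type u} {f : W → W → Option W} {g : Nm → W}
    (hf : ∀ p ∈ S.facts, f (g p.1) (g p.2.1) = some (g p.2.2)) {a : Nm} (ha : a ∈ S.names) :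
    (S.tm a).ev f (g nx) (g ny) = some (g a) := by
  unfold Sig.tm
  split_ifs with h1 h2 h3 h4
  · rw [h1]; rfl
  · rw [h2]; rfl
  · have e := hf (nx, ny, m1) (by simp [Sig.facts, baseOf])
    dsimp only at e
    rw [h3]
    simp [Tm.ev, e]
  · have e := hf (ny, nx, m2) (by simp [Sig.facts, baseOf])
    dsimp only at e
    rw [h4]
    simp [Tm.ev, e]
  · have hm : a ∈ m3 :: S.rest := by
      unfold Sig.names namesOf at ha
      exact (List.mem_cons.1 ((List.mem_cons.1 ((List.mem_cons.1 ((List.mem_cons.1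
        ha).resolve_left h1)).resolve_left h2)).resolve_left h3)).resolve_left h4
    have hl := List.idxOf_lt_length_iff.2 hm
    rw [EXUn1_chain hf _ hl, List.getD_eq_getElem _ _ hl, List.getElem_idxOf]

/-- in a graph without the forbidden subgraph all copies satisfy all facts -/
theorem Sig.WF.facts_hold {S : Sig} (h : S.WF) {W : Type u} {H : SimpleGraph W}
    (hH : GG.Free H) : ∃ f : W → W → Option W, ∀ φ : Vx → W, InjOn φ S.Valid →
      (∀ e ∈ S.edges, H.Adj (φ e.1) (φ e.2)) → ∀ i < S.glue.length, ∀ s,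
        (∀ p ∈ S.facts,
          f (φ (S.vtx i s p.1)) (φ (S.vtx i s p.2.1)) = some (φ (S.vtx i s p.2.2))) ∧
        ∀ a ∈ S.names,
          (S.tm a).ev f (S.ge φ i s).1 (S.ge φ i s).2 = some (φ (S.vtx i s a)) := by
  obtain ⟨f, hf⟩ := exists_op hH
  refine ⟨f, fun φ hi he i hl s => ?_⟩
  have h1 : ∀ p ∈ S.facts,
      f (φ (S.vtx i s p.1)) (φ (S.vtx i s p.2.1)) = some (φ (S.vtx i s p.2.2)) :=
    fun p hp => EXUn1_fact h hf hi he hl s hp
  exact ⟨h1, fun a ha => EXUn1_tm (g := fun a => φ (S.vtx i s a)) h1 ha⟩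

end Pool.Agent.P.MP_48d4bc_co.EX
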