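import Mathlib

set_option autoImplicit false

namespace Pool.Agent.P.MP_48d4bc_co

/-- Well founded trees with marked children. -/
inductive Tr (Θ : Type) : Type
  | mk (s : Set Θ) (ch : s → Tr Θ) (fl : Set Θ) : Tr Θ

namespace Tr

variable {Θ : Type}

/-- Rank of a tree. -/
noncomputable def rk : Tr Θ → Ordinal.{0}
  | mk _ ch _ => ⨆ i, Order.succ (rk (ch i))

/-- `u` is a marked child of `v`. -/
def Nb (u : Tr Θ) : Tr Θ → Prop
  | mk _ ch fl => ∃ i, ch i = u ∧ i.1 ∈ fl

theorem rk_lt (s : Set Θ) (ch : s → Tr Θ) (fl : Set Θ) (i : s) : rk (ch i) < rk (mk s ch fl) := by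
  rw [rk]
  exact Order.succ_le_iff.1 (Ordinal.le_iSup (fun i => Order.succ (rk (ch i))) i)

theorem Nb.rk_lt {u v : Tr Θ} (h : Nb u v) : rk u < rk v := by
  obtain ⟨s, ch, fl⟩ := v
  obtain ⟨i, rfl, _⟩ := h
  exact Tr.rk_lt s ch fl i

/-- The raw graph. -/
def raw (Θ : Type) : SimpleGraph (Tr Θ) where
  Adj u v := Nb u v ∨ Nb v u
  symm := ⟨fun _ _ h => h.symm⟩
  loopless := ⟨fun _ h => by rcases h with h | h <;> exact lt_irrefl _ h.rk_lt⟩

/-- The marked children span no `n`-clique. -/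
def Ok (n : ℕ) (v : Tr Θ) : Prop :=
  ∀ t : Finset (Tr Θ), (∀ u ∈ t, Nb u v) → ¬ (raw Θ).IsNClique n t

end Tr

open Tr

/-- A graph without `(n+1)`-cliques having the extension property for `Θ`-indexed families. -/
theorem exists_host (Θ : Type) {n : ℕ} (hn : 1 ≤ n) :
    ∃ (V : Type) (_ : Nonempty V) (G : SimpleGraph V), G.CliqueFree (n + 1) ∧
      ∀ (y : Θ → V) (A : Set V), (∀ t : Finset V, ↑t ⊆ A → ¬ G.IsNClique n t) →
        ∃ z, ∀ i, z ≠ y i ∧ (G.Adj (y i) z ↔ y i ∈ A) := by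
  classical
  let V : Type := {v : Tr Θ // Ok n v}
  let G : SimpleGraph V := (raw Θ).comap Subtype.val
  have hleaf : Ok n (Tr.mk (∅ : Set Θ) (fun i => i.2.elim) ∅) := by
    intro t ht hc
    obtain ⟨u, hu⟩ : t.Nonempty := Finset.card_pos.1 (by rw [hc.card_eq]; omega)
    obtain ⟨i, _, _⟩ := ht u hu
    exact i.2
  refine ⟨V, ⟨⟨_, hleaf⟩⟩, G, ?_, ?_⟩
  · intro t ht
    have hne : t.Nonempty := Finset.card_pos.1 (by rw [ht.card_eq]; omega)
    obtain ⟨v, hv, hmax⟩ := Finset.exists_max_image t (fun v => rk v.1) hne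
    refine v.2 ((t.erase v).map (Function.Embedding.subtype _)) ?_ ⟨?_, ?_⟩
    · intro u hu
      obtain ⟨w, hw, rfl⟩ := Finset.mem_map.1 hu
      obtain ⟨hwv, hwt⟩ := Finset.mem_erase.1 hw
      rcases ht.isClique hwt hv hwv with h | h
      · exact h
      · exact absurd h.rk_lt (not_lt.2 (hmax w hwt))
    · intro u hu u' hu' hne
      obtain ⟨w, hw, rfl⟩ := Finset.mem_map.1 hu
      obtain ⟨w', hw', rfl⟩ := Finset.mem_map.1 hu'
      exact ht.isClique (Finset.mem_of_mem_erase hw) (Finset.mem_of_mem_erase hw')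
        (fun h => hne (by rw [h]))
    · rw [Finset.card_map, Finset.card_erase_of_mem hv, ht.card_eq]
      rfl
  · intro y A hA
    let z : Tr Θ := Tr.mk Set.univ (fun i => (y i.1).1) {i | y i ∈ A}
    have hz : Ok n z := by
      intro t ht hc
      refine hA (t.subtype _) ?_ ⟨?_, ?_⟩
      · intro w hw
        obtain ⟨i, hi, hiA⟩ := ht w.1 (Finset.mem_subtype.1 hw)
        have : y i.1 = w := Subtype.ext hi
        rw [← this]
        exact hiA
      · intro w hw w' hw' hne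
        exact hc.isClique (Finset.mem_subtype.1 hw) (Finset.mem_subtype.1 hw')
          (fun h => hne (Subtype.ext h))
      · rw [Finset.card_subtype, Finset.filter_true_of_mem, hc.card_eq]
        intro u hu
        obtain ⟨i, hi, _⟩ := ht u hu
        rw [← hi]
        exact (y i.1).2
    have hrk : ∀ i, rk (y i).1 < rk z := fun i =>
      Tr.rk_lt Set.univ (fun i => (y i.1).1) {i | y i ∈ A} ⟨i, trivial⟩
    refine ⟨⟨z, hz⟩, fun i => ⟨fun h => ?_, ?_, fun h => Or.inl ⟨⟨i, trivial⟩, rfl, h⟩⟩⟩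
    · have := hrk i
      rw [← h] at this
      exact lt_irrefl _ this
    · rintro (h | h)
      · obtain ⟨i', hi', hA'⟩ := h
        have : y i'.1 = y i := Subtype.ext hi'
        rw [← this]
        exact hA'
      · exact absurd h.rk_lt (not_lt.2 (hrk i).le)

end Pool.Agent.P.MP_48d4bc_co
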