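import Pool.Agent.P.MP_48d4bc_co.Defs

set_option autoImplicit false

namespace Pool.Agent.P.MP_48d4bc_co

open Cardinal Set

universe u

variable {V : Type u}

def stepCl (f : Finset V → Set V) (A : Set V) : Set V :=
  A ∪ ⋃ t : {t : Finset V // (t : Set V) ⊆ A}, f t.1

theorem mk_finset_subset_le (A : Set V) :
    #{t : Finset V // (t : Set V) ⊆ A} ≤ max #A ℵ₀ := by
  classical
  have h1 : #{t : Finset V // (t : Set V) ⊆ A} ≤ #(Finset A) := by
    refine mk_le_of_injective (f := fun t => t.1.subtype (· ∈ A)) ?_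
    intro t t' h
    have h2 := congrArg (Finset.map (Function.Embedding.subtype (· ∈ A))) h
    simp only [Finset.subtype_map] at h2
    rw [Finset.filter_true_of_mem (fun x hx => t.2 hx),
      Finset.filter_true_of_mem (fun x hx => t'.2 hx)] at h2
    exact Subtype.ext h2
  refine h1.trans ?_
  rcases finite_or_infinite A with h | h
  · have : Finite (Finset A) := inferInstance
    exact (mk_le_aleph0).trans (le_max_right _ _)
  · exact (mk_finset_of_infinite A).le.trans (le_max_left _ _)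

theorem mk_stepCl_le {f : Finset V → Set V} (hf : ∀ t, (f t).Countable) (A : Set V) :
    #(stepCl f A) ≤ max #A ℵ₀ := by
  refine (mk_union_le _ _).trans (add_le_of_le (le_max_right _ _) (le_max_left _ _) ?_)
  refine (mk_iUnion_le _).trans (mul_le_of_le (le_max_right _ _) (mk_finset_subset_le A) ?_)
  exact ciSup_le' fun t => (le_aleph0_iff_set_countable.2 (hf _)).trans (le_max_right _ _)

theorem stepCl_mono (f : Finset V → Set V) : Monotone (stepCl f) := by
  intro A B h x hx
  rcases hx with hx | hx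
  · exact Or.inl (h hx)
  · obtain ⟨t, ht⟩ := mem_iUnion.1 hx
    exact Or.inr (mem_iUnion.2 ⟨⟨t.1, t.2.trans h⟩, ht⟩)

def fullCl (f : Finset V → Set V) (A : Set V) : Set V := ⋃ n : ℕ, (stepCl f)^[n] A

theorem fullCl_mono (f : Finset V → Set V) : Monotone (fullCl f) :=
  fun _ _ h => iUnion_mono fun n => (stepCl_mono f).iterate n h

theorem subset_fullCl (f : Finset V → Set V) (A : Set V) : A ⊆ fullCl f A :=
  subset_iUnion (fun n : ℕ => (stepCl f)^[n] A) 0

theorem mk_fullCl_le {f : Finset V → Set V} (hf : ∀ t, (f t).Countable) (A : Set V) :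
    #(fullCl f A) ≤ max #A ℵ₀ := by
  have h : ∀ n : ℕ, #((stepCl f)^[n] A) ≤ max #A ℵ₀ := by
    intro n
    induction n with
    | zero => exact le_max_left _ _
    | succ n ih =>
      rw [Function.iterate_succ_apply']
      exact (mk_stepCl_le hf _).trans (max_le ih (le_max_right _ _))
  have h2 : fullCl f A = ⋃ n : ULift.{u} ℕ, (stepCl f)^[n.down] A := by
    ext x
    simp only [fullCl, mem_iUnion]
    exact ⟨fun ⟨n, hn⟩ => ⟨⟨n⟩, hn⟩, fun ⟨n, hn⟩ => ⟨n.down, hn⟩⟩
  rw [h2]
  refine (mk_iUnion_le _).trans (mul_le_of_le (le_max_right _ _) ?_ (ciSup_le' fun n => h _))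
  simp

theorem fullCl_closed (f : Finset V → Set V) (A : Set V) (t : Finset V)
    (ht : (t : Set V) ⊆ fullCl f A) : f t ⊆ fullCl f A := by
  have hm : Monotone fun n : ℕ => (stepCl f)^[n] A := by
    refine monotone_nat_of_le_succ fun n => ?_
    rw [Function.iterate_succ_apply']
    exact subset_union_left
  obtain ⟨n, hn⟩ : ∃ n : ℕ, (t : Set V) ⊆ (stepCl f)^[n] A := by
    classical
    induction t using Finset.induction_on with
    | empty => exact ⟨0, by simp⟩
    | insert a s _ ih =>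
      rw [Finset.coe_insert, insert_subset_iff] at ht
      obtain ⟨n, hn⟩ := ih ht.2
      obtain ⟨m, hm'⟩ := mem_iUnion.1 ht.1
      refine ⟨max n m, ?_⟩
      rw [Finset.coe_insert, insert_subset_iff]
      exact ⟨hm (le_max_right n m) hm', hn.trans (hm (le_max_left n m))⟩
  intro x hx
  refine mem_iUnion.2 ⟨n + 1, ?_⟩
  rw [Function.iterate_succ_apply']
  exact Or.inr (mem_iUnion.2 ⟨⟨t, hn⟩, hx⟩)

/-- Decomposition of an uncountable set into smaller closed layers. -/
theorem exists_layers {f : Finset V → Set V} (hf : ∀ t, (f t).Countable) (S : Set V)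
    (hS : ℵ₀ < #S) :
    ∃ rk : V → Ordinal.{u}, (∀ k, #{v | v ∈ S ∧ rk v = k} < #S) ∧
      ∀ v ∈ S, ∀ t : Finset V, t.Nonempty → (∀ w ∈ t, w ∈ S ∧ rk w < rk v) → v ∉ f t := by
  classical
  obtain ⟨e⟩ : Nonempty ((#S).ord.ToType ≃ S) := Cardinal.eq.1 (Cardinal.mk_ord_toType _)
  have : IsWellOrder (#S).ord.ToType (· < ·) := isWellOrder_lt
  let M : (#S).ord.ToType → Set V := fun k => fullCl f ((fun j => (e j).1) '' Iic k)
  have hMmono : Monotone M := fun a b hab => fullCl_mono f (image_mono (Iic_subset_Iic.2 hab))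
  have hMc : ∀ k, #(M k) < #S := by
    intro k
    refine lt_of_le_of_lt (mk_fullCl_le hf _) (max_lt (mk_image_le.trans_lt ?_) hS)
    have h1 : #(Iio k) < #S := Cardinal.mk_Iio_toType_ord_lt k
    have h2 : (Iic k : Set (#S).ord.ToType) = insert k (Iio k) := by
      ext x; simp [le_iff_lt_or_eq, or_comm]
    rw [h2]
    exact lt_of_le_of_lt mk_insert_le (add_lt_of_lt hS.le h1 (one_lt_aleph0.trans hS))
  have hex : ∀ v ∈ S, ({k | v ∈ M k} : Set _).Nonempty := fun v hv =>
    ⟨e.symm ⟨v, hv⟩, subset_fullCl f _ ⟨e.symm ⟨v, hv⟩, mem_Iic.2 le_rfl, by simp⟩⟩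
  let r : ∀ v ∈ S, (#S).ord.ToType := fun v hv => wellFounded_lt.min _ (hex v hv)
  have hr1 : ∀ v hv, v ∈ M (r v hv) := fun v hv => wellFounded_lt.min_mem _ (hex v hv)
  have hr2 : ∀ v hv k, v ∈ M k → r v hv ≤ k := fun v hv k hk =>
    not_lt.1 (wellFounded_lt.not_lt_min {k | v ∈ M k} hk)
  refine ⟨fun v => if hv : v ∈ S then Ordinal.typein (· < ·) (r v hv) else 0, ?_, ?_⟩
  · intro k
    by_cases h : ∃ v, v ∈ S ∧ (if hv : v ∈ S then Ordinal.typein (· < ·) (r v hv) else 0) = k
    · obtain ⟨v, hv, hvk⟩ := h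
      refine lt_of_le_of_lt (mk_le_mk_of_subset ?_) (hMc (r v hv))
      rintro w ⟨hw, hwk⟩
      simp only [hv, hw, dif_pos] at hvk hwk
      have : r w hw = r v hv := (Ordinal.typein _).injective (hwk.trans hvk.symm)
      rw [← this]
      exact hr1 w hw
    · have : {v | v ∈ S ∧ (if hv : v ∈ S then Ordinal.typein (· < ·) (r v hv) else 0) = k} = ∅ :=
        eq_empty_of_forall_notMem fun v hv => h ⟨v, hv⟩
      rw [this]
      simpa using aleph0_pos.trans hS
  · intro v hv t ht hlt hvt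
    obtain ⟨w, hw, hmax⟩ := t.attach.exists_max_image (fun w => r w.1 (hlt w.1 w.2).1)
      (Finset.attach_nonempty_iff.2 ht)
    have h1 : (t : Set V) ⊆ M (r w.1 (hlt w.1 w.2).1) := fun x hx =>
      hMmono (hmax ⟨x, hx⟩ (Finset.mem_attach _ _)) (hr1 x (hlt x hx).1)
    have h2 := hr2 v hv _ (fullCl_closed f _ t h1 hvt)
    have h3 := (hlt w.1 w.2).2
    simp only [hv, (hlt w.1 w.2).1, dif_pos, Ordinal.typein_lt_typein] at h3
    exact absurd h2 (not_le.2 h3)

theorem exists_greedy {K : Type*} [LinearOrder K] [WellFoundedLT K] (rk : V → K) (B : V → Set V)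
    (hB : ∀ v, (B v).Finite) (hlt : ∀ v, ∀ w ∈ B v, rk w < rk v) :
    ∃ g : V → ℕ, ∀ v, ∀ w ∈ B v, g w ≠ g v := by
  classical
  have wf : WellFounded (InvImage (· < ·) rk) := InvImage.wf rk wellFounded_lt
  let g : V → ℕ := wf.fix fun v rec =>
    (hB v).toFinset.attach.sup (fun w => rec w.1 (hlt v w.1 ((hB v).mem_toFinset.1 w.2))) + 1
  have hg : ∀ v, g v = (hB v).toFinset.attach.sup (fun w => g w.1) + 1 := fun v =>
    WellFounded.fix_eq _ _ _
  refine ⟨g, fun v w hw => ne_of_lt ?_⟩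
  rw [hg v]
  exact Nat.lt_succ_of_le (Finset.le_sup (f := fun w : (hB v).toFinset => g w.1)
    (Finset.mem_attach _ ⟨w, (hB v).mem_toFinset.2 hw⟩))

end Pool.Agent.P.MP_48d4bc_co
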