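import Pool.Agent.P.MP_48d4bc_co.Count
import Pool.Agent.P.MP_48d4bc_co.Partite
import Pool.Agent.Lib.Ramsey.Basic

set_option autoImplicit false

/-! Exceptional pairs. -/

namespace Pool.Agent.P.MP_48d4bc_co

open Set

universe u

theorem exists_sparse {β : Type} [Finite β] (G : SimpleGraph β) (κ : Type) [Finite κ]
    [Nonempty κ] (g : ℕ) : ∃ S : Sys G, S.Ram κ ∧ Sparse S.E g ∧ S.Tri := by
  classical
  have := Fintype.ofFinite β
  obtain ⟨N, hN⟩ := Lib.Ramsey.ramsey κ 2 (Fintype.card β)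
  obtain ⟨S, -, -, h1, h2, h3⟩ := exists_sys (A := G) (B := (⊤ : SimpleGraph (Fin N)))
    (ι₀ := β ↪ Fin N) (j := fun f => ⟨f, fun h => f.injective.ne h.ne⟩) (fun f => f.injective)
    (rb κ g) fun c => by
      obtain ⟨B, -, hB, k, hk⟩ := hN (Fin N) Finset.univ (by simp) fun f => c s(f 0, f 1)
      let e := Fintype.equivOfCardEq (hB.symm.trans (Fintype.card_coe B).symm)
      have key : ∀ a b, (e a).1 < (e b).1 → c s((e a).1, (e b).1) = k := fun a b h =>
        hk ![(e a).1, (e b).1] (Fin.strictMono_iff_lt_succ.2 fun i => by fin_cases i; exact h)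
          fun i => by fin_cases i; exacts [(e a).2, (e b).2]
      refine ⟨⟨fun a => (e a).1, Subtype.val_injective.comp e.injective⟩, k, fun a b h => ?_⟩
      rcases lt_or_gt_of_ne ((Subtype.val_injective.comp e.injective).ne h.ne) with l | l
      · exact key a b l
      · exact (congrArg c Sym2.eq_swap).trans (key b a l)
  exact ⟨S, h1, fun X a b => h2 X a (by omega), h3⟩

theorem free_of_sparse {β γ : Type} [Fintype γ] {G : SimpleGraph β} {F : SimpleGraph γ}
    (hF : TriangleLinked F) (hG : F.Free G) (S : Sys G)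
    (h2 : Sparse S.E (Fintype.card (Finset γ))) (h3 : S.Tri) : F.Free S.H := by
  classical
  rintro ⟨f⟩
  rcases isEmpty_or_nonempty γ with hγ | ⟨⟨v₀⟩⟩
  · exact hG ⟨⟨⟨isEmptyElim, fun {a} => isEmptyElim a⟩, isEmptyElim⟩⟩
  have h : ∀ t, F.IsNClique 3 t → ∃ i, ∀ v ∈ t, f v ∈ range (S.emb i) := fun t ht => by
    obtain ⟨x, y, z, a, b, c, rfl⟩ := SimpleGraph.is3Clique_iff.1 ht
    obtain ⟨i, p, q, r⟩ := h3 _ _ _ (f.toHom.map_adj a) (f.toHom.map_adj b) (f.toHom.map_adj c)
    refine ⟨i, fun v hv => ?_⟩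
    simp only [Finset.mem_insert, Finset.mem_singleton] at hv
    rcases hv with rfl | rfl | rfl
    exacts [p, q, r]
  obtain ⟨t₀, ht₀, -⟩ := hF.1 v₀
  have : Nonempty S.ι := (h t₀ ht₀).nonempty
  choose! i hi using h
  have hE : ∀ t, F.IsNClique 3 t → ∀ e ∈ F.edgeSet, (∀ v ∈ e, v ∈ t) →
      Sym2.map f e ∈ S.E (i t) := fun t ht e he h => by
    induction e using Sym2.ind with
    | _ x y =>
    obtain ⟨a, ha⟩ := hi t ht x (h x (Sym2.mem_mk_left _ _))
    obtain ⟨b, hb⟩ := hi t ht y (h y (Sym2.mem_mk_right _ _))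
    refine ⟨a, b, (S.emb (i t)).map_adj_iff.1 ?_, by rw [ha, hb]; rfl⟩
    rw [ha, hb]
    exact f.toHom.map_adj he
  let X := (Finset.univ.filter (F.IsNClique 3)).image i
  have hX : ∀ t, F.IsNClique 3 t → i t ∈ X := fun t ht =>
    Finset.mem_image_of_mem _ (Finset.mem_filter.2 ⟨Finset.mem_univ _, ht⟩)
  by_cases hc : 2 ≤ X.card
  · obtain ⟨p, ⟨a, ha, p1⟩, ⟨b, hb, p2⟩, hp⟩ := h2 X hc
      (Finset.card_image_le.trans (Finset.card_le_univ _))
    obtain ⟨t, ht, rfl⟩ := Finset.mem_image.1 ha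
    obtain ⟨t', ht', rfl⟩ := Finset.mem_image.1 hb
    obtain ⟨e, he, e', he', hne⟩ := hF.2 (fun t => p (i t))
      ⟨t, (Finset.mem_filter.1 ht).2, p1⟩ ⟨t', (Finset.mem_filter.1 ht').2, p2⟩
    have k : ∀ e ∈ {e | e ∈ F.edgeSet ∧ (∃ t, F.IsNClique 3 t ∧ p (i t) ∧ ∀ v ∈ e, v ∈ t) ∧
        ∃ t, F.IsNClique 3 t ∧ ¬ p (i t) ∧ ∀ v ∈ e, v ∈ t}, Sym2.map f e ∈
        {e | (∃ i ∈ X, p i ∧ e ∈ S.E i) ∧ ∃ i ∈ X, ¬ p i ∧ e ∈ S.E i} :=
      fun e ⟨h0, ⟨t, h1, h2, h3⟩, t', h4, h5, h6⟩ =>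
        ⟨⟨_, hX t h1, h2, hE t h1 e h0 h3⟩, _, hX t' h4, h5, hE t' h4 e h0 h6⟩
    exact hne (Sym2.map.injective f.injective (hp (k e he) (k e' he')))
  have hall : ∀ v, f v ∈ range (S.emb (i t₀)) := fun v => by
    obtain ⟨t, ht, hv⟩ := hF.1 v
    rw [Finset.card_le_one.1 (by omega : X.card ≤ 1) _ (hX t₀ ht₀) _ (hX t ht)]
    exact hi t ht v hv
  choose r hr using hall
  refine hG ⟨⟨⟨r, fun {a b} h => (S.emb (i t₀)).map_adj_iff.1 ?_⟩, fun a b h => f.injective ?_⟩⟩
  · rw [hr, hr]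
    exact f.toHom.map_adj h
  · exact (hr a).symm.trans ((congrArg _ h).trans (hr b))

theorem exceptional {α β γ : Type} [Finite α] [Finite β] (G₁ : SimpleGraph α)
    (G₂ : SimpleGraph β) (F : SimpleGraph γ) (h1 : G₁.Colorable 3) (h2 : ¬ G₂.CliqueFree 3)
    (h3 : F.IsContained G₁) (h4 : TriangleLinked F) (h5 : F.Free G₂) : Exceptional.{u} G₁ G₂ := by
  refine ⟨fun n hn => ?_, fun V H h => countable_colouring H h1 h2 h⟩
  obtain ⟨f⟩ := id h3
  have : Finite γ := Finite.of_injective _ f.injective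
  have := Fintype.ofFinite γ
  have : Nonempty (Fin n) := ⟨⟨0, hn⟩⟩
  obtain ⟨S, a, b, c⟩ := exists_sparse G₂ (Fin n) (Fintype.card (Finset γ))
  refine ⟨ULift.{u} S.W, S.H.comap ULift.down, fun ⟨q⟩ => free_of_sparse h4 h5 S b c
    (h3.trans ⟨⟨⟨fun x => (q x).down, fun h => q.toHom.map_adj h⟩,
      ULift.down_injective.comp q.injective⟩⟩), fun c => ?_⟩
  obtain ⟨i, k, hk⟩ := a (c ∘ Sym2.map ULift.up)
  exact ⟨⟨⟨fun x => ⟨S.emb i x⟩, fun h => (S.emb i).map_adj_iff.2 h⟩,
    ULift.up_injective.comp (S.emb i).injective⟩, k, hk⟩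

/-- a transversal triangle -/
def tri {m : ℕ} (w : Fin 3 → Fin m) : Finset (Fin 3 × Fin m) :=
  Finset.univ.image fun i => (i, w i)

theorem mem_tri {m : ℕ} {w : Fin 3 → Fin m} {v : Fin 3 × Fin m} : v ∈ tri w ↔ w v.1 = v.2 := by
  simp only [tri, Finset.mem_image, Finset.mem_univ, true_and]
  exact ⟨fun ⟨i, h⟩ => h ▸ rfl, fun h => ⟨v.1, Prod.ext rfl h⟩⟩

theorem tri_clique {m : ℕ} (w : Fin 3 → Fin m) : (tripartite m).IsNClique 3 (tri w) := by
  refine ⟨fun a ha b hb h e => h (Prod.ext e ?_), ?_⟩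
  · rw [← mem_tri.1 ha, ← mem_tri.1 hb, e]
  · rw [tri, Finset.card_image_of_injective _ fun a b h => congrArg Prod.fst h]
    rfl

theorem exists_tri {m : ℕ} {t : Finset (Fin 3 × Fin m)} (h : (tripartite m).IsNClique 3 t) :
    ∃ w, t = tri w := by
  have hi : InjOn Prod.fst (t : Set (Fin 3 × Fin m)) := fun a ha b hb e =>
    by_contra fun h' => h.1 ha hb h' e
  have hs : t.image Prod.fst = Finset.univ :=
    Finset.eq_univ_of_card _ (by rw [Finset.card_image_of_injOn hi, h.2]; rfl)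
  choose w h1 h2 using fun i => Finset.mem_image.1 (hs ▸ Finset.mem_univ i)
  refine ⟨fun i => (w i).2, Finset.ext fun v => mem_tri.trans ?_ |>.symm⟩
  exact ⟨fun e => (Prod.ext (h2 v.1) e : w v.1 = v) ▸ h1 v.1,
    fun hv => congrArg Prod.snd (hi (h1 v.1) hv (h2 v.1))⟩

theorem linked_tripartite {m : ℕ} (hm : 2 ≤ m) : TriangleLinked (tripartite m) := by
  refine ⟨fun v => ⟨_, tri_clique fun _ => v.2, mem_tri.2 rfl⟩, fun p ⟨t, ht, p1⟩ ⟨t', ht', p2⟩ => ?_⟩
  obtain ⟨w, rfl⟩ := exists_tri ht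
  obtain ⟨w', rfl⟩ := exists_tri ht'
  set T := {e | e ∈ (tripartite m).edgeSet ∧
    (∃ t, (tripartite m).IsNClique 3 t ∧ p t ∧ ∀ v ∈ e, v ∈ t) ∧
      ∃ t, (tripartite m).IsNClique 3 t ∧ ¬ p t ∧ ∀ v ∈ e, v ∈ t}
  have sh : ∀ (u u' : Fin 3 → Fin m) (i j : Fin 3), i ≠ j → ¬ (p (tri u) ↔ p (tri u')) →
      u i = u' i → u j = u' j → s((i, u i), (j, u j)) ∈ T := fun u u' i j h hp a b => by
    have m1 : ∀ v ∈ s((i, u i), (j, u j)), v ∈ tri u := by simp [mem_tri]
    have m2 : ∀ v ∈ s((i, u i), (j, u j)), v ∈ tri u' := by simp [mem_tri, a, b]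
    by_cases hu : p (tri u)
    · exact ⟨h, ⟨_, tri_clique u, hu, m1⟩, _, tri_clique u', by tauto, m2⟩
    · exact ⟨h, ⟨_, tri_clique u', by tauto, m2⟩, _, tri_clique u, hu, m1⟩
  have key : ∀ (u : Fin 3 → Fin m) (i j k : Fin 3) (c : Fin m), i ≠ j → i ≠ k → j ≠ k →
      ¬ (p (tri u) ↔ p (tri (Function.update u k c))) → T.Nontrivial := by
    intro u i j k c ij ik jk hp
    have : Nontrivial (Fin m) := Fin.nontrivial_iff_two_le.2 hm
    obtain ⟨a, ha⟩ := exists_ne (u i)
    have e0 := sh u _ i j ij hp (by simp [ik]) (by simp [jk])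
    by_cases h1 : p (tri u) ↔ p (tri (Function.update u i a))
    · by_cases h2 : p (tri (Function.update u i a)) ↔
          p (tri (Function.update (Function.update u i a) k c))
      · refine ⟨_, e0, _, sh (Function.update u k c) (Function.update (Function.update u i a) k c)
          j k jk (by tauto) (by simp [jk, ij.symm]) (by simp), ?_⟩
        simp [ij, ik]
      · refine ⟨_, e0, _, sh _ _ i j ij h2 (by simp [ik]) (by simp [jk]), ?_⟩
        simp [ij, ha.symm]
    · refine ⟨_, e0, _, sh _ _ j k jk h1 (by simp [ij.symm]) (by simp [ik.symm]), ?_⟩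
      simp [ij, ik]
  by_contra hT
  have a := not_not.1 (mt (key w 1 2 0 (w' 0) (by decide) (by decide) (by decide)) hT)
  have b := not_not.1 (mt (key (Function.update w 0 (w' 0)) 0 2 1 (w' 1) (by decide) (by decide)
    (by decide)) hT)
  have c := not_not.1 (mt (key (Function.update (Function.update w 0 (w' 0)) 1 (w' 1)) 0 1 2 (w' 2)
    (by decide) (by decide) (by decide)) hT)
  have : Function.update (Function.update (Function.update w 0 (w' 0)) 1 (w' 1)) 2 (w' 2) = w' := by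
    funext i
    fin_cases i <;> simp
  rw [this] at c
  exact p2 (c.1 (b.1 (a.1 p1)))

theorem colorable_tripartite (m : ℕ) : (tripartite m).Colorable 3 :=
  ⟨SimpleGraph.Coloring.mk Prod.fst fun h => h⟩

section Wheel

variable {n : ℕ}

theorem zmod_ne (hn : 4 ≤ n) {k : ℕ} (h1 : 0 < k) (h2 : k < 4) : (k : ZMod n) ≠ 0 := fun h =>
  absurd (Nat.le_of_dvd h1 ((ZMod.natCast_eq_zero_iff _ _).1 h)) (by omega)

theorem wheel_none (i : ZMod n) : (wheel n).Adj none (some i) := ⟨by simp, Or.inl (Or.inl rfl)⟩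

theorem wheel_some {i j : ZMod n} (h : (wheel n).Adj (some i) (some j)) :
    j = i + 1 ∨ i = j + 1 := by
  simpa [wheel] using h.2

/-- a triangle of the wheel -/
def wt (i : ZMod n) : Finset (Option (ZMod n)) := {none, some i, some (i + 1)}

theorem wt_clique (hn : 4 ≤ n) (i : ZMod n) : (wheel n).IsNClique 3 (wt i) :=
  SimpleGraph.is3Clique_triple_iff.2 ⟨wheel_none _, wheel_none _,
    by simpa using zmod_ne hn one_pos (by omega), Or.inl (Or.inr ⟨i, rfl, rfl⟩)⟩

theorem exists_wt (hn : 4 ≤ n) {t : Finset (Option (ZMod n))} (h : (wheel n).IsNClique 3 t) :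
    ∃ i, t = wt i := by
  have key : ∀ i j, (wheel n).Adj (some i) (some j) →
      ∃ k, ({none, some i, some j} : Finset (Option (ZMod n))) = wt k := fun i j h => by
    rcases wheel_some h with rfl | rfl
    · exact ⟨i, rfl⟩
    · exact ⟨j, by rw [wt, Finset.pair_comm]⟩
  obtain ⟨x, y, z, a, b, c, rfl⟩ := SimpleGraph.is3Clique_iff.1 h
  cases x <;> cases y <;> cases z
  · exact absurd rfl a.ne
  · exact absurd rfl a.ne
  · exact absurd rfl b.ne
  · exact key _ _ c
  · exact absurd rfl c.ne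
  · rw [Finset.insert_comm]
    exact key _ _ b
  · rw [Finset.pair_comm, Finset.insert_comm, Finset.pair_comm]
    exact key _ _ a.symm
  · have h1 := zmod_ne hn one_pos (by omega)
    have h3 := zmod_ne hn (k := 3) (by omega) (by omega)
    push_cast at h1 h3
    rcases wheel_some a with a | a <;> rcases wheel_some b with b | b <;>
      rcases wheel_some c with c | c
    · exact absurd (by linear_combination b - a - c) h1
    · exact absurd (by linear_combination a - b - c) h1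
    · exact absurd (by linear_combination - a - b - c) h3
    · exact absurd (by linear_combination c - a - b) h1
    · exact absurd (by linear_combination c - a - b) h1
    · exact absurd (by linear_combination - a - b - c) h3
    · exact absurd (by linear_combination a - b - c) h1
    · exact absurd (by linear_combination b - a - c) h1

theorem exists_change (hn : 4 ≤ n) (q : ZMod n → Prop) {a b : ZMod n} (ha : q a) (hb : ¬ q b) :
    ∃ i, q i ∧ ¬ q (i + 1) := by
  have : NeZero n := ⟨by omega⟩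
  by_contra h
  push Not at h
  have : ∀ k : ℕ, q (a + k) := fun k => by
    induction k with
    | zero => simpa using ha
    | succ k ih => simpa [add_assoc] using h _ ih
  simpa [hb] using this (b - a).val

theorem linked_wheel (hn : 4 ≤ n) : TriangleLinked (wheel n) := by
  refine ⟨fun v => ?_, fun p ⟨t, ht, p1⟩ ⟨t', ht', p2⟩ => ?_⟩
  · cases v with
    | none => exact ⟨_, wt_clique hn 0, by simp [wt]⟩
    | some i => exact ⟨_, wt_clique hn i, by simp [wt]⟩
  obtain ⟨a, rfl⟩ := exists_wt hn ht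
  obtain ⟨b, rfl⟩ := exists_wt hn ht'
  obtain ⟨i, h1, h2⟩ := exists_change hn (fun i => p (wt i)) p1 p2
  obtain ⟨j, h3, h4⟩ := exists_change hn (fun i => ¬ p (wt i)) p2 (not_not.2 p1)
  refine ⟨s(none, some (i + 1)), ⟨wheel_none _, ⟨_, wt_clique hn i, h1, by simp [wt]⟩,
    _, wt_clique hn (i + 1), h2, by simp [wt]⟩, s(none, some (j + 1)), ⟨wheel_none _,
    ⟨_, wt_clique hn (j + 1), not_not.1 h4, by simp [wt]⟩, _, wt_clique hn j, h3, by simp [wt]⟩,
    fun e => h3 ?_⟩
  obtain rfl : i = j := by simpa using e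
  exact h1

theorem colorable_wheel (k : ℕ) : (wheel (2 * k)).Colorable 3 := by
  let f := ZMod.castHom (dvd_mul_right 2 k) (ZMod 2)
  have key : ∀ i : ZMod (2 * k), f i ≠ f (i + 1) := fun i => by
    rw [map_add, map_one]
    generalize f i = x
    revert x
    decide
  refine (SimpleGraph.Coloring.mk (Option.map f) fun {u v} h => ?_).colorable
  cases u <;> cases v
  · exact absurd rfl h.ne
  · simp
  · simp
  · rcases wheel_some h with rfl | rfl
    · exact fun e => key _ (Option.some.inj e)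
    · exact fun e => key _ (Option.some.inj e).symm

end Wheel

theorem main :
    (∀ {α β : Type} [Finite α] (G₁ : SimpleGraph α) (G₂ : SimpleGraph β), G₁.Colorable 3 →
      ¬ G₂.CliqueFree 3 → ∀ (V : Type u) (H : SimpleGraph V), G₁.Free H →
        ∃ c : Sym2 V → ℕ, ¬ HasMonoCopy G₂ H c) ∧
    (∀ {α β γ : Type} [Finite α] [Finite β] (G₁ : SimpleGraph α) (G₂ : SimpleGraph β)
      (F : SimpleGraph γ), G₁.Colorable 3 → ¬ G₂.CliqueFree 3 → F.IsContained G₁ → TriangleLinked F →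
        F.Free G₂ → Exceptional.{u} G₁ G₂) ∧
    (∀ {β : Type} [Finite β] (G₂ : SimpleGraph β) (m : ℕ), 2 ≤ m → ¬ G₂.CliqueFree 3 →
      (tripartite m).Free G₂ → Exceptional.{u} (tripartite m) G₂) ∧
    ∀ k : ℕ, 2 ≤ k → Exceptional.{u} (wheel (2 * k)) (⊤ : SimpleGraph (Fin 3)) := by
  refine ⟨fun G₁ G₂ h1 h2 V H h => countable_colouring H h1 h2 h, exceptional,
    fun G₂ m hm h1 h2 => exceptional _ _ _ (colorable_tripartite m) h1 (.refl _)
      (linked_tripartite hm) h2, fun k hk => ?_⟩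
  have : NeZero (2 * k) := ⟨by omega⟩
  refine exceptional _ _ _ (colorable_wheel k) (fun h => h Finset.univ ⟨by simp [SimpleGraph.isClique_iff,
    Set.Pairwise], rfl⟩) (.refl _) (linked_wheel (by omega)) fun ⟨f⟩ => ?_
  have := Fintype.card_le_of_injective _ f.injective
  simp at this
  omega

end Pool.Agent.P.MP_48d4bc_co
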