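import Pool.Agent.P.MP_48d4bc_co.PG1

set_option autoImplicit false

/-! Forward closure. -/

namespace Pool.Agent.P.MP_48d4bc_co.EX.PI

open Set Function Pool.Agent.Lib.PrimrecProp

variable {D : Dat} {θ : Th}

section

variable {T gy a e kd k i j x : ℕ} {u u' : Nm}

theorem PG5_rg (h : Mp D T θ (rg a e kd k) u) (hr : Reg a e kd) :
    ∃ e' kd' b d, RM θ a e kd e' kd' b d ∧ u = rg a e' kd' (k + 1) ∧ k + b ≤ T + 1 := by
  obtain ⟨m, d, h, hm⟩ := h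
  obtain ⟨e', kd', b, d', h1, h2, h3, -⟩ := h.inv_rg hr
  exact ⟨e', kd', b, d', h1, h2, h3 ▸ hm⟩

theorem PG5_cl (h : Mp D T θ (cl a e i j x) u) (he : e < 2) :
    (Cls θ a ∧ e = 0 ∧ j = i ∧ x = X D 0 i i ∧ u = tc D a 1 (i + 1) (i + 1) ∧ i ≤ T + 1) ∨
    (∃ v w, θ = (2, a, e, 0, v, w) ∧ Dm v w i j ∧ u = cl a e (i + v) (j + w) x ∧
      max i j ≤ T + 1) ∨
    ∃ v w, θ = (2, a, e, 1, v, w) ∧ Dm v w i j ∧ x = X D e i j ∧
      u = tc D a e (i + v) (j + w) ∧ max i j ≤ T + 1 := by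
  obtain ⟨m, d, h, hm⟩ := h
  rcases h.inv_cl he with ⟨h1, h2, h3, h4, h5, rfl⟩ | ⟨v, w, h1, h2, h3, rfl⟩ |
    ⟨v, w, h1, h2, h3, h4, rfl⟩
  · exact Or.inl ⟨h1, h2, h3, h4, h5, hm⟩
  · exact Or.inr (Or.inl ⟨v, w, h1, h2, h3, hm⟩)
  · exact Or.inr (Or.inr ⟨v, w, h1, h2, h3, h4, hm⟩)

theorem PG5_f0 {c : Nm} {h : ℕ} {θ' : Th} (H : FF D u u' c h θ' 0) : Fn D T gy u u' c :=
  ⟨h, θ', 0, H, fun h => absurd h (by omega), fun h => absurd h (by omega)⟩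

/-- a cell and a register of kind at least five are moved by a grid map -/
theorem PG5_cr (hθ : Sh θ) (ha : a < 4) (he : e < 2) (h5 : 5 ≤ kd) (h14 : kd < 14)
    (h1 : Mp D T θ (cl a e i j x) u) (h2 : Mp D T θ (rg a e kd k) u') :
    ∃ g v w kd', θ = (2, a, e, g, v, w) ∧ Dm v w i j ∧ GK g v w kd kd' ∧
      u' = rg a e kd' (k + 1) ∧ k ≤ T ∧ (g = 0 ∧ u = cl a e (i + v) (j + w) x ∨
        g = 1 ∧ x = X D e i j ∧ u = tc D a e (i + v) (j + w)) := by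
  obtain ⟨e', kd', b, d, r, rfl, hb⟩ := PG5_rg h2 ⟨ha, Or.inl ⟨he, h14⟩⟩
  rcases PG5_cl h1 he with ⟨c1, -⟩ | ⟨v, w, rfl, c2, c3, -⟩ | ⟨v, w, rfl, c2, c3, c4, -⟩
  · exfalso
    obtain ⟨t, a0, p1, p2, p3, p4⟩ := θ
    simp only [Sh, Reg, RM, Cls] at hθ r c1
    omega
  · simp only [RM, Cls] at r
    obtain ⟨rfl, rfl, r'⟩ : e' = e ∧ b = 1 ∧ GK 0 v w kd kd' := by
      rcases r with r | r | r | r | r
      iterate 4 (exfalso; omega)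
      exact ⟨r.2.2.2.1, r.2.2.2.2.1, r.2.2.2.2.2.2⟩
    exact ⟨0, v, w, kd', rfl, c2, r', rfl, by omega, Or.inl ⟨rfl, c3⟩⟩
  · simp only [RM, Cls] at r
    obtain ⟨rfl, rfl, r'⟩ : e' = e ∧ b = 1 ∧ GK 1 v w kd kd' := by
      rcases r with r | r | r | r | r
      iterate 4 (exfalso; omega)
      exact ⟨r.2.2.2.1, r.2.2.2.2.1, r.2.2.2.2.2.2⟩
    exact ⟨1, v, w, kd', rfl, c2, r', rfl, by omega, Or.inr ⟨rfl, c3, c4⟩⟩

theorem PG5_ru (ha : a < 4) (he : e < 2) {y : ℕ} (hx : x < sz D) (hy : y < sz D) :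
    Fn D T gy (cl a e i (j + 1) x) (cl a e (i + 1) j y) (cl a e (i + 1) (j + 1) (dl D x y)) := by
  by_cases h1 : j = 0
  · exact PG5_f0 (FF.ru a e i j x y 1 0 ha he hx hy (by omega))
  by_cases h2 : i = 0
  · exact PG5_f0 (FF.ru a e i j x y 0 1 ha he hx hy (by omega))
  · exact PG5_f0 (FF.ru a e i j x y 1 1 ha he hx hy (by omega))

end

theorem Mp.fwd (hs : Shift D) (hθ : Sh θ) {T gx gy : ℕ} (hT : mk D (X D 0 T T) = true)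
    (hy : T + 3 ≤ gy) {a a' b b' c : Nm} (ha : Mp D T θ a a') (hb : Mp D T θ b b')
    (h : Fn D gx T a b c) : ∃ c', Fn D T gy a' b' c' ∧ Mp D T θ c c' := by
  obtain ⟨h, θ₀, p, H, hty⟩ := h
  cases H with
  | cr a e kd k η hr hη =>
    obtain ⟨e1, k1, b1, d1, r1, rfl, m1⟩ := PG5_rg ha hr
    obtain ⟨e2, k2, b2, d2, r2, rfl, m2⟩ := PG5_rg hb ⟨by omega, by omega⟩
    obtain ⟨rfl, h1, h2⟩ : k2 = 0 ∧ e2 < 2 ∧ k + 1 + b1 ≤ T + 1 := by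
      obtain ⟨t, a0, p1, p2, p3, p4⟩ := θ
      simp only [Sh, Reg, RM, Cls, GK] at hθ hr r1 r2
      omega
    exact ⟨_, PG5_f0 (FF.cr a e1 k1 (k + 1) e2 (r1.reg hθ hr).1 h1), _, _,
      MF.re θ a e kd e1 k1 b1 d1 (k + 1) hr r1, h2⟩
  | pl a e k h4 he =>
    have hr : Reg a e 2 := ⟨h4, by omega⟩
    obtain ⟨e1, k1, b1, d1, r1, rfl, m1⟩ := PG5_rg ha hr
    obtain ⟨e2, k2, b2, d2, r2, rfl, m2⟩ := PG5_rg hb ⟨h4, by omega⟩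
    obtain ⟨rfl, rfl, rfl, h1, h2⟩ : k1 = 2 ∧ k2 = 0 ∧ e2 = e1 ∧ e1 < 2 ∧
        k + 1 + b1 ≤ T + 1 := by
      obtain ⟨t, a0, p1, p2, p3, p4⟩ := θ
      simp only [Sh, Reg, RM, Cls, GK] at hθ r1 r2
      omega
    exact ⟨_, PG5_f0 (FF.pl a e2 (k + 1) h4 h1), _, _, MF.re θ a e 2 e2 2 b1 d1 (k + 1) hr r1, h2⟩
  | pz a e kd k h4 he hk =>
    have hr : Reg a e kd := ⟨h4, by omega⟩
    obtain ⟨e1, k1, b1, d1, r1, rfl, m1⟩ := PG5_rg ha hr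
    obtain ⟨e2, k2, b2, d2, r2, rfl, m2⟩ := PG5_rg hb ⟨h4, by omega⟩
    obtain ⟨rfl, rfl, rfl, h1, h2⟩ : k1 = kd ∧ k2 = 2 ∧ e2 = e1 ∧ e1 < 2 ∧
        k + 1 + b1 ≤ T + 1 := by
      obtain ⟨t, a0, p1, p2, p3, p4⟩ := θ
      simp only [Sh, Reg, RM, Cls, GK] at hθ r1 r2
      omega
    exact ⟨_, PG5_f0 (FF.pz a e2 k1 (k + 1) h4 h1 hk), _, _,
      MF.re θ a e k1 e2 k1 b1 d1 (k + 1) hr r1, h2⟩
  | ps a e s p k h4 he =>
    have hr : Reg a e 0 := ⟨h4, by omega⟩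
    obtain ⟨e1, k1, b1, d1, r1, rfl, m1⟩ := PG5_rg ha hr
    obtain ⟨e2, k2, b2, d2, r2, rfl, m2⟩ := PG5_rg hb ⟨h4, by omega⟩
    obtain ⟨rfl, rfl, rfl, h1, h2⟩ : k1 = 0 ∧ k2 = 1 ∧ e2 = e1 ∧
        (e1 = 0 ∧ k ≤ T ∨ e1 = 1 ∧ k + 2 ≤ T ∨ e1 = 2) ∧ k + 1 + b1 ≤ T + 1 := by
      obtain ⟨t, a0, p1, p2, p3, p4⟩ := θ
      simp only [Sh, Reg, RM, Cls, GK, Ty] at hθ r1 r2 hty
      omega
    refine ⟨rg a e2 0 (k + 1 + 1), ?_, _, _, MF.re θ a e 0 e2 0 b1 d1 (k + 1) hr r1, h2⟩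
    rcases h1 with h1 | h1 | h1
    · exact ⟨_, _, _, FF.ps a e2 2 1 (k + 1) h4 (by omega), by omega, by omega⟩
    · exact ⟨_, _, _, FF.ps a e2 0 2 (k + 1) h4 (by omega), by omega, by omega⟩
    · exact ⟨_, _, _, FF.ps a e2 2 0 (k + 1) h4 (by omega), by omega, by omega⟩
  | ar a e i j x h4 he hx hij =>
    obtain ⟨g, v, w, k2, rfl, c1, c2, rfl, c3, c4⟩ :=
      PG5_cr hθ h4 he (by omega) (by omega) ha hb
    simp only [Dm, GK] at c1 c2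
    obtain ⟨rfl, rfl, rfl, h1⟩ : g = 0 ∧ v = 1 ∧ k2 = 5 ∧ w ≤ 1 := by omega
    obtain rfl := (c4.resolve_right (by omega)).2
    exact ⟨_, PG5_f0 (FF.ar a e (i + 1) (j + w) x h4 he hx (by omega)), _, _,
      MF.sc a e 1 w (i + 1) j x h4 he hx (by unfold Dm; omega), by omega⟩
  | au a e i j x h4 he hx hij =>
    obtain ⟨g, v, w, k2, rfl, c1, c2, rfl, c3, c4⟩ :=
      PG5_cr hθ h4 he (by omega) (by omega) ha hb
    simp only [Dm, GK] at c1 c2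
    obtain ⟨rfl, rfl, rfl, h1⟩ : g = 0 ∧ w = 1 ∧ k2 = 6 ∧ v ≤ 1 := by omega
    obtain rfl := (c4.resolve_right (by omega)).2
    exact ⟨_, PG5_f0 (FF.au a e (i + v) (j + 1) x h4 he hx (by omega)), _, _,
      MF.sc a e v 1 i (j + 1) x h4 he hx (by unfold Dm; omega), by omega⟩
  | ad a e i x h4 he hx =>
    obtain ⟨g, v, w, k2, rfl, c1, c2, rfl, c3, c4⟩ :=
      PG5_cr hθ h4 he (by omega) (by omega) ha hb
    simp only [Dm, GK] at c1 c2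
    obtain ⟨rfl, rfl, rfl, rfl⟩ : g = 0 ∧ w = 1 ∧ k2 = 7 ∧ v = 1 := by omega
    obtain rfl := (c4.resolve_right (by omega)).2
    exact ⟨_, PG5_f0 (FF.ad a e (i + 1) x h4 he hx), _, _,
      MF.sc a e 1 1 (i + 1) (i + 1) x h4 he hx (by unfold Dm; omega), by omega⟩
  | ru a e i j x y v₀ w₀ h4 he hx hy' h0 =>
    rcases PG5_cl ha he with ⟨c1, -, c2, -⟩ | ⟨v, w, rfl, c2, rfl, c4⟩ |
      ⟨v, w, rfl, c2, rfl, rfl, c4⟩ <;>
    rcases PG5_cl hb he with ⟨e1, -, e2, -⟩ | ⟨v', w', e1, e2, rfl, e4⟩ |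
      ⟨v', w', e1, e2, rfl, rfl, e4⟩
    · omega
    · subst e1; simp only [Cls] at c1; omega
    · subst e1; simp only [Cls] at c1; omega
    · simp only [Cls] at e1; omega
    · simp only [Prod.mk.injEq, true_and] at e1
      obtain ⟨rfl, rfl⟩ := e1
      refine ⟨_, ?_, _, _, MF.sc a e v w (i + 1) (j + 1) _ h4 he (dl_lt _ _ _)
        (by simp only [Dm] at c2 e2 ⊢; omega), by omega⟩
      simp only [Nat.add_right_comm _ 1]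
      exact PG5_ru h4 he hx hy'
    · simp at e1
    · simp only [Cls] at e1; omega
    · simp at e1
    · simp only [Prod.mk.injEq, true_and] at e1
      obtain ⟨rfl, rfl⟩ := e1
      rw [← X_ss]
      refine ⟨_, ?_, _, _, MF.ec a e v w (i + 1) (j + 1) h4 he
        (by simp only [Dm] at c2 e2 ⊢; omega), by omega⟩
      simp only [tc, Nat.add_right_comm _ 1, X_ss]
      exact PG5_ru h4 he (X_lt _ _ _ _) (X_lt _ _ _ _)
  | r1 a e i x h4 he hx =>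
    obtain ⟨g, v, w, k2, rfl, c1, c2, rfl, c3, c4⟩ :=
      PG5_cr hθ h4 he (by omega) (by omega) ha hb
    simp only [Dm, GK] at c1 c2
    obtain ⟨rfl, rfl, rfl⟩ : v = 1 ∧ w = 0 ∧ k2 = 12 := by omega
    rcases c4 with ⟨rfl, rfl⟩ | ⟨rfl, rfl, rfl⟩
    · exact ⟨_, PG5_f0 (FF.r1 a e (i + 1) x h4 he hx), _, _,
        MF.sc a e 1 0 (i + 1) 0 _ h4 he (b1_lt _ _) (by unfold Dm; omega), by omega⟩
    · rw [← X_s0]
      refine ⟨_, ?_, _, _, MF.ec a e 1 0 (i + 1) 0 h4 he (by unfold Dm; omega), by omega⟩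
      have := FF.r1 a e (i + 1) _ h4 he (X_lt D e (i + 1) 0)
      rw [← X_s0] at this
      exact PG5_f0 this
  | r2 a e j x h4 he hx =>
    obtain ⟨g, v, w, k2, rfl, c1, c2, rfl, c3, c4⟩ :=
      PG5_cr hθ h4 he (by omega) (by omega) ha hb
    simp only [Dm, GK] at c1 c2
    obtain ⟨rfl, rfl, rfl⟩ : v = 0 ∧ w = 1 ∧ k2 = 13 := by omega
    rcases c4 with ⟨rfl, rfl⟩ | ⟨rfl, rfl, rfl⟩
    · exact ⟨_, PG5_f0 (FF.r2 a e (j + 1) x h4 he hx), _, _,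
        MF.sc a e 0 1 0 (j + 1) _ h4 he (b2_lt _ _) (by unfold Dm; omega), by omega⟩
    · rw [← X_0s]
      refine ⟨_, ?_, _, _, MF.ec a e 0 1 0 (j + 1) h4 he (by unfold Dm; omega), by omega⟩
      have := FF.r2 a e (j + 1) _ h4 he (X_lt D e 0 (j + 1))
      rw [← X_0s] at this
      exact PG5_f0 this
  | ga a e i x h4 he hx hm =>
    obtain ⟨e1, k1, b1, d1, r1, rfl, m1⟩ := PG5_rg ha ⟨h4, by omega⟩
    rcases PG5_cl hb he with ⟨c1, rfl, -, rfl, rfl, -⟩ | ⟨v, w, rfl, c2, rfl, c4⟩ |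
      ⟨v, w, rfl, -⟩
    · obtain ⟨rfl, rfl, rfl⟩ : e1 = 1 ∧ k1 = 3 ∧ b1 = 1 := by
        obtain ⟨t, a0, p1, p2, p3, p4⟩ := θ
        simp only [Sh, Reg, RM, Cls, GK] at hθ r1 c1
        omega
      have h1 : i ≠ T := by
        rintro rfl
        rw [hT] at hm
        exact Bool.noConfusion hm
      exact ⟨_, PG5_f0 (FF.ga a 1 (i + 1) _ h4 one_lt_two (X_lt _ _ _ _) ((hs i).trans hm)), _, _,
        MF.re θ a 0 0 1 0 2 7 i ⟨h4, by omega⟩ (Or.inl ⟨c1, rfl, rfl, rfl, by omega⟩), by omega⟩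
    · simp only [RM, Cls, GK] at r1
      obtain ⟨rfl, rfl, rfl, rfl, rfl⟩ : e1 = e ∧ k1 = 3 ∧ b1 = 1 ∧ v = 1 ∧ w = 1 := by omega
      exact ⟨_, PG5_f0 (FF.ga a e1 (i + 1) x h4 he hx hm), _, _,
        MF.re _ a e1 0 e1 0 1 3 i ⟨h4, by omega⟩ (by simp [RM, GK]), m1⟩
    · simp only [RM, Cls, GK] at r1
      omega
  | er a e i j h4 he hj hij =>
    obtain ⟨g, v, w, k2, rfl, c1, c2, rfl, c3, c4⟩ :=
      PG5_cr hθ h4 he (by omega) (by omega) ha hb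
    simp only [Dm, GK] at c1 c2
    obtain ⟨rfl, rfl, rfl, h1⟩ : g = 1 ∧ v = 1 ∧ k2 = 8 + (j + w) ∧ j + w ≤ 1 := by omega
    obtain rfl := (c4.resolve_left (by omega)).2.2
    exact ⟨_, PG5_f0 (FF.er a e (i + 1) (j + w) h4 he h1 (by omega)), _, _,
      MF.ec a e 1 w (i + 1) j h4 he (by unfold Dm; omega), by omega⟩
  | eu a e i j h4 he hi hij =>
    obtain ⟨g, v, w, k2, rfl, c1, c2, rfl, c3, c4⟩ :=
      PG5_cr hθ h4 he (by omega) (by omega) ha hb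
    simp only [Dm, GK] at c1 c2
    obtain ⟨rfl, rfl, rfl, h1⟩ : g = 1 ∧ w = 1 ∧ k2 = 10 + (i + v) ∧ i + v ≤ 1 := by omega
    obtain rfl := (c4.resolve_left (by omega)).2.2
    exact ⟨_, PG5_f0 (FF.eu a e (i + v) (j + 1) h4 he h1 (by omega)), _, _,
      MF.ec a e v 1 i (j + 1) h4 he (by unfold Dm; omega), by omega⟩
  | qd a e i h4 he =>
    obtain ⟨e1, k1, b1, d1, r1, rfl, m1⟩ := PG5_rg hb ⟨h4, by omega⟩
    rcases PG5_cl ha he with ⟨c1, rfl, -, -, rfl, -⟩ | ⟨v, w, rfl, -⟩ |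
      ⟨v, w, rfl, c2, -, rfl, c4⟩
    · obtain ⟨rfl, rfl, rfl⟩ : e1 = 1 ∧ k1 = 4 ∧ b1 = 1 := by
        obtain ⟨t, a0, p1, p2, p3, p4⟩ := θ
        simp only [Sh, Reg, RM, Cls, GK] at hθ r1 c1
        omega
      exact ⟨_, PG5_f0 (FF.qd a 1 (i + 1) h4 one_lt_two), _, _, MF.gc θ a (i + 1) c1, m1⟩
    · simp only [RM, Cls, GK] at r1
      omega
    · simp only [RM, Cls, GK] at r1
      obtain ⟨rfl, rfl, rfl, rfl, rfl⟩ : e1 = e ∧ k1 = 4 ∧ b1 = 1 ∧ v = 1 ∧ w = 1 := by omega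
      exact ⟨_, PG5_f0 (FF.qd a e1 (i + 1) h4 he), _, _,
        MF.ec a e1 1 1 (i + 1) (i + 1) h4 he (by unfold Dm; omega), by omega⟩

end Pool.Agent.P.MP_48d4bc_co.EX.PI
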