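import Pool.Agent.P.MP_48d4bc_co.PG1

set_option autoImplicit false

/-! Backward closure. -/

namespace Pool.Agent.P.MP_48d4bc_co.EX.PI

open Set Function Pool.Agent.Lib.PrimrecProp

variable {D : Dat} {θ : Th}

theorem PG6_fn {gx gy : ℕ} {a b c : Nm} {h : ℕ} {θ' : Th} (H : FF D a b c h θ' 0) :
    ∃ c, Fn D gx gy a b c :=
  ⟨c, h, θ', 0, H, by simp [Ty]⟩

theorem PG6_cr {a e kd η e₀ k₀ e₁ k₁ b d b' d' : ℕ} (hθ : Sh θ) (hη : η < 2)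
    (h0 : RM θ a e₀ k₀ e kd b d) (h1 : RM θ ((a + 1) % 4) e₁ k₁ η 0 b' d') :
    k₁ = 0 ∧ e₁ < 2 := by
  obtain ⟨t, a0, p1, p2, p3, p4⟩ := θ
  simp only [Sh, Reg, RM, Cls, GK] at hθ h0 h1
  rcases h1 with h1 | h1 | h1 | h1 | h1
  · omega
  · omega
  · omega
  · rcases h0 with h0 | h0 | h0 | h0 | h0 <;> omega
  · omega

theorem PG6_pl {a e e₀ k₀ e₁ k₁ b d b' d' : ℕ} (hθ : Sh θ) (he : e < 2)
    (h0 : RM θ a e₀ k₀ e 2 b d) (h1 : RM θ a e₁ k₁ e 0 b' d') :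
    k₀ = 2 ∧ k₁ = 0 ∧ e₁ = e₀ ∧ e₀ < 2 := by
  obtain ⟨t, a0, p1, p2, p3, p4⟩ := θ
  simp only [Sh, Reg, RM, Cls, GK] at hθ h0 h1
  rcases h0 with h0 | h0 | h0 | h0 | h0 <;> rcases h1 with h1 | h1 | h1 | h1 | h1 <;> omega

theorem PG6_pz {a e kd e₀ k₀ e₁ k₁ b d b' d' : ℕ} (hθ : Sh θ) (he : e < 2)
    (h0 : RM θ a e₀ k₀ e kd b d) (h1 : RM θ a e₁ k₁ e 2 b' d') :
    k₀ = kd ∧ k₁ = 2 ∧ e₁ = e₀ ∧ e₀ < 2 := by
  obtain ⟨t, a0, p1, p2, p3, p4⟩ := θ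
  simp only [Sh, Reg, RM, Cls, GK] at hθ h0 h1
  rcases h1 with h1 | h1 | h1 | h1 | h1 <;> rcases h0 with h0 | h0 | h0 | h0 | h0 <;> omega

theorem PG6_ps {a e e₀ k₀ e₁ k₁ b d b' d' : ℕ} (hθ : Sh θ)
    (h0 : RM θ a e₀ k₀ e 0 b d) (h1 : RM θ a e₁ k₁ e 1 b' d') :
    k₀ = 0 ∧ k₁ = 1 ∧ e₁ = e₀ ∧ (e₀ = 0 ∧ e = 1 ∨ e₀ = 2) := by
  obtain ⟨t, a0, p1, p2, p3, p4⟩ := θ
  simp only [Sh, Reg, RM, Cls, GK] at hθ h0 h1
  rcases h1 with h1 | h1 | h1 | h1 | h1 <;> rcases h0 with h0 | h0 | h0 | h0 | h0 <;> omega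

/-- registers of the zone of the gate -/
theorem PG6_gate {a e₀ k₀ e kd b d : ℕ} (hθ : Sh θ) (hc : Cls θ a)
    (h0 : RM θ a e₀ k₀ e kd b d) : e₀ = 0 ∧ k₀ = kd ∧ kd ≤ 4 := by
  obtain ⟨t, a0, p1, p2, p3, p4⟩ := θ
  simp only [Sh, Reg, RM, Cls, GK] at hθ h0 hc
  rcases h0 with h0 | h0 | h0 | h0 | h0 <;> omega

/-- registers of the zone of a grid map -/
theorem PG6_grid {a e g v w e₀ k₀ e' kd b d : ℕ}
    (h0 : RM (2, a, e, g, v, w) a e₀ k₀ e' kd b d) : e₀ = e ∧ GK g v w k₀ kd := by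
  simp only [RM, Cls] at h0
  rcases h0 with h0 | h0 | h0 | h0 | h0
  · omega
  · omega
  · omega
  · omega
  · exact ⟨h0.2.2.1, h0.2.2.2.2.2.2⟩

theorem PG6_ncls {a e g v w : ℕ} (hc : Cls (2, a, e, g, v, w) a) : False := by
  simp only [Cls] at hc
  omega

theorem PG6_ru {gx gy a e i j x y : ℕ} (ha : a < 4) (he : e < 2) (hx : x < sz D)
    (hy : y < sz D) : ∃ c, Fn D gx gy (cl a e i (j + 1) x) (cl a e (i + 1) j y) c := by
  by_cases hj : j = 0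
  · exact PG6_fn (FF.ru a e i j x y 1 0 ha he hx hy (by omega))
  · by_cases hi : i = 0
    · exact PG6_fn (FF.ru a e i j x y 0 1 ha he hx hy (by omega))
    · exact PG6_fn (FF.ru a e i j x y 1 1 ha he hx hy (by omega))

theorem Mp.bwd (hs : Shift D) (hθ : Sh θ) {T gx gy : ℕ} {a a' b b' c' : Nm}
    (ha : Mp D T θ a a') (hb : Mp D T θ b b') (h : Fn D T gy a' b' c') :
    ∃ c, Fn D gx T a b c := by
  obtain ⟨m, d, ha, -⟩ := ha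
  obtain ⟨m', d', hb, -⟩ := hb
  obtain ⟨h, θ', p, H, hT⟩ := h
  cases H with
  | cr z e kd k η hr hη =>
    have hz : z < 4 := hr.1
    obtain ⟨e₀, k₀, b₀, d₀, n₀, hr₀, h₀, rfl, hk₀, -⟩ := ha.inv_rg' hθ hr
    obtain ⟨e₁, k₁, b₁, d₁, n₁, hr₁, h₁, rfl, hk₁, -⟩ :=
      hb.inv_rg' hθ (by simp only [Reg]; omega)
    obtain rfl : n₀ = n₁ := by omega
    obtain ⟨rfl, he₁⟩ := PG6_cr hθ hη h₀ h₁
    exact PG6_fn (FF.cr z e₀ k₀ n₀ e₁ hr₀ he₁)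
  | pl z e k hz he =>
    obtain ⟨e₀, k₀, b₀, d₀, n₀, hr₀, h₀, rfl, hk₀, -⟩ :=
      ha.inv_rg' hθ (by simp only [Reg]; omega)
    obtain ⟨e₁, k₁, b₁, d₁, n₁, hr₁, h₁, rfl, hk₁, -⟩ :=
      hb.inv_rg' hθ (by simp only [Reg]; omega)
    obtain rfl : n₀ = n₁ := by omega
    obtain ⟨rfl, rfl, rfl, he₀⟩ := PG6_pl hθ he h₀ h₁
    exact PG6_fn (FF.pl z e₁ n₀ hz he₀)
  | pz z e kd k hz he hk =>
    obtain ⟨e₀, k₀, b₀, d₀, n₀, hr₀, h₀, rfl, hk₀, -⟩ :=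
      ha.inv_rg' hθ (by simp only [Reg]; omega)
    obtain ⟨e₁, k₁, b₁, d₁, n₁, hr₁, h₁, rfl, hk₁, -⟩ :=
      hb.inv_rg' hθ (by simp only [Reg]; omega)
    obtain rfl : n₁ = n₀ + 1 := by omega
    obtain ⟨rfl, rfl, rfl, he₀⟩ := PG6_pz hθ he h₀ h₁
    exact PG6_fn (FF.pz z e₁ k₀ n₀ hz he₀ hk)
  | ps z e s p k hz hp =>
    obtain ⟨e₀, k₀, b₀, d₀, n₀, hr₀, h₀, rfl, hk₀, -⟩ :=
      ha.inv_rg' hθ (by simp only [Reg]; omega)
    obtain ⟨e₁, k₁, b₁, d₁, n₁, hr₁, h₁, rfl, hk₁, -⟩ :=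
      hb.inv_rg' hθ (by simp only [Reg]; omega)
    obtain rfl : n₀ = n₁ := by omega
    obtain ⟨rfl, rfl, rfl, he₀⟩ := PG6_ps hθ h₀ h₁
    rcases he₀ with ⟨rfl, rfl⟩ | rfl
    · refine ⟨_, _, _, 1, FF.ps z 0 2 1 n₀ hz (by omega), ?_⟩
      simp only [Ty] at hT ⊢
      omega
    · exact PG6_fn (FF.ps z 2 2 0 n₀ hz (by omega))
  | ar z e i j x hz he hx hj =>
    obtain ⟨e₁, k₁, b₁, d₁, n₁, hr₁, h₁, rfl, hk₁, -⟩ :=
      hb.inv_rg' hθ (by simp only [Reg]; omega)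
    rcases ha.inv_cl' hθ he with ⟨hc, -⟩ | ⟨v, w, i₀, j₀, rfl, hd, hi, hj', rfl, -⟩ |
      ⟨v, w, i₀, j₀, rfl, -⟩
    · have := PG6_gate hθ hc h₁
      omega
    · obtain ⟨rfl, hg⟩ := PG6_grid h₁
      simp only [GK, Dm] at hg hd
      obtain rfl : k₁ = 5 := by omega
      obtain rfl : n₁ = i₀ := by omega
      exact PG6_fn (FF.ar z e₁ n₁ j₀ x hz he hx (by omega))
    · obtain ⟨-, hg⟩ := PG6_grid h₁
      simp only [GK] at hg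
      omega
  | au z e i j x hz he hx hj =>
    obtain ⟨e₁, k₁, b₁, d₁, n₁, hr₁, h₁, rfl, hk₁, -⟩ :=
      hb.inv_rg' hθ (by simp only [Reg]; omega)
    rcases ha.inv_cl' hθ he with ⟨hc, -⟩ | ⟨v, w, i₀, j₀, rfl, hd, hi, hj', rfl, -⟩ |
      ⟨v, w, i₀, j₀, rfl, -⟩
    · have := PG6_gate hθ hc h₁
      omega
    · obtain ⟨rfl, hg⟩ := PG6_grid h₁
      simp only [GK, Dm] at hg hd
      obtain rfl : k₁ = 6 := by omega
      obtain rfl : n₁ = j₀ := by omega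
      exact PG6_fn (FF.au z e₁ i₀ n₁ x hz he hx (by omega))
    · obtain ⟨-, hg⟩ := PG6_grid h₁
      simp only [GK] at hg
      omega
  | ad z e i x hz he hx =>
    obtain ⟨e₁, k₁, b₁, d₁, n₁, hr₁, h₁, rfl, hk₁, -⟩ :=
      hb.inv_rg' hθ (by simp only [Reg]; omega)
    rcases ha.inv_cl' hθ he with ⟨hc, -⟩ | ⟨v, w, i₀, j₀, rfl, hd, hi, hj', rfl, -⟩ |
      ⟨v, w, i₀, j₀, rfl, -⟩
    · have := PG6_gate hθ hc h₁
      omega
    · obtain ⟨rfl, hg⟩ := PG6_grid h₁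
      simp only [GK, Dm] at hg hd
      obtain rfl : k₁ = 7 := by omega
      obtain rfl : n₁ = i₀ := by omega
      obtain rfl : n₁ = j₀ := by omega
      exact PG6_fn (FF.ad z e₁ n₁ x hz he hx)
    · obtain ⟨-, hg⟩ := PG6_grid h₁
      simp only [GK] at hg
      omega
  | ru z e i j x y v₀ w₀ hz he hx hy hv =>
    rcases ha.inv_cl' hθ he with ⟨hc, -, i₀, hi, hj, -⟩ |
      ⟨v, w, i₀, j₀, rfl, -, hi, hj, rfl, -⟩ | ⟨v, w, i₀, j₀, rfl, -, hi, hj, -, rfl, -⟩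
    · rcases hb.inv_cl' hθ he with ⟨-, -, i₁, hi', hj', -⟩ | ⟨v, w, i₁, j₁, rfl, -⟩ |
        ⟨v, w, i₁, j₁, rfl, -⟩
      · omega
      · exact (PG6_ncls hc).elim
      · exact (PG6_ncls hc).elim
    · rcases hb.inv_cl' hθ he with ⟨hc, -⟩ | ⟨v', w', i₁, j₁, hq, -, hi', hj', rfl, -⟩ |
        ⟨v', w', i₁, j₁, hq, -⟩
      · exact (PG6_ncls hc).elim
      · simp only [Prod.mk.injEq, true_and] at hq
        obtain rfl : j₀ = j₁ + 1 := by omega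
        obtain rfl : i₁ = i₀ + 1 := by omega
        exact PG6_ru hz he hx hy
      · simp only [Prod.mk.injEq] at hq
        omega
    · rcases hb.inv_cl' hθ he with ⟨hc, -⟩ | ⟨v', w', i₁, j₁, hq, -⟩ |
        ⟨v', w', i₁, j₁, hq, -, hi', hj', -, rfl, -⟩
      · exact (PG6_ncls hc).elim
      · simp only [Prod.mk.injEq] at hq
        omega
      · simp only [Prod.mk.injEq, true_and] at hq
        obtain rfl : j₀ = j₁ + 1 := by omega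
        obtain rfl : i₁ = i₀ + 1 := by omega
        exact PG6_ru hz he (X_lt _ _ _ _) (X_lt _ _ _ _)
  | r1 z e i x hz he hx =>
    obtain ⟨e₁, k₁, b₁, d₁, n₁, hr₁, h₁, rfl, hk₁, -⟩ :=
      hb.inv_rg' hθ (by simp only [Reg]; omega)
    rcases ha.inv_cl' hθ he with ⟨hc, -⟩ | ⟨v, w, i₀, j₀, rfl, -, hi, hj', rfl, -⟩ |
      ⟨v, w, i₀, j₀, rfl, -, hi, hj', -, rfl, -⟩
    · have := PG6_gate hθ hc h₁
      omega
    · obtain ⟨rfl, hg⟩ := PG6_grid h₁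
      simp only [GK] at hg
      obtain rfl : k₁ = 12 := by omega
      obtain rfl : n₁ = i₀ + 1 := by omega
      obtain rfl : j₀ = 0 := by omega
      exact PG6_fn (FF.r1 z e₁ i₀ x hz he hx)
    · obtain ⟨rfl, hg⟩ := PG6_grid h₁
      simp only [GK] at hg
      obtain rfl : k₁ = 12 := by omega
      obtain rfl : n₁ = i₀ + 1 := by omega
      obtain rfl : j₀ = 0 := by omega
      exact PG6_fn (FF.r1 z e₁ i₀ _ hz he (X_lt _ _ _ _))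
  | r2 z e j x hz he hx =>
    obtain ⟨e₁, k₁, b₁, d₁, n₁, hr₁, h₁, rfl, hk₁, -⟩ :=
      hb.inv_rg' hθ (by simp only [Reg]; omega)
    rcases ha.inv_cl' hθ he with ⟨hc, -⟩ | ⟨v, w, i₀, j₀, rfl, -, hi, hj', rfl, -⟩ |
      ⟨v, w, i₀, j₀, rfl, -, hi, hj', -, rfl, -⟩
    · have := PG6_gate hθ hc h₁
      omega
    · obtain ⟨rfl, hg⟩ := PG6_grid h₁
      simp only [GK] at hg
      obtain rfl : k₁ = 13 := by omega
      obtain rfl : n₁ = j₀ + 1 := by omega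
      obtain rfl : i₀ = 0 := by omega
      exact PG6_fn (FF.r2 z e₁ j₀ x hz he hx)
    · obtain ⟨rfl, hg⟩ := PG6_grid h₁
      simp only [GK] at hg
      obtain rfl : k₁ = 13 := by omega
      obtain rfl : n₁ = j₀ + 1 := by omega
      obtain rfl : i₀ = 0 := by omega
      exact PG6_fn (FF.r2 z e₁ j₀ _ hz he (X_lt _ _ _ _))
  | ga z e i x hz he hx hm =>
    obtain ⟨e₁, k₁, b₁, d₁, n₁, hr₁, h₁, rfl, hk₁, -⟩ :=
      ha.inv_rg' hθ (by simp only [Reg]; omega)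
    rcases hb.inv_cl' hθ he with ⟨hc, -, i₀, hi, -, rfl, rfl, -⟩ |
      ⟨v, w, i₀, j₀, rfl, -, hi, hj', rfl, -⟩ | ⟨v, w, i₀, j₀, rfl, -⟩
    · obtain ⟨rfl, rfl, -⟩ := PG6_gate hθ hc h₁
      obtain rfl : n₁ = i₀ := by omega
      rw [hs] at hm
      exact PG6_fn (FF.ga z 0 n₁ _ hz (by omega) (X_lt _ _ _ _) hm)
    · obtain ⟨rfl, hg⟩ := PG6_grid h₁
      simp only [GK] at hg
      obtain rfl : k₁ = 3 := by omega
      obtain rfl : n₁ = i₀ := by omega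
      obtain rfl : n₁ = j₀ := by omega
      exact PG6_fn (FF.ga z e₁ n₁ x hz he hx hm)
    · obtain ⟨-, hg⟩ := PG6_grid h₁
      simp only [GK] at hg
      omega
  | er z e i j hz he hj hji =>
    obtain ⟨e₁, k₁, b₁, d₁, n₁, hr₁, h₁, rfl, hk₁, -⟩ :=
      hb.inv_rg' hθ (by simp only [Reg]; omega)
    rcases MF.inv_cl' (x := X D e i j) hθ ha he with ⟨hc, -⟩ | ⟨v, w, i₀, j₀, rfl, -⟩ |
      ⟨v, w, i₀, j₀, rfl, hd, hi, hj', -, rfl, -⟩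
    · have := PG6_gate hθ hc h₁
      omega
    · obtain ⟨-, hg⟩ := PG6_grid h₁
      simp only [GK] at hg
      omega
    · obtain ⟨rfl, hg⟩ := PG6_grid h₁
      simp only [GK, Dm] at hg hd
      obtain rfl : k₁ = 8 + j₀ := by omega
      obtain rfl : n₁ = i₀ := by omega
      exact PG6_fn (FF.er z e₁ n₁ j₀ hz he (by omega) (by omega))
  | eu z e i j hz he hj hji =>
    obtain ⟨e₁, k₁, b₁, d₁, n₁, hr₁, h₁, rfl, hk₁, -⟩ :=
      hb.inv_rg' hθ (by simp only [Reg]; omega)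
    rcases MF.inv_cl' (x := X D e i j) hθ ha he with ⟨hc, -⟩ | ⟨v, w, i₀, j₀, rfl, -⟩ |
      ⟨v, w, i₀, j₀, rfl, hd, hi, hj', -, rfl, -⟩
    · have := PG6_gate hθ hc h₁
      omega
    · obtain ⟨-, hg⟩ := PG6_grid h₁
      simp only [GK] at hg
      omega
    · obtain ⟨rfl, hg⟩ := PG6_grid h₁
      simp only [GK, Dm] at hg hd
      obtain rfl : k₁ = 10 + i₀ := by omega
      obtain rfl : n₁ = j₀ := by omega
      exact PG6_fn (FF.eu z e₁ i₀ n₁ hz he (by omega) (by omega))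
  | qd z e i hz he =>
    obtain ⟨e₁, k₁, b₁, d₁, n₁, hr₁, h₁, rfl, hk₁, -⟩ :=
      hb.inv_rg' hθ (by simp only [Reg]; omega)
    rcases MF.inv_cl' (x := X D e i i) hθ ha he with ⟨hc, -, i₀, hi, -, -, rfl, -⟩ |
      ⟨v, w, i₀, j₀, rfl, -⟩ | ⟨v, w, i₀, j₀, rfl, hd, hi, hj', -, rfl, -⟩
    · obtain ⟨rfl, rfl, -⟩ := PG6_gate hθ hc h₁
      obtain rfl : n₁ = i₀ := by omega
      exact PG6_fn (FF.qd z 0 n₁ hz (by omega))
    · obtain ⟨-, hg⟩ := PG6_grid h₁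
      simp only [GK] at hg
      omega
    · obtain ⟨rfl, hg⟩ := PG6_grid h₁
      simp only [GK] at hg
      obtain rfl : k₁ = 4 := by omega
      obtain rfl : n₁ = i₀ := by omega
      obtain rfl : n₁ = j₀ := by omega
      exact PG6_fn (FF.qd z e₁ n₁ hz he)

end Pool.Agent.P.MP_48d4bc_co.EX.PI
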