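import Pool.Agent.P.MP_48d4bc_co.PG4
import Pool.Agent.P.MP_48d4bc_co.PG5
import Pool.Agent.P.MP_48d4bc_co.PG6

set_option autoImplicit false

/-! Typed models for a grid with infinitely many marks. -/

namespace Pool.Agent.P.MP_48d4bc_co.EX.PI

open Set Function Pool.Agent.Lib.PrimrecProp

variable {D : Dat}

theorem PG7_base {L : List Nm} {a b c : Nm} (h : (a, b, c) ∈ baseOf L) :
    (a = nx ∧ b = ny ∧ c = m1) ∨ (a = ny ∧ b = nx ∧ c = m2) ∨ (a = nx ∧ b = m1 ∧ c = m2) ∨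
      (a = ny ∧ b = m2 ∧ c = m3) ∨
      ∃ i < L.length, a = (m3 :: L).getD i nx ∧ b = ny ∧ c = L.getD i nx := by
  simp only [baseOf, List.mem_cons, List.mem_map, List.mem_range, Prod.mk.injEq] at h
  rcases h with h | h | h | h | ⟨i, hi, h1, h2, h3⟩
  · exact Or.inl h
  · exact Or.inr (Or.inl h)
  · exact Or.inr (Or.inr (Or.inl h))
  · exact Or.inr (Or.inr (Or.inr (Or.inl h)))
  · exact Or.inr (Or.inr (Or.inr (Or.inr ⟨i, hi, h1.symm, h2.symm, h3.symm⟩)))

theorem PG7_mem {L : List Nm} {i : ℕ} (hi : i < L.length) : (m3 :: L).getD i nx ∈ m3 :: L := by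
  rw [List.getD_eq_getElem _ _ (by simp only [List.length_cons]; omega)]
  exact List.getElem_mem _

theorem PG7_nodup : nx ∉ m3 :: restOf D ∧ ny ∉ m3 :: restOf D ∧ (m3 :: restOf D).Nodup := by
  have h := names_nodup (D := D)
  unfold namesOf at h
  obtain ⟨h1, h⟩ := List.nodup_cons.1 h
  obtain ⟨h2, h⟩ := List.nodup_cons.1 h
  refine ⟨fun h' => h1 ?_, fun h' => h2 ?_, (List.nodup_cons.1 (List.nodup_cons.1 h).2).2⟩
  · exact List.mem_cons_of_mem _ (List.mem_cons_of_mem _ (List.mem_cons_of_mem _ h'))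
  · exact List.mem_cons_of_mem _ (List.mem_cons_of_mem _ h')

theorem PG7_base_kind {a b c : Nm} (h : (a, b, c) ∈ baseOf (restOf D)) : b.1 = 0 := by
  rcases PG7_base h with h | h | h | h | ⟨i, -, h⟩ <;> rw [h.2.1] <;> rfl

theorem PG7_base_fn {a b c c' : Nm} (h : (a, b, c) ∈ baseOf (restOf D))
    (h' : (a, b, c') ∈ baseOf (restOf D)) : c = c' := by
  obtain ⟨n1, -, n3⟩ := PG7_nodup (D := D)
  rcases PG7_base h with ⟨h1, h2, h3⟩ | ⟨h1, h2, h3⟩ | ⟨h1, h2, h3⟩ | ⟨h1, h2, h3⟩ |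
      ⟨i, hi, h1, h2, h3⟩ <;>
    rcases PG7_base h' with ⟨k1, k2, k3⟩ | ⟨k1, k2, k3⟩ | ⟨k1, k2, k3⟩ | ⟨k1, k2, k3⟩ |
      ⟨j, hj, k1, k2, k3⟩ <;>
    first
    | exact h3.trans k3.symm
    | exact absurd (h2.symm.trans k2) (by decide)
    | skip
  · exact absurd (h1.symm.trans k1 ▸ PG7_mem hj) n1
  · exact absurd (k1.symm.trans h1 ▸ PG7_mem hi) n1
  · have e := h1.symm.trans k1
    rw [List.getD_eq_getElem _ _ (by simp only [List.length_cons]; omega),
      List.getD_eq_getElem _ _ (by simp only [List.length_cons]; omega)] at e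
    rw [h3, k3, (List.Nodup.getElem_inj_iff n3).1 e]

theorem PG7_base_irr {a c : Nm} (h : (a, a, c) ∈ baseOf (restOf D)) : False := by
  obtain ⟨-, n2, -⟩ := PG7_nodup (D := D)
  rcases PG7_base h with ⟨h1, h2, -⟩ | ⟨h1, h2, -⟩ | ⟨h1, h2, -⟩ | ⟨h1, h2, -⟩ |
    ⟨i, hi, h1, h2, -⟩
  · exact absurd (h1.symm.trans h2) (by decide)
  · exact absurd (h1.symm.trans h2) (by decide)
  · exact absurd (h1.symm.trans h2) (by decide)
  · exact absurd (h1.symm.trans h2) (by decide)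
  · exact n2 (h2.symm.trans h1 ▸ PG7_mem hi)

theorem PG7_bd {x y n B : ℕ} (hx : x ≤ n) (hy : y < B) : x * B + y < (n + 1) * B := by
  have := Nat.mul_le_mul_right B hx
  rw [Nat.add_mul]
  omega

theorem PG7_lex {x y x' y' B : ℕ} (hy : y < B) (hy' : y' < B) :
    x * B + y < x' * B + y' ↔ x < x' ∨ x = x' ∧ y < y' := by
  rcases lt_trichotomy x x' with h | rfl | h
  · have h1 := PG7_bd (le_refl x) hy
    have h2 := Nat.mul_le_mul_right B (Nat.succ_le_of_lt h)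
    exact iff_of_true (lt_of_lt_of_le (h1.trans_le h2) (Nat.le_add_right _ _)) (Or.inl h)
  · omega
  · have h1 := PG7_bd (le_refl x') hy'
    have h2 := Nat.mul_le_mul_right B (Nat.succ_le_of_lt h)
    refine iff_of_false (not_lt.2 ((h1.trans_le h2).le.trans (Nat.le_add_right _ _))) ?_
    omega

theorem PG7_getD_mem (l : List Nm) (i : ℕ) : l.getD i nx = nx ∨ l.getD i nx ∈ l := by
  by_cases h : i < l.length
  · right
    rw [List.getD_eq_getElem _ _ h]
    exact List.getElem_mem h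
  · left
    exact List.getD_eq_default _ _ (by omega)

theorem PG7_base_mem {rest : List Nm} {φ : Ft} (h : φ ∈ baseOf rest) :
    φ.1 ∈ namesOf rest ∧ φ.2.1 ∈ namesOf rest ∧ φ.2.2 ∈ namesOf rest := by
  unfold baseOf at h
  simp only [List.mem_cons, List.mem_map] at h
  rcases h with rfl | rfl | rfl | rfl | ⟨i, -, rfl⟩
  · simp [namesOf]
  · simp [namesOf]
  · simp [namesOf]
  · simp [namesOf]
  · refine ⟨?_, by simp [namesOf], ?_⟩
    · rcases PG7_getD_mem (m3 :: rest) i with h | h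
      · show (m3 :: rest).getD i nx ∈ namesOf rest
        rw [h]; simp [namesOf]
      · show (m3 :: rest).getD i nx ∈ namesOf rest
        unfold namesOf
        exact List.mem_cons_of_mem _ (List.mem_cons_of_mem _ (List.mem_cons_of_mem _
          (List.mem_cons_of_mem _ h)))
    · rcases PG7_getD_mem rest i with h | h
      · show rest.getD i nx ∈ namesOf rest
        rw [h]; simp [namesOf]
      · show rest.getD i nx ∈ namesOf rest
        unfold namesOf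
        exact List.mem_cons_of_mem _ (List.mem_cons_of_mem _ (List.mem_cons_of_mem _
          (List.mem_cons_of_mem _ (List.mem_cons_of_mem _ h))))

/-- the box -/
def PG7_Box (B : ℕ) (a : Nm) : Prop := a.1 ≤ B ∧ a.2.1 ≤ B ∧ a.2.2.1 ≤ B ∧ a.2.2.2 ≤ B

theorem PG7_rank (B : ℕ) : ∃ r : Nm → ℕ, ∀ a b, PG7_Box B a → PG7_Box B b →
    (r a < r b ↔ Lt a b) := by
  refine ⟨fun a => a.1 * ((B + 1) * ((B + 1) * (B + 1))) +
    (a.2.1 * ((B + 1) * (B + 1)) + (a.2.2.1 * (B + 1) + a.2.2.2)), fun a b ha hb => ?_⟩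
  have a3 := Nat.lt_succ_of_le ha.2.2.2
  have b3 := Nat.lt_succ_of_le hb.2.2.2
  have a2 := PG7_bd ha.2.2.1 a3
  have b2 := PG7_bd hb.2.2.1 b3
  exact (PG7_lex (PG7_bd ha.2.1 a2) (PG7_bd hb.2.1 b2)).trans (or_congr_right
    (and_congr_right' ((PG7_lex a2 b2).trans (or_congr_right
      (and_congr_right' (PG7_lex a3 b3))))))

theorem PG7_finite (B : ℕ) : Finite {a : Nm // PG7_Box B a} :=
  (Set.finite_Iic ((B, B, B, B) : Nm)).to_subtype

theorem PG7_name {a : Nm} (h : a ∈ (sig D).names) :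
    (a.1 = 0 ∧ a.2.1 = 0 ∧ a.2.2.1 = 0 ∧ a.2.2.2 ≤ 4) ∨ (Vd D a ∧ Sm a) := by
  have h' : a ∈ nx :: ny :: m1 :: m2 :: m3 :: restOf D := h
  simp only [List.mem_cons] at h'
  rcases h' with rfl | rfl | rfl | rfl | rfl | h'
  · exact Or.inl (by decide)
  · exact Or.inl (by decide)
  · exact Or.inl (by decide)
  · exact Or.inl (by decide)
  · exact Or.inl (by decide)
  · exact Or.inr (mem_rest.1 h')

theorem PG7_name_box {a : Nm} (h : a ∈ (sig D).names) (g : ℕ) : PG7_Box (g + 200 + sz D) a := by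
  rcases PG7_name h with h | ⟨h1, h2⟩
  · unfold PG7_Box
    omega
  · have h3 := h1.kind
    rcases h1 with ⟨a, e, kd, k, -, rfl⟩ | ⟨a, e, i, j, x, -, -, -, rfl⟩
    · simp only [PG7_Box, Sm, rg] at *
      omega
    · have h4 := sm_cl.1 h2
      simp only [PG7_Box, cl] at *
      omega

theorem PG7_mp {θ : Th} (hθ : Sh θ) {T g : ℕ} (hg : T ≤ g) {a a' : Nm} (h : Mp D T θ a a') :
    1 ≤ a.1 ∧ 1 ≤ a'.1 ∧ PG7_Box (g + 200 + sz D) a ∧ PG7_Box (g + 200 + sz D) a' := by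
  obtain ⟨m, d, h, hm⟩ := h
  have h1 := (h.vd hθ).1.kind
  have h2 := (h.vd hθ).2.kind
  have h3 := h.box hθ
  unfold PG7_Box
  omega

theorem PG7_times (hi : Inf D) : ∃ G : ℕ → ℕ, (∀ z, mk D (X D 0 (G z) (G z)) = true) ∧
    (∀ z, 2 ≤ G z) ∧ ∀ z y, z < y → G z + 3 ≤ G y := by
  choose f hf hm using hi
  refine ⟨fun z => Nat.rec (f 2) (fun _ g => f (g + 3)) z, fun z => ?_, fun z => ?_,
    fun z y h => ?_⟩
  · cases z <;> exact hm _
  · cases z
    · exact hf 2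
    · exact le_trans (Nat.le_add_left 2 _) (Nat.le_of_succ_le_succ (Nat.le_succ_of_le (hf _)))
  · induction h with
    | refl => exact hf _
    | step _ ih => exact ih.trans ((Nat.le_add_right _ 3).trans (hf _))

theorem gmodel {D : Dat} (hs : Shift D) (hi : Inf D) (N : ℕ) : Nonempty ((sig D).GModel N) := by
  classical
  obtain ⟨G, hG, hG2, hG3⟩ := PG7_times hi
  have hGN : ∀ z, z < N → G z ≤ G N := fun z hz => (Nat.le_add_right _ 3).trans (hG3 z N hz)
  obtain ⟨r, hr⟩ := PG7_rank (G N + 200 + sz D)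
  have hnx : nx ∈ (sig D).names := by simp [Sig.names, namesOf]
  have hny : ny ∈ (sig D).names := by simp [Sig.names, namesOf]
  have hbox : ∀ a ∈ (sig D).names, PG7_Box (G N + 200 + sz D) a :=
    fun a ha => PG7_name_box ha _
  let ν : Nm → {a : Nm // PG7_Box (G N + 200 + sz D) a} := fun a =>
    if h : PG7_Box (G N + 200 + sz D) a then ⟨a, h⟩ else ⟨nx, hbox nx hnx⟩
  have hν : ∀ a ∈ (sig D).names, (ν a).1 = a := by
    intro a ha
    simp only [ν, dif_pos (hbox a ha)]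
  have hS : ∀ {i : ℕ} (h : i < ths.length), Sh ths[i] :=
    fun h => mem_ths.1 (List.getElem_mem h)
  have hk : ∀ {x y : ℕ} {a b c : Nm}, Fn D x y a b c → b.1 ≠ 0 := by
    rintro x y a b c ⟨h, θ, p, H, -⟩
    have := H.vd.2.1.kind
    omega
  have hfn : ∀ {x y x' y' : ℕ} {a b c c' : Nm}, Fn D x y a b c → Fn D x' y' a b c' → c = c' := by
    rintro x y x' y' a b c c' ⟨h, θ, p, H, -⟩ ⟨h', θ', p', H', -⟩
    exact H.fn H'
  refine ⟨{
    A := {a : Nm // PG7_Box (G N + 200 + sz D) a}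
    R := fun x y a b c => (a.1, b.1, c.1) ∈ baseOf (restOf D) ∨ Fn D (G x) (G y) a.1 b.1 c.1
    ν := ν
    Θ := fun i z a a' => ∃ h : i < ths.length, Mp D (G z) ths[i] a.1 a'.1
    r := fun a => r a.1
    fin := PG7_finite _
    rinj := ?_, fn := ?_, irr := ?_, inj := ?_, fact := ?_, glue := ?_, bij := ?_, fwd := ?_,
    bwd := ?_, lo := ?_, mono := ?_, off := ?_, only := ?_ }⟩
  · intro a b hab
    rcases lt_total a.1 b.1 with h | h | h
    · exact absurd ((hr _ _ a.2 b.2).2 h) (by simp only at hab; omega)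
    · exact Subtype.ext h
    · exact absurd ((hr _ _ b.2 a.2).2 h) (by simp only at hab; omega)
  · rintro x y a b c c' (h | h) (h' | h')
    · exact Subtype.ext (PG7_base_fn h h')
    · exact absurd (PG7_base_kind h) (hk h')
    · exact absurd (PG7_base_kind h') (hk h)
    · exact Subtype.ext (hfn h h')
  · rintro x y a c (h | ⟨h, θ, p, H, -⟩)
    · exact PG7_base_irr h
    · exact H.ne.1 rfl
  · intro a ha b hb h
    rw [← hν a ha, ← hν b hb, h]
  · intro x y _ _ φ hφ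
    show ((ν φ.1).1, (ν φ.2.1).1, (ν φ.2.2).1) ∈ _ ∨ Fn D _ _ (ν φ.1).1 (ν φ.2.1).1 (ν φ.2.2).1
    rcases List.mem_append.1 hφ with hφ | hφ
    · obtain ⟨h1, h2, h3⟩ := PG7_base_mem hφ
      rw [hν _ h1, hν _ h2, hν _ h3]
      exact Or.inl hφ
    · obtain ⟨h1, h2, h3, -⟩ := sig_wf.ext φ hφ
      obtain ⟨s1, s2, s3, h, θ, p, H⟩ := mem_extra.1 hφ
      rw [hν _ h1, hν _ h2, hν _ h3]
      exact Or.inr ⟨h, θ, p, H, H.ty s1 s2 s3 (hG2 x) (hG2 y)⟩
  · intro i _ z _ p hp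
    obtain ⟨h1, h2, -⟩ := sig_wf.mem i p hp
    obtain ⟨h, s1, s2, m, d, H⟩ := mem_gl.1 hp
    refine ⟨h, ?_⟩
    rw [hν _ h1, hν _ h2]
    exact ⟨m, d, H, (H.small (hS h) s1 s2).trans (Nat.succ_le_succ (hG2 z))⟩
  · rintro i _ z _ a a' b b' ⟨h, m, d, ha, -⟩ ⟨_, m', d', hb, -⟩
    rw [Subtype.ext_iff, Subtype.ext_iff]
    exact ha.bij (hS h) hb
  · rintro i _ w z y _ hzy hy a a' b b' c ⟨h, ha⟩ ⟨_, hb⟩ (hR | hR)
    · have h1 := PG7_base_kind hR
      have h2 := (PG7_mp (hS h) le_rfl hb).1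
      omega
    · obtain ⟨c', h1, h2⟩ := Mp.fwd (gy := G y) hs (hS h) (hG z) (hG3 z y hzy) ha hb hR
      exact ⟨⟨c', (PG7_mp (hS h) (hGN z (hzy.trans hy)) h2).2.2.2⟩, Or.inr h1, h, h2⟩
  · rintro i _ w z y _ hzy hy a a' b b' c' ⟨h, ha⟩ ⟨_, hb⟩ (hR | hR)
    · have h1 := PG7_base_kind hR
      have h2 := (PG7_mp (hS h) le_rfl hb).2.1
      omega
    · obtain ⟨c, hc⟩ := Mp.bwd (gx := G w) hs (hS h) ha hb hR
      obtain ⟨c'', h1, h2⟩ := Mp.fwd (gy := G y) hs (hS h) (hG z) (hG3 z y hzy) ha hb hc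
      have e : c'' = c'.1 := hfn h1 hR
      subst e
      exact ⟨⟨c, (PG7_mp (hS h) (hGN z (hzy.trans hy)) h2).2.2.1⟩, Or.inr hc, h, h2⟩
  · refine ⟨?_, ?_⟩
    · refine (hr _ _ (ν nx).2 (ν ny).2).2 ?_
      rw [hν _ hnx, hν _ hny]
      simp [Lt, nx, ny]
    · intro a ha
      show r (ν ny).1 ≤ r a.1
      rcases lt_total (ν ny).1 a.1 with h | h | h
      · exact ((hr _ _ (ν ny).2 a.2).2 h).le
      · rw [h]
      · exfalso
        apply ha
        apply Subtype.ext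
        rw [hν _ hnx]
        rw [hν _ hny] at h
        obtain ⟨⟨a1, a2, a3, a4⟩, _⟩ := a
        simp only [Lt, ny] at h
        simp only [nx, Prod.mk.injEq]
        omega
  · rintro i _ z _ a a' b b' ⟨h, m, d, ha, -⟩ ⟨_, m', d', hb, -⟩ hl
    exact (hr _ _ a'.2 b'.2).2 (ha.mono (hS h) hb ((hr _ _ a.2 b.2).1 hl))
  · rintro i _ z _ a a' ⟨h, ha⟩
    obtain ⟨k1, k2, -⟩ := PG7_mp (hS h) le_rfl ha
    refine ⟨?_, ?_, ?_, ?_⟩
    · intro e
      rw [e, hν _ hnx] at k1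
      exact absurd k1 (by decide)
    · intro e
      rw [e, hν _ hny] at k1
      exact absurd k1 (by decide)
    · intro e
      rw [e, hν _ hnx] at k2
      exact absurd k2 (by decide)
    · intro e
      rw [e, hν _ hny] at k2
      exact absurd k2 (by decide)
  · rintro i _ z _ a ha b hb ⟨h, hm⟩
    rw [hν _ ha, hν _ hb] at hm
    obtain ⟨k1, k2, -⟩ := PG7_mp (hS h) le_rfl hm
    obtain ⟨m, d, H, -⟩ := hm
    exact mem_gl.2 ⟨h, ((PG7_name ha).resolve_left (by omega)).2,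
      ((PG7_name hb).resolve_left (by omega)).2, m, d, H⟩

end Pool.Agent.P.MP_48d4bc_co.EX.PI
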