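import Pool.Agent.P.MP_48d4bc_co.PG0

set_option autoImplicit false

/-! The graph of a grid is primitive recursive. -/

namespace Pool.Agent.P.MP_48d4bc_co.EX.PI

open Set Function Pool.Agent.Lib.PrimrecProp

section

variable {α : Type} [Primcodable α] {D : α → Dat}

@[fun_prop] theorem PG8_mod {f g : α → ℕ} (hf : Primrec f) (hg : Primrec g) :
    Primrec fun a => f a % g a := Primrec.nat_mod.comp hf hg

@[fun_prop] theorem PG8_sz (hD : Primrec D) : Primrec fun a => sz (D a) := by
  unfold sz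
  fun_prop

@[fun_prop] theorem PG8_dl {x y : α → ℕ} (hD : Primrec D) (hx : Primrec x) (hy : Primrec y) :
    Primrec fun a => dl (D a) (x a) (y a) := by
  unfold dl
  fun_prop

@[fun_prop] theorem PG8_b1 {x : α → ℕ} (hD : Primrec D) (hx : Primrec x) :
    Primrec fun a => b1 (D a) (x a) := by
  unfold b1
  fun_prop

@[fun_prop] theorem PG8_b2 {x : α → ℕ} (hD : Primrec D) (hx : Primrec x) :
    Primrec fun a => b2 (D a) (x a) := by
  unfold b2
  fun_prop

@[fun_prop] theorem PG8_mk {x : α → ℕ} (hD : Primrec D) (hx : Primrec x) :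
    Primrec fun a => mk (D a) (x a) := by
  unfold mk
  fun_prop

@[fun_prop] theorem PG8_seed {x : α → ℕ} (hD : Primrec D) (hx : Primrec x) :
    Primrec fun a => seed (D a) (x a) := by
  unfold seed
  fun_prop

@[fun_prop] theorem PG8_rg {z e k i : α → ℕ} (hz : Primrec z) (he : Primrec e) (hk : Primrec k)
    (hi : Primrec i) : Primrec fun a => rg (z a) (e a) (k a) (i a) := by
  unfold rg
  fun_prop

@[fun_prop] theorem PG8_cl {z e i j x : α → ℕ} (hz : Primrec z) (he : Primrec e) (hi : Primrec i)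
    (hj : Primrec j) (hx : Primrec x) : Primrec fun a => cl (z a) (e a) (i a) (j a) (x a) := by
  unfold cl
  fun_prop

@[fun_prop] theorem PG8_X2 {e i j : α → ℕ} (hD : Primrec D) (he : Primrec e) (hi : Primrec i)
    (hj : Primrec j) : Primrec fun a => X2 (D a) (e a) (i a) (j a) := by
  unfold X2 R2
  fun_prop

@[fun_prop] theorem PG8_t2 {z e i j : α → ℕ} (hD : Primrec D) (hz : Primrec z) (he : Primrec e)
    (hi : Primrec i) (hj : Primrec j) : Primrec fun a => t2 (D a) (z a) (e a) (i a) (j a) := by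
  unfold t2
  fun_prop

@[fun_prop] theorem PG8_restOf (hD : Primrec D) : Primrec fun a => restOf (D a) := by
  unfold restOf
  exact p_append (p_const _) (p_pairs (p_const _) (p_pairs (p_const _) (p_pairs (p_const _)
    (p_range (PG8_sz hD)))))

@[fun_prop] theorem PG8_ft {x y z : α → Nm} (hx : Primrec x) (hy : Primrec y) (hz : Primrec z) :
    Primrec fun a => ((x a, y a, z a) : Ft) := p_pair hx (p_pair hy hz)

theorem PG8_cnd {z e i j x y : α → ℕ} (hD : Primrec D) (hz : Primrec z)
    (he : Primrec e) (hi : Primrec i) (hj : Primrec j) (hx : Primrec x) (hy : Primrec y) :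
    Primrec fun a => cnd (D a) (z a) (e a) (i a) (j a) (x a) (y a) := by
  unfold cnd
  refine p_append (p_append (p_append (p_append
    (p_cond (p_leb hj hi) (p_cons (PG8_ft ?_ ?_ ?_) (p_const _)) (p_const _))
    (p_cond (p_leb hi hj) (p_cons (PG8_ft ?_ ?_ ?_) (p_const _)) (p_const _)))
    (p_cons (PG8_ft ?_ ?_ ?_) (p_cons (PG8_ft ?_ ?_ ?_) (p_cons (PG8_ft ?_ ?_ ?_)
      (p_cons (PG8_ft ?_ ?_ ?_) (p_cons (PG8_ft ?_ ?_ ?_) (p_const _)))))))
    (p_cond (PG8_mk hD hx) (p_const _) (p_cons (PG8_ft ?_ ?_ ?_) (p_const _))))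
    (p_cond (p_leb hj hi) (p_cons (PG8_ft ?_ ?_ ?_) (p_cons (PG8_ft ?_ ?_ ?_) (p_const _)))
      (p_const _)) <;> fun_prop

theorem PG8_extraOf (hD : Primrec D) : Primrec fun a => extraOf (D a) := by
  unfold extraOf
  refine p_append (p_const _) (p_flatMap (p_pairs (p_const _)
    (p_pairs (p_range (PG8_sz hD)) (p_range (PG8_sz hD)))) (p_filter ?_ ?_))
  · exact PG8_cnd (hD.comp Primrec.fst) (by fun_prop) (by fun_prop) (by fun_prop) (by fun_prop)
      (by fun_prop) (by fun_prop)
  · have h := PG8_restOf (hD.comp (Primrec.fst.comp (Primrec.fst (α := α ×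
      ((ℕ × ℕ) × ℕ × ℕ) × ℕ × ℕ) (β := Ft))))
    exact p_and (p_and (p_memb (by fun_prop) h) (p_memb (by fun_prop) h)) (p_memb (by fun_prop) h)

theorem PG8_glueOf {θ : α → Th} {c : α → List (Nm × Nm) × ℕ × List (ℕ × ℕ)} (hD : Primrec D)
    (hθ : Primrec θ) (hc : Primrec c) : Primrec fun a => glueOf (D a) (θ a) (c a) := by
  unfold glueOf
  refine p_append (p_append (p_fst hc) (p_cons (p_pair ?_ ?_) (p_cons (p_pair ?_ ?_) (p_const _))))
    (p_flatMap (p_snd (p_snd hc)) (p_cond ?_ (p_map ?_ (p_pair ?_ ?_))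
      (p_cons (p_pair ?_ ?_) (p_const _)))) <;> fun_prop

@[fun_prop] theorem PG8_baseOf {l : α → List Nm} (hl : Primrec l) :
    Primrec fun a => baseOf (l a) := by
  unfold baseOf
  fun_prop

@[fun_prop] theorem PG8_back {g : α → List (Nm × Nm)} {x : α → Nm} (hg : Primrec g)
    (hx : Primrec x) : Primrec fun a => back (g a) (x a) := by
  unfold back
  fun_prop

@[fun_prop] theorem PG8_nv {i : α → ℕ} {r : α → Bool × Nm} (hi : Primrec i) (hr : Primrec r) :
    Primrec fun a => nv (i a) (r a) := by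
  unfold nv
  fun_prop

theorem PG8_glue (hD : Primrec D) : Primrec fun a => (sig (D a)).glue :=
  p_map (g := fun a (z : Th × _) => glueOf (D a) z.1 z.2) (p_const (ths.map fun θ => (θ, con θ)))
    (PG8_glueOf (hD.comp Primrec.fst) (p_fst (p_snd p_id)) (p_snd (p_snd p_id)))

theorem PG8_facts (hD : Primrec D) : Primrec fun a => (sig (D a)).facts :=
  p_append (PG8_baseOf (PG8_restOf hD)) (PG8_extraOf hD)

theorem PG8_vtx {i : α → ℕ} {s : α → Bool} {x : α → Nm}
    (hD : Primrec D) (hi : Primrec i) (hs : Primrec s) (hx : Primrec x) :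
    Primrec fun a => (sig (D a)).vtx (i a) (s a) (x a) := by
  unfold Sig.vtx Sig.gl
  exact PG8_nv hi (p_cond hs (PG8_back (p_getD _ (PG8_glue hD) hi) hx) (p_pair (p_const _) hx))

theorem PG8_gad {i j : α → ℕ} {s : α → Bool} {x : α → Ft}
    (hD : Primrec D) (hi : Primrec i) (hs : Primrec s) (hx : Primrec x) (hj : Primrec j) :
    Primrec fun a => (sig (D a)).gad (i a) (s a) (x a) (j a) := by
  have h1 := PG8_vtx hD hi hs (x := fun a => (x a).1) (by fun_prop)
  have h2 := PG8_vtx hD hi hs (x := fun a => (x a).2.1) (by fun_prop)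
  have h3 := PG8_vtx hD hi hs (x := fun a => (x a).2.2) (by fun_prop)
  unfold Sig.gad
  exact p_cond (by fun_prop) h1 (p_cond (by fun_prop) h2 (p_cond (by fun_prop) h3 (by fun_prop)))

end

theorem PG8_edges : Primrec fun D : Dat => (sig D).edges := by
  unfold Sig.edges
  refine p_flatMap (p_pairs (p_range (p_length (PG8_glue p_id))) (p_const _)) ?_
  refine p_cons (p_pair ?_ ?_) (p_map (p_pairs (PG8_facts (p_fst p_id)) (p_const _)) (p_pair ?_ ?_))
  · exact PG8_vtx (p_fst p_id) (by fun_prop) (by fun_prop) (p_const _)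
  · exact PG8_vtx (p_fst p_id) (by fun_prop) (by fun_prop) (p_const _)
  · exact PG8_gad (p_fst (p_fst p_id)) (by fun_prop) (by fun_prop) (by fun_prop) (by fun_prop)
  · exact PG8_gad (p_fst (p_fst p_id)) (by fun_prop) (by fun_prop) (by fun_prop) (by fun_prop)

theorem PG8_cd : Primrec fun D : Dat => (sig D).code := by
  unfold Sig.code
  exact p_map PG8_edges (p_pair (Primrec.encode.comp (p_fst (p_snd p_id)))
    (Primrec.encode.comp (p_snd (p_snd p_id))))

theorem prim_code : Primrec fun D : Dat => ((sig D).size, (sig D).code) := by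
  refine p_pair ?_ PG8_cd
  unfold Sig.size
  exact p_foldr PG8_cd (p_const _) (by fun_prop)

end Pool.Agent.P.MP_48d4bc_co.EX.PI
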