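import Pool.Agent.P.MP_48d4bc_co.PM1
import Pool.Agent.P.MP_067fd8_lc.TM

set_option autoImplicit false

/-! A Turing machine with restarts for a universal quantifier over an r.e. predicate. -/

namespace Pool.Agent.P.MP_48d4bc_co.EX.PI

open StateTransition Function Turing

theorem PM2_two (R : ℕ × ℕ → Prop) (c : ToPartrec.Code)
    (hc : ∀ x v, v ∈ c.eval [x] ↔ R x.unpair ∧ v = [Nat.pair x.unpair.1 (x.unpair.2 + 1)])
    (e : ℕ) :
    Co (TM2.step PartrecToTM2.tr)
      (fun a => ⟨some (PartrecToTM2.trNormal c PartrecToTM2.Cont'.halt), none, a.stk⟩)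
      (PartrecToTM2.init c [Nat.pair e 0]) ↔ ∀ n, R (e, n) := by
  have key : ∀ n b, b ∈ eval (TM2.step PartrecToTM2.tr) (PartrecToTM2.init c [Nat.pair e n]) ↔
      R (e, n) ∧ b = PartrecToTM2.halt [Nat.pair e (n + 1)] := by
    intro n b
    rw [PartrecToTM2.tr_eval]
    refine (Part.mem_map_iff PartrecToTM2.halt).trans ?_
    constructor
    · rintro ⟨v, hv, rfl⟩
      obtain ⟨h1, h2⟩ := (hc _ _).1 hv
      rw [Nat.unpair_pair] at h1 h2
      exact ⟨h1, by rw [h2]⟩
    · rintro ⟨h1, rfl⟩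
      refine ⟨_, (hc _ _).2 ⟨?_, rfl⟩, ?_⟩
      · rw [Nat.unpair_pair]; exact h1
      · rw [Nat.unpair_pair]
  constructor
  · rintro ⟨I, h0, hI⟩
    have hn : ∀ n, PartrecToTM2.init c [Nat.pair e n] ∈ I := by
      intro n
      induction n with
      | zero => exact h0
      | succ n ih =>
        obtain ⟨b, hb, hb'⟩ := hI _ ih
        obtain ⟨_, rfl⟩ := (key n b).1 hb
        exact hb'
    intro n
    obtain ⟨b, hb, _⟩ := hI _ (hn n)
    exact ((key n b).1 hb).1
  · intro h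
    refine ⟨{x | ∃ n, x = PartrecToTM2.init c [Nat.pair e n]}, ⟨0, rfl⟩, ?_⟩
    rintro x ⟨n, rfl⟩
    exact ⟨_, (key n _).2 ⟨h n, rfl⟩, n + 1, rfl⟩

theorem PM2_code (R : ℕ × ℕ → Prop) (hR : REPred R) : ∃ c : ToPartrec.Code,
    ∀ x v, v ∈ c.eval [x] ↔ R x.unpair ∧ v = [Nat.pair x.unpair.1 (x.unpair.2 + 1)] := by
  have h1 : Partrec fun x : ℕ => Part.assert (R x.unpair) fun _ => Part.some () :=
    Partrec.comp (f := fun a : ℕ × ℕ => Part.assert (R a) fun _ => Part.some ()) hR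
      Computable.unpair
  have h2 : Primrec fun p : ℕ × Unit => Nat.pair p.1.unpair.1 (p.1.unpair.2 + 1) :=
    Primrec₂.natPair.comp (Primrec.fst.comp (Primrec.unpair.comp Primrec.fst))
      (Primrec.succ.comp (Primrec.snd.comp (Primrec.unpair.comp Primrec.fst)))
  have hU : Partrec fun x : ℕ => (Part.assert (R x.unpair) fun _ => Part.some ()).map
      fun _ => Nat.pair x.unpair.1 (x.unpair.2 + 1) :=
    Partrec.map h1 h2.to_comp.to₂
  obtain ⟨c, hc⟩ := ToPartrec.Code.exists_code (Nat.Partrec'.part_iff₁.2 hU)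
  refine ⟨c, fun x v => ?_⟩
  have e3 := hc ⟨[x], rfl⟩
  simp only at e3
  rw [e3]
  simp only [List.Vector.head, Part.map_eq_map, Part.mem_map_iff, Part.mem_assert_iff]
  constructor
  · rintro ⟨a, ⟨_, ⟨h, _⟩, rfl⟩, rfl⟩
    exact ⟨h, rfl⟩
  · rintro ⟨h, rfl⟩
    exact ⟨_, ⟨(), ⟨h, Part.mem_some _⟩, rfl⟩, rfl⟩

theorem PM2_ten {G Λ σ : Type} [Inhabited G] [Inhabited Λ] [Inhabited σ]
    (M : Λ → TM1.Stmt G Λ σ) (l : List G) :
    Co (TM0.step (TM1to0.tr M)) (fun a => ⟨default, a.Tape⟩) (TM0.init l) ↔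
      Co (TM1.step M) (fun a => ⟨some default, default, a.Tape⟩) (TM1.init l) := by
  refine co_tr (TM1to0.tr_respects M) ?_ rfl
  rintro ⟨l, v, T⟩ b rfl _
  rfl

theorem PM2_tone {K : Type} [DecidableEq K] {G : K → Type} {Λ σ : Type} [Inhabited Λ]
    [Inhabited σ] (M : Λ → TM2.Stmt G Λ σ) (k : K) (L : List (G k)) :
    Co (TM1.step (TM2to1.tr M)) (fun a => ⟨some default, default, a.Tape⟩)
        (TM1.init (TM2to1.trInit k L)) ↔
      Co (TM2.step M) (fun a => ⟨some default, default, a.stk⟩) (TM2.init k L) := by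
  refine co_tr (TM2to1.tr_respects M) ?_ (TM2to1.trCfg_init k L)
  rintro a b h _
  obtain ⟨L, hL⟩ := h
  exact TM2to1.TrCfg.mk (q := some default) (v := default) L hL

theorem tm0_pi (R : ℕ × ℕ → Prop) (hR : REPred R) :
    ∃ (G Λ : Type) (_ : Inhabited G) (_ : Inhabited Λ) (_ : Finite G) (M : TM0.Machine G Λ)
      (S : Finset Λ) (ρ : Λ → Λ) (c₀ : G) (I : ℕ → List G), TM0.Supports M S ∧
      (∀ q ∈ S, ρ q ∈ S) ∧
      (∀ (A : Type) [Primcodable A] (χ : G → A), Primrec fun n => (I n).map χ) ∧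
      ∀ e, Co (TM0.step M) (fun c => ⟨ρ c.q, c.Tape⟩) (TM0.init (c₀ :: I e)) ↔
        ∀ n, R (e, n) := by
  classical
  obtain ⟨c, hc⟩ := PM2_code R hR
  let _ : Inhabited PartrecToTM2.Λ' := ⟨PartrecToTM2.trNormal c PartrecToTM2.Cont'.halt⟩
  let _ : Fintype PartrecToTM2.K' := ⟨{.main, .rev, .aux, .stack}, by intro x; cases x <;> simp⟩
  have s2 := PartrecToTM2.tr_supports c PartrecToTM2.Cont'.halt
  have s1 := TM2to1.tr_supports PartrecToTM2.tr s2
  have s0 := TM1to0.tr_supports _ s1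
  let ψ : PartrecToTM2.Γ' → TM2to1.Γ' PartrecToTM2.K' fun _ => PartrecToTM2.Γ' :=
    fun a => (false, Function.update (fun _ => none) PartrecToTM2.K'.main (some a))
  refine ⟨_, _, inferInstance, inferInstance, inferInstance, _, _, fun _ => default,
    (true, (ψ PartrecToTM2.Γ'.cons).2),
    fun n => (PartrecToTM2.trNat (Nat.pair n 0)).reverse.map ψ, s0, fun _ _ => s0.1, ?_, ?_⟩
  · intro A _ χ
    have hp : Primrec fun n : ℕ => Nat.pair n 0 :=
      Primrec₂.natPair.comp Primrec.id (Primrec.const 0)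
    refine (Primrec.list_reverse.comp
      ((MP_067fd8_lc.primrec_trNat (χ ∘ ψ)).comp hp)).of_eq fun n => ?_
    exact (List.map_reverse.symm).trans (List.map_map.symm)
  · intro e
    have e1 : ((true, (ψ PartrecToTM2.Γ'.cons).2) ::
        (PartrecToTM2.trNat (Nat.pair e 0)).reverse.map ψ)
        = TM2to1.trInit PartrecToTM2.K'.main (PartrecToTM2.trList [Nat.pair e 0]) := by
      have e0 : (PartrecToTM2.trList [Nat.pair e 0]).reverse =
          PartrecToTM2.Γ'.cons :: (PartrecToTM2.trNat (Nat.pair e 0)).reverse := by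
        simp [PartrecToTM2.trList]
      unfold TM2to1.trInit
      rw [e0]
      rfl
    rw [e1]
    have e2 : TM2.init PartrecToTM2.K'.main (PartrecToTM2.trList [Nat.pair e 0])
        = PartrecToTM2.init c [Nat.pair e 0] := by
      unfold TM2.init PartrecToTM2.init
      congr 1
      funext k
      cases k <;> rfl
    refine (PM2_ten _ _).trans ((PM2_tone PartrecToTM2.tr _ _).trans ?_)
    rw [e2]
    exact PM2_two R c hc e

end Pool.Agent.P.MP_48d4bc_co.EX.PI
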