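import Pool.Agent.P.MP_48d4bc_co.EXTm

set_option autoImplicit false

/-! The system of a deterministic grid with marked symbols. -/

namespace Pool.Agent.P.MP_48d4bc_co.EX.PI

open Set Function Pool.Agent.Lib.PrimrecProp

/-- grid data: number of symbols minus one, rule table, boundary and mark table, two seeds -/
abbrev Dat := ℕ × List (List ℕ) × List (ℕ × ℕ × Bool) × ℕ × ℕ

/-- the number of symbols -/
def sz (D : Dat) : ℕ := D.1 + 1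

/-- the rule -/
def dl (D : Dat) (x y : ℕ) : ℕ := (D.2.1.getD x []).getD y 0 % sz D

/-- the rule on the first row -/
def b1 (D : Dat) (x : ℕ) : ℕ := (D.2.2.1.getD x (0, 0, false)).1 % sz D

/-- the rule on the first column -/
def b2 (D : Dat) (x : ℕ) : ℕ := (D.2.2.1.getD x (0, 0, false)).2.1 % sz D

/-- marked symbols -/
def mk (D : Dat) (x : ℕ) : Bool := (D.2.2.1.getD x (0, 0, false)).2.2

/-- the seeds -/
def seed (D : Dat) (e : ℕ) : ℕ := cond (eqb e 0) D.2.2.2.1 D.2.2.2.2 % sz D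

/-- the grid -/
def X (D : Dat) (e : ℕ) : ℕ → ℕ → ℕ
  | 0, 0 => seed D e
  | i + 1, 0 => b1 D (X D e i 0)
  | 0, j + 1 => b2 D (X D e 0 j)
  | i + 1, j + 1 => dl D (X D e i (j + 1)) (X D e (i + 1) j)

theorem X_realize : True := by have := @X.eq_def; trivial

theorem X_00 (D : Dat) (e : ℕ) : X D e 0 0 = seed D e := by rw [X]

theorem X_s0 (D : Dat) (e i : ℕ) : X D e (i + 1) 0 = b1 D (X D e i 0) := by rw [X]

theorem X_0s (D : Dat) (e j : ℕ) : X D e 0 (j + 1) = b2 D (X D e 0 j) := by rw [X]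

theorem X_ss (D : Dat) (e i j : ℕ) :
    X D e (i + 1) (j + 1) = dl D (X D e i (j + 1)) (X D e (i + 1) j) := by rw [X]

theorem dl_lt (D : Dat) (x y : ℕ) : dl D x y < sz D := Nat.mod_lt _ (Nat.succ_pos _)

theorem b1_lt (D : Dat) (x : ℕ) : b1 D x < sz D := Nat.mod_lt _ (Nat.succ_pos _)

theorem b2_lt (D : Dat) (x : ℕ) : b2 D x < sz D := Nat.mod_lt _ (Nat.succ_pos _)

theorem X_lt (D : Dat) (e i j : ℕ) : X D e i j < sz D := by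
  rcases i with _ | i <;> rcases j with _ | j
  · rw [X_00]; exact Nat.mod_lt _ (Nat.succ_pos _)
  · rw [X_0s]; exact b2_lt _ _
  · rw [X_s0]; exact b1_lt _ _
  · rw [X_ss]; exact dl_lt _ _ _

/-- the marks of the second grid are those of the first, one step later -/
def Shift (D : Dat) : Prop := ∀ j, mk D (X D 1 (j + 1) (j + 1)) = mk D (X D 0 j j)

/-- infinitely many marks on the diagonal -/
def Inf (D : Dat) : Prop := ∀ t, ∃ j, t ≤ j ∧ mk D (X D 0 j j) = true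

/-- an element of a register: zone, world, kind, index -/
def rg (a e kd k : ℕ) : Nm := (1 + 48 * a + 16 * e + kd, k, 0, 0)

/-- a cell with a symbol -/
def cl (a e i j x : ℕ) : Nm := (16 + 48 * a + 16 * e, i, j, x)

/-- a cell with its true symbol -/
def tc (D : Dat) (a e i j : ℕ) : Nm := cl a e i j (X D e i j)

/-- registers -/
def Reg (a e kd : ℕ) : Prop := a < 4 ∧ (e < 2 ∧ kd < 14 ∨ e = 2 ∧ kd < 2)

/-- data of a local isomorphism -/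
abbrev Th := ℕ × ℕ × ℕ × ℕ × ℕ × ℕ

/-- facts with height, producing map and flag -/
inductive FF (D : Dat) : Nm → Nm → Nm → ℕ → Th → ℕ → Prop
  | cr (a e kd k η : ℕ) : Reg a e kd → η < 2 → FF D (rg a e kd k) (rg ((a + 1) % 4) η 0 k)
      (rg a e kd (k + 1)) (4 * k + η) (0, a, kd, e, 0, 0) 0
  | pl (a e k : ℕ) : a < 4 → e < 2 →
      FF D (rg a e 2 k) (rg a e 0 k) (rg a e 2 (k + 1)) (4 * k + 3) (1, a, 2, 0, e, e) 0
  | pz (a e kd k : ℕ) : a < 4 → e < 2 → kd = 1 ∨ kd = 3 ∨ kd = 4 → FF D (rg a e kd k)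
      (rg a e 2 (k + 1)) (rg a e kd (k + 1)) (4 * k + 4) (1, a, kd, 2, e, e) 0
  | ps (a e s p k : ℕ) : a < 4 →
      e = 0 ∧ s = 2 ∧ p = 1 ∨ e = 1 ∧ s = 0 ∧ p = 2 ∨ e = 2 ∧ s = 2 ∧ p = 0 →
      FF D (rg a e 0 k) (rg a e 1 k) (rg a e 0 (k + 1)) (4 * k + 3) (1, a, 0, 1, s, e) p
  | ar (a e i j x : ℕ) : a < 4 → e < 2 → x < sz D → j ≤ i →
      FF D (cl a e i j x) (rg a e 5 i) (cl a e (i + 1) j x) (4 * i) (2, a, e, 0, 1, min j 1) 0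
  | au (a e i j x : ℕ) : a < 4 → e < 2 → x < sz D → i ≤ j →
      FF D (cl a e i j x) (rg a e 6 j) (cl a e i (j + 1) x) (4 * j) (2, a, e, 0, min i 1, 1) 0
  | ad (a e i x : ℕ) : a < 4 → e < 2 → x < sz D →
      FF D (cl a e i i x) (rg a e 7 i) (cl a e (i + 1) (i + 1) x) (4 * i) (2, a, e, 0, 1, 1) 0
  | ru (a e i j x y v w : ℕ) : a < 4 → e < 2 → x < sz D → y < sz D →
      j = 0 ∧ v = 1 ∧ w = 0 ∨ j ≠ 0 ∧ i = 0 ∧ v = 0 ∧ w = 1 ∨ j ≠ 0 ∧ i ≠ 0 ∧ v = 1 ∧ w = 1 →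
      FF D (cl a e i (j + 1) x) (cl a e (i + 1) j y) (cl a e (i + 1) (j + 1) (dl D x y))
        (4 * max i j + 4) (2, a, e, 0, v, w) 0
  | r1 (a e i x : ℕ) : a < 4 → e < 2 → x < sz D → FF D (cl a e i 0 x) (rg a e 12 (i + 1))
      (cl a e (i + 1) 0 (b1 D x)) (4 * i + 4) (2, a, e, 0, 1, 0) 0
  | r2 (a e j x : ℕ) : a < 4 → e < 2 → x < sz D → FF D (cl a e 0 j x) (rg a e 13 (j + 1))
      (cl a e 0 (j + 1) (b2 D x)) (4 * j + 4) (2, a, e, 0, 0, 1) 0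
  | ga (a e i x : ℕ) : a < 4 → e < 2 → x < sz D → mk D x = false →
      FF D (rg a e 3 i) (cl a e i i x) (rg a e 0 i) (4 * i) (2, a, e, 0, 1, 1) 0
  | er (a e i j : ℕ) : a < 4 → e < 2 → j ≤ 1 → j ≤ i → FF D (tc D a e i j) (rg a e (8 + j) i)
      (tc D a e (i + 1) j) (4 * i + 5) (2, a, e, 1, 1, 0) 0
  | eu (a e i j : ℕ) : a < 4 → e < 2 → i ≤ 1 → i ≤ j → FF D (tc D a e i j) (rg a e (10 + i) j)
      (tc D a e i (j + 1)) (4 * j + 5) (2, a, e, 1, 0, 1) 0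
  | qd (a e i : ℕ) : a < 4 → e < 2 → FF D (tc D a e i i) (rg a e 4 i)
      (tc D a e (i + 1) (i + 1)) (4 * i + 6) (2, a, e, 1, 1, 1) 0

/-- shapes of the local isomorphisms -/
def Sh (θ : Th) : Prop :=
  θ.1 = 0 ∧ Reg θ.2.1 θ.2.2.2.1 θ.2.2.1 ∧ θ.2.2.2.2.1 = 0 ∧ θ.2.2.2.2.2 = 0 ∨
  θ.1 = 1 ∧ θ.2.1 < 4 ∧ (θ.2.2.2.2.1 = θ.2.2.2.2.2 ∧ θ.2.2.2.2.1 < 2 ∧
      (θ.2.2.1 = 2 ∧ θ.2.2.2.1 = 0 ∨ (θ.2.2.1 = 1 ∨ θ.2.2.1 = 3 ∨ θ.2.2.1 = 4) ∧ θ.2.2.2.1 = 2) ∨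
    θ.2.2.1 = 0 ∧ θ.2.2.2.1 = 1 ∧ (θ.2.2.2.2.1 = 2 ∧ θ.2.2.2.2.2 = 0 ∨
      θ.2.2.2.2.1 = 0 ∧ θ.2.2.2.2.2 = 1 ∨ θ.2.2.2.2.1 = 2 ∧ θ.2.2.2.2.2 = 2)) ∨
  θ.1 = 2 ∧ θ.2.1 < 4 ∧ θ.2.2.1 < 2 ∧ θ.2.2.2.1 < 2 ∧ (θ.2.2.2.2.1 = 1 ∧ θ.2.2.2.2.2 = 0 ∨
    θ.2.2.2.2.1 = 0 ∧ θ.2.2.2.2.2 = 1 ∨ θ.2.2.2.2.1 = 1 ∧ θ.2.2.2.2.2 = 1)

/-- the zone of the gate -/
def Cls (θ : Th) (a : ℕ) : Prop :=
  θ.1 = 0 ∧ a = (θ.2.1 + 2) % 4 ∨ θ.1 ≠ 0 ∧ a = (θ.2.1 + 1) % 4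

/-- the registers moved by a grid map -/
def GK (g v w kd kd' : ℕ) : Prop :=
  g = 0 ∧ v = 1 ∧ w = 1 ∧ kd' = kd ∧ (kd = 0 ∨ kd = 3 ∨ kd = 5 ∨ kd = 6 ∨ kd = 7) ∨
  g = 1 ∧ v = 1 ∧ w = 1 ∧ (kd = 4 ∧ kd' = 4 ∨ kd = 8 ∧ kd' = 9 ∨ kd = 10 ∧ kd' = 11) ∨
  v = 1 ∧ w = 0 ∧ kd' = kd ∧ (kd = 12 ∨ g = 0 ∧ kd = 5 ∨ g = 1 ∧ (kd = 8 ∨ kd = 9)) ∨
  v = 0 ∧ w = 1 ∧ kd' = kd ∧ (kd = 13 ∨ g = 0 ∧ kd = 6 ∨ g = 1 ∧ (kd = 10 ∨ kd = 11))

/-- the action on registers, with the offsets of horizon and need -/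
def RM (θ : Th) (a e kd e' kd' b d : ℕ) : Prop :=
  Cls θ a ∧ e = 0 ∧ e' = 1 ∧ kd' = kd ∧
    (kd = 0 ∧ b = 2 ∧ d = 7 ∨ 1 ≤ kd ∧ kd ≤ 4 ∧ b = 1 ∧ d = 5) ∨
  θ.1 = 0 ∧ a = θ.2.1 ∧ kd = θ.2.2.1 ∧ e = θ.2.2.2.1 ∧ e' = e ∧ kd' = kd ∧ b = 0 ∧ d = 1 ∨
  θ.1 = 0 ∧ a = (θ.2.1 + 1) % 4 ∧ kd = 0 ∧ e < 2 ∧ e' = e ∧ kd' = 0 ∧ b = 1 ∧ d = 3 ∨
  θ.1 = 1 ∧ a = θ.2.1 ∧ e = θ.2.2.2.2.1 ∧ e' = θ.2.2.2.2.2 ∧ kd' = kd ∧ d = 3 ∧
    (kd = θ.2.2.1 ∧ b = 0 ∨ kd = θ.2.2.2.1 ∧ b = 1) ∨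
  θ.1 = 2 ∧ a = θ.2.1 ∧ e = θ.2.2.1 ∧ e' = e ∧ b = 1 ∧ d = 3 ∧
    GK θ.2.2.2.1 θ.2.2.2.2.1 θ.2.2.2.2.2 kd kd'

/-- the cells moved by a grid map -/
def Dm (v w i j : ℕ) : Prop :=
  v = 1 ∧ w = 1 ∨ v = 1 ∧ w = 0 ∧ (j = 0 ∨ j = 1 ∧ 1 ≤ i) ∨ v = 0 ∧ w = 1 ∧ (i = 0 ∨ i = 1 ∧ 1 ≤ j)

/-- the graph of a local isomorphism, with horizon index and need -/
inductive MF (D : Dat) : Th → Nm → Nm → ℕ → ℕ → Prop
  | re (θ : Th) (a e kd e' kd' b d k : ℕ) : Reg a e kd → RM θ a e kd e' kd' b d →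
      MF D θ (rg a e kd k) (rg a e' kd' (k + 1)) (k + b) (4 * k + d)
  | gc (θ : Th) (a i : ℕ) : Cls θ a →
      MF D θ (tc D a 0 i i) (tc D a 1 (i + 1) (i + 1)) i (4 * i + 7)
  | sc (a e v w i j x : ℕ) : a < 4 → e < 2 → x < sz D → Dm v w i j → MF D (2, a, e, 0, v, w)
      (cl a e i j x) (cl a e (i + v) (j + w) x) (max i j) (4 * max i j + 1)
  | ec (a e v w i j : ℕ) : a < 4 → e < 2 → Dm v w i j → MF D (2, a, e, 1, v, w)
      (tc D a e i j) (tc D a e (i + v) (j + w)) (max i j) (4 * max i j + 4 + v + w)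

/-- the condition on a flagged fact in a type -/
def Ty (p h gx gy : ℕ) : Prop := (p = 1 → h + 5 ≤ 4 * gy) ∧ (p = 2 → h + 1 ≤ 4 * gx)

/-- the operation of a type -/
def Fn (D : Dat) (gx gy : ℕ) (a b c : Nm) : Prop := ∃ h θ p, FF D a b c h θ p ∧ Ty p h gx gy

/-- a local isomorphism with horizon `T` -/
def Mp (D : Dat) (T : ℕ) (θ : Th) (a a' : Nm) : Prop := ∃ m d, MF D θ a a' m d ∧ m ≤ T + 1

/-- valid elements -/
def Vd (D : Dat) (u : Nm) : Prop := (∃ a e kd k, Reg a e kd ∧ u = rg a e kd k) ∨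
  ∃ a e i j x, a < 4 ∧ e < 2 ∧ x < sz D ∧ u = cl a e i j x

/-- small elements -/
def Sm (u : Nm) : Prop := u.1 % 16 = 0 ∧ u.2.1 ≤ 2 ∧ u.2.2.1 ≤ 2 ∨ u.1 % 16 ≠ 0 ∧ u.2.1 ≤ 1

/-- the lexicographic order -/
def Lt (a b : Nm) : Prop :=
  a.1 < b.1 ∨ a.1 = b.1 ∧ (a.2.1 < b.2.1 ∨ a.2.1 = b.2.1 ∧
    (a.2.2.1 < b.2.2.1 ∨ a.2.2.1 = b.2.2.1 ∧ a.2.2.2 < b.2.2.2))

/-- the inputs of the defining fact -/
def par (u : Nm) : Nm × Nm :=
  if u.1 % 16 ≠ 0 then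
    ((u.1, u.2.1 - 1, 0, 0), (1 + 48 * (((u.1 - 1) / 48 + 1) % 4), u.2.1 - 1, 0, 0))
  else if u.2.2.1 < u.2.1 then
    ((u.1, u.2.1 - 1, u.2.2.1, u.2.2.2), (u.1 - 10, u.2.1 - 1, 0, 0))
  else if u.2.1 < u.2.2.1 then
    ((u.1, u.2.1, u.2.2.1 - 1, u.2.2.2), (u.1 - 9, u.2.2.1 - 1, 0, 0))
  else ((u.1, u.2.1 - 1, u.2.1 - 1, u.2.2.2), (u.1 - 8, u.2.1 - 1, 0, 0))

/-- defining facts -/
def Df (a b c : Nm) : Prop := ¬ Sm c ∧ par c = (a, b)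

open Classical in
/-- the small elements of registers -/
noncomputable def regN : List Nm := ((pairs (List.range 200) (List.range 2)).map
  fun z => ((z.1, z.2, 0, 0) : Nm)).filter fun u => decide (∃ a e kd k, Reg a e kd ∧ u = rg a e kd k)

/-- further names -/
noncomputable def restOf (D : Dat) : List Nm := regN ++ pairs [16, 32, 64, 80, 112, 128, 160, 176]
  (pairs (List.range 3) (pairs (List.range 3) (List.range (sz D))))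

/-- the first row of the grid, up to index two -/
def R2 (f : ℕ → ℕ) (s i : ℕ) : ℕ := cond (eqb i 0) s (cond (eqb i 1) (f s) (f (f s)))

/-- the grid on the small cells -/
def X2 (D : Dat) (e i j : ℕ) : ℕ :=
  cond (eqb j 0) (R2 (b1 D) (seed D e) i) (cond (eqb i 0) (R2 (b2 D) (seed D e) j)
    (cond (eqb j 1)
      (cond (eqb i 1) (dl D (b2 D (seed D e)) (b1 D (seed D e)))
        (dl D (dl D (b2 D (seed D e)) (b1 D (seed D e))) (b1 D (b1 D (seed D e)))))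
      (cond (eqb i 1) (dl D (b2 D (b2 D (seed D e))) (dl D (b2 D (seed D e)) (b1 D (seed D e))))
        (dl D (dl D (b2 D (b2 D (seed D e))) (dl D (b2 D (seed D e)) (b1 D (seed D e))))
          (dl D (dl D (b2 D (seed D e)) (b1 D (seed D e))) (b1 D (b1 D (seed D e))))))))

/-- a small cell with its true symbol -/
def t2 (D : Dat) (a e i j : ℕ) : Nm := cl a e i j (X2 D e i j)

open Classical in
/-- the facts between small elements of registers -/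
noncomputable def regF : List Ft := (pairs regN (pairs regN regN)).filter fun φ =>
  decide (∃ h θ p, FF (0, [], [], 0, 0) φ.1 φ.2.1 φ.2.2 h θ p)

/-- candidate facts with a cell -/
def cnd (D : Dat) (a e i j x y : ℕ) : List Ft :=
  cond (leb j i) [(cl a e i j x, rg a e 5 i, cl a e (i + 1) j x)] [] ++
  cond (leb i j) [(cl a e i j x, rg a e 6 j, cl a e i (j + 1) x)] [] ++
  [(cl a e i i x, rg a e 7 i, cl a e (i + 1) (i + 1) x),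
    (cl a e i (j + 1) x, cl a e (i + 1) j y, cl a e (i + 1) (j + 1) (dl D x y)),
    (cl a e i 0 x, rg a e 12 (i + 1), cl a e (i + 1) 0 (b1 D x)),
    (cl a e 0 i x, rg a e 13 (i + 1), cl a e 0 (i + 1) (b2 D x)),
    (t2 D a e i i, rg a e 4 i, t2 D a e (i + 1) (i + 1))] ++
  cond (mk D x) [] [(rg a e 3 i, cl a e i i x, rg a e 0 i)] ++
  cond (leb j i) [(t2 D a e i j, rg a e (8 + j) i, t2 D a e (i + 1) j),
    (t2 D a e j i, rg a e (10 + j) i, t2 D a e j (i + 1))] []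

/-- further facts -/
noncomputable def extraOf (D : Dat) : List Ft := regF ++
  (pairs (pairs (pairs (List.range 4) (List.range 2)) (pairs (List.range 2) (List.range 2)))
    (pairs (List.range (sz D)) (List.range (sz D)))).flatMap fun z =>
      (cnd D z.1.1.1 z.1.1.2 z.1.2.1 z.1.2.2 z.2.1 z.2.2).filter fun φ =>
        memb φ.1 (restOf D) && memb φ.2.1 (restOf D) && memb φ.2.2 (restOf D)

open Classical in
/-- all local isomorphisms -/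
noncomputable def ths : List Th := (pairs (List.range 3) (pairs (List.range 4)
  (pairs (List.range 14) (pairs (List.range 3) (pairs (List.range 3) (List.range 3)))))).filter
    fun θ => decide (Sh θ)

open Classical in
/-- the constant part of a glue list: pairs of register elements, the zone of the gate, the small
cells that are moved -/
noncomputable def con (θ : Th) : List (Nm × Nm) × ℕ × List (ℕ × ℕ) :=
  ((pairs regN regN).filter fun p => decide (∃ m d, MF (0, [], [], 0, 0) θ p.1 p.2 m d),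
    (θ.2.1 + if θ.1 = 0 then 2 else 1) % 4,
    (pairs (List.range 3) (List.range 3)).filter fun z =>
      decide (θ.1 = 2 ∧ Dm θ.2.2.2.2.1 θ.2.2.2.2.2 z.1 z.2 ∧ z.1 + θ.2.2.2.2.1 ≤ 2 ∧
        z.2 + θ.2.2.2.2.2 ≤ 2))

/-- a glue list from its constant part -/
def glueOf (D : Dat) (θ : Th) (c : List (Nm × Nm) × ℕ × List (ℕ × ℕ)) : List (Nm × Nm) :=
  c.1 ++ [(t2 D c.2.1 0 0 0, t2 D c.2.1 1 1 1), (t2 D c.2.1 0 1 1, t2 D c.2.1 1 2 2)] ++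
  c.2.2.flatMap fun z => cond (eqb θ.2.2.2.1 0)
    ((List.range (sz D)).map fun x => (cl θ.2.1 θ.2.2.1 z.1 z.2 x,
      cl θ.2.1 θ.2.2.1 (z.1 + θ.2.2.2.2.1) (z.2 + θ.2.2.2.2.2) x))
    [(t2 D θ.2.1 θ.2.2.1 z.1 z.2,
      t2 D θ.2.1 θ.2.2.1 (z.1 + θ.2.2.2.2.1) (z.2 + θ.2.2.2.2.2))]

/-- the system of a grid -/
noncomputable def sig (D : Dat) : Sig :=
  ⟨restOf D, extraOf D, (ths.map fun θ => (θ, con θ)).map fun z => glueOf D z.1 z.2⟩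

section

universe u

variable {W : Type u}

/-- a fact holds under a valuation -/
def Hd (f : W → W → Option W) (V : Nm → Option W) (a b c : Nm) : Prop :=
  ∃ x y z, V a = some x ∧ V b = some y ∧ V c = some z ∧ f x y = some z

/-- two elements have the same defined value -/
def Lk (V V' : Nm → Option W) (a a' : Nm) : Prop := ∃ x, V a = some x ∧ V' a' = some x

/-- all required facts of height below `h` hold; flagged facts are required below `H` -/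
def Gd (D : Dat) (H : ℕ) (f : W → W → Option W) (V : Nm → Option W) (h : ℕ) : Prop :=
  ∀ a b c h' θ p, FF D a b c h' θ p → (p ≠ 0 → h' < H) → h' < h → Hd f V a b c

end

end Pool.Agent.P.MP_48d4bc_co.EX.PI
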