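import Pool.Agent.P.MP_48d4bc_co.PM3
import Pool.Agent.P.MP_48d4bc_co.PG0

set_option autoImplicit false

/-! Grid data for a machine with two stacks. -/

namespace Pool.Agent.P.MP_48d4bc_co.EX.PI

open Function Pool.Agent.Lib.PrimrecProp

theorem PM4_X {S : Type} (d : S → S → S) (u v : S → S) (s : S) (D : Dat) (e : ℕ) (code : S → ℕ)
    (P : S → Prop) (hP : ∀ i j, P (Gr d u v s i j)) (h0 : seed D e = code s)
    (hd : ∀ x y, P x → P y → dl D (code x) (code y) = code (d x y))
    (hu : ∀ x, P x → b1 D (code x) = code (u x)) (hv : ∀ x, P x → b2 D (code x) = code (v x))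
    (i j : ℕ) : X D e i j = code (Gr d u v s i j) := by
  induction j generalizing i with
  | zero =>
    induction i with
    | zero => rw [X_00, Gr, h0]
    | succ i ih => rw [X_s0, Gr, ih, hu _ (hP _ _)]
  | succ j ihj =>
    induction i with
    | zero => rw [X_0s, Gr, ihj, hv _ (hP _ _)]
    | succ i ih => rw [X_ss, Gr, ih, ihj, hd _ _ (hP _ _) (hP _ _)]

section

variable {α : Type} [Primcodable α] {f g : α → ℕ}

@[fun_prop] theorem PM4_mod (hf : Primrec f) (hg : Primrec g) : Primrec fun a => f a % g a :=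
  Primrec.nat_mod.comp hf hg

@[fun_prop] theorem PM4_div (hf : Primrec f) (hg : Primrec g) : Primrec fun a => f a / g a :=
  Primrec.nat_div.comp hf hg

@[fun_prop] theorem PM4_min (hf : Primrec f) (hg : Primrec g) : Primrec fun a => min (f a) (g a) :=
  Primrec.nat_min.comp hf hg

end

theorem PM4_getD {β : Type} (f : ℕ → β) {n x : ℕ} (h : x < n) (d : β) :
    ((List.range n).map f).getD x d = f x := by
  simp [List.getD_eq_getElem?_getD, h]

/-- the tables -/
def PM4_dat {C G : Type} (ls : List C) (c₀ : C) (b : G) (F1 : C × C → ℕ) (F2 : C × G × G × G → ℕ)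
    (n₀ : ℕ) (F3 : C → Bool) (F4 F5 : G → ℕ) (R : List G) : Dat :=
  ((R.length + 3) * ls.length - 1,
    (List.range ((R.length + 3) * ls.length)).map fun x =>
      (List.range ((R.length + 3) * ls.length)).map fun y =>
        F1 (ls.getD (x % ls.length) c₀, ls.getD (y % ls.length) c₀),
    (List.range ((R.length + 3) * ls.length)).map fun x =>
      (min (x / ls.length + 1) (R.length + 2) * ls.length + F2 (ls.getD (x % ls.length) c₀,
        R.getD (x / ls.length + 1) b, R.getD (x / ls.length + 1 - 1) b,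
        R.getD (x / ls.length + 1 - 2) b), n₀, F3 (ls.getD (x % ls.length) c₀)),
    F4 (R.getD 0 b), F5 (R.getD 0 b))

theorem PM4_prim {C G : Type} [Finite C] [Finite G] [Primcodable C] [Primcodable G] (ls : List C)
    (c₀ : C) (b : G) (F1 : C × C → ℕ) (F2 : C × G × G × G → ℕ) (n₀ : ℕ) (F3 : C → Bool)
    (F4 F5 : G → ℕ) : Primrec (PM4_dat ls c₀ b F1 F2 n₀ F3 F4 F5) := by
  have h1 := Primrec.dom_finite F1
  have h2 := Primrec.dom_finite F2
  have h3 := Primrec.dom_finite F3
  have h4 := Primrec.dom_finite F4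
  have h5 := Primrec.dom_finite F5
  unfold PM4_dat
  fun_prop

theorem exists_dat {Q G : Type} [Finite Q] [Finite G] [Inhabited G] (M : SM Q G) (q0 q1 : Q)
    (h1 : ∀ l r, M.step (q1, l, r) = (q0, l, r)) (I : ℕ → List G)
    (hI : ∀ (A : Type) [Primcodable A] (χ : G → A), Primrec fun n => (I n).map χ) :
    ∃ D : ℕ → Dat, Primrec D ∧ ∀ e, Shift (D e) ∧ ∀ j, mk (D e) (X (D e) 0 j j) =
      M.mark (M.step^[j] (q0, fun _ => default, fun p => (I e).getD p default)).1 := by
  classical
  let : Primcodable Q := Primcodable.ofEquiv _ (Finite.equivFin Q)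
  let : Primcodable G := Primcodable.ofEquiv _ (Finite.equivFin G)
  have hI' : Primrec I := (hI G id).of_eq fun n => List.map_id _
  obtain ⟨ls, hls⟩ : ∃ ls : List (Ce Q G), ∀ c, c ∈ ls :=
    letI := Fintype.ofFinite (Ce Q G)
    ⟨Finset.univ.toList, fun c => Finset.mem_toList.2 (Finset.mem_univ c)⟩
  obtain ⟨enc, he1, he2⟩ : ∃ enc : Ce Q G → ℕ, (∀ c, enc c < ls.length) ∧
      ∀ c, ls.getD (enc c) none = c := by
    choose n hn using fun c => List.mem_iff_get.1 (hls c)
    exact ⟨fun c => n c, fun c => (n c).2, fun c => by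
      rw [List.getD_eq_getElem _ _ (n c).2]; exact hn c⟩
  have hm : 0 < ls.length := (Nat.zero_le _).trans_lt (he1 none)
  let b : G := default
  let F4 : Q → G → ℕ := fun q g => enc (some (true, q, (b, b, b), g, g, g))
  let F3 : Ce Q G → Bool := fun c => (c.map fun z => M.mark z.2.1).getD false
  let T := PM4_dat ls none b (fun z => enc (cd M z.1 z.2)) (fun z => enc (cu z.1 z.2)) (enc none)
    F3 (F4 q0) (F4 q1)
  refine ⟨fun e => T (I e), (PM4_prim ..).comp hI', fun e => ?_⟩
  beta_reduce
  generalize I e = R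
  let code : ℕ × Ce Q G → ℕ := fun x => x.1 * ls.length + enc x.2
  have hs : sz (T R) = (R.length + 3) * ls.length :=
    Nat.sub_add_cancel (Nat.mul_pos (Nat.succ_pos _) hm)
  have c1 : ∀ x : ℕ × Ce Q G, x.1 ≤ R.length + 2 → code x < (R.length + 3) * ls.length :=
    fun x hx => by
      have := he1 x.2
      have := Nat.mul_le_mul_right ls.length hx
      simp only [code]
      nlinarith
  have c2 : ∀ x : ℕ × Ce Q G, code x / ls.length = x.1 := fun x => by
    simp only [code]
    rw [Nat.add_comm, Nat.add_mul_div_right _ _ hm, Nat.div_eq_of_lt (he1 _), Nat.zero_add]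
  have c3 : ∀ x : ℕ × Ce Q G, ls.getD (code x % ls.length) none = x.2 := fun x => by
    simp only [code]
    rw [Nat.add_comm, Nat.add_mul_mod_self_right, Nat.mod_eq_of_lt (he1 _), he2]
  have c4 : ∀ c, enc c % ((R.length + 3) * ls.length) = code (0, c) := fun c => by
    have e : code (0, c) = enc c := by simp only [code, Nat.zero_mul, Nat.zero_add]
    rw [← e]
    exact Nat.mod_eq_of_lt (c1 _ (Nat.zero_le _))
  have hX : ∀ (η : ℕ) (q : Q), seed (T R) η = F4 q (R.getD 0 b) % sz (T R) → ∀ i j, X (T R) η i j =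
      code (grid M b (fun p => R.getD p b) R.length q i j) := fun η q hq =>
    PM4_X _ _ _ _ _ _ code (fun x => x.1 ≤ R.length + 2) (grid_le M b _ _ q)
      (by rw [hq, hs]; exact c4 _)
      (fun x y hx hy => by
        unfold dl
        rw [hs]
        simp only [T, PM4_dat]
        rw [PM4_getD _ (c1 x hx), PM4_getD _ (c1 y hy), c3, c3, c4])
      (fun x hx => by
        unfold b1
        rw [hs]
        simp only [T, PM4_dat]
        rw [PM4_getD _ (c1 x hx), c2, c3]
        exact Nat.mod_eq_of_lt (c1 (_, _) (min_le_right _ _)))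
      (fun x hx => by
        unfold b2
        rw [hs]
        simp only [T, PM4_dat]
        rw [PM4_getD _ (c1 x hx), c4])
  have hk : ∀ (η : ℕ) (q : Q), seed (T R) η = F4 q (R.getD 0 b) % sz (T R) → ∀ j,
      mk (T R) (X (T R) η j j) =
        M.mark (M.step^[j] (q, fun _ => b, fun p => R.getD p b)).1 := fun η q hq j => by
    obtain ⟨w, hw⟩ := grid_diag M b (fun p => R.getD p b) R.length
      (fun p hp => List.getD_eq_default _ _ hp) q j
    unfold mk
    rw [hX η q hq]
    simp only [T, PM4_dat]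
    rw [PM4_getD _ (c1 _ (grid_le M b _ _ q j j)), c3, hw]
    rfl
  refine ⟨fun j => ?_, hk 0 q0 rfl⟩
  rw [hk 0 q0 rfl, hk 1 q1 rfl, iterate_succ_apply, h1]

end Pool.Agent.P.MP_48d4bc_co.EX.PI
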