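import Pool.Agent.P.MP_48d4bc_co.PG1

set_option autoImplicit false

/-! Names and further facts of the system of a grid. -/

namespace Pool.Agent.P.MP_48d4bc_co.EX.PI

open Set Function Pool.Agent.Lib.PrimrecProp

variable {D : Dat}

theorem X2_eq {e i j : ℕ} (hi : i ≤ 2) (hj : j ≤ 2) : X2 D e i j = X D e i j := by
  have h00 := X_00 D e
  have h10 : X D e 1 0 = b1 D (X D e 0 0) := X_s0 D e 0
  have h20 : X D e 2 0 = b1 D (X D e 1 0) := X_s0 D e 1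
  have h01 : X D e 0 1 = b2 D (X D e 0 0) := X_0s D e 0
  have h02 : X D e 0 2 = b2 D (X D e 0 1) := X_0s D e 1
  have h11 : X D e 1 1 = dl D (X D e 0 1) (X D e 1 0) := X_ss D e 0 0
  have h21 : X D e 2 1 = dl D (X D e 1 1) (X D e 2 0) := X_ss D e 1 0
  have h12 : X D e 1 2 = dl D (X D e 0 2) (X D e 1 1) := X_ss D e 0 1
  have h22 : X D e 2 2 = dl D (X D e 1 2) (X D e 2 1) := X_ss D e 1 1
  interval_cases i <;> interval_cases j <;>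
    simp only [h22, h12, h21, h11, h02, h01, h20, h10, h00] <;> rfl

theorem mem_regN {u : Nm} : u ∈ regN ↔ ∃ a e kd k, Reg a e kd ∧ k ≤ 1 ∧ u = rg a e kd k := by
  simp only [regN, List.mem_filter, List.mem_map, mem_pairs, List.mem_range, decide_eq_true_eq]
  constructor
  · rintro ⟨⟨z, ⟨-, h2⟩, rfl⟩, a, e, kd, k, hr, he⟩
    refine ⟨a, e, kd, k, hr, ?_, he⟩
    simp only [rg, Prod.mk.injEq] at he
    omega
  · rintro ⟨a, e, kd, k, hr, hk, rfl⟩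
    refine ⟨⟨(1 + 48 * a + 16 * e + kd, k), ⟨?_, Nat.lt_succ_of_le hk⟩, rfl⟩, a, e, kd, k, hr, rfl⟩
    unfold Reg at hr
    omega

theorem PG3_lt {a e kd : ℕ} (h : Reg a e kd) : kd < 15 := by
  unfold Reg at h
  omega

theorem PG3_cells {u : Nm} : u ∈ pairs [16, 32, 64, 80, 112, 128, 160, 176]
    (pairs (List.range 3) (pairs (List.range 3) (List.range (sz D)))) ↔
      ∃ a e i j x, a < 4 ∧ e < 2 ∧ x < sz D ∧ i ≤ 2 ∧ j ≤ 2 ∧ u = cl a e i j x := by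
  obtain ⟨c, i, j, x⟩ := u
  simp only [mem_pairs, List.mem_range, List.mem_cons, List.not_mem_nil, or_false, cl,
    Prod.mk.injEq]
  constructor
  · rintro ⟨h1, h2, h3, h4⟩
    exact ⟨(c - 16) / 48, (c - 16) % 48 / 16, i, j, x, by omega, by omega, h4, by omega, by omega,
      by omega, rfl, rfl, rfl⟩
  · rintro ⟨a, e, i', j', x', h1, h2, h3, h4, h5, h6, rfl, rfl, rfl⟩
    exact ⟨by omega, by omega, by omega, h3⟩

theorem mem_rest {u : Nm} : u ∈ restOf D ↔ Vd D u ∧ Sm u := by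
  rw [restOf, List.mem_append, mem_regN, PG3_cells]
  constructor
  · rintro (⟨a, e, kd, k, hr, hk, rfl⟩ | ⟨a, e, i, j, x, h1, h2, h3, h4, h5, rfl⟩)
    · exact ⟨Or.inl ⟨a, e, kd, k, hr, rfl⟩, (sm_rg (PG3_lt hr)).2 hk⟩
    · exact ⟨Or.inr ⟨a, e, i, j, x, h1, h2, h3, rfl⟩, sm_cl.2 ⟨h4, h5⟩⟩
  · rintro ⟨⟨a, e, kd, k, hr, rfl⟩ | ⟨a, e, i, j, x, h1, h2, h3, rfl⟩, hs⟩
    · exact Or.inl ⟨a, e, kd, k, hr, (sm_rg (PG3_lt hr)).1 hs, rfl⟩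
    · exact Or.inr ⟨a, e, i, j, x, h1, h2, h3, (sm_cl.1 hs).1, (sm_cl.1 hs).2, rfl⟩

theorem PG3_pairs_nodup {β γ : Type} {l : List β} {m : List γ} (hl : l.Nodup) (hm : m.Nodup) :
    (pairs l m).Nodup := hl.product hm

theorem PG3_cl_not {a e i j x : ℕ} : cl a e i j x ∉ regN := by
  intro h
  obtain ⟨a', e', kd, k, hr, -, h'⟩ := mem_regN.1 h
  exact rg_ne_cl (PG3_lt hr) h'.symm

theorem names_nodup : (namesOf (restOf D)).Nodup := by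
  have h1 : (restOf D).Nodup := by
    refine List.Nodup.append (List.Nodup.filter _ ?_) (PG3_pairs_nodup (by decide)
      (PG3_pairs_nodup List.nodup_range (PG3_pairs_nodup List.nodup_range List.nodup_range))) ?_
    · refine (PG3_pairs_nodup List.nodup_range List.nodup_range).map ?_
      rintro ⟨a, b⟩ ⟨a', b'⟩ h
      simp only [Prod.mk.injEq] at h ⊢
      exact ⟨h.1, h.2.1⟩
    · intro u h1 h2
      obtain ⟨a, e, i, j, x, -, -, -, -, -, rfl⟩ := PG3_cells.1 h2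
      exact PG3_cl_not h1
  have h2 : ∀ j, ((0, 0, 0, j) : Nm) ∉ restOf D := fun j h =>
    absurd (mem_rest.1 h).1.kind.1 (Nat.not_succ_le_zero 0)
  simp [namesOf, nx, ny, m1, m2, m3, h1, h2]

theorem PG3_tr {D' : Dat} {u v w : Nm} {h p : ℕ} {θ : Th} (H : FF D' u v w h θ p)
    (h1 : u ∈ regN) (h2 : v ∈ regN) : FF D u v w h θ p := by
  cases H with
  | cr a e kd k η a1 a2 => exact .cr a e kd k η a1 a2
  | pl a e k a1 a2 => exact .pl a e k a1 a2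
  | pz a e kd k a1 a2 a3 => exact .pz a e kd k a1 a2 a3
  | ps a e s p k a1 a2 => exact .ps a e s p k a1 a2
  | ga => exact absurd h2 PG3_cl_not
  | _ => exact absurd h1 PG3_cl_not

theorem PG3_regF {φ : Ft} : φ ∈ regF ↔ (φ.1 ∈ regN ∧ φ.2.1 ∈ regN ∧ φ.2.2 ∈ regN) ∧
    ∃ h θ p, FF D φ.1 φ.2.1 φ.2.2 h θ p := by
  simp only [regF, List.mem_filter, mem_pairs, decide_eq_true_eq]
  refine and_congr_right fun h => ⟨?_, ?_⟩ <;> rintro ⟨n, θ, p, H⟩ <;>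
    exact ⟨n, θ, p, PG3_tr H h.1 h.2.1⟩

theorem PG3_cond {β : Type} {b : Bool} {l l' : List β} {x : β} :
    x ∈ cond b l l' ↔ b = true ∧ x ∈ l ∨ b = false ∧ x ∈ l' := by
  cases b <;> simp

theorem PG3_t2 {a e i j : ℕ} (hi : i ≤ 2) (hj : j ≤ 2) : t2 D a e i j = tc D a e i j := by
  rw [t2, tc, X2_eq hi hj]

theorem PG3_cnd {a e i j x y : ℕ} (hi : i < 2) (hj : j < 2) {φ : Ft} :
    φ ∈ cnd D a e i j x y ↔
      j ≤ i ∧ φ = (cl a e i j x, rg a e 5 i, cl a e (i + 1) j x) ∨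
      i ≤ j ∧ φ = (cl a e i j x, rg a e 6 j, cl a e i (j + 1) x) ∨
      φ = (cl a e i i x, rg a e 7 i, cl a e (i + 1) (i + 1) x) ∨
      φ = (cl a e i (j + 1) x, cl a e (i + 1) j y, cl a e (i + 1) (j + 1) (dl D x y)) ∨
      φ = (cl a e i 0 x, rg a e 12 (i + 1), cl a e (i + 1) 0 (b1 D x)) ∨
      φ = (cl a e 0 i x, rg a e 13 (i + 1), cl a e 0 (i + 1) (b2 D x)) ∨
      φ = (tc D a e i i, rg a e 4 i, tc D a e (i + 1) (i + 1)) ∨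
      mk D x = false ∧ φ = (rg a e 3 i, cl a e i i x, rg a e 0 i) ∨
      j ≤ i ∧ φ = (tc D a e i j, rg a e (8 + j) i, tc D a e (i + 1) j) ∨
      j ≤ i ∧ φ = (tc D a e j i, rg a e (10 + j) i, tc D a e j (i + 1)) := by
  rw [cnd, PG3_t2 hi.le hi.le, PG3_t2 hi hi, PG3_t2 hi.le hj.le, PG3_t2 hi hj.le,
    PG3_t2 hj.le hi.le, PG3_t2 hj.le hi]
  simp only [List.mem_append, PG3_cond, leb_iff, List.mem_cons, List.not_mem_nil, or_false,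
    and_false, false_or, or_assoc, and_or_left]

theorem PG3_rg {a e kd k : ℕ} (hr : Reg a e kd) (h : Sm (rg a e kd k)) : rg a e kd k ∈ regN :=
  mem_regN.2 ⟨a, e, kd, k, hr, (sm_rg (PG3_lt hr)).1 h, rfl⟩

theorem PG3_extra {φ : Ft} : φ ∈ extraOf D ↔ φ ∈ regF ∨
    (φ.1 ∈ restOf D ∧ φ.2.1 ∈ restOf D ∧ φ.2.2 ∈ restOf D) ∧ ∃ a e i j x y, a < 4 ∧ e < 2 ∧
      i < 2 ∧ j < 2 ∧ x < sz D ∧ y < sz D ∧ φ ∈ cnd D a e i j x y := by
  simp only [extraOf, List.mem_append, List.mem_flatMap, List.mem_filter, mem_pairs,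
    List.mem_range, Bool.and_eq_true, memb_iff]
  refine or_congr_right ⟨?_, ?_⟩
  · rintro ⟨z, ⟨⟨⟨a1, a2⟩, a3, a4⟩, a5, a6⟩, a7, ⟨a8, a9⟩, a10⟩
    exact ⟨⟨a8, a9, a10⟩, _, _, _, _, _, _, a1, a2, a3, a4, a5, a6, a7⟩
  · rintro ⟨⟨a8, a9, a10⟩, a, e, i, j, x, y, a1, a2, a3, a4, a5, a6, a7⟩
    exact ⟨(((a, e), i, j), x, y), ⟨⟨⟨a1, a2⟩, a3, a4⟩, a5, a6⟩, a7, ⟨a8, a9⟩, a10⟩

theorem PG3_ff {a e i j x y : ℕ} (ha : a < 4) (he : e < 2) (hi : i < 2) (hj : j < 2)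
    (hx : x < sz D) (hy : y < sz D) {φ : Ft} (h : φ ∈ cnd D a e i j x y) :
    ∃ h θ p, FF D φ.1 φ.2.1 φ.2.2 h θ p := by
  rcases (PG3_cnd hi hj).1 h with ⟨h1, rfl⟩ | ⟨h1, rfl⟩ | rfl | rfl | rfl | rfl | rfl | ⟨h1, rfl⟩ |
    ⟨h1, rfl⟩ | ⟨h1, rfl⟩
  · exact ⟨_, _, _, .ar a e i j x ha he hx h1⟩
  · exact ⟨_, _, _, .au a e i j x ha he hx h1⟩
  · exact ⟨_, _, _, .ad a e i x ha he hx⟩
  · exact ⟨_, _, _, .ru a e i j x y (if j ≠ 0 ∧ i = 0 then 0 else 1) (if j = 0 then 0 else 1) ha he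
      hx hy (by split_ifs <;> omega)⟩
  · exact ⟨_, _, _, .r1 a e i x ha he hx⟩
  · exact ⟨_, _, _, .r2 a e i x ha he hx⟩
  · exact ⟨_, _, _, .qd a e i ha he⟩
  · exact ⟨_, _, _, .ga a e i x ha he hx h1⟩
  · exact ⟨_, _, _, .er a e i j ha he (by omega) h1⟩
  · exact ⟨_, _, _, .eu a e j i ha he (by omega) h1⟩

theorem PG3_back {u v w : Nm} {h p : ℕ} {θ : Th} (H : FF D u v w h θ p) (h1 : Sm u) (h2 : Sm v)
    (h3 : Sm w) : (u ∈ regN ∧ v ∈ regN ∧ w ∈ regN) ∨ ∃ a e i j x y, a < 4 ∧ e < 2 ∧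
      i < 2 ∧ j < 2 ∧ x < sz D ∧ y < sz D ∧ (u, v, w) ∈ cnd D a e i j x y := by
  have h0 : 0 < sz D := Nat.succ_pos _
  cases H with
  | cr a e kd k η a1 a2 =>
    exact Or.inl ⟨PG3_rg a1 h1, PG3_rg (by unfold Reg; omega) h2, PG3_rg a1 h3⟩
  | pl a e k a1 a2 =>
    exact Or.inl ⟨PG3_rg (by unfold Reg; omega) h1, PG3_rg (by unfold Reg; omega) h2,
      PG3_rg (by unfold Reg; omega) h3⟩
  | pz a e kd k a1 a2 a3 =>
    exact Or.inl ⟨PG3_rg (by unfold Reg; omega) h1, PG3_rg (by unfold Reg; omega) h2,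
      PG3_rg (by unfold Reg; omega) h3⟩
  | ps a e s p k a1 a2 =>
    exact Or.inl ⟨PG3_rg (by unfold Reg; omega) h1, PG3_rg (by unfold Reg; omega) h2,
      PG3_rg (by unfold Reg; omega) h3⟩
  | ar a e i j x a1 a2 a3 a4 =>
    have hi : i < 2 := (sm_cl.1 h3).1
    have hj : j < 2 := by omega
    exact Or.inr ⟨a, e, i, j, x, 0, a1, a2, hi, hj, a3, h0, (PG3_cnd hi hj).2 (.inl ⟨a4, rfl⟩)⟩
  | au a e i j x a1 a2 a3 a4 =>
    have hj : j < 2 := (sm_cl.1 h3).2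
    have hi : i < 2 := by omega
    exact Or.inr ⟨a, e, i, j, x, 0, a1, a2, hi, hj, a3, h0,
      (PG3_cnd hi hj).2 (.inr (.inl ⟨a4, rfl⟩))⟩
  | ad a e i x a1 a2 a3 =>
    have hi : i < 2 := (sm_cl.1 h3).1
    exact Or.inr ⟨a, e, i, 0, x, 0, a1, a2, hi, two_pos, a3, h0,
      (PG3_cnd hi two_pos).2 (.inr (.inr (.inl rfl)))⟩
  | ru a e i j x y v w a1 a2 a3 a4 a5 =>
    have hi : i < 2 := (sm_cl.1 h3).1
    have hj : j < 2 := (sm_cl.1 h3).2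
    exact Or.inr ⟨a, e, i, j, x, y, a1, a2, hi, hj, a3, a4,
      (PG3_cnd hi hj).2 (.inr (.inr (.inr (.inl rfl))))⟩
  | r1 a e i x a1 a2 a3 =>
    have hi : i < 2 := (sm_cl.1 h3).1
    exact Or.inr ⟨a, e, i, 0, x, 0, a1, a2, hi, two_pos, a3, h0,
      (PG3_cnd hi two_pos).2 (.inr (.inr (.inr (.inr (.inl rfl)))))⟩
  | r2 a e i x a1 a2 a3 =>
    have hi : i < 2 := (sm_cl.1 h3).2
    exact Or.inr ⟨a, e, i, 0, x, 0, a1, a2, hi, two_pos, a3, h0,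
      (PG3_cnd hi two_pos).2 (.inr (.inr (.inr (.inr (.inr (.inl rfl))))))⟩
  | qd a e i a1 a2 =>
    have hi : i < 2 := (sm_cl.1 h3).1
    exact Or.inr ⟨a, e, i, 0, 0, 0, a1, a2, hi, two_pos, h0, h0,
      (PG3_cnd hi two_pos).2 (.inr (.inr (.inr (.inr (.inr (.inr (.inl rfl)))))))⟩
  | ga a e i x a1 a2 a3 a4 =>
    have hi : i < 2 := Nat.lt_succ_of_le ((sm_rg (by omega)).1 h1)
    exact Or.inr ⟨a, e, i, 0, x, 0, a1, a2, hi, two_pos, a3, h0,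
      (PG3_cnd hi two_pos).2 (.inr (.inr (.inr (.inr (.inr (.inr (.inr (.inl ⟨a4, rfl⟩))))))))⟩
  | er a e i j a1 a2 a3 a4 =>
    have hi : i < 2 := (sm_cl.1 h3).1
    have hj : j < 2 := by omega
    exact Or.inr ⟨a, e, i, j, 0, 0, a1, a2, hi, hj, h0, h0, (PG3_cnd hi hj).2
      (.inr (.inr (.inr (.inr (.inr (.inr (.inr (.inr (.inl ⟨a4, rfl⟩)))))))))⟩
  | eu a e i j a1 a2 a3 a4 =>
    have hj : j < 2 := (sm_cl.1 h3).2
    have hi : i < 2 := by omega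
    exact Or.inr ⟨a, e, j, i, 0, 0, a1, a2, hj, hi, h0, h0, (PG3_cnd hj hi).2
      (.inr (.inr (.inr (.inr (.inr (.inr (.inr (.inr (.inr ⟨a4, rfl⟩)))))))))⟩

theorem mem_extra {φ : Ft} : φ ∈ extraOf D ↔
    Sm φ.1 ∧ Sm φ.2.1 ∧ Sm φ.2.2 ∧ ∃ h θ p, FF D φ.1 φ.2.1 φ.2.2 h θ p := by
  have hs : ∀ u ∈ regN, Sm u := fun u hu =>
    ((mem_rest (D := D)).1 (List.mem_append_left _ hu)).2
  rw [PG3_extra, PG3_regF (D := D)]
  constructor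
  · rintro (⟨⟨h1, h2, h3⟩, H⟩ | ⟨⟨h1, h2, h3⟩, a, e, i, j, x, y, a1, a2, a3, a4, a5, a6, a7⟩)
    · exact ⟨hs _ h1, hs _ h2, hs _ h3, H⟩
    · exact ⟨(mem_rest.1 h1).2, (mem_rest.1 h2).2, (mem_rest.1 h3).2, PG3_ff a1 a2 a3 a4 a5 a6 a7⟩
  · rintro ⟨h1, h2, h3, n, θ, p, H⟩
    rcases PG3_back H h1 h2 h3 with h | h
    · exact Or.inl ⟨h, n, θ, p, H⟩
    · exact Or.inr ⟨⟨mem_rest.2 ⟨H.vd.1, h1⟩, mem_rest.2 ⟨H.vd.2.1, h2⟩,
        mem_rest.2 ⟨H.vd.2.2, h3⟩⟩, h⟩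

end Pool.Agent.P.MP_48d4bc_co.EX.PI
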