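import Pool.Agent.P.MP_48d4bc_co.PG2
import Pool.Agent.P.MP_48d4bc_co.PG3

set_option autoImplicit false

/-! Glue lists of the system of a grid. -/

namespace Pool.Agent.P.MP_48d4bc_co.EX.PI

open Set Function Pool.Agent.Lib.PrimrecProp

variable {D : Dat}

theorem mem_ths {θ : Th} : θ ∈ ths ↔ Sh θ := by
  obtain ⟨t, a, b, c, v, w⟩ := θ
  simp only [ths, List.mem_filter, mem_pairs, List.mem_range, decide_eq_true_eq]
  refine ⟨fun h => h.2, fun h => ⟨?_, h⟩⟩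
  simp only [Sh, Reg] at h
  omega

theorem glue_length : (sig D).glue.length = ths.length := by
  simp only [sig, List.length_map]

theorem PG4_t2 {a e i j : ℕ} (hi : i ≤ 2) (hj : j ≤ 2) : t2 D a e i j = tc D a e i j := by
  rw [t2, tc, X2_eq hi hj]

theorem PG4_cls {θ : Th} {a : ℕ} : Cls θ a ↔ a = (θ.2.1 + if θ.1 = 0 then 2 else 1) % 4 := by
  unfold Cls
  split_ifs with h <;> simp [h]

theorem PG4_kd {a e kd : ℕ} (h : Reg a e kd) : kd < 15 := by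
  unfold Reg at h
  omega

theorem PG4_sm_tc {a e i j : ℕ} : Sm (tc D a e i j) ↔ i ≤ 2 ∧ j ≤ 2 := sm_cl

theorem PG4_glue {θ : Th} (hθ : Sh θ) {u u' : Nm} :
    (u, u') ∈ glueOf D θ (con θ) ↔ Sm u ∧ Sm u' ∧ ∃ m d, MF D θ u u' m d := by
  simp only [glueOf, con, List.mem_append, List.mem_filter, mem_pairs, decide_eq_true_eq,
    List.mem_cons, List.not_mem_nil, or_false, List.mem_flatMap, List.mem_range, Prod.mk.injEq]
  constructor
  · rintro ((⟨⟨h1, h2⟩, m, d, h⟩ | ⟨rfl, rfl⟩ | ⟨rfl, rfl⟩) |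
      ⟨⟨i, j⟩, ⟨⟨hi, hj⟩, ht, hd, hv, hw⟩, h⟩)
    · obtain ⟨a, e, kd, k, hr, hk, rfl⟩ := mem_regN.1 h1
      obtain ⟨a', e', kd', k', hr', hk', h3⟩ := mem_regN.1 h2
      have h4 : Sm u' := h3 ▸ (sm_rg (PG4_kd hr')).2 hk'
      obtain ⟨e1, kd1, b, d1, h5, rfl, -, -⟩ := h.inv_rg hr
      exact ⟨(sm_rg (PG4_kd hr)).2 hk, h4, _, _, MF.re θ a e kd e1 kd1 b d1 k hr h5⟩
    · rw [PG4_t2 (by omega) (by omega), PG4_t2 (by omega) (by omega)]
      exact ⟨PG4_sm_tc.2 (by omega), PG4_sm_tc.2 (by omega), _, _, MF.gc θ _ 0 (PG4_cls.2 rfl)⟩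
    · rw [PG4_t2 (by omega) (by omega), PG4_t2 (by omega) (by omega)]
      exact ⟨PG4_sm_tc.2 (by omega), PG4_sm_tc.2 (by omega), _, _, MF.gc θ _ 1 (PG4_cls.2 rfl)⟩
    · obtain ⟨t, a, e, g, v, w⟩ := θ
      simp only at ht hd hv hw h hi hj
      subst ht
      have h5 : a < 4 ∧ e < 2 ∧ (g = 0 ∨ g = 1) := by
        simp only [Sh] at hθ
        omega
      obtain ⟨ha, he, rfl | rfl⟩ := h5
      · obtain ⟨x, hx, h6⟩ := List.mem_map.1 (show (u, u') ∈ List.map _ _ from h)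
        obtain ⟨rfl, rfl⟩ := Prod.mk.inj h6
        exact ⟨sm_cl.2 (by omega), sm_cl.2 (by omega), _, _,
          MF.sc a e v w i j x ha he (List.mem_range.1 hx) hd⟩
      · obtain ⟨rfl, rfl⟩ := Prod.mk.inj (List.mem_singleton.1 (show (u, u') ∈ [_] from h))
        rw [PG4_t2 (by omega) (by omega), PG4_t2 hv hw]
        exact ⟨PG4_sm_tc.2 (by omega), PG4_sm_tc.2 (by omega), _, _, MF.ec a e v w i j ha he hd⟩
  · rintro ⟨h1, h2, m, d, h⟩
    cases h with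
    | re _ a e kd e' kd' b d k hr h3 =>
      have hr' := (h3.reg hθ hr).1
      exact Or.inl (Or.inl ⟨⟨mem_regN.2 ⟨_, _, _, _, hr, (sm_rg (PG4_kd hr)).1 h1, rfl⟩,
        mem_regN.2 ⟨_, _, _, _, hr', (sm_rg (PG4_kd hr')).1 h2, rfl⟩⟩, _, _,
        MF.re θ a e kd e' kd' b d k hr h3⟩)
    | gc _ a i h3 =>
      have h4 := PG4_sm_tc.1 h2
      rw [← PG4_cls.1 h3]
      refine Or.inl (Or.inr ?_)
      rw [PG4_t2 (by omega) (by omega), PG4_t2 (by omega) (by omega), PG4_t2 (by omega) (by omega),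
        PG4_t2 (by omega) (by omega)]
      obtain rfl | rfl : m = 0 ∨ m = 1 := by omega
      exacts [Or.inl ⟨rfl, rfl⟩, Or.inr ⟨rfl, rfl⟩]
    | sc a e v w i j x ha he hx hd =>
      have h3 := sm_cl.1 h1
      have h4 := sm_cl.1 h2
      refine Or.inr ⟨(i, j), ⟨⟨?_, ?_⟩, rfl, hd, h4.1, h4.2⟩, ?_⟩
      · exact Nat.lt_succ_of_le h3.1
      · exact Nat.lt_succ_of_le h3.2
      · exact List.mem_map.2 ⟨x, List.mem_range.2 hx, rfl⟩
    | ec a e v w i j ha he hd =>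
      have h3 := PG4_sm_tc.1 h1
      have h4 := PG4_sm_tc.1 h2
      refine Or.inr ⟨(i, j), ⟨⟨?_, ?_⟩, rfl, hd, h4.1, h4.2⟩, ?_⟩
      · exact Nat.lt_succ_of_le h3.1
      · exact Nat.lt_succ_of_le h3.2
      · rw [← PG4_t2 h3.1 h3.2, ← PG4_t2 h4.1 h4.2]
        exact List.mem_singleton.2 rfl

theorem mem_gl {i : ℕ} {p : Nm × Nm} : p ∈ (sig D).gl i ↔ ∃ h : i < ths.length,
    Sm p.1 ∧ Sm p.2 ∧ ∃ m d, MF D ths[i] p.1 p.2 m d := by
  unfold Sig.gl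
  by_cases h : i < ths.length
  · rw [List.getD_eq_getElem _ _ (glue_length.symm ▸ h)]
    simp only [sig, List.getElem_map, h, exists_true_left]
    exact PG4_glue (mem_ths.1 (List.getElem_mem h))
  · rw [List.getD_eq_default _ _ (glue_length.symm ▸ not_lt.1 h)]
    simp [h]

theorem mem_names {u : Nm} (h1 : Vd D u) (h2 : Sm u) : u ∈ (sig D).names :=
  List.mem_cons_of_mem _ (List.mem_cons_of_mem _ (List.mem_cons_of_mem _ (List.mem_cons_of_mem _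
    (List.mem_cons_of_mem _ (mem_rest.2 ⟨h1, h2⟩)))))

theorem PG4_ne {u : Nm} (h : Vd D u) : u ≠ nx ∧ u ≠ ny := by
  have h1 := h.kind.1
  constructor <;> rintro rfl <;> exact absurd h1 (by decide)

theorem sig_wf : (sig D).WF := by
  refine ⟨names_nodup, ?_, fun φ hφ => ?_, fun i p hp => ?_, fun i p hp p' hp' => ?_⟩
  · rw [glue_length]
    refine List.length_pos_of_mem (a := (0, 0, 0, 0, 0, 0)) (mem_ths.2 ?_)
    simp [Sh, Reg]
  · obtain ⟨h1, h2, h3, h, θ, p, H⟩ := mem_extra.1 hφ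
    obtain ⟨v1, v2, v3⟩ := H.vd
    obtain ⟨n1, n2, n3⟩ := H.ne
    exact ⟨mem_names v1 h1, mem_names v2 h2, mem_names v3 h3, n1, n2, n3, PG4_ne v3⟩
  · obtain ⟨h, h1, h2, m, d, H⟩ := mem_gl.1 hp
    obtain ⟨v1, v2⟩ := H.vd (mem_ths.1 (List.getElem_mem h))
    exact ⟨mem_names v1 h1, mem_names v2 h2, (PG4_ne v1).1, (PG4_ne v1).2, PG4_ne v2⟩
  · obtain ⟨h, -, -, m, d, H⟩ := mem_gl.1 hp
    obtain ⟨_, -, -, m', d', H'⟩ := mem_gl.1 hp'
    exact H.bij (mem_ths.1 (List.getElem_mem h)) H'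

end Pool.Agent.P.MP_48d4bc_co.EX.PI
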