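import Pool.Agent.P.MP_48d4bc_co.PR5
import Pool.Agent.P.MP_48d4bc_co.PG4

set_option autoImplicit false

/-! Finitely many marks refute property (1). -/

namespace Pool.Agent.P.MP_48d4bc_co.EX.PI

open Set Function Pool.Agent.Lib.PrimrecProp

universe u

theorem PR6_dec {u : Nm} (h : ¬ Sm u) :
    (par u).1.2.1 + (par u).1.2.2.1 < u.2.1 + u.2.2.1 ∧
      (par u).2.2.1 + (par u).2.2.2.1 < u.2.1 + u.2.2.1 := by
  unfold Sm at h
  unfold par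
  split_ifs with h1 h2 h3 <;> dsimp only <;> omega

/-- terms for all elements -/
theorem PR6_terms (S : Sig) : ∃ T : Nm → Tm, (∀ u, Sm u → T u = S.tm u) ∧
    ∀ u, ¬ Sm u → T u = .f (T (par u).1) (T (par u).2) := by
  classical
  have wf : WellFounded fun a b : Nm => a.2.1 + a.2.2.1 < b.2.1 + b.2.2.1 :=
    (measure fun a : Nm => a.2.1 + a.2.2.1).wf
  let F : (u : Nm) → ((v : Nm) → v.2.1 + v.2.2.1 < u.2.1 + u.2.2.1 → Tm) → Tm := fun u r =>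
    if h : Sm u then S.tm u else .f (r (par u).1 (PR6_dec h).1) (r (par u).2 (PR6_dec h).2)
  refine ⟨wf.fix F, fun u hu => ?_, fun u hu => ?_⟩
  · rw [wf.fix_eq]
    exact dif_pos hu
  · rw [wf.fix_eq]
    exact dif_neg hu

theorem PR6_idx {θ : Th} (h : Sh θ) :
    ∃ hi : ths.idxOf θ < ths.length, ths[ths.idxOf θ] = θ := by
  have hi : ths.idxOf θ < ths.length := List.idxOf_lt_length_iff.2 (mem_ths.2 h)
  exact ⟨hi, List.getElem_idxOf hi⟩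

theorem inf_of_p1 {D : Dat} (hs : Shift D) (h : Sig.P1.{u} (sig D)) : Inf D := by
  by_contra hi
  obtain ⟨κ, hfin, hne, hc⟩ := exists_col.{u} hs hi
  obtain ⟨W, f, hW⟩ := mono_edges (sig_wf (D := D)) h κ
  obtain ⟨χ, hχ⟩ := hc W f
  obtain ⟨T, hT1, hT2⟩ := PR6_terms (sig D)
  obtain ⟨φ, hinj, hφ, hmono⟩ := hW fun u v => χ fun a => (T a).ev f u v
  have hlt : ∀ θ, Sh θ → ths.idxOf θ < (sig D).glue.length := fun θ hθ => by
    rw [glue_length]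
    exact (PR6_idx hθ).1
  let V : Th → Bool → Nm → Option W := fun θ s a =>
    (T a).ev f ((sig D).ge φ (ths.idxOf θ) s).1 ((sig D).ge φ (ths.idxOf θ) s).2
  have hV : ∀ θ s a, Sh θ → Vd D a → Sm a →
      V θ s a = some (φ ((sig D).vtx (ths.idxOf θ) s a)) := fun θ s a hθ h1 h2 => by
    show (T a).ev f _ _ = _
    rw [hT1 a h2]
    exact (hφ _ (hlt θ hθ) s).2 a (mem_names h1 h2)
  have fin : ¬ ∃ θ s θ' s', Sh θ ∧ Sh θ' ∧ χ (V θ s) ≠ χ (V θ' s') := by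
    rintro ⟨θ, s, θ', s', hθ, hθ', hne⟩
    exact hne (hmono _ (hlt θ hθ) s _ (hlt θ' hθ') s')
  refine fin (hχ V (fun θ s hθ => ⟨fun c hc' => ?_,
    fun a b c h' θ₀ p H ha hb hc' => ?_, ?_⟩) (fun θ hθ a a' m d H ha ha' => ?_))
  · show (T c).ev f _ _ = _
    rw [hT2 c hc']
    rfl
  · obtain ⟨v1, v2, v3⟩ := H.vd
    refine ⟨_, _, _, hV θ s a hθ v1 ha, hV θ s b hθ v2 hb, hV θ s c hθ v3 hc', ?_⟩
    exact (hφ _ (hlt θ hθ) s).1 (a, b, c)
      (List.mem_append_right _ (mem_extra.2 ⟨ha, hb, hc', h', θ₀, p, H⟩))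
  · have r : Reg 0 2 0 := by
      unfold Reg
      omega
    have v0 : Vd D (rg 0 2 0 0) := Or.inl ⟨0, 2, 0, 0, r, rfl⟩
    have v1 : Vd D (rg 0 2 0 1) := Or.inl ⟨0, 2, 0, 1, r, rfl⟩
    have s0 : Sm (rg 0 2 0 0) := (sm_rg (by omega)).2 (by omega)
    have s1 : Sm (rg 0 2 0 1) := (sm_rg (by omega)).2 (by omega)
    rw [hV θ s _ hθ v0 s0, hV θ s _ hθ v1 s1]
    intro e
    have e1 := hinj (Sig.vtx_valid (hlt θ hθ) s (mem_names v0 s0))
      (Sig.vtx_valid (hlt θ hθ) s (mem_names v1 s1)) (Option.some_inj.1 e)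
    have e2 := rg_inj.1 ((sig_wf (D := D)).exvtx_same e1)
    omega
  · obtain ⟨v1, v2⟩ := H.vd hθ
    refine ⟨_, hV θ false a hθ v1 ha, ?_⟩
    rw [hV θ true a' hθ v2 ha']
    obtain ⟨hi', e⟩ := PR6_idx hθ
    have hg : (a, a') ∈ (sig D).gl (ths.idxOf θ) :=
      mem_gl.2 ⟨hi', ha, ha', m, d, by rw [e]; exact H⟩
    have e1 : (sig D).vtx (ths.idxOf θ) false a = (sig D).vtx (ths.idxOf θ) true a' :=
      (sig_wf (D := D)).vtx_eq.2 ⟨rfl, Or.inr (Or.inl ⟨rfl, rfl, hg⟩)⟩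
    rw [e1]

end Pool.Agent.P.MP_48d4bc_co.EX.PI
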