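import Pool.Agent.P.MP_48d4bc_co.EXDefs
import Pool.Agent.Lib.PrimrecProp.Basic

set_option autoImplicit false

/-! The finite statements are primitive recursive. -/

namespace Pool.Agent.P.MP_48d4bc_co.EX.PI

open Pool.Agent.Lib.PrimrecProp

/-- All lists of length `k` with entries below `n`. -/
def PU2_lists (k n : ℕ) : List (List ℕ) :=
  (List.range k).foldr (fun _ acc => (List.range n).flatMap fun x => acc.map fun s => x :: s) [[]]

theorem PU2_mem_aux (m : List ℕ) (n : ℕ) (l : List ℕ) :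
    l ∈ m.foldr (fun _ acc => (List.range n).flatMap fun x => acc.map fun s => x :: s) [[]] ↔
      l.length = m.length ∧ ∀ x ∈ l, x < n := by
  induction m generalizing l with
  | nil =>
    simp only [List.foldr_nil, List.mem_singleton, List.length_nil, List.length_eq_zero_iff]
    exact ⟨fun h => ⟨h, by simp [h]⟩, fun h => h.1⟩
  | cons a m ih =>
    simp only [List.foldr_cons, List.mem_flatMap, List.mem_range, List.mem_map, ih,
      List.length_cons]
    constructor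
    · rintro ⟨x, hx, s, ⟨h1, h2⟩, rfl⟩
      refine ⟨by simp [h1], fun y hy => ?_⟩
      rcases List.mem_cons.1 hy with rfl | hy
      · exact hx
      · exact h2 y hy
    · rintro ⟨h1, h2⟩
      cases l with
      | nil => simp at h1
      | cons x s =>
        exact ⟨x, h2 x List.mem_cons_self, s,
          ⟨by simpa using h1, fun y hy => h2 y (List.mem_cons_of_mem _ hy)⟩, rfl⟩

theorem PU2_mem {k n : ℕ} {l : List ℕ} :
    l ∈ PU2_lists k n ↔ l.length = k ∧ ∀ x ∈ l, x < n := by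
  rw [PU2_lists, PU2_mem_aux, List.length_range]

@[fun_prop] theorem PU2_p_lists {α : Type} [Primcodable α] {f g : α → ℕ} (hf : Primrec f)
    (hg : Primrec g) : Primrec (fun a => PU2_lists (f a) (g a)) := by
  unfold PU2_lists; fun_prop

/-- Adjacency test. -/
def PU2_adj (L : List (ℕ × ℕ)) (u v : ℕ) : Bool :=
  (!(eqb u v)) && (memb (u, v) L || memb (v, u) L)

@[fun_prop] theorem PU2_p_adj {α : Type} [Primcodable α] {L : α → List (ℕ × ℕ)} {f g : α → ℕ}
    (hL : Primrec L) (hf : Primrec f) (hg : Primrec g) :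
    Primrec (fun a => PU2_adj (L a) (f a) (g a)) := by
  unfold PU2_adj; fun_prop

theorem PU2_adj_iff {k : ℕ} (L : List (ℕ × ℕ)) (u v : Fin k) :
    (graphOf k L).Adj u v ↔ PU2_adj L u.1 v.1 = true := by
  simp [graphOf, SimpleGraph.fromRel_adj, PU2_adj, eqb, Fin.ext_iff]

/-- The place of an unordered pair. -/
def PU2_idx (k u v : ℕ) : ℕ := cond (leb u v) (u * k + v) (v * k + u)

@[fun_prop] theorem PU2_p_idx {α : Type} [Primcodable α] {k f g : α → ℕ}
    (hk : Primrec k) (hf : Primrec f) (hg : Primrec g) :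
    Primrec (fun a => PU2_idx (k a) (f a) (g a)) := by
  unfold PU2_idx; fun_prop

theorem PU2_idx_eq (k u v : ℕ) : PU2_idx k u v = if u ≤ v then u * k + v else v * k + u := by
  by_cases h : u ≤ v <;> simp [PU2_idx, leb, h]

theorem PU2_idx_comm (k u v : ℕ) : PU2_idx k u v = PU2_idx k v u := by
  rw [PU2_idx_eq, PU2_idx_eq]
  rcases lt_trichotomy u v with h | rfl | h
  · rw [if_pos h.le, if_neg h.not_ge]
  · rfl
  · rw [if_neg h.not_ge, if_pos h.le]

/-- `f` lists a copy all of whose edges have colour `c`. -/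
def PU2_cp (g h : ℕ × List (ℕ × ℕ)) (col : List ℕ) (c : ℕ) (f : List ℕ) : Bool :=
  (pairs (List.range g.1) (List.range g.1)).all fun p =>
    (eqb p.1 p.2 || !(eqb (f.getD p.1 0) (f.getD p.2 0))) &&
      (!(PU2_adj g.2 p.1 p.2) || (PU2_adj h.2 (f.getD p.1 0) (f.getD p.2 0) &&
        eqb (col.getD (PU2_idx h.1 (f.getD p.1 0) (f.getD p.2 0)) 0) c))

@[fun_prop] theorem PU2_p_cp {α : Type} [Primcodable α] {g h : α → ℕ × List (ℕ × ℕ)}
    {col f : α → List ℕ} {c : α → ℕ} (hg : Primrec g) (hh : Primrec h) (hcol : Primrec col)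
    (hc : Primrec c) (hf : Primrec f) :
    Primrec (fun a => PU2_cp (g a) (h a) (col a) (c a) (f a)) := by
  unfold PU2_cp; fun_prop

theorem PU2_cp_iff (g h : ℕ × List (ℕ × ℕ)) (col : List ℕ) (c : ℕ) (f : List ℕ) :
    PU2_cp g h col c f = true ↔ ∀ a < g.1, ∀ b < g.1, (f.getD a 0 = f.getD b 0 → a = b) ∧
      (PU2_adj g.2 a b = true → PU2_adj h.2 (f.getD a 0) (f.getD b 0) = true ∧
        col.getD (PU2_idx h.1 (f.getD a 0) (f.getD b 0)) 0 = c) := by
  simp only [PU2_cp, List.all_eq_true, mem_pairs, List.mem_range, Bool.and_eq_true,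
    Bool.or_eq_true, Bool.not_eq_true', eqb_iff, ← Bool.not_eq_true, Prod.forall]
  constructor
  · intro H a ha b hb
    have := H a b ⟨ha, hb⟩
    tauto
  · intro H a b hab
    have := H a hab.1 b hab.2
    tauto

theorem PU2_mono (g h : ℕ × List (ℕ × ℕ)) (n : ℕ) (col : List ℕ)
    (cc : Sym2 (Fin h.1) → Fin (n + 1))
    (hcc : ∀ u v : Fin h.1, (cc s(u, v)).1 = col.getD (PU2_idx h.1 u.1 v.1) 0) :
    HasMonoCopy (graphOf g.1 g.2) (graphOf h.1 h.2) cc ↔
      ∃ c < n + 1, ∃ f ∈ PU2_lists g.1 h.1, PU2_cp g h col c f = true := by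
  constructor
  · rintro ⟨φ, c, hc⟩
    have e : ∀ a (ha : a < g.1), (List.ofFn fun a => (φ a).1).getD a 0 = (φ ⟨a, ha⟩).1 :=
      fun a ha => by simp [ha]
    refine ⟨c.1, c.2, List.ofFn fun a => (φ a).1, PU2_mem.2 ⟨List.length_ofFn, fun x hx => ?_⟩,
      (PU2_cp_iff _ _ _ _ _).2 fun a ha b hb => ?_⟩
    · obtain ⟨a, rfl⟩ := List.mem_ofFn.1 hx
      exact (φ a).2
    · rw [e a ha, e b hb]
      refine ⟨fun H => congrArg Fin.val (φ.injective (Fin.ext H)), fun H => ?_⟩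
      have hab := (PU2_adj_iff g.2 ⟨a, ha⟩ ⟨b, hb⟩).2 H
      exact ⟨(PU2_adj_iff h.2 _ _).1 (φ.toHom.map_adj hab), by rw [← hcc, hc _ _ hab]⟩
  · rintro ⟨c, hc, f, hf, H⟩
    obtain ⟨h1, h2⟩ := PU2_mem.1 hf
    rw [PU2_cp_iff] at H
    have hlt : ∀ a : Fin g.1, f.getD a.1 0 < h.1 := fun a => by
      have ha : a.1 < f.length := a.2.trans_eq h1.symm
      rw [List.getD_eq_getElem _ _ ha]
      exact h2 _ (List.getElem_mem ha)
    refine ⟨⟨⟨fun a => ⟨f.getD a.1 0, hlt a⟩, fun {a b} hab => ?_⟩, fun a b hab => ?_⟩, ⟨c, hc⟩,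
      fun a b hab => Fin.ext ?_⟩
    · exact (PU2_adj_iff h.2 _ _).2 ((H a.1 a.2 b.1 b.2).2 ((PU2_adj_iff g.2 a b).1 hab)).1
    · exact Fin.ext ((H a.1 a.2 b.1 b.2).1 (congrArg Fin.val hab))
    · exact (hcc _ _).trans ((H a.1 a.2 b.1 b.2).2 ((PU2_adj_iff g.2 a b).1 hab)).2

theorem PU2_col_of (k n : ℕ) (cc : Sym2 (Fin k) → Fin (n + 1)) :
    ∃ col ∈ PU2_lists (k * k) (n + 1),
      ∀ u v : Fin k, (cc s(u, v)).1 = col.getD (PU2_idx k u.1 v.1) 0 := by
  let G : ℕ → ℕ → ℕ := fun u v =>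
    if h : u < k ∧ v < k then (cc s(⟨u, h.1⟩, ⟨v, h.2⟩)).1 else 0
  have hG : ∀ u v : Fin k, ((List.range (k * k)).map fun i => G (i / k) (i % k)).getD
      (u.1 * k + v.1) 0 = (cc s(u, v)).1 := fun u v => by
    have hk : 0 < k := u.pos
    have hlt : u.1 * k + v.1 < k * k := by nlinarith [u.2, v.2]
    have e1 : (u.1 * k + v.1) / k = u.1 := by
      rw [mul_comm, Nat.mul_add_div hk, Nat.div_eq_of_lt v.2, add_zero]
    have e2 : (u.1 * k + v.1) % k = v.1 := by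
      rw [mul_comm, Nat.mul_add_mod, Nat.mod_eq_of_lt v.2]
    rw [List.getD_eq_getElem _ _ (by simpa using hlt), List.getElem_map, List.getElem_range, e1, e2]
    exact dif_pos ⟨u.2, v.2⟩
  refine ⟨(List.range (k * k)).map fun i => G (i / k) (i % k),
    PU2_mem.2 ⟨by simp, fun x hx => ?_⟩, fun u v => ?_⟩
  · obtain ⟨i, -, rfl⟩ := List.mem_map.1 hx
    simp only [G]
    split_ifs
    · exact Fin.is_lt _
    · exact n.succ_pos
  · rw [PU2_idx_eq]
    split_ifs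
    · exact (hG u v).symm
    · rw [hG v u, Sym2.eq_swap]

theorem PU2_of_col (k n : ℕ) {col : List ℕ} (h : col ∈ PU2_lists (k * k) (n + 1)) :
    ∃ cc : Sym2 (Fin k) → Fin (n + 1),
      ∀ u v : Fin k, (cc s(u, v)).1 = col.getD (PU2_idx k u.1 v.1) 0 := by
  have hlt : ∀ i, col.getD i 0 < n + 1 := fun i => by
    by_cases hi : i < col.length
    · rw [List.getD_eq_getElem _ _ hi]
      exact (PU2_mem.1 h).2 _ (List.getElem_mem hi)
    · rw [List.getD_eq_default _ _ (not_lt.1 hi)]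
      exact n.succ_pos
  exact ⟨Sym2.lift ⟨fun u v => ⟨col.getD (PU2_idx k u.1 v.1) 0, hlt _⟩,
    fun u v => Fin.ext (by simp only [PU2_idx_comm k u.1 v.1])⟩, fun u v => rfl⟩

/-- The test for the arrow relation. -/
def PU2_arr (z : ((ℕ × List (ℕ × ℕ)) × ℕ) × ℕ × List (ℕ × ℕ)) : Bool :=
  (PU2_lists (z.2.1 * z.2.1) (z.1.2 + 1)).all fun col => (List.range (z.1.2 + 1)).any fun c =>
    (PU2_lists z.1.1.1 z.2.1).any fun f => PU2_cp z.1.1 z.2 col c f

theorem PU2_arrow : ∃ F : ((ℕ × List (ℕ × ℕ)) × ℕ) × ℕ × List (ℕ × ℕ) → Bool, Primrec F ∧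
    ∀ z, F z = true ↔ ∀ c : Sym2 (Fin z.2.1) → Fin (z.1.2 + 1),
      HasMonoCopy (graphOf z.1.1.1 z.1.1.2) (graphOf z.2.1 z.2.2) c := by
  refine ⟨PU2_arr, by unfold PU2_arr; fun_prop, fun z => ?_⟩
  simp only [PU2_arr, List.all_eq_true, List.any_eq_true, List.mem_range]
  constructor
  · intro H cc
    obtain ⟨col, h1, h2⟩ := PU2_col_of _ _ cc
    exact (PU2_mono z.1.1 z.2 z.1.2 col cc h2).2 (H col h1)
  · intro H col h1
    obtain ⟨cc, h2⟩ := PU2_of_col _ _ h1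
    exact (PU2_mono z.1.1 z.2 z.1.2 col cc h2).1 (H cc)

theorem prim_free : ∃ F : (ℕ × List (ℕ × ℕ)) × ℕ × List (ℕ × ℕ) → Bool, Primrec F ∧
    ∀ z, F z = true ↔ (graphOf z.1.1 z.1.2).Free (graphOf z.2.1 z.2.2) := by
  obtain ⟨F, hF, H⟩ := PU2_arrow
  refine ⟨fun z => !(F ((z.1, 0), z.2)), by fun_prop, fun z => ?_⟩
  rw [Bool.not_eq_true', ← Bool.not_eq_true, H]
  refine not_congr ⟨fun h => ?_, fun ⟨φ⟩ c => ⟨φ, 0, fun a b _ => Fin.ext ?_⟩⟩
  · obtain ⟨φ, -⟩ := h fun _ => 0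
    exact ⟨φ⟩
  · exact Nat.lt_one_iff.1 (Fin.is_lt _)

theorem prim_arrow : ∃ F : ((ℕ × List (ℕ × ℕ)) × ℕ) × ℕ × List (ℕ × ℕ) → Bool, Primrec F ∧
    ∀ z, F z = true ↔ ∀ c : Sym2 (Fin z.2.1) → Fin (z.1.2 + 1),
      HasMonoCopy (graphOf z.1.1.1 z.1.1.2) (graphOf z.2.1 z.2.2) c := PU2_arrow

end Pool.Agent.P.MP_48d4bc_co.EX.PI
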