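import Pool.Agent.P.MP_48d4bc_co.PU1
import Pool.Agent.P.MP_48d4bc_co.PU2
import Pool.Agent.P.MP_48d4bc_co.Count

set_option autoImplicit false

/-! The upper bound. -/

namespace Pool.Agent.P.MP_48d4bc_co.EX.PI

open Pool.Agent.Lib.PrimrecProp

universe u

theorem PU3_re {A : Type} [Primcodable A] (F : A × (ℕ × List (ℕ × ℕ)) → Bool) (hF : Primrec F) :
    REPred fun a => ∃ q, F (a, q) = true := by
  have h1 : Primrec fun z : A × ℕ => F (z.1, Denumerable.ofNat (ℕ × List (ℕ × ℕ)) z.2) :=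
    hF.comp (Primrec.fst.pair ((Primrec.ofNat _).comp Primrec.snd))
  have h2 : Partrec fun a : A => Nat.rfind fun k =>
      (Part.some (F (a, Denumerable.ofNat (ℕ × List (ℕ × ℕ)) k)) : Part Bool) :=
    Partrec.rfind (p := fun a k => Part.some (F (a, Denumerable.ofNat (ℕ × List (ℕ × ℕ)) k)))
      h1.to_comp.partrec
  refine h2.dom_re.of_eq fun a => ?_
  refine Nat.rfind_dom.trans ?_
  constructor
  · rintro ⟨k, hk, -⟩
    exact ⟨_, (Part.mem_some_iff.1 hk).symm⟩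
  · rintro ⟨q, hq⟩
    refine ⟨Encodable.encode q, ?_, fun _ => trivial⟩
    rw [Denumerable.ofNat_encode, hq]
    exact Part.mem_some _

theorem PU3_tri : graphOf 3 [(0, 1), (0, 2), (1, 2)] = ⊤ := by
  ext a b
  fin_cases a <;> fin_cases b <;> simp [graphOf]

theorem PU3_free {β : Type} (G : SimpleGraph β) :
    (graphOf 3 [(0, 1), (0, 2), (1, 2)]).Free G ↔ G.CliqueFree 3 := by
  rw [PU3_tri]
  simpa using (SimpleGraph.cliqueFree_iff_top_free (G := G) (β := Fin 3)).symm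

theorem upper {α : Type} [Finite α] (G₁ : SimpleGraph α) (h : G₁.Colorable 3) :
    ∃ R : (ℕ × List (ℕ × ℕ)) × ℕ → Prop, REPred R ∧ ∀ p : ℕ × List (ℕ × ℕ),
      (¬ (graphOf p.1 p.2).CliqueFree 3 ∧ Exceptional.{u} G₁ (graphOf p.1 p.2)) ↔
        ∀ n, R (p, n) := by
  obtain ⟨g, ⟨e⟩⟩ := exists_code G₁
  obtain ⟨F, hF, hF'⟩ := prim_free
  obtain ⟨A, hA, hA'⟩ := prim_arrow
  have hB : Primrec fun z : ((ℕ × List (ℕ × ℕ)) × ℕ) × (ℕ × List (ℕ × ℕ)) =>
      (!F ((3, [(0, 1), (0, 2), (1, 2)]), z.1.1)) && (F (g, z.2) && A z) :=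
    p_and (p_not (hF.comp ((Primrec.const _).pair (Primrec.fst.comp Primrec.fst))))
      (p_and (hF.comp ((Primrec.const _).pair Primrec.snd)) hA)
  refine ⟨_, PU3_re _ hB, fun p => ?_⟩
  have key : ∀ n : ℕ, (∃ q : ℕ × List (ℕ × ℕ),
      ((!F ((3, [(0, 1), (0, 2), (1, 2)]), p)) && (F (g, q) && A ((p, n), q))) = true) ↔
      (¬ (graphOf p.1 p.2).CliqueFree 3 ∧ ∃ (V : Type u) (H : SimpleGraph V),
        G₁.Free H ∧ ∀ c : Sym2 V → Fin (n + 1), HasMonoCopy (graphOf p.1 p.2) H c) := by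
    intro n
    rw [finite_host.{u} G₁ (graphOf p.1 p.2) n, ← PU3_free,
      ← hF' ((3, [(0, 1), (0, 2), (1, 2)]), p), ← exists_and_left]
    refine exists_congr fun q => ?_
    rw [Bool.and_eq_true, Bool.and_eq_true, hF' (g, q), hA' ((p, n), q),
      SimpleGraph.free_congr_left e]
    simp
  constructor
  · rintro ⟨h1, h2, -⟩ n
    exact (key n).2 ⟨h1, h2 (n + 1) (by omega)⟩
  · intro hR
    have h1 := ((key 0).1 (hR 0)).1
    refine ⟨h1, fun n hn => ?_, fun V H hH => countable_colouring H h h1 hH⟩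
    obtain ⟨m, rfl⟩ : ∃ m, n = m + 1 := ⟨n - 1, by omega⟩
    exact ((key m).1 (hR m)).2

end Pool.Agent.P.MP_48d4bc_co.EX.PI
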