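import Pool.Agent.P.MP_48d4bc_co.EXBridge
import Pool.Agent.P.MP_48d4bc_co.EXHost
import Pool.Agent.P.MP_48d4bc_co.PG7
import Pool.Agent.P.MP_48d4bc_co.PG8
import Pool.Agent.P.MP_48d4bc_co.PR6
import Pool.Agent.P.MP_48d4bc_co.PM2
import Pool.Agent.P.MP_48d4bc_co.PM4
import Pool.Agent.P.MP_48d4bc_co.PU3

set_option autoImplicit false

/-! The exceptional pairs are complete at the second level of the arithmetical hierarchy. -/

namespace Pool.Agent.P.MP_48d4bc_co.EX.PI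

universe u

theorem exc_iff_inf {D : Dat} (hs : Shift D) :
    Exceptional.{u} GG (graphOf (sig D).size (sig D).code) ↔ Inf D := by
  rw [sig_wf.exc_iff]
  exact ⟨inf_of_p1 hs, fun h => sig_wf.p1 (gmodel hs h)⟩

theorem hard (R : ℕ × ℕ → Prop) (hR : REPred R) : ∃ f : ℕ → ℕ × List (ℕ × ℕ), Computable f ∧
    ∀ e, ¬ (graphOf (f e).1 (f e).2).CliqueFree 3 ∧
      (Exceptional.{u} GG (graphOf (f e).1 (f e).2) ↔ ∀ n, R (e, n)) := by
  obtain ⟨G, Λ, _, _, _, M, S, ρ, c₀, I, hS, hρ, hI, hM⟩ := tm0_pi R hR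
  obtain ⟨Q, _, N, q0, q1, h1, h2⟩ := exists_sm M S hS ρ hρ c₀
  obtain ⟨D, hD, h3⟩ := exists_dat N q0 q1 h1 I hI
  refine ⟨fun e => ((sig (D e)).size, (sig (D e)).code), (prim_code.comp hD).to_comp,
    fun e => ⟨EXBridge_tri sig_wf, (exc_iff_inf (h3 e).1).trans ?_⟩⟩
  rw [← hM, co_iff]
  unfold Inf
  simp only [(h3 e).2, h2]

end Pool.Agent.P.MP_48d4bc_co.EX.PI
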