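import Pool.Agent.P.MP_48d4bc_co.PG0

set_option autoImplicit false

/-! Inversion lemmas and validity. -/

namespace Pool.Agent.P.MP_48d4bc_co.EX.PI

open Set Function Pool.Agent.Lib.PrimrecProp

variable {D : Dat} {θ : Th} {a e kd k i j x m d : ℕ} {u : Nm}

theorem rg_inj {a' e' kd' k' : ℕ} : rg a e kd k = rg a' e' kd' k' ↔
    48 * a + 16 * e + kd = 48 * a' + 16 * e' + kd' ∧ k = k' := by
  simp only [rg, Prod.mk.injEq, and_true]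
  omega

theorem cl_inj {a' e' i' j' x' : ℕ} : cl a e i j x = cl a' e' i' j' x' ↔
    3 * a + e = 3 * a' + e' ∧ i = i' ∧ j = j' ∧ x = x' := by
  simp only [cl, Prod.mk.injEq]
  omega

theorem rg_ne_cl {a' e' : ℕ} (h : kd < 15) : rg a e kd k ≠ cl a' e' i j x := by
  simp only [rg, cl, ne_eq, Prod.mk.injEq]
  omega

theorem sm_rg (h : kd < 15) : Sm (rg a e kd k) ↔ k ≤ 1 := by
  simp only [Sm, rg]
  omega

theorem sm_cl : Sm (cl a e i j x) ↔ i ≤ 2 ∧ j ≤ 2 := by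
  simp only [Sm, cl]
  omega

theorem Cls.lt (h : Cls θ a) : a < 4 := by
  unfold Cls at h
  omega

/-- the target of a register is a register -/
theorem RM.reg {e' kd' b d' : ℕ} (hθ : Sh θ) (hr : Reg a e kd) (h : RM θ a e kd e' kd' b d') :
    Reg a e' kd' ∧ b ≤ 2 := by
  obtain ⟨t, a0, p1, p2, p3, p4⟩ := θ
  simp only [Sh, Reg, RM, Cls, GK] at *
  rcases h with h | h | h | h | h <;> omega

theorem PG1_kd (hr : Reg a e kd) : kd < 15 := by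
  unfold Reg at hr
  omega

theorem PG1_rg {a' e' kd' k' : ℕ} (hr : Reg a e kd) (hr' : Reg a' e' kd')
    (h : rg a e kd k = rg a' e' kd' k') : a = a' ∧ e = e' ∧ kd = kd' ∧ k = k' := by
  rw [rg_inj] at h
  unfold Reg at hr hr'
  omega

theorem PG1_cl {a' e' i' j' x' : ℕ} (he : e < 2) (he' : e' < 2)
    (h : cl a e i j x = cl a' e' i' j' x') : a = a' ∧ e = e' ∧ i = i' ∧ j = j' ∧ x = x' := by
  rw [cl_inj] at h
  omega

theorem PG1_vr (hr : Reg a e kd) : Vd D (rg a e kd k) := Or.inl ⟨_, _, _, _, hr, rfl⟩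

theorem PG1_vc (ha : a < 4) (he : e < 2) (hx : x < sz D) : Vd D (cl a e i j x) :=
  Or.inr ⟨_, _, _, _, _, ha, he, hx, rfl⟩

theorem PG1_vt (ha : a < 4) (he : e < 2) : Vd D (tc D a e i j) := PG1_vc ha he (X_lt _ _ _ _)

theorem MF.inv_rg (h : MF D θ (rg a e kd k) u m d) (hr : Reg a e kd) :
    ∃ e' kd' b d', RM θ a e kd e' kd' b d' ∧ u = rg a e' kd' (k + 1) ∧ m = k + b ∧
      d = 4 * k + d' := by
  generalize hu : rg a e kd k = w at h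
  cases h with
  | re _ a1 e1 kd1 e' kd' b d' k1 h1 h2 =>
    obtain ⟨rfl, rfl, rfl, rfl⟩ := PG1_rg hr h1 hu
    exact ⟨e', kd', b, d', h2, rfl, rfl, rfl⟩
  | gc => exact (rg_ne_cl (PG1_kd hr) hu).elim
  | sc => exact (rg_ne_cl (PG1_kd hr) hu).elim
  | ec => exact (rg_ne_cl (PG1_kd hr) hu).elim

theorem MF.inv_cl (h : MF D θ (cl a e i j x) u m d) (he : e < 2) :
    (Cls θ a ∧ e = 0 ∧ j = i ∧ x = X D 0 i i ∧ u = tc D a 1 (i + 1) (i + 1) ∧ m = i) ∨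
    (∃ v w, θ = (2, a, e, 0, v, w) ∧ Dm v w i j ∧ u = cl a e (i + v) (j + w) x ∧ m = max i j) ∨
    ∃ v w, θ = (2, a, e, 1, v, w) ∧ Dm v w i j ∧ x = X D e i j ∧
      u = tc D a e (i + v) (j + w) ∧ m = max i j := by
  generalize hu : cl a e i j x = w at h
  cases h with
  | re _ a1 e1 kd1 e' kd' b d' k1 h1 h2 => exact (rg_ne_cl (PG1_kd h1) hu.symm).elim
  | gc _ a1 i1 h1 =>
    obtain ⟨rfl, rfl, rfl, rfl, rfl⟩ := PG1_cl he (by omega) hu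
    exact Or.inl ⟨h1, rfl, rfl, rfl, rfl, rfl⟩
  | sc a1 e1 v w i1 j1 x1 h1 h2 h3 h4 =>
    obtain ⟨rfl, rfl, rfl, rfl, rfl⟩ := PG1_cl he h2 hu
    exact Or.inr (Or.inl ⟨v, w, rfl, h4, rfl, rfl⟩)
  | ec a1 e1 v w i1 j1 h1 h2 h4 =>
    obtain ⟨rfl, rfl, rfl, rfl, rfl⟩ := PG1_cl he h2 hu
    exact Or.inr (Or.inr ⟨v, w, rfl, h4, rfl, rfl, rfl⟩)

theorem MF.inv_rg' (hθ : Sh θ) (h : MF D θ u (rg a e kd k) m d) (hr : Reg a e kd) :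
    ∃ e₀ kd₀ b d' k₀, Reg a e₀ kd₀ ∧ RM θ a e₀ kd₀ e kd b d' ∧ u = rg a e₀ kd₀ k₀ ∧
      k = k₀ + 1 ∧ m = k₀ + b := by
  generalize hu : rg a e kd k = w at h
  cases h with
  | re _ a1 e1 kd1 e' kd' b d' k1 h1 h2 =>
    obtain ⟨rfl, rfl, rfl, rfl⟩ := PG1_rg hr (h2.reg hθ h1).1 hu
    exact ⟨e1, kd1, b, d', k1, h1, h2, rfl, rfl, rfl⟩
  | gc => exact (rg_ne_cl (PG1_kd hr) hu).elim
  | sc => exact (rg_ne_cl (PG1_kd hr) hu).elim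
  | ec => exact (rg_ne_cl (PG1_kd hr) hu).elim

theorem MF.inv_cl' (hθ : Sh θ) (h : MF D θ u (cl a e i j x) m d) (he : e < 2) :
    (Cls θ a ∧ e = 1 ∧ ∃ i₀, i = i₀ + 1 ∧ j = i₀ + 1 ∧ x = X D 1 (i₀ + 1) (i₀ + 1) ∧
      u = tc D a 0 i₀ i₀ ∧ m = i₀) ∨
    (∃ v w i₀ j₀, θ = (2, a, e, 0, v, w) ∧ Dm v w i₀ j₀ ∧ i = i₀ + v ∧ j = j₀ + w ∧
      u = cl a e i₀ j₀ x ∧ m = max i₀ j₀) ∨
    ∃ v w i₀ j₀, θ = (2, a, e, 1, v, w) ∧ Dm v w i₀ j₀ ∧ i = i₀ + v ∧ j = j₀ + w ∧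
      x = X D e (i₀ + v) (j₀ + w) ∧ u = tc D a e i₀ j₀ ∧ m = max i₀ j₀ := by
  generalize hu : cl a e i j x = w at h
  cases h with
  | re _ a1 e1 kd1 e' kd' b d' k1 h1 h2 =>
    exact (rg_ne_cl (PG1_kd (h2.reg hθ h1).1) hu.symm).elim
  | gc _ a1 i1 h1 =>
    obtain ⟨rfl, rfl, rfl, rfl, rfl⟩ := PG1_cl he (by omega) hu
    exact Or.inl ⟨h1, rfl, _, rfl, rfl, rfl, rfl, rfl⟩
  | sc a1 e1 v w i1 j1 x1 h1 h2 h3 h4 =>
    obtain ⟨rfl, rfl, rfl, rfl, rfl⟩ := PG1_cl he h2 hu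
    exact Or.inr (Or.inl ⟨v, w, i1, j1, rfl, h4, rfl, rfl, rfl, rfl⟩)
  | ec a1 e1 v w i1 j1 h1 h2 h4 =>
    obtain ⟨rfl, rfl, rfl, rfl, rfl⟩ := PG1_cl he h2 hu
    exact Or.inr (Or.inr ⟨v, w, i1, j1, rfl, h4, rfl, rfl, rfl, rfl, rfl⟩)

theorem Vd.kind (h : Vd D u) : 1 ≤ u.1 ∧ u.1 < 200 ∧ u.2.2.2 < sz D := by
  rcases h with ⟨a, e, kd, k, h, rfl⟩ | ⟨a, e, i, j, x, h1, h2, h3, rfl⟩
  · simp only [Reg, rg, sz] at *
    omega
  · simp only [cl]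
    omega

theorem FF.vd {u v w : Nm} {h p : ℕ} (H : FF D u v w h θ p) : Vd D u ∧ Vd D v ∧ Vd D w := by
  cases H <;> refine ⟨?_, ?_, ?_⟩ <;>
    first
    | exact PG1_vr (by simp only [Reg] at *; omega)
    | exact PG1_vt (by assumption) (by assumption)
    | exact PG1_vc (by assumption) (by assumption) (by assumption)
    | exact PG1_vc (by assumption) (by assumption) (dl_lt _ _ _)
    | exact PG1_vc (by assumption) (by assumption) (b1_lt _ _)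
    | exact PG1_vc (by assumption) (by assumption) (b2_lt _ _)

theorem FF.sh {u v w : Nm} {h p : ℕ} (H : FF D u v w h θ p) : Sh θ := by
  cases H <;> dsimp only [Sh, Reg] at * <;> omega

theorem FF.ne {u v w : Nm} {h p : ℕ} (H : FF D u v w h θ p) : u ≠ v ∧ u ≠ w ∧ v ≠ w := by
  cases H <;> simp only [Reg, rg, tc, cl, ne_eq, Prod.mk.injEq] at * <;> omega

theorem FF.ty {u v w : Nm} {h p gx gy : ℕ} (H : FF D u v w h θ p) (h1 : Sm u) (h2 : Sm v)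
    (h3 : Sm w) (hx : 2 ≤ gx) (hy : 2 ≤ gy) : Ty p h gx gy := by
  cases H with
  | ps a e s p k h4 h5 =>
    rw [sm_rg (by omega)] at h3
    unfold Ty
    omega
  | _ => exact ⟨fun h => absurd h (by omega), fun h => absurd h (by omega)⟩

theorem MF.vd {u' : Nm} (hθ : Sh θ) (h : MF D θ u u' m d) : Vd D u ∧ Vd D u' := by
  cases h with
  | re _ a e kd e' kd' b d k h1 h2 => exact ⟨PG1_vr h1, PG1_vr (h2.reg hθ h1).1⟩
  | gc _ a i h1 => exact ⟨PG1_vt h1.lt (by omega), PG1_vt h1.lt (by omega)⟩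
  | sc a e v w i j x h1 h2 h3 h4 => exact ⟨PG1_vc h1 h2 h3, PG1_vc h1 h2 h3⟩
  | ec a e v w i j h1 h2 h4 => exact ⟨PG1_vt h1 h2, PG1_vt h1 h2⟩

theorem MF.box {u' : Nm} (hθ : Sh θ) (h : MF D θ u u' m d) :
    u.2.1 ≤ m ∧ u.2.2.1 ≤ m ∧ u'.2.1 ≤ m + 1 ∧ u'.2.2.1 ≤ m + 1 := by
  cases h <;> simp only [rg, tc, cl, Dm] at * <;> omega

theorem MF.small {u' : Nm} (hθ : Sh θ) (h : MF D θ u u' m d) (h1 : Sm u) (h2 : Sm u') :
    m ≤ 3 := by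
  cases h with
  | re _ a e kd e' kd' b d k h3 h4 =>
    rw [sm_rg (PG1_kd h3)] at h1
    have := (h4.reg hθ h3).2
    omega
  | gc _ a i h3 =>
    rw [tc, sm_cl] at h1
    omega
  | sc a e v w i j x h3 h4 h5 h6 =>
    rw [sm_cl] at h1
    omega
  | ec a e v w i j h3 h4 h6 =>
    rw [tc, sm_cl] at h1
    omega

end Pool.Agent.P.MP_48d4bc_co.EX.PI
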