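import Pool.Agent.P.MP_48d4bc_co.PG1

set_option autoImplicit false

/-! The operation is functional and the maps are increasing. -/

namespace Pool.Agent.P.MP_48d4bc_co.EX.PI

open Set Function Pool.Agent.Lib.PrimrecProp

variable {D : Dat} {θ : Th}

theorem lt_total (a b : Nm) : Lt a b ∨ a = b ∨ Lt b a := by
  simp only [Lt, Prod.ext_iff]
  omega

/-- the value of the operation -/
def PG2_val (D : Dat) (a b : Nm) : Nm :=
  if a.1 % 16 ≠ 0 then
    if b.1 % 16 = 0 then (a.1 - 3, a.2.1, 0, 0) else (a.1, a.2.1 + 1, 0, 0)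
  else if b.1 % 16 = 0 then (a.1, b.2.1, a.2.2.1, dl D a.2.2.2 b.2.2.2)
  else if b.1 % 16 = 6 then (a.1, a.2.1 + 1, a.2.2.1, a.2.2.2)
  else if b.1 % 16 = 7 then (a.1, a.2.1, a.2.2.1 + 1, a.2.2.2)
  else if b.1 % 16 = 8 then (a.1, a.2.1 + 1, a.2.1 + 1, a.2.2.2)
  else if b.1 % 16 = 13 then (a.1, a.2.1 + 1, 0, b1 D a.2.2.2)
  else if b.1 % 16 = 14 then (a.1, 0, a.2.2.1 + 1, b2 D a.2.2.2)
  else if b.1 % 16 = 5 then
    (a.1, a.2.1 + 1, a.2.1 + 1, X D ((a.1 / 16 - 1) % 3) (a.2.1 + 1) (a.2.1 + 1))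
  else if b.1 % 16 ≤ 10 then
    (a.1, a.2.1 + 1, a.2.2.1, X D ((a.1 / 16 - 1) % 3) (a.2.1 + 1) a.2.2.1)
  else (a.1, a.2.1, a.2.2.1 + 1, X D ((a.1 / 16 - 1) % 3) a.2.1 (a.2.2.1 + 1))

theorem PG2_world {a e : ℕ} (he : e < 2) : ((16 + 48 * a + 16 * e) / 16 - 1) % 3 = e := by omega

theorem PG2_eq {a b c : Nm} {h p : ℕ} (H : FF D a b c h θ p) : c = PG2_val D a b := by
  cases H <;> simp only [PG2_val, rg, cl, tc, Reg] at *
  · rw [if_pos (by omega), if_neg (by omega)]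
  · rw [if_pos (by omega), if_neg (by omega)]
  · rw [if_pos (by omega), if_neg (by omega)]
  · rw [if_pos (by omega), if_neg (by omega)]
  · rw [if_neg (by omega), if_neg (by omega), if_pos (by omega)]
  · rw [if_neg (by omega), if_neg (by omega), if_neg (by omega), if_pos (by omega)]
  · rw [if_neg (by omega), if_neg (by omega), if_neg (by omega), if_neg (by omega),
      if_pos (by omega)]
  · rw [if_neg (by omega), if_pos (by omega)]
  · rw [if_neg (by omega), if_neg (by omega), if_neg (by omega), if_neg (by omega),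
      if_neg (by omega), if_pos (by omega)]
  · rw [if_neg (by omega), if_neg (by omega), if_neg (by omega), if_neg (by omega),
      if_neg (by omega), if_neg (by omega), if_pos (by omega)]
  · rw [if_pos (by omega), if_pos (by omega)]
    simp only [Prod.mk.injEq, and_true]
    omega
  · rw [if_neg (by omega), if_neg (by omega), if_neg (by omega), if_neg (by omega),
      if_neg (by omega), if_neg (by omega), if_neg (by omega), if_neg (by omega),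
      if_pos (by omega), PG2_world (by assumption)]
  · rw [if_neg (by omega), if_neg (by omega), if_neg (by omega), if_neg (by omega),
      if_neg (by omega), if_neg (by omega), if_neg (by omega), if_neg (by omega),
      if_neg (by omega), PG2_world (by assumption)]
  · rw [if_neg (by omega), if_neg (by omega), if_neg (by omega), if_neg (by omega),
      if_neg (by omega), if_neg (by omega), if_neg (by omega), if_pos (by omega),
      PG2_world (by assumption)]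

theorem FF.fn {a b c c' : Nm} {h h' p p' : ℕ} {θ' : Th} (H : FF D a b c h θ p)
    (H' : FF D a b c' h' θ' p') : c = c' := (PG2_eq H).trans (PG2_eq H').symm

/-- the action on first components -/
def PG2_K1 (θ : Th) (s s' : ℕ) : Prop := s' / 48 = s / 48 ∧
  (Cls θ (s / 48) ∧ s' = s + 16 ∨ ¬ Cls θ (s / 48) ∧ (θ.1 = 0 ∧ s' = s ∨
    θ.1 = 1 ∧ s' + 16 * θ.2.2.2.2.1 = s + 16 * θ.2.2.2.2.2 ∨
    θ.1 = 2 ∧ (¬ (θ.2.2.2.1 = 1 ∧ θ.2.2.2.2.1 = 1 ∧ θ.2.2.2.2.2 = 1) ∧ s' = s ∨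
      θ.2.2.2.1 = 1 ∧ θ.2.2.2.2.1 = 1 ∧ θ.2.2.2.2.2 = 1 ∧
        ((s % 16 = 0 ∨ s % 16 = 5) ∧ s' = s ∨ (s % 16 = 9 ∨ s % 16 = 11) ∧ s' = s + 1))))

/-- the action on the indices -/
def PG2_K2 (θ : Th) (u u' : Nm) : Prop :=
  u.1 % 16 ≠ 0 ∧ u'.2.1 = u.2.1 + 1 ∧ u.2.2.1 = 0 ∧ u'.2.2.1 = 0 ∨
  u.1 % 16 = 0 ∧ (Cls θ (u.1 / 48) ∧ u'.2.1 = u.2.1 + 1 ∧ u'.2.2.1 = u.2.2.1 + 1 ∨
    ¬ Cls θ (u.1 / 48) ∧ u'.2.1 = u.2.1 + θ.2.2.2.2.1 ∧ u'.2.2.1 = u.2.2.1 + θ.2.2.2.2.2)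

/-- true cells are moved -/
def PG2_T (θ : Th) (s : ℕ) : Prop := s % 16 = 0 ∧ (Cls θ (s / 48) ∨ θ.2.2.2.1 = 1)

/-- the true symbol -/
def PG2_X (D : Dat) (u : Nm) : ℕ := X D ((u.1 / 16 - 1) % 3) u.2.1 u.2.2.1

theorem PG2_rm {a e kd e' kd' b d : ℕ} (hθ : Sh θ) (hr : Reg a e kd)
    (h : RM θ a e kd e' kd' b d) :
    PG2_K1 θ (1 + 48 * a + 16 * e + kd) (1 + 48 * a + 16 * e' + kd') := by
  have h1 := (RM.reg hθ hr h).1
  have h2 : (1 + 48 * a + 16 * e + kd) / 48 = a := by unfold Reg at hr; omega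
  have h3 : (1 + 48 * a + 16 * e' + kd') / 48 = a := by unfold Reg at h1; omega
  have h4 : (1 + 48 * a + 16 * e + kd) % 16 = 1 + kd := by unfold Reg at hr; omega
  have h5 : θ.2.1 < 4 := by simp only [Sh, Reg] at hθ; omega
  rw [PG2_K1, h2, h3, h4]
  refine ⟨rfl, ?_⟩
  clear h1 h2 h3 h4 hr hθ
  rcases h with h | h | h | h | h
  · exact Or.inl ⟨h.1, by omega⟩
  · exact Or.inr ⟨by unfold Cls; omega, Or.inl ⟨h.1, by omega⟩⟩
  · exact Or.inr ⟨by unfold Cls; omega, Or.inl ⟨h.1, by omega⟩⟩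
  · exact Or.inr ⟨by unfold Cls; omega, Or.inr (Or.inl ⟨h.1, by omega⟩)⟩
  · obtain ⟨h1, h2, -, rfl, -, -, h⟩ := h
    refine Or.inr ⟨by unfold Cls; omega, Or.inr (Or.inr ⟨h1, ?_⟩)⟩
    rcases h with h | ⟨g1, g2, g3, h⟩ | h | h
    · exact Or.inl ⟨by omega, by omega⟩
    · exact Or.inr ⟨g1, g2, g3, by omega⟩
    · exact Or.inl ⟨by omega, by omega⟩
    · exact Or.inl ⟨by omega, by omega⟩

theorem PG2_key {u u' : Nm} {m d : ℕ} (hθ : Sh θ) (h : MF D θ u u' m d) :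
    PG2_K1 θ u.1 u'.1 ∧ PG2_K2 θ u u' ∧
      (PG2_T θ u.1 ∧ u.2.2.2 = PG2_X D u ∧ u'.2.2.2 = PG2_X D u' ∨
        ¬ PG2_T θ u.1 ∧ u'.2.2.2 = u.2.2.2 ∧ (u.1 % 16 ≠ 0 → u.2.2.2 = 0)) := by
  cases h with
  | re θ a e kd e' kd' b d k hr h =>
    have h4 : (1 + 48 * a + 16 * e + kd) % 16 ≠ 0 := by unfold Reg at hr; omega
    exact ⟨PG2_rm hθ hr h, Or.inl ⟨h4, rfl, rfl, rfl⟩, Or.inr ⟨fun h => h4 h.1, rfl, fun _ => rfl⟩⟩
  | gc θ a i h =>
    have h2 : (16 + 48 * a + 16 * 0) / 48 = a := by omega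
    have h4 : (16 + 48 * a + 16 * 0) % 16 = 0 := by omega
    simp only [PG2_K1, PG2_K2, PG2_T, PG2_X, tc, cl, h2, h4, h,
      PG2_world (a := a) zero_lt_two, PG2_world (a := a) one_lt_two]
    simp only [true_and, and_true, true_or, or_true, not_true, false_and, or_false]
    omega
  | sc a e v w i j x ha he hx h =>
    have h2 : (16 + 48 * a + 16 * e) / 48 = a := by omega
    have h4 : (16 + 48 * a + 16 * e) % 16 = 0 := by omega
    have h5 : ¬ Cls (2, a, e, 0, v, w) a := by simp only [Cls]; omega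
    simp [PG2_K1, PG2_K2, PG2_T, cl, h2, h4, h5]
  | ec a e v w i j ha he h =>
    have h2 : (16 + 48 * a + 16 * e) / 48 = a := by omega
    have h4 : (16 + 48 * a + 16 * e) % 16 = 0 := by omega
    have h5 : ¬ Cls (2, a, e, 1, v, w) a := by simp only [Cls]; omega
    simp only [PG2_K1, PG2_K2, PG2_T, PG2_X, tc, cl, h2, h4, h5, PG2_world (a := a) he]
    simp only [true_and, and_true, true_or, or_true, not_true, false_and, or_false, false_or,
      not_false_iff]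
    omega

theorem PG2_lt {s s' r r' : ℕ} (h : PG2_K1 θ s s') (h' : PG2_K1 θ r r') :
    (s < r → s' < r') ∧ (s = r → s' = r') := by
  unfold PG2_K1 at h h'
  by_cases hz : s / 48 = r / 48
  · rw [hz] at h
    by_cases hc : Cls θ (r / 48)
    · simp only [hc, true_and, not_true, false_and, or_false] at h h'
      omega
    · simp only [hc, false_and, false_or, not_false_iff, true_and] at h h'
      omega
  · have h1 := h.1
    have h2 := h'.1
    clear h h'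
    omega

theorem PG2_idx {a a' b b' : Nm} (h : PG2_K2 θ a a') (h' : PG2_K2 θ b b') (he : a.1 = b.1) :
    (a.2.1 < b.2.1 → a'.2.1 < b'.2.1) ∧ (a.2.1 = b.2.1 → a'.2.1 = b'.2.1) ∧
    (a.2.2.1 < b.2.2.1 → a'.2.2.1 < b'.2.2.1) ∧ (a.2.2.1 = b.2.2.1 → a'.2.2.1 = b'.2.2.1) := by
  unfold PG2_K2 at h h'
  rw [he] at h
  by_cases hc : Cls θ (b.1 / 48)
  · simp only [hc, true_and, not_true, false_and, or_false] at h h'
    omega
  · simp only [hc, false_and, false_or, not_false_iff, true_and] at h h'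
    omega

theorem PG2_Xc {a b : Nm} (h1 : a.1 = b.1) (h2 : a.2.1 = b.2.1) (h3 : a.2.2.1 = b.2.2.1) :
    PG2_X D a = PG2_X D b := by rw [PG2_X, PG2_X, h1, h2, h3]

theorem MF.fn {a u u' : Nm} {m d m' d' : ℕ} (hθ : Sh θ) (h : MF D θ a u m d)
    (h' : MF D θ a u' m' d') : u = u' := by
  obtain ⟨a1, a2, a3⟩ := PG2_key hθ h
  obtain ⟨b1, b2, b3⟩ := PG2_key hθ h'
  have e1 := (PG2_lt a1 b1).2 rfl
  obtain ⟨-, e2, -, e3⟩ := PG2_idx a2 b2 rfl
  refine Prod.ext e1 (Prod.ext (e2 rfl) (Prod.ext (e3 rfl) ?_))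
  rcases a3 with a3 | a3 <;> rcases b3 with b3 | b3
  · rw [a3.2.2, b3.2.2, PG2_Xc e1 (e2 rfl) (e3 rfl)]
  · exact absurd a3.1 b3.1
  · exact absurd b3.1 a3.1
  · rw [a3.2.1, b3.2.1]

theorem MF.mono {a a' b b' : Nm} {m d m' d' : ℕ} (hθ : Sh θ) (h : MF D θ a a' m d)
    (h' : MF D θ b b' m' d') (hl : Lt a b) : Lt a' b' := by
  obtain ⟨a1, a2, a3⟩ := PG2_key hθ h
  obtain ⟨b1, b2, b3⟩ := PG2_key hθ h'
  obtain ⟨l1, e1⟩ := PG2_lt a1 b1
  rcases hl with hl | ⟨c1, hl⟩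
  · exact Or.inl (l1 hl)
  obtain ⟨l2, e2, l3, e3⟩ := PG2_idx a2 b2 c1
  refine Or.inr ⟨e1 c1, ?_⟩
  rcases hl with hl | ⟨c2, hl⟩
  · exact Or.inl (l2 hl)
  refine Or.inr ⟨e2 c2, ?_⟩
  rcases hl with hl | ⟨c3, hl⟩
  · exact Or.inl (l3 hl)
  refine Or.inr ⟨e3 c3, ?_⟩
  rw [c1] at a3
  rcases a3 with a3 | a3 <;> rcases b3 with b3 | b3
  · rw [a3.2.1, b3.2.1, PG2_Xc c1 c2 c3] at hl
    exact absurd hl (lt_irrefl _)
  · exact absurd a3.1 b3.1
  · exact absurd b3.1 a3.1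
  · rw [a3.2.1, b3.2.1]
    exact hl

theorem PG2_irr (a : Nm) : ¬ Lt a a := by
  simp only [Lt]
  omega

theorem MF.bij {a a' b b' : Nm} {m d m' d' : ℕ} (hθ : Sh θ) (h : MF D θ a a' m d)
    (h' : MF D θ b b' m' d') : a = b ↔ a' = b' := by
  refine ⟨fun e => MF.fn hθ h (e ▸ h'), fun e => ?_⟩
  subst e
  rcases lt_total a b with hl | hl | hl
  · exact absurd (MF.mono hθ h h' hl) (PG2_irr _)
  · exact hl
  · exact absurd (MF.mono hθ h' h hl) (PG2_irr _)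

end Pool.Agent.P.MP_48d4bc_co.EX.PI
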