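import Mathlib

set_option autoImplicit false

/-! Runs that are restarted whenever they halt; machines with two stacks. -/

namespace Pool.Agent.P.MP_48d4bc_co.EX.PI

open StateTransition Function

/-- the run halts after every restart -/
def Co {A : Type} (f : A → Option A) (ρ : A → A) (a : A) : Prop :=
  ∃ I : Set A, a ∈ I ∧ ∀ x ∈ I, ∃ b ∈ eval f x, ρ b ∈ I

/-- one step or a restart -/
def tot {A : Type} (f : A → Option A) (ρ : A → A) (a : A) : A := (f a).getD (ρ a)

/-- pop, keep, push -/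
def act {G : Type} (o : Option (Option G)) (l : ℕ → G) (p : ℕ) : G :=
  match o with
  | none => l (p + 1)
  | some none => l p
  | some (some g) => if p = 0 then g else l (p - 1)

/-- machines with two stacks -/
structure SM (Q G : Type) where
  /-- next state from the state and the two top symbols -/
  δ : Q → G → G → Q
  /-- action on the first stack -/
  α : Q → Option (Option G)
  /-- action on the second stack -/
  β : Q → Option (Option G)
  /-- marked states -/
  mark : Q → Bool

/-- one step -/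
def SM.step {Q G : Type} (M : SM Q G) (c : Q × (ℕ → G) × (ℕ → G)) : Q × (ℕ → G) × (ℕ → G) :=
  (M.δ c.1 (c.2.1 0) (c.2.2 0), act (M.α c.1) c.2.1, act (M.β c.1) c.2.2)

theorem PM1_none {A : Type} {f : A → Option A} (ρ : A → A) {a : A} (h : f a = none) :
    tot f ρ a = ρ a := by
  rw [tot, h, Option.getD_none]

theorem PM1_some {A : Type} {f : A → Option A} (ρ : A → A) {a b : A} (h : f a = some b) :
    tot f ρ a = b := by
  rw [tot, h, Option.getD_some]

theorem PM1_reach {A : Type} {f : A → Option A} (ρ : A → A) {a b : A} (h : Reaches f a b) :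
    ∃ k, (tot f ρ)^[k] a = b := by
  induction h with
  | refl => exact ⟨0, rfl⟩
  | tail _ e ih =>
    obtain ⟨k, hk⟩ := ih
    exact ⟨k + 1, by rw [iterate_succ_apply', hk, PM1_some ρ e]⟩

theorem PM1_halt {A : Type} {f : A → Option A} (ρ : A → A) (j : ℕ) :
    ∀ a, f ((tot f ρ)^[j] a) = none → ∃ b, b ∈ eval f a := by
  induction j with
  | zero => exact fun a h => ⟨a, mem_eval.2 ⟨Relation.ReflTransGen.refl, h⟩⟩
  | succ j ih =>
    intro a h
    rcases e : f a with - | y
    · exact ⟨a, mem_eval.2 ⟨Relation.ReflTransGen.refl, e⟩⟩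
    · rw [iterate_succ_apply, PM1_some ρ e] at h
      rw [reaches_eval (Relation.ReflTransGen.single (show y ∈ f a from e))]
      exact ih y h

theorem co_tr {A B : Type} {f : A → Option A} {g : B → Option B} {tr : A → B → Prop}
    (H : Respects f g tr) {ρ : A → A} {ρ' : B → B}
    (hρ : ∀ a b, tr a b → f a = none → tr (ρ a) (ρ' b)) {a : A} {b : B} (h : tr a b) :
    Co g ρ' b ↔ Co f ρ a := by
  constructor
  · rintro ⟨I, hb, hI⟩
    refine ⟨{x | ∃ y ∈ I, tr x y}, ⟨b, hb, h⟩, ?_⟩
    rintro x ⟨y, hy, e⟩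
    obtain ⟨y', h1, h2⟩ := hI y hy
    obtain ⟨x', h3, h4⟩ := tr_eval_rev H e h1
    exact ⟨x', h4, _, h2, hρ _ _ h3 (mem_eval.1 h4).2⟩
  · rintro ⟨I, ha, hI⟩
    refine ⟨{y | ∃ x ∈ I, tr x y}, ⟨a, ha, h⟩, ?_⟩
    rintro y ⟨x, hx, e⟩
    obtain ⟨x', h1, h2⟩ := hI x hx
    obtain ⟨y', h3, h4⟩ := tr_eval H e h1
    exact ⟨y', h4, _, h2, hρ _ _ h3 (mem_eval.1 h1).2⟩

theorem co_iff {A : Type} (f : A → Option A) (ρ : A → A) (a : A) :
    Co f ρ a ↔ ∀ t, ∃ j, t ≤ j ∧ f ((tot f ρ)^[j] a) = none := by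
  constructor
  · rintro ⟨I, ha, hI⟩
    have h1 : ∀ j, (tot f ρ)^[j] a ∈ I → ∃ k, f ((tot f ρ)^[k + j] a) = none ∧
        (tot f ρ)^[k + j + 1] a ∈ I := fun j hj => by
      obtain ⟨b, hb, hb'⟩ := hI _ hj
      obtain ⟨k, hk⟩ := PM1_reach ρ (mem_eval.1 hb).1
      have e := (mem_eval.1 hb).2
      exact ⟨k, by rwa [iterate_add_apply, hk],
        by rwa [iterate_succ_apply', iterate_add_apply, hk, PM1_none ρ e]⟩
    have h2 : ∀ t, ∃ j, t ≤ j ∧ (tot f ρ)^[j] a ∈ I := fun t => by
      induction t with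
      | zero => exact ⟨0, le_rfl, ha⟩
      | succ t ih =>
        obtain ⟨j, hj, hj'⟩ := ih
        obtain ⟨k, -, hk⟩ := h1 j hj'
        exact ⟨k + j + 1, by omega, hk⟩
    intro t
    obtain ⟨j, hj, hj'⟩ := h2 t
    obtain ⟨k, hk, -⟩ := h1 j hj'
    exact ⟨k + j, by omega, hk⟩
  · intro h
    refine ⟨{x | ∀ t, ∃ j, t ≤ j ∧ f ((tot f ρ)^[j] x) = none}, h, fun x hx => ?_⟩
    obtain ⟨j0, -, h0⟩ := hx 0
    obtain ⟨b, hb⟩ := PM1_halt ρ j0 x h0
    obtain ⟨k, hk⟩ := PM1_reach ρ (mem_eval.1 hb).1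
    refine ⟨b, hb, fun t => ?_⟩
    obtain ⟨j, hj, hj'⟩ := hx (t + (k + 1))
    obtain ⟨i, rfl⟩ : ∃ i, j = i + (k + 1) := ⟨j - (k + 1), by omega⟩
    rw [iterate_add_apply, iterate_succ_apply', hk, PM1_none ρ (mem_eval.1 hb).2] at hj'
    exact ⟨i, by omega, hj'⟩

/-- the machine with two stacks that simulates a Turing machine -/
def PM1_sm {G Λ P : Type} [Inhabited G] [Inhabited Λ] (M : Turing.TM0.Machine G Λ) (v : P → Λ)
    (w : Λ → P) (ρ : Λ → Λ) (c₀ : G) : SM (Option (P × G)) G where
  δ s x y := match s with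
    | none => some (w default, c₀)
    | some (q, a) => match M (v q) a with
      | none => some (w (ρ (v q)), a)
      | some (q', .move .left) => some (w q', x)
      | some (q', .move .right) => some (w q', y)
      | some (q', .write b) => some (w q', b)
  α s := match s with
    | none => some none
    | some (q, a) => match M (v q) a with
      | none => some none
      | some (_, .move .left) => none
      | some (_, .move .right) => some (some a)
      | some (_, .write _) => some none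
  β s := match s with
    | none => some none
    | some (q, a) => match M (v q) a with
      | none => some none
      | some (_, .move .left) => some (some a)
      | some (_, .move .right) => none
      | some (_, .write _) => some none
  mark s := match s with
    | none => false
    | some (q, a) => (M (v q) a).isNone

/-- the code of a configuration -/
def PM1_enc {G Λ P : Type} [Inhabited G] (w : Λ → P) (c : Turing.TM0.Cfg G Λ) :
    Option (P × G) × (ℕ → G) × (ℕ → G) :=
  (some (w c.q, c.Tape.head), c.Tape.left.nth, c.Tape.right.nth)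

theorem PM1_keep {G : Type} (l : ℕ → G) : act (some none) l = l := rfl

theorem PM1_pop {G : Type} [Inhabited G] (L : Turing.ListBlank G) : act none L.nth = L.tail.nth :=
  funext fun p => L.nth_succ p

theorem PM1_push {G : Type} [Inhabited G] (L : Turing.ListBlank G) (a : G) :
    act (some (some a)) L.nth = (L.cons a).nth := by
  funext p
  cases p <;> simp [act]

theorem PM1_step {G Λ P : Type} [Inhabited G] [Inhabited Λ] (M : Turing.TM0.Machine G Λ)
    (v : P → Λ) (w : Λ → P) (ρ : Λ → Λ) (c₀ : G) (c : Turing.TM0.Cfg G Λ) (h : v (w c.q) = c.q) :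
    (PM1_sm M v w ρ c₀).step (PM1_enc w c) =
      PM1_enc w (tot (Turing.TM0.step M) (fun c => ⟨ρ c.q, c.Tape⟩) c) := by
  obtain ⟨q, a, L, R⟩ := c
  dsimp only at h
  simp only [SM.step, PM1_sm, PM1_enc, tot, Turing.TM0.step, h]
  rcases M q a with - | ⟨q', (- | -) | b⟩ <;>
    simp [PM1_keep, PM1_pop, PM1_push, Turing.Tape.move, Turing.Tape.write]

theorem exists_sm {G Λ : Type} [Inhabited G] [Inhabited Λ] [Finite G] (M : Turing.TM0.Machine G Λ)
    (S : Finset Λ) (hS : Turing.TM0.Supports M S) (ρ : Λ → Λ) (hρ : ∀ q ∈ S, ρ q ∈ S) (c₀ : G) :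
    ∃ (Q : Type) (_ : Finite Q) (N : SM Q G) (q0 q1 : Q),
      (∀ l r, N.step (q1, l, r) = (q0, l, r)) ∧ ∀ (R : List G) (j : ℕ),
        N.mark (N.step^[j] (q0, fun _ => default, fun p => R.getD p default)).1 = true ↔
          Turing.TM0.step M ((tot (Turing.TM0.step M) fun c => ⟨ρ c.q, c.Tape⟩)^[j]
            (Turing.TM0.init (c₀ :: R))) = none := by
  classical
  let w : Λ → S := fun q => if h : q ∈ S then ⟨q, h⟩ else ⟨default, hS.1⟩
  have hw : ∀ q ∈ S, (w q).1 = q := fun q hq => by simp only [w, dif_pos hq]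
  refine ⟨Option (S × G), inferInstance, PM1_sm M Subtype.val w ρ c₀, some (w default, c₀), none,
    fun l r => rfl, fun R j => ?_⟩
  have e0 : ((some (w default, c₀), fun _ => default, fun p => R.getD p default) :
      Option (S × G) × (ℕ → G) × (ℕ → G)) = PM1_enc w (Turing.TM0.init (c₀ :: R)) := by
    simp only [PM1_enc, Turing.TM0.init, Turing.Tape.mk₁, Turing.Tape.mk₂, Turing.Tape.mk']
    refine Prod.ext rfl (Prod.ext (funext fun p => ?_) (funext fun p => ?_))
    · simp
    · simp [List.getI]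
  have key : ∀ j, (PM1_sm M Subtype.val w ρ c₀).step^[j] (PM1_enc w (Turing.TM0.init (c₀ :: R))) =
      PM1_enc w ((tot (Turing.TM0.step M) fun c => ⟨ρ c.q, c.Tape⟩)^[j]
        (Turing.TM0.init (c₀ :: R))) ∧ ((tot (Turing.TM0.step M) fun c => ⟨ρ c.q, c.Tape⟩)^[j]
        (Turing.TM0.init (c₀ :: R))).q ∈ S := fun j => by
    induction j with
    | zero => exact ⟨rfl, hS.1⟩
    | succ j ih =>
      rw [iterate_succ_apply', iterate_succ_apply', ih.1]
      refine ⟨PM1_step M _ w ρ c₀ _ (hw _ ih.2), ?_⟩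
      have h2 := ih.2
      generalize (tot (Turing.TM0.step M) fun c => ⟨ρ c.q, c.Tape⟩)^[j]
        (Turing.TM0.init (c₀ :: R)) = c at h2 ⊢
      rcases e : Turing.TM0.step M c with - | c'
      · rw [PM1_none _ e]
        exact hρ _ h2
      · rw [PM1_some _ e]
        exact Turing.TM0.step_supports M hS (show c' ∈ _ from e) h2
  rw [e0, (key j).1]
  have h2 := (key j).2
  generalize (tot (Turing.TM0.step M) fun c => ⟨ρ c.q, c.Tape⟩)^[j]
    (Turing.TM0.init (c₀ :: R)) = c at h2 ⊢
  obtain ⟨q, T⟩ := c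
  simp [PM1_sm, PM1_enc, Turing.TM0.step, hw q h2]

end Pool.Agent.P.MP_48d4bc_co.EX.PI
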