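import Pool.Agent.P.MP_48d4bc_co.PM1

set_option autoImplicit false

/-! The grid of a machine with two stacks. -/

namespace Pool.Agent.P.MP_48d4bc_co.EX.PI

open Function

/-- a grid over any set of symbols -/
def Gr {S : Type} (d : S → S → S) (u v : S → S) (s : S) : ℕ → ℕ → S
  | 0, 0 => s
  | i + 1, 0 => u (Gr d u v s i 0)
  | 0, j + 1 => v (Gr d u v s 0 j)
  | i + 1, j + 1 => d (Gr d u v s i (j + 1)) (Gr d u v s (i + 1) j)

theorem Gr_realize : True := by have := @Gr.eq_def; trivial

/-- contents of a cell: on the diagonal or not, state, windows of the two stacks -/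
abbrev Ce (Q G : Type) := Option (Bool × Q × (G × G × G) × G × G × G)

variable {Q G : Type}

/-- a window of a stack -/
def win (l : ℕ → G) (p : ℕ) : G × G × G := (l p, l (p - 1), l (p - 2))

/-- the new symbol from the window below; `g` says that the cell is on the diagonal -/
def nw (o : Option (Option G)) (g : Bool) (w : G × G × G) : G :=
  match o with
  | none => w.1
  | some none => w.2.1
  | some (some a) => cond g a w.2.2

/-- the rule on contents: left neighbour and lower neighbour -/
def cd (M : SM Q G) : Ce Q G → Ce Q G → Ce Q G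
  | none, some (false, q, l, r) => some (true, M.δ q l.2.1 r.2.1,
      (nw (M.α q) true l, nw (M.α q) true l, nw (M.α q) true l),
      nw (M.β q) true r, nw (M.β q) true r, nw (M.β q) true r)
  | some (_, q', l', r'), some (false, q, l, r) => some (false, q',
      (nw (M.α q) false l, l'.1, l'.2.1), nw (M.β q) false r, r'.1, r'.2.1)
  | _, _ => none

/-- the rule on the first row: state and first window are kept, the second window is given -/
def cu (c : Ce Q G) (w : G × G × G) : Ce Q G := c.map fun z => (false, z.2.1, z.2.2.1, w)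

/-- the grid of the run from state `q` with input `r`, constant from `L` on -/
def grid (M : SM Q G) (b : G) (r : ℕ → G) (L : ℕ) (q : Q) : ℕ → ℕ → ℕ × Ce Q G :=
  Gr (fun x y => (0, cd M x.2 y.2)) (fun x => (min (x.1 + 1) (L + 2), cu x.2 (win r (x.1 + 1))))
    (fun _ => (0, none)) (0, some (true, q, (b, b, b), win r 0))

theorem PM3_ss (M : SM Q G) (b : G) (r : ℕ → G) (L : ℕ) (q : Q) (i j : ℕ) :
    grid M b r L q (i + 1) (j + 1) =
      (0, cd M (grid M b r L q i (j + 1)).2 (grid M b r L q (i + 1) j).2) := by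
  unfold grid
  rw [Gr]

theorem PM3_0s (M : SM Q G) (b : G) (r : ℕ → G) (L : ℕ) (q : Q) (j : ℕ) :
    grid M b r L q 0 (j + 1) = (0, none) := by
  unfold grid
  rw [Gr]

theorem PM3_s0 (M : SM Q G) (b : G) (r : ℕ → G) (L : ℕ) (q : Q) (i : ℕ) :
    grid M b r L q (i + 1) 0 = (min ((grid M b r L q i 0).1 + 1) (L + 2),
      cu (grid M b r L q i 0).2 (win r ((grid M b r L q i 0).1 + 1))) := by
  unfold grid
  rw [Gr]

theorem PM3_00 (M : SM Q G) (b : G) (r : ℕ → G) (L : ℕ) (q : Q) :
    grid M b r L q 0 0 = (0, some (true, q, (b, b, b), win r 0)) := by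
  unfold grid
  rw [Gr]

theorem grid_le (M : SM Q G) (b : G) (r : ℕ → G) (L : ℕ) (q : Q) (i j : ℕ) :
    (grid M b r L q i j).1 ≤ L + 2 := by
  rcases i with _ | i <;> rcases j with _ | j
  · rw [PM3_00]
    exact Nat.zero_le _
  · rw [PM3_0s]
    exact Nat.zero_le _
  · rw [PM3_s0]
    exact min_le_right _ _
  · rw [PM3_ss]
    exact Nat.zero_le _

theorem PM3_row (M : SM Q G) (b : G) (r : ℕ → G) (L : ℕ) (hr : ∀ p, L ≤ p → r p = b) (q : Q)
    (i : ℕ) : grid M b r L q i 0 =
      (min i (L + 2), some (decide (i = 0), q, (b, b, b), win r i)) := by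
  induction i with
  | zero => rw [PM3_00]; rfl
  | succ i ih =>
    rw [PM3_s0, ih]
    have h1 : min (min i (L + 2) + 1) (L + 2) = min (i + 1) (L + 2) := by omega
    have h2 : win r (min i (L + 2) + 1) = win r (i + 1) := by
      rcases le_total i (L + 2) with h | h
      · rw [min_eq_left h]
      · rw [min_eq_right h]
        unfold win
        rw [hr (L + 2 + 1) (by omega), hr (L + 2 + 1 - 1) (by omega),
          hr (L + 2 + 1 - 2) (by omega), hr (i + 1) (by omega), hr (i + 1 - 1) (by omega),
          hr (i + 1 - 2) (by omega)]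
    simp only [h1, h2]
    rfl

theorem PM3_nw0 (o : Option (Option G)) (l : ℕ → G) : nw o true (win l 1) = act o l 0 := by
  rcases o with _ | _ | a <;> rfl

theorem PM3_nw1 (o : Option (Option G)) (l : ℕ → G) (p : ℕ) :
    nw o false (win l (p + 2)) = act o l (p + 1) := by
  rcases o with _ | _ | a <;> rfl

theorem PM3_inv (M : SM Q G) (b : G) (r : ℕ → G) (L : ℕ) (hr : ∀ p, L ≤ p → r p = b) (q : Q)
    (j : ℕ) : (∀ i, i < j → (grid M b r L q i j).2 = none) ∧ ∀ p, (grid M b r L q (j + p) j).2 =
      some (decide (p = 0), (M.step^[j] (q, fun _ => b, r)).1,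
        win (M.step^[j] (q, fun _ => b, r)).2.1 p, win (M.step^[j] (q, fun _ => b, r)).2.2 p) := by
  induction j with
  | zero =>
    refine ⟨fun i h => absurd h (Nat.not_lt_zero i), fun p => ?_⟩
    rw [Nat.zero_add, PM3_row M b r L hr]
    rfl
  | succ j ih =>
    obtain ⟨h1, h2⟩ := ih
    have h3 : ∀ i, i < j + 1 → (grid M b r L q i (j + 1)).2 = none := by
      intro i
      induction i with
      | zero => exact fun _ => by rw [PM3_0s]
      | succ i ih =>
        intro h
        rw [PM3_ss, ih (by omega)]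
        rcases Nat.lt_or_ge (i + 1) j with h' | h'
        · rw [h1 _ h']
          rfl
        · obtain rfl : j = i + 1 := by omega
          rw [show (grid M b r L q (i + 1) (i + 1)).2 = _ from h2 0]
          rfl
    refine ⟨h3, fun p => ?_⟩
    rw [iterate_succ_apply']
    generalize M.step^[j] (q, fun _ => b, r) = c at h2 ⊢
    induction p with
    | zero =>
      rw [Nat.add_zero, PM3_ss, h3 j (Nat.lt_succ_self j), h2 1]
      simp only [cd, Nat.succ_ne_zero, decide_false, PM3_nw0]
      rfl
    | succ p ih =>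
      rw [← Nat.add_assoc, PM3_ss, ih, show j + 1 + p + 1 = j + (p + 2) by omega, h2 (p + 2)]
      simp only [cd, Nat.succ_ne_zero, decide_false, PM3_nw1]
      rfl

theorem grid_diag (M : SM Q G) (b : G) (r : ℕ → G) (L : ℕ) (hr : ∀ p, L ≤ p → r p = b) (q : Q)
    (j : ℕ) : ∃ w, (grid M b r L q j j).2 = some (true, (M.step^[j] (q, fun _ => b, r)).1, w) :=
  ⟨_, (PM3_inv M b r L hr q j).2 0⟩

end Pool.Agent.P.MP_48d4bc_co.EX.PI
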