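import Pool.Agent.P.MP_48d4bc_co.EXUn2

set_option autoImplicit false

/-! Colourings of ordered pairs are constant on the glue edges; three colours for a map. -/

namespace Pool.Agent.P.MP_48d4bc_co.EX.PI

open Set Function Pool.Agent.Lib.PrimrecProp

universe u

theorem mono_edges {S : Sig} (h : S.WF) (h1 : Sig.P1.{u} S) (κ : Type) [Finite κ] [Nonempty κ] :
    ∃ (W : Type u) (f : W → W → Option W), ∀ χ : W → W → κ, ∃ φ : Vx → W, InjOn φ S.Valid ∧
      (∀ i < S.glue.length, ∀ s, (∀ p ∈ S.facts,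
        f (φ (S.vtx i s p.1)) (φ (S.vtx i s p.2.1)) = some (φ (S.vtx i s p.2.2))) ∧
        ∀ a ∈ S.names, (S.tm a).ev f (S.ge φ i s).1 (S.ge φ i s).2 = some (φ (S.vtx i s a))) ∧
      ∀ i < S.glue.length, ∀ s, ∀ i' < S.glue.length, ∀ s',
        χ (S.ge φ i s).1 (S.ge φ i s).2 = χ (S.ge φ i' s').1 (S.ge φ i' s').2 := by
  let tA : Tm := .f .x (.f .x .y)
  let tB : Tm := .f .y .x
  have hne : Nonempty (Sym2 (κ × Prop)) :=
    ⟨s((Classical.arbitrary κ, True), (Classical.arbitrary κ, True))⟩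
  obtain ⟨W, H, hH, hc⟩ := h1 (Sym2 (κ × Prop))
  obtain ⟨f, hf⟩ := h.facts_hold hH
  refine ⟨W, f, fun χ => ?_⟩
  let χ' : W → W → κ × Prop := fun u v => (χ u v, Same f (u, v) (u, v) tA tB)
  obtain ⟨φ, k, hinj, he⟩ := hc (Sym2.lift
    ⟨fun u v => s(χ' u v, χ' v u), fun _ _ => Sym2.eq_swap⟩)
  have hφ := hf φ hinj fun e h => (he e h).1
  obtain ⟨a1, a2, a3, a4⟩ := EXUn2_marks S
  have hk : ∀ i < S.glue.length, ∀ s,
      s(χ' (φ (S.vtx i s nx)) (φ (S.vtx i s ny)), χ' (φ (S.vtx i s ny)) (φ (S.vtx i s nx))) = k :=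
    fun i hi s => (he _ (Sig.mem_edges.2 ⟨i, hi, s, Or.inl rfl⟩)).2
  refine ⟨φ, hinj, hφ, fun i hi s i' hi' s' => ?_⟩
  rcases Sym2.eq_iff.1 ((hk i hi s).trans (hk i' hi' s').symm) with ⟨e, -⟩ | ⟨e, -⟩
  · exact congrArg Prod.fst e
  · exfalso
    have h2 : (χ' (φ (S.vtx i s nx)) (φ (S.vtx i s ny))).2 := by
      have b1 := (hφ i hi s).1 _ a1
      have b2 := (hφ i hi s).1 _ a2
      have b3 := (hφ i hi s).1 _ a3
      refine ⟨φ (S.vtx i s m2), ?_, ?_⟩
      · simp only [tA, Tm.ev, Option.bind_some] at b1 b3 ⊢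
        rw [b1, Option.bind_some, b3]
      · simp only [tB, Tm.ev, Option.bind_some] at b2 ⊢
        exact b2
    rw [e] at h2
    obtain ⟨w, w1, w2⟩ := h2
    have b1 := (hφ i' hi' s').1 _ a1
    have b2 := (hφ i' hi' s').1 _ a2
    have b4 := (hφ i' hi' s').1 _ a4
    simp only [tA, tB, Tm.ev, Option.bind_some] at w1 w2 b1 b2 b4
    rw [b2, Option.bind_some, b4] at w1
    rw [b1, ← w1, Option.some_inj] at w2
    have h3 := hinj (Sig.vtx_valid hi' s' (by simp [Sig.names, namesOf]))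
      (Sig.vtx_valid hi' s' (by simp [Sig.names, namesOf])) w2
    rcases (h.vtx_eq.1 h3).2 with ⟨-, h4⟩ | ⟨h4, h5, -⟩ | ⟨h4, h5, -⟩
    · simp [m1, m3] at h4
    · rw [h4] at h5
      exact Bool.noConfusion h5
    · rw [h4] at h5
      exact Bool.noConfusion h5

theorem PR1_fin {Y : Type u} (g : Y → Y) (s : Finset Y) :
    ∃ c : Y → Fin 3, ∀ y ∈ s, g y ≠ y → c (g y) ≠ c y := by
  classical
  induction s using Finset.strongInduction with
  | H s ih =>
    rcases s.eq_empty_or_nonempty with rfl | hs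
    · exact ⟨fun _ => 0, by simp⟩
    obtain ⟨z, hz, hc⟩ := Finset.exists_card_fiber_lt_of_card_lt_mul (s := s) (t := s) (f := g)
      (n := 2) (by have := hs.card_pos; omega)
    have hne : Nonempty Y := ⟨z⟩
    obtain ⟨w, hw⟩ := Finset.card_le_one_iff_subset_singleton.1 (Nat.lt_succ_iff.1 hc)
    obtain ⟨c, hc'⟩ := ih (s.erase z) (Finset.erase_ssubset hz)
    obtain ⟨k, k1, k2⟩ : ∃ k : Fin 3, k ≠ c (g z) ∧ k ≠ c w := by
      generalize c (g z) = a
      generalize c w = b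
      revert a b
      decide
    refine ⟨update c z k, fun y hy hg => ?_⟩
    by_cases h1 : y = z
    · subst h1
      rw [update_of_ne hg, update_self]
      exact k1.symm
    · rw [update_of_ne h1]
      by_cases h2 : g y = z
      · have h3 : y = w := Finset.mem_singleton.1 (hw (Finset.mem_filter.2 ⟨hy, h2⟩))
        rw [h2, update_self, h3]
        exact k2
      · rw [update_of_ne h2]
        exact hc' y (Finset.mem_erase.2 ⟨h1, hy⟩) hg

theorem three_col {Y : Type u} (g : Y → Y) :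
    ∃ c : Y → Fin 3, ∀ y, g y ≠ y → c (g y) ≠ c y := by
  classical
  choose c hc using PR1_fin g
  obtain ⟨χ, hχ⟩ := Finset.rado_selection (β := fun _ => Fin 3) c
  refine ⟨χ, fun y hy => ?_⟩
  obtain ⟨t, ht, h⟩ := hχ {y, g y}
  rw [h y (by simp), h (g y) (by simp)]
  exact hc t y (ht (by simp)) hy

end Pool.Agent.P.MP_48d4bc_co.EX.PI
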