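import Pool.Agent.P.MP_48d4bc_co.PG1

set_option autoImplicit false

/-! Links along a glued pair. -/

namespace Pool.Agent.P.MP_48d4bc_co.EX.PI

open Set Function Pool.Agent.Lib.PrimrecProp

universe u

variable {D : Dat} {θ : Th} {W : Type u} {f : W → W → Option W} {V V' : Nm → Option W}

/-- the hypotheses on a glued pair -/
structure PR2_C (D : Dat) (θ : Th) (f : W → W → Option W) (V V' : Nm → Option W) (t h : ℕ) :
    Prop where
  hs : Shift D
  hm : ∀ j, mk D (X D 0 j j) = true → j ≤ t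
  hθ : Sh θ
  hn : ∀ a a' m d, MF D θ a a' m d → Sm a → Sm a' → Lk V V' a a'
  g : Gd D (4 * t + 8) f V h
  g' : Gd D (4 * t + 8) f V' (h + 4)

variable {t h : ℕ}

theorem PR2_C.step (C : PR2_C D θ f V V' t h) {a b c a' b' c' : Nm} {h₁ h₂ p₁ p₂ : ℕ}
    {θ₁ θ₂ : Th} (F : FF D a b c h₁ θ₁ p₁) (F' : FF D a' b' c' h₂ θ₂ p₂)
    (r : (p₁ ≠ 0 → h₁ < 4 * t + 8) ∧ (p₂ ≠ 0 → h₂ < 4 * t + 8) ∧ h₁ < h ∧ h₂ < h + 4)
    (ha : Lk V V' a a') (hb : Lk V V' b b') : Lk V V' c c' := by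
  obtain ⟨x, y, z, e1, e2, e3, e4⟩ := C.g _ _ _ _ _ _ F r.1 r.2.2.1
  obtain ⟨x', y', z', k1, k2, k3, k4⟩ := C.g' _ _ _ _ _ _ F' r.2.1 r.2.2.2
  obtain ⟨p, p1, p2⟩ := ha
  obtain ⟨q, q1, q2⟩ := hb
  obtain rfl : x = p := Option.some.inj (e1.symm.trans p1)
  obtain rfl : x' = x := Option.some.inj (k1.symm.trans p2)
  obtain rfl : y = q := Option.some.inj (e2.symm.trans q1)
  obtain rfl : y' = y := Option.some.inj (k2.symm.trans q2)
  exact ⟨z, e3, k3.trans (k4.symm.trans e4)⟩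

theorem PR2_C.reg0 (C : PR2_C D θ f V V' t h) {a e kd e' kd' b d : ℕ} (hr : Reg a e kd)
    (H : RM θ a e kd e' kd' b d) : Lk V V' (rg a e kd 0) (rg a e' kd' (0 + 1)) := by
  have h2 := (H.reg C.hθ hr).1
  unfold Reg at hr h2
  exact C.hn _ _ _ _ (MF.re θ a e kd e' kd' b d 0 hr H) ((sm_rg (by omega)).2 (by omega))
    ((sm_rg (by omega)).2 (by omega))

theorem PR2_C.gate (C : PR2_C D θ f V V' t h) {c : ℕ} (hc : Cls θ c) (k : ℕ) :
    (4 * k + 5 ≤ h + 4 → ∀ kd, 1 ≤ kd → kd ≤ 4 → Lk V V' (rg c 0 kd k) (rg c 1 kd (k + 1))) ∧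
    (4 * k + 7 ≤ h + 4 → Lk V V' (tc D c 0 k k) (tc D c 1 (k + 1) (k + 1)) ∧
      Lk V V' (rg c 0 0 k) (rg c 1 0 (k + 1))) := by
  have h4 := hc.lt
  induction k with
  | zero =>
    refine ⟨fun _ kd h1 h2 => C.reg0 (b := 1) (d := 5) ⟨h4, by omega⟩
      (Or.inl ⟨hc, rfl, rfl, rfl, by omega⟩), fun _ => ⟨?_, C.reg0 (b := 2) (d := 7)
        ⟨h4, by omega⟩ (Or.inl ⟨hc, rfl, rfl, rfl, by omega⟩)⟩⟩
    exact C.hn _ _ _ _ (MF.gc θ c 0 hc) (sm_cl.2 (by omega)) (sm_cl.2 (by omega))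
  | succ k ih =>
    have A : 4 * (k + 1) + 5 ≤ h + 4 → ∀ kd, 1 ≤ kd → kd ≤ 4 →
        Lk V V' (rg c 0 kd (k + 1)) (rg c 1 kd (k + 1 + 1)) := by
      intro hk kd h1 h2
      have L := C.step (FF.pl c 0 k h4 (by omega)) (FF.pl c 1 (k + 1) h4 (by omega)) (by omega)
        (ih.1 (by omega) 2 (by omega) (by omega)) (ih.2 (by omega)).2
      by_cases h3 : kd = 2
      · rw [h3]
        exact L
      · exact C.step (FF.pz c 0 kd k h4 (by omega) (by omega))
          (FF.pz c 1 kd (k + 1) h4 (by omega) (by omega)) (by omega)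
          (ih.1 (by omega) kd h1 h2) L
    refine ⟨A, fun hk => ?_⟩
    have T := C.step (FF.qd c 0 k h4 (by omega)) (FF.qd c 1 (k + 1) h4 (by omega)) (by omega)
      (ih.2 (by omega)).1 (ih.1 (by omega) 4 (by omega) (by omega))
    refine ⟨T, ?_⟩
    cases hx : PI.mk D (X D 0 (k + 1) (k + 1))
    · exact C.step (FF.ga c 0 (k + 1) _ h4 (by omega) (X_lt _ _ _ _) hx)
        (FF.ga c 1 (k + 1 + 1) _ h4 (by omega) (X_lt _ _ _ _) ((C.hs (k + 1)).trans hx))
        (by omega) (A (by omega) 3 (by omega) (by omega)) T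
    · have := C.hm _ hx
      exact C.step (FF.ps c 0 2 1 k h4 (by omega)) (FF.ps c 1 0 2 (k + 1) h4 (by omega))
        (by omega) (ih.2 (by omega)).2 (ih.1 (by omega) 1 (by omega) (by omega))

theorem PR2_C.one (C : PR2_C D θ f V V' t h) {a e kd e' kd' b d : ℕ} (hr : Reg a e kd)
    (H : RM θ a e kd e' kd' b d) (hc : Cls θ ((a + 1) % 4)) (k : ℕ) (hk : 4 * k + 3 ≤ h + 4) :
    Lk V V' (rg a e kd k) (rg a e' kd' (k + 1)) := by
  induction k with
  | zero => exact C.reg0 hr H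
  | succ k ih =>
    exact C.step (FF.cr a e kd k 0 hr (by omega))
      (FF.cr a e' kd' (k + 1) 1 (H.reg C.hθ hr).1 (by omega)) (by omega) (ih (by omega))
      ((C.gate hc k).2 (by omega)).2

theorem PR2_C.reg (C : PR2_C D θ f V V' t h) {a e kd e' kd' b d : ℕ} (hr : Reg a e kd)
    (H : RM θ a e kd e' kd' b d) (k : ℕ) (hk : 4 * k + d ≤ h + 4) :
    Lk V V' (rg a e kd k) (rg a e' kd' (k + 1)) := by
  rcases id H with ⟨hc, rfl, rfl, rfl, h1 | h1⟩ | h1 | h1 | h1 | h1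
  · obtain ⟨rfl, -, rfl⟩ := h1
    exact ((C.gate hc k).2 hk).2
  · exact (C.gate hc k).1 (by omega) _ h1.1 h1.2.1
  · obtain rfl : e' = e := h1.2.2.2.2.1
    obtain rfl : kd' = kd := h1.2.2.2.2.2.1
    have h4 : a < 4 := hr.1
    induction k with
    | zero => exact C.reg0 hr H
    | succ k ih =>
      exact C.step (FF.cr a e' kd' k 0 hr (by omega)) (FF.cr a e' kd' (k + 1) 0 hr (by omega))
        (by omega) (ih (by omega)) (C.one (b := 1) (d := 3) ⟨by omega, by omega⟩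
          (Or.inr (Or.inr (Or.inl (by omega)))) (Or.inl (by omega)) k (by omega))
  · exact C.one hr H (Or.inl (by omega)) k (by omega)
  · exact C.one hr H (Or.inr (by omega)) k (by omega)
  · exact C.one hr H (Or.inr (by omega)) k (by omega)

theorem PR2_C.gk {a e g v w : ℕ} (C : PR2_C D (2, a, e, g, v, w) f V V' t h) (ha : a < 4)
    (he : e < 2) {kd kd' : ℕ} (H : GK g v w kd kd') (k : ℕ) (hk : 4 * k + 3 ≤ h + 4) :
    Lk V V' (rg a e kd k) (rg a e kd' (k + 1)) :=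
  C.reg (b := 1) (d := 3) ⟨ha, Or.inl ⟨he, by unfold GK at H; omega⟩⟩
    (Or.inr (Or.inr (Or.inr (Or.inr ⟨rfl, rfl, rfl, rfl, rfl, rfl, H⟩)))) k hk

theorem PR2_C.sc {a e v w x : ℕ} (C : PR2_C D (2, a, e, 0, v, w) f V V' t h) (ha : a < 4)
    (he : e < 2) (hx : x < sz D) (n : ℕ) : ∀ i j, i + j = n → Dm v w i j →
      4 * max i j + 1 ≤ h + 4 → Lk V V' (cl a e i j x) (cl a e (i + v) (j + w) x) := by
  induction n using Nat.strong_induction_on with
  | _ n ih =>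
  intro i j hn hd hk
  by_cases hs : i + v ≤ 2 ∧ j + w ≤ 2
  · exact C.hn _ _ _ _ (MF.sc a e v w i j x ha he hx hd) (sm_cl.2 (by omega)) (sm_cl.2 hs)
  unfold Dm at hd
  rcases lt_trichotomy j i with h1 | rfl | h1
  · obtain ⟨i, rfl⟩ : ∃ i', i = i' + 1 := ⟨i - 1, by omega⟩
    obtain rfl : v = 1 := by omega
    exact C.step (FF.ar a e i j x ha he hx (by omega))
      (FF.ar a e (i + 1) (j + w) x ha he hx (by omega)) (by omega)
      (ih _ (by omega) i j rfl (by unfold Dm; omega) (by omega))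
      (C.gk ha he (by unfold GK; omega) i (by omega))
  · obtain ⟨j, rfl⟩ : ∃ j', j = j' + 1 := ⟨j - 1, by omega⟩
    obtain rfl : v = 1 := by omega
    obtain rfl : w = 1 := by omega
    exact C.step (FF.ad a e j x ha he hx) (FF.ad a e (j + 1) x ha he hx) (by omega)
      (ih _ (by omega) j j rfl (by unfold Dm; omega) (by omega))
      (C.gk ha he (by unfold GK; omega) j (by omega))
  · obtain ⟨j, rfl⟩ : ∃ j', j = j' + 1 := ⟨j - 1, by omega⟩
    obtain rfl : w = 1 := by omega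
    exact C.step (FF.au a e i j x ha he hx (by omega))
      (FF.au a e (i + v) (j + 1) x ha he hx (by omega)) (by omega)
      (ih _ (by omega) i j rfl (by unfold Dm; omega) (by omega))
      (C.gk ha he (by unfold GK; omega) j (by omega))

theorem PR2_ru {a e : ℕ} (ha : a < 4) (he : e < 2) (i j : ℕ) : ∃ θ₀, FF D (tc D a e i (j + 1))
    (tc D a e (i + 1) j) (tc D a e (i + 1) (j + 1)) (4 * max i j + 4) θ₀ 0 := by
  obtain ⟨v, w, h⟩ : ∃ v w : ℕ, j = 0 ∧ v = 1 ∧ w = 0 ∨ j ≠ 0 ∧ i = 0 ∧ v = 0 ∧ w = 1 ∨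
      j ≠ 0 ∧ i ≠ 0 ∧ v = 1 ∧ w = 1 := by
    by_cases h1 : j = 0
    · exact ⟨1, 0, by omega⟩
    by_cases h2 : i = 0
    · exact ⟨0, 1, by omega⟩
    · exact ⟨1, 1, by omega⟩
  unfold tc
  rw [X_ss]
  exact ⟨_, FF.ru a e i j _ _ v w ha he (X_lt _ _ _ _) (X_lt _ _ _ _) h⟩

theorem PR2_r1 {a e : ℕ} (ha : a < 4) (he : e < 2) (i : ℕ) : FF D (tc D a e i 0)
    (rg a e 12 (i + 1)) (tc D a e (i + 1) 0) (4 * i + 4) (2, a, e, 0, 1, 0) 0 := by
  unfold tc
  rw [X_s0]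
  exact FF.r1 a e i _ ha he (X_lt _ _ _ _)

theorem PR2_r2 {a e : ℕ} (ha : a < 4) (he : e < 2) (j : ℕ) : FF D (tc D a e 0 j)
    (rg a e 13 (j + 1)) (tc D a e 0 (j + 1)) (4 * j + 4) (2, a, e, 0, 0, 1) 0 := by
  unfold tc
  rw [X_0s]
  exact FF.r2 a e j _ ha he (X_lt _ _ _ _)

theorem PR2_C.ec {a e v w : ℕ} (C : PR2_C D (2, a, e, 1, v, w) f V V' t h) (ha : a < 4)
    (he : e < 2) (n : ℕ) : ∀ i j, i + j = n → Dm v w i j →
      4 * max i j + 4 + v + w ≤ h + 4 → Lk V V' (tc D a e i j) (tc D a e (i + v) (j + w)) := by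
  induction n using Nat.strong_induction_on with
  | _ n ih =>
  intro i j hn hd hk
  by_cases hs : i + v ≤ 2 ∧ j + w ≤ 2
  · exact C.hn _ _ _ _ (MF.ec a e v w i j ha he hd) (sm_cl.2 (by omega)) (sm_cl.2 hs)
  unfold Dm at hd
  rcases i with _ | i <;> rcases j with _ | j
  · omega
  · obtain rfl : w = 1 := by omega
    rcases (by omega : v = 0 ∨ v = 1) with rfl | rfl
    · exact C.step (PR2_r2 ha he j) (PR2_r2 ha he (j + 1)) (by omega)
        (ih _ (by omega) 0 j rfl (by unfold Dm; omega) (by omega))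
        (C.gk ha he (by unfold GK; omega) (j + 1) (by omega))
    · exact C.step (FF.eu a e 0 j ha he (by omega) (by omega))
        (FF.eu a e 1 (j + 1) ha he (by omega) (by omega)) (by omega)
        (ih _ (by omega) 0 j rfl (by unfold Dm; omega) (by omega))
        (C.gk ha he (by unfold GK; omega) j (by omega))
  · obtain rfl : v = 1 := by omega
    rcases (by omega : w = 0 ∨ w = 1) with rfl | rfl
    · exact C.step (PR2_r1 ha he i) (PR2_r1 ha he (i + 1)) (by omega)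
        (ih _ (by omega) i 0 rfl (by unfold Dm; omega) (by omega))
        (C.gk ha he (by unfold GK; omega) (i + 1) (by omega))
    · exact C.step (FF.er a e i 0 ha he (by omega) (by omega))
        (FF.er a e (i + 1) 1 ha he (by omega) (by omega)) (by omega)
        (ih _ (by omega) i 0 rfl (by unfold Dm; omega) (by omega))
        (C.gk ha he (by unfold GK; omega) i (by omega))
  · obtain ⟨θ₁, F⟩ := PR2_ru (D := D) ha he i j
    obtain ⟨θ₂, F'⟩ := PR2_ru (D := D) ha he (i + v) (j + w)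
    have A := ih _ (by omega) i (j + 1) rfl (by unfold Dm; omega) (by omega)
    have B := ih _ (by omega) (i + 1) j rfl (by unfold Dm; omega) (by omega)
    rw [Nat.add_right_comm j] at A ⊢
    rw [Nat.add_right_comm i] at B ⊢
    exact C.step F F' (by omega) A B

theorem links (hs : Shift D) {t : ℕ} (hm : ∀ j, mk D (X D 0 j j) = true → j ≤ t) (hθ : Sh θ)
    (hn : ∀ a a' m d, MF D θ a a' m d → Sm a → Sm a' → Lk V V' a a') {h : ℕ}
    (g : Gd D (4 * t + 8) f V h) (g' : Gd D (4 * t + 8) f V' (h + 4)) {a a' : Nm} {m d : ℕ}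
    (H : MF D θ a a' m d) (hd : d ≤ h + 4) : Lk V V' a a' := by
  have C : PR2_C D θ f V V' t h := ⟨hs, hm, hθ, hn, g, g'⟩
  cases H with
  | re _ a e kd e' kd' b d k hr H => exact C.reg hr H k hd
  | gc _ a i hc => exact ((C.gate hc _).2 hd).1
  | sc a e v w i j x ha he hx H => exact C.sc ha he hx _ i j rfl H hd
  | ec a e v w i j ha he H => exact C.ec ha he _ i j rfl H hd

end Pool.Agent.P.MP_48d4bc_co.EX.PI
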