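import Pool.Agent.P.MP_48d4bc_co.PG1

set_option autoImplicit false

/-! Preimages of facts. -/

namespace Pool.Agent.P.MP_48d4bc_co.EX.PI

open Set Function Pool.Agent.Lib.PrimrecProp

variable {D : Dat} {θ : Th}

theorem PR3_re {a e kd e' kd' k k' h : ℕ} (b d : ℕ) (hr : Reg a e kd)
    (hm : RM θ a e kd e' kd' b d) (hk : k' = k + 1) (hd : 4 * k + d ≤ h) :
    ∃ m d, MF D θ (rg a e kd k) (rg a e' kd' k') m d ∧ d ≤ h := by
  subst hk
  exact ⟨_, _, MF.re θ a e kd e' kd' b d k hr hm, hd⟩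

theorem PR3_sc {a e v w i j i' j' x h : ℕ} (ha : a < 4) (he : e < 2) (hx : x < sz D)
    (hm : Dm v w i j ∧ i' = i + v ∧ j' = j + w ∧ 4 * max i j + 1 ≤ h) :
    ∃ m d, MF D (2, a, e, 0, v, w) (cl a e i j x) (cl a e i' j' x) m d ∧ d ≤ h := by
  obtain ⟨h1, rfl, rfl, h2⟩ := hm
  exact ⟨_, _, MF.sc a e v w i j x ha he hx h1, h2⟩

theorem PR3_ec {a e v w i j i' j' h : ℕ} (ha : a < 4) (he : e < 2)
    (hm : Dm v w i j ∧ i' = i + v ∧ j' = j + w ∧ 4 * max i j + 4 + v + w ≤ h) :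
    ∃ m d, MF D (2, a, e, 1, v, w) (tc D a e i j) (tc D a e i' j') m d ∧ d ≤ h := by
  obtain ⟨h1, rfl, rfl, h2⟩ := hm
  exact ⟨_, _, MF.ec a e v w i j ha he h1, h2⟩

theorem PR3_g {a e g v w kd k k' h : ℕ} (ha : a < 4) (he : e < 2)
    (hm : kd < 14 ∧ GK g v w kd kd ∧ k' = k + 1 ∧ 4 * k + 3 ≤ h) :
    ∃ m d, MF D (2, a, e, g, v, w) (rg a e kd k) (rg a e kd k') m d ∧ d ≤ h :=
  PR3_re 1 3 ⟨ha, Or.inl ⟨he, hm.1⟩⟩
    (Or.inr (Or.inr (Or.inr (Or.inr ⟨rfl, rfl, rfl, rfl, rfl, rfl, hm.2.1⟩)))) hm.2.2.1 hm.2.2.2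

theorem PR3_p {a s e p q kd k k' h : ℕ} (hr : Reg a s kd) (hq : kd = p ∨ kd = q)
    (hm : k' = k + 1 ∧ 4 * k + 3 ≤ h) :
    ∃ m d, MF D (1, a, p, q, s, e) (rg a s kd k) (rg a e kd k') m d ∧ d ≤ h := by
  rcases hq with hq | hq
  · exact PR3_re 0 3 hr (Or.inr (Or.inr (Or.inr (Or.inl
      ⟨rfl, rfl, rfl, rfl, rfl, rfl, Or.inl ⟨hq, rfl⟩⟩)))) hm.1 hm.2
  · exact PR3_re 1 3 hr (Or.inr (Or.inr (Or.inr (Or.inl
      ⟨rfl, rfl, rfl, rfl, rfl, rfl, Or.inr ⟨hq, rfl⟩⟩)))) hm.1 hm.2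

theorem PR3_dcr {a e kd k : ℕ} (hr : Reg a e kd) (hk : 1 ≤ k) :
    Df (rg a e kd k) (rg ((a + 1) % 4) 0 0 k) (rg a e kd (k + 1)) := by
  unfold Reg at hr
  refine ⟨fun h => ?_, ?_⟩
  · have := (sm_rg (by omega)).1 h
    omega
  · unfold par rg
    rw [if_pos (by dsimp only; omega)]
    simp only [Prod.mk.injEq, and_true, true_and]
    omega

theorem PR3_dar {a e i j x : ℕ} (hj : j ≤ i) (hi : 2 ≤ i) :
    Df (cl a e i j x) (rg a e 5 i) (cl a e (i + 1) j x) := by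
  refine ⟨fun h => ?_, ?_⟩
  · have := sm_cl.1 h
    omega
  · unfold par rg cl
    rw [if_neg (by dsimp only; omega), if_pos (by dsimp only; omega)]
    simp only [Prod.mk.injEq, and_true, true_and]
    omega

theorem PR3_dau {a e i j x : ℕ} (hj : i ≤ j) (hi : 2 ≤ j) :
    Df (cl a e i j x) (rg a e 6 j) (cl a e i (j + 1) x) := by
  refine ⟨fun h => ?_, ?_⟩
  · have := sm_cl.1 h
    omega
  · unfold par rg cl
    rw [if_neg (by dsimp only; omega), if_neg (by dsimp only; omega),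
      if_pos (by dsimp only; omega)]
    simp only [Prod.mk.injEq, and_true, true_and]
    omega

theorem PR3_dad {a e i x : ℕ} (hi : 2 ≤ i) :
    Df (cl a e i i x) (rg a e 7 i) (cl a e (i + 1) (i + 1) x) := by
  refine ⟨fun h => ?_, ?_⟩
  · have := sm_cl.1 h
    omega
  · unfold par rg cl
    rw [if_neg (by dsimp only; omega), if_neg (by dsimp only; omega),
      if_neg (by dsimp only; omega)]
    simp only [Prod.mk.injEq, and_true, true_and]
    omega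

theorem PR3_sr {a e kd k : ℕ} (h : kd < 15 ∧ k ≤ 1) : Sm (rg a e kd k) := (sm_rg h.1).2 h.2

theorem PR3_st {a e i j : ℕ} (h : i ≤ 2 ∧ j ≤ 2) : Sm (tc D a e i j) := sm_cl.2 h

theorem FF.pre {a' b' c' : Nm} {h' p' : ℕ} (H : FF D a' b' c' h' θ p') :
    (Sm a' ∧ Sm b' ∧ Sm c') ∨ ∃ a b c h θ₀ p, FF D a b c h θ₀ p ∧ h + 4 = h' ∧
      (p ≠ 0 → p' ≠ 0) ∧ (∃ m d, MF D θ a a' m d ∧ d ≤ h') ∧ (∃ m d, MF D θ b b' m d ∧ d ≤ h') ∧
      (Df a' b' c' ∨ ∃ m d, MF D θ c c' m d ∧ d ≤ h') := by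
  cases H with
  | cr a e kd k η hr hη =>
    have hr' := hr
    unfold Reg at hr'
    rcases k with _ | k
    · exact Or.inl ⟨PR3_sr (by omega), PR3_sr (by omega), PR3_sr (by omega)⟩
    have h1 : RM (0, a, kd, e, 0, 0) a e kd e kd 0 1 :=
      Or.inr (Or.inl ⟨rfl, rfl, rfl, rfl, rfl, rfl, rfl, rfl⟩)
    refine Or.inr ⟨_, _, _, _, _, _, FF.cr a e kd k η hr hη, by omega, id,
      PR3_re 0 1 hr h1 rfl (by omega),
      PR3_re 1 3 ⟨by omega, Or.inl ⟨hη, by omega⟩⟩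
        (Or.inr (Or.inr (Or.inl ⟨rfl, rfl, rfl, hη, rfl, rfl, rfl, rfl⟩))) rfl (by omega), ?_⟩
    rcases η with _ | η
    · exact Or.inl (PR3_dcr hr (by omega))
    · exact Or.inr (PR3_re 0 1 hr h1 rfl (by omega))
  | pl a e k ha he =>
    rcases k with _ | k
    · exact Or.inl ⟨PR3_sr (by omega), PR3_sr (by omega), PR3_sr (by omega)⟩
    exact Or.inr ⟨_, _, _, _, _, _, FF.pl a e k ha he, by omega, id,
      PR3_p ⟨ha, by omega⟩ (by omega) (by omega), PR3_p ⟨ha, by omega⟩ (by omega) (by omega),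
      Or.inr (PR3_p ⟨ha, by omega⟩ (by omega) (by omega))⟩
  | pz a e kd k ha he hk =>
    rcases k with _ | k
    · exact Or.inl ⟨PR3_sr (by omega), PR3_sr (by omega), PR3_sr (by omega)⟩
    exact Or.inr ⟨_, _, _, _, _, _, FF.pz a e kd k ha he hk, by omega, id,
      PR3_p ⟨ha, by omega⟩ (by omega) (by omega), PR3_p ⟨ha, by omega⟩ (by omega) (by omega),
      Or.inr (PR3_p ⟨ha, by omega⟩ (by omega) (by omega))⟩
  | ps a e s p k ha hs =>
    rcases k with _ | k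
    · exact Or.inl ⟨PR3_sr (by omega), PR3_sr (by omega), PR3_sr (by omega)⟩
    exact Or.inr ⟨_, _, _, _, _, _, FF.ps a s 2 (1 - s / 2) k ha (by omega), by omega, by omega,
      PR3_p ⟨ha, by omega⟩ (by omega) (by omega), PR3_p ⟨ha, by omega⟩ (by omega) (by omega),
      Or.inr (PR3_p ⟨ha, by omega⟩ (by omega) (by omega))⟩
  | ar a e i j x ha he hx hj =>
    by_cases hi : i ≤ 1
    · exact Or.inl ⟨sm_cl.2 (by omega), PR3_sr (by omega), sm_cl.2 (by omega)⟩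
    exact Or.inr ⟨_, _, _, _, _, _, FF.ar a e (i - 1) (j - min j 1) x ha he hx (by omega),
      by omega, id, PR3_sc ha he hx (by unfold Dm; omega), PR3_g ha he (by unfold GK; omega),
      Or.inl (PR3_dar hj (by omega))⟩
  | au a e i j x ha he hx hj =>
    by_cases hi : j ≤ 1
    · exact Or.inl ⟨sm_cl.2 (by omega), PR3_sr (by omega), sm_cl.2 (by omega)⟩
    exact Or.inr ⟨_, _, _, _, _, _, FF.au a e (i - min i 1) (j - 1) x ha he hx (by omega),
      by omega, id, PR3_sc ha he hx (by unfold Dm; omega), PR3_g ha he (by unfold GK; omega),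
      Or.inl (PR3_dau hj (by omega))⟩
  | ad a e i x ha he hx =>
    by_cases hi : i ≤ 1
    · exact Or.inl ⟨sm_cl.2 (by omega), PR3_sr (by omega), sm_cl.2 (by omega)⟩
    exact Or.inr ⟨_, _, _, _, _, _, FF.ad a e (i - 1) x ha he hx,
      by omega, id, PR3_sc ha he hx (by unfold Dm; omega), PR3_g ha he (by unfold GK; omega),
      Or.inl (PR3_dad (by omega))⟩
  | ru a e i j x y v w ha he hx hy hv =>
    by_cases hi : i ≤ 1 ∧ j ≤ 1
    · exact Or.inl ⟨sm_cl.2 (by omega), sm_cl.2 (by omega), sm_cl.2 (by omega)⟩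
    obtain ⟨v₀, w₀, h0⟩ : ∃ v₀ w₀ : ℕ, j - w = 0 ∧ v₀ = 1 ∧ w₀ = 0 ∨
        j - w ≠ 0 ∧ i - v = 0 ∧ v₀ = 0 ∧ w₀ = 1 ∨ j - w ≠ 0 ∧ i - v ≠ 0 ∧ v₀ = 1 ∧ w₀ = 1 := by
      by_cases h1 : j - w = 0
      · exact ⟨1, 0, by omega⟩
      by_cases h2 : i - v = 0
      · exact ⟨0, 1, by omega⟩
      · exact ⟨1, 1, by omega⟩
    exact Or.inr ⟨_, _, _, _, _, _, FF.ru a e (i - v) (j - w) x y v₀ w₀ ha he hx hy h0,
      by omega, id, PR3_sc ha he hx (by unfold Dm; omega), PR3_sc ha he hy (by unfold Dm; omega),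
      Or.inr (PR3_sc ha he (dl_lt D x y) (by unfold Dm; omega))⟩
  | r1 a e i x ha he hx =>
    rcases i with _ | i
    · exact Or.inl ⟨sm_cl.2 (by omega), PR3_sr (by omega), sm_cl.2 (by omega)⟩
    exact Or.inr ⟨_, _, _, _, _, _, FF.r1 a e i x ha he hx,
      by omega, id, PR3_sc ha he hx (by unfold Dm; omega), PR3_g ha he (by unfold GK; omega),
      Or.inr (PR3_sc ha he (b1_lt D x) (by unfold Dm; omega))⟩
  | r2 a e j x ha he hx =>
    rcases j with _ | j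
    · exact Or.inl ⟨sm_cl.2 (by omega), PR3_sr (by omega), sm_cl.2 (by omega)⟩
    exact Or.inr ⟨_, _, _, _, _, _, FF.r2 a e j x ha he hx,
      by omega, id, PR3_sc ha he hx (by unfold Dm; omega), PR3_g ha he (by unfold GK; omega),
      Or.inr (PR3_sc ha he (b2_lt D x) (by unfold Dm; omega))⟩
  | ga a e i x ha he hx hm =>
    rcases i with _ | i
    · exact Or.inl ⟨PR3_sr (by omega), sm_cl.2 (by omega), PR3_sr (by omega)⟩
    exact Or.inr ⟨_, _, _, _, _, _, FF.ga a e i x ha he hx hm,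
      by omega, id, PR3_g ha he (by unfold GK; omega), PR3_sc ha he hx (by unfold Dm; omega),
      Or.inr (PR3_g ha he (by unfold GK; omega))⟩
  | er a e i j ha he h1 hj =>
    by_cases hi : i ≤ 1
    · exact Or.inl ⟨PR3_st (by omega), PR3_sr (by omega), PR3_st (by omega)⟩
    exact Or.inr ⟨_, _, _, _, _, _, FF.er a e (i - 1) j ha he h1 (by omega),
      by omega, id, PR3_ec ha he (by unfold Dm; omega), PR3_g ha he (by unfold GK; omega),
      Or.inr (PR3_ec ha he (by unfold Dm; omega))⟩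
  | eu a e i j ha he h1 hj =>
    by_cases hi : j ≤ 1
    · exact Or.inl ⟨PR3_st (by omega), PR3_sr (by omega), PR3_st (by omega)⟩
    exact Or.inr ⟨_, _, _, _, _, _, FF.eu a e i (j - 1) ha he h1 (by omega),
      by omega, id, PR3_ec ha he (by unfold Dm; omega), PR3_g ha he (by unfold GK; omega),
      Or.inr (PR3_ec ha he (by unfold Dm; omega))⟩
  | qd a e i ha he =>
    rcases i with _ | i
    · exact Or.inl ⟨PR3_st (by omega), PR3_sr (by omega), PR3_st (by omega)⟩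
    exact Or.inr ⟨_, _, _, _, _, _, FF.qd a e i ha he,
      by omega, id, PR3_ec ha he (by unfold Dm; omega), PR3_g ha he (by unfold GK; omega),
      Or.inr (PR3_ec ha he (by unfold Dm; omega))⟩

end Pool.Agent.P.MP_48d4bc_co.EX.PI
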