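import Pool.Agent.P.MP_48d4bc_co.PG1

set_option autoImplicit false

/-! Images of facts. -/

namespace Pool.Agent.P.MP_48d4bc_co.EX.PI

open Set Function Pool.Agent.Lib.PrimrecProp

variable {D : Dat} {θ : Th}

theorem PR4_re {a e kd k H : ℕ} (b d : ℕ) (hr : Reg a e kd) (h : RM θ a e kd e kd b d)
    (hd : 4 * k + d ≤ H) : ∃ m d, MF D θ (rg a e kd k) (rg a e kd (k + 1)) m d ∧ d ≤ H :=
  ⟨_, _, MF.re θ a e kd e kd b d k hr h, hd⟩

theorem PR4_sc {a e v w i j x i' j' H : ℕ} (ha : a < 4) (he : e < 2) (hx : x < sz D)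
    (h : Dm v w i j) (hi : i' = i + v) (hj : j' = j + w) (hd : 4 * max i j + 1 ≤ H) :
    ∃ m d, MF D (2, a, e, 0, v, w) (cl a e i j x) (cl a e i' j' x) m d ∧ d ≤ H := by
  subst hi hj
  exact ⟨_, _, MF.sc a e v w i j x ha he hx h, hd⟩

theorem PR4_ec {a e v w i j i' j' H : ℕ} (ha : a < 4) (he : e < 2)
    (h : Dm v w i j) (hi : i' = i + v) (hj : j' = j + w) (hd : 4 * max i j + 4 + v + w ≤ H) :
    ∃ m d, MF D (2, a, e, 1, v, w) (tc D a e i j) (tc D a e i' j') m d ∧ d ≤ H := by
  subst hi hj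
  exact ⟨_, _, MF.ec a e v w i j ha he h, hd⟩

theorem PR4_g {a e g v w kd : ℕ} (h : GK g v w kd kd) : RM (2, a, e, g, v, w) a e kd e kd 1 3 :=
  Or.inr (Or.inr (Or.inr (Or.inr ⟨rfl, rfl, rfl, rfl, rfl, rfl, h⟩)))

theorem PR4_h {a b c : Nm} {h h' p : ℕ} (H : FF D a b c h θ p) (e : h = h') :
    FF D a b c h' θ p := e ▸ H

theorem PR4_dcr {a e kd k : ℕ} (hr : Reg a e kd) (hk : 1 ≤ k) :
    Df (rg a e kd k) (rg ((a + 1) % 4) 0 0 k) (rg a e kd (k + 1)) := by
  unfold Reg at hr
  refine ⟨by rw [sm_rg (by omega)]; omega, ?_⟩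
  unfold par rg
  rw [if_pos (by dsimp only; omega)]
  simp only [Prod.mk.injEq, and_true, true_and]
  omega

theorem PR4_dar {a e i j x : ℕ} (hj : j ≤ i) (hi : 2 ≤ i) :
    Df (cl a e i j x) (rg a e 5 i) (cl a e (i + 1) j x) := by
  refine ⟨by rw [sm_cl]; omega, ?_⟩
  unfold par rg cl
  rw [if_neg (by dsimp only; omega), if_pos (by dsimp only; omega)]
  simp only [Prod.mk.injEq, and_true, true_and]
  omega

theorem PR4_dau {a e i j x : ℕ} (hj : i ≤ j) (hi : 2 ≤ j) :
    Df (cl a e i j x) (rg a e 6 j) (cl a e i (j + 1) x) := by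
  refine ⟨by rw [sm_cl]; omega, ?_⟩
  unfold par rg cl
  rw [if_neg (by dsimp only; omega), if_neg (by dsimp only; omega), if_pos (by dsimp only; omega)]
  simp only [Prod.mk.injEq, and_true, true_and]
  omega

theorem PR4_dad {a e i x : ℕ} (hi : 2 ≤ i) :
    Df (cl a e i i x) (rg a e 7 i) (cl a e (i + 1) (i + 1) x) := by
  refine ⟨by rw [sm_cl]; omega, ?_⟩
  unfold par rg cl
  rw [if_neg (by dsimp only; omega), if_neg (by dsimp only; omega), if_neg (by dsimp only; omega)]
  simp only [Prod.mk.injEq, and_true, true_and]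
  omega

theorem FF.img {a b c : Nm} {h p : ℕ} (H : FF D a b c h θ p) (hp : p = 0) :
    (Sm a ∧ Sm b ∧ Sm c) ∨ ∃ a' b' c' θ₀, FF D a' b' c' (h + 4) θ₀ 0 ∧
      (∃ m d, MF D θ a a' m d ∧ d ≤ h + 4) ∧ (∃ m d, MF D θ b b' m d ∧ d ≤ h + 4) ∧
      (Df a b c ∨ ∃ m d, MF D θ c c' m d ∧ d ≤ h + 4) := by
  cases H with
  | cr a e kd k η hr hη =>
    have hr' := hr
    unfold Reg at hr'
    by_cases hs : k = 0 ∧ η = 0
    · left
      rw [sm_rg (by omega), sm_rg (by omega), sm_rg (by omega)]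
      omega
    · refine Or.inr ⟨_, _, _, _, PR4_h (FF.cr a e kd (k + 1) η hr hη) (by omega),
        PR4_re 0 1 hr (by simp [RM]) (by omega),
        PR4_re 1 3 (by unfold Reg; omega) (by simp [RM, hη]) (by omega), ?_⟩
      by_cases h0 : η = 0
      · subst h0
        exact Or.inl (PR4_dcr hr (by omega))
      · exact Or.inr (PR4_re 0 1 hr (by simp [RM]) (by omega))
  | pl a e k ha he =>
    exact Or.inr ⟨_, _, _, _, PR4_h (FF.pl a e (k + 1) ha he) (by omega),
      PR4_re 0 3 (by unfold Reg; omega) (by simp [RM]) (by omega),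
      PR4_re 1 3 (by unfold Reg; omega) (by simp [RM]) (by omega),
      Or.inr (PR4_re 0 3 (by unfold Reg; omega) (by simp [RM]) (by omega))⟩
  | pz a e kd k ha he hk =>
    exact Or.inr ⟨_, _, _, _, PR4_h (FF.pz a e kd (k + 1) ha he hk) (by omega),
      PR4_re 0 3 (by unfold Reg; omega) (by simp [RM]) (by omega),
      PR4_re 1 3 (by unfold Reg; omega) (by simp [RM]) (by omega),
      Or.inr (PR4_re 0 3 (by unfold Reg; omega) (by simp [RM]) (by omega))⟩
  | ps a e s p k ha hc =>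
    obtain rfl : e = 2 := by omega
    obtain rfl : s = 2 := by omega
    exact Or.inr ⟨_, _, _, _, PR4_h (FF.ps a 2 2 0 (k + 1) ha (by omega)) (by omega),
      PR4_re 0 3 (by unfold Reg; omega) (by simp [RM]) (by omega),
      PR4_re 1 3 (by unfold Reg; omega) (by simp [RM]) (by omega),
      Or.inr (PR4_re 0 3 (by unfold Reg; omega) (by simp [RM]) (by omega))⟩
  | ar a e i j x ha he hx hj =>
    by_cases hs : i ≤ 1
    · left
      rw [sm_cl, sm_cl, sm_rg (by omega)]
      omega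
    · exact Or.inr ⟨_, _, _, _, PR4_h (FF.ar a e (i + 1) (j + min j 1) x ha he hx (by omega))
        (by omega), PR4_sc ha he hx (by unfold Dm; omega) rfl rfl (by omega),
        PR4_re 1 3 (by unfold Reg; omega) (PR4_g (by unfold GK; omega)) (by omega),
        Or.inl (PR4_dar hj (by omega))⟩
  | au a e i j x ha he hx hj =>
    by_cases hs : j ≤ 1
    · left
      rw [sm_cl, sm_cl, sm_rg (by omega)]
      omega
    · exact Or.inr ⟨_, _, _, _, PR4_h (FF.au a e (i + min i 1) (j + 1) x ha he hx (by omega))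
        (by omega), PR4_sc ha he hx (by unfold Dm; omega) rfl rfl (by omega),
        PR4_re 1 3 (by unfold Reg; omega) (PR4_g (by unfold GK; omega)) (by omega),
        Or.inl (PR4_dau hj (by omega))⟩
  | ad a e i x ha he hx =>
    by_cases hs : i ≤ 1
    · left
      rw [sm_cl, sm_cl, sm_rg (by omega)]
      omega
    · exact Or.inr ⟨_, _, _, _, PR4_h (FF.ad a e (i + 1) x ha he hx) (by omega),
        PR4_sc ha he hx (by unfold Dm; omega) rfl rfl (by omega),
        PR4_re 1 3 (by unfold Reg; omega) (by simp [RM, GK]) (by omega),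
        Or.inl (PR4_dad (by omega))⟩
  | ru a e i j x y v w ha he hx hy hc =>
    by_cases hs : i = 0 ∧ j = 0
    · left
      rw [sm_cl, sm_cl, sm_cl]
      omega
    · exact Or.inr ⟨_, _, _, _,
        PR4_h (FF.ru a e (i + v) (j + w) x y v w ha he hx hy (by omega)) (by omega),
        PR4_sc ha he hx (by unfold Dm; omega) rfl (by omega) (by omega),
        PR4_sc ha he hy (by unfold Dm; omega) (by omega) rfl (by omega),
        Or.inr (PR4_sc ha he (dl_lt D x y) (by unfold Dm; omega) (by omega) (by omega)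
          (by omega))⟩
  | r1 a e i x ha he hx =>
    exact Or.inr ⟨_, _, _, _, PR4_h (FF.r1 a e (i + 1) x ha he hx) (by omega),
      PR4_sc ha he hx (by unfold Dm; omega) rfl rfl (by omega),
      PR4_re 1 3 (by unfold Reg; omega) (by simp [RM, GK]) (by omega),
      Or.inr (PR4_sc ha he (b1_lt D x) (by unfold Dm; omega) rfl rfl (by omega))⟩
  | r2 a e j x ha he hx =>
    exact Or.inr ⟨_, _, _, _, PR4_h (FF.r2 a e (j + 1) x ha he hx) (by omega),
      PR4_sc ha he hx (by unfold Dm; omega) rfl rfl (by omega),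
      PR4_re 1 3 (by unfold Reg; omega) (by simp [RM, GK]) (by omega),
      Or.inr (PR4_sc ha he (b2_lt D x) (by unfold Dm; omega) rfl rfl (by omega))⟩
  | ga a e i x ha he hx hm =>
    exact Or.inr ⟨_, _, _, _, PR4_h (FF.ga a e (i + 1) x ha he hx hm) (by omega),
      PR4_re 1 3 (by unfold Reg; omega) (by simp [RM, GK]) (by omega),
      PR4_sc ha he hx (by unfold Dm; omega) rfl rfl (by omega),
      Or.inr (PR4_re 1 3 (by unfold Reg; omega) (by simp [RM, GK]) (by omega))⟩
  | er a e i j ha he h1 hj =>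
    exact Or.inr ⟨_, _, _, _, PR4_h (FF.er a e (i + 1) j ha he h1 (by omega)) (by omega),
      PR4_ec ha he (by unfold Dm; omega) rfl rfl (by omega),
      PR4_re 1 3 (by unfold Reg; omega) (PR4_g (by unfold GK; omega)) (by omega),
      Or.inr (PR4_ec ha he (by unfold Dm; omega) rfl rfl (by omega))⟩
  | eu a e i j ha he h1 hj =>
    exact Or.inr ⟨_, _, _, _, PR4_h (FF.eu a e i (j + 1) ha he h1 (by omega)) (by omega),
      PR4_ec ha he (by unfold Dm; omega) rfl rfl (by omega),
      PR4_re 1 3 (by unfold Reg; omega) (PR4_g (by unfold GK; omega)) (by omega),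
      Or.inr (PR4_ec ha he (by unfold Dm; omega) rfl rfl (by omega))⟩
  | qd a e i ha he =>
    exact Or.inr ⟨_, _, _, _, PR4_h (FF.qd a e (i + 1) ha he) (by omega),
      PR4_ec ha he (by unfold Dm; omega) rfl rfl (by omega),
      PR4_re 1 3 (by unfold Reg; omega) (by simp [RM, GK]) (by omega),
      Or.inr (PR4_ec ha he (by unfold Dm; omega) rfl rfl (by omega))⟩

end Pool.Agent.P.MP_48d4bc_co.EX.PI
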