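import Pool.Agent.P.MP_48d4bc_co.PR1
import Pool.Agent.P.MP_48d4bc_co.PR2
import Pool.Agent.P.MP_48d4bc_co.PR3
import Pool.Agent.P.MP_48d4bc_co.PR4

set_option autoImplicit false

/-! A finite colouring of valuations that separates glued pairs. -/

namespace Pool.Agent.P.MP_48d4bc_co.EX.PI

open Set Function Pool.Agent.Lib.PrimrecProp

universe u

/-- valuations: defining equations, small facts, two distinct values -/
def Vl (D : Dat) {W : Type u} (f : W → W → Option W) (V : Nm → Option W) : Prop :=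
  (∀ c, ¬ Sm c → V c = (V (par c).1).bind fun x => (V (par c).2).bind (f x)) ∧
  (∀ a b c h θ p, FF D a b c h θ p → Sm a → Sm b → Sm c → Hd f V a b c) ∧
  V (rg 0 2 0 0) ≠ V (rg 0 2 0 1)

theorem PR5_fin : Finite {θ : Th // Sh θ} := by
  have h : {θ : Th | Sh θ}.Finite := by
    refine (Set.finite_Iic ((14, 14, 14, 14, 14, 14) : Th)).subset ?_
    rintro ⟨t, a, p1, p2, p3, p4⟩ h
    simp only [Set.mem_ofPred_eq, Sh, Reg] at h
    simp only [Set.mem_Iic, Prod.mk_le_mk]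
    omega
  exact h.to_subtype

section

variable {D : Dat} {W : Type u} {f : W → W → Option W} {V V' : Nm → Option W}

/-- a failing required fact of least height -/
def PR5_Low (D : Dat) (H : ℕ) (f : W → W → Option W) (V : Nm → Option W) (θ : Th) (h p : ℕ) :
    Prop :=
  Gd D H f V h ∧ (p ≠ 0 → h < H) ∧ ∃ a b c, FF D a b c h θ p ∧ ¬ Hd f V a b c

theorem PR5_mono {H h h' : ℕ} (g : Gd D H f V h) (hh : h' ≤ h) : Gd D H f V h' :=
  fun a b c k θ p H1 H2 H3 => g a b c k θ p H1 H2 (lt_of_lt_of_le H3 hh)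

theorem PR5_dich (D : Dat) (H : ℕ) (f : W → W → Option W) (V : Nm → Option W) :
    (∀ h, Gd D H f V h) ∨ ∃ θ h p, Sh θ ∧ PR5_Low D H f V θ h p := by
  classical
  by_cases hb : ∃ h, ∃ a b c θ p, FF D a b c h θ p ∧ (p ≠ 0 → h < H) ∧ ¬ Hd f V a b c
  · obtain ⟨a, b, c, θ, p, h1, h2, h3⟩ := Nat.find_spec hb
    refine Or.inr ⟨θ, Nat.find hb, p, h1.sh, ?_, h2, a, b, c, h1, h3⟩
    intro a' b' c' k θ' p' H1 H2 H3
    by_contra hn
    exact Nat.find_min hb H3 ⟨a', b', c', θ', p', H1, H2, hn⟩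
  · refine Or.inl fun h a b c k θ p H1 H2 _ => ?_
    by_contra hn
    exact hb ⟨k, a, b, c, θ, p, H1, H2, hn⟩

theorem PR5_col (D : Dat) (H : ℕ) (f : W → W → Option W) (V : Nm → Option W) :
    ∃ o : Option ({θ : Th // Sh θ} × Bool × Fin 8 × Fin (H + 1)),
      (o = none → ∀ h, Gd D H f V h) ∧ ∀ z, o = some z → ∃ h p, PR5_Low D H f V z.1.1 h p ∧
        z.2.1 = decide (p = 0) ∧ z.2.2.1.1 = h % 8 ∧ z.2.2.2.1 = min h H := by
  rcases PR5_dich D H f V with h | ⟨θ, h, p, hθ, hl⟩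
  · exact ⟨none, fun _ => h, fun z hz => by cases hz⟩
  · refine ⟨some (⟨θ, hθ⟩, decide (p = 0), ⟨h % 8, Nat.mod_lt _ (by omega)⟩,
      ⟨min h H, by omega⟩), fun hz => (by cases hz), fun z hz => ?_⟩
    cases hz
    exact ⟨h, p, hl, rfl, rfl, rfl⟩

theorem PR5_df (hV : Vl D f V) {a b c : Nm} (hd : Df a b c) {x y z : W} (ha : V a = some x)
    (hb : V b = some y) (hf : f x y = some z) : V c = some z := by
  rw [hV.1 c hd.1, hd.2]
  simp only [ha, hb, Option.bind_some, hf]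

theorem PR5_sep (hs : Shift D) {t : ℕ} (hm : ∀ j, mk D (X D 0 j j) = true → j ≤ t) {θ : Th}
    (hθ : Sh θ) (hV : Vl D f V) (hV' : Vl D f V')
    (hn : ∀ a a' m d, MF D θ a a' m d → Sm a → Sm a' → Lk V V' a a') {h p h' p' : ℕ}
    (l : PR5_Low D (4 * t + 8) f V θ h p) (l' : PR5_Low D (4 * t + 8) f V' θ h' p')
    (e1 : p = 0 ↔ p' = 0) (e2 : h % 8 = h' % 8)
    (e3 : min h (4 * t + 8) = min h' (4 * t + 8)) : False := by
  obtain ⟨g, hp, a, b, c, F, nF⟩ := l
  obtain ⟨g', hp', a', b', c', F', nF'⟩ := l'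
  have s1 : h + 4 ≤ h' := by
    rcases F'.pre with ⟨u1, u2, u3⟩ |
      ⟨a1, b1, c1, h1, θ1, p1, F1, eh, ep, ⟨m1, d1, M1, L1⟩, ⟨m2, d2, M2, L2⟩, hc⟩
    · exact absurd (hV'.2.1 _ _ _ _ _ _ F' u1 u2 u3) nF'
    · by_contra hlt
      subst eh
      have g1 : Gd D (4 * t + 8) f V h1 := PR5_mono g (by omega)
      obtain ⟨x, y, z, vx, vy, vz, hf⟩ := g _ _ _ _ _ _ F1
        (fun h0 => by have := hp' (ep h0); omega) (by omega)
      obtain ⟨x', ax, ax'⟩ := links hs hm hθ hn g1 g' M1 L1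
      obtain ⟨y', ay, ay'⟩ := links hs hm hθ hn g1 g' M2 L2
      obtain rfl : x = x' := Option.some.inj (vx.symm.trans ax)
      obtain rfl : y = y' := Option.some.inj (vy.symm.trans ay)
      refine nF' ⟨x, y, z, ax', ay', ?_, hf⟩
      rcases hc with hc | ⟨m3, d3, M3, L3⟩
      · exact PR5_df hV' hc ax' ay' hf
      · obtain ⟨z', az, az'⟩ := links hs hm hθ hn g1 g' M3 L3
        obtain rfl : z = z' := Option.some.inj (vz.symm.trans az)
        exact az'
  by_cases h0 : p = 0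
  · have s2 : h' ≤ h + 4 := by
      rcases F.img h0 with ⟨u1, u2, u3⟩ |
        ⟨a1, b1, c1, θ1, F1, ⟨m1, d1, M1, L1⟩, ⟨m2, d2, M2, L2⟩, hc⟩
      · exact absurd (hV.2.1 _ _ _ _ _ _ F u1 u2 u3) nF
      · by_contra hlt
        have g1 : Gd D (4 * t + 8) f V' (h + 4) := PR5_mono g' s1
        obtain ⟨x, y, z, vx, vy, vz, hf⟩ := g' _ _ _ _ _ _ F1
          (fun h1 => absurd rfl h1) (by omega)
        obtain ⟨x', ax, ax'⟩ := links hs hm hθ hn g g1 M1 L1
        obtain ⟨y', ay, ay'⟩ := links hs hm hθ hn g g1 M2 L2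
        obtain rfl : x = x' := Option.some.inj (vx.symm.trans ax')
        obtain rfl : y = y' := Option.some.inj (vy.symm.trans ay')
        refine nF ⟨x, y, z, ax, ay, ?_, hf⟩
        rcases hc with hc | ⟨m3, d3, M3, L3⟩
        · exact PR5_df hV hc ax ay hf
        · obtain ⟨z', az, az'⟩ := links hs hm hθ hn g g1 M3 L3
          obtain rfl : z = z' := Option.some.inj (vz.symm.trans az')
          exact az
    omega
  · have s2 := hp h0
    have s3 := hp' fun h1 => h0 (e1.2 h1)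
    omega

end

theorem exists_col {D : Dat} (hs : Shift D) (hi : ¬ Inf D) :
    ∃ (κ : Type) (_ : Finite κ) (_ : Nonempty κ), ∀ (W : Type u) (f : W → W → Option W),
      ∃ χ : (Nm → Option W) → κ, ∀ V : Th → Bool → Nm → Option W,
        (∀ θ s, Sh θ → Vl D f (V θ s)) →
        (∀ θ, Sh θ → ∀ a a' m d, MF D θ a a' m d → Sm a → Sm a' →
          Lk (V θ false) (V θ true) a a') →
        ∃ θ s θ' s', Sh θ ∧ Sh θ' ∧ χ (V θ s) ≠ χ (V θ' s') := by
  obtain ⟨t, ht⟩ := not_forall.1 hi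
  have hm : ∀ j, mk D (X D 0 j j) = true → j ≤ t := fun j hj => by
    by_contra hlt
    exact ht ⟨j, by omega, hj⟩
  have := PR5_fin
  refine ⟨Option ({θ : Th // Sh θ} × Bool × Fin 8 × Fin (4 * t + 8 + 1)) × Fin 3, inferInstance,
    inferInstance, fun W f => ?_⟩
  choose o ho using PR5_col D (4 * t + 8) f
  obtain ⟨c3, hc3⟩ := three_col (fun (s : ℕ → Option W) (k : ℕ) => s (k + 1))
  refine ⟨fun V => (o V, c3 fun k => V (rg 0 2 0 k)), fun V hV hn => ?_⟩
  by_contra hne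
  have all : ∀ θ s θ' s', Sh θ → Sh θ' → o (V θ s) = o (V θ' s') ∧
      (c3 fun k => V θ s (rg 0 2 0 k)) = c3 fun k => V θ' s' (rg 0 2 0 k) := by
    intro θ s θ' s' h h'
    by_contra h2
    exact hne ⟨θ, s, θ', s', h, h', fun h3 => h2 (Prod.mk.inj h3)⟩
  have h0 : Sh (0, 0, 0, 2, 0, 0) := by simp [Sh, Reg]
  rcases hz : o (V (0, 0, 0, 2, 0, 0) false) with _ | z
  · have g := (ho _).1 hz
    have g' := (ho _).1 ((all _ true _ false h0 h0).1.trans hz)
    have e : (fun k => V (0, 0, 0, 2, 0, 0) true (rg 0 2 0 (k + 1))) =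
        fun k => V (0, 0, 0, 2, 0, 0) false (rg 0 2 0 k) := by
      funext k
      have M : MF D (0, 0, 0, 2, 0, 0) (rg 0 2 0 k) (rg 0 2 0 (k + 1)) (k + 0) (4 * k + 1) :=
        MF.re _ 0 2 0 2 0 0 1 k (by simp [Reg]) (by simp [RM])
      obtain ⟨x, ax, ax'⟩ := links hs hm h0 (hn _ h0) (g (4 * k)) (g' _) M (by omega)
      exact ax'.trans ax.symm
    have h1 := hc3 (fun k => V (0, 0, 0, 2, 0, 0) true (rg 0 2 0 k)) fun h2 =>
      (hV _ true h0).2.2 (congrFun h2 0).symm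
    exact h1 ((congrArg c3 e).trans (all _ false _ true h0 h0).2)
  · obtain ⟨h, p, l, e1, e2, e3⟩ := (ho _).2 z ((all _ false _ false z.1.2 h0).1.trans hz)
    obtain ⟨h', p', l', e1', e2', e3'⟩ := (ho _).2 z ((all _ true _ false z.1.2 h0).1.trans hz)
    exact PR5_sep hs hm z.1.2 (hV _ false z.1.2) (hV _ true z.1.2) (hn _ z.1.2) l l'
      (decide_eq_decide.1 (e1.symm.trans e1')) (e2.symm.trans e2') (e3.symm.trans e3')

end Pool.Agent.P.MP_48d4bc_co.EX.PI
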