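import Pool.Agent.P.MP_48d4bc_co.EXDefs

set_option autoImplicit false

/-! Property (1) has finite hosts. -/

namespace Pool.Agent.P.MP_48d4bc_co.EX.PI

universe u

theorem PU1_iso {α β V W C : Type*} {G₁ : SimpleGraph α} {G₂ : SimpleGraph β} {H : SimpleGraph V}
    {H' : SimpleGraph W} (e : H ≃g H') (h : G₁.Free H ∧ ∀ c : Sym2 V → C, HasMonoCopy G₂ H c) :
    G₁.Free H' ∧ ∀ c : Sym2 W → C, HasMonoCopy G₂ H' c := by
  refine ⟨fun ⟨f⟩ => h.1 ⟨e.symm.toCopy.comp f⟩, fun c => ?_⟩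
  obtain ⟨f, k, hf⟩ := h.2 fun x => c (x.map e)
  exact ⟨e.toCopy.comp f, k, hf⟩

theorem PU1_code {α : Type*} [Finite α] (G : SimpleGraph α) :
    ∃ g : ℕ × List (ℕ × ℕ), Nonempty (G ≃g graphOf g.1 g.2) := by
  classical
  obtain ⟨k, ⟨e⟩⟩ := Finite.exists_equiv_fin α
  refine ⟨(k, ((Finset.univ.filter fun p : Fin k × Fin k =>
    G.Adj (e.symm p.1) (e.symm p.2)).image fun p => (p.1.1, p.2.1)).toList), ⟨⟨e, fun {a b} => ?_⟩⟩⟩
  have key : ∀ a b : α, ((e a).1, (e b).1) ∈ ((Finset.univ.filter fun p : Fin k × Fin k =>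
      G.Adj (e.symm p.1) (e.symm p.2)).image fun p => (p.1.1, p.2.1)).toList ↔ G.Adj a b := by
    intro a b
    rw [Finset.mem_toList, Finset.mem_image]
    refine ⟨fun ⟨p, h1, h2⟩ => ?_, fun h => ⟨(e a, e b), by simpa using h, rfl⟩⟩
    have h3 : p = (e a, e b) := Prod.ext (Fin.ext (congrArg Prod.fst h2))
      (Fin.ext (congrArg Prod.snd h2))
    simpa [h3] using h1
  rw [graphOf, SimpleGraph.fromRel_adj, key, key]
  exact ⟨fun h => h.2.elim id G.adj_symm, fun h => ⟨e.injective.ne h.ne, Or.inl h⟩⟩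

theorem finite_host {α β : Type} [Finite β] (G₁ : SimpleGraph α) (G₂ : SimpleGraph β) (n : ℕ) :
    (∃ (V : Type u) (H : SimpleGraph V),
      G₁.Free H ∧ ∀ c : Sym2 V → Fin (n + 1), HasMonoCopy G₂ H c) ↔
    ∃ q : ℕ × List (ℕ × ℕ), G₁.Free (graphOf q.1 q.2) ∧
      ∀ c : Sym2 (Fin q.1) → Fin (n + 1), HasMonoCopy G₂ (graphOf q.1 q.2) c := by
  classical
  refine ⟨fun ⟨V, H, h1, h2⟩ => by_contra fun hc => ?_, fun ⟨q, h⟩ =>
    ⟨ULift.{u} (Fin q.1), _, PU1_iso (SimpleGraph.Iso.comap Equiv.ulift _).symm h⟩⟩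
  have key : ∀ t : Finset (Sym2 V), ∃ c : Sym2 {v | ∃ x ∈ t, v ∈ x} → Fin (n + 1),
      ¬ HasMonoCopy G₂ (H.induce {v | ∃ x ∈ t, v ∈ x}) c := by
    intro t
    have : Finite {v | ∃ x ∈ t, v ∈ x} := Set.Finite.to_subtype
      ((t.finite_toSet.biUnion fun x _ => x.toFinset.finite_toSet).subset fun v ⟨x, a, b⟩ =>
        Set.mem_biUnion a (Sym2.mem_toFinset.2 b))
    obtain ⟨q, ⟨e⟩⟩ := PU1_code (H.induce {v | ∃ x ∈ t, v ∈ x})
    by_contra hn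
    exact hc ⟨q, PU1_iso e ⟨fun ⟨f⟩ => h1 ⟨(SimpleGraph.Embedding.induce _).toCopy.comp f⟩,
      fun c => by_contra fun h => hn ⟨c, h⟩⟩⟩
  choose c hc' using key
  obtain ⟨χ, hχ⟩ := Finset.rado_selection (β := fun _ => Fin (n + 1))
    fun t => Function.extend (Sym2.map Subtype.val) (c t) 0
  obtain ⟨f, k, hf⟩ := h2 χ
  obtain ⟨t, ht, h3⟩ := hχ (Set.finite_range fun p : β × β => s(f p.1, f p.2)).toFinset
  have h4 : ∀ a b, s(f a, f b) ∈ (Set.finite_range fun p : β × β => s(f p.1, f p.2)).toFinset :=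
    fun a b => (Set.Finite.mem_toFinset _).2 ⟨(a, b), rfl⟩
  refine hc' t ⟨⟨⟨fun a => ⟨f a, _, ht (h4 a a), Sym2.mem_mk_left _ _⟩, fun h => f.toHom.map_rel h⟩,
    fun a b h => f.injective (congrArg Subtype.val h)⟩, k, fun a b h => ?_⟩
  rw [← hf a b h, h3 _ (h4 a b)]
  exact ((Sym2.map.injective Subtype.val_injective).extend_apply (c t) 0 _).symm

theorem exists_code {α : Type} [Finite α] (G : SimpleGraph α) :
    ∃ g : ℕ × List (ℕ × ℕ), Nonempty (G ≃g graphOf g.1 g.2) := PU1_code G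

end Pool.Agent.P.MP_48d4bc_co.EX.PI
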