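import Pool.Agent.K.MP_48d4bc_co.C5
import Pool.Agent.K.MP_48d4bc_co.C6

/-! Both graphs vary: the uniform upper bound and the diagonal argument. -/

set_option autoImplicit false

namespace Pool.Agent.P.MP_48d4bc_co.EX.PI

open Pool.Agent.Lib.PrimrecProp Filter

universe u

theorem PW_col : ∃ F : ℕ × List (ℕ × ℕ) → Bool, Primrec F ∧
    ∀ g, F g = true ↔ (graphOf g.1 g.2).Colorable 3 := by
  refine ⟨fun g => (PU2_lists g.1 3).any fun c =>
    (pairs (List.range g.1) (List.range g.1)).all fun p =>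
      !(PU2_adj g.2 p.1 p.2) || !(eqb (c.getD p.1 0) (c.getD p.2 0)), by fun_prop, fun g => ?_⟩
  simp only [List.any_eq_true, List.all_eq_true, mem_pairs, List.mem_range, Bool.or_eq_true,
    Bool.not_eq_true', ← Bool.not_eq_true, eqb_iff, Prod.forall, PU2_mem]
  constructor
  · rintro ⟨c, ⟨h1, h2⟩, H⟩
    have hlt : ∀ a : Fin g.1, c.getD a.1 0 < 3 := fun a => by
      have ha : a.1 < c.length := a.2.trans_eq h1.symm
      rw [List.getD_eq_getElem _ _ ha]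
      exact h2 _ (List.getElem_mem ha)
    refine ⟨SimpleGraph.Coloring.mk (fun a => ⟨c.getD a.1 0, hlt a⟩) fun {a b} h hc => ?_⟩
    rcases H a.1 b.1 ⟨a.2, b.2⟩ with h3 | h3
    · exact h3 ((PU2_adj_iff _ _ _).1 h)
    · exact h3 (congrArg Fin.val hc)
  · rintro ⟨C⟩
    have e : ∀ a (ha : a < g.1), (List.ofFn fun a => (C a).1).getD a 0 = (C ⟨a, ha⟩).1 :=
      fun a ha => by simp [ha]
    refine ⟨List.ofFn fun a => (C a).1, ⟨List.length_ofFn, fun x hx => ?_⟩, fun a b hab => ?_⟩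
    · obtain ⟨a, rfl⟩ := List.mem_ofFn.1 hx
      exact (C a).2
    · rw [e a hab.1, e b hab.2]
      by_cases h : PU2_adj g.2 a b = true
      · exact Or.inr fun h3 =>
          C.valid ((PU2_adj_iff g.2 ⟨a, hab.1⟩ ⟨b, hab.2⟩).2 h) (Fin.ext h3)
      · exact Or.inl h

theorem upper2 : ∃ R : ((ℕ × List (ℕ × ℕ)) × ℕ × List (ℕ × ℕ)) × ℕ → Prop, REPred R ∧
    ∀ p q : ℕ × List (ℕ × ℕ), (¬ (graphOf q.1 q.2).CliqueFree 3 ∧
      ((graphOf p.1 p.2).Colorable 3 ∨ (graphOf q.1 q.2).Colorable 3) ∧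
      Exceptional.{u} (graphOf p.1 p.2) (graphOf q.1 q.2)) ↔ ∀ n, R ((p, q), n) := by
  obtain ⟨F, hF, hF'⟩ := prim_free
  obtain ⟨A, hA, hA'⟩ := prim_arrow
  obtain ⟨C, hC, hC'⟩ := PW_col
  have hB : Primrec fun z : (((ℕ × List (ℕ × ℕ)) × ℕ × List (ℕ × ℕ)) × ℕ) × (ℕ × List (ℕ × ℕ)) =>
      (!F ((3, [(0, 1), (0, 2), (1, 2)]), z.1.1.2)) && (C z.1.1.1 &&
        (F (z.1.1.1, z.2) && A ((z.1.1.2, z.1.2), z.2))) := by
    have h1 : Primrec fun z : (((ℕ × List (ℕ × ℕ)) × ℕ × List (ℕ × ℕ)) × ℕ) ×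
      (ℕ × List (ℕ × ℕ)) => z.1.1.1 := Primrec.fst.comp (Primrec.fst.comp Primrec.fst)
    have h2 : Primrec fun z : (((ℕ × List (ℕ × ℕ)) × ℕ × List (ℕ × ℕ)) × ℕ) ×
      (ℕ × List (ℕ × ℕ)) => z.1.1.2 := Primrec.snd.comp (Primrec.fst.comp Primrec.fst)
    exact p_and (p_not (hF.comp ((Primrec.const _).pair h2))) (p_and (hC.comp h1)
      (p_and (hF.comp (h1.pair Primrec.snd))
        (hA.comp ((h2.pair (Primrec.snd.comp Primrec.fst)).pair Primrec.snd))))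
  refine ⟨_, PU3_re _ hB, fun p q => ?_⟩
  have key : ∀ n : ℕ, (∃ w : ℕ × List (ℕ × ℕ),
      ((!F ((3, [(0, 1), (0, 2), (1, 2)]), q)) && (C p && (F (p, w) && A ((q, n), w)))) = true) ↔
      (¬ (graphOf q.1 q.2).CliqueFree 3 ∧ (graphOf p.1 p.2).Colorable 3 ∧
        ∃ (V : Type u) (H : SimpleGraph V), (graphOf p.1 p.2).Free H ∧
          ∀ c : Sym2 V → Fin (n + 1), HasMonoCopy (graphOf q.1 q.2) H c) := by
    intro n
    rw [finite_host.{u} (graphOf p.1 p.2) (graphOf q.1 q.2) n, ← PU3_free,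
      ← hF' ((3, [(0, 1), (0, 2), (1, 2)]), q), ← exists_and_left, ← exists_and_left]
    refine exists_congr fun w => ?_
    rw [Bool.and_eq_true, Bool.and_eq_true, Bool.and_eq_true, hF' (p, w), hA' ((q, n), w), hC' p]
    simp
  constructor
  · rintro ⟨h1, h3, h2, h4⟩ n
    refine (key n).2 ⟨h1, h3.elim id fun h5 => ?_, h2 (n + 1) (by omega)⟩
    exact (T3.property_two_iff.{u} _ _ h5 h1).1 h4
  · intro hR
    obtain ⟨h1, h, -⟩ := (key 0).1 (hR 0)
    refine ⟨h1, Or.inl h, fun n hn => ?_, fun V H hH => countable_colouring H h h1 hH⟩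
    obtain ⟨m, rfl⟩ : ∃ m, n = m + 1 := ⟨n - 1, by omega⟩
    exact ((key m).1 (hR m)).2.2

theorem hard2 : ∃ p : ℕ × List (ℕ × ℕ), (graphOf p.1 p.2).Colorable 3 ∧
    ∀ R : ℕ × ℕ → Prop, REPred R → ∃ f : ℕ → ℕ × List (ℕ × ℕ), Computable f ∧
      ∀ e, ¬ (graphOf (f e).1 (f e).2).CliqueFree 3 ∧
        (Exceptional.{u} (graphOf p.1 p.2) (graphOf (f e).1 (f e).2) ↔ ∀ n, R (e, n)) := by
  obtain ⟨g, ⟨i⟩⟩ := exists_code GG
  refine ⟨g, gg_col.of_hom i.symm.toHom, fun R hR => ?_⟩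
  obtain ⟨f, hf, H⟩ := hard.{u} R hR
  refine ⟨f, hf, fun e => ⟨(H e).1, Iff.trans ?_ (H e).2⟩⟩
  simp only [Exceptional, SimpleGraph.free_congr_left i]

theorem no_limit : ¬ ∃ h : ((ℕ × List (ℕ × ℕ)) × ℕ × List (ℕ × ℕ)) × ℕ → Bool, Computable h ∧
    ∀ p q : ℕ × List (ℕ × ℕ), Exceptional.{u} (graphOf p.1 p.2) (graphOf q.1 q.2) ↔
      ∀ᶠ s in atTop, h ((p, q), s) = true := by
  rintro ⟨h, hh, H⟩
  obtain ⟨g, -, hg⟩ := hard2.{u}
  have hR : REPred fun z : ℕ × ℕ => (Nat.Partrec.Code.eval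
      (Denumerable.ofNat Nat.Partrec.Code z.1) (Nat.pair z.1 z.2)).Dom :=
    (Nat.Partrec.Code.eval_part.comp ((Computable.ofNat _).comp Computable.fst)
      (Primrec₂.natPair.to_comp.comp Computable.fst Computable.snd)).dom_re
  obtain ⟨f, hf, hfe⟩ := hg _ hR
  have h1 : Computable fun z : ℕ × ℕ => !h ((g, f z.1.unpair.1), z.1.unpair.2 + z.2) := by
    have hu : Computable fun z : ℕ × ℕ => z.1.unpair := Computable.unpair.comp Computable.fst
    exact Primrec.not.to_comp.comp (hh.comp (((Computable.const g).pair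
      (hf.comp (Computable.fst.comp hu))).pair
        (Primrec.nat_add.to_comp.comp (Computable.snd.comp hu) Computable.snd)))
  have h2 : Partrec fun m : ℕ => Nat.rfind fun s =>
      (Part.some (!h ((g, f m.unpair.1), m.unpair.2 + s)) : Part Bool) :=
    Partrec.rfind (p := fun m s : ℕ => Part.some (!h ((g, f m.unpair.1), m.unpair.2 + s)))
      h1.partrec
  obtain ⟨c, hc⟩ := Nat.Partrec.Code.exists_code.1 (Partrec.nat_iff.1 h2)
  have h3 := (H g (f (Encodable.encode c))).symm.trans (hfe (Encodable.encode c)).2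
  simp only [Denumerable.ofNat_encode, hc, Nat.unpair_pair] at h3
  refine (iff_not_self (a := ∀ᶠ s in atTop, h ((g, f (Encodable.encode c)), s) = true))
    (h3.trans ?_)
  rw [not_eventually, frequently_atTop]
  refine forall_congr' fun n => Nat.rfind_dom.trans
    ⟨fun ⟨s, hs, _⟩ => ⟨n + s, Nat.le_add_right _ _, ?_⟩,
      fun ⟨s, hs, h4⟩ => ⟨s - n, ?_, fun _ => trivial⟩⟩
  · simpa using (Part.mem_some_iff.1 hs).symm
  · refine Part.mem_some_iff.2 ?_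
    rw [Nat.add_sub_cancel' hs]
    simpa using h4

end Pool.Agent.P.MP_48d4bc_co.EX.PI
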