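import Pool.Agent.P.MP_48d4bc_co.Tools
import Pool.Agent.P.MP_48d4bc_co.Host

set_option autoImplicit false

namespace Pool.Agent.P.MP_48d4bc_co

/-- No chain of `n` cones with a common point. -/
def NoChain (n : ℕ) {X J : Type} (lab : J → X) (F : J → Set X) : Prop :=
  ∀ (ι : Type) [LinearOrder ι] (u : Finset ι) (k : ι → J) (η : X), u.card = n →
    (∀ β ∈ u, ∀ α ∈ u, β < α → lab (k α) ∈ F (k β)) → (∀ β ∈ u, η ∈ F (k β)) → False

theorem ext_on {n : ℕ} {X J Θ V : Type} [LinearOrder Θ] [Nonempty V] {lab : J → X}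
    {F : J → Set X} (hfree : NoChain n lab F) {G : SimpleGraph V}
    (hG : ∀ (y : Θ → V) (A : Set V), (∀ t : Finset V, ↑t ⊆ A → ¬ G.IsNClique n t) →
      ∃ z, ∀ i, z ≠ y i ∧ (G.Adj (y i) z ↔ y i ∈ A))
    (k : Θ → J) (y : Θ → V) (S : Set Θ)
    (hS : ∀ α ∈ S, ∀ β ∈ S, β < α → y α ≠ y β ∧ (G.Adj (y β) (y α) ↔ lab (k α) ∈ F (k β)))
    (η : X) : ∃ v, ∀ β ∈ S, v ≠ y β ∧ (G.Adj (y β) v ↔ η ∈ F (k β)) := by
  classical
  have hinj : Set.InjOn y S := by
    intro α hα β hβ h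
    rcases lt_trichotomy α β with hlt | heq | hlt
    · exact absurd h.symm (hS β hβ α hα hlt).1
    · exact heq
    · exact absurd h (hS α hα β hβ hlt).1
  let y' : Θ → V := fun β => if β ∈ S then y β else Classical.arbitrary V
  obtain ⟨v, hv⟩ := hG y' (y '' {β | β ∈ S ∧ η ∈ F (k β)}) (by
    intro t ht hc
    obtain ⟨u, hu, rfl⟩ := Finset.subset_set_image_iff.1 ht
    have huS : ∀ β ∈ u, β ∈ S := fun β hβ => (hu hβ).1
    refine hfree Θ u k η ?_ ?_ fun β hβ => (hu hβ).2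
    · rw [← hc.card_eq, Finset.card_image_of_injOn (hinj.mono huS)]
    · intro β hβ α hα hlt
      have h := hS α (huS α hα) β (huS β hβ) hlt
      exact h.2.1 (hc.isClique (Finset.mem_image_of_mem y hβ) (Finset.mem_image_of_mem y hα)
        h.1.symm))
  refine ⟨v, fun β hβ => ?_⟩
  have h := hv β
  simp only [y', if_pos hβ] at h
  refine ⟨h.1, h.2.trans ⟨?_, fun hη => ⟨β, ⟨hβ, hη⟩, rfl⟩⟩⟩
  rintro ⟨β', hβ', he⟩
  rw [← hinj hβ'.1 hβ he]
  exact hβ'.2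

/-- The reflection lemma. -/
theorem reflect {n : ℕ} (hn : 1 ≤ n) {X J : Type} (I C : Type) [Nonempty J] [Nonempty C]
    (lab : J → X) (F : J → Set X) (hfree : NoChain n lab F) :
    ∃ (V : Type) (G : SimpleGraph V), G.CliqueFree (n + 1) ∧ ∀ c : Sym2 V → C,
      ∃ (Θ : Type) (_ : LinearOrder Θ) (_ : Nonempty Θ) (k : Θ → J) (y : Θ → V) (z : X → V),
        (∀ β α, β < α → lab (k α) ∈ F (k β) → G.Adj (y β) (y α)) ∧
        (∀ β η, η ∈ F (k β) → G.Adj (y β) (z η)) ∧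
        ∀ (j : J) (D : I → Θ), ∃ α, k α = j ∧
          ∀ i, D i < α ∧ c s(y (D i), y α) = c s(y (D i), z (lab j)) := by
  classical
  obtain ⟨Θ, _, _, hΘ, k, D, g, hbook⟩ := exists_book J I C
  obtain ⟨V, hV, G, hG, hext⟩ := exists_host Θ hn
  refine ⟨V, G, hG, fun c => ?_⟩
  let Q1 : Θ → (Θ → V) → V → Prop := fun α y v =>
    ∀ β, β < α → v ≠ y β ∧ (G.Adj (y β) v ↔ lab (k α) ∈ F (k β))
  let Q2 : Θ → (Θ → V) → V → Prop := fun α y v =>
    ∀ i, D α i < α → c s(y (D α i), v) = g α i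
  have hQ1 : ∀ α y y', (∀ ζ, ζ < α → y ζ = y' ζ) → Q1 α y = Q1 α y' := by
    intro α y y' h
    funext v
    simp only [Q1]
    exact propext (forall_congr' fun β => forall_congr' fun hβ => by rw [h β hβ])
  have hQ2 : ∀ α y y', (∀ ζ, ζ < α → y ζ = y' ζ) → Q2 α y = Q2 α y' := by
    intro α y y' h
    funext v
    simp only [Q2]
    exact propext (forall_congr' fun i => forall_congr' fun hi => by rw [h _ hi])
  obtain ⟨y, hy⟩ := exists_rec_rel
    (fun α y v => Q1 α y v ∧ ((∃ v', Q1 α y v' ∧ Q2 α y v') → Q2 α y v))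
    (fun α y y' h => by rw [hQ1 α y y' h, hQ2 α y y' h])
  have hstep : ∀ α, (∃ v, Q1 α y v) →
      Q1 α y (y α) ∧ ((∃ v', Q1 α y v' ∧ Q2 α y v') → Q2 α y (y α)) := by
    rintro α ⟨v, hv⟩
    apply hy
    by_cases h : ∃ v', Q1 α y v' ∧ Q2 α y v'
    · obtain ⟨v', h1, h2⟩ := h
      exact ⟨v', h1, fun _ => h2⟩
    · exact ⟨v, hv, fun h' => absurd h' h⟩
  have hall : ∀ α, Q1 α y (y α) := by
    intro α
    induction α using WellFoundedLT.induction with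
    | ind α ih =>
      obtain ⟨v, hv⟩ := ext_on hfree hext k y (Set.Iio α)
        (fun γ hγ β _ hlt => ih γ hγ β hlt) (lab (k α))
      exact (hstep α ⟨v, hv⟩).1
  choose z hz using ext_on hfree hext k y Set.univ (fun γ _ β _ hlt => hall γ β hlt)
  refine ⟨Θ, inferInstance, hΘ, k, y, z, fun β α hlt h => (hall α β hlt).2.2 h,
    fun β η h => (hz η β trivial).2.2 h, fun j D' => ?_⟩
  obtain ⟨α, h1, h2, h3, h4⟩ := hbook j D' (fun i => c s(y (D' i), z (lab j)))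
  refine ⟨α, h1, fun i => ⟨h4 i, ?_⟩⟩
  have h5 := (hstep α ⟨_, hall α⟩).2 ⟨z (lab j), fun β _ => by rw [h1]; exact hz _ β trivial,
    fun i _ => by rw [h2, h3]⟩ i (by rw [h2]; exact h4 i)
  rw [h2, h3] at h5
  exact h5

end Pool.Agent.P.MP_48d4bc_co
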