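import Pool.Agent.P.MP_48d4bc_co.T3Desc

/-! Colourings of free families. -/

set_option autoImplicit false

namespace Pool.Agent.P.MP_48d4bc_co.T3

open Cardinal Set

variable {M : Type} {σ : Cardinal.{0}} {S S' : Sys M} (O : Over σ S S')

namespace Over

theorem meet_one {X : S'.C} {p q : S'.Z} (hp : p ∈ S'.pts X) (hq : q ∈ S'.pts X) (e : p ≠ q) :
    ∃ γ ∈ O.Pos X, Meet O.br p q γ := by
  rw [O.pts_eq] at hp hq
  obtain ⟨γ, hγ, rfl⟩ := hp
  obtain ⟨δ, hδ, rfl⟩ := hq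
  rcases lt_trichotomy γ δ with h | h | h
  · exact ⟨γ, hγ, O.meet_y X h⟩
  · exact absurd (by rw [h]) e
  · exact ⟨δ, hδ, (O.meet_y X h).symm⟩

/-- a new point of a new cone meets the old points at an old or a new position -/
theorem meet_new {A : Set S'.C} {X Y : S'.C} {a b : S'.Z} (hX : X ∈ A) (h1 : S'.arc X a b)
    (h2 : S'.arc Y a b) (h3 : ∀ X' ∈ A, S'.supp Y ∩ S'.supp X' ⊆ S'.base a b)
    (ih : ∀ p ∈ S'.ptsF A, ∀ q ∈ S'.ptsF A, p ≠ q → ∃ γ ∈ O.PosF A, Meet O.br p q γ)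
    {p q : S'.Z} (hp : p ∈ S'.ptsF A) (hq : q ∈ S'.pts Y) (qa : q ≠ a) (qb : q ≠ b) :
    ∃ γ ∈ O.PosF (insert Y A), Meet O.br p q γ := by
  obtain ⟨μ, -, hμY, hb, -, -, ha, ν, -, hμν, hν⟩ := O.arc_two h1 h2
  have hq' := hq
  rw [O.pts_eq] at hq'
  obtain ⟨ε, hε, rfl⟩ := hq'
  obtain ⟨δ, hδ, m2⟩ := O.meet_one hq h2.right qb
  by_cases pb : p = b
  · exact ⟨δ, ⟨Y, Or.inl rfl, hδ⟩, pb ▸ m2.symm⟩
  obtain ⟨γ, ⟨U, hU, hγ⟩, m1⟩ := ih p hp b ⟨X, hX, h1.right⟩ pb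
  rcases lt_trichotomy γ δ with h | h | h
  · exact ⟨γ, ⟨U, Or.inr hU, hγ⟩, m1.trans m2 h⟩
  · subst h
    have e : γ = μ := by
      by_contra e
      refine O.mark hδ hμY e ?_
      rw [← hb]
      exact h3 U hU ⟨O.dsupp_sub hδ (Or.inl rfl), O.dsupp_sub hγ (Or.inl rfl)⟩
    subst e
    rw [hν] at m2
    rcases lt_trichotomy ε ν with h | h | h
    · exact absurd (by rw [ha, m2.unique (O.meet_y Y h)]) qa
    · exact absurd (by rw [hν, h]) qb
    · exact absurd (m2.unique (O.meet_y Y h).symm) hμν.ne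
  · exact ⟨δ, ⟨Y, Or.inl rfl, hδ⟩, (m2.trans m1 h).symm⟩

theorem meet_free {n : ℕ} {A : Set S'.C} (h : S'.Free n A) :
    ∀ p ∈ S'.ptsF A, ∀ q ∈ S'.ptsF A, p ≠ q → ∃ γ ∈ O.PosF A, Meet O.br p q γ := by
  induction h with
  | one X =>
    rintro p ⟨_, rfl, hp⟩ q ⟨_, rfl, hq⟩ e
    obtain ⟨γ, h1, h2⟩ := O.meet_one hp hq e
    exact ⟨γ, ⟨_, rfl, h1⟩, h2⟩
  | up _ ih => exact ih
  | @add n A X Y a b _ hX h1 h2 h3 ih =>
    have key : ∀ p ∈ S'.ptsF A, ∀ q ∈ S'.pts Y, p ≠ q →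
        ∃ γ ∈ O.PosF (insert Y A), Meet O.br p q γ := by
      intro p hp q hq e
      by_cases hq' : q ∈ S'.ptsF A
      · obtain ⟨γ, ⟨U, hU, hγ⟩, m⟩ := ih p hp q hq' e
        exact ⟨γ, ⟨U, Or.inr hU, hγ⟩, m⟩
      · exact O.meet_new hX h1 h2 h3 ih hp hq (fun r => hq' ⟨X, hX, r ▸ h1.left⟩)
          fun r => hq' ⟨X, hX, r ▸ h1.right⟩
    rintro p ⟨U, rfl | hU, hp⟩ q ⟨W, rfl | hW, hq⟩ e
    · obtain ⟨γ, k1, k2⟩ := O.meet_one hp hq e
      exact ⟨γ, ⟨_, Or.inl rfl, k1⟩, k2⟩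
    · obtain ⟨γ, k1, k2⟩ := key q ⟨W, hW, hq⟩ p hp e.symm
      exact ⟨γ, k1, k2.symm⟩
    · exact key p ⟨U, hU, hp⟩ q hq e
    · obtain ⟨γ, ⟨Z, hZ, hγ⟩, m⟩ := ih p ⟨U, hU, hp⟩ q ⟨W, hW, hq⟩ e
      exact ⟨γ, ⟨Z, Or.inr hZ, hγ⟩, m⟩

end Over

theorem exists_perm3 : ∀ a b c d : Fin 3, a ≠ b → c ≠ d →
    ∃ s : Equiv.Perm (Fin 3), s a = c ∧ s b = d := by
  decide

theorem Sys.Bip.col {m : ℕ} (h : S.Bip m) (X : S.C) {P : Finset S.Z} (hP : P.card ≤ m) :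
    S.Col {X} P := by
  classical
  obtain ⟨c, hc⟩ := h X P hP
  refine ⟨fun p => if p = S.ap X then 2 else if c p then 1 else 0, ?_⟩
  intro Y hY a ha b hb hab
  rw [hY] at hab
  have h1 : b ≠ S.ap X := fun e => S.ap_not X (e ▸ hab.right')
  rcases hab with ⟨rfl, -⟩ | hab
  · simp only [if_neg h1, if_true]
    split_ifs <;> decide
  · have h2 : a ≠ S.ap X := fun e => S.ap_not X (e ▸ S.h_left hab)
    have := hc a ha b hb hab
    simp only [if_neg h1, if_neg h2]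
    cases h3 : c a <;> cases h4 : c b <;> simp_all

include O in
theorem Over.col_free {m : ℕ} (hB : S'.Bip m) {n : ℕ} {A : Set S'.C} (h : S'.Free n A) :
    ∀ P : Finset S'.Z, P.card + 2 * n ≤ m → S'.Col A P := by
  classical
  induction h with
  | one X => exact fun P hP => hB.col X (by omega)
  | up _ ih => exact fun P hP => ih P (by omega)
  | @add n A X Y a b hA hX h1 h2 h3 ih =>
    intro P hP
    have hc : (insert a (insert b P)).card ≤ P.card + 2 :=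
      (Finset.card_insert_le _ _).trans (Nat.succ_le_succ (Finset.card_insert_le _ _))
    have ha : a ∈ insert a (insert b P) := by simp
    have hb : b ∈ insert a (insert b P) := by simp
    have hs : ∀ x ∈ P, x ∈ insert a (insert b P) := fun x hx => by simp [hx]
    obtain ⟨c, hc1⟩ := ih (insert a (insert b P)) (by omega)
    obtain ⟨c', hc2⟩ := hB.col Y (P := insert a (insert b P)) (by omega)
    obtain ⟨s, s1, s2⟩ := exists_perm3 _ _ _ _ (hc2 Y rfl a ha b hb h2) (hc1 X hX a ha b hb h1)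
    have e : ∀ p ∈ S'.ptsF A, (if p ∈ S'.pts Y then s (c' p) else c p) = c p := by
      intro p hp
      split_ifs with hY
      · by_cases pa : p = a
        · rw [pa, s1]
        by_cases pb : p = b
        · rw [pb, s2]
        obtain ⟨γ, -, m⟩ := O.meet_new hX h1 h2 h3 (O.meet_free hA) hp hY pa pb
        exact absurd rfl m.ne
      · rfl
    refine ⟨fun p => if p ∈ S'.pts Y then s (c' p) else c p, ?_⟩
    rintro U (rfl | hU) p hp q hq hpq
    · simp only [if_pos hpq.left, if_pos hpq.right]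
      exact s.injective.ne (hc2 U rfl p (hs p hp) q (hs q hq) hpq)
    · simp only [e p ⟨U, hU, hpq.left⟩, e q ⟨U, hU, hpq.right⟩]
      exact hc1 U hU p (hs p hp) q (hs q hq) hpq

/-- gluing colourings along an ultrametric -/
theorem glue {Θ V G : Type} [LinearOrder Θ] (br : V → Θ → V) (own : Θ → G) (c : G → V → Fin 3)
    (Γ : Finset Θ) : ∀ P : G → Set V,
      (∀ a, ∀ p ∈ P a, ∀ q ∈ P a, p ≠ q → ∃ γ ∈ Γ, own γ = a ∧ Meet br p q γ) →
      ∃ c₀ : V → Fin 3, ∀ a, ∃ s : Equiv.Perm (Fin 3), ∀ p ∈ P a, c₀ p = s (c a p) := by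
  classical
  induction Γ using Finset.induction_on_min with
  | empty =>
    intro P h
    refine ⟨fun _ => 0, fun a => ?_⟩
    rcases (P a).eq_empty_or_nonempty with e | ⟨p, hp⟩
    · exact ⟨1, fun p hp => absurd (e ▸ hp) (notMem_empty p)⟩
    · refine ⟨Equiv.swap (c a p) 0, fun q hq => ?_⟩
      by_cases e : q = p
      · rw [e, Equiv.swap_apply_left]
      · obtain ⟨γ, hγ, -⟩ := h a q hq p hp e
        exact absurd hγ (Finset.notMem_empty γ)
  | insert μ Γ hμ ih =>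
    intro P h
    let K : V → Set V := fun p => {q | ∀ δ, δ ≤ μ → br q δ = br p δ}
    have h1 : ∀ T : Set V, ∃ c₀ : V → Fin 3, (∃ p, T = K p) →
        (∀ p ∈ P (own μ) ∩ T, c₀ p = c (own μ) p) ∧
        ∀ a, ∃ s : Equiv.Perm (Fin 3), ∀ p ∈ P a ∩ T, c₀ p = s (c a p) := by
      intro T
      by_cases hT : ∃ p, T = K p
      · obtain ⟨r, rfl⟩ := hT
        obtain ⟨c₀, hc⟩ := ih (fun a => P a ∩ K r) (by
          rintro a p ⟨hp, hp'⟩ q ⟨hq, hq'⟩ e
          obtain ⟨γ, hγ, k1, k2⟩ := h a p hp q hq e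
          rcases Finset.mem_insert.1 hγ with rfl | hγ
          · exact absurd ((hp' γ le_rfl).trans (hq' γ le_rfl).symm) k2.1
          · exact ⟨γ, hγ, k1, k2⟩)
        obtain ⟨t, ht⟩ := hc (own μ)
        refine ⟨fun p => t.symm (c₀ p), fun _ => ⟨fun p hp => by
          simp only [ht p hp, Equiv.symm_apply_apply], fun a => ?_⟩⟩
        obtain ⟨s, hs⟩ := hc a
        exact ⟨s.trans t.symm, fun p hp => by simp only [hs p hp, Equiv.trans_apply]⟩
      · exact ⟨fun _ => 0, fun q => absurd q hT⟩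
    choose c₁ hc using h1
    have hK : ∀ p, p ∈ K p := fun p _ _ => rfl
    refine ⟨fun p => c₁ (K p) p, fun a => ?_⟩
    by_cases ha : a = own μ
    · exact ⟨1, fun p hp => ha ▸ (hc (K p) ⟨p, rfl⟩).1 p ⟨ha ▸ hp, hK p⟩⟩
    rcases (P a).eq_empty_or_nonempty with e | ⟨r, hr⟩
    · exact ⟨1, fun p hp => absurd (e ▸ hp) (notMem_empty p)⟩
    obtain ⟨s, hs⟩ := (hc (K r) ⟨r, rfl⟩).2 a
    refine ⟨s, fun p hp => ?_⟩
    have h2 : p ∈ K r := by
      by_cases e : p = r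
      · exact e ▸ hK p
      obtain ⟨γ, hγ, k1, k2⟩ := h a p hp r hr e
      rcases Finset.mem_insert.1 hγ with rfl | hγ
      · exact absurd k1.symm ha
      · exact fun δ hδ => k2.2 δ (hδ.trans_lt (hμ γ hγ))
    have h3 : K p = K r := by
      ext q
      exact forall₂_congr fun δ hδ => by rw [h2 δ hδ]
    simp only [h3]
    exact hs p ⟨hp, h2⟩

end Pool.Agent.P.MP_48d4bc_co.T3
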