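import Mathlib

/-! Cone systems, stars and towers. -/

set_option autoImplicit false

namespace Pool.Agent.P.MP_48d4bc_co.T3

open Cardinal Set

/-- Cone systems with supports in `M`. -/
structure Sys (M : Type) where
  Z : Type
  C : Type
  pt : Z
  ap : C → Z
  F : C → Set Z
  h : C → Z → Z → Prop
  supp : C → Set M
  base : Z → Z → Set M
  root : C → Set M
  h_left : ∀ {X a b}, h X a b → a ∈ F X
  h_right : ∀ {X a b}, h X a b → b ∈ F X
  h_wf : ∀ X, WellFounded (h X)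
  ap_not : ∀ X, ap X ∉ F X
  base_ap : ∀ {X b}, b ∈ F X → base (ap X) b = root X
  base_sub : ∀ {X a b}, h X a b → base a b ⊆ supp X
  root_sub : ∀ X, root X ⊆ supp X

variable {M : Type}

namespace Sys

variable (S : Sys M)

/-- arcs of a cone -/
def arc (X : S.C) (a b : S.Z) : Prop := (a = S.ap X ∧ b ∈ S.F X) ∨ S.h X a b

/-- points of a cone -/
def pts (X : S.C) : Set S.Z := insert (S.ap X) (S.F X)

/-- points of a family of cones -/
def ptsF (A : Set S.C) : Set S.Z := {p | ∃ X ∈ A, p ∈ S.pts X}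

/-- all cones are small -/
def Small (σ : Cardinal.{0}) : Prop := ∀ X, #(S.F X) ≤ σ ∧ #(S.supp X) ≤ σ

/-- the horizontal arcs are locally bipartite -/
def Bip (m : ℕ) : Prop := ∀ (X : S.C) (P : Finset S.Z), P.card ≤ m →
  ∃ c : S.Z → Bool, ∀ a ∈ P, ∀ b ∈ P, S.h X a b → c a ≠ c b

/-- the horizontal arcs have no proper colouring -/
def Large (L : Type) (X : S.C) : Prop := ∀ c : S.Z → L, ∃ a b, S.h X a b ∧ c a = c b

/-- the partition property -/
def Ram (Λ L : Type) (κ : Cardinal.{0}) : Prop :=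
  ∀ (π : S.Z → S.Z → Λ) (D : S.Z → S.Z → Set M), (∀ a b, #(D a b) ≤ κ) →
    ∃ (X : S.C) (j : Λ), S.Large L X ∧
      ∀ a b, S.arc X a b → π a b = j ∧ S.supp X ∩ D a b ⊆ S.base a b

/-- free families of cones -/
inductive Free : ℕ → Set S.C → Prop
  | one (X : S.C) : Free 1 {X}
  | add {n : ℕ} {A : Set S.C} {X Y : S.C} {a b : S.Z} (hA : Free n A) (hX : X ∈ A)
      (h1 : S.arc X a b) (h2 : S.arc Y a b)
      (h3 : ∀ X' ∈ A, S.supp Y ∩ S.supp X' ⊆ S.base a b) : Free (n + 1) (insert Y A)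
  | up {n : ℕ} {A : Set S.C} (hA : Free n A) : Free (n + 1) A

/-- proper colourings of the arcs inside `P` -/
def Col (G : Set S.C) (P : Finset S.Z) : Prop :=
  ∃ c : S.Z → Fin 3, ∀ X ∈ G, ∀ a ∈ P, ∀ b ∈ P, S.arc X a b → c a ≠ c b

variable {S}

theorem arc.left {X : S.C} {a b : S.Z} (h : S.arc X a b) : a ∈ S.pts X := by
  rcases h with ⟨h, -⟩ | h
  · exact Or.inl h
  · exact Or.inr (S.h_left h)

theorem arc.right' {X : S.C} {a b : S.Z} (h : S.arc X a b) : b ∈ S.F X := by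
  rcases h with ⟨-, h⟩ | h
  · exact h
  · exact S.h_right h

theorem arc.right {X : S.C} {a b : S.Z} (h : S.arc X a b) : b ∈ S.pts X := Or.inr h.right'

theorem arc.base_sub {X : S.C} {a b : S.Z} (h : S.arc X a b) : S.base a b ⊆ S.supp X := by
  rcases h with ⟨rfl, h⟩ | h
  · rw [S.base_ap h]
    exact S.root_sub X
  · exact S.base_sub h

theorem arc.ne {X : S.C} {a b : S.Z} (h : S.arc X a b) : a ≠ b := by
  rintro rfl
  rcases h with ⟨rfl, h⟩ | h
  · exact S.ap_not X h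
  · exact (S.h_wf X).irrefl.irrefl a h

theorem Free.mono {n m : ℕ} {A : Set S.C} (h : S.Free n A) (hm : n ≤ m) : S.Free m A := by
  induction hm with
  | refl => exact h
  | step _ ih => exact ih.up

theorem Free.encard_le {n : ℕ} {A : Set S.C} (h : S.Free n A) : A.encard ≤ n := by
  induction h with
  | one X => simp
  | add _ _ _ _ _ ih =>
    refine (encard_insert_le _ _).trans ?_
    push_cast
    gcongr
  | up _ ih =>
    refine ih.trans ?_
    push_cast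
    exact le_self_add

end Sys

/-- A centre with leaves and a marker. -/
structure Star (σ : Cardinal.{0}) (S : Sys M) where
  cen : S.C
  lv : Set S.C
  tag : M
  leaf : ∀ N ∈ lv, ∃ b ∈ S.F cen, S.h N (S.ap cen) b
  sep : ∀ N ∈ lv, ∀ N' ∈ insert cen lv, N ≠ N' → S.supp N ∩ S.supp N' ⊆ S.root cen
  fresh : ∀ N ∈ insert cen lv, tag ∉ S.supp N
  small : #(lv) ≤ σ

namespace Star

variable {σ : Cardinal.{0}} {S : Sys M} (d : Star σ S)

/-- the cones of a star -/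
def mem : Set S.C := insert d.cen d.lv

/-- the support of a star -/
def dsupp : Set M := {x | x = d.tag ∨ ∃ N ∈ d.mem, x ∈ S.supp N}

/-- the support without one cone -/
def outer (ξ : S.C) : Set M := {x | x = d.tag ∨ ∃ N ∈ d.mem, N ≠ ξ ∧ x ∈ S.supp N}

theorem cen_mem : d.cen ∈ d.mem := Or.inl rfl

theorem mem_of_lv {N : S.C} (h : N ∈ d.lv) : N ∈ d.mem := Or.inr h

theorem supp_sub {N : S.C} (h : N ∈ d.mem) : S.supp N ⊆ d.dsupp := fun _ hx => Or.inr ⟨N, h, hx⟩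

theorem supp_sub_outer {N ξ : S.C} (h : N ∈ d.mem) (h' : N ≠ ξ) : S.supp N ⊆ d.outer ξ :=
  fun _ hx => Or.inr ⟨N, h, h', hx⟩

theorem outer_sub (ξ : S.C) : d.outer ξ ⊆ d.dsupp := by
  rintro x (h | ⟨N, h, -, h'⟩)
  exacts [Or.inl h, Or.inr ⟨N, h, h'⟩]

theorem dsupp_sub (ξ : S.C) : d.dsupp ⊆ d.outer ξ ∪ S.supp ξ := by
  rintro x (h | ⟨N, h, h'⟩)
  · exact Or.inl (Or.inl h)
  · by_cases e : N = ξ
    · exact Or.inr (e ▸ h')
    · exact Or.inl (Or.inr ⟨N, h, e, h'⟩)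

theorem sep' {N N' : S.C} (h : N ∈ d.mem) (h' : N' ∈ d.mem) (e : N ≠ N') :
    S.supp N ∩ S.supp N' ⊆ S.root d.cen := by
  rcases h with rfl | h
  · rcases h' with rfl | h'
    · exact absurd rfl e
    · rw [inter_comm]
      exact d.sep _ h' _ (Or.inl rfl) e.symm
  · exact d.sep _ h _ h' e

theorem mk_dsupp_le (hσ : ℵ₀ ≤ σ) (hS : S.Small σ) : #(d.dsupp) ≤ σ := by
  have h1 : d.dsupp = insert d.tag (⋃ N ∈ d.mem, S.supp N) := by
    ext x
    simp [dsupp]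
  have h2 : #(d.mem) ≤ σ :=
    mk_insert_le.trans (add_le_of_le hσ d.small (one_le_aleph0.trans hσ))
  rw [h1]
  refine mk_insert_le.trans (add_le_of_le hσ ?_ (one_le_aleph0.trans hσ))
  refine (mk_biUnion_le _ _).trans (mul_le_of_le hσ h2 ?_)
  exact ciSup_le' fun N => (hS N.1).2

end Star

/-- `γ` is the first place where the branches differ -/
def Meet {Θ V : Type} [LinearOrder Θ] (br : V → Θ → V) (p q : V) (γ : Θ) : Prop :=
  br p γ ≠ br q γ ∧ ∀ δ, δ < γ → br p δ = br q δ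

section Meet

variable {Θ V : Type} [LinearOrder Θ] {br : V → Θ → V} {p q r : V} {γ γ' : Θ}

theorem Meet.symm (h : Meet br p q γ) : Meet br q p γ :=
  ⟨h.1.symm, fun δ hδ => (h.2 δ hδ).symm⟩

theorem Meet.ne (h : Meet br p q γ) : p ≠ q := fun e => h.1 (by rw [e])

theorem Meet.unique (h : Meet br p q γ) (h' : Meet br p q γ') : γ = γ' := by
  rcases lt_trichotomy γ γ' with e | e | e
  exacts [absurd (h'.2 _ e) h.1, e, absurd (h.2 _ e) h'.1]

theorem Meet.trans (h : Meet br p q γ) (h' : Meet br r q γ') (e : γ < γ') : Meet br p r γ :=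
  ⟨by rw [h'.2 _ e]; exact h.1, fun δ hδ => by rw [h.2 _ hδ, h'.2 _ (hδ.trans e)]⟩

end Meet

/-- The system `S'` lies over the system `S`. -/
structure Over (σ : Cardinal.{0}) (S S' : Sys M) where
  Θ : Type
  lo : LinearOrder Θ
  dat : Θ → Star σ S
  lab : S'.Z → S.Z
  br : S'.Z → Θ → S'.Z
  dn : S'.C → S.C
  y : S'.C → Θ → S'.Z
  Pos : S'.C → Set Θ
  pts_eq : ∀ X, S'.pts X = y X '' Pos X
  br_lt : ∀ X γ δ, δ < γ → br (y X γ) δ = y X δ
  br_ne : ∀ X γ, br (y X γ) γ ≠ y X γ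
  arc_pos : ∀ {X p q}, S'.arc X p q → ∃ μ ∈ Pos X, ∃ ν ∈ Pos X, μ < ν ∧ p = y X μ ∧ q = y X ν ∧
    S'.base p q = (dat μ).dsupp ∧ lab p = S.ap (dat μ).cen ∧ lab q ∈ S.F (dat μ).cen ∧
    S.arc (dn X) (lab p) (lab q)
  dn_mem : ∀ {X γ}, γ ∈ Pos X → dn X ∈ (dat γ).mem
  supp_eq : ∀ X, S'.supp X = ⋃ γ ∈ Pos X, (dat γ).dsupp
  inv : ∀ {X γ δ N}, γ ∈ Pos X → δ ∈ Pos X → γ ≠ δ → N ∈ (dat γ).mem → N ≠ dn X →
    S.supp N ∩ (dat δ).dsupp ⊆ S.root (dat γ).cen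
  mark : ∀ {X γ δ}, γ ∈ Pos X → δ ∈ Pos X → γ ≠ δ → (dat γ).tag ∉ (dat δ).dsupp

namespace Over

variable {σ : Cardinal.{0}} {S S' : Sys M} (O : Over σ S S')

instance : LinearOrder O.Θ := O.lo

/-- positions of a family of cones -/
def PosF (A : Set S'.C) : Set O.Θ := {γ | ∃ X ∈ A, γ ∈ O.Pos X}

theorem meet_y (X : S'.C) {γ δ : O.Θ} (h : γ < δ) : Meet O.br (O.y X γ) (O.y X δ) γ :=
  ⟨by rw [O.br_lt X δ γ h]; exact O.br_ne X γ,
    fun ε hε => by rw [O.br_lt X γ ε hε, O.br_lt X δ ε (hε.trans h)]⟩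

theorem pos_nonempty (X : S'.C) : (O.Pos X).Nonempty := by
  have : S'.ap X ∈ S'.pts X := Or.inl rfl
  rw [O.pts_eq] at this
  obtain ⟨γ, h, -⟩ := this
  exact ⟨γ, h⟩

end Over

/-- towers of systems -/
inductive Tw (σ : Cardinal.{0}) : ℕ → Sys M → Prop
  | zero (S : Sys M) : Tw σ 0 S
  | succ {n : ℕ} {S S' : Sys M} (h : Tw σ n S) (O : Over σ S S') (b : S'.Bip (n + 1)) :
      Tw σ (n + 1) S'

theorem Tw.bip {σ : Cardinal.{0}} {n : ℕ} {S : Sys M} (h : Tw σ n S) : S.Bip n := by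
  cases h with
  | zero S =>
    intro X P hP
    refine ⟨fun _ => true, fun a ha => ?_⟩
    rw [Finset.card_eq_zero.1 (Nat.le_zero.1 hP)] at ha
    exact absurd ha (Finset.notMem_empty a)
  | succ _ _ b => exact b

/-- well founded trees -/
inductive Tr (Z Θ : Type) : Type
  | nil : Tr Z Θ
  | mk (a : Z) (B : Θ → Tr Z Θ) : Tr Z Θ

/-- the branch of a tree -/
def Tr.br {Z Θ : Type} : Tr Z Θ → Θ → Tr Z Θ
  | .nil => fun _ => .nil
  | .mk _ B => B

/-- the label of a tree -/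
def Tr.lab {Z Θ : Type} (z : Z) : Tr Z Θ → Z
  | .nil => z
  | .mk a _ => a

theorem Tr.br_ne {Z Θ : Type} (a : Z) (B : Θ → Tr Z Θ) (γ : Θ) : B γ ≠ Tr.mk a B := by
  have key : ∀ p : Tr Z Θ, p ≠ .nil → p.br γ ≠ p := by
    intro p
    induction p with
    | nil => exact fun h => absurd rfl h
    | mk a B ih =>
      intro _ h
      have h' : B γ = Tr.mk a B := h
      refine ih γ (by rw [h']; exact nofun) ?_
      rw [h']
      exact h'
  exact key (Tr.mk a B) nofun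

/-- horizontal arcs inside `T` -/
def Idx (S : Sys M) (ξ : S.C) (T : Set S.Z) (e : S.Z × S.Z) : Prop :=
  e.1 ∈ T ∧ e.2 ∈ T ∧ S.h ξ e.1 e.2

/-- the cones of the next system -/
structure Cone {σ : Cardinal.{0}} {S : Sys M} {Θ : Type} [LinearOrder Θ]
    (dat : Θ → Star σ S) where
  y : Θ → Tr S.Z Θ
  β : Θ
  T : Set S.Z
  α : S.Z × S.Z → Θ
  node : ∀ γ, ∃ B, y γ = Tr.mk (S.ap (dat γ).cen) B ∧ ∀ δ, δ < γ → B δ = y δ
  lt : ∀ {e}, Idx S (dat β).cen T e → β < α e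
  lt' : ∀ {e e'}, Idx S (dat β).cen T e → Idx S (dat β).cen T e' → e.2 = e'.1 → α e < α e'
  ap_eq : ∀ {e}, Idx S (dat β).cen T e → S.ap (dat (α e)).cen = e.1
  mem : ∀ {e}, Idx S (dat β).cen T e → e.2 ∈ S.F (dat (α e)).cen
  leaf : ∀ {e}, Idx S (dat β).cen T e → (dat β).cen ∈ (dat (α e)).lv
  out0 : ∀ {e}, Idx S (dat β).cen T e →
    (dat (α e)).outer (dat β).cen ∩ (dat β).dsupp ⊆ S.base e.1 e.2
  out : ∀ {e e'}, Idx S (dat β).cen T e → Idx S (dat β).cen T e' → e ≠ e' →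
    (dat (α e)).outer (dat β).cen ∩ (dat (α e')).outer (dat β).cen ⊆ S.base e.1 e.2

namespace Cone

variable {σ : Cardinal.{0}} {S : Sys M} {Θ : Type} [LinearOrder Θ] {dat : Θ → Star σ S}
  (X : Cone dat)

/-- the index set -/
def I (e : S.Z × S.Z) : Prop := Idx S (dat X.β).cen X.T e

/-- the positions -/
def Pos : Set Θ := {γ | γ = X.β ∨ ∃ e, X.I e ∧ γ = X.α e}

theorem br_lt {γ δ : Θ} (h : δ < γ) : (X.y γ).br δ = X.y δ := by
  obtain ⟨B, h1, h2⟩ := X.node γ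
  rw [h1]
  exact h2 δ h

theorem br_ne (γ : Θ) : (X.y γ).br γ ≠ X.y γ := by
  obtain ⟨B, h1, -⟩ := X.node γ
  rw [h1]
  exact Tr.br_ne _ B γ

theorem lab_y (z : S.Z) (γ : Θ) : (X.y γ).lab z = S.ap (dat γ).cen := by
  obtain ⟨B, h1, -⟩ := X.node γ
  rw [h1]
  rfl

theorem meet {γ δ : Θ} (h : γ < δ) : Meet Tr.br (X.y γ) (X.y δ) γ :=
  ⟨by rw [X.br_lt h]; exact X.br_ne γ, fun ε hε => by rw [X.br_lt hε, X.br_lt (hε.trans h)]⟩

theorem y_inj : Function.Injective X.y := by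
  intro γ δ e
  rcases lt_trichotomy γ δ with h | h | h
  exacts [absurd e (X.meet h).ne, h, absurd e.symm (X.meet h).ne]

end Cone

theorem base_of_meet {σ : Cardinal.{0}} {S : Sys M} {Θ V : Type} [LinearOrder Θ]
    {dat : Θ → Star σ S} {br : V → Θ → V} {p q : V} {μ : Θ} (h : Meet br p q μ) :
    {x | ∃ γ, Meet br p q γ ∧ x ∈ (dat γ).dsupp} = (dat μ).dsupp := by
  ext x
  exact ⟨fun ⟨γ, h1, h2⟩ => h1.unique h ▸ h2, fun h2 => ⟨μ, h, h2⟩⟩

/-- the next system -/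
def step {σ : Cardinal.{0}} {S : Sys M} {Θ : Type} [LinearOrder Θ] [WellFoundedLT Θ]
    (dat : Θ → Star σ S) : Sys M where
  Z := Tr S.Z Θ
  C := Cone dat
  pt := Tr.nil
  ap X := X.y X.β
  F X := {p | ∃ e, X.I e ∧ p = X.y (X.α e)}
  h X p q := ∃ e e', X.I e ∧ X.I e' ∧ e.2 = e'.1 ∧ p = X.y (X.α e) ∧ q = X.y (X.α e')
  supp X := ⋃ γ ∈ X.Pos, (dat γ).dsupp
  base p q := {x | ∃ γ, Meet Tr.br p q γ ∧ x ∈ (dat γ).dsupp}
  root X := (dat X.β).dsupp
  h_left := fun ⟨e, _, h, _, _, hp, _⟩ => ⟨e, h, hp⟩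
  h_right := fun ⟨_, e, _, h, _, _, hq⟩ => ⟨e, h, hq⟩
  h_wf X := by
    have : Nonempty Θ := ⟨X.β⟩
    refine Subrelation.wf ?_ (InvImage.wf (Function.invFun X.y) wellFounded_lt)
    rintro p q ⟨e, e', h, h', h2, rfl, rfl⟩
    change Function.invFun X.y _ < Function.invFun X.y _
    rw [Function.leftInverse_invFun X.y_inj, Function.leftInverse_invFun X.y_inj]
    exact X.lt' h h' h2
  ap_not X := fun ⟨_, h, he⟩ => (X.lt h).ne (X.y_inj he)
  base_ap := by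
    rintro X b ⟨e, h, rfl⟩
    exact base_of_meet (X.meet (X.lt h))
  base_sub := by
    rintro X p q ⟨e, e', h, h', h2, rfl, rfl⟩
    rw [base_of_meet (X.meet (X.lt' h h' h2))]
    exact subset_biUnion_of_mem (u := fun γ => (dat γ).dsupp) (Or.inr ⟨e, h, rfl⟩)
  root_sub X := subset_biUnion_of_mem (u := fun γ => (dat γ).dsupp) (Or.inl rfl)

end Pool.Agent.P.MP_48d4bc_co.T3
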