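import Pool.Agent.P.MP_48d4bc_co.T3Defs

/-! Descent of free families. -/

set_option autoImplicit false

namespace Pool.Agent.P.MP_48d4bc_co.T3

open Cardinal Set

variable {M : Type} {σ : Cardinal.{0}} {S S' : Sys M} (O : Over σ S S')

namespace Over

theorem dsupp_sub {X : S'.C} {γ : O.Θ} (h : γ ∈ O.Pos X) : (O.dat γ).dsupp ⊆ S'.supp X := by
  rw [O.supp_eq]
  exact subset_biUnion_of_mem (u := fun γ => (O.dat γ).dsupp) h

/-- the data of an arc that lies in two cones -/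
theorem arc_two {X Y : S'.C} {a b : S'.Z} (h1 : S'.arc X a b) (h2 : S'.arc Y a b) :
    ∃ μ, μ ∈ O.Pos X ∧ μ ∈ O.Pos Y ∧ S'.base a b = (O.dat μ).dsupp ∧
      S.base (O.lab a) (O.lab b) = S.root (O.dat μ).cen ∧ Meet O.br a b μ ∧ a = O.y Y μ ∧
      ∃ ν ∈ O.Pos Y, μ < ν ∧ b = O.y Y ν := by
  obtain ⟨μ, hμ, ν, -, h3, h4, h5, -⟩ := O.arc_pos h1
  obtain ⟨μ', hμ', ν', hν', h3', h4', h5', h6, h7, h8, -⟩ := O.arc_pos h2
  have m1 : Meet O.br a b μ := by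
    rw [h4, h5]
    exact O.meet_y X h3
  have m2 : Meet O.br a b μ' := by
    rw [h4', h5']
    exact O.meet_y Y h3'
  obtain rfl := m1.unique m2
  exact ⟨μ, hμ, hμ', h6, by rw [h7, S.base_ap h8], m1, h4', ν', hν', h3', h5'⟩

theorem inv_free {n : ℕ} {A : Set S'.C} (h : S'.Free n A) : ∀ γ ∈ O.PosF A, ∀ δ ∈ O.PosF A,
    γ ≠ δ → ∀ N ∈ (O.dat γ).mem, N ∉ O.dn '' A →
      S.supp N ∩ (O.dat δ).dsupp ⊆ S.root (O.dat γ).cen := by
  induction h with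
  | one X =>
    rintro γ ⟨_, rfl, hγ⟩ δ ⟨_, rfl, hδ⟩ hne N hN hN'
    exact O.inv hγ hδ hne hN fun e => hN' ⟨_, rfl, e.symm⟩
  | up _ ih => exact ih
  | @add n A X Y a b _ hX h1 h2 h3 ih =>
    obtain ⟨μ, hμX, hμY, hb, -⟩ := O.arc_two h1 h2
    have hμ : μ ∈ O.PosF A := ⟨X, hX, hμX⟩
    rintro γ ⟨U, hU, hγ⟩ δ ⟨W, hW, hδ⟩ hne N hN hN'
    have n1 : N ≠ O.dn Y := fun e => hN' ⟨Y, Or.inl rfl, e.symm⟩
    have n2 : N ∉ O.dn '' A := fun ⟨Z, hZ, e⟩ => hN' ⟨Z, Or.inr hZ, e⟩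
    rcases hU with rfl | hU
    · rcases hW with rfl | hW
      · exact O.inv hγ hδ hne hN n1
      · by_cases e : γ = μ
        · exact ih γ (e ▸ hμ) δ ⟨W, hW, hδ⟩ hne N hN n2
        · rintro x ⟨x1, x2⟩
          refine O.inv hγ hμY e hN n1 ⟨x1, ?_⟩
          rw [← hb]
          exact h3 W hW ⟨O.dsupp_sub hγ ((O.dat γ).supp_sub hN x1), O.dsupp_sub hδ x2⟩
    · rcases hW with rfl | hW
      · by_cases e : γ = μ
        · exact O.inv (e ▸ hμY) hδ hne hN n1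
        · rintro x ⟨x1, x2⟩
          refine ih γ ⟨U, hU, hγ⟩ μ hμ e N hN n2 ⟨x1, ?_⟩
          rw [← hb]
          exact h3 U hU ⟨O.dsupp_sub hδ x2, O.dsupp_sub hγ ((O.dat γ).supp_sub hN x1)⟩
      · exact ih γ ⟨U, hU, hγ⟩ δ ⟨W, hW, hδ⟩ hne N hN n2

theorem sep_free {n : ℕ} {A : Set S'.C} (h : S'.Free n A) {γ : O.Θ} (hγ : γ ∈ O.PosF A)
    {N : S.C} (hN : N ∈ (O.dat γ).mem) (hN' : N ∉ O.dn '' A) :
    ∀ U ∈ O.dn '' A, S.supp N ∩ S.supp U ⊆ S.root (O.dat γ).cen := by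
  rintro _ ⟨X, hX, rfl⟩
  obtain ⟨δ, hδ⟩ := O.pos_nonempty X
  by_cases e : γ = δ
  · exact (O.dat γ).sep' hN (O.dn_mem (e ▸ hδ)) fun q => hN' ⟨X, hX, q.symm⟩
  · exact (inter_subset_inter_right _ ((O.dat δ).supp_sub (O.dn_mem hδ))).trans
      (O.inv_free h γ hγ δ ⟨X, hX, hδ⟩ e N hN hN')

theorem arc_dn {X : S'.C} {a b : S'.Z} (h : S'.arc X a b) :
    S.arc (O.dn X) (O.lab a) (O.lab b) := by
  obtain ⟨_, _, _, _, _, _, _, _, _, _, h⟩ := O.arc_pos h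
  exact h

theorem free_dn {n : ℕ} {A : Set S'.C} (h : S'.Free n A) : S.Free n (O.dn '' A) := by
  induction h with
  | one X =>
    rw [image_singleton]
    exact .one _
  | up _ ih => exact ih.up
  | @add n A X Y a b hA hX h1 h2 h3 ih =>
    rw [image_insert_eq]
    by_cases e : O.dn Y ∈ O.dn '' A
    · rw [insert_eq_of_mem e]
      exact ih.up
    · obtain ⟨μ, hμX, hμY, -, hb, -⟩ := O.arc_two h1 h2
      refine ih.add (mem_image_of_mem _ hX) (O.arc_dn h1) (O.arc_dn h2) ?_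
      rw [hb]
      exact O.sep_free hA ⟨X, hX, hμX⟩ (O.dn_mem hμY) e

theorem absorb {n : ℕ} {A : Set S'.C} (h : S'.Free n A) {γ : O.Θ} (hγ : γ ∈ O.PosF A)
    {N : S.C} (hN : N ∈ (O.dat γ).mem) :
    ∃ U : Set S.C, S.Free (n + 2) U ∧ O.dn '' A ⊆ U ∧ N ∈ U := by
  have h1 : S.Free (n + 1) (insert (O.dat γ).cen (O.dn '' A)) := by
    by_cases e : (O.dat γ).cen ∈ O.dn '' A
    · rw [insert_eq_of_mem e]
      exact (O.free_dn h).up
    · obtain ⟨X, hX, hγX⟩ := id hγ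
      rcases O.dn_mem hγX with q | q
      · exact absurd ⟨X, hX, q⟩ e
      · obtain ⟨b, hb, hb'⟩ := (O.dat γ).leaf _ q
        refine (O.free_dn h).add (mem_image_of_mem _ hX) (Or.inr hb') (Or.inl ⟨rfl, hb⟩) ?_
        rw [S.base_ap hb]
        exact O.sep_free h hγ (Star.cen_mem _) e
  by_cases e : N ∈ insert (O.dat γ).cen (O.dn '' A)
  · exact ⟨_, h1.up, subset_insert _ _, e⟩
  refine ⟨insert N (insert (O.dat γ).cen (O.dn '' A)), ?_,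
    (subset_insert _ _).trans (subset_insert _ _), Or.inl rfl⟩
  rcases id hN with q | q
  · exact absurd (Or.inl q) e
  · obtain ⟨b, hb, hb'⟩ := (O.dat γ).leaf _ q
    refine h1.add (Or.inl rfl) (Or.inl ⟨rfl, hb⟩) (Or.inr hb') ?_
    rw [S.base_ap hb]
    rintro U (rfl | hU)
    · exact (O.dat γ).sep' hN (Star.cen_mem _) fun q => e (Or.inl q)
    · exact O.sep_free h hγ hN (fun q => e (Or.inr q)) U hU

end Over

/-- free families are connected -/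
theorem Sys.Free.cut {n : ℕ} {B : Set S.C} (h : S.Free n B) (A : Set S.C)
    (h1 : (B ∩ A).Nonempty) (h2 : (B \ A).Nonempty) :
    ∃ X ∈ B ∩ A, ∃ Y ∈ B \ A, ∃ a b, S.arc X a b ∧ S.arc Y a b := by
  induction h with
  | one X =>
    obtain ⟨_, rfl, h1⟩ := h1
    obtain ⟨_, rfl, h2⟩ := h2
    exact absurd h1 h2
  | up _ ih => exact ih h1 h2
  | @add n B X Y a b _ hX k1 k2 _ ih =>
    by_cases e1 : (B ∩ A).Nonempty
    · by_cases e2 : (B \ A).Nonempty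
      · obtain ⟨U, hU, W, hW, q⟩ := ih e1 e2
        exact ⟨U, ⟨Or.inr hU.1, hU.2⟩, W, ⟨Or.inr hW.1, hW.2⟩, q⟩
      · obtain ⟨W, rfl | hW, hW'⟩ := h2
        · refine ⟨X, ⟨Or.inr hX, ?_⟩, W, ⟨Or.inl rfl, hW'⟩, a, b, k1, k2⟩
          by_contra q
          exact e2 ⟨X, hX, q⟩
        · exact absurd ⟨W, hW, hW'⟩ e2
    · obtain ⟨W, rfl | hW, hW'⟩ := h1
      · exact ⟨W, ⟨Or.inl rfl, hW'⟩, X, ⟨Or.inr hX, fun q => e1 ⟨X, hX, q⟩⟩, a, b, k2, k1⟩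
      · exact absurd ⟨W, hW, hW'⟩ e1

end Pool.Agent.P.MP_48d4bc_co.T3
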