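import Pool.Agent.P.MP_48d4bc_co.T3Col

/-! Merging free families. -/

set_option autoImplicit false

namespace Pool.Agent.P.MP_48d4bc_co.T3

open Cardinal Set

section
variable {M : Type} {σ : Cardinal.{0}} {S S' : Sys M} (O : Over σ S S')

theorem Over.col_dn [DecidableEq S.Z] {A : Set S'.C} {B : Set S.C} {P : Finset S'.Z}
    (h : S.Col B (P.image O.lab)) (hs : O.dn '' A ⊆ B) : S'.Col A P := by
  obtain ⟨c, hc⟩ := h
  exact ⟨fun p => c (O.lab p), fun X hX a ha b hb hab => hc _ (hs ⟨X, hX, rfl⟩) _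
    (Finset.mem_image_of_mem _ ha) _ (Finset.mem_image_of_mem _ hb) (O.arc_dn hab)⟩

theorem Over.col_disj {m s : ℕ} (hB : S'.Bip m) {G : Finset (Set S'.C)}
    (hG : ∀ A ∈ G, S'.Free s A) (hd : ∀ A ∈ G, ∀ B ∈ G, ∀ γ ∈ O.PosF A, γ ∈ O.PosF B → A = B)
    {P : Finset S'.Z} (hP : P.card + 2 * s ≤ m) : S'.Col (⋃₀ (G : Set (Set S'.C))) P := by
  classical
  have h1 : ∀ A : Set S'.C, ∃ c : S'.Z → Fin 3, A ∈ G →
      ∀ X ∈ A, ∀ a ∈ P, ∀ b ∈ P, S'.arc X a b → c a ≠ c b := by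
    intro A
    by_cases hA : A ∈ G
    · obtain ⟨c, hc⟩ := O.col_free hB (hG A hA) P hP
      exact ⟨c, fun _ => hc⟩
    · exact ⟨fun _ => 0, fun h => absurd h hA⟩
  choose c hc using h1
  have h2 : ∀ γ : O.Θ, ∃ A : Set S'.C, ∀ B ∈ G, γ ∈ O.PosF B → A = B := by
    intro γ
    by_cases h : ∃ A ∈ G, γ ∈ O.PosF A
    · obtain ⟨A, hA, hγ⟩ := h
      exact ⟨A, fun B hB h => hd A hA B hB γ hγ h⟩
    · exact ⟨∅, fun B hB q => absurd ⟨B, hB, q⟩ h⟩
  choose own hown using h2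
  have h3 : (⋃ p ∈ (P : Set S'.Z), ⋃ q ∈ (P : Set S'.Z), {γ | Meet O.br p q γ}).Finite :=
    P.finite_toSet.biUnion fun p _ => P.finite_toSet.biUnion fun q _ =>
      Set.Subsingleton.finite fun γ h δ h' => Meet.unique h h'
  obtain ⟨c₀, h4⟩ := glue O.br own c h3.toFinset
    (fun A => {p | A ∈ G ∧ p ∈ S'.ptsF A ∧ p ∈ P}) (by
      rintro A p ⟨hA, p1, p2⟩ q ⟨-, q1, q2⟩ e
      obtain ⟨γ, k1, k2⟩ := O.meet_free (hG A hA) p p1 q q1 e
      exact ⟨γ, h3.mem_toFinset.2 (mem_iUnion₂.2 ⟨p, p2, mem_iUnion₂.2 ⟨q, q2, k2⟩⟩),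
        hown γ A hA k1, k2⟩)
  refine ⟨c₀, ?_⟩
  rintro X ⟨A, hA, hX⟩ a ha b hb hab
  obtain ⟨t, ht⟩ := h4 A
  rw [ht a ⟨hA, ⟨X, hX, hab.left⟩, ha⟩, ht b ⟨hA, ⟨X, hX, hab.right⟩, hb⟩]
  exact t.injective.ne (hc A hA X hX a ha b hb hab)

end

/-- `r` free families of size `s` are colourable on `m` points from the level `k` on -/
def Good (r s m k : ℕ) : Prop :=
  ∀ (M : Type) (σ : Cardinal.{0}) (n : ℕ) (S : Sys M), k ≤ n → Tw σ n S →
    ∀ G : Finset (Set S.C), G.card ≤ r → (∀ A ∈ G, S.Free s A) →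
      ∀ P : Finset S.Z, P.card ≤ m → S.Col (⋃₀ (G : Set (Set S.C))) P

/-- the same for families two of which overlap -/
def Good' (r t s m k : ℕ) : Prop :=
  ∀ (M : Type) (σ : Cardinal.{0}) (n : ℕ) (S : Sys M), k ≤ n → Tw σ n S →
    ∀ (G : Finset (Set S.C)) (A B : Set S.C), G.card ≤ r → (∀ U ∈ G, S.Free s U) → A ∈ G →
      S.Free s B → (B ∩ A).Nonempty → (B \ A).encard ≤ t →
      ∀ P : Finset S.Z, P.card ≤ m → S.Col (B ∪ ⋃₀ (G : Set (Set S.C))) P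

/-- one step of the absorption -/
theorem good'_step {r t s m k : ℕ} (h : Good' r t (s + 2) m k) {M : Type} {σ : Cardinal.{0}}
    {n : ℕ} {S S' : Sys M} (hk : k ≤ n) (hT : Tw σ n S) (O : Over σ S S')
    {G : Finset (Set S'.C)} {A B : Set S'.C} (hG : G.card ≤ r) (hF : ∀ U ∈ G, S'.Free s U)
    (hA : A ∈ G) (hB : S'.Free s B) {Y : S'.C} (hY : Y ∈ B) {γ : O.Θ} (h1 : γ ∈ O.PosF A)
    (h2 : γ ∈ O.Pos Y) (h3 : ((B \ A) \ {Y}).encard ≤ t) {P : Finset S'.Z} (hP : P.card ≤ m) :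
    S'.Col (B ∪ ⋃₀ (G : Set (Set S'.C))) P := by
  classical
  obtain ⟨U, u1, u2, u3⟩ := O.absorb (hF A hA) h1 (O.dn_mem h2)
  refine O.col_dn (h M σ n S hk hT (insert U ((G.erase A).image fun W => O.dn '' W)) U
    (O.dn '' B) ?_ ?_ (Finset.mem_insert_self _ _) (O.free_dn hB).up.up
    ⟨_, mem_image_of_mem _ hY, u3⟩ ?_ _ (Finset.card_image_le.trans hP)) ?_
  · refine (Finset.card_insert_le _ _).trans ?_
    have h4 := Finset.card_image_le (s := G.erase A) (f := fun W => O.dn '' W)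
    have h5 := Finset.card_erase_add_one hA
    omega
  · intro W hW
    rcases Finset.mem_insert.1 hW with rfl | hW
    · exact u1
    · obtain ⟨W', hW', rfl⟩ := Finset.mem_image.1 hW
      exact (O.free_dn (hF _ (Finset.mem_of_mem_erase hW'))).up.up
  · refine le_trans (encard_le_encard (t := O.dn '' ((B \ A) \ {Y})) ?_)
      ((encard_image_le _ _).trans h3)
    rintro _ ⟨⟨X, hX, rfl⟩, hn⟩
    exact ⟨X, ⟨⟨hX, fun q => hn (u2 ⟨X, q, rfl⟩)⟩, fun q => hn (by rw [q]; exact u3)⟩, rfl⟩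
  · rintro _ ⟨X, hX | ⟨W, hW, hX⟩, rfl⟩
    · exact Or.inl ⟨X, hX, rfl⟩
    · by_cases e : W = A
      · exact Or.inr ⟨U, Finset.mem_insert_self _ _, u2 ⟨X, e ▸ hX, rfl⟩⟩
      · exact Or.inr ⟨O.dn '' W, Finset.mem_insert_of_mem
          (Finset.mem_image_of_mem _ (Finset.mem_erase.2 ⟨e, hW⟩)), X, hX, rfl⟩

theorem good' {r m : ℕ} (h : ∀ s, ∃ k, Good r s m k) (t : ℕ) : ∀ s, ∃ k, Good' r t s m k := by
  have base : ∀ {s k}, Good r s m k → ∀ (M : Type) (σ : Cardinal.{0}) (n : ℕ) (S : Sys M),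
      k ≤ n → Tw σ n S → ∀ (G : Finset (Set S.C)) (A B : Set S.C), G.card ≤ r →
      (∀ U ∈ G, S.Free s U) → A ∈ G → B \ A = ∅ → ∀ P : Finset S.Z, P.card ≤ m →
      S.Col (B ∪ ⋃₀ (G : Set (Set S.C))) P := by
    intro s k hk M σ n S h1 h2 G A B h3 h4 h5 h6 P hP
    rw [union_eq_self_of_subset_left ((sdiff_eq_empty.1 h6).trans (subset_sUnion_of_mem h5))]
    exact hk M σ n S h1 h2 G h3 h4 P hP
  induction t with
  | zero =>
    intro s
    obtain ⟨k, hk⟩ := h s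
    exact ⟨k, fun M σ n S h1 h2 G A B h3 h4 h5 _ _ h6 =>
      base hk M σ n S h1 h2 G A B h3 h4 h5 (encard_eq_zero.1 (nonpos_iff_eq_zero.1 h6))⟩
  | succ t ih =>
    intro s
    obtain ⟨k, hk⟩ := h s
    obtain ⟨k', hk'⟩ := ih (s + 2)
    refine ⟨k + k' + 1, fun M σ n S h1 h2 G A B h3 h4 h5 h6 h7 h8 P hP => ?_⟩
    rcases (B \ A).eq_empty_or_nonempty with e | e
    · exact base hk M σ n S (by omega) h2 G A B h3 h4 h5 e P hP
    obtain ⟨X, hX, Y, hY, a, b, k1, k2⟩ := h6.cut A h7 e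
    cases h2 with
    | zero => omega
    | succ hT O _ =>
      obtain ⟨μ, m1, m2, -⟩ := O.arc_two k1 k2
      refine good'_step hk' (by omega) hT O h3 h4 h5 h6 hY.1 ⟨X, hX.2, m1⟩ m2 ?_ hP
      rw [← encard_sdiff_singleton_add_one hY] at h8
      push_cast at h8
      exact (ENat.add_le_add_iff_right ENat.one_ne_top).1 h8

theorem good (m r : ℕ) : ∀ s, ∃ k, Good r s m k := by
  classical
  induction r with
  | zero =>
    refine fun s => ⟨0, fun M σ n S _ _ G hG _ P _ => ⟨fun _ => 0, ?_⟩⟩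
    rintro X ⟨A, hA, -⟩
    rw [Finset.card_eq_zero.1 (Nat.le_zero.1 hG)] at hA
    exact absurd hA (by simp)
  | succ r ih =>
    intro s
    obtain ⟨k, hk⟩ := good' ih s (s + 2)
    refine ⟨k + m + 2 * s + 1, fun M σ n S h1 h2 G h3 h4 P hP => ?_⟩
    have hb := h2.bip
    cases h2 with
    | zero => omega
    | succ hT O _ =>
      by_cases hd : ∀ A ∈ G, ∀ B ∈ G, ∀ γ ∈ O.PosF A, γ ∈ O.PosF B → A = B
      · exact O.col_disj hb h4 hd (by omega)
      · simp only [not_forall] at hd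
        obtain ⟨A, hA, B, hB, γ, g1, ⟨Y, hY, g2⟩, hne⟩ := hd
        have h5 := Finset.card_erase_add_one hB
        have h6 := good'_step hk (by omega) hT O (G := G.erase B) (by omega)
          (fun U hU => h4 U (Finset.mem_of_mem_erase hU)) (Finset.mem_erase.2 ⟨hne, hA⟩)
          (h4 B hB) hY g1 g2
          ((encard_le_encard (sdiff_subset.trans sdiff_subset)).trans (h4 B hB).encard_le) hP
        rwa [← sUnion_insert, ← Finset.coe_insert, Finset.insert_erase hB] at h6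

/-- small sets of points in a high tower are colourable -/
theorem exists_height (m : ℕ) : ∃ n : ℕ, ∀ (M : Type) (σ : Cardinal.{0}) (S : Sys M),
    Tw σ n S → ∀ P : Finset S.Z, P.card ≤ m → S.Col Set.univ P := by
  classical
  obtain ⟨k, hk⟩ := good m (m * m) 1
  refine ⟨k, fun M σ S hT P hP => ?_⟩
  have h1 : ∀ e : S.Z × S.Z, ∃ A : Set S.C, (∃ X, S.arc X e.1 e.2) →
      ∃ X, S.arc X e.1 e.2 ∧ A = {X} := by
    intro e
    by_cases h : ∃ X, S.arc X e.1 e.2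
    · obtain ⟨X, hX⟩ := h
      exact ⟨{X}, fun _ => ⟨X, hX, rfl⟩⟩
    · exact ⟨∅, fun q => absurd q h⟩
  choose f hf using h1
  obtain ⟨c, hc⟩ := hk M σ k S le_rfl hT
    (((P ×ˢ P).filter fun e => ∃ X, S.arc X e.1 e.2).image f)
    (Finset.card_image_le.trans ((Finset.card_filter_le _ _).trans (by
      rw [Finset.card_product]
      exact Nat.mul_le_mul hP hP))) (by
      intro A hA
      obtain ⟨e, he, rfl⟩ := Finset.mem_image.1 hA
      obtain ⟨X, -, h⟩ := hf e (Finset.mem_filter.1 he).2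
      rw [h]
      exact .one X) P hP
  refine ⟨c, fun X _ a ha b hb hab => ?_⟩
  obtain ⟨Y, h1, h2⟩ := hf (a, b) ⟨X, hab⟩
  exact hc Y ⟨f (a, b), Finset.mem_coe.2 (Finset.mem_image_of_mem _ (Finset.mem_filter.2
    ⟨Finset.mem_product.2 ⟨ha, hb⟩, X, hab⟩)), h2 ▸ rfl⟩ a ha b hb h1

end Pool.Agent.P.MP_48d4bc_co.T3
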