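import Pool.Agent.P.MP_48d4bc_co.T3Ram
import Pool.Agent.P.MP_48d4bc_co.T3Merge
import Pool.Agent.P.MP_48d4bc_co.StepUp
import Pool.Agent.P.MP_48d4bc_co.Count

/-! Locally three-colourable hosts for the triangle. -/

set_option autoImplicit false

namespace Pool.Agent.P.MP_48d4bc_co.T3

open Cardinal Set

universe u

/-- the bottom system -/
def bottom (M X : Type) [LinearOrder X] [WellFoundedLT X] (x : X) : Sys M where
  Z := X
  C := {p : X × Set X // ∀ η ∈ p.2, p.1 < η}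
  pt := x
  ap p := p.1.1
  F p := p.1.2
  h p a b := a ∈ p.1.2 ∧ b ∈ p.1.2 ∧ a < b
  supp _ := ∅
  base _ _ := ∅
  root _ := ∅
  h_left h := h.1
  h_right h := h.2.1
  h_wf _ := Subrelation.wf (fun h => h.2.2) wellFounded_lt
  ap_not p h := lt_irrefl _ (p.2 _ h)
  base_ap _ := rfl
  base_sub _ := Subset.rfl
  root_sub _ := Subset.rfl

theorem exists_bottom (Λ L : Type) [Nonempty Λ] : ∃ (X : Type) (_ : LinearOrder X)
    (_ : WellFoundedLT X) (x : X), ∀ (M : Type) (κ : Cardinal.{0}), (bottom M X x).Ram Λ L κ := by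
  classical
  obtain ⟨X, _, _, T, hX⟩ := coneRamsey 2 Λ L
  obtain ⟨x, -⟩ := hX fun _ => Classical.arbitrary Λ
  refine ⟨X, inferInstance, inferInstance, x, fun M κ π D _ => ?_⟩
  let π' : Finset X → Λ := fun s =>
    if h : s.Nonempty then π (s.min' h) (s.max' h) else Classical.arbitrary Λ
  have h0 : ∀ a b : X, a < b → π' {a, b} = π a b := fun a b h => by
    simp only [π', dif_pos (Finset.insert_nonempty a {b})]
    congr 1
    · simp [h.le]
    · simp [h.le]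
  obtain ⟨a, F, h1, h2, -, h3⟩ := hX π'
  obtain ⟨η, hη, -⟩ := not_subset.1 (h1 fun _ => a)
  refine ⟨⟨(a, F), h2⟩, π a η, fun c => ?_, fun (p q : X) h => ⟨?_, fun _ h => h.1⟩⟩
  · by_contra hn
    have : Nonempty X := ⟨a⟩
    refine h1 (Function.invFunOn c F) fun b hb => ⟨c b, ?_⟩
    refine InjOn.leftInvOn_invFunOn (fun p hp q hq e => ?_) hb
    rcases lt_trichotomy (p : X) q with h | h | h
    · exact absurd ⟨p, q, ⟨hp, hq, h⟩, e⟩ hn
    · exact h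
    · exact absurd ⟨q, p, ⟨hq, hp, h⟩, e.symm⟩ hn
  · have h4 : (p : X) < q ∧ (p : X) ∈ insert a F ∧ (q : X) ∈ F := by
      rcases h with ⟨rfl, h⟩ | h
      exacts [⟨h2 _ h, Or.inl rfl, h⟩, ⟨h.2.2, Or.inr h.1, h.2.1⟩]
    rw [← h0 _ _ h4.1, ← h0 _ _ (h2 η hη)]
    refine h3 _ _ ?_ ?_ ?_ ?_
    · rw [Finset.coe_pair]
      exact pair_subset h4.2.1 (Or.inr h4.2.2)
    · rw [Finset.coe_pair]
      exact pair_subset (Or.inl rfl) (Or.inr hη)
    · rw [Finset.card_pair h4.1.ne, Finset.card_pair (h2 η hη).ne]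
    · rw [Finset.card_pair h4.1.ne]

theorem exists_tower (n : ℕ) : ∀ (Λ L : Type) [Nonempty Λ], ∃ σ : Cardinal.{0}, ℵ₀ ≤ σ ∧
    #Λ ≤ σ ∧ ∀ κ, σ ≤ κ → ∃ μ : Cardinal.{0}, ∀ M : Type, μ < #M →
      ∃ S : Sys M, Tw σ n S ∧ S.Small σ ∧ S.Ram Λ L κ := by
  induction n with
  | zero =>
    intro Λ L _
    obtain ⟨X, _, _, x, h⟩ := exists_bottom Λ L
    refine ⟨max ℵ₀ (max #Λ #X), le_max_left _ _, le_max_of_le_right (le_max_left _ _),
      fun κ _ => ⟨0, fun M _ => ⟨bottom M X x, .zero _, fun p => ⟨?_, ?_⟩, h M κ⟩⟩⟩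
    · exact (mk_set_le _).trans (le_max_of_le_right (le_max_right _ _))
    · exact (mk_eq_zero (∅ : Set M)).le.trans bot_le
  | succ n ih =>
    intro Λ L _
    obtain ⟨σ, h1, h2, h3⟩ := ih (Set Λ) (Λ × Set L)
    have h4 : #Λ ≤ σ := (mk_le_of_injective singleton_injective).trans h2
    refine ⟨σ, h1, h4, fun κ hκ => ?_⟩
    obtain ⟨μ, hμ⟩ := h3 (Order.succ (Order.succ κ))
      (hκ.trans ((Order.le_succ _).trans (Order.le_succ _)))
    refine ⟨max μ (Order.succ κ), fun M hM => ?_⟩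
    obtain ⟨S, s1, s2, s3⟩ := hμ M ((le_max_left _ _).trans_lt hM)
    obtain ⟨Θ, _, _, dat, h⟩ := exists_step h1 hκ h4 ((le_max_right _ _).trans_lt hM) s2 s3
    exact ⟨step dat, .succ s1 (stepOver dat) (step_bip s1.bip dat), step_small h1 s2 dat, h⟩

/-- a locally three-colourable graph that is not a countable union of triangle-free graphs -/
theorem exists_host (m : ℕ) : ∃ (V : Type) (H : SimpleGraph V),
    (∀ P : Finset V, P.card ≤ m → ∃ c : V → Fin 3, ∀ a ∈ P, ∀ b ∈ P, H.Adj a b → c a ≠ c b) ∧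
    ∀ c : Sym2 V → ℕ, ∃ x y z, H.Adj x y ∧ H.Adj x z ∧ H.Adj y z ∧
      c s(x, y) = c s(x, z) ∧ c s(x, y) = c s(y, z) := by
  obtain ⟨n, hn⟩ := exists_height m
  obtain ⟨σ, -, -, h⟩ := exists_tower n ℕ Unit
  obtain ⟨μ, hμ⟩ := h σ le_rfl
  obtain ⟨S, s1, -, s3⟩ := hμ (Order.succ μ).out (by
    rw [mk_out]
    exact Order.lt_succ μ)
  let H : SimpleGraph S.Z := SimpleGraph.fromRel fun a b => ∃ X, S.arc X a b
  have hH : ∀ X a b, S.arc X a b → H.Adj a b := fun X a b h =>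
    (SimpleGraph.fromRel_adj _ _ _).2 ⟨h.ne, Or.inl ⟨X, h⟩⟩
  refine ⟨S.Z, H, fun P hP => ?_, fun c => ?_⟩
  · obtain ⟨c, hc⟩ := hn _ σ S s1 P hP
    refine ⟨c, fun a ha b hb hab => ?_⟩
    obtain ⟨-, ⟨X, h⟩ | ⟨X, h⟩⟩ := (SimpleGraph.fromRel_adj _ _ _).1 hab
    · exact hc X trivial a ha b hb h
    · exact (hc X trivial b hb a ha h).symm
  · obtain ⟨X, j, h1, h2⟩ := s3 (fun a b => c s(a, b)) (fun _ _ => ∅) (by simp)
    obtain ⟨a, b, h3, -⟩ := h1 fun _ => ()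
    have e1 : S.arc X (S.ap X) a := Or.inl ⟨rfl, S.h_left h3⟩
    have e2 : S.arc X (S.ap X) b := Or.inl ⟨rfl, S.h_right h3⟩
    have e3 : S.arc X a b := Or.inr h3
    exact ⟨_, a, b, hH X _ _ e1, hH X _ _ e2, hH X _ _ e3,
      (h2 _ _ e1).1.trans (h2 _ _ e2).1.symm, (h2 _ _ e1).1.trans (h2 _ _ e3).1.symm⟩

theorem host_three {α β : Type} [Finite α] [Finite β] (G₁ : SimpleGraph α) (G₂ : SimpleGraph β)
    (h₁ : ¬ G₁.Colorable 3) (h₂ : G₂.Colorable 3) :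
    ∃ (V : Type u) (H : SimpleGraph V), G₁.Free H ∧ ∀ c : Sym2 V → ℕ, HasMonoCopy G₂ H c := by
  classical
  have := Fintype.ofFinite α
  obtain ⟨W, K, k1, k2⟩ := exists_host (Fintype.card α)
  refine ⟨ULift.{u} W, K.comap ULift.down, ?_, fun c => ?_⟩
  · rintro ⟨f⟩
    obtain ⟨c, hc⟩ := k1 (Finset.univ.image fun a => (f a).down) Finset.card_image_le
    exact h₁ ⟨SimpleGraph.Coloring.mk (fun a => c (f a).down) fun {a b} hab =>
      hc _ (Finset.mem_image_of_mem _ (Finset.mem_univ a)) _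
        (Finset.mem_image_of_mem _ (Finset.mem_univ b)) (f.toHom.map_adj hab)⟩
  · by_contra hn
    let H : ℕ → SimpleGraph (ULift.{u} W) := fun i =>
      { Adj := fun a b => K.Adj a.down b.down ∧ c s(a, b) = i
        symm := ⟨fun a b h => ⟨h.1.symm, by rw [Sym2.eq_swap]; exact h.2⟩⟩
        loopless := ⟨fun a h => h.1.ne rfl⟩ }
    have h1 : ∀ i, G₂.Free (H i) := by
      rintro i ⟨f⟩
      exact hn ⟨⟨⟨f, fun h => (f.toHom.map_adj h).1⟩, f.injective⟩, i,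
        fun a b h => (f.toHom.map_adj h).2⟩
    choose e he using fun i => edge_col (H i) _ (no3_of_free (H i) h₂ (h1 i)) Set.univ
    obtain ⟨x, y, z, a1, a2, a3, a4, a5⟩ := k2 fun s =>
      Nat.pair (c (s.map ULift.up)) (e (c (s.map ULift.up)) (s.map ULift.up))
    simp only [Sym2.map_mk, Nat.pair_eq_pair] at a4 a5
    refine he (c s(ULift.up x, ULift.up y)) (ULift.up x) trivial (ULift.up y) trivial
      (ULift.up z) trivial ⟨a1, rfl⟩ ⟨a2, a4.1.symm⟩ ⟨a3, a5.1.symm⟩ ?_ ?_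
    · rw [a4.2, a4.1]
    · rw [a5.2, a5.1]

theorem property_two_iff {α β : Type} [Finite α] [Finite β] (G₁ : SimpleGraph α)
    (G₂ : SimpleGraph β) (h₂ : G₂.Colorable 3) (h₃ : ¬ G₂.CliqueFree 3) :
    (∀ (V : Type u) (H : SimpleGraph V), G₁.Free H → ∃ c : Sym2 V → ℕ, ¬ HasMonoCopy G₂ H c) ↔
      G₁.Colorable 3 := by
  refine ⟨fun h => ?_, fun h V H hH => countable_colouring H h h₃ hH⟩
  by_contra h₁
  obtain ⟨V, H, h4, h5⟩ := host_three.{u} G₁ G₂ h₁ h₂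
  obtain ⟨c, hc⟩ := h V H h4
  exact hc (h5 c)

end Pool.Agent.P.MP_48d4bc_co.T3
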