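import Mathlib

set_option autoImplicit false

namespace Pool.Agent.P.MP_48d4bc_co

open Cardinal

/-- A well order in which every `I`-indexed family is strictly bounded. -/
theorem exists_big (I : Type) : ∃ (L : Type) (_ : LinearOrder L) (_ : WellFoundedLT L)
    (_ : Nonempty L), ∀ f : I → L, ∃ b, ∀ i, f i < b := by
  let κ : Cardinal.{0} := Order.succ (max #I ℵ₀)
  have hreg : κ.IsRegular := isRegular_succ (le_max_right _ _)
  have hne : Nonempty κ.ord.ToType := by
    rw [← mk_ne_zero_iff, mk_ord_toType]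
    exact hreg.pos.ne'
  refine ⟨κ.ord.ToType, inferInstance, inferInstance, hne, fun f => ?_⟩
  have h : ¬ IsCofinal (Set.range f) := by
    intro h
    have h1 := Order.cof_le h
    rw [Ordinal.cof_toType, hreg.cof_ord] at h1
    have h2 : #(Set.range f) ≤ #I := mk_range_le
    have h3 : #I < κ := lt_of_le_of_lt (le_max_left _ _) (Order.lt_succ _)
    exact absurd (h1.trans h2) (not_le.2 h3)
  obtain ⟨b, hb⟩ := not_isCofinal_iff.1 h
  exact ⟨b, fun i => hb _ ⟨i, rfl⟩⟩

/-- A well ordered copy of a type. -/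
theorem exists_wo (Y : Type) : ∃ (W : Type) (_ : LinearOrder W) (_ : WellFoundedLT W),
    Nonempty (W ≃ Y) :=
  ⟨(#Y).ord.ToType, inferInstance, inferInstance, Cardinal.eq.1 (by simp)⟩

/-- Recursion along a well order. -/
theorem exists_rec {K S : Type} [LinearOrder K] [WellFoundedLT K] [Nonempty S]
    (step : K → (K → S) → S)
    (hstep : ∀ ξ f g, (∀ ζ, ζ < ξ → f ζ = g ζ) → step ξ f = step ξ g) :
    ∃ f : K → S, ∀ ξ, f ξ = step ξ f := by
  classical
  let d : S := Classical.arbitrary S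
  let f : K → S := (wellFounded_lt (α := K)).fix
    (fun ξ rec => step ξ (fun ζ => if h : ζ < ξ then rec ζ h else d))
  refine ⟨f, fun ξ => ?_⟩
  have : f ξ = step ξ (fun ζ => if _h : ζ < ξ then f ζ else d) := by
    simp only [f]
    rw [WellFounded.fix_eq]
  rw [this]
  exact hstep _ _ _ fun ζ h => dif_pos h

/-- Recursion with choices along a well order. -/
theorem exists_rec_rel {K S : Type} [LinearOrder K] [WellFoundedLT K] [Nonempty S]
    (Q : K → (K → S) → S → Prop)
    (hQ : ∀ ξ f g, (∀ ζ, ζ < ξ → f ζ = g ζ) → Q ξ f = Q ξ g) :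
    ∃ f : K → S, ∀ ξ, (∃ x, Q ξ f x) → Q ξ f (f ξ) := by
  obtain ⟨f, hf⟩ := exists_rec (fun ξ f => Classical.epsilon (Q ξ f))
    (fun ξ f g h => by rw [hQ ξ f g h])
  refine ⟨f, fun ξ h => ?_⟩
  rw [hf ξ]
  exact Classical.epsilon_spec h

/-- A well order of steps such that every datum occurs above every small family of steps. -/
theorem exists_book (J I C : Type) [Nonempty J] [Nonempty C] :
    ∃ (Θ : Type) (_ : LinearOrder Θ) (_ : WellFoundedLT Θ) (_ : Nonempty Θ)
      (k : Θ → J) (D : Θ → I → Θ) (g : Θ → I → C),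
      ∀ (j : J) (D' : I → Θ) (g' : I → C), ∃ α, k α = j ∧ D α = D' ∧ g α = g' ∧ ∀ i, D' i < α := by
  obtain ⟨L, _, _, hLne, hL⟩ := exists_big I
  let κ : Cardinal.{0} := max (max (max #J #I) (max #L #C)) ℵ₀
  have hκ : ℵ₀ ≤ κ := le_max_right _ _
  have hJ : #J ≤ κ := le_max_of_le_left (le_max_of_le_left (le_max_left _ _))
  have hI : #I ≤ κ := le_max_of_le_left (le_max_of_le_left (le_max_right _ _))
  have hL' : #L ≤ κ := le_max_of_le_left (le_max_of_le_right (le_max_left _ _))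
  have hC : #C ≤ κ := le_max_of_le_left (le_max_of_le_right (le_max_right _ _))
  have h2 : κ ≤ 2 ^ κ := (cantor κ).le
  have h3 : ℵ₀ ≤ 2 ^ κ := hκ.trans h2
  let W : Type := (2 ^ κ : Cardinal.{0}).ord.ToType
  have hW : #W = 2 ^ κ := by simp [W]
  have hpow : ∀ a : Cardinal.{0}, a ≤ 2 ^ κ → a ^ #I ≤ 2 ^ κ := by
    intro a ha
    calc a ^ #I ≤ (2 ^ κ) ^ #I := power_le_power_right ha
      _ ≤ (2 ^ κ) ^ κ := power_le_power_left (power_ne_zero _ two_ne_zero) hI
      _ = 2 ^ κ := by rw [← power_mul, mul_eq_self hκ]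
  have hmul : ∀ a b : Cardinal.{0}, a ≤ 2 ^ κ → b ≤ 2 ^ κ → a * b ≤ 2 ^ κ := by
    intro a b ha hb
    calc a * b ≤ 2 ^ κ * 2 ^ κ := mul_le_mul' ha hb
      _ = 2 ^ κ := mul_eq_self h3
  have hcard : #(J × (I → L ×ₗ W) × (I → C)) ≤ #W := by
    have e : #(L ×ₗ W) = #L * #W := by
      rw [mul_def]
      rfl
    rw [← mul_def, ← mul_def, ← power_def, ← power_def, e, hW]
    exact hmul _ _ (hJ.trans h2) (hmul _ _ (hpow _ (hmul _ _ (hL'.trans h2) le_rfl))
      (hpow _ (hC.trans h2)))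
  obtain ⟨e⟩ := (Cardinal.le_def _ _).1 hcard
  have hWne : Nonempty W := by
    rw [← mk_ne_zero_iff, hW]
    exact power_ne_zero _ two_ne_zero
  have hΘ : Nonempty (L ×ₗ W) := ⟨toLex (Classical.arbitrary L, Classical.arbitrary W)⟩
  let dec : W → J × (I → L ×ₗ W) × (I → C) := Function.invFun e
  have hdec : ∀ x, dec (e x) = x := Function.leftInverse_invFun e.injective
  refine ⟨L ×ₗ W, inferInstance, inferInstance, hΘ, fun α => (dec (ofLex α).2).1,
    fun α => (dec (ofLex α).2).2.1, fun α => (dec (ofLex α).2).2.2, fun j D' g' => ?_⟩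
  obtain ⟨b, hb⟩ := hL (fun i => (ofLex (D' i)).1)
  refine ⟨toLex (b, e (j, D', g')), by simp [hdec], by simp [hdec], by simp [hdec], fun i => ?_⟩
  exact Prod.Lex.lt_iff.2 (Or.inl (hb i))

end Pool.Agent.P.MP_48d4bc_co
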