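import Pool.Agent.P.MP_48d4bc_co.T3Root
import Pool.Agent.P.MP_48d4bc_co.Tools

/-! The reflecting branch. -/

set_option autoImplicit false

namespace Pool.Agent.P.MP_48d4bc_co.T3

open Cardinal Set

theorem exists_refl (Dat Z Col J : Type) [Nonempty Dat] [Nonempty Col] (lab : Dat → Z) :
    ∃ (Θ : Type) (_ : LinearOrder Θ) (_ : WellFoundedLT Θ) (_ : Nonempty Θ) (dat : Θ → Dat),
      ∀ χ : Tr Z Θ → Tr Z Θ → Col, ∃ (y : Θ → Tr Z Θ) (g : Dat → Z → Col),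
        (∀ γ, ∃ B, y γ = Tr.mk (lab (dat γ)) B ∧ ∀ δ, δ < γ → B δ = y δ) ∧
        ∀ (d : Dat) (D : J → Θ), ∃ α, dat α = d ∧
          (∀ i, D i < α ∧ χ (y (D i)) (y α) = χ (y (D i)) (Tr.mk (lab d) y)) ∧
          ∀ θ, χ (y α) (Tr.mk θ y) = g d θ := by
  obtain ⟨Θ, _, _, hΘ, k, D, g, hb⟩ := exists_book Dat ((Z → Col) × J) Col
  refine ⟨Θ, inferInstance, inferInstance, hΘ, k, fun χ => ?_⟩
  have : Nonempty (Tr Z Θ) := ⟨Tr.nil⟩
  let N : Θ → (Θ → Tr Z Θ) → Tr Z Θ → Prop := fun α y x =>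
    ∃ B, x = Tr.mk (lab (k α)) B ∧ ∀ δ, δ < α → B δ = y δ
  let G : Θ → (Θ → Tr Z Θ) → Tr Z Θ → Prop := fun α y x =>
    ∀ i, D α i < α → χ (y (D α i)) x = g α i
  have hN : ∀ α y y', (∀ ζ, ζ < α → y ζ = y' ζ) → N α y = N α y' := fun α y y' h => by
    funext x
    simp only [N]
    refine propext (exists_congr fun B => and_congr_right' (forall₂_congr fun δ hδ => ?_))
    rw [h δ hδ]
  have hG : ∀ α y y', (∀ ζ, ζ < α → y ζ = y' ζ) → G α y = G α y' := fun α y y' h => by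
    funext x
    simp only [G]
    refine propext (forall₂_congr fun i hi => ?_)
    rw [h _ hi]
  obtain ⟨y, hy⟩ := exists_rec_rel
    (fun α y x => N α y x ∧ ((∃ x', N α y x' ∧ G α y x') → G α y x))
    (fun α y y' h => by rw [hN α y y' h, hG α y y' h])
  have hy' : ∀ α, N α y (y α) ∧ ((∃ x', N α y x' ∧ G α y x') → G α y (y α)) := fun α => by
    refine hy α ?_
    by_cases h : ∃ x', N α y x' ∧ G α y x'
    · obtain ⟨x, h1, h2⟩ := h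
      exact ⟨x, h1, fun _ => h2⟩
    · exact ⟨Tr.mk _ y, ⟨y, rfl, fun _ _ => rfl⟩, fun h' => absurd h' h⟩
  have key : ∀ d : Dat, ∃ c : Z → Col, ∀ D' : J → Θ, ∃ α, k α = d ∧
      (∀ i, D' i < α ∧ χ (y (D' i)) (y α) = χ (y (D' i)) (Tr.mk (lab d) y)) ∧
      ∀ θ, χ (y α) (Tr.mk θ y) = c θ := by
    intro d
    by_contra hn
    have h1 : ∀ c : Z → Col, ∃ D' : J → Θ, ¬ ∃ α, k α = d ∧
        (∀ i, D' i < α ∧ χ (y (D' i)) (y α) = χ (y (D' i)) (Tr.mk (lab d) y)) ∧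
        ∀ θ, χ (y α) (Tr.mk θ y) = c θ := fun c => not_forall.1 fun h => hn ⟨c, h⟩
    choose D' hD' using h1
    obtain ⟨α, h1, h2, h3, h4⟩ := hb d (fun q => D' q.1 q.2)
      (fun q => χ (y (D' q.1 q.2)) (Tr.mk (lab d) y))
    have h5 := (hy' α).2 ⟨Tr.mk (lab d) y, ⟨y, by rw [h1], fun _ _ => rfl⟩, fun i _ => by
      rw [h2, h3]⟩
    refine hD' (fun θ => χ (y α) (Tr.mk θ y)) ⟨α, h1, fun i => ⟨h4 (_, i), ?_⟩, fun _ => rfl⟩
    have h6 := h5 (fun θ => χ (y α) (Tr.mk θ y), i) (by rw [h2]; exact h4 _)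
    rwa [h2, h3] at h6
  choose c hc using key
  exact ⟨y, c, fun γ => (hy' γ).1, hc⟩

end Pool.Agent.P.MP_48d4bc_co.T3
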