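import Pool.Agent.P.MP_48d4bc_co.T3Root

/-! The next system lies over the old one. -/

set_option autoImplicit false

namespace Pool.Agent.P.MP_48d4bc_co.T3

open Cardinal Set

variable {M : Type} {σ : Cardinal.{0}} {S : Sys M} {Θ : Type} [LinearOrder Θ]
  {dat : Θ → Star σ S}

namespace Cone

variable (X : Cone dat)

theorem cen_mem {γ : Θ} (h : γ ∈ X.Pos) : (dat X.β).cen ∈ (dat γ).mem := by
  rcases h with rfl | ⟨e, h, rfl⟩
  · exact Star.cen_mem _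
  · exact Star.mem_of_lv _ (X.leaf h)

theorem root_eq {e : S.Z × S.Z} (h : X.I e) : S.root (dat (X.α e)).cen = S.base e.1 e.2 := by
  rw [← S.base_ap (X.mem h), X.ap_eq h]

theorem outer_inter {e : S.Z × S.Z} (h : X.I e) {δ : Θ} (hδ : δ ∈ X.Pos) (hne : X.α e ≠ δ) :
    (dat (X.α e)).outer (dat X.β).cen ∩ (dat δ).dsupp ⊆ S.base e.1 e.2 := by
  rintro x ⟨h1, h2⟩
  rcases (dat δ).dsupp_sub (dat X.β).cen h2 with h3 | h3
  · rcases hδ with rfl | ⟨e', h', rfl⟩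
    · exact X.out0 h ⟨h1, h2⟩
    · exact X.out h h' (fun q => hne (by rw [q])) ⟨h1, h3⟩
  · exact X.out0 h ⟨h1, (dat X.β).supp_sub (Star.cen_mem _) h3⟩

theorem outer_inter' {γ δ : Θ} (hγ : γ ∈ X.Pos) (hδ : δ ∈ X.Pos) (hne : γ ≠ δ) :
    (dat γ).outer (dat X.β).cen ∩ (dat δ).dsupp ⊆ S.supp (dat X.β).cen := by
  rcases hγ with rfl | ⟨e, h, rfl⟩
  · rcases hδ with rfl | ⟨e, h, rfl⟩
    · exact absurd rfl hne
    · rintro x ⟨h1, h2⟩
      rcases (dat (X.α e)).dsupp_sub (dat X.β).cen h2 with h3 | h3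
      · exact S.base_sub h.2.2 (X.out0 h ⟨h3, Star.outer_sub _ _ h1⟩)
      · exact h3
  · exact (X.outer_inter h hδ hne).trans (S.base_sub h.2.2)

theorem inv {γ δ : Θ} {N : S.C} (hγ : γ ∈ X.Pos) (hδ : δ ∈ X.Pos) (hne : γ ≠ δ)
    (hN : N ∈ (dat γ).mem) (hN' : N ≠ (dat X.β).cen) :
    S.supp N ∩ (dat δ).dsupp ⊆ S.root (dat γ).cen := by
  rintro x ⟨h1, h2⟩
  exact (dat γ).sep' hN (X.cen_mem hγ) hN'
    ⟨h1, X.outer_inter' hγ hδ hne ⟨Star.supp_sub_outer _ hN hN' h1, h2⟩⟩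

theorem mark {γ δ : Θ} (hγ : γ ∈ X.Pos) (hδ : δ ∈ X.Pos) (hne : γ ≠ δ) :
    (dat γ).tag ∉ (dat δ).dsupp := fun h =>
  (dat γ).fresh _ (X.cen_mem hγ) (X.outer_inter' hγ hδ hne ⟨Or.inl rfl, h⟩)

end Cone

variable [WellFoundedLT Θ]

/-- the next system lies over the old one -/
def stepOver (dat : Θ → Star σ S) : Over σ S (step dat) where
  Θ := Θ
  lo := inferInstance
  dat := dat
  lab := Tr.lab S.pt
  br := Tr.br
  dn X := (dat X.β).cen
  y X := X.y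
  Pos X := X.Pos
  pts_eq X := by
    ext p
    constructor
    · rintro (rfl | ⟨e, h, rfl⟩)
      exacts [⟨_, Or.inl rfl, rfl⟩, ⟨_, Or.inr ⟨e, h, rfl⟩, rfl⟩]
    · rintro ⟨_, rfl | ⟨e, h, rfl⟩, rfl⟩
      exacts [Or.inl rfl, Or.inr ⟨e, h, rfl⟩]
  br_lt X _ _ h := X.br_lt h
  br_ne X := X.br_ne
  arc_pos := by
    rintro X p q (⟨rfl, e, h, rfl⟩ | ⟨e, e', h, h', h2, rfl, rfl⟩)
    · have h3 : (X.y (X.α e)).lab S.pt ∈ S.F (dat X.β).cen := by
        rw [X.lab_y, X.ap_eq h]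
        exact S.h_left h.2.2
      exact ⟨X.β, Or.inl rfl, X.α e, Or.inr ⟨e, h, rfl⟩, X.lt h, rfl, rfl,
        base_of_meet (X.meet (X.lt h)), X.lab_y _ _, h3, Or.inl ⟨X.lab_y _ _, h3⟩⟩
    · refine ⟨X.α e, Or.inr ⟨e, h, rfl⟩, X.α e', Or.inr ⟨e', h', rfl⟩, X.lt' h h' h2, rfl, rfl,
        base_of_meet (X.meet (X.lt' h h' h2)), X.lab_y _ _, ?_, Or.inr ?_⟩
      · rw [X.lab_y, X.ap_eq h', ← h2]
        exact X.mem h
      · rw [X.lab_y, X.lab_y, X.ap_eq h, X.ap_eq h', ← h2]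
        exact h.2.2
  dn_mem h := Cone.cen_mem _ h
  supp_eq _ := rfl
  inv := Cone.inv _
  mark := Cone.mark _

theorem step_small (hσ : ℵ₀ ≤ σ) (hS : S.Small σ) (dat : Θ → Star σ S) : (step dat).Small σ := by
  intro X
  have h1 : #{e | X.I e} ≤ σ :=
    (mk_le_mk_of_subset (t := S.F (dat X.β).cen ×ˢ S.F (dat X.β).cen)
      fun e h => ⟨S.h_left h.2.2, S.h_right h.2.2⟩).trans (mk_prod_le hσ (hS _).1 (hS _).1)
  refine ⟨?_, mk_bU_le hσ ?_ fun γ _ => (dat γ).mk_dsupp_le hσ hS⟩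
  · refine le_trans (mk_le_mk_of_subset (t := (fun e => X.y (X.α e)) '' {e | X.I e}) ?_)
      (mk_image_le.trans h1)
    rintro _ ⟨e, h, rfl⟩
    exact ⟨e, h, rfl⟩
  · refine le_trans (mk_le_mk_of_subset (t := insert X.β (X.α '' {e | X.I e})) ?_)
      (mk_insert_le.trans (add_le_of_le hσ (mk_image_le.trans h1) (one_le_aleph0.trans hσ)))
    rintro _ (rfl | ⟨e, h, rfl⟩)
    exacts [Or.inl rfl, Or.inr ⟨e, h, rfl⟩]

theorem step_bip {m : ℕ} (hS : S.Bip m) (dat : Θ → Star σ S) : (step dat).Bip (m + 1) := by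
  classical
  intro X P hP
  rcases P.eq_empty_or_nonempty with rfl | hne
  · exact ⟨fun _ => true, fun a ha => absurd ha (Finset.notMem_empty a)⟩
  obtain ⟨p, hp, hmin⟩ := ((step dat).h_wf X).has_min (P : Set (step dat).Z) hne
  have hP' : (P.erase p).card ≤ m := by
    rw [Finset.card_erase_of_mem hp]
    omega
  obtain ⟨c, hc⟩ := hS (dat X.β).cen ((P.erase p).image (Tr.lab S.pt))
    (Finset.card_image_le.trans hP')
  refine ⟨fun q => if q = p then !decide (∃ r, (step dat).h X p r ∧ c (r.lab S.pt) = true)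
    else c (q.lab S.pt), fun a ha b hb hab => ?_⟩
  have hbp : b ≠ p := fun e => hmin a ha (e ▸ hab)
  simp only [if_neg hbp]
  by_cases hap : a = p
  · subst hap
    rw [if_pos rfl]
    have h1 : ∀ r, (step dat).h X a r → r.lab S.pt = b.lab S.pt := by
      obtain ⟨e, e', h, h', h2, h3, rfl⟩ := hab
      rintro r ⟨f, f', k, k', k2, k3, rfl⟩
      have h4 : e = f := by
        by_contra hn
        exact X.mark (Or.inr ⟨e, h, rfl⟩) (Or.inl rfl) (X.lt h).ne'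
          ((dat X.β).supp_sub (Star.cen_mem _) (S.base_sub h.2.2 (X.out h k hn
            ⟨Or.inl rfl, X.y_inj (h3.symm.trans k3) ▸ Or.inl rfl⟩)))
      rw [X.lab_y, X.lab_y, X.ap_eq k', X.ap_eq h', ← k2, ← h2, h4]
    cases hcb : c (b.lab S.pt)
    · rw [decide_eq_false]
      · simp
      · rintro ⟨r, h2, h3⟩
        rw [h1 r h2, hcb] at h3
        exact absurd h3 (by simp)
    · rw [decide_eq_true ⟨b, hab, hcb⟩]
      simp
  · rw [if_neg hap]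
    refine hc _ (Finset.mem_image_of_mem _ (Finset.mem_erase.2 ⟨hap, ha⟩)) _
      (Finset.mem_image_of_mem _ (Finset.mem_erase.2 ⟨hbp, hb⟩)) ?_
    obtain ⟨e, e', h, h', h2, rfl, rfl⟩ := hab
    rw [X.lab_y, X.lab_y, X.ap_eq h, X.ap_eq h', ← h2]
    exact h.2.2

end Pool.Agent.P.MP_48d4bc_co.T3
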