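import Pool.Agent.P.MP_48d4bc_co.T3Star
import Pool.Agent.P.MP_48d4bc_co.T3Refl
import Pool.Agent.P.MP_48d4bc_co.T3Step

/-! The partition property passes to the next system. -/

set_option autoImplicit false

namespace Pool.Agent.P.MP_48d4bc_co.T3

open Cardinal Set

variable {M : Type} {σ κ : Cardinal.{0}} {S : Sys M} {Λ L : Type}

theorem exists_data (hσ : ℵ₀ ≤ σ) (hκ : σ ≤ κ) (hΛ : #Λ ≤ σ) (hM : Order.succ κ < #M)
    (hS : S.Small σ) (hR : S.Ram (Set Λ) (Λ × Set L) (Order.succ (Order.succ κ)))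
    (j : Star σ S → S.Z → Λ) (D : Star σ S → S.Z → Set M) (hD : ∀ d a, #(D d a) ≤ κ) :
    ∃ (d₀ : Star σ S) (T : Set S.Z) (i : Λ) (d : S.Z × S.Z → Star σ S),
      (∀ c : S.Z → Set L, ∃ a b, Idx S d₀.cen T (a, b) ∧ c a = c b) ∧ (∀ a ∈ T, j d₀ a = i) ∧
      ∀ e, Idx S d₀.cen T e → Fit j d₀.cen i e.1 e.2 d₀.dsupp (d e) ∧
        d₀.dsupp ∩ D (d e) e.2 ⊆ (d e).dsupp ∧
        ∀ e', Idx S d₀.cen T e' →
          (e ≠ e' → (d e).outer d₀.cen ∩ (d e').outer d₀.cen ⊆ S.base e.1 e.2) ∧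
          (d e').dsupp ∩ D d₀ e.1 ⊆ d₀.dsupp ∧ (d e').dsupp ∩ D (d e) e.2 ⊆ (d e).dsupp := by
  have k0 : ℵ₀ ≤ κ := hσ.trans hκ
  obtain ⟨d₀, R, hR1, hL, hR2, hd⟩ := exists_star hσ hκ hΛ hM hS hR j D hD
  obtain ⟨i, hi⟩ : ∃ i, ∀ c : S.Z → Set L, ∃ a b,
      Idx S d₀.cen {η | η ∈ S.F d₀.cen ∧ j d₀ η = i} (a, b) ∧ c a = c b := by
    by_contra hn
    have h1 : ∀ i, ∃ c : S.Z → Set L, ¬ ∃ a b,
        Idx S d₀.cen {η | η ∈ S.F d₀.cen ∧ j d₀ η = i} (a, b) ∧ c a = c b :=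
      fun i => not_forall.1 fun h => hn ⟨i, h⟩
    choose c hc using h1
    obtain ⟨a, b, h2, h3⟩ := hL fun η => (j d₀ η, c (j d₀ η) η)
    have h4 : j d₀ a = j d₀ b := congrArg Prod.fst h3
    have h5 : c (j d₀ a) a = c (j d₀ b) b := congrArg Prod.snd h3
    exact hc (j d₀ a) ⟨a, b, ⟨⟨S.h_left h2, rfl⟩, ⟨S.h_right h2, h4.symm⟩, h2⟩, by
      rw [h5, h4]⟩
  let T : Set S.Z := {η | η ∈ S.F d₀.cen ∧ j d₀ η = i}
  have hA : #{e | Idx S d₀.cen T e} ≤ κ :=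
    (mk_le_mk_of_subset (t := S.F d₀.cen ×ˢ S.F d₀.cen)
      fun e h => ⟨h.1.1, h.2.1.1⟩).trans ((mk_prod_le hσ (hS _).1 (hS _).1).trans hκ)
  have : Nonempty (Star σ S) := ⟨d₀⟩
  have ks : ∀ d : Star σ S, #(d.dsupp) ≤ κ := fun d => (d.mk_dsupp_le hσ hS).trans hκ
  obtain ⟨d, E, h1, h2⟩ := exists_seq k0 hA
    (E₀ := d₀.dsupp ∪ R ∪ ⋃ η ∈ S.F d₀.cen, D d₀ η)
    (mk_U_le k0 (mk_U_le k0 (ks _) hR1) (mk_bU_le k0 ((hS _).1.trans hκ) fun _ _ => hD _ _))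
    (fun e E d => Fit j d₀.cen i e.1 e.2 E d ∧ D d e.2 ∩ E ⊆ R)
    (fun e d => d.outer d₀.cen ∪ D d e.2)
    (fun e d => mk_U_le k0 ((mk_le_mk_of_subset (d.outer_sub _)).trans (ks d)) (hD _ _))
    fun e he E hE => by
      have := hd e.1 he.1.1 e.1 e.2 he.2.2 E hE
      rwa [he.1.2] at this
  have g1 : ∀ e, Idx S d₀.cen T e → (d e).outer d₀.cen ∩ E e ⊆ S.base e.1 e.2 :=
    fun e he => (h1 e he).2.1.2.2.2.2
  have g2 : ∀ e, Idx S d₀.cen T e → (d e).outer d₀.cen ∩ E e ⊆ S.supp d₀.cen :=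
    fun e he => (g1 e he).trans (S.base_sub he.2.2)
  have g3 : S.supp d₀.cen ⊆ d₀.dsupp := d₀.supp_sub d₀.cen_mem
  have g4 : ∀ e, Idx S d₀.cen T e → S.supp d₀.cen ⊆ (d e).dsupp := fun e he =>
    (d e).supp_sub ((d e).mem_of_lv (h1 e he).2.1.2.2.1)
  have g5 : ∀ e, Idx S d₀.cen T e → d₀.dsupp ⊆ E e := fun e he x hx =>
    (h1 e he).1 (Or.inl (Or.inl hx))
  refine ⟨d₀, T, i, d, hi, fun a ha => ha.2, fun e he => ⟨(h1 e he).2.1.anti (g5 e he),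
    fun x hx => g4 e he (hR2 ⟨hx.1, (h1 e he).2.2 ⟨hx.2, g5 e he hx.1⟩⟩),
    fun e' he' => ⟨fun hne x hx => ?_, fun x hx => ?_, fun x hx => ?_⟩⟩⟩
  · rcases h2 e he e' he' hne with h | h
    · exact g1 e he ⟨hx.1, g5 e he (g3 (g2 e' he' ⟨hx.2, h (Or.inl hx.1)⟩))⟩
    · exact g1 e he ⟨hx.1, h (Or.inl hx.2)⟩
  · rcases (d e').dsupp_sub d₀.cen hx.1 with h | h
    · exact g3 (g2 e' he' ⟨h, (h1 e' he').1 (Or.inr (mem_iUnion₂.2 ⟨e.1, he.1.1, hx.2⟩))⟩)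
    · exact g3 h
  · by_cases hne : e = e'
    · exact hne ▸ hx.1
    rcases (d e').dsupp_sub d₀.cen hx.1 with h | h
    · refine g4 e he (g2 e' he' ⟨h, ?_⟩)
      rcases h2 e he e' he' hne with q | q
      · exact q (Or.inr hx.2)
      · exact (h1 e' he').1 (Or.inl (Or.inr ((h1 e he).2.2 ⟨hx.2, q (Or.inl h)⟩)))
    · exact g4 e he h

theorem exists_step [Nonempty Λ] (hσ : ℵ₀ ≤ σ) (hκ : σ ≤ κ) (hΛ : #Λ ≤ σ)
    (hM : Order.succ κ < #M) (hS : S.Small σ)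
    (hR : S.Ram (Set Λ) (Λ × Set L) (Order.succ (Order.succ κ))) :
    ∃ (Θ : Type) (_ : LinearOrder Θ) (_ : WellFoundedLT Θ) (dat : Θ → Star σ S),
      (step dat).Ram Λ L κ := by
  classical
  have : Nonempty (Star σ S) := by
    obtain ⟨d, -⟩ := exists_star hσ hκ hΛ hM hS hR (fun _ _ => Classical.arbitrary Λ)
      (fun _ _ => ∅) (by simp)
    exact ⟨d⟩
  have : Nonempty {D : Set M // #D ≤ κ} := ⟨⟨∅, by simp⟩⟩
  obtain ⟨Θ, _, _, _, dat, hΘ⟩ := exists_refl (Star σ S) S.Z (Λ × {D : Set M // #D ≤ κ})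
    (Option (S.Z × S.Z)) fun d => S.ap d.cen
  refine ⟨Θ, inferInstance, inferInstance, dat, fun π D hD => ?_⟩
  obtain ⟨y, g, hy, hg⟩ := hΘ fun p q => (π p q, ⟨D p q, hD p q⟩)
  obtain ⟨d₀, T, i, d, h1, h2, h3⟩ := exists_data hσ hκ hΛ hM hS hR (fun d a => (g d a).1)
    (fun d a => (g d a).2.1) fun d a => (g d a).2.2
  let χ : Tr S.Z Θ → Tr S.Z Θ → Λ × {D : Set M // #D ≤ κ} := fun p q => (π p q, ⟨D p q, hD p q⟩)
  obtain ⟨β, rfl, -, hβ⟩ := hg d₀ fun _ => Classical.arbitrary Θ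
  let r : S.Z × S.Z → S.Z × S.Z → Prop := fun e e' => Idx S (dat β).cen T e ∧ e.2 = e'.1
  have wf : WellFounded r := Subrelation.wf (fun {e e'} h => by
    change S.h _ e.1 e'.1
    rw [← h.2]
    exact h.1.2.2) (InvImage.wf Prod.fst (S.h_wf (dat β).cen))
  let pr : S.Z × S.Z → (S.Z × S.Z → Θ) → Option (S.Z × S.Z) → Θ := fun e α o =>
    o.elim β fun e' => if r e' e then α e' else β
  obtain ⟨α, hα⟩ := exists_rec_wf wf (fun e α γ => dat γ = d e ∧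
      (∀ o, pr e α o < γ ∧ χ (y (pr e α o)) (y γ) = χ (y (pr e α o)) (Tr.mk (S.ap (d e).cen) y)) ∧
      ∀ θ, χ (y γ) (Tr.mk θ y) = g (d e) θ) (fun e α α' h => by
    have : pr e α = pr e α' := by
      funext o
      rcases o with _ | e'
      · rfl
      · simp only [pr, Option.elim]
        split_ifs with q
        exacts [h e' q, rfl]
    rw [this])
  have hα' := fun e => hα e (hg (d e) (pr e α))
  have a1 : ∀ e, dat (α e) = d e := fun e => (hα' e).1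
  have a2 : ∀ e e', r e e' → pr e' α (some e) = α e := fun e e' h => if_pos h
  let X : Cone dat :=
    { y := y
      β := β
      T := T
      α := α
      node := hy
      lt := fun {e} _ => ((hα' e).2.1 none).1
      lt' := fun {e e'} h _ q => a2 e e' ⟨h, q⟩ ▸ ((hα' e').2.1 (some e)).1
      ap_eq := fun {e} h => a1 e ▸ (h3 e h).1.1
      mem := fun {e} h => a1 e ▸ (h3 e h).1.2.1
      leaf := fun {e} h => a1 e ▸ (h3 e h).1.2.2.1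
      out0 := fun {e} h => a1 e ▸ (h3 e h).1.2.2.2.2
      out := fun {e e'} h h' q => a1 e ▸ a1 e' ▸ ((h3 e h).2.2 e' h').1 q }
  refine ⟨X, i, fun c => ?_, ?_⟩
  · obtain ⟨a, b, k1, k2⟩ := h1 fun η =>
      {l | ∃ e, Idx S (dat β).cen T e ∧ e.1 = η ∧ c (y (α e)) = l}
    have k3 : c (y (α (a, b))) ∈
      {l | ∃ e, Idx S (dat β).cen T e ∧ e.1 = a ∧ c (y (α e)) = l} := ⟨(a, b), k1, rfl, rfl⟩
    rw [k2] at k3
    obtain ⟨e, k4, k5, k6⟩ := k3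
    exact ⟨_, _, ⟨(a, b), e, k1, k4, k5.symm, rfl, rfl⟩, k6.symm⟩
  · rintro p q (⟨rfl, e, h, rfl⟩ | ⟨e, e', h, h', h4, rfl, rfl⟩)
    · have k1 : χ (y β) (y (α e)) = g (dat β) e.1 := by
        rw [← hβ, ← (h3 e h).1.1]
        exact ((hα' e).2.1 none).2
      refine ⟨(congrArg Prod.fst k1).trans (h2 _ h.1),
        Subset.trans ?_ (base_of_meet (X.meet (X.lt h))).symm.subset⟩
      rintro x ⟨x1, x2⟩
      have x3 : x ∈ (g (dat β) e.1).2.1 := by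
        rw [← k1]
        exact x2
      obtain ⟨_, rfl | ⟨e', h', rfl⟩, x4⟩ := mem_iUnion₂.1 x1
      · exact x4
      · exact ((h3 e h).2.2 e' h').2.1 ⟨a1 e' ▸ x4, x3⟩
    · have k1 : χ (y (α e)) (y (α e')) = g (d e) e.2 := by
        rw [← (hα' e).2.2, h4, ← (h3 e' h').1.1, ← a2 e e' ⟨h, h4⟩]
        exact ((hα' e').2.1 (some e)).2
      refine ⟨(congrArg Prod.fst k1).trans (h3 e h).1.2.2.2.1,
        Subset.trans ?_ (base_of_meet (X.meet (X.lt' h h' h4))).symm.subset⟩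
      rintro x ⟨x1, x2⟩
      have x3 : x ∈ (g (d e) e.2).2.1 := by
        rw [← k1]
        exact x2
      change x ∈ (dat (α e)).dsupp
      rw [a1 e]
      obtain ⟨_, rfl | ⟨e'', h'', rfl⟩, x4⟩ := mem_iUnion₂.1 x1
      · exact (h3 e h).2.1 ⟨x4, x3⟩
      · exact ((h3 e h).2.2 e'' h'').2.2 ⟨a1 e'' ▸ x4, x3⟩

end Pool.Agent.P.MP_48d4bc_co.T3
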