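import Pool.Agent.P.MP_48d4bc_co.T3Defs

/-! Recursive choices and roots. -/

set_option autoImplicit false

namespace Pool.Agent.P.MP_48d4bc_co.T3

open Cardinal Set

theorem exists_rec_wf {K S : Type} {r : K → K → Prop} (wf : WellFounded r) [Nonempty S]
    (Q : K → (K → S) → S → Prop)
    (hQ : ∀ ξ f g, (∀ ζ, r ζ ξ → f ζ = g ζ) → Q ξ f = Q ξ g) :
    ∃ f : K → S, ∀ ξ, (∃ x, Q ξ f x) → Q ξ f (f ξ) := by
  classical
  let d : S := Classical.arbitrary S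
  let f : K → S := wf.fix
    (fun ξ rec => Classical.epsilon (Q ξ (fun ζ => if h : r ζ ξ then rec ζ h else d)))
  refine ⟨f, fun ξ h => ?_⟩
  have h1 : f ξ = Classical.epsilon (Q ξ (fun ζ => if _h : r ζ ξ then f ζ else d)) := by
    simp only [f]
    rw [WellFounded.fix_eq]
  rw [h1, hQ ξ _ f fun ζ h => dif_pos h]
  exact Classical.epsilon_spec h

theorem mk_bU_le {ι M : Type} {κ : Cardinal.{0}} (hκ : ℵ₀ ≤ κ) {A : Set ι} (hA : #A ≤ κ)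
    {f : ι → Set M} (hf : ∀ i ∈ A, #(f i) ≤ κ) : #(⋃ i ∈ A, f i) ≤ κ :=
  (mk_biUnion_le _ _).trans (mul_le_of_le hκ hA (ciSup_le' fun i => hf i.1 i.2))

theorem mk_U_le {M : Type} {κ : Cardinal.{0}} (hκ : ℵ₀ ≤ κ) {A B : Set M} (hA : #A ≤ κ)
    (hB : #B ≤ κ) : #(A ∪ B : Set M) ≤ κ :=
  (mk_union_le _ _).trans (add_le_of_le hκ hA hB)

theorem mk_prod_le {ι ι' : Type} {κ : Cardinal.{0}} (hκ : ℵ₀ ≤ κ) {A : Set ι} {B : Set ι'}
    (hA : #A ≤ κ) (hB : #B ≤ κ) : #(A ×ˢ B : Set (ι × ι')) ≤ κ := by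
  rw [mk_setProd]
  exact mul_le_of_le hκ hA hB

/-- successive choices, each one avoiding the traces of the earlier ones -/
theorem exists_seq {ι X M : Type} [Nonempty X] {κ : Cardinal.{0}} (hκ : ℵ₀ ≤ κ) {A : Set ι}
    (hA : #A ≤ κ) {E₀ : Set M} (hE : #E₀ ≤ κ) (Φ : ι → Set M → X → Prop) (fp : ι → X → Set M)
    (hfp : ∀ i x, #(fp i x) ≤ κ) (h : ∀ i ∈ A, ∀ E : Set M, #E ≤ κ → ∃ x, Φ i E x) :
    ∃ (f : ι → X) (E : ι → Set M), (∀ i ∈ A, E₀ ⊆ E i ∧ Φ i (E i) (f i)) ∧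
      ∀ i ∈ A, ∀ i' ∈ A, i ≠ i' → fp i (f i) ⊆ E i' ∨ fp i' (f i') ⊆ E i := by
  let r : ι → ι → Prop := WellOrderingRel
  let En : ι → (ι → X) → Set M := fun i f => E₀ ∪ ⋃ i' ∈ {i' | i' ∈ A ∧ r i' i}, fp i' (f i')
  obtain ⟨f, hf⟩ := exists_rec_wf (WellOrderingRel.isWellOrder (α := ι)).wf
    (fun i f x => Φ i (En i f) x) (fun i f g hfg => by
      have : En i f = En i g := by
        simp only [En]
        congr 1
        exact iUnion₂_congr fun i' hi' => by rw [hfg i' hi'.2]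
      rw [this])
  refine ⟨f, fun i => En i f, fun i hi => ⟨subset_union_left, hf i (h i hi _ ?_)⟩, ?_⟩
  · exact mk_U_le hκ hE (mk_bU_le hκ ((mk_le_mk_of_subset fun _ h => h.1).trans hA)
      fun i' _ => hfp _ _)
  · intro i hi i' hi' hne
    rcases trichotomous_of (WellOrderingRel (α := ι)) i i' with e | e | e
    · exact Or.inl fun x hx => Or.inr (mem_biUnion (t := fun i => fp i (f i)) ⟨hi, e⟩ hx)
    · exact absurd e hne
    · exact Or.inr fun x hx => Or.inr (mem_biUnion (t := fun i => fp i (f i)) ⟨hi', e⟩ hx)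

/-- the root lemma -/
theorem exists_root {ι M : Type} {κ : Cardinal.{0}} (hκ : ℵ₀ ≤ κ) (Φ : Set M → ι → Prop)
    (hΦ : ∀ E E' i, E ⊆ E' → Φ E' i → Φ E i) (D : ι → Set M) (hD : ∀ i, #(D i) ≤ κ)
    (h : ∀ E : Set M, #E ≤ Order.succ κ → ∃ i, Φ E i) :
    ∃ R : Set M, #R ≤ κ ∧ ∀ E : Set M, #E ≤ κ → ∃ i, Φ E i ∧ D i ∩ E ⊆ R := by
  by_contra hn
  have h1 : ∀ R : Set M, ∃ E : Set M, #E ≤ κ ∧ (#R ≤ κ → ∀ i, Φ E i → ¬ D i ∩ E ⊆ R) := by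
    intro R
    by_cases hR : #R ≤ κ
    · by_contra h2
      refine hn ⟨R, hR, fun E hE => ?_⟩
      by_contra h3
      exact h2 ⟨E, hE, fun _ i hi h4 => h3 ⟨i, hi, h4⟩⟩
    · exact ⟨∅, by simp, fun h => absurd h hR⟩
  choose En hE1 hE2 using h1
  let K : Type := (Order.succ κ).ord.ToType
  have hK : #K = Order.succ κ := by simp [K]
  obtain ⟨f, hf⟩ := exists_rec_wf (K := K) wellFounded_lt
    (fun ν (f : K → Set M) x => x = En (⋃ μ ∈ Iio ν, f μ)) (fun ν f g hfg => by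
      have : ⋃ μ ∈ Iio ν, f μ = ⋃ μ ∈ Iio ν, g μ := iUnion₂_congr fun μ hμ => hfg μ hμ
      rw [this])
  have hf' : ∀ ν, f ν = En (⋃ μ ∈ Iio ν, f μ) := fun ν => hf ν ⟨_, rfl⟩
  have hs : ∀ ν, #(f ν) ≤ κ := fun ν => hf' ν ▸ hE1 _
  have hκ' : ℵ₀ ≤ Order.succ κ := hκ.trans (Order.le_succ κ)
  obtain ⟨i, hi⟩ := h (⋃ ν ∈ (univ : Set K), f ν)
    (mk_bU_le hκ' (by rw [mk_univ, hK]) fun ν _ => (hs ν).trans (Order.le_succ κ))
  have h2 : ∀ ν : K, ∃ x : D i, x.1 ∈ f ν ∧ x.1 ∉ ⋃ μ ∈ Iio ν, f μ := by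
    intro ν
    have h3 : #(Iio ν) ≤ κ := Order.lt_succ_iff.1 ((mk_Iio_lt ν (by simp [K])).trans_eq hK)
    have h4 := hE2 _ (mk_bU_le hκ h3 fun μ _ => hs μ) i (hΦ _ _ i (by
      rw [← hf' ν]
      exact subset_biUnion_of_mem (mem_univ ν)) hi)
    obtain ⟨x, ⟨hx1, hx2⟩, hx3⟩ := not_subset.1 h4
    exact ⟨⟨x, hx1⟩, hf' ν ▸ hx2, hx3⟩
  choose x hx1 hx2 using h2
  have hinj : Function.Injective x := by
    intro μ ν e
    rcases lt_trichotomy μ ν with h | h | h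
    · exact absurd (mem_iUnion₂.2 ⟨μ, h, e ▸ hx1 μ⟩) (hx2 ν)
    · exact h
    · exact absurd (mem_iUnion₂.2 ⟨ν, h, e ▸ hx1 ν⟩) (hx2 μ)
  have h5 := (mk_le_of_injective hinj).trans (hD i)
  rw [hK] at h5
  exact absurd h5 (not_le.2 (Order.lt_succ κ))

theorem exists_fresh {M : Type} {κ : Cardinal.{0}} (hM : κ < #M) {E : Set M} (hE : #E ≤ κ) :
    ∃ x, x ∉ E := by
  by_contra h
  have : E = Set.univ := eq_univ_of_forall fun x => by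
    by_contra hx
    exact h ⟨x, hx⟩
  rw [this, mk_univ] at hE
  exact absurd hE (not_le.2 hM)

end Pool.Agent.P.MP_48d4bc_co.T3
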