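import Pool.Agent.P.MP_48d4bc_co.T3Root

/-! The star at the apex. -/

set_option autoImplicit false

namespace Pool.Agent.P.MP_48d4bc_co.T3

open Cardinal Set

variable {M : Type} {σ κ : Cardinal.{0}} {S : Sys M} {Λ L : Type}

/-- stars that can be put on the arc `(a, b)` of the leaf `ξ` -/
def Fit (j : Star σ S → S.Z → Λ) (ξ : S.C) (i : Λ) (a b : S.Z) (E : Set M) (d : Star σ S) :
    Prop :=
  S.ap d.cen = a ∧ b ∈ S.F d.cen ∧ ξ ∈ d.lv ∧ j d b = i ∧ d.outer ξ ∩ E ⊆ S.base a b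

theorem Fit.anti {j : Star σ S → S.Z → Λ} {ξ : S.C} {i : Λ} {a b : S.Z} {E E' : Set M}
    {d : Star σ S} (h : E ⊆ E') (h' : Fit j ξ i a b E' d) : Fit j ξ i a b E d :=
  ⟨h'.1, h'.2.1, h'.2.2.1, h'.2.2.2.1, (inter_subset_inter_right _ h).trans h'.2.2.2.2⟩

theorem exists_star (hσ : ℵ₀ ≤ σ) (hκ : σ ≤ κ) (hΛ : #Λ ≤ σ) (hM : Order.succ κ < #M)
    (hS : S.Small σ) (hR : S.Ram (Set Λ) L (Order.succ (Order.succ κ)))
    (j : Star σ S → S.Z → Λ) (D : Star σ S → S.Z → Set M) (hD : ∀ d a, #(D d a) ≤ κ) :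
    ∃ (d₀ : Star σ S) (R : Set M), #R ≤ κ ∧ S.Large L d₀.cen ∧ d₀.dsupp ∩ R ⊆ S.supp d₀.cen ∧
      ∀ η ∈ S.F d₀.cen, ∀ a b, S.h d₀.cen a b → ∀ E : Set M, #E ≤ κ →
        ∃ d, Fit j d₀.cen (j d₀ η) a b E d ∧ D d b ∩ E ⊆ R := by
  classical
  have k0 : ℵ₀ ≤ κ := hσ.trans hκ
  have k1 : κ ≤ Order.succ κ := Order.le_succ κ
  have k2 : ℵ₀ ≤ Order.succ κ := k0.trans k1
  have k3 : Order.succ κ ≤ Order.succ (Order.succ κ) := Order.le_succ _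
  have kΛ : ∀ A : Set Λ, #A ≤ σ := fun A => (mk_set_le A).trans hΛ
  -- good triples, their roots and the witnesses for bad triples
  let good : S.C → Λ → S.Z → S.Z → Prop := fun ξ i a b =>
    ∀ E : Set M, #E ≤ Order.succ κ → ∃ d, Fit j ξ i a b E d
  have h1 : ∀ ξ i a b, ∃ R : Set M, #R ≤ κ ∧ (good ξ i a b →
      ∀ E : Set M, #E ≤ κ → ∃ d, Fit j ξ i a b E d ∧ D d b ∩ E ⊆ R) := by
    intro ξ i a b
    by_cases h : good ξ i a b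
    · obtain ⟨R, r1, r2⟩ := exists_root k0 (Fit j ξ i a b) (fun _ _ _ => Fit.anti)
        (fun d => D d b) (fun d => hD d b) h
      exact ⟨R, r1, fun _ => r2⟩
    · exact ⟨∅, by simp, fun q => absurd q h⟩
  choose R hR1 hR2 using h1
  have h2 : ∀ ξ i a b, ∃ W : Set M, #W ≤ Order.succ κ ∧ (¬ good ξ i a b →
      ∀ d, ¬ Fit j ξ i a b W d) := by
    intro ξ i a b
    by_cases h : good ξ i a b
    · exact ⟨∅, by simp, fun q => absurd h q⟩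
    · obtain ⟨W, hW⟩ := not_forall.1 h
      obtain ⟨w1, w2⟩ := Classical.not_imp.1 hW
      exact ⟨W, w1, fun _ d hd => w2 ⟨d, hd⟩⟩
  choose W hW1 hW2 using h2
  -- robustly bad colours
  let bad : Λ → S.Z → S.Z → Set M → S.C → Prop := fun i a b E ξ =>
    S.h ξ a b ∧ S.supp ξ ∩ E ⊆ S.base a b ∧ ¬ good ξ i a b
  let P : S.Z → S.Z → Set Λ := fun a b =>
    {i | ∀ E : Set M, #E ≤ Order.succ (Order.succ κ) → ∃ ξ, bad i a b E ξ}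
  have h3 : ∀ i a b, ∃ U : Set M, #U ≤ Order.succ (Order.succ κ) ∧
      (i ∈ P a b → #U ≤ Order.succ κ ∧ ∀ E : Set M, #E ≤ Order.succ κ →
        ∃ ξ, bad i a b E ξ ∧ W ξ i a b ∩ E ⊆ U) ∧
      (i ∉ P a b → ∀ ξ, ¬ bad i a b U ξ) := by
    intro i a b
    by_cases h : i ∈ P a b
    · obtain ⟨U, u1, u2⟩ := exists_root k2 (bad i a b) (fun E E' ξ hE q =>
        ⟨q.1, (inter_subset_inter_right _ hE).trans q.2.1, q.2.2⟩)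
        (fun ξ => W ξ i a b) (fun ξ => hW1 ξ i a b) h
      exact ⟨U, u1.trans k3, fun _ => ⟨u1, u2⟩, fun q => absurd h q⟩
    · obtain ⟨U, hU⟩ := not_forall.1 h
      obtain ⟨u1, u2⟩ := Classical.not_imp.1 hU
      exact ⟨U, u1, fun q => absurd q h, fun _ ξ q => u2 ⟨ξ, q⟩⟩
  choose U hU1 hU2 hU3 using h3
  obtain ⟨ζ, P₀, hL, hζ⟩ := hR P (fun a b => ⋃ i ∈ (Set.univ : Set Λ), U i a b) fun a b =>
    mk_bU_le (k2.trans k3) ((kΛ _).trans (hκ.trans (k1.trans k3))) fun i _ => hU1 i a b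
  have hζ' : ∀ a b i, S.arc ζ a b → S.supp ζ ∩ U i a b ⊆ S.base a b := fun a b i h =>
    (inter_subset_inter_right _ (subset_biUnion_of_mem (u := fun i => U i a b)
      (mem_univ i))).trans (hζ a b h).2
  have hv : ∀ η ∈ S.F ζ, S.arc ζ (S.ap ζ) η := fun η h => Or.inl ⟨rfl, h⟩
  -- the leaves
  let A : Set (S.Z × Λ) := S.F ζ ×ˢ P₀
  have hA : #A ≤ σ := mk_prod_le hσ (hS ζ).1 (kΛ _)
  have hP : ∀ q ∈ A, q.2 ∈ P (S.ap ζ) q.1 := fun q hq => by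
    rw [(hζ _ _ (hv _ hq.1)).1]
    exact hq.2
  let R₀ : Set M := ⋃ q ∈ (S.F ζ ×ˢ S.F ζ) ×ˢ (Set.univ : Set Λ), R ζ q.2 q.1.1 q.1.2
  have hR₀ : #R₀ ≤ κ := mk_bU_le k0 ((mk_prod_le hσ (mk_prod_le hσ (hS ζ).1 (hS ζ).1)
    (kΛ _)).trans hκ) fun q _ => hR1 _ _ _ _
  let U₀ : Set M := ⋃ q ∈ A, U q.2 (S.ap ζ) q.1
  have hU₀ : #U₀ ≤ Order.succ κ := mk_bU_le k2 (hA.trans (hκ.trans k1))
    fun q hq => (hU2 _ _ _ (hP q hq)).1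
  have : Nonempty S.C := ⟨ζ⟩
  have ks : ∀ ξ, #(S.supp ξ) ≤ Order.succ κ := fun ξ => (hS ξ).2.trans (hκ.trans k1)
  obtain ⟨f, E, hf, hf'⟩ := exists_seq k2 (hA.trans (hκ.trans k1))
    (E₀ := S.supp ζ ∪ R₀ ∪ U₀) (mk_U_le k2 (mk_U_le k2 (ks ζ) (hR₀.trans k1)) hU₀)
    (fun q E ξ => bad q.2 (S.ap ζ) q.1 E ξ ∧ W ξ q.2 (S.ap ζ) q.1 ∩ E ⊆ U q.2 (S.ap ζ) q.1)
    (fun q ξ => S.supp ξ ∪ W ξ q.2 (S.ap ζ) q.1) (fun q ξ => mk_U_le k2 (ks ξ) (hW1 _ _ _ _))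
    fun q hq => (hU2 _ _ _ (hP q hq)).2
  have g1 : ∀ q ∈ A, S.supp (f q) ∩ E q ⊆ S.root ζ := fun q hq => by
    rw [← S.base_ap hq.1]
    exact (hf q hq).2.1.2.1
  obtain ⟨t, ht⟩ := exists_fresh hM (E := (S.supp ζ ∪ R₀) ∪
      ⋃ q ∈ A, (S.supp (f q) ∪ W (f q) q.2 (S.ap ζ) q.1))
    (mk_U_le k2 (mk_U_le k2 (ks ζ) (hR₀.trans k1)) (mk_bU_le k2 (hA.trans (hκ.trans k1))
      fun q _ => mk_U_le k2 (ks _) (hW1 _ _ _ _)))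
  have ht' : ∀ q ∈ A, t ∉ S.supp (f q) ∪ W (f q) q.2 (S.ap ζ) q.1 := fun q hq h =>
    ht (Or.inr (mem_iUnion₂.2 ⟨q, hq, h⟩))
  let d₀ : Star σ S :=
    { cen := ζ
      lv := f '' A
      tag := t
      leaf := by
        rintro _ ⟨q, hq, rfl⟩
        exact ⟨q.1, hq.1, (hf q hq).2.1.1⟩
      sep := by
        rintro _ ⟨q, hq, rfl⟩ _ (rfl | ⟨q', hq', rfl⟩) hne x ⟨x1, x2⟩
        · exact g1 q hq ⟨x1, (hf q hq).1 (Or.inl (Or.inl x2))⟩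
        · rcases hf' q hq q' hq' (fun e => hne (by rw [e])) with h | h
          · exact g1 q' hq' ⟨x2, h (Or.inl x1)⟩
          · exact g1 q hq ⟨x1, h (Or.inl x2)⟩
      fresh := by
        rintro _ (rfl | ⟨q, hq, rfl⟩) h
        · exact ht (Or.inl (Or.inl h))
        · exact ht' q hq (Or.inl h)
      small := mk_image_le.trans hA }
  refine ⟨d₀, R₀, hR₀, hL, ?_, fun η hη a b hab E' hE' => ?_⟩
  · rintro x ⟨rfl | ⟨_, rfl | ⟨q, hq, rfl⟩, x1⟩, x2⟩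
    · exact absurd (Or.inl (Or.inr x2)) ht
    · exact x1
    · exact S.root_sub ζ (g1 q hq ⟨x1, (hf q hq).1 (Or.inl (Or.inr x2))⟩)
  have g2 : j d₀ η ∉ P₀ := by
    intro h
    have hq : (η, j d₀ η) ∈ A := ⟨hη, h⟩
    obtain ⟨e1, ⟨-, -, e2⟩, e3⟩ := hf _ hq
    refine hW2 _ _ _ _ e2 d₀ ⟨rfl, hη, ⟨_, hq, rfl⟩, rfl, ?_⟩
    rintro x ⟨rfl | ⟨_, rfl | ⟨q, hq', rfl⟩, hne, x1⟩, x2⟩
    · exact absurd (Or.inr x2) (ht' _ hq)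
    · exact hζ' _ _ _ (hv η hη) ⟨x1, e3 ⟨x2, e1 (Or.inl (Or.inl x1))⟩⟩
    · rw [S.base_ap hη]
      rcases hf' q hq' _ hq (fun e => hne (by rw [e])) with h | h
      · exact g1 q hq' ⟨x1, (hf q hq').1
          (Or.inr (mem_iUnion₂.2 ⟨_, hq, e3 ⟨x2, h (Or.inl x1)⟩⟩))⟩
      · exact g1 q hq' ⟨x1, h (Or.inr x2)⟩
  have g3 : good ζ (j d₀ η) a b := by
    by_contra h
    refine hU3 (j d₀ η) a b ?_ ζ ⟨hab, hζ' _ _ _ (Or.inr hab), h⟩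
    rw [(hζ a b (Or.inr hab)).1]
    exact g2
  obtain ⟨d, e1, e2⟩ := hR2 _ _ _ _ g3 E' hE'
  exact ⟨d, e1, e2.trans fun x hx => mem_iUnion₂.2
    ⟨((a, b), j d₀ η), ⟨⟨S.h_left hab, S.h_right hab⟩, mem_univ _⟩, hx⟩⟩

end Pool.Agent.P.MP_48d4bc_co.T3
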