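import Pool.Agent.P.MP_48d4bc_co.Main

set_option autoImplicit false

open Pool.Agent.P.MP_48d4bc_co

universe u

theorem Pool.Agent.P.MP_48d4bc_co.VariantCountableColouring.result {α β : Type} [Finite α]
    (G₁ : SimpleGraph α) (G₂ : SimpleGraph β) (h₁ : G₁.Colorable 3) (h₂ : ¬ G₂.CliqueFree 3)
    (V : Type u) (H : SimpleGraph V) (hH : G₁.Free H) :
    ∃ c : Sym2 V → ℕ, ¬ HasMonoCopy G₂ H c :=
  main.1 G₁ G₂ h₁ h₂ V H hH
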